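import Pool.Agent.Lib.MP_8a5982_an.FULL.Defs

/-!
Project FULL, module ADM: admissible laws have exponential moments.
-/

open MeasureTheory ProbabilityTheory

namespace FULL

namespace AdmAux

theorem int_exp {ι : Type} [Fintype ι] (u : ι → ℝ) :
    Integrable (fun x : ι → ℝ => Real.exp (∑ i, u i * x i))
      (Measure.pi fun _ : ι => gaussianReal 0 1) := by
  have h := Integrable.fintype_prod (𝕜 := ℝ) (ι := ι) (f := fun i x => Real.exp (u i * x))
    (μ := fun _ => gaussianReal 0 1) (fun i => integrable_exp_mul_gaussianReal (u i))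
  refine h.congr (ae_of_all _ fun x => ?_)
  simp only [Real.exp_sum]

theorem integral_exp {ι : Type} [Fintype ι] (u : ι → ℝ) :
    ∫ x, Real.exp (∑ i, u i * x i) ∂(Measure.pi fun _ : ι => gaussianReal 0 1) =
      Real.exp ((∑ i, u i ^ 2) / 2) := by
  simp_rw [Real.exp_sum]
  rw [integral_fintype_prod_eq_prod (fun i x => Real.exp (u i * x))]
  rw [Finset.sum_div, Real.exp_sum]
  refine Finset.prod_congr rfl fun i _ => ?_
  have h := congrFun (mgf_fun_id_gaussianReal (μ := 0) (v := 1)) (u i)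
  unfold mgf at h
  simpa using h

variable {n : ℕ} {κ : Type} [Fintype κ] {P : Measure (Fin n × κ → ℝ)}

/-- the projection to the vectors of `S` -/
def proj (S : Finset (Fin n)) (x : Fin n × κ → ℝ) (i : S × κ) : ℝ := x (i.1.1, i.2)

omit [Fintype κ] in
theorem measurable_proj (S : Finset (Fin n)) : Measurable (proj (κ := κ) S) := by
  unfold proj
  fun_prop

theorem sum_proj (k : Fin n) (u : Fin n × κ → ℝ) (x : Fin n × κ → ℝ) :
    ∑ i : ({k} : Finset (Fin n)) × κ, u (i.1.1, i.2) * proj {k} x i =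
      ∑ j, u (k, j) * x (k, j) := by
  unfold proj
  rw [Fintype.sum_prod_type]
  have h := Finset.sum_coe_sort ({k} : Finset (Fin n)) (fun k' => ∑ j, u (k', j) * x (k', j))
  rw [Finset.sum_singleton] at h
  exact h

theorem sum_sq (k : Fin n) (u : Fin n × κ → ℝ) :
    ∑ i : ({k} : Finset (Fin n)) × κ, u (i.1.1, i.2) ^ 2 = ∑ j, u (k, j) ^ 2 := by
  rw [Fintype.sum_prod_type]
  have h := Finset.sum_coe_sort ({k} : Finset (Fin n)) (fun k' => ∑ j, u (k', j) ^ 2)
  rw [Finset.sum_singleton] at h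
  exact h

theorem map_proj (h : Adm n P) (k : Fin n) :
    P.map (proj {k}) = Measure.pi fun _ : ({k} : Finset (Fin n)) × κ => gaussianReal 0 1 :=
  h.2 {k} (by simp)

theorem int_one (h : Adm n P) (k : Fin n) (u : Fin n × κ → ℝ) :
    Integrable (fun x => Real.exp (∑ j, u (k, j) * x (k, j))) P := by
  have h1 := int_exp (fun i : ({k} : Finset (Fin n)) × κ => u (i.1.1, i.2))
  rw [← map_proj h k] at h1
  have h2 := h1.comp_measurable (measurable_proj {k})
  refine h2.congr (ae_of_all _ fun x => ?_)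
  simp only [Function.comp]
  rw [sum_proj]

theorem integral_one (h : Adm n P) (k : Fin n) (u : Fin n × κ → ℝ) :
    ∫ x, Real.exp (∑ j, u (k, j) * x (k, j)) ∂P = Real.exp ((∑ j, u (k, j) ^ 2) / 2) := by
  have h1 := integral_exp (fun i : ({k} : Finset (Fin n)) × κ => u (i.1.1, i.2))
  rw [sum_sq, ← map_proj h k, integral_map (measurable_proj {k}).aemeasurable
    (Measurable.aestronglyMeasurable (by fun_prop))] at h1
  rw [← h1]
  congr 1
  funext x
  rw [sum_proj]

/-- convexity of the exponential -/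
theorem exp_le (hn : 0 < n) (Y : Fin n → ℝ) :
    Real.exp (∑ k, Y k) ≤ (1 / (n : ℝ)) * ∑ k, Real.exp (n * Y k) := by
  have hn' : (n : ℝ) ≠ 0 := by exact_mod_cast hn.ne'
  have h := convexOn_exp.map_sum_le (t := Finset.univ) (w := fun _ : Fin n => 1 / (n : ℝ))
    (p := fun k => n * Y k) (fun _ _ => by positivity)
    (by simp [Finset.sum_const, hn']) (fun _ _ => Set.mem_univ _)
  simp only [smul_eq_mul] at h
  rw [← Finset.mul_sum, ← Finset.mul_sum, ← Finset.mul_sum] at h
  have e : 1 / (n : ℝ) * ((n : ℝ) * ∑ k, Y k) = ∑ k, Y k := by field_simp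
  rwa [e] at h

theorem dot_eq (u x : Fin n × κ → ℝ) : dot u x = ∑ k, ∑ j, u (k, j) * x (k, j) := by
  unfold dot
  rw [Fintype.sum_prod_type]

theorem nsq_eq (u : Fin n × κ → ℝ) : nsq u = ∑ k, ∑ j, u (k, j) ^ 2 := by
  unfold nsq
  rw [Fintype.sum_prod_type]

theorem exp_dot_le (hn : 0 < n) (u x : Fin n × κ → ℝ) : Real.exp (dot u x) ≤
    (1 / (n : ℝ)) * ∑ k, Real.exp (∑ j, ((n : ℝ) • u) (k, j) * x (k, j)) := by
  rw [dot_eq]
  refine le_trans (exp_le hn _) (le_of_eq ?_)
  congr 1
  refine Finset.sum_congr rfl fun k _ => ?_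
  rw [Finset.mul_sum]
  congr 1
  refine Finset.sum_congr rfl fun j _ => ?_
  rw [Pi.smul_apply, smul_eq_mul]
  ring

theorem int_bound (h : Adm n P) (u : Fin n × κ → ℝ) : Integrable (fun x =>
    (1 / (n : ℝ)) * ∑ k, Real.exp (∑ j, ((n : ℝ) • u) (k, j) * x (k, j))) P :=
  (integrable_finsetSum _ fun k _ => int_one h k _).const_mul _

theorem zero_case (hn : ¬ 0 < n) (u x : Fin n × κ → ℝ) : dot u x = 0 := by
  have h0 : n = 0 := by omega
  subst h0
  unfold dot
  simp

end AdmAux

open AdmAux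

theorem Adm.expM {n : ℕ} {κ : Type} [Fintype κ] {P : Measure (Fin n × κ → ℝ)} (h : Adm n P) :
    ExpM P ((n : ℝ) ^ 2) := by
  have := h.1
  have hint : ∀ u : Fin n × κ → ℝ, Integrable (fun x => Real.exp (dot u x)) P := by
    intro u
    by_cases hn : 0 < n
    · refine (int_bound h u).mono' ?_ (ae_of_all _ fun x => ?_)
      · apply Measurable.aestronglyMeasurable
        unfold dot
        fun_prop
      · rw [Real.norm_eq_abs, abs_of_pos (Real.exp_pos _)]
        exact exp_dot_le hn u x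
    · simp only [zero_case hn]
      exact integrable_const _
  refine ⟨by positivity, h.1, hint, ?_⟩
  intro u
  by_cases hn : 0 < n
  · have hn' : (n : ℝ) ≠ 0 := by exact_mod_cast hn.ne'
    have h1 : ∫ x, Real.exp (dot u x) ∂P ≤ ∫ x, (1 / (n : ℝ)) *
        ∑ k, Real.exp (∑ j, ((n : ℝ) • u) (k, j) * x (k, j)) ∂P :=
      integral_mono (hint u) (int_bound h u) (fun x => exp_dot_le hn u x)
    refine le_trans h1 ?_
    rw [integral_const_mul, integral_finsetSum _ (fun k _ => int_one h k _)]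
    simp_rw [integral_one h]
    have h2 : ∀ k ∈ (Finset.univ : Finset (Fin n)),
        Real.exp ((∑ j, ((n : ℝ) • u) (k, j) ^ 2) / 2) ≤ Real.exp ((n : ℝ) ^ 2 * nsq u) := by
      intro k hk
      apply Real.exp_le_exp.2
      have h3 : ∑ j, ((n : ℝ) • u) (k, j) ^ 2 = (n : ℝ) ^ 2 * ∑ j, u (k, j) ^ 2 := by
        rw [Finset.mul_sum]
        refine Finset.sum_congr rfl fun j _ => ?_
        rw [Pi.smul_apply, smul_eq_mul]
        ring
      have h4 : ∑ j, u (k, j) ^ 2 ≤ nsq u := by
        rw [nsq_eq]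
        exact Finset.single_le_sum (f := fun k => ∑ j, u (k, j) ^ 2)
          (fun k _ => Finset.sum_nonneg fun j _ => sq_nonneg _) hk
      have h5 : 0 ≤ ∑ j, u (k, j) ^ 2 := Finset.sum_nonneg fun j _ => sq_nonneg _
      rw [h3]
      have h6 : (n : ℝ) ^ 2 * ∑ j, u (k, j) ^ 2 ≤ (n : ℝ) ^ 2 * nsq u :=
        mul_le_mul_of_nonneg_left h4 (by positivity)
      have h7 : 0 ≤ (n : ℝ) ^ 2 * ∑ j, u (k, j) ^ 2 := mul_nonneg (by positivity) h5
      linarith
    calc (1 / (n : ℝ)) * ∑ k, Real.exp ((∑ j, ((n : ℝ) • u) (k, j) ^ 2) / 2)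
        ≤ (1 / (n : ℝ)) * ∑ _k : Fin n, Real.exp ((n : ℝ) ^ 2 * nsq u) :=
          mul_le_mul_of_nonneg_left (Finset.sum_le_sum h2) (by positivity)
      _ = Real.exp ((n : ℝ) ^ 2 * nsq u) := by
          rw [Finset.sum_const, Finset.card_univ, Fintype.card_fin, nsmul_eq_mul]
          field_simp
  · simp only [zero_case hn]
    rw [Real.exp_zero, integral_const, probReal_univ, one_smul]
    apply Real.one_le_exp
    have : 0 ≤ nsq u := Finset.sum_nonneg fun i _ => sq_nonneg _
    positivity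

theorem Adm.sq {n : ℕ} {κ : Type} [Fintype κ] {P : Measure (Fin n × κ → ℝ)} (h : Adm n P)
    (i : Fin n × κ) : ∫ x, x i ^ 2 ∂P = 1 := by
  have hmem : i.1 ∈ ({i.1} : Finset (Fin n)) := Finset.mem_singleton_self _
  have hmp : MeasurePreserving (fun z : ({i.1} : Finset (Fin n)) × κ → ℝ => z (⟨i.1, hmem⟩, i.2))
      (Measure.pi fun _ => gaussianReal 0 1) (gaussianReal 0 1) :=
    measurePreserving_eval (fun _ => gaussianReal 0 1) _
  have h1 : ∫ x, x ^ 2 ∂(gaussianReal 0 1) = 1 := by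
    have h2 := variance_id_gaussianReal (μ := 0) (v := 1)
    rw [variance_of_integral_eq_zero aemeasurable_id (by simp [integral_id_gaussianReal])] at h2
    simpa using h2
  rw [← hmp.map_eq, integral_map hmp.measurable.aemeasurable (by fun_prop),
    ← map_proj h i.1, integral_map (measurable_proj {i.1}).aemeasurable
      (Measurable.aestronglyMeasurable (by fun_prop))] at h1
  exact h1

end FULL
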