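import Pool.Agent.Lib.MP_8a5982_an.FULL.Defs

/-!
Project FULL, module GAUSS: the Gaussian measure `gam`.
-/

set_option autoImplicit false

open MeasureTheory ProbabilityTheory Filter Topology

namespace FULL

/-! ### one dimension -/

theorem gauss_shift1 (v : NNReal) (u : ℝ) (hu : v = 0 → u = 0) :
    (gaussianReal 0 v).map (fun x => x + u) = (gaussianReal 0 v).withDensity
      (fun x => ENNReal.ofReal (Real.exp (u * x / v - u ^ 2 / (2 * v)))) := by
  by_cases hv : v = 0
  · have hu0 := hu hv
    subst hv hu0
    simp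
  · rw [gaussianReal_map_add_const, zero_add, gaussianReal_of_var_ne_zero _ hv,
      gaussianReal_of_var_ne_zero _ hv, ← withDensity_mul]
    · congr 1
      funext x
      simp only [Pi.mul_apply, gaussianPDF]
      rw [← ENNReal.ofReal_mul (gaussianPDFReal_nonneg _ _ _)]
      congr 1
      simp only [gaussianPDFReal]
      conv_rhs => rw [mul_assoc, ← Real.exp_add]
      congr 2
      have hv' : (v : ℝ) ≠ 0 := by exact_mod_cast hv
      field_simp
      ring
    · exact measurable_gaussianPDF _ _
    · fun_prop

theorem integrable_shift_density (v : NNReal) (u : ℝ) :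
    Integrable (fun x => Real.exp (u * x / v - u ^ 2 / (2 * v))) (gaussianReal 0 v) := by
  have h := (integrable_exp_mul_gaussianReal (μ := 0) (v := v) (u / v)).mul_const
    (Real.exp (-(u ^ 2 / (2 * v))))
  refine h.congr (Eventually.of_forall fun x => ?_)
  simp only
  rw [← Real.exp_add]
  congr 1
  ring

/-! ### products -/

theorem pi_withDensity_ofReal {ι : Type} [Fintype ι] (μ : ι → Measure ℝ)
    [∀ i, IsProbabilityMeasure (μ i)] (f : ι → ℝ → ℝ) (hf : ∀ i, Integrable (f i) (μ i))
    (hf0 : ∀ i x, 0 ≤ f i x) :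
    Measure.pi (fun i => (μ i).withDensity (fun x => ENNReal.ofReal (f i x))) =
      (Measure.pi μ).withDensity (fun x => ENNReal.ofReal (∏ i, f i (x i))) := by
  classical
  have : ∀ i, IsFiniteMeasure ((μ i).withDensity (fun x => ENNReal.ofReal (f i x))) := fun i =>
    isFiniteMeasure_withDensity_ofReal (hf i).2
  refine (Measure.pi_eq fun s hs => ?_)
  have hms : MeasurableSet (Set.univ.pi s) := MeasurableSet.univ_pi hs
  rw [withDensity_apply _ hms]
  set φ : ∀ i, ℝ → ℝ := fun i => (s i).indicator (f i) with hφ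
  have hφint : ∀ i, Integrable (φ i) (μ i) := fun i => (hf i).indicator (hs i)
  have hφnn : ∀ i x, 0 ≤ φ i x := by
    intro i x
    simp only [hφ]
    exact Set.indicator_nonneg (fun y _ => hf0 i y) x
  have hprodint : Integrable (fun ξ : ι → ℝ => ∏ i, φ i (ξ i)) (Measure.pi μ) :=
    Integrable.fintype_prod_dep hφint
  have h1 : ∫⁻ ξ in Set.univ.pi s, ENNReal.ofReal (∏ i, f i (ξ i)) ∂(Measure.pi μ) =
      ∫⁻ ξ : ι → ℝ, ENNReal.ofReal (∏ i, φ i (ξ i)) ∂(Measure.pi μ) := by
    rw [← lintegral_indicator hms]
    apply lintegral_congr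
    intro ξ
    by_cases h : ξ ∈ Set.univ.pi s
    · rw [Set.indicator_of_mem h]
      congr 1
      apply Finset.prod_congr rfl
      intro i _
      simp only [hφ]
      rw [Set.indicator_of_mem (h i (Set.mem_univ i))]
    · rw [Set.indicator_of_notMem h]
      symm
      rw [Set.mem_univ_pi] at h
      push Not at h
      obtain ⟨i, hi⟩ := h
      rw [Finset.prod_eq_zero (Finset.mem_univ i), ENNReal.ofReal_zero]
      simp only [hφ]
      rw [Set.indicator_of_notMem hi]
  rw [h1, ← ofReal_integral_eq_lintegral_ofReal hprodint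
    (Filter.Eventually.of_forall fun ξ => Finset.prod_nonneg fun i _ => hφnn i _),
    integral_fintype_prod_eq_prod, ENNReal.ofReal_prod_of_nonneg
      (fun i _ => integral_nonneg (hφnn i))]
  apply Finset.prod_congr rfl
  intro i _
  rw [ofReal_integral_eq_lintegral_ofReal (hφint i)
    (Filter.Eventually.of_forall (hφnn i)), withDensity_apply _ (hs i),
    ← lintegral_indicator (hs i)]
  apply lintegral_congr
  intro x
  by_cases hx : x ∈ s i
  · simp [hφ, hx]
  · simp [hφ, hx]

section gauss
variable {ι : Type} [Fintype ι]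

instance instProbGam (w : ι → NNReal) : IsProbabilityMeasure (gam w) := by
  unfold gam; infer_instance

theorem isProbability_gam (w : ι → NNReal) : IsProbabilityMeasure (gam w) := inferInstance

theorem exp_dot_eq (u B : ι → ℝ) : Real.exp (dot u B) = ∏ i, Real.exp (u i * B i) := by
  rw [dot, Real.exp_sum]

theorem integrable_exp_gam (w : ι → NNReal) (u : ι → ℝ) :
    Integrable (fun B => Real.exp (dot u B)) (gam w) := by
  simp only [exp_dot_eq]
  exact Integrable.fintype_prod_dep (f := fun i x => Real.exp (u i * x))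
    (fun i => integrable_exp_mul_gaussianReal (u i))

theorem integral_exp_gam (w : ι → NNReal) (u : ι → ℝ) :
    ∫ B, Real.exp (dot u B) ∂(gam w) = Real.exp ((∑ i, (w i : ℝ) * u i ^ 2) / 2) := by
  simp only [exp_dot_eq]
  rw [gam, integral_fintype_prod_eq_prod (f := fun i x => Real.exp (u i * x)), Finset.sum_div,
    Real.exp_sum]
  apply Finset.prod_congr rfl
  intro i _
  have h := congrFun (mgf_fun_id_gaussianReal (μ := 0) (v := w i)) (u i)
  rw [mgf] at h
  rw [h]
  congr 1
  ring

theorem expM_gam (w : ι → NNReal) (C : ℝ) (hC : 0 ≤ C) (hw : ∀ i, (w i : ℝ) ≤ C) :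
    ExpM (gam w) (C / 2) where
  nonneg := by positivity
  prob := inferInstance
  int := integrable_exp_gam w
  le := by
    intro u
    rw [integral_exp_gam]
    apply Real.exp_le_exp.2
    rw [nsq, div_mul_eq_mul_div, Finset.mul_sum]
    apply div_le_div_of_nonneg_right _ (by norm_num)
    exact Finset.sum_le_sum fun i _ => mul_le_mul_of_nonneg_right (hw i) (sq_nonneg _)

theorem gam_shift (w : ι → NNReal) (u : ι → ℝ) (hu : ∀ i, w i = 0 → u i = 0) :
    (gam w).map (fun B => B + u) = (gam w).withDensity
      (fun B => ENNReal.ofReal (Real.exp (∑ i, (u i * B i / w i - u i ^ 2 / (2 * w i))))) := by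
  have h1 : (gam w).map (fun B => B + u) =
      Measure.pi fun i => (gaussianReal 0 (w i)).map (fun x => x + u i) := by
    have : ∀ i, IsProbabilityMeasure ((gaussianReal 0 (w i)).map (fun x => x + u i)) :=
      fun i => Measure.isProbabilityMeasure_map (by fun_prop)
    rw [gam]
    exact (Measure.pi_map_pi (μ := fun i => gaussianReal 0 (w i)) (f := fun i x => x + u i)
      (fun i => by fun_prop))
  rw [h1]
  simp only [fun i => gauss_shift1 (w i) (u i) (hu i)]
  rw [pi_withDensity_ofReal (fun i => gaussianReal 0 (w i))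
    (fun i x => Real.exp (u i * x / w i - u i ^ 2 / (2 * w i)))
    (fun i => integrable_shift_density (w i) (u i)) (fun i x => (Real.exp_pos _).le)]
  simp only [Real.exp_sum]
  rfl

theorem gam_add (w w' : ι → NNReal) :
    ((gam w).prod (gam w')).map (fun p => p.1 + p.2) = gam (w + w') := by
  have h1 := (measurePreserving_arrowProdEquivProdArrow ℝ ℝ ι (fun i => gaussianReal 0 (w i))
    (fun i => gaussianReal 0 (w' i))).map_eq
  rw [gam, gam, ← h1, Measure.map_map (by fun_prop) (MeasurableEquiv.measurable _)]
  have h2 : ((fun p : (ι → ℝ) × (ι → ℝ) => p.1 + p.2) ∘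
      (MeasurableEquiv.arrowProdEquivProdArrow ℝ ℝ ι)) = fun q i => (q i).1 + (q i).2 := by
    funext q; rfl
  rw [h2, gam]
  have h3 : ∀ i, ((gaussianReal 0 (w i)).prod (gaussianReal 0 (w' i))).map
      (fun p : ℝ × ℝ => p.1 + p.2) = gaussianReal 0 (w i + w' i) := by
    intro i
    have := gaussianReal_conv_gaussianReal (m₁ := 0) (m₂ := 0) (v₁ := w i) (v₂ := w' i)
    rw [zero_add] at this
    exact this
  have : ∀ i, IsProbabilityMeasure (((gaussianReal 0 (w i)).prod (gaussianReal 0 (w' i))).map
      (fun p : ℝ × ℝ => p.1 + p.2)) := fun i => Measure.isProbabilityMeasure_map (by fun_prop)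
  have h4 := Measure.pi_map_pi (μ := fun i => (gaussianReal 0 (w i)).prod (gaussianReal 0 (w' i)))
    (f := fun i (p : ℝ × ℝ) => p.1 + p.2) (fun i => by fun_prop)
  rw [h4]
  congr 1
  funext i
  exact h3 i

theorem memLp_eval_gam (w : ι → NNReal) (i : ι) : MemLp (fun B : ι → ℝ => B i) 2 (gam w) := by
  have h := (memLp_id_gaussianReal' (μ := 0) (v := w i) 2 (by norm_num))
  exact h.comp_measurePreserving (measurePreserving_eval (fun i => gaussianReal 0 (w i)) i)

theorem integral_eval_gam (w : ι → NNReal) (i : ι) : ∫ B, B i ∂(gam w) = 0 := by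
  have h := integral_comp_eval (μ := fun i => gaussianReal 0 (w i)) (i := i) (f := fun x => x)
    (by fun_prop)
  rw [gam, h]
  exact integral_id_gaussianReal

theorem integral_sq_gaussianReal (v : NNReal) : ∫ x, x ^ 2 ∂(gaussianReal 0 v) = v := by
  have h := variance_fun_id_gaussianReal (μ := 0) (v := v)
  rw [variance_eq_integral (by fun_prop), integral_id_gaussianReal] at h
  simpa using h

theorem integral_mul_gam [DecidableEq ι] (w : ι → NNReal) (i j : ι) :
    ∫ B, B i * B j ∂(gam w) = if i = j then (w i : ℝ) else 0 := by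
  by_cases hij : i = j
  · subst hij
    rw [if_pos rfl]
    have h := integral_comp_eval (μ := fun i => gaussianReal 0 (w i)) (i := i)
      (f := fun x => x * x) (by fun_prop)
    rw [gam, h]
    rw [← integral_sq_gaussianReal]
    congr 1
    funext x
    ring
  · rw [if_neg hij]
    have hind := (iIndepFun_pi (μ := fun i => gaussianReal 0 (w i)) (X := fun _ x => x)
      (fun i => by fun_prop)).indepFun hij
    have h := hind.integral_fun_mul_eq_mul_integral
      (measurable_pi_apply i).aestronglyMeasurable (measurable_pi_apply j).aestronglyMeasurable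
    rw [gam, h]
    have h2 := integral_eval_gam w i
    rw [gam] at h2
    rw [h2, zero_mul]

/-- the law of finitely many coordinates -/
theorem integral_gam_sq (w : ι → NNReal) (u : ι → ℝ) :
    ∫ B, dot u B ^ 2 ∂(gam w) = ∑ i, (w i : ℝ) * u i ^ 2 := by
  classical
  have h1 : ∀ B : ι → ℝ, dot u B ^ 2 = ∑ i, ∑ j, (u i * u j) * (B i * B j) := by
    intro B
    rw [dot, sq, Finset.sum_mul_sum]
    apply Finset.sum_congr rfl
    intro i _
    apply Finset.sum_congr rfl
    intro j _
    ring
  have h2 : ∀ i j : ι, Integrable (fun B : ι → ℝ => (u i * u j) * (B i * B j)) (gam w) := by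
    intro i j
    exact ((memLp_eval_gam w i).integrable_mul (memLp_eval_gam w j)).const_mul _
  simp only [h1]
  rw [integral_finsetSum _ (fun i _ => integrable_finsetSum _ (fun j _ => h2 i j))]
  apply Finset.sum_congr rfl
  intro i _
  rw [integral_finsetSum _ (fun j _ => h2 i j)]
  simp only [integral_const_mul, integral_mul_gam]
  rw [Finset.sum_eq_single i]
  · rw [if_pos rfl]; ring
  · intro j _ hj
    rw [if_neg (Ne.symm hj), mul_zero]
  · intro h; exact absurd (Finset.mem_univ i) h

theorem integral_gam_dot (w : ι → NNReal) (u : ι → ℝ) : ∫ B, dot u B ∂(gam w) = 0 := by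
  simp only [dot]
  rw [integral_finsetSum]
  · simp only [integral_const_mul, integral_eval_gam, mul_zero, Finset.sum_const_zero]
  · intro i _
    exact ((memLp_eval_gam w i).integrable (by norm_num)).const_mul _

end gauss

end FULL
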