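import Pool.Agent.Lib.MP_8a5982_an.FULL.Gdc

/-!
Project FULL, module MOM: moments of a law with exponential moments.
-/

open MeasureTheory ProbabilityTheory Filter Topology

namespace FULL

/-- `|t|^k ≤ k! (e^t + e^{-t})` -/
theorem abs_pow_le_exp (t : ℝ) (k : ℕ) :
    |t| ^ k ≤ (Nat.factorial k : ℝ) * (Real.exp t + Real.exp (-t)) := by
  have h1 := Real.pow_div_factorial_le_exp |t| (abs_nonneg t) k
  have hk : (0 : ℝ) < Nat.factorial k := by exact_mod_cast Nat.factorial_pos k
  rw [div_le_iff₀ hk] at h1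
  have h2 : Real.exp |t| ≤ Real.exp t + Real.exp (-t) := by
    rcases abs_choice t with h | h <;> rw [h]
    · linarith [Real.exp_pos (-t)]
    · linarith [Real.exp_pos t]
  calc |t| ^ k ≤ Real.exp |t| * (Nat.factorial k : ℝ) := h1
    _ ≤ (Real.exp t + Real.exp (-t)) * (Nat.factorial k : ℝ) :=
        mul_le_mul_of_nonneg_right h2 hk.le
    _ = _ := mul_comm _ _

section mom
variable {ι : Type} [Fintype ι] {P : Measure (ι → ℝ)} {C : ℝ}

theorem dot_neg_left (u x : ι → ℝ) : dot (-u) x = -dot u x := by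
  have h := dot_smul (-1) u x
  rw [neg_one_smul] at h
  rw [h]; ring

theorem nsq_neg (u : ι → ℝ) : nsq (-u) = nsq u := by
  unfold nsq
  simp

theorem ExpM.gd_exp (hP : ExpM P C) (u : ι → ℝ) : Gd P (fun x => Real.exp (dot u x)) := by
  refine Gd.of_pow (measurable_dot u).exp fun k _ => ?_
  have h : (fun x => |Real.exp (dot u x)| ^ k) = fun x => Real.exp (dot ((k : ℝ) • u) x) := by
    funext x
    rw [abs_of_pos (Real.exp_pos _), dot_smul, ← Real.exp_nat_mul]
  rw [h]
  exact hP.int _

theorem ExpM.gd_dot (hP : ExpM P C) (u : ι → ℝ) : Gd P (dot u) := by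
  refine Gd.of_pow (measurable_dot u) fun k _ => ?_
  have h1 := ((hP.int u).add (hP.int (-u))).const_mul (Nat.factorial k : ℝ)
  refine h1.mono' (((measurable_dot u).abs.pow_const k).aestronglyMeasurable)
    (Eventually.of_forall fun x => ?_)
  rw [Real.norm_of_nonneg (by positivity)]
  have h2 := abs_pow_le_exp (dot u x) k
  simpa [dot_neg_left] using h2

theorem ExpM.gd_crd (hP : ExpM P C) (i : ι) : Gd P (crd i) := by
  classical
  rw [← dot_crd i]
  exact hP.gd_dot _

theorem ExpM.mono (hP : ExpM P C) {C' : ℝ} (h : C ≤ C') : ExpM P C' where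
  nonneg := hP.nonneg.trans h
  prob := hP.prob
  int := hP.int
  le := fun u => (hP.le u).trans
    (Real.exp_le_exp.2 (mul_le_mul_of_nonneg_right h (nsq_nonneg u)))

theorem ExpM.moment (hP : ExpM P C) (u : ι → ℝ) (k : ℕ) :
    ∫ x, dot u x ^ (2 * k) ∂P ≤ 2 * (Nat.factorial (2 * k)) * Real.exp C * nsq u ^ k := by
  have := hP.prob
  have hn := nsq_nonneg u
  have heC : 1 ≤ Real.exp C := Real.one_le_exp hP.nonneg
  have hf : (1 : ℝ) ≤ Nat.factorial (2 * k) := by exact_mod_cast Nat.factorial_pos _
  rcases hn.eq_or_lt with h0 | h0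
  · -- the zero vector
    have hu : ∀ x, dot u x = 0 := by
      intro x
      have h1 := dot_cs u x
      rw [← h0, zero_mul] at h1
      exact pow_eq_zero_iff (two_ne_zero) |>.1 (le_antisymm h1 (sq_nonneg _))
    simp_rw [hu]
    rw [← h0, integral_const, probReal_univ, one_smul, pow_mul, zero_pow two_ne_zero]
    have h2 : (0 : ℝ) ≤ 0 ^ k := by positivity
    have h3 : (1 : ℝ) ≤ 2 * (Nat.factorial (2 * k)) * Real.exp C := by nlinarith
    nlinarith
  · set r : ℝ := Real.sqrt (nsq u) with hr
    have hr0 : 0 < r := Real.sqrt_pos.2 h0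
    have hr2 : r ^ 2 = nsq u := Real.sq_sqrt hn
    set v : ι → ℝ := r⁻¹ • u with hv
    have hv1 : nsq v = 1 := by
      rw [hv, nsq_smul, ← hr2]
      field_simp
    have hdv : ∀ x, dot u x = r * dot v x := by
      intro x
      rw [hv, dot_smul]
      field_simp
    have hle : ∀ x, dot u x ^ (2 * k) ≤
        nsq u ^ k * ((Nat.factorial (2 * k) : ℝ) *
          (Real.exp (dot v x) + Real.exp (dot (-v) x))) := by
      intro x
      have h1 := abs_pow_le_exp (dot v x) (2 * k)
      have h2 : |dot v x| ^ (2 * k) = dot v x ^ (2 * k) := by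
        rw [pow_mul, sq_abs, ← pow_mul]
      rw [h2] at h1
      rw [hdv x, mul_pow, pow_mul r, hr2, dot_neg_left]
      exact mul_le_mul_of_nonneg_left h1 (pow_nonneg hn k)
    have hint : Integrable (fun x => nsq u ^ k * ((Nat.factorial (2 * k) : ℝ) *
          (Real.exp (dot v x) + Real.exp (dot (-v) x)))) P :=
      (((hP.int v).add (hP.int (-v))).const_mul _).const_mul _
    have hmono := integral_mono ((hP.gd_dot u).pow (2 * k)).integrable hint hle
    refine hmono.trans ?_
    rw [integral_const_mul, integral_const_mul, integral_add (hP.int v) (hP.int (-v))]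
    have h1 := hP.le v
    have h2 := hP.le (-v)
    rw [nsq_neg, hv1, mul_one] at h2
    rw [hv1, mul_one] at h1
    have h3 : 0 ≤ nsq u ^ k * (Nat.factorial (2 * k) : ℝ) := by positivity
    nlinarith

end mom

end FULL
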