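import Pool.Agent.Lib.MP_8a5982_an.FULL.Gdc
import Pool.Agent.Lib.MP_8a5982_an.FULL.Gauss
import Pool.Agent.Lib.MP_8a5982_an.FULL.Mom

/-!
Project FULL (MP_8a5982_an), module CHAN1: the channel `y = w x + B`.
-/

open MeasureTheory ProbabilityTheory Filter Topology

namespace FULL

section chan
variable {ι : Type} [Fintype ι] {P : Measure (ι → ℝ)} [IsProbabilityMeasure P] (w : ι → NNReal)

omit [Fintype ι] in
theorem measurable_obs' : Measurable (obs w : (ι → ℝ) × (ι → ℝ) → ι → ℝ) := by
  refine measurable_pi_lambda _ fun i => ?_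
  exact (((measurable_pi_apply i).comp measurable_fst).const_mul _).add
    ((measurable_pi_apply i).comp measurable_snd)

omit [Fintype ι] in
theorem measurable_noise' : Measurable (noise w : (ι → ℝ) × (ι → ℝ) → ι → ℝ) := by
  refine measurable_pi_lambda _ fun i => ?_
  exact ((measurable_pi_apply i).comp measurable_snd).sub
    (((measurable_pi_apply i).comp measurable_fst).const_mul _)

omit [Fintype ι] in
theorem measurable_chanT : Measurable (fun p : (ι → ℝ) × (ι → ℝ) => (p.1, obs w p)) :=
  measurable_fst.prodMk (measurable_obs' w)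

theorem isProbability_nu : IsProbabilityMeasure (nu P w) := by
  have := isProbability_gam w
  exact Measure.isProbabilityMeasure_map (measurable_chanT w).aemeasurable

theorem nu_fst : (nu P w).map Prod.fst = P := by
  have := isProbability_gam w
  rw [nu, Measure.map_map measurable_fst (measurable_chanT w)]
  exact (measurePreserving_fst (μ := P) (ν := gam w)).map_eq

/-- the noise vanishes a.s. on the coordinates of weight `0` -/
theorem ae_gam_zero : ∀ᵐ y ∂(gam w), ∀ i, w i = 0 → y i = 0 := by
  rw [ae_all_iff]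
  intro i
  by_cases hi : w i = 0
  · have h1 : ∀ᵐ z ∂(gaussianReal 0 (w i)), z = 0 := by
      rw [hi, gaussianReal_zero_var]
      exact (ae_dirac_iff (measurableSet_singleton 0)).2 rfl
    have h2 := (measurePreserving_eval (fun i => gaussianReal 0 (w i)) i).quasiMeasurePreserving.ae h1
    filter_upwards [h2] with y hy _
    exact hy
  · exact Eventually.of_forall fun y h => absurd h hi

theorem nu_eq : nu P w = (P.prod (gam w)).withDensity
    (fun p => ENNReal.ofReal (dens w p.1 p.2)) := by
  have := isProbability_gam w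
  refine Measure.ext_of_lintegral _ fun f hf => ?_
  have hd : Measurable (fun p : (ι → ℝ) × (ι → ℝ) => ENNReal.ofReal (dens w p.1 p.2)) :=
    (measurable_dens w).ennreal_ofReal
  rw [nu, lintegral_map hf (measurable_chanT w),
    lintegral_withDensity_eq_lintegral_mul _ hd hf,
    lintegral_prod (fun p : (ι → ℝ) × (ι → ℝ) => f (p.1, obs w p))
      (hf.comp (measurable_chanT w)).aemeasurable,
    lintegral_prod _ (hd.mul hf).aemeasurable]
  refine lintegral_congr fun x => ?_
  have hu : ∀ i, w i = 0 → (fun i => (w i : ℝ) * x i) i = 0 := fun i hi => by simp [hi]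
  have key := gam_shift w (fun i => (w i : ℝ) * x i) hu
  have hfx : Measurable fun y : ι → ℝ => f (x, y) := hf.comp measurable_prodMk_left
  have hshift : Measurable (fun B : ι → ℝ => B + fun i => (w i : ℝ) * x i) :=
    measurable_id.add_const _
  have e1 : ∫⁻ B, f (x, obs w (x, B)) ∂(gam w) =
      ∫⁻ B, f (x, B + fun i => (w i : ℝ) * x i) ∂(gam w) := by
    refine lintegral_congr fun B => ?_
    congr 2
    funext i
    simp only [obs, Pi.add_apply]
    ring
  have e2 : ∫⁻ B, f (x, B + fun i => (w i : ℝ) * x i) ∂(gam w) =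
      ∫⁻ y, f (x, y) ∂((gam w).map fun B => B + fun i => (w i : ℝ) * x i) :=
    (lintegral_map hfx hshift).symm
  have hm : Measurable fun B : ι → ℝ => ENNReal.ofReal (Real.exp
      (∑ i, ((w i : ℝ) * x i * B i / w i - ((w i : ℝ) * x i) ^ 2 / (2 * w i)))) := by
    refine (Real.measurable_exp.comp ?_).ennreal_ofReal
    refine Finset.measurable_sum _ fun i _ => ?_
    exact (((measurable_pi_apply i).const_mul _).div_const _).sub_const _
  rw [e1, e2, key, lintegral_withDensity_eq_lintegral_mul _ hm hfx]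
  refine lintegral_congr_ae ?_
  filter_upwards [ae_gam_zero w] with y hy
  simp only [Pi.mul_apply]
  congr 2
  refine congrArg Real.exp ?_
  refine Finset.sum_congr rfl fun i _ => ?_
  by_cases hi : w i = 0
  · simp [hi, hy i hi]
  · have : (w i : ℝ) ≠ 0 := by exact_mod_cast hi
    field_simp

/-- the direct picture -/
theorem integral_nu_direct (F : (ι → ℝ) × (ι → ℝ) → ℝ) (hF : Measurable F) :
    ∫ p, F p ∂(nu P w) = ∫ p, F (p.1, obs w p) ∂(P.prod (gam w)) := by
  rw [nu, integral_map (measurable_chanT w).aemeasurable hF.aestronglyMeasurable]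

/-- the reference picture -/
theorem integral_nu_ref (F : (ι → ℝ) × (ι → ℝ) → ℝ) (hF : Measurable F) :
    ∫ p, F p ∂(nu P w) = ∫ p, dens w p.1 p.2 * F p ∂(P.prod (gam w)) := by
  rw [nu_eq, integral_withDensity_eq_integral_toReal_smul (measurable_dens w).ennreal_ofReal
    (Eventually.of_forall fun _ => ENNReal.ofReal_lt_top)]
  refine integral_congr_ae (Eventually.of_forall fun p => ?_)
  simp only [smul_eq_mul]
  rw [ENNReal.toReal_ofReal (show 0 ≤ dens w p.1 p.2 from (Real.exp_pos _).le)]

theorem integrable_nu_ref (F : (ι → ℝ) × (ι → ℝ) → ℝ) (hF : Measurable F)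
    (h : Integrable F (nu P w)) :
    Integrable (fun p => dens w p.1 p.2 * F p) (P.prod (gam w)) := by
  rw [nu_eq, integrable_withDensity_iff_integrable_smul' (measurable_dens w).ennreal_ofReal
    (Eventually.of_forall fun _ => ENNReal.ofReal_lt_top)] at h
  refine h.congr (Eventually.of_forall fun p => ?_)
  simp only [smul_eq_mul]
  rw [ENNReal.toReal_ofReal (show 0 ≤ dens w p.1 p.2 from (Real.exp_pos _).le)]

theorem noise_obs (p : (ι → ℝ) × (ι → ℝ)) : noise w (p.1, obs w p) = p.2 := by
  funext i
  simp [noise, obs]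

theorem measurePreserving_nu_fst : MeasurePreserving Prod.fst (nu P w) P :=
  ⟨measurable_fst, nu_fst w⟩

theorem measurePreserving_nu_noise : MeasurePreserving (noise w) (nu P w) (gam w) := by
  have := isProbability_gam w
  refine ⟨measurable_noise' w, ?_⟩
  rw [nu, Measure.map_map (measurable_noise' w) (measurable_chanT w)]
  have : (noise w ∘ fun p : (ι → ℝ) × (ι → ℝ) => (p.1, obs w p)) = Prod.snd := by
    funext p
    exact noise_obs w p
  rw [this]
  exact (measurePreserving_snd (μ := P) (ν := gam w)).map_eq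

theorem Gd.nu_fst {f : (ι → ℝ) → ℝ} (hf : Gd P f) : Gd (nu P w) (fun p => f p.1) := by
  have := isProbability_nu (P := P) w
  exact Gd.comp (measurePreserving_nu_fst w) hf

theorem Gd.nu_noise {f : (ι → ℝ) → ℝ} (hf : Gd (gam w) f) :
    Gd (nu P w) (fun p => f (noise w p)) := by
  have := isProbability_nu (P := P) w
  have := isProbability_gam w
  exact Gd.comp (measurePreserving_nu_noise w) hf

theorem Gd.nu_exp_snd {C : ℝ} (hP : ExpM P C) (u : ι → ℝ) :
    Gd (nu P w) (fun p => Real.exp (dot u p.2)) := by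
  have := hP.prob
  have := isProbability_nu (P := P) w
  obtain ⟨K, hK0, hK⟩ : ∃ K : ℝ, 0 ≤ K ∧ ∀ i, (w i : ℝ) ≤ K :=
    ⟨∑ i, (w i : ℝ), Finset.sum_nonneg fun i _ => (w i).2,
      fun i => Finset.single_le_sum (fun i _ => (w i).2) (Finset.mem_univ i)⟩
  have h1 : Gd (nu P w) (fun p => Real.exp (dot (fun i => (w i : ℝ) * u i) p.1)) :=
    Gd.nu_fst w (hP.gd_exp _)
  have h2 : Gd (nu P w) (fun p => Real.exp (dot u (noise w p))) :=
    Gd.nu_noise w ((expM_gam w K hK0 hK).gd_exp u)
  have h3 := h1.mul h2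
  have e : (fun p : (ι → ℝ) × (ι → ℝ) => Real.exp (dot (fun i => (w i : ℝ) * u i) p.1) *
      Real.exp (dot u (noise w p))) = fun p => Real.exp (dot u p.2) := by
    funext p
    rw [← Real.exp_add]
    congr 1
    simp only [dot, noise]
    rw [← Finset.sum_add_distrib]
    refine Finset.sum_congr rfl fun i _ => ?_
    ring
  rw [← e]
  exact h3

theorem Gd.nu_snd {C : ℝ} (hP : ExpM P C) (i : ι) : Gd (nu P w) (fun p => p.2 i) := by
  have := hP.prob
  have := isProbability_nu (P := P) w
  obtain ⟨K, hK0, hK⟩ : ∃ K : ℝ, 0 ≤ K ∧ ∀ i, (w i : ℝ) ≤ K :=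
    ⟨∑ i, (w i : ℝ), Finset.sum_nonneg fun i _ => (w i).2,
      fun i => Finset.single_le_sum (fun i _ => (w i).2) (Finset.mem_univ i)⟩
  have h1 : Gd (nu P w) (fun p => crd i p.1) := Gd.nu_fst w (hP.gd_crd i)
  have h2 : Gd (nu P w) (fun p => crd i (noise w p)) :=
    Gd.nu_noise w ((expM_gam w K hK0 hK).gd_crd i)
  have h3 := (h1.const_mul (w i : ℝ)).add h2
  have e : (fun p : (ι → ℝ) × (ι → ℝ) => (w i : ℝ) * crd i p.1 + crd i (noise w p)) =
      fun p => p.2 i := by
    funext p
    simp only [crd, noise]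
    ring
  rw [← e]
  exact h3

end chan

end FULL
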