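import Pool.Agent.Lib.MP_8a5982_an.FULL.Chan1

/-!
Project FULL (MP_8a5982_an), module CHAN2: Cameron-Martin for the channel.
-/

open MeasureTheory ProbabilityTheory Filter Topology

namespace FULL

section chan
variable {ι : Type} [Fintype ι] {P : Measure (ι → ℝ)} [IsProbabilityMeasure P] (w : ι → NNReal)

theorem measurable_cm (u : ι → ℝ) : Measurable (cm w u) := by
  refine Real.measurable_exp.comp ?_
  refine Finset.measurable_sum _ fun i _ => ?_
  exact ((((measurable_pi_apply i).comp (measurable_noise' w)).const_mul _).div_const _).sub_const _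

omit [Fintype ι] in
theorem measurable_shiftS (u : ι → ℝ) :
    Measurable (fun p : (ι → ℝ) × (ι → ℝ) => (p.1, p.2 + u)) :=
  measurable_fst.prodMk (measurable_snd.add_const _)

/-- Cameron-Martin for the channel, as an identity of measures -/
theorem map_shift_nu (u : ι → ℝ) (hu : ∀ i, w i = 0 → u i = 0) :
    (nu P w).map (fun p => (p.1, p.2 + u)) =
      (nu P w).withDensity (fun p => ENNReal.ofReal (cm w u p)) := by
  have := isProbability_gam w
  refine Measure.ext_of_lintegral _ fun f hf => ?_
  have hc : Measurable (fun p => ENNReal.ofReal (cm w u p)) := (measurable_cm w u).ennreal_ofReal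
  have hT := measurable_chanT w
  rw [lintegral_map hf (measurable_shiftS u), lintegral_withDensity_eq_lintegral_mul _ hc hf, nu,
    lintegral_map (f := fun p : (ι → ℝ) × (ι → ℝ) => f (p.1, p.2 + u))
      (hf.comp (measurable_shiftS u)) hT, lintegral_map (hc.mul hf) hT,
    lintegral_prod (fun p : (ι → ℝ) × (ι → ℝ) => f (p.1, obs w p + u))
      ((hf.comp (measurable_shiftS u)).comp hT).aemeasurable,
    lintegral_prod (fun p : (ι → ℝ) × (ι → ℝ) =>
      ((fun p => ENNReal.ofReal (cm w u p)) * f) (p.1, obs w p))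
      ((hc.mul hf).comp hT).aemeasurable]
  refine lintegral_congr fun x => ?_
  have key := gam_shift w u hu
  have hfx : Measurable fun y : ι → ℝ => f (x, obs w (x, y)) :=
    (hf.comp hT).comp measurable_prodMk_left
  have hshift : Measurable (fun B : ι → ℝ => B + u) := measurable_id.add_const _
  have e1 : ∫⁻ B, f (x, obs w (x, B) + u) ∂(gam w) =
      ∫⁻ B, f (x, obs w (x, B + u)) ∂(gam w) := by
    refine lintegral_congr fun B => ?_
    congr 2
    funext i
    simp only [obs, Pi.add_apply]
    ring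
  have e2 : ∫⁻ B, f (x, obs w (x, B + u)) ∂(gam w) =
      ∫⁻ y, f (x, obs w (x, y)) ∂((gam w).map fun B => B + u) :=
    (lintegral_map hfx hshift).symm
  have hm : Measurable fun B : ι → ℝ => ENNReal.ofReal (Real.exp
      (∑ i, (u i * B i / w i - u i ^ 2 / (2 * w i)))) := by
    refine (Real.measurable_exp.comp ?_).ennreal_ofReal
    refine Finset.measurable_sum _ fun i _ => ?_
    exact (((measurable_pi_apply i).const_mul _).div_const _).sub_const _
  rw [e1, e2, key, lintegral_withDensity_eq_lintegral_mul _ hm hfx]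
  refine lintegral_congr fun y => ?_
  simp only [Pi.mul_apply]
  rw [cm, noise_obs w (x, y)]

/-- Cameron-Martin for the channel -/
theorem integral_shift (u : ι → ℝ) (hu : ∀ i, w i = 0 → u i = 0)
    (F : (ι → ℝ) × (ι → ℝ) → ℝ) (hF : Measurable F) :
    ∫ p, F (p.1, p.2 + u) ∂(nu P w) = ∫ p, F p * cm w u p ∂(nu P w) := by
  have h := integral_map (μ := nu P w) (measurable_shiftS u).aemeasurable
    (f := F) hF.aestronglyMeasurable
  rw [← h, map_shift_nu w u hu, integral_withDensity_eq_integral_toReal_smul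
    (measurable_cm w u).ennreal_ofReal (Eventually.of_forall fun _ => ENNReal.ofReal_lt_top)]
  refine integral_congr_ae (Eventually.of_forall fun p => ?_)
  simp only [smul_eq_mul]
  rw [ENNReal.toReal_ofReal (show 0 ≤ cm w u p from (Real.exp_pos _).le), mul_comm]

theorem Gd.cm {C : ℝ} (hP : ExpM P C) (u : ι → ℝ) : Gd (nu P w) (fun p => cm w u p) := by
  have := isProbability_nu (P := P) w
  obtain ⟨K, hK0, hK⟩ : ∃ K : ℝ, 0 ≤ K ∧ ∀ i, (w i : ℝ) ≤ K :=
    ⟨∑ i, (w i : ℝ), Finset.sum_nonneg fun i _ => (w i).2,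
      fun i => Finset.single_le_sum (fun i _ => (w i).2) (Finset.mem_univ i)⟩
  have h2 : Gd (nu P w) (fun p => Real.exp (dot (fun i => u i / (w i : ℝ)) (noise w p))) :=
    Gd.nu_noise w ((expM_gam w K hK0 hK).gd_exp _)
  have h3 := h2.const_mul (Real.exp (-∑ i, u i ^ 2 / (2 * (w i : ℝ))))
  have e : (fun p : (ι → ℝ) × (ι → ℝ) => Real.exp (-∑ i, u i ^ 2 / (2 * (w i : ℝ))) *
      Real.exp (dot (fun i => u i / (w i : ℝ)) (noise w p))) = fun p => FULL.cm w u p := by
    funext p
    rw [← Real.exp_add, FULL.cm]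
    congr 1
    simp only [dot]
    rw [← Finset.sum_neg_distrib, ← Finset.sum_add_distrib]
    refine Finset.sum_congr rfl fun i _ => ?_
    ring
  rw [← e]
  exact h3

theorem Gd.shift {C : ℝ} (hP : ExpM P C) (u : ι → ℝ) (hu : ∀ i, w i = 0 → u i = 0)
    {F : (ι → ℝ) × (ι → ℝ) → ℝ} (hF : Gd (nu P w) F) :
    Gd (nu P w) (fun p => F (p.1, p.2 + u)) := by
  have := isProbability_nu (P := P) w
  refine Gd.of_pow (hF.meas.comp (measurable_shiftS u)) fun k _ => ?_
  have h1 : Integrable (fun p => FULL.cm w u p * |F p| ^ k) (nu P w) :=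
    ((Gd.cm w hP u).mul (hF.abs.pow k)).integrable
  have h2 : Integrable (fun p => |F p| ^ k) ((nu P w).map fun p => (p.1, p.2 + u)) := by
    rw [map_shift_nu w u hu, integrable_withDensity_iff_integrable_smul'
      (measurable_cm w u).ennreal_ofReal (Eventually.of_forall fun _ => ENNReal.ofReal_lt_top)]
    refine h1.congr (Eventually.of_forall fun p => ?_)
    simp only [smul_eq_mul]
    rw [ENNReal.toReal_ofReal (show 0 ≤ FULL.cm w u p from (Real.exp_pos _).le)]
  exact (integrable_map_measure (hF.abs.pow k).meas.aestronglyMeasurable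
    (measurable_shiftS u).aemeasurable).1 h2

end chan

end FULL
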