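import Pool.Agent.Lib.MP_8a5982_an.FULL.Defs

/-!
Project FULL, module GDC: closure properties of `Gd`; `dot`, `nsq`.
-/

open MeasureTheory ProbabilityTheory Filter Topology

namespace FULL

section gdc
variable {α : Type*} [MeasurableSpace α] {μ : Measure α} [IsProbabilityMeasure μ] {F G : α → ℝ}

omit [IsProbabilityMeasure μ] in
/-- a measurable function all of whose absolute powers are integrable -/
theorem Gd.of_pow (hF : Measurable F) (h : ∀ k : ℕ, k ≠ 0 → Integrable (fun x => |F x| ^ k) μ) :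
    Gd μ F := by
  refine ⟨hF, fun p => ?_⟩
  rcases Nat.eq_zero_or_pos p with rfl | hp
  · rw [Nat.cast_zero, memLp_zero_iff_aestronglyMeasurable]
    exact hF.aestronglyMeasurable
  · rw [← integrable_norm_rpow_iff hF.aestronglyMeasurable (by simpa using hp.ne')
      (ENNReal.natCast_ne_top p)]
    simpa using h p hp.ne'

/-- all absolute powers are integrable -/
theorem Gd.int_abs_pow (hF : Gd μ F) (k : ℕ) : Integrable (fun x => |F x| ^ k) μ := by
  rcases Nat.eq_zero_or_pos k with rfl | hk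
  · simp
  · have h := (integrable_norm_rpow_iff hF.meas.aestronglyMeasurable
      (by simpa using hk.ne') (ENNReal.natCast_ne_top k)).2 (hF.mem k)
    simpa using h

theorem Gd.const (c : ℝ) : Gd μ (fun _ => c) := ⟨measurable_const, fun _ => memLp_const c⟩

omit [IsProbabilityMeasure μ] in
theorem Gd.add (hF : Gd μ F) (hG : Gd μ G) : Gd μ (fun x => F x + G x) :=
  ⟨hF.meas.add hG.meas, fun p => (hF.mem p).add (hG.mem p)⟩

omit [IsProbabilityMeasure μ] in
theorem Gd.sub (hF : Gd μ F) (hG : Gd μ G) : Gd μ (fun x => F x - G x) :=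
  ⟨hF.meas.sub hG.meas, fun p => (hF.mem p).sub (hG.mem p)⟩

omit [IsProbabilityMeasure μ] in
theorem Gd.neg (hF : Gd μ F) : Gd μ (fun x => -F x) := ⟨hF.meas.neg, fun p => (hF.mem p).neg⟩

omit [IsProbabilityMeasure μ] in
theorem Gd.mono (hG : Gd μ G) (hF : Measurable F) (h : ∀ x, |F x| ≤ |G x|) : Gd μ F :=
  ⟨hF, fun p => (hG.mem p).of_le hF.aestronglyMeasurable (Eventually.of_forall h)⟩

theorem Gd.mul (hF : Gd μ F) (hG : Gd μ G) : Gd μ (fun x => F x * G x) := by
  refine Gd.of_pow (hF.meas.mul hG.meas) fun k _ => ?_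
  refine ((hF.int_abs_pow (2 * k)).add (hG.int_abs_pow (2 * k))).mono'
    (((hF.meas.mul hG.meas).abs.pow_const k).aestronglyMeasurable)
    (Eventually.of_forall fun x => ?_)
  have h0 : 0 ≤ |F x * G x| ^ k := by positivity
  rw [Real.norm_of_nonneg h0, abs_mul, mul_pow]
  simp only [Pi.add_apply]
  rw [mul_comm 2 k, pow_mul, pow_mul]
  nlinarith [sq_nonneg (|F x| ^ k - |G x| ^ k), sq_nonneg (|F x| ^ k), sq_nonneg (|G x| ^ k)]

omit [IsProbabilityMeasure μ] in
theorem Gd.const_mul (c : ℝ) (hF : Gd μ F) : Gd μ (fun x => c * F x) :=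
  ⟨hF.meas.const_mul c, fun p => (hF.mem p).const_mul c⟩

theorem Gd.pow (hF : Gd μ F) (k : ℕ) : Gd μ (fun x => F x ^ k) := by
  induction k with
  | zero => simpa using Gd.const (μ := μ) 1
  | succ k ih => simpa [pow_succ] using ih.mul hF

omit [IsProbabilityMeasure μ] in
theorem Gd.abs (hF : Gd μ F) : Gd μ (fun x => |F x|) :=
  ⟨hF.meas.abs, fun p => (hF.mem p).abs⟩

theorem Gd.sum {β : Type*} (s : Finset β) (F : β → α → ℝ) (h : ∀ b ∈ s, Gd μ (F b)) :
    Gd μ (fun x => ∑ b ∈ s, F b x) := by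
  classical
  induction s using Finset.induction_on with
  | empty => simpa using Gd.const (μ := μ) 0
  | insert b s hb ih =>
    simp_rw [Finset.sum_insert hb]
    exact (h b (Finset.mem_insert_self b s)).add (ih fun c hc => h c (Finset.mem_insert_of_mem hc))

omit [IsProbabilityMeasure μ] in
theorem Gd.integrable (hF : Gd μ F) : Integrable F μ := by
  have h := hF.mem 1
  rw [Nat.cast_one] at h
  exact memLp_one_iff_integrable.1 h

theorem Gd.bdd (hF : Measurable F) (C : ℝ) (h : ∀ x, |F x| ≤ C) : Gd μ F :=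
  (Gd.const (μ := μ) C).mono hF fun x => (h x).trans (le_abs_self C)

omit [IsProbabilityMeasure μ] in
theorem Gd.comp {β : Type*} [MeasurableSpace β] {ν : Measure β} {T : β → α}
    (hT : MeasurePreserving T ν μ) (hF : Gd μ F) : Gd ν (fun x => F (T x)) :=
  ⟨hF.meas.comp hT.measurable, fun p => (hF.mem p).comp_measurePreserving hT⟩

/-- Cauchy-Schwarz -/
theorem Gd.cs (hF : Gd μ F) (hG : Gd μ G) :
    (∫ x, F x * G x ∂μ) ^ 2 ≤ (∫ x, F x ^ 2 ∂μ) * ∫ x, G x ^ 2 ∂μ := by
  have hFF := (hF.pow 2).integrable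
  have hGG := (hG.pow 2).integrable
  have hFG := (hF.mul hG).integrable
  have h : ∀ t : ℝ, 0 ≤ (∫ x, F x ^ 2 ∂μ) * (t * t) + (2 * ∫ x, F x * G x ∂μ) * t +
      ∫ x, G x ^ 2 ∂μ := by
    intro t
    have h1 : 0 ≤ ∫ x, (t * F x + G x) ^ 2 ∂μ := integral_nonneg fun x => sq_nonneg _
    have h2 : ∫ x, (t * F x + G x) ^ 2 ∂μ =
        ∫ x, (t * t * F x ^ 2 + 2 * t * (F x * G x)) + G x ^ 2 ∂μ := by
      congr 1
      funext x
      ring
    have i1 : Integrable (fun x => t * t * F x ^ 2) μ := hFF.const_mul _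
    have i2 : Integrable (fun x => 2 * t * (F x * G x)) μ := hFG.const_mul _
    have i3 : Integrable (fun x => t * t * F x ^ 2 + 2 * t * (F x * G x)) μ := i1.add i2
    rw [h2, integral_add i3 hGG, integral_add i1 i2, integral_const_mul,
      integral_const_mul] at h1
    linarith
  have h3 := discrim_le_zero h
  unfold discrim at h3
  nlinarith

set_option linter.unusedVariables false in
/-- Jensen -/
theorem Gd.jensen (hF : Gd μ F) (k : ℕ) (hk : 1 ≤ k) :
    (∫ x, |F x| ∂μ) ^ k ≤ ∫ x, |F x| ^ k ∂μ := by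
  have h := (convexOn_pow k).map_integral_le (μ := μ) (f := fun x => |F x|)
    (continuous_pow k).continuousOn isClosed_Ici (Eventually.of_forall fun x => abs_nonneg (F x))
    hF.abs.integrable (hF.int_abs_pow k)
  exact h

end gdc

section linalg
variable {ι : Type} [Fintype ι]

theorem dot_crd [DecidableEq ι] (i : ι) : dot (Pi.single i (1 : ℝ)) = crd i := by
  funext x
  unfold dot crd
  rw [Finset.sum_eq_single i]
  · simp
  · intro j _ hj
    simp [Pi.single_eq_of_ne hj]
  · intro h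
    exact absurd (Finset.mem_univ i) h

theorem dot_comm (u v : ι → ℝ) : dot u v = dot v u :=
  Finset.sum_congr rfl fun _ _ => mul_comm _ _

theorem dot_self (u : ι → ℝ) : dot u u = nsq u :=
  Finset.sum_congr rfl fun _ _ => (sq _).symm

theorem dot_add (u v x : ι → ℝ) : dot (u + v) x = dot u x + dot v x := by
  unfold dot
  rw [← Finset.sum_add_distrib]
  exact Finset.sum_congr rfl fun _ _ => add_mul _ _ _

theorem dot_smul (c : ℝ) (u x : ι → ℝ) : dot (c • u) x = c * dot u x := by
  unfold dot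
  rw [Finset.mul_sum]
  exact Finset.sum_congr rfl fun i _ => mul_assoc c (u i) (x i)

theorem dot_sum {β : Type*} (s : Finset β) (u : β → ι → ℝ) (x : ι → ℝ) :
    dot (∑ b ∈ s, u b) x = ∑ b ∈ s, dot (u b) x := by
  unfold dot
  rw [Finset.sum_comm]
  refine Finset.sum_congr rfl fun i _ => ?_
  rw [Finset.sum_apply, Finset.sum_mul]

theorem dot_cs (u v : ι → ℝ) : dot u v ^ 2 ≤ nsq u * nsq v :=
  Finset.sum_mul_sq_le_sq_mul_sq Finset.univ u v

theorem nsq_nonneg (u : ι → ℝ) : 0 ≤ nsq u := Finset.sum_nonneg fun _ _ => sq_nonneg _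

theorem nsq_smul (c : ℝ) (u : ι → ℝ) : nsq (c • u) = c ^ 2 * nsq u := by
  unfold nsq
  rw [Finset.mul_sum]
  exact Finset.sum_congr rfl fun i _ => mul_pow c (u i) 2

theorem measurable_dot (u : ι → ℝ) : Measurable (dot u) := by
  unfold dot
  fun_prop

theorem measurable_dens (w : ι → NNReal) :
    Measurable (fun p : (ι → ℝ) × (ι → ℝ) => dens w p.1 p.2) := by
  unfold dens
  fun_prop

end linalg

end FULL
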