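import Pool.Agent.Lib.MP_8a5982_an.FULL.Post1

/-!
Project FULL, module POST2: algebra of posterior means, covariances and third cumulants.
-/

open MeasureTheory ProbabilityTheory

namespace FULL

section posterior
variable {ι : Type} [Fintype ι] {P : Measure (ι → ℝ)} {C : ℝ} (hP : ExpM P C) (w : ι → NNReal)
include hP

theorem post_const (c : ℝ) (y : ι → ℝ) : post P w (fun _ => c) y = c := by
  have := prob_pm hP w y
  rw [← integral_pm hP w]
  simp

theorem post_add {f g : (ι → ℝ) → ℝ} (hf : Gd P f) (hg : Gd P g) (y : ι → ℝ) :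
    post P w (fun x => f x + g x) y = post P w f y + post P w g y := by
  have := prob_pm hP w y
  rw [← integral_pm hP w, ← integral_pm hP w f, ← integral_pm hP w g,
    integral_add (gd_pm hP w hf y).integrable (gd_pm hP w hg y).integrable]

theorem post_const_mul {f : (ι → ℝ) → ℝ} (c : ℝ) (y : ι → ℝ) :
    post P w (fun x => c * f x) y = c * post P w f y := by
  rw [← integral_pm hP w, ← integral_pm hP w f, integral_const_mul]

theorem post_sum {β : Type*} (s : Finset β) (f : β → (ι → ℝ) → ℝ) (hf : ∀ b ∈ s, Gd P (f b))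
    (y : ι → ℝ) : post P w (fun x => ∑ b ∈ s, f b x) y = ∑ b ∈ s, post P w (f b) y := by
  have := prob_pm hP w y
  rw [← integral_pm hP w, integral_finsetSum]
  · exact Finset.sum_congr rfl fun b _ => integral_pm hP w (f b) y
  · exact fun b hb => (gd_pm hP w (hf b hb) y).integrable

theorem post_mono {f g : (ι → ℝ) → ℝ} (hf : Gd P f) (hg : Gd P g) (h : ∀ x, f x ≤ g x)
    (y : ι → ℝ) : post P w f y ≤ post P w g y := by
  have := prob_pm hP w y
  rw [← integral_pm hP w, ← integral_pm hP w g]
  exact integral_mono (gd_pm hP w hf y).integrable (gd_pm hP w hg y).integrable h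

theorem gd_cov {f g : (ι → ℝ) → ℝ} (hf : Gd P f) (hg : Gd P g) :
    Gd (nu P w) (fun p => cov P w f g p.2) := by
  have := hP.prob
  have := isProbability_nu (P := P) w
  exact (gd_post hP w (hf.mul hg)).sub ((gd_post hP w hf).mul (gd_post hP w hg))

theorem gd_kap {f g h : (ι → ℝ) → ℝ} (hf : Gd P f) (hg : Gd P g) (hh : Gd P h) :
    Gd (nu P w) (fun p => kap P w f g h p.2) := by
  have := hP.prob
  have := isProbability_nu (P := P) w
  have a1 := gd_post hP w ((hf.mul hg).mul hh)
  have a2 := (gd_post hP w hf).mul (gd_post hP w (hg.mul hh))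
  have a3 := (gd_post hP w hg).mul (gd_post hP w (hf.mul hh))
  have a4 := (gd_post hP w hh).mul (gd_post hP w (hf.mul hg))
  have a5 := (((gd_post hP w hf).mul (gd_post hP w hg)).mul (gd_post hP w hh)).const_mul 2
  exact (((a1.sub a2).sub a3).sub a4).add a5

/-- the posterior covariance as a centred product -/
theorem cov_eq_pm {f g : (ι → ℝ) → ℝ} (hf : Gd P f) (hg : Gd P g) (y : ι → ℝ) :
    cov P w f g y =
      ∫ x, (f x - post P w f y) * (g x - post P w g y) ∂(pm P w y) := by
  have := prob_pm hP w y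
  have hf' := gd_pm hP w hf y
  have hg' := gd_pm hP w hg y
  have h1 : ∀ x, (f x - post P w f y) * (g x - post P w g y) =
      f x * g x - post P w g y * f x - post P w f y * g x + post P w f y * post P w g y := by
    intro x
    ring
  simp_rw [h1]
  rw [integral_add, integral_sub, integral_sub, integral_const_mul, integral_const_mul,
    integral_pm hP w (fun x => f x * g x), integral_pm hP w f, integral_pm hP w g]
  · simp only [integral_const, probReal_univ, smul_eq_mul, one_mul]
    unfold cov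
    ring
  · exact (hf'.mul hg').integrable
  · exact (hf'.const_mul _).integrable
  · exact ((hf'.mul hg').sub (hf'.const_mul _)).integrable
  · exact (hg'.const_mul _).integrable
  · exact (((hf'.mul hg').sub (hf'.const_mul _)).sub (hg'.const_mul _)).integrable
  · exact (Gd.const _).integrable

theorem cov_self_nonneg {f : (ι → ℝ) → ℝ} (hf : Gd P f) (y : ι → ℝ) : 0 ≤ cov P w f f y := by
  rw [cov_eq_pm hP w hf hf]
  exact integral_nonneg fun x => mul_self_nonneg _

theorem cov_self_le {f : (ι → ℝ) → ℝ} (hf : Gd P f) (y : ι → ℝ) :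
    cov P w f f y ≤ post P w (fun x => f x ^ 2) y := by
  have _ := hf.meas
  have _ := hP.prob
  unfold cov
  have h : (fun x => f x * f x) = fun x => f x ^ 2 := by
    ext x
    ring
  rw [h]
  nlinarith [mul_self_nonneg (post P w f y)]

theorem cov_sq_le {f g : (ι → ℝ) → ℝ} (hf : Gd P f) (hg : Gd P g) (y : ι → ℝ) :
    cov P w f g y ^ 2 ≤ cov P w f f y * cov P w g g y := by
  have := prob_pm hP w y
  rw [cov_eq_pm hP w hf hg, cov_eq_pm hP w hf hf, cov_eq_pm hP w hg hg]
  have h := Gd.cs ((gd_pm hP w hf y).sub (Gd.const (post P w f y)))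
    ((gd_pm hP w hg y).sub (Gd.const (post P w g y)))
  simpa only [sq] using h

theorem cov_dot (u : ι → ℝ) {f : (ι → ℝ) → ℝ} (hf : Gd P f) (y : ι → ℝ) :
    cov P w (dot u) f y = ∑ i, u i * cov P w (crd i) f y := by
  have := hP.prob
  have hc : ∀ i, Gd P (crd i) := fun i => hP.gd_crd i
  unfold cov
  have h1 : (fun x => dot u x * f x) = fun x => ∑ i, u i * (crd i x * f x) := by
    ext x
    simp only [dot, crd, Finset.sum_mul, mul_assoc]
  have h2 : dot u = fun x => ∑ i, u i * crd i x := by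
    ext x
    simp only [dot, crd]
  rw [h1, post_sum hP w _ _ (fun i _ => ((hc i).mul hf).const_mul _), h2,
    post_sum hP w _ _ (fun i _ => (hc i).const_mul _), Finset.sum_mul, ← Finset.sum_sub_distrib]
  apply Finset.sum_congr rfl
  intro i _
  rw [post_const_mul hP w, post_const_mul hP w]
  ring

theorem kap_dot (u : ι → ℝ) {f g : (ι → ℝ) → ℝ} (hf : Gd P f) (hg : Gd P g) (y : ι → ℝ) :
    kap P w (dot u) f g y = ∑ i, u i * kap P w (crd i) f g y := by
  have := hP.prob
  have hc : ∀ i, Gd P (crd i) := fun i => hP.gd_crd i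
  unfold kap
  have e1 : post P w (fun x => dot u x * f x * g x) y =
      ∑ i, u i * post P w (fun x => crd i x * f x * g x) y := by
    have h1 : (fun x => dot u x * f x * g x) = fun x => ∑ i, u i * (crd i x * f x * g x) := by
      ext x
      simp only [dot, crd, Finset.sum_mul, mul_assoc]
    rw [h1, post_sum hP w _ _ (fun i _ => (((hc i).mul hf).mul hg).const_mul _)]
    exact Finset.sum_congr rfl fun i _ => post_const_mul hP w _ _
  have e2 : post P w (dot u) y = ∑ i, u i * post P w (crd i) y := by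
    have h1 : dot u = fun x => ∑ i, u i * crd i x := by
      ext x
      simp only [dot, crd]
    rw [h1, post_sum hP w _ _ (fun i _ => (hc i).const_mul _)]
    exact Finset.sum_congr rfl fun i _ => post_const_mul hP w _ _
  have e3 : ∀ f : (ι → ℝ) → ℝ, Gd P f → post P w (fun x => dot u x * f x) y =
      ∑ i, u i * post P w (fun x => crd i x * f x) y := by
    intro f hf
    have h1 : (fun x => dot u x * f x) = fun x => ∑ i, u i * (crd i x * f x) := by
      ext x
      simp only [dot, crd, Finset.sum_mul, mul_assoc]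
    rw [h1, post_sum hP w _ _ (fun i _ => ((hc i).mul hf).const_mul _)]
    exact Finset.sum_congr rfl fun i _ => post_const_mul hP w _ _
  rw [e1, e2, e3 g hg, e3 f hf]
  simp only [Finset.sum_mul, Finset.mul_sum, ← Finset.sum_sub_distrib, ← Finset.sum_add_distrib]
  apply Finset.sum_congr rfl
  intro i _
  ring

/-- conditional covariance: `E[g(y) (f₁ - M_{f₁})(f₂ - M_{f₂})] = E[g(y) cov(f₁, f₂)(y)]` -/
theorem tower_cov {f₁ f₂ g : (ι → ℝ) → ℝ} (hf₁ : Gd P f₁) (hf₂ : Gd P f₂)
    (hg : Gd (nu P w) (fun p => g p.2)) :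
    ∫ p, g p.2 * ((f₁ p.1 - post P w f₁ p.2) * (f₂ p.1 - post P w f₂ p.2)) ∂(nu P w) =
      ∫ p, g p.2 * cov P w f₁ f₂ p.2 ∂(nu P w) := by
  have := hP.prob
  have := isProbability_nu (P := P) w
  have m1 := gd_post hP w hf₁
  have m2 := gd_post hP w hf₂
  have hf₁' := gd_nu_of_fst w hf₁
  have hf₂' := gd_nu_of_fst w hf₂
  have h1 : ∀ p : (ι → ℝ) × (ι → ℝ),
      g p.2 * ((f₁ p.1 - post P w f₁ p.2) * (f₂ p.1 - post P w f₂ p.2)) =
      g p.2 * (f₁ p.1 * f₂ p.1) - g p.2 * post P w f₂ p.2 * f₁ p.1 -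
        g p.2 * post P w f₁ p.2 * f₂ p.1 + g p.2 * (post P w f₁ p.2 * post P w f₂ p.2) := by
    intro p
    ring
  have h2 : ∀ p : (ι → ℝ) × (ι → ℝ), g p.2 * cov P w f₁ f₂ p.2 =
      g p.2 * post P w (fun x => f₁ x * f₂ x) p.2 -
        g p.2 * (post P w f₁ p.2 * post P w f₂ p.2) := by
    intro p
    unfold cov
    ring
  have t0 := tower hP w (f := fun x => f₁ x * f₂ x) (g := g) (hf₁.mul hf₂) hg
  have t1 := tower hP w (f := f₁) (g := fun y => g y * post P w f₂ y) hf₁ (hg.mul m2)
  have t2 := tower hP w (f := f₂) (g := fun y => g y * post P w f₁ y) hf₂ (hg.mul m1)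
  have e1 : ∀ p : (ι → ℝ) × (ι → ℝ), g p.2 * post P w f₂ p.2 * post P w f₁ p.2 =
      g p.2 * (post P w f₁ p.2 * post P w f₂ p.2) := by
    intro p
    ring
  have e2 : ∀ p : (ι → ℝ) × (ι → ℝ), g p.2 * post P w f₁ p.2 * post P w f₂ p.2 =
      g p.2 * (post P w f₁ p.2 * post P w f₂ p.2) := by
    intro p
    ring
  simp_rw [e1] at t1
  simp_rw [e2] at t2
  simp_rw [h1, h2]
  have i0 : Integrable (fun p : (ι → ℝ) × (ι → ℝ) => g p.2 * (f₁ p.1 * f₂ p.1)) (nu P w) :=
    (hg.mul (hf₁'.mul hf₂')).integrable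
  have i1 : Integrable (fun p : (ι → ℝ) × (ι → ℝ) => g p.2 * post P w f₂ p.2 * f₁ p.1)
      (nu P w) := ((hg.mul m2).mul hf₁').integrable
  have i2 : Integrable (fun p : (ι → ℝ) × (ι → ℝ) => g p.2 * post P w f₁ p.2 * f₂ p.1)
      (nu P w) := ((hg.mul m1).mul hf₂').integrable
  have i3 : Integrable (fun p : (ι → ℝ) × (ι → ℝ) =>
      g p.2 * (post P w f₁ p.2 * post P w f₂ p.2)) (nu P w) := (hg.mul (m1.mul m2)).integrable
  have i4 : Integrable (fun p : (ι → ℝ) × (ι → ℝ) =>
      g p.2 * post P w (fun x => f₁ x * f₂ x) p.2) (nu P w) :=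
    (hg.mul (gd_post hP w (hf₁.mul hf₂))).integrable
  have i01 : Integrable (fun p : (ι → ℝ) × (ι → ℝ) => g p.2 * (f₁ p.1 * f₂ p.1) -
      g p.2 * post P w f₂ p.2 * f₁ p.1) (nu P w) := i0.sub i1
  have i012 : Integrable (fun p : (ι → ℝ) × (ι → ℝ) => g p.2 * (f₁ p.1 * f₂ p.1) -
      g p.2 * post P w f₂ p.2 * f₁ p.1 - g p.2 * post P w f₁ p.2 * f₂ p.1) (nu P w) :=
    i01.sub i2
  rw [integral_add i012 i3, integral_sub i01 i2, integral_sub i0 i1,
    integral_sub i4 i3, t0, t1, t2]
  ring

omit hP in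
theorem cov_comm (f g : (ι → ℝ) → ℝ) (y : ι → ℝ) : cov P w f g y = cov P w g f y := by
  unfold cov
  have h : (fun x => f x * g x) = fun x => g x * f x := by
    ext x
    ring
  rw [h]
  ring

omit hP in
theorem kap_comm12 (f g h : (ι → ℝ) → ℝ) (y : ι → ℝ) :
    kap P w f g h y = kap P w g f h y := by
  unfold kap
  have h1 : (fun x => f x * g x * h x) = fun x => g x * f x * h x := by
    ext x
    ring
  have h2 : (fun x => f x * g x) = fun x => g x * f x := by
    ext x
    ring
  rw [h1, h2]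
  ring

omit hP in
theorem kap_comm23 (f g h : (ι → ℝ) → ℝ) (y : ι → ℝ) :
    kap P w f g h y = kap P w f h g y := by
  unfold kap
  have h1 : (fun x => f x * g x * h x) = fun x => f x * h x * g x := by
    ext x
    ring
  have h2 : (fun x => g x * h x) = fun x => h x * g x := by
    ext x
    ring
  rw [h1, h2]
  ring

end posterior

end FULL
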