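import Pool.Agent.Lib.MP_8a5982_an.FULL.Hb
import Pool.Agent.Lib.MP_8a5982_an.FULL.Post2

/-!
Project FULL, module GTB: the uniform bound of the third cumulant array.
-/

open MeasureTheory ProbabilityTheory

namespace FULL

section gtb_aux

variable {ι : Type} [Fintype ι] {P : Measure (ι → ℝ)} {C₀ : ℝ}

/-- the moment bound -/
noncomputable def gtbM (C₀ : ℝ) (k : ℕ) : ℝ :=
  2 * (Nat.factorial (2 * k)) * Real.exp C₀ * C₀ ^ k

/-- moments with the bound `nsq u ≤ C₀` -/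
theorem gtb_moment (hP : ExpM P C₀) (u : ι → ℝ) (hu : nsq u ≤ C₀) (k : ℕ) :
    ∫ x, dot u x ^ (2 * k) ∂P ≤ gtbM C₀ k := by
  refine (hP.moment u k).trans ?_
  unfold gtbM
  apply mul_le_mul_of_nonneg_left _ (by positivity)
  exact pow_le_pow_left₀ (nsq_nonneg u) hu k

theorem amgm3 (x y z : ℝ) : (x * y * z) ^ 2 ≤ (x ^ 6 + y ^ 6 + z ^ 6) / 3 := by
  have hX := sq_nonneg x
  have hY := sq_nonneg y
  have hZ := sq_nonneg z
  have h := mul_nonneg (add_nonneg (add_nonneg hX hY) hZ)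
    (add_nonneg (add_nonneg (sq_nonneg (x ^ 2 - y ^ 2)) (sq_nonneg (y ^ 2 - z ^ 2)))
      (sq_nonneg (z ^ 2 - x ^ 2)))
  nlinarith [h]

theorem amgm2 (x y : ℝ) : (x * y) ^ 2 ≤ (x ^ 4 + y ^ 4) / 2 := by
  nlinarith [sq_nonneg (x ^ 2 - y ^ 2)]

theorem amgm4 (x y : ℝ) : (x * y) ^ 4 ≤ (x ^ 8 + y ^ 8) / 2 := by
  nlinarith [sq_nonneg (x ^ 4 - y ^ 4)]

theorem five_sq (a b c d e : ℝ) :
    (a - b - c - d + 2 * e) ^ 2 ≤ 5 * (a ^ 2 + b ^ 2 + c ^ 2 + d ^ 2 + 4 * e ^ 2) := by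
  nlinarith [sq_nonneg (a + b), sq_nonneg (a + c), sq_nonneg (a + d), sq_nonneg (a - 2 * e),
    sq_nonneg (b - c), sq_nonneg (b - d), sq_nonneg (b + 2 * e), sq_nonneg (c - d),
    sq_nonneg (c + 2 * e), sq_nonneg (d + 2 * e)]

/-- posterior moments, even powers -/
theorem post_even_le (hP : ExpM P C₀) (w : ι → NNReal) {f : (ι → ℝ) → ℝ} (hf : Gd P f) (k : ℕ)
    (hk : 1 ≤ k) : ∫ p, post P w f p.2 ^ (2 * k) ∂(nu P w) ≤ ∫ x, f x ^ (2 * k) ∂P := by
  have h := post_pow_le hP w hf (2 * k) (by omega)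
  have e1 : ∀ r : ℝ, |r| ^ (2 * k) = r ^ (2 * k) := fun r => Even.pow_abs (even_two_mul k) r
  simpa only [e1] using h

/-- the second moment of the posterior third cumulant -/
theorem kap_sq_le (hP : ExpM P C₀) (w : ι → NNReal) (l u v : ι → ℝ) (hl : nsq l ≤ C₀)
    (hu : nsq u ≤ C₀) (hv : nsq v ≤ C₀) :
    ∫ p, kap P w (dot l) (dot u) (dot v) p.2 ^ 2 ∂(nu P w) ≤
      5 * (5 * gtbM C₀ 3 + 3 * ((gtbM C₀ 2 + gtbM C₀ 4) / 2)) := by
  have := hP.prob
  have := isProbability_nu (P := P) w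
  have gl := hP.gd_dot l
  have gu := hP.gd_dot u
  have gv := hP.gd_dot v
  -- first moments
  have m1 : ∀ f : ι → ℝ, nsq f ≤ C₀ → ∫ p, post P w (dot f) p.2 ^ 4 ∂(nu P w) ≤ gtbM C₀ 2 :=
    fun f hf => (post_even_le hP w (hP.gd_dot f) 2 (by norm_num)).trans
      (gtb_moment hP f hf 2)
  have m1' : ∀ f : ι → ℝ, nsq f ≤ C₀ → ∫ p, post P w (dot f) p.2 ^ 6 ∂(nu P w) ≤ gtbM C₀ 3 :=
    fun f hf => (post_even_le hP w (hP.gd_dot f) 3 (by norm_num)).trans
      (gtb_moment hP f hf 3)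
  have m2 : ∀ f g : ι → ℝ, nsq f ≤ C₀ → nsq g ≤ C₀ →
      ∫ p, post P w (fun x => dot f x * dot g x) p.2 ^ 4 ∂(nu P w) ≤ gtbM C₀ 4 := by
    intro f g hf hg
    have gf := hP.gd_dot f
    have gg := hP.gd_dot g
    refine (post_even_le hP w (gf.mul gg) 2 (by norm_num)).trans ?_
    have h1 : ∫ x, (dot f x * dot g x) ^ (2 * 2) ∂P ≤
        ∫ x, (dot f x ^ 8 + dot g x ^ 8) / 2 ∂P := by
      apply integral_mono ((gf.mul gg).pow _).integrable
      · have := (((gf.pow 8).add (gg.pow 8)).const_mul (1 / 2)).integrable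
        refine this.congr (Filter.Eventually.of_forall fun x => ?_)
        simp only; ring
      · intro x; exact amgm4 _ _
    have h2 : ∫ x, (dot f x ^ 8 + dot g x ^ 8) / 2 ∂P =
        ((∫ x, dot f x ^ 8 ∂P) + ∫ x, dot g x ^ 8 ∂P) / 2 := by
      rw [integral_div, integral_add (gf.pow 8).integrable (gg.pow 8).integrable]
    have h3 := gtb_moment hP f hf 4
    have h4 := gtb_moment hP g hg 4
    rw [h2] at h1
    norm_num at h3 h4 h1 ⊢
    linarith
  have m3 : ∫ p, post P w (fun x => dot l x * dot u x * dot v x) p.2 ^ 2 ∂(nu P w) ≤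
      gtbM C₀ 3 := by
    refine (post_even_le hP w ((gl.mul gu).mul gv) 1 (by norm_num)).trans ?_
    have h1 : ∫ x, (dot l x * dot u x * dot v x) ^ (2 * 1) ∂P ≤
        ∫ x, (dot l x ^ 6 + dot u x ^ 6 + dot v x ^ 6) / 3 ∂P := by
      apply integral_mono (((gl.mul gu).mul gv).pow _).integrable
      · have := ((((gl.pow 6).add (gu.pow 6)).add (gv.pow 6)).const_mul (1 / 3)).integrable
        refine this.congr (Filter.Eventually.of_forall fun x => ?_)
        simp only; ring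
      · intro x; exact amgm3 _ _ _
    have h2 : ∫ x, (dot l x ^ 6 + dot u x ^ 6 + dot v x ^ 6) / 3 ∂P =
        ((∫ x, dot l x ^ 6 ∂P) + (∫ x, dot u x ^ 6 ∂P) + ∫ x, dot v x ^ 6 ∂P) / 3 := by
      rw [integral_div, integral_add ((gl.pow 6).add (gu.pow 6)).integrable (gv.pow 6).integrable,
        integral_add (gl.pow 6).integrable (gu.pow 6).integrable]
    have h3 := gtb_moment hP l hl 3
    have h4 := gtb_moment hP u hu 3
    have h5 := gtb_moment hP v hv 3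
    rw [h2] at h1
    norm_num at h3 h4 h5 h1 ⊢
    linarith
  -- the posterior means
  have pl := gd_post hP w gl
  have pu := gd_post hP w gu
  have pv := gd_post hP w gv
  have plu := gd_post hP w (gl.mul gu)
  have plv := gd_post hP w (gl.mul gv)
  have puv := gd_post hP w (gu.mul gv)
  have pluv := gd_post hP w ((gl.mul gu).mul gv)
  have gk := gd_kap hP w gl gu gv
  have hpt : ∀ p : (ι → ℝ) × (ι → ℝ), kap P w (dot l) (dot u) (dot v) p.2 ^ 2 ≤
      5 * (post P w (fun x => dot l x * dot u x * dot v x) p.2 ^ 2 +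
        1 / 2 * (post P w (dot l) p.2 ^ 4 + post P w (fun x => dot u x * dot v x) p.2 ^ 4) +
        1 / 2 * (post P w (dot u) p.2 ^ 4 + post P w (fun x => dot l x * dot v x) p.2 ^ 4) +
        1 / 2 * (post P w (dot v) p.2 ^ 4 + post P w (fun x => dot l x * dot u x) p.2 ^ 4) +
        4 / 3 * (post P w (dot l) p.2 ^ 6 + post P w (dot u) p.2 ^ 6 +
          post P w (dot v) p.2 ^ 6)) := by
    intro p
    unfold kap
    refine (five_sq _ _ _ _ _).trans ?_
    have a1 := amgm2 (post P w (dot l) p.2) (post P w (fun x => dot u x * dot v x) p.2)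
    have a2 := amgm2 (post P w (dot u) p.2) (post P w (fun x => dot l x * dot v x) p.2)
    have a3 := amgm2 (post P w (dot v) p.2) (post P w (fun x => dot l x * dot u x) p.2)
    have a4 := amgm3 (post P w (dot l) p.2) (post P w (dot u) p.2) (post P w (dot v) p.2)
    linarith
  have hI : ∀ (F1 F2 F3 F4 F5 F6 F7 F8 F9 F10 : (ι → ℝ) × (ι → ℝ) → ℝ),
      Gd (nu P w) F1 → Gd (nu P w) F2 → Gd (nu P w) F3 → Gd (nu P w) F4 → Gd (nu P w) F5 →
      Gd (nu P w) F6 → Gd (nu P w) F7 → Gd (nu P w) F8 → Gd (nu P w) F9 → Gd (nu P w) F10 →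
      Integrable (fun p => 5 * (F1 p + 1 / 2 * (F2 p + F3 p) + 1 / 2 * (F4 p + F5 p) +
        1 / 2 * (F6 p + F7 p) + 4 / 3 * (F8 p + F9 p + F10 p))) (nu P w) ∧
      ∫ p, 5 * (F1 p + 1 / 2 * (F2 p + F3 p) + 1 / 2 * (F4 p + F5 p) +
        1 / 2 * (F6 p + F7 p) + 4 / 3 * (F8 p + F9 p + F10 p)) ∂(nu P w) =
      5 * ((∫ p, F1 p ∂(nu P w)) + 1 / 2 * ((∫ p, F2 p ∂(nu P w)) + ∫ p, F3 p ∂(nu P w)) +
        1 / 2 * ((∫ p, F4 p ∂(nu P w)) + ∫ p, F5 p ∂(nu P w)) +
        1 / 2 * ((∫ p, F6 p ∂(nu P w)) + ∫ p, F7 p ∂(nu P w)) +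
        4 / 3 * ((∫ p, F8 p ∂(nu P w)) + (∫ p, F9 p ∂(nu P w)) + ∫ p, F10 p ∂(nu P w))) := by
    intro F1 F2 F3 F4 F5 F6 F7 F8 F9 F10 h1 h2 h3 h4 h5 h6 h7 h8 h9 h10
    have g23 := (h2.add h3).const_mul (1 / 2)
    have g45 := (h4.add h5).const_mul (1 / 2)
    have g67 := (h6.add h7).const_mul (1 / 2)
    have g8 := ((h8.add h9).add h10).const_mul (4 / 3)
    refine ⟨(((((h1.add g23).add g45).add g67).add g8).const_mul 5).integrable, ?_⟩
    rw [integral_const_mul, integral_add (((h1.add g23).add g45).add g67).integrable g8.integrable,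
      integral_add ((h1.add g23).add g45).integrable g67.integrable,
      integral_add (h1.add g23).integrable g45.integrable,
      integral_add h1.integrable g23.integrable, integral_const_mul, integral_const_mul,
      integral_const_mul, integral_const_mul, integral_add h2.integrable h3.integrable,
      integral_add h4.integrable h5.integrable, integral_add h6.integrable h7.integrable,
      integral_add (h8.add h9).integrable h10.integrable,
      integral_add h8.integrable h9.integrable]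
  obtain ⟨hi1, hi2⟩ := hI _ _ _ _ _ _ _ _ _ _ (pluv.pow 2) (pl.pow 4) (puv.pow 4) (pu.pow 4)
    (plv.pow 4) (pv.pow 4) (plu.pow 4) (pl.pow 6) (pu.pow 6) (pv.pow 6)
  refine (integral_mono (gk.pow 2).integrable hi1 hpt).trans ?_
  rw [hi2]
  have b1 := m1 l hl
  have b2 := m1 u hu
  have b3 := m1 v hv
  have b4 := m1' l hl
  have b5 := m1' u hu
  have b6 := m1' v hv
  have b7 := m2 u v hu hv
  have b8 := m2 l v hl hv
  have b9 := m2 l u hl hu
  linarith

end gtb_aux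

/-- the uniform bound of the array -/
theorem gterm_bound (C₀ : ℝ) (s₀ : NNReal) (hs₀ : 0 < s₀) : ∃ K : ℝ, ∀ (ι : Type) [Fintype ι]
    [DecidableEq ι] (P : Measure (ι → ℝ)), ExpM P C₀ → ∀ (A G : Finset ι) (s : NNReal)
    (c θ : ℝ) (a l u v : ι → ℝ), Disjoint A G → (∀ i, i ∉ A → a i = 0) →
    (∀ i, i ∉ G → l i = 0) → nsq a ≤ C₀ → nsq l ≤ C₀ → nsq u ≤ C₀ → nsq v ≤ C₀ →
    0 ≤ θ → θ ≤ c → c ≤ 1 → s₀ ≤ s → s ≤ 2 * s₀ → |gterm P A G s c θ a l u v| ≤ K := by
  obtain ⟨K1, h1⟩ := hfac_moment C₀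
  obtain ⟨K2, h2⟩ := efac_moment C₀ s₀ hs₀
  refine ⟨1 / 4 * K1 + 1 / 8 * (1 + K2) +
    1 / 2 * (5 * (5 * gtbM C₀ 3 + 3 * ((gtbM C₀ 2 + gtbM C₀ 4) / 2))), ?_⟩
  intro ι _ _ P hP A G s c θ a l u v hAG ha hl hna hnl hnu hnv hθ hθc hc hs hs'
  have := hP.prob
  have := isProbability_nu (P := P) (wt A G s)
  obtain ⟨gh, bh⟩ := h1 ι P hP A G s a l c hAG ha hl hna hnl (hθ.trans hθc) hc
  obtain ⟨ge, be⟩ := h2 ι P hP A G s l θ hl hnl hθ (hθc.trans hc) hs hs'
  have gk := gd_kap hP (wt A G s) (hP.gd_dot l) (hP.gd_dot u) (hP.gd_dot v)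
  have bk := kap_sq_le hP (wt A G s) l u v hnl hnu hnv
  set ν := nu P (wt A G s) with hν
  unfold gterm
  rw [← hν]
  refine (abs_integral_le_integral_abs).trans ?_
  have hpt : ∀ p : (ι → ℝ) × (ι → ℝ), |hfac a l c p * efac (wt A G s) s l θ p *
      kap P (wt A G s) (dot l) (dot u) (dot v) p.2| ≤
      1 / 4 * hfac a l c p ^ 4 + 1 / 8 * (1 + efac (wt A G s) s l θ p ^ 8) +
        1 / 2 * kap P (wt A G s) (dot l) (dot u) (dot v) p.2 ^ 2 := by
    intro p
    set h := hfac a l c p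
    set e := efac (wt A G s) s l θ p
    set k := kap P (wt A G s) (dot l) (dot u) (dot v) p.2
    have a1 := amgm2 h e
    have a2 : e ^ 4 ≤ (1 + e ^ 8) / 2 := by nlinarith [sq_nonneg (e ^ 4 - 1)]
    have a3 : |h * e * k| ≤ ((h * e) ^ 2 + k ^ 2) / 2 := by
      rw [abs_le]
      constructor <;> nlinarith [sq_nonneg (h * e - k), sq_nonneg (h * e + k)]
    linarith
  have g1 := (gh.pow 4).const_mul (1 / 4)
  have g2 := ((Gd.const (μ := ν) 1).add (ge.pow 8)).const_mul (1 / 8)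
  have g3 := (gk.pow 2).const_mul (1 / 2)
  refine (integral_mono ((gh.mul ge).mul gk).abs.integrable ((g1.add g2).add g3).integrable
    hpt).trans ?_
  rw [integral_add (g1.add g2).integrable g3.integrable, integral_add g1.integrable g2.integrable,
    integral_const_mul, integral_const_mul, integral_const_mul,
    integral_add (Gd.const (μ := ν) 1).integrable (ge.pow 8).integrable]
  have hone : ∫ _, (1 : ℝ) ∂ν = 1 := by simp
  rw [hone]
  linarith

end FULL
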