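import Pool.Agent.Lib.MP_8a5982_an.FULL.Defs
import Pool.Agent.Lib.MP_8a5982_an.FULL.Gdc
import Pool.Agent.Lib.MP_8a5982_an.FULL.Gauss
import Pool.Agent.Lib.MP_8a5982_an.FULL.Chan1

/-!
Project FULL, module MM1: the integral of `hfac`.
-/

open MeasureTheory ProbabilityTheory Filter Topology

namespace FULL

theorem H62.wt_on_A {ι : Type} [DecidableEq ι] (A G : Finset ι) (s : NNReal) (hAG : Disjoint A G)
    (i : ι) (hi : i ∈ A) : wt A G s i = 1 := by
  unfold wt onG
  rw [if_neg (fun h => (Finset.disjoint_left.1 hAG hi) h)]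
  exact if_pos hi

theorem H62.mul_wt {ι : Type} [DecidableEq ι] (A G : Finset ι) (s : NNReal) (hAG : Disjoint A G)
    (a : ι → ℝ) (ha : ∀ i, i ∉ A → a i = 0) (i : ι) (r : ℝ) :
    a i * ((wt A G s i : ℝ) * r) = a i * r := by
  by_cases hi : i ∈ A
  · rw [H62.wt_on_A A G s hAG i hi, NNReal.coe_one, one_mul]
  · rw [ha i hi, zero_mul, zero_mul]

theorem H62.hfac_obs {ι : Type} [Fintype ι] [DecidableEq ι] (A G : Finset ι) (s : NNReal)
    (a l : ι → ℝ) (c : ℝ) (hAG : Disjoint A G) (ha : ∀ i, i ∉ A → a i = 0)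
    (p : (ι → ℝ) × (ι → ℝ)) :
    hfac a l c (p.1, obs (wt A G s) p) =
      Real.exp (dot a p.1 + c * dot l p.1) * Real.exp (dot a p.2) := by
  unfold hfac obs
  rw [← Real.exp_add]
  congr 1
  have h : dot a (fun i => (wt A G s i : ℝ) * p.1 i + p.2 i) = dot a p.1 + dot a p.2 := by
    unfold dot
    rw [← Finset.sum_add_distrib]
    refine Finset.sum_congr rfl fun i _ => ?_
    rw [mul_add, H62.mul_wt A G s hAG a ha]
  dsimp only
  rw [h]
  ring

theorem H62.measurable_hfac {ι : Type} [Fintype ι] (a l : ι → ℝ) (c : ℝ) :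
    Measurable (hfac a l c) := by
  unfold hfac
  exact Real.measurable_exp.comp (((measurable_dot a).comp measurable_snd).add
    (((measurable_dot l).comp measurable_fst).const_mul c))

theorem hfac_integral {ι : Type} [Fintype ι] [DecidableEq ι] {P : Measure (ι → ℝ)} {C₀ : ℝ}
    (hP : ExpM P C₀) (A G : Finset ι) (s : NNReal) (a l : ι → ℝ) (c : ℝ)
    (hAG : Disjoint A G) (ha : ∀ i, i ∉ A → a i = 0) :
    ∫ p, hfac a l c p ∂(nu P (wt A G s)) =
      Real.exp (nsq a / 2) * ∫ x, Real.exp (dot a x + c * dot l x) ∂P := by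
  have := hP.prob
  have := isProbability_gam (wt A G s)
  rw [integral_nu_direct (wt A G s) _ (H62.measurable_hfac a l c)]
  simp only [H62.hfac_obs A G s a l c hAG ha]
  rw [integral_prod_mul (μ := P) (ν := gam (wt A G s))
    (fun x => Real.exp (dot a x + c * dot l x)) (fun B => Real.exp (dot a B)),
    integral_exp_gam, mul_comm]
  congr 2
  unfold nsq
  congr 1
  refine Finset.sum_congr rfl fun i _ => ?_
  by_cases hi : i ∈ A
  · rw [H62.wt_on_A A G s hAG i hi, NNReal.coe_one, one_mul]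
  · rw [ha i hi]
    ring

end FULL
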