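import Pool.Agent.Lib.MP_8a5982_an.FULL.Defs
import Pool.Agent.Lib.MP_8a5982_an.FULL.Gdc
import Pool.Agent.Lib.MP_8a5982_an.FULL.Mom
import Pool.Agent.Lib.MP_8a5982_an.FULL.Gauss
import Pool.Agent.Lib.MP_8a5982_an.FULL.Chan1
import Pool.Agent.Lib.MP_8a5982_an.FULL.Chan2
import Pool.Agent.Lib.MP_8a5982_an.FULL.Mm1

/-!
Project FULL, module HB: moment bounds for the factors.
-/

open MeasureTheory ProbabilityTheory Filter Topology

namespace FULL

theorem H62.wt_on_G {ι : Type} [DecidableEq ι] (A G : Finset ι) (s : NNReal) (i : ι) (hi : i ∈ G) :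
    wt A G s i = s := by
  unfold wt onG
  rw [if_pos hi]

/-- exponential moments of the noise -/
theorem H62.integral_exp_noise {ι : Type} [Fintype ι] {P : Measure (ι → ℝ)} [IsProbabilityMeasure P]
    (w : ι → NNReal) (v : ι → ℝ) :
    ∫ p, Real.exp (dot v (noise w p)) ∂(nu P w) =
      Real.exp ((∑ i, (w i : ℝ) * v i ^ 2) / 2) := by
  have := isProbability_gam w
  have hm : Measurable (fun p : (ι → ℝ) × (ι → ℝ) => Real.exp (dot v (noise w p))) := by
    refine Real.measurable_exp.comp ((measurable_dot v).comp ?_)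
    refine measurable_pi_lambda _ fun i => ?_
    unfold noise
    exact ((measurable_pi_apply i).comp measurable_snd).sub
      (((measurable_pi_apply i).comp measurable_fst).const_mul _)
  rw [integral_nu_direct w _ hm]
  simp only [noise_obs]
  rw [← integral_exp_gam w v]
  have h := integral_prod_mul (μ := P) (ν := gam w) (fun _ : ι → ℝ => (1 : ℝ))
    (fun B => Real.exp (dot v B))
  simp only [one_mul, integral_const, probReal_univ, smul_eq_mul, mul_one] at h
  exact h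

/-- the noise has all exponential moments -/
theorem H62.gd_exp_noise {ι : Type} [Fintype ι] {P : Measure (ι → ℝ)} [IsProbabilityMeasure P]
    (w : ι → NNReal) (v : ι → ℝ) :
    Gd (nu P w) (fun p => Real.exp (dot v (noise w p))) := by
  refine Gd.nu_noise w (f := fun B => Real.exp (dot v B)) ?_
  refine (expM_gam w (∑ i, (w i : ℝ)) (Finset.sum_nonneg fun i _ => (w i).coe_nonneg)
    fun i => ?_).gd_exp v
  exact Finset.single_le_sum (f := fun i => (w i : ℝ)) (fun i _ => (w i).coe_nonneg)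
    (Finset.mem_univ i)

theorem H62.nsq_lin {ι : Type} [Fintype ι] (a l : ι → ℝ) (c C₀ : ℝ) (ha : nsq a ≤ C₀)
    (hl : nsq l ≤ C₀) (hc0 : 0 ≤ c) (hc1 : c ≤ 1) :
    nsq ((4 : ℝ) • a + (4 * c) • l) ≤ 64 * C₀ := by
  have h1 : nsq ((4 : ℝ) • a + (4 * c) • l) ≤ 32 * nsq a + 32 * nsq l := by
    unfold nsq
    rw [Finset.mul_sum, Finset.mul_sum, ← Finset.sum_add_distrib]
    refine Finset.sum_le_sum fun i _ => ?_
    simp only [Pi.add_apply, Pi.smul_apply, smul_eq_mul]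
    have h2 : c ^ 2 ≤ 1 := pow_le_one₀ hc0 hc1
    have h3 : (c * l i) ^ 2 ≤ l i ^ 2 := by
      rw [mul_pow]
      nlinarith [sq_nonneg (l i)]
    nlinarith [sq_nonneg (a i - c * l i)]
  linarith

/-- uniform moment bounds (`K` depends only on `C₀`, `s₀`) -/
theorem hfac_moment (C₀ : ℝ) : ∃ K : ℝ, ∀ (ι : Type) [Fintype ι] [DecidableEq ι]
    (P : Measure (ι → ℝ)), ExpM P C₀ → ∀ (A G : Finset ι) (s : NNReal) (a l : ι → ℝ) (c : ℝ),
    Disjoint A G → (∀ i, i ∉ A → a i = 0) → (∀ i, i ∉ G → l i = 0) → nsq a ≤ C₀ → nsq l ≤ C₀ →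
    0 ≤ c → c ≤ 1 → Gd (nu P (wt A G s)) (hfac a l c) ∧
      ∫ p, hfac a l c p ^ 4 ∂(nu P (wt A G s)) ≤ K := by
  refine ⟨Real.exp (8 * C₀ + 64 * C₀ ^ 2), ?_⟩
  intro ι _ _ P hP A G s a l c hAG ha hl hna hnl hc0 hc1
  have := hP.prob
  have := isProbability_nu (P := P) (wt A G s)
  have hC := hP.nonneg
  constructor
  · have h1 : hfac a l c = fun p : (ι → ℝ) × (ι → ℝ) =>
        Real.exp (dot a p.2) * Real.exp (dot (c • l) p.1) := by
      funext p
      unfold hfac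
      rw [← Real.exp_add, dot_smul]
    rw [h1]
    exact (Gd.nu_exp_snd _ hP a).mul (Gd.nu_fst _ (hP.gd_exp (c • l)))
  · have h1 : ∀ p : (ι → ℝ) × (ι → ℝ), hfac a l c p ^ 4 =
        hfac ((4 : ℝ) • a) ((4 : ℝ) • l) c p := by
      intro p
      unfold hfac
      rw [← Real.exp_nat_mul, dot_smul, dot_smul]
      congr 1
      push_cast
      ring
    simp only [h1]
    rw [hfac_integral hP A G s _ _ c hAG (fun i hi => by
      rw [Pi.smul_apply, ha i hi, smul_zero])]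
    have h2 : ∀ x : ι → ℝ, dot ((4 : ℝ) • a) x + c * dot ((4 : ℝ) • l) x =
        dot ((4 : ℝ) • a + (4 * c) • l) x := by
      intro x
      rw [dot_add, dot_smul, dot_smul, dot_smul]
      ring
    simp only [h2]
    have h3 := hP.le ((4 : ℝ) • a + (4 * c) • l)
    have h4 := H62.nsq_lin a l c C₀ hna hnl hc0 hc1
    have h5 : Real.exp (C₀ * nsq ((4 : ℝ) • a + (4 * c) • l)) ≤ Real.exp (64 * C₀ ^ 2) := by
      refine Real.exp_le_exp.2 ?_
      nlinarith
    have h6 : Real.exp (nsq ((4 : ℝ) • a) / 2) ≤ Real.exp (8 * C₀) := by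
      refine Real.exp_le_exp.2 ?_
      rw [nsq_smul]
      linarith
    rw [Real.exp_add]
    exact mul_le_mul h6 (h3.trans h5) (integral_nonneg fun x => (Real.exp_pos _).le)
      (Real.exp_pos _).le

theorem efac_moment (C₀ : ℝ) (s₀ : NNReal) (hs₀ : 0 < s₀) : ∃ K : ℝ, ∀ (ι : Type) [Fintype ι]
    [DecidableEq ι] (P : Measure (ι → ℝ)), ExpM P C₀ → ∀ (A G : Finset ι) (s : NNReal)
    (l : ι → ℝ) (θ : ℝ), (∀ i, i ∉ G → l i = 0) → nsq l ≤ C₀ → 0 ≤ θ → θ ≤ 1 → s₀ ≤ s →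
    s ≤ 2 * s₀ → Gd (nu P (wt A G s)) (efac (wt A G s) s l θ) ∧
      ∫ p, efac (wt A G s) s l θ p ^ 8 ∂(nu P (wt A G s)) ≤ K := by
  refine ⟨Real.exp (28 * (C₀ / s₀)), ?_⟩
  intro ι _ _ P hP A G s l θ hl hnl hθ0 hθ1 hs1 hs2
  have := hP.prob
  have := isProbability_nu (P := P) (wt A G s)
  have hs0 : (0 : ℝ) < s₀ := by exact_mod_cast hs₀
  have hs : (s₀ : ℝ) ≤ s := by exact_mod_cast hs1
  have hspos : (0 : ℝ) < s := lt_of_lt_of_le hs0 hs
  have h1 : ∀ (k : ℕ) (p : (ι → ℝ) × (ι → ℝ)), efac (wt A G s) s l θ p ^ k =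
      Real.exp (-(k * (θ ^ 2 * nsq l / (2 * s)))) *
        Real.exp (dot ((k * θ / s : ℝ) • l) (noise (wt A G s) p)) := by
    intro k p
    unfold efac
    rw [← Real.exp_nat_mul, ← Real.exp_add, dot_smul]
    congr 1
    ring
  constructor
  · have h2 : efac (wt A G s) s l θ = fun p : (ι → ℝ) × (ι → ℝ) =>
        Real.exp (-((1 : ℕ) * (θ ^ 2 * nsq l / (2 * s)))) *
          Real.exp (dot (((1 : ℕ) * θ / s : ℝ) • l) (noise (wt A G s) p)) := by
      funext p
      rw [← h1 1 p, pow_one]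
    rw [h2]
    exact Gd.const_mul _ (H62.gd_exp_noise _ _)
  · simp only [h1]
    rw [integral_const_mul, H62.integral_exp_noise, ← Real.exp_add]
    refine Real.exp_le_exp.2 ?_
    have h2 : ∑ i, (wt A G s i : ℝ) * ((((8 : ℕ) * θ / s : ℝ) • l) i) ^ 2 =
        64 * (θ ^ 2 * nsq l / s) := by
      have h3 : ∀ i, (wt A G s i : ℝ) * ((((8 : ℕ) * θ / s : ℝ) • l) i) ^ 2 =
          64 * (θ ^ 2 / s) * l i ^ 2 := by
        intro i
        rw [Pi.smul_apply, smul_eq_mul]
        by_cases hi : i ∈ G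
        · rw [H62.wt_on_G A G s i hi]
          push_cast
          field_simp
          ring
        · rw [hl i hi]
          ring
      simp only [h3]
      rw [← Finset.mul_sum]
      unfold nsq
      ring
    rw [h2]
    have h4 : θ ^ 2 * nsq l / s ≤ C₀ / s₀ := by
      have h5 : θ ^ 2 ≤ 1 := pow_le_one₀ hθ0 hθ1
      have h6 : 0 ≤ nsq l := nsq_nonneg l
      have h7 : θ ^ 2 * nsq l ≤ C₀ := by nlinarith
      exact div_le_div₀ (h6.trans hnl) h7 hs0 hs
    have h8 : -(((8 : ℕ) : ℝ) * (θ ^ 2 * nsq l / (2 * s))) = -4 * (θ ^ 2 * nsq l / s) := by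
      push_cast
      field_simp
      ring
    rw [h8]
    linarith

end FULL
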