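import Pool.Agent.Lib.MP_8a5982_an.FULL.Chan1
import Pool.Agent.Lib.MP_8a5982_an.FULL.Mom

/-!
Project FULL, module POST1: the posterior measure and its first properties.
-/

open MeasureTheory ProbabilityTheory

namespace FULL

/-! ### the posterior measure -/

section posterior
variable {ι : Type} [Fintype ι] {P : Measure (ι → ℝ)} {C : ℝ}

theorem dens_pos (w : ι → NNReal) (x y : ι → ℝ) : 0 < dens w x y := Real.exp_pos _

theorem dens_le (w : ι → NNReal) (x y : ι → ℝ) : dens w x y ≤ Real.exp (dot y x) := by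
  unfold dens dot
  apply Real.exp_le_exp.mpr
  apply Finset.sum_le_sum
  intro i _
  have : 0 ≤ (w i : ℝ) * x i ^ 2 / 2 := by positivity
  linarith

theorem measurable_dens_left (w : ι → NNReal) (y : ι → ℝ) :
    Measurable (fun x => dens w x y) :=
  (measurable_dens w).comp (measurable_id.prodMk measurable_const)

theorem gd_dens (hP : ExpM P C) (w : ι → NNReal) (y : ι → ℝ) : Gd P (fun x => dens w x y) := by
  have := hP.prob
  refine (hP.gd_exp y).mono (measurable_dens_left w y) fun x => ?_
  rw [abs_of_pos (dens_pos w x y), abs_of_pos (Real.exp_pos _)]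
  exact dens_le w x y

theorem integrable_dens (hP : ExpM P C) (w : ι → NNReal) {f : (ι → ℝ) → ℝ} (hf : Gd P f)
    (y : ι → ℝ) : Integrable (fun x => f x * dens w x y) P := by
  have := hP.prob
  exact (hf.mul (gd_dens hP w y)).integrable

theorem RR_pos (hP : ExpM P C) (w : ι → NNReal) (y : ι → ℝ) : 0 < RR P w y := by
  have := hP.prob
  have h : Integrable (fun x => Real.exp (∑ i, (y i * x i - w i * x i ^ 2 / 2))) P :=
    (gd_dens hP w y).integrable
  exact integral_exp_pos h

/-- the posterior law of `x` given `y` -/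
noncomputable def pm (P : Measure (ι → ℝ)) (w : ι → NNReal) (y : ι → ℝ) : Measure (ι → ℝ) :=
  P.withDensity fun x => ENNReal.ofReal (dens w x y / RR P w y)

theorem integral_pm (hP : ExpM P C) (w : ι → NNReal) (f : (ι → ℝ) → ℝ) (y : ι → ℝ) :
    ∫ x, f x ∂(pm P w y) = post P w f y := by
  have hR := RR_pos hP w y
  have hm : Measurable (fun x => Real.toNNReal (dens w x y / RR P w y)) :=
    ((measurable_dens_left w y).div_const _).real_toNNReal
  have : pm P w y = P.withDensity fun x => ((Real.toNNReal (dens w x y / RR P w y) : NNReal) :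
      ENNReal) := rfl
  rw [this, integral_withDensity_eq_integral_smul hm]
  unfold post NN
  rw [← integral_div]
  refine integral_congr_ae (Filter.Eventually.of_forall fun x => ?_)
  have h0 : 0 ≤ dens w x y / RR P w y := (div_pos (dens_pos w x y) hR).le
  simp only [NNReal.smul_def, Real.coe_toNNReal _ h0, smul_eq_mul]
  ring

theorem prob_pm (hP : ExpM P C) (w : ι → NNReal) (y : ι → ℝ) :
    IsProbabilityMeasure (pm P w y) := by
  have := hP.prob
  have hR := RR_pos hP w y
  constructor
  unfold pm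
  rw [withDensity_apply _ MeasurableSet.univ, Measure.restrict_univ,
    ← ofReal_integral_eq_lintegral_ofReal]
  · rw [integral_div]
    have : ∫ x, dens w x y ∂P = RR P w y := rfl
    rw [this, div_self hR.ne', ENNReal.ofReal_one]
  · exact (gd_dens hP w y).integrable.div_const _
  · exact Filter.Eventually.of_forall fun x => (div_pos (dens_pos w x y) hR).le

theorem gd_pm (hP : ExpM P C) (w : ι → NNReal) {f : (ι → ℝ) → ℝ} (hf : Gd P f) (y : ι → ℝ) :
    Gd (pm P w y) f := by
  have := hP.prob
  have hR := RR_pos hP w y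
  refine ⟨hf.meas, fun p => ?_⟩
  rcases Nat.eq_zero_or_pos p with h0 | h0
  · subst h0
    simpa using hf.meas.aestronglyMeasurable
  have hp0 : (p : ENNReal) ≠ 0 := by exact_mod_cast h0.ne'
  rw [← integrable_norm_rpow_iff hf.meas.aestronglyMeasurable hp0 (ENNReal.natCast_ne_top p)]
  have hm : Measurable (fun x => Real.toNNReal (dens w x y / RR P w y)) :=
    ((measurable_dens_left w y).div_const _).real_toNNReal
  have hpm : pm P w y = P.withDensity fun x => ((Real.toNNReal (dens w x y / RR P w y) : NNReal) :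
      ENNReal) := rfl
  rw [hpm, integrable_withDensity_iff_integrable_smul hm]
  have hi := (integrable_dens hP w (hf.abs.pow p) y).div_const (RR P w y)
  refine hi.congr (Filter.Eventually.of_forall fun x => ?_)
  have h1 : 0 ≤ dens w x y / RR P w y := (div_pos (dens_pos w x y) hR).le
  simp only [NNReal.smul_def, Real.coe_toNNReal _ h1, smul_eq_mul, ENNReal.toReal_natCast,
    Real.rpow_natCast, Real.norm_eq_abs]
  ring

/-- Jensen for the posterior -/
theorem post_jensen (hP : ExpM P C) (w : ι → NNReal) {f : (ι → ℝ) → ℝ} (hf : Gd P f) (y : ι → ℝ)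
    (k : ℕ) (hk : 1 ≤ k) :
    |post P w f y| ^ k ≤ post P w (fun x => |f x| ^ k) y := by
  have hpr := prob_pm hP w y
  rw [← integral_pm hP w f y, ← integral_pm hP w (fun x => |f x| ^ k) y]
  calc |∫ x, f x ∂(pm P w y)| ^ k ≤ (∫ x, |f x| ∂(pm P w y)) ^ k := by
        apply pow_le_pow_left₀ (abs_nonneg _)
        exact abs_integral_le_integral_abs
    _ ≤ _ := (gd_pm hP w hf y).jensen k hk

theorem measurable_NN [IsProbabilityMeasure P] (w : ι → NNReal) {f : (ι → ℝ) → ℝ}
    (hf : Measurable f) : Measurable (NN P w f) := by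
  have h : StronglyMeasurable (fun p : (ι → ℝ) × (ι → ℝ) => f p.2 * dens w p.2 p.1) := by
    apply Measurable.stronglyMeasurable
    exact (hf.comp measurable_snd).mul ((measurable_dens w).comp measurable_swap)
  exact h.integral_prod_right'.measurable

theorem measurable_RR [IsProbabilityMeasure P] (w : ι → NNReal) : Measurable (RR P w) := by
  have h : StronglyMeasurable (fun p : (ι → ℝ) × (ι → ℝ) => dens w p.2 p.1) := by
    apply Measurable.stronglyMeasurable
    exact ((measurable_dens w).comp measurable_swap)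
  exact h.integral_prod_right'.measurable

theorem measurable_post (hP : ExpM P C) (w : ι → NNReal) {f : (ι → ℝ) → ℝ} (hf : Measurable f) :
    Measurable (post P w f) := by
  have := hP.prob
  exact (measurable_NN w hf).div (measurable_RR w)

theorem NN_eq (hP : ExpM P C) (w : ι → NNReal) (f : (ι → ℝ) → ℝ) (y : ι → ℝ) :
    NN P w f y = RR P w y * post P w f y := by
  unfold post
  field_simp [(RR_pos hP w y).ne']

theorem lintegral_nu [IsProbabilityMeasure P] (w : ι → NNReal)
    (F : (ι → ℝ) × (ι → ℝ) → ENNReal) (hF : Measurable F) :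
    ∫⁻ p, F p ∂(nu P w) = ∫⁻ y, ∫⁻ x, ENNReal.ofReal (dens w x y) * F (x, y) ∂P ∂(gam w) := by
  have := isProbability_gam w
  have hm : Measurable (fun p : (ι → ℝ) × (ι → ℝ) => ENNReal.ofReal (dens w p.1 p.2)) :=
    (measurable_dens w).ennreal_ofReal
  rw [nu_eq, lintegral_withDensity_eq_lintegral_mul _ hm hF,
    lintegral_prod_symm' _ (hm.mul hF)]
  rfl

theorem lintegral_post_le (hP : ExpM P C) (w : ι → NNReal) {f : (ι → ℝ) → ℝ} (hf : Gd P f)
    (k : ℕ) (hk : 1 ≤ k) :
    ∫⁻ p, ENNReal.ofReal (|post P w f p.2| ^ k) ∂(nu P w) ≤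
      ∫⁻ x, ENNReal.ofReal (|f x| ^ k) ∂P := by
  have := hP.prob
  have h1 : ∫⁻ x, ENNReal.ofReal (|f x| ^ k) ∂P =
      ∫⁻ p, ENNReal.ofReal (|f p.1| ^ k) ∂(nu P w) := by
    conv_lhs => rw [← nu_fst (P := P) w]
    rw [lintegral_map]
    · exact (hf.meas.abs.pow_const k).ennreal_ofReal
    · exact measurable_fst
  rw [h1, lintegral_nu w _ ?_, lintegral_nu w _ ?_]
  · apply lintegral_mono
    intro y
    dsimp only
    rw [lintegral_mul_const]
    swap
    · exact (measurable_dens_left w y).ennreal_ofReal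
    rw [← ofReal_integral_eq_lintegral_ofReal (gd_dens hP w y).integrable
      (Filter.Eventually.of_forall fun x => (dens_pos w x y).le)]
    have h2 : ∀ x, ENNReal.ofReal (dens w x y) * ENNReal.ofReal (|f x| ^ k) =
        ENNReal.ofReal (|f x| ^ k * dens w x y) := by
      intro x
      rw [← ENNReal.ofReal_mul (dens_pos w x y).le, mul_comm]
    simp_rw [h2]
    rw [← ofReal_integral_eq_lintegral_ofReal (integrable_dens hP w (hf.abs.pow k) y)
      (Filter.Eventually.of_forall fun x => mul_nonneg (by positivity) (dens_pos w x y).le)]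
    have hR : 0 < RR P w y := RR_pos hP w y
    change ENNReal.ofReal (RR P w y) * _ ≤ ENNReal.ofReal (NN P w (fun x => |f x| ^ k) y)
    rw [← ENNReal.ofReal_mul hR.le, NN_eq hP w]
    apply ENNReal.ofReal_le_ofReal
    exact mul_le_mul_of_nonneg_left (post_jensen hP w hf y k hk) hR.le
  · exact ((hf.meas.comp measurable_fst).abs.pow_const k).ennreal_ofReal
  · exact (((measurable_post hP w hf.meas).comp measurable_snd).abs.pow_const k).ennreal_ofReal

theorem lintegral_pow_lt_top (hP : ExpM P C) {f : (ι → ℝ) → ℝ} (hf : Gd P f) (k : ℕ) :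
    ∫⁻ x, ENNReal.ofReal (|f x| ^ k) ∂P < ⊤ := by
  have := hP.prob
  rw [← ofReal_integral_eq_lintegral_ofReal (hf.abs.pow k).integrable
    (Filter.Eventually.of_forall fun x => by positivity)]
  exact ENNReal.ofReal_lt_top

theorem gd_post (hP : ExpM P C) (w : ι → NNReal) {f : (ι → ℝ) → ℝ} (hf : Gd P f) :
    Gd (nu P w) (fun p => post P w f p.2) := by
  have := hP.prob
  have := isProbability_nu (P := P) w
  have hm : Measurable (fun p : (ι → ℝ) × (ι → ℝ) => post P w f p.2) :=
    (measurable_post hP w hf.meas).comp measurable_snd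
  refine ⟨hm, fun p => ?_⟩
  rcases Nat.eq_zero_or_pos p with h0 | h0
  · subst h0
    simpa using hm.aestronglyMeasurable
  have hp0 : (p : ENNReal) ≠ 0 := by exact_mod_cast h0.ne'
  rw [← integrable_norm_rpow_iff hm.aestronglyMeasurable hp0 (ENNReal.natCast_ne_top p)]
  simp only [ENNReal.toReal_natCast, Real.rpow_natCast, Real.norm_eq_abs]
  refine ⟨(hm.abs.pow_const p).aestronglyMeasurable, ?_⟩
  rw [hasFiniteIntegral_iff_ofReal (Filter.Eventually.of_forall fun x => by positivity)]
  exact (lintegral_post_le hP w hf p h0).trans_lt (lintegral_pow_lt_top hP hf p)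

theorem post_pow_le (hP : ExpM P C) (w : ι → NNReal) {f : (ι → ℝ) → ℝ} (hf : Gd P f) (k : ℕ)
    (hk : 1 ≤ k) :
    ∫ p, |post P w f p.2| ^ k ∂(nu P w) ≤ ∫ x, |f x| ^ k ∂P := by
  have := hP.prob
  have hm : Measurable (fun p : (ι → ℝ) × (ι → ℝ) => |post P w f p.2| ^ k) :=
    ((measurable_post hP w hf.meas).comp measurable_snd).abs.pow_const k
  rw [integral_eq_lintegral_of_nonneg_ae (Filter.Eventually.of_forall fun x => by positivity)
    hm.aestronglyMeasurable,
    integral_eq_lintegral_of_nonneg_ae (Filter.Eventually.of_forall fun x => by positivity)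
    (hf.meas.abs.pow_const k).aestronglyMeasurable]
  exact ENNReal.toReal_mono (lintegral_pow_lt_top hP hf k).ne (lintegral_post_le hP w hf k hk)

theorem integral_nu_iter (hP : ExpM P C) (w : ι → NNReal) (F : (ι → ℝ) × (ι → ℝ) → ℝ)
    (hF : Gd (nu P w) F) :
    ∫ p, F p ∂(nu P w) = ∫ y, ∫ x, dens w x y * F (x, y) ∂P ∂(gam w) := by
  have := hP.prob
  have := isProbability_gam w
  have := isProbability_nu (P := P) w
  rw [integral_nu_ref w F hF.meas,
    integral_prod_symm _ (integrable_nu_ref w F hF.meas hF.integrable)]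

theorem gd_nu_of_fst [IsProbabilityMeasure P] (w : ι → NNReal) {f : (ι → ℝ) → ℝ}
    (hf : Gd P f) : Gd (nu P w) (fun p => f p.1) := by
  have hT : MeasurePreserving (Prod.fst : (ι → ℝ) × (ι → ℝ) → (ι → ℝ)) (nu P w) P :=
    ⟨measurable_fst, nu_fst w⟩
  exact Gd.comp hT hf

theorem tower (hP : ExpM P C) (w : ι → NNReal) {f g : (ι → ℝ) → ℝ} (hf : Gd P f)
    (hg : Gd (nu P w) (fun p => g p.2)) :
    ∫ p, g p.2 * f p.1 ∂(nu P w) = ∫ p, g p.2 * post P w f p.2 ∂(nu P w) := by
  have := hP.prob
  have := isProbability_nu (P := P) w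
  rw [integral_nu_iter hP w (fun p => g p.2 * f p.1) (hg.mul (gd_nu_of_fst w hf)),
    integral_nu_iter hP w (fun p => g p.2 * post P w f p.2) (hg.mul (gd_post hP w hf))]
  apply integral_congr_ae
  refine Filter.Eventually.of_forall fun y => ?_
  dsimp only
  rw [integral_mul_const]
  have h1 : ∫ x, dens w x y * (g y * f x) ∂P = g y * NN P w f y := by
    unfold NN
    rw [← integral_const_mul]
    congr 1
    ext x
    ring
  rw [h1, NN_eq hP w]
  have h2 : ∫ x, dens w x y ∂P = RR P w y := rfl
  rw [h2]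
  ring

end posterior

end FULL
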