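import Pool.Agent.Lib.MP_8a5982_an.FULL.Defs
import Pool.Agent.Lib.MP_8a5982_an.FULL.Gdc
import Pool.Agent.Lib.MP_8a5982_an.FULL.Mom
import Pool.Agent.Lib.MP_8a5982_an.FULL.Gauss
import Pool.Agent.Lib.MP_8a5982_an.FULL.Chan1
import Pool.Agent.Lib.MP_8a5982_an.FULL.Chan2
import Pool.Agent.Lib.MP_8a5982_an.FULL.Post1
import Pool.Agent.Lib.MP_8a5982_an.FULL.Post2
import Pool.Agent.Lib.MP_8a5982_an.FULL.Hb
import Pool.Agent.Lib.MP_8a5982_an.FULL.Gtb
import Pool.Agent.Lib.MP_8a5982_an.FULL.Sec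

/-!
Project FULL, module ARR: bounds, approximate invariance, positivity and symmetry of the third
cumulant array and of its kernel.
-/

open MeasureTheory ProbabilityTheory Filter Topology

namespace FULL

namespace ArrAux

theorem lev_ge (s₀ : NNReal) (m r : ℕ) : s₀ ≤ lev s₀ m r := by
  unfold lev
  calc s₀ = s₀ * 1 := (mul_one _).symm
    _ ≤ s₀ * (1 + (r : NNReal) / (m : NNReal)) := by
        gcongr
        exact le_add_of_nonneg_right zero_le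

theorem lev_le (s₀ : NNReal) (m r : ℕ) (h : r < m) : lev s₀ m r ≤ 2 * s₀ := by
  unfold lev
  have h1 : (r : NNReal) / (m : NNReal) ≤ 1 := by
    apply div_le_one_of_le₀ _ zero_le
    exact_mod_cast h.le
  calc s₀ * (1 + (r : NNReal) / (m : NNReal)) ≤ s₀ * (1 + 1) := by gcongr
    _ = 2 * s₀ := by ring

theorem lev_pos (s₀ : NNReal) (hs₀ : 0 < s₀) (m r : ℕ) : 0 < lev s₀ m r :=
  lt_of_lt_of_le hs₀ (lev_ge s₀ m r)

section avg
variable {ι : Type} (S : Win ι)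

theorem avg_abs_le (hW : 0 < S.W) (hm : 0 < S.m) (F : ℤ → ℕ → ℝ) (K : ℝ)
    (h : ∀ t : ℤ, ∀ r < S.m, |F t r| ≤ K) : |S.avg F| ≤ K := by
  unfold Win.avg
  have hW' : (0 : ℝ) < S.W := by exact_mod_cast hW
  have hm' : (0 : ℝ) < S.m := by exact_mod_cast hm
  rw [abs_mul, abs_of_pos (by positivity : (0 : ℝ) < 1 / ((S.W : ℝ) * S.m))]
  have h1 : |∑ t ∈ Finset.range S.W, ∑ r ∈ Finset.range S.m, F (t : ℤ) r| ≤
      (S.W : ℝ) * (S.m * K) := by
    refine le_trans (Finset.abs_sum_le_sum_abs _ _) ?_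
    have h2 : ∀ t ∈ Finset.range S.W, |∑ r ∈ Finset.range S.m, F (t : ℤ) r| ≤ S.m * K := by
      intro t _
      refine le_trans (Finset.abs_sum_le_sum_abs _ _) ?_
      refine le_trans (Finset.sum_le_sum fun r hr => h t r (Finset.mem_range.1 hr)) ?_
      rw [Finset.sum_const, Finset.card_range, nsmul_eq_mul]
    refine le_trans (Finset.sum_le_sum h2) ?_
    rw [Finset.sum_const, Finset.card_range, nsmul_eq_mul]
  calc 1 / ((S.W : ℝ) * S.m) * |∑ t ∈ Finset.range S.W, ∑ r ∈ Finset.range S.m, F (t : ℤ) r|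
      ≤ 1 / ((S.W : ℝ) * S.m) * ((S.W : ℝ) * (S.m * K)) :=
        mul_le_mul_of_nonneg_left h1 (by positivity)
    _ = K := by field_simp

theorem avg_shift (hW : 0 < S.W) (hm : 0 < S.m) (F F' : ℤ → ℕ → ℝ) (K : ℝ)
    (hF : ∀ t r, F' t r = F (t + 1) r) (h : ∀ t : ℤ, ∀ r < S.m, |F t r| ≤ K) :
    |S.avg F' - S.avg F| ≤ 2 * K / S.W := by
  unfold Win.avg
  have hW' : (0 : ℝ) < S.W := by exact_mod_cast hW
  have hm' : (0 : ℝ) < S.m := by exact_mod_cast hm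
  rw [← mul_sub, abs_mul, abs_of_pos (by positivity : (0 : ℝ) < 1 / ((S.W : ℝ) * S.m))]
  have e1 : (∑ t ∈ Finset.range S.W, ∑ r ∈ Finset.range S.m, F' (t : ℤ) r) -
      ∑ t ∈ Finset.range S.W, ∑ r ∈ Finset.range S.m, F (t : ℤ) r =
      ∑ r ∈ Finset.range S.m, (F (S.W : ℤ) r - F 0 r) := by
    rw [Finset.sum_comm, Finset.sum_comm (s := Finset.range S.W), ← Finset.sum_sub_distrib]
    refine Finset.sum_congr rfl fun r _ => ?_
    rw [← Finset.sum_sub_distrib]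
    have h1 := Finset.sum_range_sub (fun t : ℕ => F (t : ℤ) r) S.W
    simp only [Nat.cast_add, Nat.cast_one, Nat.cast_zero] at h1
    rw [← h1]
    refine Finset.sum_congr rfl fun t _ => ?_
    rw [hF]
  rw [e1]
  have h1 : |∑ r ∈ Finset.range S.m, (F (S.W : ℤ) r - F 0 r)| ≤ S.m * (2 * K) := by
    refine le_trans (Finset.abs_sum_le_sum_abs _ _) ?_
    have h2 : ∀ r ∈ Finset.range S.m, |F (S.W : ℤ) r - F 0 r| ≤ 2 * K := by
      intro r hr
      have h3 := h (S.W : ℤ) r (Finset.mem_range.1 hr)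
      have h4 := h 0 r (Finset.mem_range.1 hr)
      rw [abs_le] at h3 h4 ⊢
      constructor <;> linarith
    refine le_trans (Finset.sum_le_sum h2) ?_
    rw [Finset.sum_const, Finset.card_range, nsmul_eq_mul]
  calc 1 / ((S.W : ℝ) * S.m) * |∑ r ∈ Finset.range S.m, (F (S.W : ℤ) r - F 0 r)|
      ≤ 1 / ((S.W : ℝ) * S.m) * (S.m * (2 * K)) :=
        mul_le_mul_of_nonneg_left h1 (by positivity)
    _ = 2 * K / S.W := by field_simp

theorem avg_nonneg (F : ℤ → ℕ → ℝ) (h : ∀ t : ℤ, ∀ r < S.m, 0 ≤ F t r) : 0 ≤ S.avg F := by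
  unfold Win.avg
  refine mul_nonneg (by positivity) (Finset.sum_nonneg fun t _ => Finset.sum_nonneg fun r hr => ?_)
  exact h t r (Finset.mem_range.1 hr)

theorem avg_const_mul (F : ℤ → ℕ → ℝ) (c : ℝ) :
    S.avg (fun t r => c * F t r) = c * S.avg F := by
  unfold Win.avg
  simp only [← Finset.mul_sum]
  ring

theorem avg_sum {β : Type} (s : Finset β) (F : β → ℤ → ℕ → ℝ) :
    S.avg (fun t r => ∑ b ∈ s, F b t r) = ∑ b ∈ s, S.avg (F b) := by
  unfold Win.avg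
  rw [← Finset.mul_sum]
  congr 1
  rw [Finset.sum_comm' (s := s) (t' := Finset.range S.W) (s' := fun _ => s) (t := fun _ => Finset.range S.W)
    (by intro x y; constructor <;> exact fun h => ⟨h.1, h.2⟩)]
  refine Finset.sum_congr rfl fun t _ => ?_
  rw [Finset.sum_comm]

end avg

/-- the factor `H_t` has all moments -/
theorem gd_Hfac {ι : Type} [Fintype ι] [DecidableEq ι] {P : Measure (ι → ℝ)} {C₀ : ℝ}
    (hP : ExpM P C₀) (s₀ : NNReal) (hs₀ : 0 < s₀) (A G : Finset ι) (s : NNReal) (c θ : ℝ)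
    (a l : ι → ℝ) (hAG : Disjoint A G) (ha : ∀ i, i ∉ A → a i = 0) (hl : ∀ i, i ∉ G → l i = 0)
    (hna : nsq a ≤ C₀) (hnl : nsq l ≤ C₀) (hθ : 0 ≤ θ) (hθc : θ ≤ c) (hc : c ≤ 1)
    (h1 : s₀ ≤ s) (h2 : s ≤ 2 * s₀) :
    Gd (nu P (wt A G s)) (Hfac (wt A G s) s a l c θ) := by
  have := hP.prob
  have := isProbability_nu (P := P) (wt A G s)
  obtain ⟨K1, hK1⟩ := hfac_moment C₀
  obtain ⟨K2, hK2⟩ := efac_moment C₀ s₀ hs₀
  have g1 := (hK1 ι P hP A G s a l c hAG ha hl hna hnl (hθ.trans hθc) hc).1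
  have g2 := (hK2 ι P hP A G s l θ hl hnl hθ (hθc.trans hc) h1 h2).1
  have g3 : Gd (nu P (wt A G s)) (fun p => dot l (noise (wt A G s) p)) := by
    have := isProbability_gam (wt A G s)
    refine Gd.nu_noise (wt A G s) (f := fun B => dot l B) ?_
    refine (expM_gam (wt A G s) (∑ i, (wt A G s i : ℝ))
      (Finset.sum_nonneg fun i _ => (wt A G s i).coe_nonneg) fun i => ?_).gd_dot l
    exact Finset.single_le_sum (f := fun i => (wt A G s i : ℝ))
      (fun i _ => (wt A G s i).coe_nonneg) (Finset.mem_univ i)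
  exact (g1.mul g2).mul (g3.sub (Gd.const _))

end ArrAux

open ArrAux

theorem Gam_comm {ι : Type} [Fintype ι] [DecidableEq ι] (S : Win ι) (s₀ : NNReal) (c θ : ℝ)
    (i j k : ℤ) : S.Gam s₀ c θ i j k = S.Gam s₀ c θ i k j := by
  unfold Win.Gam gterm
  congr 1
  funext t r
  congr 1
  funext p
  rw [kap_comm23]

theorem r1_comm {ι : Type} [Fintype ι] [DecidableEq ι] (S : Win ι) (s₀ : NNReal) (c θ : ℝ)
    (i i' : ℤ) : S.r1 s₀ c θ i i' = S.r1 s₀ c θ i' i := by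
  unfold Win.r1
  congr 1
  funext t r
  congr 2
  funext p
  ring

theorem arr_bounds (C₀ : ℝ) (s₀ : NNReal) (hs₀ : 0 < s₀) : ∃ K : ℝ, 0 ≤ K ∧
    ∀ (ι : Type) [Fintype ι] [DecidableEq ι] (S : Win ι), IsWin C₀ s₀ S →
    ∀ (c θ : ℝ), 0 ≤ θ → θ ≤ c → c ≤ 1 →
      (∀ i j k, |S.Gam s₀ c θ i j k| ≤ K) ∧
      (∀ i j k, |S.Gam s₀ c θ (i + 1) (j + 1) (k + 1) - S.Gam s₀ c θ i j k| ≤ K / S.W) ∧
      (∀ i i', |S.r1 s₀ c θ i i'| ≤ K) ∧
      (∀ i i', |S.r1 s₀ c θ (i + 1) (i' + 1) - S.r1 s₀ c θ i i'| ≤ K / S.W) ∧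
      (∀ (s : Finset ℤ) (Φ : ℤ → ℝ), 0 ≤ ∑ i ∈ s, ∑ i' ∈ s, Φ i * Φ i' * S.r1 s₀ c θ i i') := by
  obtain ⟨K1, hK1⟩ := gterm_bound C₀ s₀ hs₀
  obtain ⟨K2, hK2⟩ := second_moment C₀ s₀ hs₀
  set K3 : ℝ := ((s₀ : ℝ) ^ 2)⁻¹ * (|K2| * |C₀|) with hK3
  have hK3n : 0 ≤ K3 := by positivity
  refine ⟨2 * |K1| + 2 * K3, by positivity, ?_⟩
  intro ι _ _ S hS c θ hθ hθc hc
  have hPr := hS.hP.prob
  have hl2 : ∀ t, nsq (S.l t) ≤ C₀ := by
    intro t
    rw [← dot_self, hS.hq, sub_self]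
    exact hS.hq0
  have bG : ∀ (t : ℤ) (i j k : ℤ), ∀ r < S.m,
      |gterm S.P S.A S.G (lev s₀ S.m r) c θ (S.a (t + i)) (S.l (t + i)) (S.l (t + j))
        (S.l (t + k))| ≤ |K1| := by
    intro t i j k r hr
    exact le_trans (hK1 ι S.P hS.hP S.A S.G _ c θ _ _ _ _ hS.disj (hS.ha _) (hS.hl _) (hS.ha2 _)
      (hl2 _) (hl2 _) (hl2 _) hθ hθc hc (lev_ge _ _ _) (lev_le _ _ _ hr)) (le_abs_self _)
  have gH : ∀ (t : ℤ), ∀ r < S.m, Gd (nu S.P (wt S.A S.G (lev s₀ S.m r)))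
      (Hfac (wt S.A S.G (lev s₀ S.m r)) (lev s₀ S.m r) (S.a t) (S.l t) c θ) := by
    intro t r hr
    exact gd_Hfac hS.hP s₀ hs₀ S.A S.G _ c θ _ _ hS.disj (hS.ha _) (hS.hl _) (hS.ha2 _) (hl2 _)
      hθ hθc hc (lev_ge _ _ _) (lev_le _ _ _ hr)
  have sH : ∀ (t : ℤ), ∀ r < S.m, ∫ p,
      Hfac (wt S.A S.G (lev s₀ S.m r)) (lev s₀ S.m r) (S.a t) (S.l t) c θ p ^ 2
        ∂(nu S.P (wt S.A S.G (lev s₀ S.m r))) ≤ |K2| * |C₀| := by
    intro t r hr
    have h := hK2 ι S.P hS.hP S.A S.G (lev s₀ S.m r) c θ (S.a t) (S.l t) (S.l t) hS.disj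
      (hS.ha _) (hS.hl _) (hS.hl _) (hS.ha2 _) (hl2 _) hθ hθc hc (lev_ge _ _ _) (lev_le _ _ _ hr)
    rw [dot_self] at h
    refine le_trans h ?_
    have h3 := nsq_nonneg (S.l t)
    calc K2 * nsq (S.l t) ≤ |K2| * nsq (S.l t) := mul_le_mul_of_nonneg_right (le_abs_self _) h3
      _ ≤ |K2| * |C₀| := mul_le_mul_of_nonneg_left ((hl2 t).trans (le_abs_self _)) (abs_nonneg _)
  have levpos : ∀ r, (0 : ℝ) < lev s₀ S.m r := fun r => by
    exact_mod_cast lev_pos s₀ hs₀ S.m r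
  have bR : ∀ (t : ℤ) (i i' : ℤ), ∀ r < S.m, |((lev s₀ S.m r : ℝ) ^ 2)⁻¹ *
      ∫ p, Hfac (wt S.A S.G (lev s₀ S.m r)) (lev s₀ S.m r) (S.a (t + i)) (S.l (t + i)) c θ p *
        Hfac (wt S.A S.G (lev s₀ S.m r)) (lev s₀ S.m r) (S.a (t + i')) (S.l (t + i')) c θ p
          ∂(nu S.P (wt S.A S.G (lev s₀ S.m r)))| ≤ K3 := by
    intro t i i' r hr
    have := isProbability_nu (P := S.P) (wt S.A S.G (lev s₀ S.m r))
    rw [abs_mul, abs_of_pos (by have := levpos r; positivity)]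
    have h1 : ((lev s₀ S.m r : ℝ) ^ 2)⁻¹ ≤ ((s₀ : ℝ) ^ 2)⁻¹ := by
      have hs : (0 : ℝ) < s₀ := by exact_mod_cast hs₀
      have h2 : (s₀ : ℝ) ≤ lev s₀ S.m r := by exact_mod_cast lev_ge s₀ S.m r
      gcongr
    have hcs := (gH (t + i) r hr).cs (gH (t + i') r hr)
    have h2 := sH (t + i) r hr
    have h3 := sH (t + i') r hr
    have h4 : |∫ p, Hfac (wt S.A S.G (lev s₀ S.m r)) (lev s₀ S.m r) (S.a (t + i)) (S.l (t + i))
        c θ p * Hfac (wt S.A S.G (lev s₀ S.m r)) (lev s₀ S.m r) (S.a (t + i')) (S.l (t + i')) c θ p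
          ∂(nu S.P (wt S.A S.G (lev s₀ S.m r)))| ≤ |K2| * |C₀| := by
      apply abs_le_of_sq_le_sq _ (by positivity)
      refine le_trans hcs ?_
      rw [sq]
      exact mul_le_mul h2 h3 (integral_nonneg fun p => sq_nonneg _) (by positivity)
    exact mul_le_mul h1 h4 (abs_nonneg _) (by positivity)
  refine ⟨?_, ?_, ?_, ?_, ?_⟩
  · intro i j k
    have h := avg_abs_le S hS.hW hS.hm _ _ (fun t r hr => bG t i j k r hr)
    unfold Win.Gam
    have := abs_nonneg K1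
    linarith
  · intro i j k
    have h := avg_shift S hS.hW hS.hm
      (fun t r => gterm S.P S.A S.G (lev s₀ S.m r) c θ (S.a (t + i)) (S.l (t + i)) (S.l (t + j))
        (S.l (t + k)))
      (fun t r => gterm S.P S.A S.G (lev s₀ S.m r) c θ (S.a (t + (i + 1))) (S.l (t + (i + 1)))
        (S.l (t + (j + 1))) (S.l (t + (k + 1)))) |K1|
      (fun t r => by
        have e : ∀ x : ℤ, t + (x + 1) = t + 1 + x := fun x => by ring
        simp only [e]) (fun t r hr => bG t i j k r hr)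
    unfold Win.Gam
    refine le_trans h ?_
    have hW' : (0 : ℝ) < S.W := by exact_mod_cast hS.hW
    gcongr
    linarith
  · intro i i'
    have h := avg_abs_le S hS.hW hS.hm _ _ (fun t r hr => bR t i i' r hr)
    unfold Win.r1
    have := abs_nonneg K1
    linarith
  · intro i i'
    have h := avg_shift S hS.hW hS.hm
      (fun t r => ((lev s₀ S.m r : ℝ) ^ 2)⁻¹ *
        ∫ p, Hfac (wt S.A S.G (lev s₀ S.m r)) (lev s₀ S.m r) (S.a (t + i)) (S.l (t + i)) c θ p *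
          Hfac (wt S.A S.G (lev s₀ S.m r)) (lev s₀ S.m r) (S.a (t + i')) (S.l (t + i')) c θ p
            ∂(nu S.P (wt S.A S.G (lev s₀ S.m r))))
      (fun t r => ((lev s₀ S.m r : ℝ) ^ 2)⁻¹ *
        ∫ p, Hfac (wt S.A S.G (lev s₀ S.m r)) (lev s₀ S.m r) (S.a (t + (i + 1)))
            (S.l (t + (i + 1))) c θ p *
          Hfac (wt S.A S.G (lev s₀ S.m r)) (lev s₀ S.m r) (S.a (t + (i' + 1)))
            (S.l (t + (i' + 1))) c θ p
            ∂(nu S.P (wt S.A S.G (lev s₀ S.m r)))) K3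
      (fun t r => by
        have e : ∀ x : ℤ, t + (x + 1) = t + 1 + x := fun x => by ring
        simp only [e]) (fun t r hr => bR t i i' r hr)
    unfold Win.r1
    refine le_trans h ?_
    have hW' : (0 : ℝ) < S.W := by exact_mod_cast hS.hW
    have := abs_nonneg K1
    gcongr
    linarith
  · intro s Φ
    have e : ∑ i ∈ s, ∑ i' ∈ s, Φ i * Φ i' * S.r1 s₀ c θ i i' = S.avg (fun t r =>
        ∑ i ∈ s, ∑ i' ∈ s, Φ i * Φ i' * (((lev s₀ S.m r : ℝ) ^ 2)⁻¹ *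
        ∫ p, Hfac (wt S.A S.G (lev s₀ S.m r)) (lev s₀ S.m r) (S.a (t + i)) (S.l (t + i)) c θ p *
          Hfac (wt S.A S.G (lev s₀ S.m r)) (lev s₀ S.m r) (S.a (t + i')) (S.l (t + i')) c θ p
            ∂(nu S.P (wt S.A S.G (lev s₀ S.m r))))) := by
      rw [avg_sum]
      refine Finset.sum_congr rfl fun i _ => ?_
      rw [avg_sum]
      refine Finset.sum_congr rfl fun i' _ => ?_
      rw [avg_const_mul]
      rfl
    rw [e]
    apply avg_nonneg
    intro t r hr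
    have := isProbability_nu (P := S.P) (wt S.A S.G (lev s₀ S.m r))
    have e2 : ∑ i ∈ s, ∑ i' ∈ s, Φ i * Φ i' * (((lev s₀ S.m r : ℝ) ^ 2)⁻¹ *
        ∫ p, Hfac (wt S.A S.G (lev s₀ S.m r)) (lev s₀ S.m r) (S.a (t + i)) (S.l (t + i)) c θ p *
          Hfac (wt S.A S.G (lev s₀ S.m r)) (lev s₀ S.m r) (S.a (t + i')) (S.l (t + i')) c θ p
            ∂(nu S.P (wt S.A S.G (lev s₀ S.m r)))) = ((lev s₀ S.m r : ℝ) ^ 2)⁻¹ *
        ∫ p, (∑ i ∈ s, Φ i * Hfac (wt S.A S.G (lev s₀ S.m r)) (lev s₀ S.m r) (S.a (t + i))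
          (S.l (t + i)) c θ p) ^ 2 ∂(nu S.P (wt S.A S.G (lev s₀ S.m r))) := by
      have e3 : ∀ p, (∑ i ∈ s, Φ i * Hfac (wt S.A S.G (lev s₀ S.m r)) (lev s₀ S.m r) (S.a (t + i))
          (S.l (t + i)) c θ p) ^ 2 = ∑ i ∈ s, ∑ i' ∈ s, Φ i * Φ i' *
          (Hfac (wt S.A S.G (lev s₀ S.m r)) (lev s₀ S.m r) (S.a (t + i)) (S.l (t + i)) c θ p *
          Hfac (wt S.A S.G (lev s₀ S.m r)) (lev s₀ S.m r) (S.a (t + i')) (S.l (t + i')) c θ p) := by
        intro p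
        rw [sq, Finset.sum_mul_sum]
        refine Finset.sum_congr rfl fun i _ => Finset.sum_congr rfl fun i' _ => ?_
        ring
      simp only [e3]
      have hint : ∀ i i', Integrable (fun p => Φ i * Φ i' *
          (Hfac (wt S.A S.G (lev s₀ S.m r)) (lev s₀ S.m r) (S.a (t + i)) (S.l (t + i)) c θ p *
          Hfac (wt S.A S.G (lev s₀ S.m r)) (lev s₀ S.m r) (S.a (t + i')) (S.l (t + i')) c θ p))
          (nu S.P (wt S.A S.G (lev s₀ S.m r))) := fun i i' =>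
        (((gH (t + i) r hr).mul (gH (t + i') r hr)).integrable).const_mul _
      rw [integral_finsetSum _ (fun i _ => integrable_finsetSum _ fun i' _ => hint i i'),
        Finset.mul_sum]
      refine Finset.sum_congr rfl fun i _ => ?_
      rw [integral_finsetSum _ (fun i' _ => hint i i'), Finset.mul_sum]
      refine Finset.sum_congr rfl fun i' _ => ?_
      rw [integral_const_mul]
      ring
    rw [e2]
    exact mul_nonneg (by positivity) (integral_nonneg fun p => sq_nonneg _)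

end FULL
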