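import Pool.Agent.Lib.MP_8a5982_an.FULL.Defs

/-!
Project FULL, module BLK: the combinatorial lemma on blocks of levels.
-/

namespace FULL

namespace BlkAux

/-- the cumulative mass -/
def cum (μ : ℕ → ℝ) (x : ℕ) : ℝ := ∑ i ∈ Finset.range x, μ i

theorem cum_mono {μ : ℕ → ℝ} (hμ : ∀ i, 0 ≤ μ i) : Monotone (cum μ) := by
  intro x y hxy
  exact Finset.sum_le_sum_of_subset_of_nonneg (Finset.range_mono hxy) (fun i _ _ => hμ i)

theorem cum_nonneg {μ : ℕ → ℝ} (hμ : ∀ i, 0 ≤ μ i) (x : ℕ) : 0 ≤ cum μ x :=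
  Finset.sum_nonneg fun i _ => hμ i

theorem cum_le {μ : ℕ → ℝ} (hμ : ∀ i, 0 ≤ μ i) {N : ℕ} (hN : ∀ i, N ≤ i → μ i = 0) (x : ℕ) :
    cum μ x ≤ cum μ N := by
  rcases le_total x N with h | h
  · exact cum_mono hμ h
  · apply le_of_eq
    symm
    apply Finset.sum_subset (Finset.range_mono h)
    intro i _ hi
    exact hN i (by simpa using hi)

/-- a set of points between the masses `g η` and `(g+1) η` -/
theorem mass_le {μ : ℕ → ℝ} (hμ : ∀ i, 0 ≤ μ i) (B : Finset ℕ) (lo hi : ℝ) (hlh : lo ≤ hi)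
    (h1 : ∀ i ∈ B, lo ≤ cum μ i) (h2 : ∀ i ∈ B, cum μ (i + 1) ≤ hi) :
    ∑ i ∈ B, μ i ≤ hi - lo := by
  rcases B.eq_empty_or_nonempty with rfl | hB
  · simpa using hlh
  · have hsub : B ⊆ Finset.range (B.max' hB + 1) \ Finset.range (B.min' hB) := by
      intro i hi
      rw [Finset.mem_sdiff, Finset.mem_range, Finset.mem_range]
      exact ⟨Nat.lt_succ_of_le (B.le_max' i hi), not_lt.2 (B.min'_le i hi)⟩
    have h3 : ∑ i ∈ B, μ i ≤
        ∑ i ∈ Finset.range (B.max' hB + 1) \ Finset.range (B.min' hB), μ i :=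
      Finset.sum_le_sum_of_subset_of_nonneg hsub (fun i _ _ => hμ i)
    have hle : B.min' hB ≤ B.max' hB + 1 :=
      le_trans (B.min'_le _ (B.max'_mem hB)) (Nat.le_succ _)
    have h4 := Finset.sum_sdiff (f := μ) (Finset.range_mono hle)
    have h5 := h1 _ (B.min'_mem hB)
    have h6 := h2 _ (B.max'_mem hB)
    unfold cum at h5 h6
    linarith

/-- the residue class of smallest mass -/
theorem exists_residue (K : ℕ) (hK : 0 < K) (J₀ : ℕ) (μ : ℕ → ℝ) (hμ : ∀ i, 0 ≤ μ i) (N : ℕ)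
    (hsum : ∑ i ∈ Finset.range N, μ i ≤ 1) :
    ∃ ρ < K, ∑ i ∈ (Finset.range N).filter (fun i => (i / J₀ + ρ) % K = 0), μ i ≤ 1 / (K : ℝ) := by
  by_contra hcon
  push Not at hcon
  have h1 : ∑ _ρ ∈ Finset.range K, (1 / (K : ℝ)) < ∑ ρ ∈ Finset.range K,
      ∑ i ∈ (Finset.range N).filter (fun i => (i / J₀ + ρ) % K = 0), μ i :=
    Finset.sum_lt_sum_of_nonempty ⟨0, Finset.mem_range.2 hK⟩
      (fun ρ hρ => hcon ρ (Finset.mem_range.1 hρ))
  have h2 : ∑ ρ ∈ Finset.range K,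
      ∑ i ∈ (Finset.range N).filter (fun i => (i / J₀ + ρ) % K = 0), μ i ≤
        ∑ i ∈ Finset.range N, μ i := by
    simp_rw [Finset.sum_filter]
    rw [Finset.sum_comm]
    apply Finset.sum_le_sum
    intro i _
    rw [← Finset.sum_filter, Finset.sum_const, nsmul_eq_mul]
    have hc : ((Finset.range K).filter (fun ρ => (i / J₀ + ρ) % K = 0)).card ≤ 1 := by
      apply Finset.card_le_one.2
      intro a ha b hb
      rw [Finset.mem_filter, Finset.mem_range] at ha hb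
      have hab : i / J₀ + a ≡ i / J₀ + b [MOD K] := by
        unfold Nat.ModEq
        rw [ha.2, hb.2]
      have hab' : a ≡ b [MOD K] := Nat.ModEq.add_left_cancel' _ hab
      exact Nat.ModEq.eq_of_lt_of_lt hab' ha.1 hb.1
    have hc' : (((Finset.range K).filter (fun ρ => (i / J₀ + ρ) % K = 0)).card : ℝ) ≤ 1 := by
      exact_mod_cast hc
    calc _ ≤ 1 * μ i := mul_le_mul_of_nonneg_right hc' (hμ i)
      _ = μ i := one_mul _
  have h3 : ∑ _ρ ∈ Finset.range K, (1 / (K : ℝ)) = 1 := by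
    rw [Finset.sum_const, Finset.card_range, nsmul_eq_mul]
    have : (K : ℝ) ≠ 0 := by exact_mod_cast hK.ne'
    field_simp
  linarith

/-- the number of the interval of `i` -/
def idx (J₀ K ρ i : ℕ) : ℕ := (i / J₀ + ρ) / K

/-- the start of the `b`-th interval -/
def start (J₀ K ρ b : ℕ) : ℕ := (b * K - ρ) * J₀

theorem start_mono (J₀ K ρ : ℕ) : Monotone (start J₀ K ρ) := by
  intro b b' h
  exact Nat.mul_le_mul_right _ (Nat.sub_le_sub_right (Nat.mul_le_mul_right _ h) _)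

theorem start_le {J₀ K ρ : ℕ} (i : ℕ) : start J₀ K ρ (idx J₀ K ρ i) ≤ i := by
  unfold start idx
  have h1 : (i / J₀ + ρ) / K * K ≤ i / J₀ + ρ := Nat.div_mul_le_self _ _
  have h2 : (i / J₀ + ρ) / K * K - ρ ≤ i / J₀ := Nat.sub_le_of_le_add h1
  exact le_trans (Nat.mul_le_mul_right _ h2) (Nat.div_mul_le_self _ _)

theorem lt_start {J₀ K ρ : ℕ} (hJ : 0 < J₀) (hK : 0 < K) (i : ℕ) :
    i < start J₀ K ρ (idx J₀ K ρ i + 1) := by
  unfold start idx
  have h1 : i / J₀ + ρ < ((i / J₀ + ρ) / K + 1) * K := Nat.lt_mul_of_div_lt (Nat.lt_succ_self _) hK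
  have h2 : i / J₀ + 1 ≤ ((i / J₀ + ρ) / K + 1) * K - ρ := by omega
  have h3 : i < (i / J₀ + 1) * J₀ := Nat.lt_mul_of_div_lt (Nat.lt_succ_self _) hJ
  exact lt_of_lt_of_le h3 (Nat.mul_le_mul_right _ h2)

/-- kept points in different intervals are far from each other -/
theorem gap {J₀ K ρ : ℕ} (hJ : 0 < J₀) (hK : 0 < K) {i j : ℕ} (hj : (j / J₀ + ρ) % K ≠ 0)
    (h : idx J₀ K ρ i < idx J₀ K ρ j) : i + J₀ ≤ j := by
  unfold idx at h
  have h1 : i / J₀ + ρ < ((i / J₀ + ρ) / K + 1) * K := Nat.lt_mul_of_div_lt (Nat.lt_succ_self _) hK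
  have h2 : ((i / J₀ + ρ) / K + 1) * K ≤ (j / J₀ + ρ) / K * K := Nat.mul_le_mul_right _ h
  have h3 : K * ((j / J₀ + ρ) / K) + (j / J₀ + ρ) % K = j / J₀ + ρ := Nat.div_add_mod _ _
  have h4 : (j / J₀ + ρ) / K * K = K * ((j / J₀ + ρ) / K) := Nat.mul_comm _ _
  have h5 : 0 < (j / J₀ + ρ) % K := Nat.pos_of_ne_zero hj
  have h6 : i / J₀ + 2 ≤ j / J₀ := by omega
  have h7 : i < (i / J₀ + 1) * J₀ := Nat.lt_mul_of_div_lt (Nat.lt_succ_self _) hJ
  have h8 : (i / J₀ + 2) * J₀ ≤ j / J₀ * J₀ := Nat.mul_le_mul_right _ h6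
  have h9 : j / J₀ * J₀ ≤ j := Nat.div_mul_le_self _ _
  have h10 : (i / J₀ + 2) * J₀ = (i / J₀ + 1) * J₀ + J₀ := by ring
  omega

/-- the points of one interval -/
theorem diam {J₀ K ρ : ℕ} (hJ : 0 < J₀) (hK : 0 < K) {i j : ℕ}
    (h : idx J₀ K ρ i = idx J₀ K ρ j) : j ≤ i + K * J₀ := by
  have h1 := start_le (J₀ := J₀) (K := K) (ρ := ρ) i
  have h2 := lt_start (ρ := ρ) hJ hK j
  rw [← h] at h2
  have h3 : start J₀ K ρ (idx J₀ K ρ i + 1) ≤ start J₀ K ρ (idx J₀ K ρ i) + K * J₀ := by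
    unfold start
    rw [← Nat.add_mul]
    apply Nat.mul_le_mul_right
    have : (idx J₀ K ρ i + 1) * K = idx J₀ K ρ i * K + K := by ring
    omega
  omega

end BlkAux

open BlkAux in
theorem blocks (η₀ : ℝ) (hη : 0 < η₀) : ∃ M : ℕ, ∀ J₀ : ℕ, 0 < J₀ → ∃ L : ℕ,
    ∀ μ : ℕ → ℝ, (∀ i, 0 ≤ μ i) → ∀ N : ℕ, (∀ i, N ≤ i → μ i = 0) →
    ∑ i ∈ Finset.range N, μ i ≤ 1 → ∃ B : Fin M → Finset ℕ,
      (∀ r r', r < r' → ∀ i ∈ B r, ∀ j ∈ B r', i + J₀ ≤ j) ∧
      (∑ i ∈ (Finset.range N).filter (fun i => ∀ r, i ∉ B r), μ i ≤ η₀) ∧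
      ∀ r, (∑ i ∈ B r, μ i ≤ η₀) ∨ (∀ i ∈ B r, ∀ j ∈ B r, j ≤ i + L) := by
  classical
  obtain ⟨K, hK⟩ := exists_nat_gt (1 / η₀)
  have hKr : (0 : ℝ) < K := lt_trans (by positivity) hK
  have hK0 : 0 < K := by exact_mod_cast hKr
  have hKη : 1 / (K : ℝ) ≤ η₀ := by
    rw [div_le_iff₀ hKr]
    rw [div_lt_iff₀ hη] at hK
    nlinarith
  refine ⟨2 * (K + 1), fun J₀ hJ => ⟨K * J₀, ?_⟩⟩
  intro μ hμ N hN hsum
  obtain ⟨ρ, hρ, hρm⟩ := exists_residue K hK0 J₀ μ hμ N hsum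
  set F : ℕ → ℕ := fun b => ⌊cum μ (start J₀ K ρ b) / η₀⌋₊ with hF
  have hFm : Monotone F := by
    intro b b' h
    exact Nat.floor_mono (div_le_div_of_nonneg_right (cum_mono hμ (start_mono J₀ K ρ h)) hη.le)
  have hFK : ∀ b, F b ≤ K := by
    intro b
    have h1 : cum μ (start J₀ K ρ b) ≤ 1 := le_trans (cum_le hμ hN _) hsum
    have h2 : cum μ (start J₀ K ρ b) / η₀ ≤ K :=
      le_trans (div_le_div_of_nonneg_right h1 hη.le) hK.le
    exact Nat.floor_le_of_le h2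
  -- the blocks
  set B : Fin (2 * (K + 1)) → Finset ℕ := fun r => (Finset.range N).filter (fun i =>
    (i / J₀ + ρ) % K ≠ 0 ∧ F (idx J₀ K ρ i) = (r : ℕ) / 2 ∧
      (((r : ℕ) % 2 = 0 ∧ F (idx J₀ K ρ i + 1) = (r : ℕ) / 2) ∨
        ((r : ℕ) % 2 = 1 ∧ (r : ℕ) / 2 < F (idx J₀ K ρ i + 1)))) with hB
  have memB : ∀ r i, i ∈ B r ↔ i < N ∧ (i / J₀ + ρ) % K ≠ 0 ∧ F (idx J₀ K ρ i) = (r : ℕ) / 2 ∧
      (((r : ℕ) % 2 = 0 ∧ F (idx J₀ K ρ i + 1) = (r : ℕ) / 2) ∨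
        ((r : ℕ) % 2 = 1 ∧ (r : ℕ) / 2 < F (idx J₀ K ρ i + 1))) := by
    intro r i
    simp only [hB, Finset.mem_filter, Finset.mem_range]
  refine ⟨B, ?_, ?_, ?_⟩
  · intro r r' hrr i hi j hj
    rw [memB] at hi hj
    obtain ⟨_, _, hi1, hi2⟩ := hi
    obtain ⟨_, hj0, hj1, hj2⟩ := hj
    apply gap hJ hK0 hj0
    by_contra hcon
    push Not at hcon
    have h1 := hFm hcon
    have h2 := hFm (Nat.succ_le_succ hcon)
    have h3 : (r : ℕ) < (r' : ℕ) := hrr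
    simp only [Nat.succ_eq_add_one] at h2
    omega
  · refine le_trans ?_ (le_trans hρm hKη)
    apply Finset.sum_le_sum_of_subset_of_nonneg
    · intro i hi
      rw [Finset.mem_filter] at hi ⊢
      refine ⟨hi.1, ?_⟩
      by_contra hne
      have hFi := hFK (idx J₀ K ρ i)
      rcases (hFm (Nat.le_succ (idx J₀ K ρ i))).lt_or_eq with hlt | heq
      · apply hi.2 ⟨2 * F (idx J₀ K ρ i) + 1, by omega⟩
        rw [memB]
        simp only [Nat.succ_eq_add_one] at hlt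
        refine ⟨Finset.mem_range.1 hi.1, hne, ?_, Or.inr ⟨?_, ?_⟩⟩ <;> simp only [] <;> omega
      · apply hi.2 ⟨2 * F (idx J₀ K ρ i), by omega⟩
        rw [memB]
        simp only [Nat.succ_eq_add_one] at heq
        refine ⟨Finset.mem_range.1 hi.1, hne, ?_, Or.inl ⟨?_, ?_⟩⟩ <;> simp only [] <;> omega
    · intro i _ _
      exact hμ i
  · intro r
    rcases Nat.mod_two_eq_zero_or_one (r : ℕ) with h0 | h1
    · left
      have hres := mass_le hμ (B r) (((r : ℕ) / 2 : ℕ) * η₀) ((((r : ℕ) / 2 : ℕ) + 1) * η₀)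
        (by nlinarith) ?_ ?_
      · linarith
      · intro i hi
        rw [memB] at hi
        obtain ⟨_, _, hi1, _⟩ := hi
        have h2 : (((r : ℕ) / 2 : ℕ) : ℝ) ≤ cum μ (start J₀ K ρ (idx J₀ K ρ i)) / η₀ := by
          rw [← hi1]
          exact Nat.floor_le (div_nonneg (cum_nonneg hμ _) hη.le)
        rw [le_div_iff₀ hη] at h2
        exact le_trans h2 (cum_mono hμ (start_le i))
      · intro i hi
        rw [memB] at hi
        obtain ⟨_, _, _, hi2⟩ := hi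
        have hi3 : F (idx J₀ K ρ i + 1) = (r : ℕ) / 2 := by
          rcases hi2 with h | h
          · exact h.2
          · omega
        have h2 : cum μ (start J₀ K ρ (idx J₀ K ρ i + 1)) / η₀ < (((r : ℕ) / 2 : ℕ) : ℝ) + 1 := by
          rw [← hi3]
          exact Nat.lt_floor_add_one _
        rw [div_lt_iff₀ hη] at h2
        exact le_trans (cum_mono hμ (Nat.succ_le_of_lt (lt_start hJ hK0 i))) h2.le
    · right
      intro i hi j hj
      rw [memB] at hi hj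
      obtain ⟨_, _, hi1, hi2⟩ := hi
      obtain ⟨_, _, hj1, hj2⟩ := hj
      apply diam (ρ := ρ) hJ hK0
      rcases lt_trichotomy (idx J₀ K ρ i) (idx J₀ K ρ j) with h | h | h
      · have := hFm (Nat.succ_le_of_lt h)
        simp only [Nat.succ_eq_add_one] at this
        omega
      · exact h
      · have := hFm (Nat.succ_le_of_lt h)
        simp only [Nat.succ_eq_add_one] at this
        omega

end FULL
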