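import Pool.Agent.Lib.MP_8a5982_an.FULL.Hb
import Pool.Agent.Lib.MP_8a5982_an.FULL.Post1
import Pool.Agent.Lib.MP_8a5982_an.FULL.Post2
import Pool.Agent.Lib.MP_8a5982_an.FULL.Mom

/-!
Project FULL, module UP: weighted bounds for the posterior means, second moments and covariances.
-/

open MeasureTheory ProbabilityTheory Filter Topology

namespace FULL

set_option linter.unusedSectionVars false
set_option linter.style.haveILetI false

namespace Up

/-- averaging -/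
lemma avg_le (W : ℕ) (hW : 0 < W) (a d : ℕ → ℝ) (κ δ : ℝ) (hκ : 0 ≤ κ)
    (had : ∀ t < W, a t ^ 2 ≤ κ * d t) (hd : (1 / (W : ℝ)) * ∑ t ∈ Finset.range W, d t ≤ δ) :
    (1 / (W : ℝ)) * ∑ t ∈ Finset.range W, a t ≤ Real.sqrt κ * Real.sqrt δ := by
  have hW' : (0 : ℝ) < W := by exact_mod_cast hW
  have h1 : ((1 / (W : ℝ)) * ∑ t ∈ Finset.range W, a t) ^ 2 ≤ κ * δ := by
    have h2 : (∑ t ∈ Finset.range W, a t) ^ 2 ≤
        (Finset.range W).card * ∑ t ∈ Finset.range W, a t ^ 2 := sq_sum_le_card_mul_sum_sq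
    rw [Finset.card_range] at h2
    have h3 : ∑ t ∈ Finset.range W, a t ^ 2 ≤ κ * ∑ t ∈ Finset.range W, d t := by
      rw [Finset.mul_sum]
      exact Finset.sum_le_sum fun t ht => had t (Finset.mem_range.1 ht)
    calc ((1 / (W : ℝ)) * ∑ t ∈ Finset.range W, a t) ^ 2
        = (1 / (W : ℝ)) ^ 2 * (∑ t ∈ Finset.range W, a t) ^ 2 := by ring
      _ ≤ (1 / (W : ℝ)) ^ 2 * (W * ∑ t ∈ Finset.range W, a t ^ 2) :=
          mul_le_mul_of_nonneg_left h2 (by positivity)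
      _ ≤ (1 / (W : ℝ)) ^ 2 * (W * (κ * ∑ t ∈ Finset.range W, d t)) :=
          mul_le_mul_of_nonneg_left (mul_le_mul_of_nonneg_left h3 hW'.le) (by positivity)
      _ = κ * ((1 / (W : ℝ)) * ∑ t ∈ Finset.range W, d t) := by field_simp
      _ ≤ κ * δ := mul_le_mul_of_nonneg_left hd hκ
  rw [← Real.sqrt_mul hκ]
  exact Real.le_sqrt_of_sq_le h1

variable {α : Type*} [MeasurableSpace α] {μ : Measure α} [IsProbabilityMeasure μ]

lemma gd_sqrt {R : α → ℝ} (hR : Gd μ R) : Gd μ (fun x => Real.sqrt (R x)) := by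
  have h1 : Gd μ (fun x => 1 + |R x|) := (Gd.const 1).add hR.abs
  refine h1.mono (Real.continuous_sqrt.measurable.comp hR.meas) fun x => ?_
  rw [abs_of_nonneg (Real.sqrt_nonneg _), abs_of_nonneg (by positivity)]
  apply Real.sqrt_le_iff.2
  constructor
  · positivity
  · have := le_abs_self (R x)
    nlinarith [abs_nonneg (R x)]

/-- Cauchy-Schwarz twice -/
lemma cs_two {H N R D : α → ℝ} (hH : Gd μ H) (hN : Gd μ N) (hR : Gd μ R) (hD : Gd μ D)
    (h0 : ∀ x, 0 ≤ H x) (hR0 : ∀ x, 0 ≤ R x) (hD0 : ∀ x, 0 ≤ D x)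
    (hle : ∀ x, N x ≤ Real.sqrt (R x) * Real.sqrt (D x)) (K4 KR : ℝ) (hN0 : ∀ x, 0 ≤ N x)
    (h4 : ∫ x, H x ^ 4 ∂μ ≤ K4) (hKR : ∫ x, R x ^ 2 ∂μ ≤ KR) :
    (∫ x, H x * N x ∂μ) ^ 2 ≤ Real.sqrt (K4 * KR) * ∫ x, D x ∂μ := by
  have hsR := gd_sqrt hR
  have hsD := gd_sqrt hD
  have h1 : ∫ x, H x * N x ∂μ ≤ ∫ x, (H x * Real.sqrt (R x)) * Real.sqrt (D x) ∂μ := by
    refine integral_mono (hH.mul hN).integrable ((hH.mul hsR).mul hsD).integrable fun x => ?_
    have := mul_le_mul_of_nonneg_left (hle x) (h0 x)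
    simp only
    linarith
  have h2 := Gd.cs (hH.mul hsR) hsD
  have e1 : ∫ x, (H x * Real.sqrt (R x)) ^ 2 ∂μ = ∫ x, H x ^ 2 * R x ∂μ := by
    refine integral_congr_ae (Eventually.of_forall fun x => ?_)
    simp only
    rw [mul_pow, Real.sq_sqrt (hR0 x)]
  have e2 : ∫ x, Real.sqrt (D x) ^ 2 ∂μ = ∫ x, D x ∂μ := by
    refine integral_congr_ae (Eventually.of_forall fun x => ?_)
    simp only
    rw [Real.sq_sqrt (hD0 x)]
  rw [e1, e2] at h2
  have h3 := Gd.cs (hH.pow 2) hR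
  have e3 : ∫ x, (H x ^ 2) ^ 2 ∂μ = ∫ x, H x ^ 4 ∂μ := by
    refine integral_congr_ae (Eventually.of_forall fun x => ?_)
    simp only
    ring
  rw [e3] at h3
  have h40 : 0 ≤ ∫ x, H x ^ 4 ∂μ := integral_nonneg fun x => by
    simp only [Pi.zero_apply]; positivity
  have hR2 : 0 ≤ ∫ x, R x ^ 2 ∂μ := integral_nonneg fun x => sq_nonneg _
  have h5 : ∫ x, H x ^ 2 * R x ∂μ ≤ Real.sqrt (K4 * KR) := by
    apply Real.le_sqrt_of_sq_le
    exact h3.trans (mul_le_mul h4 hKR hR2 (h40.trans h4))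
  have hN1 : 0 ≤ ∫ x, H x * N x ∂μ := integral_nonneg fun x => mul_nonneg (h0 x) (hN0 x)
  have hDi : 0 ≤ ∫ x, D x ∂μ := integral_nonneg hD0
  calc (∫ x, H x * N x ∂μ) ^ 2 ≤ (∫ x, (H x * Real.sqrt (R x)) * Real.sqrt (D x) ∂μ) ^ 2 :=
        pow_le_pow_left₀ hN1 h1 2
    _ ≤ (∫ x, H x ^ 2 * R x ∂μ) * ∫ x, D x ∂μ := h2
    _ ≤ Real.sqrt (K4 * KR) * ∫ x, D x ∂μ := mul_le_mul_of_nonneg_right h5 hDi

section mom

variable {ι : Type} [Fintype ι] {P : Measure (ι → ℝ)} {C : ℝ}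

/-- second moment of the posterior mean -/
lemma post_two (hP : ExpM P C) (w : ι → NNReal) (u : ι → ℝ) (hC : nsq u ≤ C) :
    ∫ p, |post P w (dot u) p.2| ^ 2 ∂(nu P w) ≤ 4 * Real.exp C * C := by
  have h := post_pow_le hP w (hP.gd_dot u) 2 (by norm_num)
  have e : ∫ x, |dot u x| ^ 2 ∂P = ∫ x, dot u x ^ (2 * 1) ∂P := by
    refine integral_congr_ae (Eventually.of_forall fun x => ?_)
    simp only [mul_one, sq_abs]
  rw [e] at h
  have h2 := hP.moment u 1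
  refine h.trans (h2.trans ?_)
  rw [pow_one]
  have h3 := Real.exp_pos C
  calc 2 * ((2 * 1).factorial : ℝ) * Real.exp C * nsq u
      ≤ 2 * ((2 * 1).factorial : ℝ) * Real.exp C * C :=
        mul_le_mul_of_nonneg_left hC (by positivity)
    _ = 4 * Real.exp C * C := by norm_num [Nat.factorial]

/-- sixth moment of the posterior mean -/
lemma post_six (hP : ExpM P C) (w : ι → NNReal) (u : ι → ℝ) (hC : nsq u ≤ C) :
    ∫ p, |post P w (dot u) p.2| ^ 6 ∂(nu P w) ≤ 1440 * Real.exp C * C ^ 3 := by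
  have h := post_pow_le hP w (hP.gd_dot u) 6 (by norm_num)
  have e : ∫ x, |dot u x| ^ 6 ∂P = ∫ x, dot u x ^ (2 * 3) ∂P := by
    refine integral_congr_ae (Eventually.of_forall fun x => ?_)
    simp only
    rw [show (6 : ℕ) = 2 * 3 from rfl, pow_mul, sq_abs, ← pow_mul]
  rw [e] at h
  have h2 := hP.moment u 3
  refine h.trans (h2.trans ?_)
  have h3 := Real.exp_pos C
  have h4 : nsq u ^ 3 ≤ C ^ 3 := pow_le_pow_left₀ (nsq_nonneg u) hC 3
  calc 2 * ((2 * 3).factorial : ℝ) * Real.exp C * nsq u ^ 3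
      ≤ 2 * ((2 * 3).factorial : ℝ) * Real.exp C * C ^ 3 :=
        mul_le_mul_of_nonneg_left h4 (by positivity)
    _ = 1440 * Real.exp C * C ^ 3 := by norm_num [Nat.factorial]

/-- second moment of the fluctuation of the posterior second moment -/
lemma post_fluct (hP : ExpM P C) (w : ι → NNReal) (u : ι → ℝ) (hC : nsq u ≤ C) :
    ∫ p, |post P w (fun x => dot u x ^ 2) p.2 - nsq u| ^ 2 ∂(nu P w) ≤
      (96 * Real.exp C + 2) * C ^ 2 := by
  haveI := hP.prob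
  haveI := isProbability_nu (P := P) w
  have hf : Gd P (fun x => dot u x ^ 2) := (hP.gd_dot u).pow 2
  have hg := gd_post hP w hf
  have h1 : ∫ p, |post P w (fun x => dot u x ^ 2) p.2 - nsq u| ^ 2 ∂(nu P w) ≤
      ∫ p, (2 * |post P w (fun x => dot u x ^ 2) p.2| ^ 2 + 2 * C ^ 2) ∂(nu P w) := by
    refine integral_mono (((hg.sub (Gd.const (nsq u))).abs).pow 2).integrable
      (((hg.abs.pow 2).const_mul 2).add (Gd.const (2 * C ^ 2))).integrable fun p => ?_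
    simp only [sq_abs]
    have h2 : nsq u ^ 2 ≤ C ^ 2 := pow_le_pow_left₀ (nsq_nonneg u) hC 2
    nlinarith [sq_nonneg (post P w (fun x => dot u x ^ 2) p.2 + nsq u)]
  refine h1.trans ?_
  rw [integral_add ((hg.abs.pow 2).const_mul 2).integrable (Gd.const (2 * C ^ 2)).integrable,
    integral_const_mul, integral_const, probReal_univ, one_smul]
  have h := post_pow_le hP w hf 2 (by norm_num)
  have e : ∫ x, |dot u x ^ 2| ^ 2 ∂P = ∫ x, dot u x ^ (2 * 2) ∂P := by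
    refine integral_congr_ae (Eventually.of_forall fun x => ?_)
    simp only [sq_abs]
    ring
  rw [e] at h
  have h2 := hP.moment u 2
  have h3 := Real.exp_pos C
  have h4 : nsq u ^ 2 ≤ C ^ 2 := pow_le_pow_left₀ (nsq_nonneg u) hC 2
  have h5 : 2 * ((2 * 2).factorial : ℝ) * Real.exp C * nsq u ^ 2 ≤ 48 * Real.exp C * C ^ 2 := by
    calc 2 * ((2 * 2).factorial : ℝ) * Real.exp C * nsq u ^ 2
        ≤ 2 * ((2 * 2).factorial : ℝ) * Real.exp C * C ^ 2 :=
          mul_le_mul_of_nonneg_left h4 (by positivity)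
      _ = 48 * Real.exp C * C ^ 2 := by norm_num [Nat.factorial]
  have h6 := h.trans (h2.trans h5)
  nlinarith [h6]

end mom

end Up

open Up in
theorem weighted_bound (C₀ : ℝ) : ∃ K : ℝ, 0 ≤ K ∧ ∀ (ι : Type) [Fintype ι] [DecidableEq ι]
    (P : Measure (ι → ℝ)), ExpM P C₀ → ∀ (A G : Finset ι) (s : NNReal) (a l : ℤ → ι → ℝ)
    (W : ℕ), 0 < W → Disjoint A G → (∀ t i, i ∉ A → a t i = 0) → (∀ t i, i ∉ G → l t i = 0) →
    (∀ t, nsq (a t) ≤ C₀) → ∀ v : ℝ, v ≤ C₀ → (∀ t, nsq (l t) = v) → ∀ c : ℝ, 0 ≤ c → c ≤ 1 →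
    ∀ δ : ℝ, D1 P (wt A G s) l W ≤ δ → D2 P (wt A G s) l W v ≤ δ →
    (1 / (W : ℝ)) * ∑ t ∈ Finset.range W, ∫ p, hfac (a (t : ℤ)) (l (t : ℤ)) c p *
        |post P (wt A G s) (dot (l (t : ℤ))) p.2| ∂(nu P (wt A G s)) ≤ K * Real.sqrt δ ∧
    (1 / (W : ℝ)) * ∑ t ∈ Finset.range W, ∫ p, hfac (a (t : ℤ)) (l (t : ℤ)) c p *
        |post P (wt A G s) (fun x => dot (l (t : ℤ)) x ^ 2) p.2 - v| ∂(nu P (wt A G s)) ≤
          K * Real.sqrt δ ∧
    (1 / (W : ℝ)) * ∑ t ∈ Finset.range W, ∫ p, hfac (a (t : ℤ)) (l (t : ℤ)) c p *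
        |cov P (wt A G s) (dot (l (t : ℤ))) (dot (l (t : ℤ))) p.2 - v| ∂(nu P (wt A G s)) ≤
          K * Real.sqrt δ := by
  obtain ⟨K4, hK4⟩ := hfac_moment C₀
  set k1 := Real.sqrt (Real.sqrt (K4 * (4 * Real.exp C₀ * C₀))) with hk1
  set k2 := Real.sqrt (Real.sqrt (K4 * ((96 * Real.exp C₀ + 2) * C₀ ^ 2))) with hk2
  set k3 := Real.sqrt (Real.sqrt (K4 * (1440 * Real.exp C₀ * C₀ ^ 3))) with hk3
  have h1n : 0 ≤ k1 := Real.sqrt_nonneg _
  have h2n : 0 ≤ k2 := Real.sqrt_nonneg _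
  have h3n : 0 ≤ k3 := Real.sqrt_nonneg _
  refine ⟨k1 + k2 + k3, by positivity, ?_⟩
  intro ι _ _ P hP A G s a l W hW hAG ha hl ha2 v hv hlv c hc0 hc1 δ hD1 hD2
  haveI := hP.prob
  haveI := isProbability_nu (P := P) (wt A G s)
  have hl2 : ∀ t, nsq (l t) ≤ C₀ := fun t => by rw [hlv]; exact hv
  have hδ : 0 ≤ Real.sqrt δ := Real.sqrt_nonneg _
  have hH : ∀ t : ℤ, Gd (nu P (wt A G s)) (hfac (a t) (l t) c) ∧
      ∫ p, hfac (a t) (l t) c p ^ 4 ∂(nu P (wt A G s)) ≤ K4 := fun t =>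
    hK4 ι P hP A G s (a t) (l t) c hAG (ha t) (hl t) (ha2 t) (hl2 t) hc0 hc1
  have hH0 : ∀ (t : ℤ) p, 0 ≤ hfac (a t) (l t) c p := fun t p => (Real.exp_pos _).le
  have hpost : ∀ t : ℤ, Gd (nu P (wt A G s)) (fun p => |post P (wt A G s) (dot (l t)) p.2|) :=
    fun t => (gd_post hP (wt A G s) (hP.gd_dot (l t))).abs
  have hsec : ∀ t : ℤ, Gd P (fun x => dot (l t) x ^ 2) := fun t => (hP.gd_dot (l t)).pow 2
  have hfl : ∀ t : ℤ, Gd (nu P (wt A G s))
      (fun p => |post P (wt A G s) (fun x => dot (l t) x ^ 2) p.2 - v|) :=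
    fun t => ((gd_post hP (wt A G s) (hsec t)).sub (Gd.const v)).abs
  -- first bound
  have b1 : (1 / (W : ℝ)) * ∑ t ∈ Finset.range W, ∫ p, hfac (a (t : ℤ)) (l (t : ℤ)) c p *
        |post P (wt A G s) (dot (l (t : ℤ))) p.2| ∂(nu P (wt A G s)) ≤ k1 * Real.sqrt δ := by
    refine avg_le W hW _ (fun t => ∫ p, |post P (wt A G s) (dot (l (t : ℤ))) p.2|
      ∂(nu P (wt A G s))) _ δ (Real.sqrt_nonneg _) (fun t _ => ?_) hD1
    refine cs_two (hH t).1 (hpost t) (hpost t) (hpost t) (hH0 t) (fun p => abs_nonneg _)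
      (fun p => abs_nonneg _) (fun p => ?_) K4 _ (fun p => abs_nonneg _) (hH t).2
      (post_two hP _ _ (hl2 t))
    rw [Real.mul_self_sqrt (abs_nonneg _)]
  have b2 : (1 / (W : ℝ)) * ∑ t ∈ Finset.range W, ∫ p, hfac (a (t : ℤ)) (l (t : ℤ)) c p *
        |post P (wt A G s) (fun x => dot (l (t : ℤ)) x ^ 2) p.2 - v| ∂(nu P (wt A G s)) ≤
          k2 * Real.sqrt δ := by
    refine avg_le W hW _ (fun t => ∫ p, |post P (wt A G s) (fun x => dot (l (t : ℤ)) x ^ 2) p.2 - v|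
      ∂(nu P (wt A G s))) _ δ (Real.sqrt_nonneg _) (fun t _ => ?_) hD2
    refine cs_two (hH t).1 (hfl t) (hfl t) (hfl t) (hH0 t) (fun p => abs_nonneg _)
      (fun p => abs_nonneg _) (fun p => ?_) K4 _ (fun p => abs_nonneg _) (hH t).2 ?_
    · rw [Real.mul_self_sqrt (abs_nonneg _)]
    · have := post_fluct hP (wt A G s) (l t) (hl2 t)
      rw [hlv] at this
      exact this
  have b3 : (1 / (W : ℝ)) * ∑ t ∈ Finset.range W, ∫ p, hfac (a (t : ℤ)) (l (t : ℤ)) c p *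
        |post P (wt A G s) (dot (l (t : ℤ))) p.2| ^ 2 ∂(nu P (wt A G s)) ≤
          k3 * Real.sqrt δ := by
    refine avg_le W hW _ (fun t => ∫ p, |post P (wt A G s) (dot (l (t : ℤ))) p.2|
      ∂(nu P (wt A G s))) _ δ (Real.sqrt_nonneg _) (fun t _ => ?_) hD1
    refine cs_two (R := fun p => |post P (wt A G s) (dot (l (t : ℤ))) p.2| ^ 3)
      (hH t).1 ((hpost t).pow 2) ((hpost t).pow 3) (hpost t) (hH0 t)
      (fun p => by positivity)
      (fun p => abs_nonneg _) (fun p => ?_) K4 _ (fun p => by positivity) (hH t).2 ?_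
    · rw [← Real.sqrt_mul (by positivity)]
      apply Real.le_sqrt_of_sq_le
      apply le_of_eq
      ring
    · refine (le_of_eq ?_).trans (post_six hP (wt A G s) (l t) (hl2 t))
      refine integral_congr_ae (Eventually.of_forall fun p => ?_)
      simp only
      ring
  refine ⟨b1.trans ?_, b2.trans ?_, ?_⟩
  · exact mul_le_mul_of_nonneg_right (by linarith) hδ
  · exact mul_le_mul_of_nonneg_right (by linarith) hδ
  · have h4 : (1 / (W : ℝ)) * ∑ t ∈ Finset.range W, ∫ p, hfac (a (t : ℤ)) (l (t : ℤ)) c p *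
        |cov P (wt A G s) (dot (l (t : ℤ))) (dot (l (t : ℤ))) p.2 - v| ∂(nu P (wt A G s)) ≤
        (1 / (W : ℝ)) * ∑ t ∈ Finset.range W, ((∫ p, hfac (a (t : ℤ)) (l (t : ℤ)) c p *
        |post P (wt A G s) (fun x => dot (l (t : ℤ)) x ^ 2) p.2 - v| ∂(nu P (wt A G s))) +
        ∫ p, hfac (a (t : ℤ)) (l (t : ℤ)) c p *
        |post P (wt A G s) (dot (l (t : ℤ))) p.2| ^ 2 ∂(nu P (wt A G s))) := by
      refine mul_le_mul_of_nonneg_left (Finset.sum_le_sum fun t _ => ?_) (by positivity)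
      rw [← integral_add ((hH t).1.mul (hfl t)).integrable
        ((hH t).1.mul ((hpost t).pow 2)).integrable]
      have hcov := gd_cov hP (wt A G s) (hP.gd_dot (l t)) (hP.gd_dot (l t))
      refine integral_mono ((hH t).1.mul (hcov.sub (Gd.const v)).abs).integrable
        (((hH t).1.mul (hfl t)).add ((hH t).1.mul ((hpost t).pow 2))).integrable fun p => ?_
      simp only
      rw [← mul_add]
      refine mul_le_mul_of_nonneg_left ?_ (hH0 t p)
      have e : cov P (wt A G s) (dot (l (t : ℤ))) (dot (l (t : ℤ))) p.2 - v =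
          (post P (wt A G s) (fun x => dot (l (t : ℤ)) x ^ 2) p.2 - v) -
            post P (wt A G s) (dot (l (t : ℤ))) p.2 ^ 2 := by
        have e2 : (fun x => dot (l (t : ℤ)) x * dot (l (t : ℤ)) x) =
            fun x => dot (l (t : ℤ)) x ^ 2 := by funext x; ring
        rw [cov, e2]; ring
      rw [e]
      refine (abs_sub _ _).trans (le_of_eq ?_)
      rw [abs_pow]
    refine h4.trans ?_
    rw [Finset.sum_add_distrib, mul_add]
    have h5 : (k1 + k2 + k3) * Real.sqrt δ = k1 * Real.sqrt δ + k2 * Real.sqrt δ +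
      k3 * Real.sqrt δ := by ring
    rw [h5]
    have := mul_nonneg h1n hδ
    linarith

end FULL
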