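import Pool.Agent.Lib.MP_8a5982_an.FULL.Mm2
import Pool.Agent.Lib.MP_8a5982_an.FULL.Up

/-!
Project FULL, module CLUSTER: the cluster block.
-/

open MeasureTheory ProbabilityTheory Filter Topology

namespace FULL

namespace Win

variable {ι : Type} (S : Win ι)

theorem avg_add (F H : ℤ → ℕ → ℝ) :
    S.avg (fun t r => F t r + H t r) = S.avg F + S.avg H := by
  unfold avg
  rw [← mul_add, ← Finset.sum_add_distrib]
  congr 1
  refine Finset.sum_congr rfl fun t _ => ?_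
  rw [← Finset.sum_add_distrib]

theorem avg_mul (c : ℝ) (F : ℤ → ℕ → ℝ) : S.avg (fun t r => c * F t r) = c * S.avg F := by
  unfold avg
  simp only [← Finset.mul_sum]
  ring

theorem avg_congr (F H : ℤ → ℕ → ℝ) (h : ∀ t < S.W, ∀ r < S.m, F (t : ℤ) r = H (t : ℤ) r) :
    S.avg F = S.avg H := by
  unfold avg
  congr 1
  refine Finset.sum_congr rfl fun t ht => Finset.sum_congr rfl fun r hr => ?_
  exact h t (Finset.mem_range.1 ht) r (Finset.mem_range.1 hr)

/-- the average does not change a function of the time only -/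
theorem avg_time (hm : 0 < S.m) (F : ℤ → ℝ) :
    S.avg (fun t _ => F t) = (1 / (S.W : ℝ)) * ∑ t ∈ Finset.range S.W, F (t : ℤ) := by
  unfold avg
  have hm' : (S.m : ℝ) ≠ 0 := by exact_mod_cast hm.ne'
  simp only [Finset.sum_const, Finset.card_range, nsmul_eq_mul]
  rw [← Finset.mul_sum, ← mul_assoc]
  congr 1
  rw [one_div, one_div, mul_inv, mul_assoc, inv_mul_cancel₀ hm', mul_one]

/-- bound of an average by bounds for every level -/
theorem abs_avg_le (hm : 0 < S.m) (F : ℤ → ℕ → ℝ) (H : ℤ → ℕ → ℝ) (B : ℝ)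
    (h : ∀ t < S.W, ∀ r < S.m, |F (t : ℤ) r| ≤ H (t : ℤ) r)
    (hB : ∀ r < S.m, (1 / (S.W : ℝ)) * ∑ t ∈ Finset.range S.W, H (t : ℤ) r ≤ B) :
    |S.avg F| ≤ B := by
  have hm' : (0 : ℝ) < S.m := by exact_mod_cast hm
  unfold avg
  rw [abs_mul, abs_of_nonneg (by positivity : (0 : ℝ) ≤ 1 / ((S.W : ℝ) * S.m))]
  have h1 : |∑ t ∈ Finset.range S.W, ∑ r ∈ Finset.range S.m, F (t : ℤ) r| ≤
      ∑ t ∈ Finset.range S.W, ∑ r ∈ Finset.range S.m, H (t : ℤ) r := by
    refine (Finset.abs_sum_le_sum_abs _ _).trans (Finset.sum_le_sum fun t ht => ?_)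
    refine (Finset.abs_sum_le_sum_abs _ _).trans (Finset.sum_le_sum fun r hr => ?_)
    exact h t (Finset.mem_range.1 ht) r (Finset.mem_range.1 hr)
  refine (mul_le_mul_of_nonneg_left h1 (by positivity)).trans ?_
  rw [Finset.sum_comm]
  have h2 : 1 / ((S.W : ℝ) * S.m) * ∑ r ∈ Finset.range S.m, ∑ t ∈ Finset.range S.W, H (t : ℤ) r =
      1 / (S.m : ℝ) * ∑ r ∈ Finset.range S.m, ((1 / (S.W : ℝ)) *
        ∑ t ∈ Finset.range S.W, H (t : ℤ) r) := by
    rw [← Finset.mul_sum, ← mul_assoc]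
    congr 1
    rw [one_div, one_div, one_div, mul_inv, mul_comm]
  rw [h2]
  have h3 : ∑ r ∈ Finset.range S.m, ((1 / (S.W : ℝ)) *
        ∑ t ∈ Finset.range S.W, H (t : ℤ) r) ≤ ∑ _r ∈ Finset.range S.m, B :=
    Finset.sum_le_sum fun r hr => hB r (Finset.mem_range.1 hr)
  rw [Finset.sum_const, Finset.card_range, nsmul_eq_mul] at h3
  calc 1 / (S.m : ℝ) * _ ≤ 1 / (S.m : ℝ) * (S.m * B) := mul_le_mul_of_nonneg_left h3 (by positivity)
    _ = B := by field_simp

theorem hasDerivAt_avg (F : ℤ → ℕ → ℝ → ℝ) (F' : ℤ → ℕ → ℝ) (c : ℝ)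
    (h : ∀ t < S.W, ∀ r < S.m, HasDerivAt (F (t : ℤ) r) (F' (t : ℤ) r) c) :
    HasDerivAt (fun c => S.avg (fun t r => F t r c)) (S.avg F') c := by
  unfold avg
  apply HasDerivAt.const_mul
  apply HasDerivAt.fun_sum
  intro t ht
  apply HasDerivAt.fun_sum
  intro r hr
  exact h t (Finset.mem_range.1 ht) r (Finset.mem_range.1 hr)

theorem integral_avg (F : ℤ → ℕ → ℝ → ℝ) (c : ℝ)
    (h : ∀ t < S.W, ∀ r < S.m, IntervalIntegrable (F (t : ℤ) r) volume 0 c) :
    ∫ θ in (0 : ℝ)..c, S.avg (fun t r => F t r θ) = S.avg (fun t r => ∫ θ in (0 : ℝ)..c, F t r θ) := by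
  unfold avg
  rw [intervalIntegral.integral_const_mul, intervalIntegral.integral_finsetSum]
  · congr 1
    refine Finset.sum_congr rfl fun t ht => ?_
    rw [intervalIntegral.integral_finsetSum]
    intro r hr
    exact h t (Finset.mem_range.1 ht) r (Finset.mem_range.1 hr)
  · intro t ht
    have e : (fun x => ∑ r ∈ Finset.range S.m, F (t : ℤ) r x) =
        ∑ r ∈ Finset.range S.m, F (t : ℤ) r := by
      funext x
      rw [Finset.sum_apply]
    rw [e]
    apply IntervalIntegrable.sum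
    intro r hr
    exact h t (Finset.mem_range.1 ht) r (Finset.mem_range.1 hr)

end Win

/-- the comparison with the solution of `m' = v c m` -/
theorem cluster_ode (M M' : ℝ → ℝ) (v E : ℝ) (hv : 0 ≤ v)
    (hM : ∀ c, 0 ≤ c → c ≤ 1 → HasDerivAt M (M' c) c)
    (hE : ∀ c, 0 ≤ c → c ≤ 1 → |M' c - c * v * M c| ≤ E) :
    |M 1 - Real.exp (v / 2) * M 0| ≤ Real.exp (v / 2) * E := by
  have hE0 : 0 ≤ E := (abs_nonneg _).trans (hE 0 le_rfl zero_le_one)
  have hd : ∀ c ∈ Set.Icc (0 : ℝ) 1, HasDerivWithinAt (fun c => M c * Real.exp (-(v / 2 * c ^ 2)))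
      ((M' c - c * v * M c) * Real.exp (-(v / 2 * c ^ 2))) (Set.Icc 0 1) c := by
    intro c hc
    have h1 := hM c hc.1 hc.2
    have h2 : HasDerivAt (fun c : ℝ => -(v / 2 * c ^ 2)) (-(v * c)) c := by
      have := ((hasDerivAt_pow 2 c).const_mul (v / 2)).neg
      refine this.congr_deriv ?_
      push_cast
      ring
    have h3 := (h1.mul h2.exp).hasDerivWithinAt (s := Set.Icc (0 : ℝ) 1)
    refine h3.congr_deriv ?_
    ring
  have hb : ∀ c ∈ Set.Icc (0 : ℝ) 1, ‖(M' c - c * v * M c) * Real.exp (-(v / 2 * c ^ 2))‖ ≤ E := by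
    intro c hc
    rw [Real.norm_eq_abs, abs_mul, abs_of_pos (Real.exp_pos _)]
    have h1 : Real.exp (-(v / 2 * c ^ 2)) ≤ 1 := by
      rw [Real.exp_le_one_iff]
      have : 0 ≤ v / 2 * c ^ 2 := by positivity
      linarith
    calc |M' c - c * v * M c| * Real.exp (-(v / 2 * c ^ 2)) ≤ E * 1 :=
          mul_le_mul (hE c hc.1 hc.2) h1 (Real.exp_pos _).le hE0
      _ = E := mul_one E
  have key := Convex.norm_image_sub_le_of_norm_hasDerivWithin_le hd hb (convex_Icc 0 1)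
    (Set.left_mem_Icc.2 zero_le_one) (Set.right_mem_Icc.2 zero_le_one)
  have e1 : (M 1 - Real.exp (v / 2) * M 0) = Real.exp (v / 2) *
      (M 1 * Real.exp (-(v / 2 * 1 ^ 2)) - M 0 * Real.exp (-(v / 2 * 0 ^ 2))) := by
    have h1 : Real.exp (v / 2) * Real.exp (-(v / 2 * 1 ^ 2)) = 1 := by
      rw [← Real.exp_add, show v / 2 + -(v / 2 * 1 ^ 2) = 0 by ring, Real.exp_zero]
    have h2 : Real.exp (-(v / 2 * 0 ^ 2)) = 1 := by
      rw [show -(v / 2 * 0 ^ 2) = 0 by ring, Real.exp_zero]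
    rw [h2, mul_sub, mul_left_comm, h1]
    ring
  rw [e1, abs_mul, abs_of_pos (Real.exp_pos _)]
  apply mul_le_mul_of_nonneg_left _ (Real.exp_pos _).le
  simpa using key

theorem lev_pos (s₀ : NNReal) (hs₀ : 0 < s₀) (m r : ℕ) : 0 < lev s₀ m r := by
  unfold lev
  have : (0 : NNReal) < 1 + (r : NNReal) / (m : NNReal) := by
    have h : (0 : NNReal) ≤ (r : NNReal) / (m : NNReal) := by positivity
    exact lt_of_lt_of_le one_pos (le_add_of_nonneg_right h)
  exact mul_pos hs₀ this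

theorem cluster_block (C₀ : ℝ) : ∃ K : ℝ, 0 ≤ K ∧ ∀ (s₀ : NNReal), 0 < s₀ →
    ∀ (ι : Type) [Fintype ι] [DecidableEq ι] (S : Win ι), IsWin C₀ s₀ S →
    (∀ t, nsq (S.a t) = nsq (S.a 0)) → ∀ δ ε : ℝ,
    (∀ r < S.m, D1 S.P (wt S.A S.G (lev s₀ S.m r)) S.l S.W ≤ δ) →
    (∀ r < S.m, D2 S.P (wt S.A S.G (lev s₀ S.m r)) S.l S.W (S.q 0) ≤ δ) →
    (∀ c θ : ℝ, 0 ≤ θ → θ ≤ c → c ≤ 1 → |S.Gam s₀ c θ 0 0 0| ≤ ε) →
    |(1 / (S.W : ℝ)) * (∑ t ∈ Finset.range S.W, ∫ x, Real.exp (dot (S.a (t : ℤ)) x +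
        dot (S.l (t : ℤ)) x) ∂S.P) - Real.exp (S.q 0 / 2) * ((1 / (S.W : ℝ)) *
        ∑ t ∈ Finset.range S.W, ∫ x, Real.exp (dot (S.a (t : ℤ)) x) ∂S.P)| ≤
      K * (Real.sqrt δ + ε) := by
  obtain ⟨K₁, hK₁, hw⟩ := weighted_bound C₀
  refine ⟨Real.exp (C₀ / 2) * (2 * K₁ + 1), by positivity, ?_⟩
  intro s₀ hs₀ ι _ _ S hS haa δ ε hD1 hD2 hG
  have hP := hS.hP
  have := hP.prob
  have hm := hS.hm
  have hv : ∀ t, nsq (S.l t) = S.q 0 := by
    intro t
    rw [← dot_self, hS.hq, sub_self]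
  have hv0 : 0 ≤ S.q 0 := by rw [← hv 0]; exact nsq_nonneg _
  have hε : 0 ≤ ε := (abs_nonneg _).trans (hG 0 0 le_rfl le_rfl zero_le_one)
  have hlv : ∀ r, 0 < lev s₀ S.m r := fun r => lev_pos s₀ hs₀ S.m r
  set v : ℝ := S.q 0 with hvdef
  -- the functions
  set Mt : ℤ → ℝ → ℝ := fun t c => Real.exp (nsq (S.a t) / 2) *
    ∫ x, Real.exp (dot (S.a t) x + c * dot (S.l t) x) ∂S.P with hMt
  set Af : ℝ → ℤ → ℕ → ℝ := fun c t r => ∫ p, hfac (S.a t) (S.l t) c p *
    post S.P (wt S.A S.G (lev s₀ S.m r)) (dot (S.l t)) p.2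
      ∂(nu S.P (wt S.A S.G (lev s₀ S.m r))) with hAf
  set Bf : ℝ → ℤ → ℕ → ℝ := fun c t r => ∫ p, hfac (S.a t) (S.l t) c p *
    cov S.P (wt S.A S.G (lev s₀ S.m r)) (dot (S.l t)) (dot (S.l t)) p.2
      ∂(nu S.P (wt S.A S.G (lev s₀ S.m r))) with hBf
  set If : ℝ → ℤ → ℕ → ℝ := fun c t r => ∫ θ in (0 : ℝ)..c, (c - θ) *
    gterm S.P S.A S.G (lev s₀ S.m r) c θ (S.a t) (S.l t) (S.l t) (S.l t) with hIf
  set M : ℝ → ℝ := fun c => S.avg (fun t _ => Mt t c) with hMdef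
  have hder : ∀ c, 0 ≤ c → c ≤ 1 → HasDerivAt M
      (S.avg (fun t r => Af c t r + c * Bf c t r + If c t r)) c := by
    intro c hc _
    apply S.hasDerivAt_avg
    intro t _ r _
    exact hfac_deriv hP S.A S.G (lev s₀ S.m r) (hlv r) (S.a t) (S.l t) c hc hS.disj
      (hS.ha t) (hS.hl t)
  have herr : ∀ c, 0 ≤ c → c ≤ 1 →
      |S.avg (fun t r => Af c t r + c * Bf c t r + If c t r) - c * v * M c| ≤
        2 * K₁ * Real.sqrt δ + ε := by
    intro c hc hc1
    -- the integral of hfac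
    have hMM : M c = S.avg (fun t r => ∫ p, hfac (S.a t) (S.l t) c p
        ∂(nu S.P (wt S.A S.G (lev s₀ S.m r)))) := by
      rw [hMdef]
      apply S.avg_congr
      intro t _ r _
      rw [hfac_integral hP S.A S.G (lev s₀ S.m r) (S.a t) (S.l t) c hS.disj (hS.ha t)]
    have hw' : ∀ r < S.m, _ := fun r hr => hw ι S.P hP S.A S.G (lev s₀ S.m r) S.a S.l S.W hS.hW
      hS.disj hS.ha hS.hl hS.ha2 v hS.hq0 hv c hc hc1 δ (hD1 r hr) (hD2 r hr)
    have hA : |S.avg (Af c)| ≤ K₁ * Real.sqrt δ := by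
      refine S.abs_avg_le hm _ (fun t r => ∫ p, hfac (S.a t) (S.l t) c p *
        |post S.P (wt S.A S.G (lev s₀ S.m r)) (dot (S.l t)) p.2|
          ∂(nu S.P (wt S.A S.G (lev s₀ S.m r)))) _ ?_ fun r hr => (hw' r hr).1
      intro t _ r _
      refine (abs_integral_le_integral_abs).trans (le_of_eq ?_)
      refine integral_congr_ae (Eventually.of_forall fun p => ?_)
      simp only
      rw [abs_mul, abs_of_pos (show 0 < hfac (S.a (t : ℤ)) (S.l (t : ℤ)) c p from Real.exp_pos _)]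
    have hB : |S.avg (fun t r => Bf c t r - v * ∫ p, hfac (S.a t) (S.l t) c p
        ∂(nu S.P (wt S.A S.G (lev s₀ S.m r))))| ≤ K₁ * Real.sqrt δ := by
      refine S.abs_avg_le hm _ (fun t r => ∫ p, hfac (S.a t) (S.l t) c p *
        |cov S.P (wt S.A S.G (lev s₀ S.m r)) (dot (S.l t)) (dot (S.l t)) p.2 - v|
          ∂(nu S.P (wt S.A S.G (lev s₀ S.m r)))) _ ?_ fun r hr => (hw' r hr).2.2
      intro t _ r _
      have hpr := isProbability_nu (P := S.P) (wt S.A S.G (lev s₀ S.m r))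
      have gh := mm2_gd_hfac hP (wt S.A S.G (lev s₀ S.m r)) (S.a (t : ℤ)) (S.l (t : ℤ)) c
      have gc := gd_cov hP (wt S.A S.G (lev s₀ S.m r)) (hP.gd_dot (S.l (t : ℤ)))
        (hP.gd_dot (S.l (t : ℤ)))
      rw [hBf]
      simp only
      rw [← integral_const_mul, ← integral_sub (gh.mul gc).integrable
        (gh.const_mul v).integrable]
      refine (abs_integral_le_integral_abs).trans (le_of_eq ?_)
      refine integral_congr_ae (Eventually.of_forall fun p => ?_)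
      simp only
      rw [← abs_of_pos (show 0 < hfac (S.a (t : ℤ)) (S.l (t : ℤ)) c p from Real.exp_pos _),
        ← abs_mul, abs_of_pos (show 0 < hfac (S.a (t : ℤ)) (S.l (t : ℤ)) c p from Real.exp_pos _)]
      congr 1
      ring
    have hI : |S.avg (If c)| ≤ ε := by
      have h1 : ∫ θ in (0 : ℝ)..c, (c - θ) * S.Gam s₀ c θ 0 0 0 = S.avg (If c) := by
        rw [hIf, ← S.integral_avg (fun t r θ => (c - θ) *
          gterm S.P S.A S.G (lev s₀ S.m r) c θ (S.a t) (S.l t) (S.l t) (S.l t)) c ?_]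
        · refine intervalIntegral.integral_congr fun θ _ => ?_
          show (c - θ) * S.Gam s₀ c θ 0 0 0 = S.avg (fun t r => (c - θ) *
            gterm S.P S.A S.G (lev s₀ S.m r) c θ (S.a t) (S.l t) (S.l t) (S.l t))
          rw [S.avg_mul]
          unfold Win.Gam
          simp only [add_zero]
        · intro t _ r _
          exact gterm_intervalIntegrable hP S.A S.G (lev s₀ S.m r) (hlv r) (S.a t) (S.l t) c hc
            hS.disj (hS.ha t) (hS.hl t)
      rw [← h1]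
      have h2 := intervalIntegral.norm_integral_le_of_norm_le_const (a := (0 : ℝ)) (b := c)
        (C := ε) (f := fun θ => (c - θ) * S.Gam s₀ c θ 0 0 0) (by
          intro θ hθ
          rw [Set.uIoc_of_le hc] at hθ
          rw [Real.norm_eq_abs, abs_mul, abs_of_nonneg (sub_nonneg.2 hθ.2)]
          calc (c - θ) * |S.Gam s₀ c θ 0 0 0| ≤ 1 * ε :=
                mul_le_mul (by linarith [hθ.1]) (hG c θ hθ.1.le hθ.2 hc1) (abs_nonneg _)
                  zero_le_one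
            _ = ε := one_mul ε)
      rw [Real.norm_eq_abs, sub_zero, abs_of_nonneg hc] at h2
      exact h2.trans (mul_le_of_le_one_right hε hc1)
    have hsplit : S.avg (fun t r => Af c t r + c * Bf c t r + If c t r) - c * v * M c =
        S.avg (Af c) + c * S.avg (fun t r => Bf c t r - v * ∫ p, hfac (S.a t) (S.l t) c p
        ∂(nu S.P (wt S.A S.G (lev s₀ S.m r)))) + S.avg (If c) := by
      have e1 : S.avg (fun t r => Bf c t r - v * ∫ p, hfac (S.a t) (S.l t) c p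
        ∂(nu S.P (wt S.A S.G (lev s₀ S.m r)))) = S.avg (Bf c) - v * M c := by
        rw [hMM, ← S.avg_mul]
        have := S.avg_add (fun t r => Bf c t r - v * ∫ p, hfac (S.a t) (S.l t) c p
          ∂(nu S.P (wt S.A S.G (lev s₀ S.m r)))) (fun t r => v * ∫ p, hfac (S.a t) (S.l t) c p
          ∂(nu S.P (wt S.A S.G (lev s₀ S.m r))))
        simp only [sub_add_cancel] at this
        rw [this]
        ring
      rw [e1, S.avg_add (fun t r => Af c t r + c * Bf c t r) (If c),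
        S.avg_add (Af c) (fun t r => c * Bf c t r), S.avg_mul]
      ring
    rw [hsplit]
    have h3 : |c * S.avg (fun t r => Bf c t r - v * ∫ p, hfac (S.a t) (S.l t) c p
        ∂(nu S.P (wt S.A S.G (lev s₀ S.m r))))| ≤ K₁ * Real.sqrt δ := by
      rw [abs_mul, abs_of_nonneg hc]
      exact (mul_le_of_le_one_left (abs_nonneg _) hc1).trans hB
    have h4 := abs_add_le (S.avg (Af c) + c * S.avg (fun t r => Bf c t r -
      v * ∫ p, hfac (S.a t) (S.l t) c p ∂(nu S.P (wt S.A S.G (lev s₀ S.m r))))) (S.avg (If c))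
    have h5 := abs_add_le (S.avg (Af c)) (c * S.avg (fun t r => Bf c t r -
      v * ∫ p, hfac (S.a t) (S.l t) c p ∂(nu S.P (wt S.A S.G (lev s₀ S.m r)))))
    linarith
  have key := cluster_ode M _ v _ hv0 hder herr
  -- evaluation at the end points
  have hM1 : M 1 = Real.exp (nsq (S.a 0) / 2) * ((1 / (S.W : ℝ)) *
      (∑ t ∈ Finset.range S.W, ∫ x, Real.exp (dot (S.a (t : ℤ)) x +
        dot (S.l (t : ℤ)) x) ∂S.P)) := by
    rw [hMdef]
    simp only
    rw [S.avg_time hm, mul_left_comm]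
    congr 1
    rw [Finset.mul_sum]
    refine Finset.sum_congr rfl fun t _ => ?_
    simp only [hMt, haa (t : ℤ), one_mul]
  have hM0 : M 0 = Real.exp (nsq (S.a 0) / 2) * ((1 / (S.W : ℝ)) *
        ∑ t ∈ Finset.range S.W, ∫ x, Real.exp (dot (S.a (t : ℤ)) x) ∂S.P) := by
    rw [hMdef]
    simp only
    rw [S.avg_time hm, mul_left_comm]
    congr 1
    rw [Finset.mul_sum]
    refine Finset.sum_congr rfl fun t _ => ?_
    simp only [hMt, haa (t : ℤ), zero_mul, add_zero]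
  rw [hM1, hM0] at key
  set X := (1 / (S.W : ℝ)) * (∑ t ∈ Finset.range S.W, ∫ x, Real.exp (dot (S.a (t : ℤ)) x +
        dot (S.l (t : ℤ)) x) ∂S.P)
  set Y := (1 / (S.W : ℝ)) * ∑ t ∈ Finset.range S.W, ∫ x, Real.exp (dot (S.a (t : ℤ)) x) ∂S.P
  have hea : 1 ≤ Real.exp (nsq (S.a 0) / 2) := by
    apply Real.one_le_exp
    have := nsq_nonneg (S.a 0)
    linarith
  have e1 : Real.exp (nsq (S.a 0) / 2) * X - Real.exp (v / 2) *
      (Real.exp (nsq (S.a 0) / 2) * Y) = Real.exp (nsq (S.a 0) / 2) *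
        (X - Real.exp (v / 2) * Y) := by ring
  rw [e1, abs_mul, abs_of_pos (Real.exp_pos _)] at key
  have h6 : |X - Real.exp (v / 2) * Y| ≤ Real.exp (nsq (S.a 0) / 2) *
        |X - Real.exp (v / 2) * Y| := le_mul_of_one_le_left (abs_nonneg _) hea
  have h7 : Real.exp (v / 2) ≤ Real.exp (C₀ / 2) := by
    apply Real.exp_le_exp.2
    have := hS.hq0
    linarith
  have hsq : 0 ≤ Real.sqrt δ := Real.sqrt_nonneg δ
  have h8 : 2 * K₁ * Real.sqrt δ + ε ≤ (2 * K₁ + 1) * (Real.sqrt δ + ε) := by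
    nlinarith [mul_nonneg hK₁ hε, hsq]
  calc |X - Real.exp (v / 2) * Y| ≤ Real.exp (v / 2) * (2 * K₁ * Real.sqrt δ + ε) :=
        h6.trans key
    _ ≤ Real.exp (C₀ / 2) * ((2 * K₁ + 1) * (Real.sqrt δ + ε)) :=
        mul_le_mul h7 h8 (by positivity) (Real.exp_pos _).le
    _ = Real.exp (C₀ / 2) * (2 * K₁ + 1) * (Real.sqrt δ + ε) := by ring

end FULL
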