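import Pool.Agent.Lib.MP_8a5982_an.FULL.Defs

/-!
WLIM: weak limits of bounded densities along an ultrafilter (Riesz in `L²(σ)`).
-/

open MeasureTheory ProbabilityTheory Filter Topology

namespace FULL

/-- bounded real sequences converge along ultrafilters -/
theorem wlim_lim (U : Ultrafilter ℕ) (u : ℕ → ℝ) (B : ℝ) (h : ∀ N, |u N| ≤ B) :
    ∃ y : ℝ, Tendsto u U (𝓝 y) := by
  have hc : IsCompact (Set.Icc (-B) B) := isCompact_Icc
  obtain ⟨y, -, hy⟩ := hc.ultrafilter_le_nhds' (U.map u) (by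
    rw [Ultrafilter.mem_map]
    exact Filter.univ_mem' fun N => abs_le.1 (h N))
  exact ⟨y, hy⟩

/-- weak limits in a Hilbert space -/
theorem wlim_hilbert {H : Type*} [NormedAddCommGroup H] [InnerProductSpace ℝ H] [CompleteSpace H]
    (U : Ultrafilter ℕ) (G : ℕ → H) (B : ℝ) (hB : ∀ N, ‖G N‖ ≤ B) :
    ∃ ψ : H, ∀ f : H, Tendsto (fun N => inner ℝ (G N) f) U (𝓝 (inner ℝ ψ f)) := by
  have hbd : ∀ f : H, ∀ N, |inner ℝ (G N) f| ≤ B * ‖f‖ := by
    intro f N
    exact (abs_real_inner_le_norm _ _).trans (mul_le_mul_of_nonneg_right (hB N) (norm_nonneg _))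
  have hex := fun f => wlim_lim U (fun N => inner ℝ (G N) f) (B * ‖f‖) (hbd f)
  choose Λ hΛ using hex
  have hadd : ∀ f f', Λ (f + f') = Λ f + Λ f' := by
    intro f f'
    refine tendsto_nhds_unique (hΛ (f + f')) ?_
    have := (hΛ f).add (hΛ f')
    refine this.congr fun N => ?_
    rw [inner_add_right]
  have hsmul : ∀ (c : ℝ) f, Λ (c • f) = c * Λ f := by
    intro c f
    refine tendsto_nhds_unique (hΛ (c • f)) ?_
    have := (hΛ f).const_mul c
    refine this.congr fun N => ?_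
    rw [inner_smul_right]
  have hle : ∀ f, |Λ f| ≤ B * ‖f‖ := by
    intro f
    exact le_of_tendsto (hΛ f).abs (Eventually.of_forall fun N => hbd f N)
  obtain ⟨L, hL⟩ : ∃ L : H →L[ℝ] ℝ, ∀ f, L f = Λ f :=
    ⟨LinearMap.mkContinuous ⟨⟨Λ, hadd⟩, fun c f => hsmul c f⟩ B (fun f => hle f), fun f => rfl⟩
  refine ⟨(InnerProductSpace.toDual ℝ H).symm L, fun f => ?_⟩
  rw [InnerProductSpace.toDual_symm_apply, hL]
  exact hΛ f

/-- the weak limit of the densities -/
theorem wlim_riesz {α : Type*} [MeasurableSpace α] (σ : Measure α) [IsFiniteMeasure σ]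
    (U : Ultrafilter ℕ) (g : ℕ → α → ℝ) (hg : ∀ N, Measurable (g N)) (C : ℝ)
    (h0 : ∀ N x, 0 ≤ g N x) (hC : ∀ N x, g N x ≤ C) :
    ∃ ψ : α → ℝ, Measurable ψ ∧ (∀ x, 0 ≤ ψ x) ∧ Integrable ψ σ ∧
      ∀ f : α → ℝ, Measurable f → ∀ K : ℝ, (∀ x, |f x| ≤ K) →
        Tendsto (fun N => ∫ x, f x * g N x ∂σ) U (𝓝 (∫ x, f x * ψ x ∂σ)) := by
  have hbd : ∀ N x, ‖g N x‖ ≤ C := fun N x => by
    rw [Real.norm_eq_abs, abs_of_nonneg (h0 N x)]
    exact hC N x
  have hmem : ∀ N, MemLp (g N) 2 σ := fun N =>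
    MemLp.of_bound (hg N).aestronglyMeasurable C (Eventually.of_forall (hbd N))
  obtain ⟨G, hG⟩ : ∃ G : ℕ → Lp ℝ 2 σ, ∀ N, G N = (hmem N).toLp (g N) := ⟨_, fun N => rfl⟩
  have hGn : ∃ B : ℝ, ∀ N, ‖G N‖ ≤ B := by
    refine ⟨(measureUnivNNReal σ : ℝ) ^ ((2 : ENNReal).toReal)⁻¹ * |C|, fun N => ?_⟩
    refine Lp.norm_le_of_ae_bound (abs_nonneg C) ?_
    have h1 := (hmem N).coeFn_toLp
    rw [← hG N] at h1
    filter_upwards [h1] with x hx
    rw [hx]
    exact (hbd N x).trans (le_abs_self C)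
  obtain ⟨B, hB⟩ := hGn
  obtain ⟨ψ₀, hψ₀⟩ := wlim_hilbert U G B hB
  -- test functions
  have hGae : ∀ N, (G N : α → ℝ) =ᵐ[σ] g N := fun N => by
    rw [hG N]
    exact (hmem N).coeFn_toLp
  have htest : ∀ f : α → ℝ, Measurable f → ∀ K : ℝ, (∀ x, |f x| ≤ K) →
      Tendsto (fun N => ∫ x, f x * g N x ∂σ) U (𝓝 (∫ x, f x * ψ₀ x ∂σ)) := by
    intro f hf K hK
    have hfm : MemLp f 2 σ := MemLp.of_bound hf.aestronglyMeasurable K
      (Eventually.of_forall fun x => by rw [Real.norm_eq_abs]; exact hK x)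
    have h1 := hψ₀ (hfm.toLp f)
    have h2 : ∀ ξ : Lp ℝ 2 σ, inner ℝ ξ (hfm.toLp f) = ∫ x, f x * ξ x ∂σ := by
      intro ξ
      rw [L2.inner_def]
      refine integral_congr_ae ?_
      filter_upwards [hfm.coeFn_toLp] with x hx
      rw [hx]
      rfl
    rw [h2] at h1
    refine h1.congr fun N => ?_
    rw [h2]
    refine integral_congr_ae ?_
    filter_upwards [hGae N] with x hx
    rw [hx]
  have hint : Integrable (fun x => ψ₀ x) σ :=
    (Lp.memLp ψ₀).integrable (by norm_num)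
  have hnn : 0 ≤ᵐ[σ] fun x => ψ₀ x := by
    refine ae_nonneg_of_forall_setIntegral_nonneg hint fun s hs _ => ?_
    have h1 := htest (s.indicator fun _ => (1 : ℝ)) (measurable_const.indicator hs) 1 (fun x => by
      by_cases hx : x ∈ s
      · rw [Set.indicator_of_mem hx]; simp
      · rw [Set.indicator_of_notMem hx]; simp)
    have h2 : 0 ≤ ∫ x, s.indicator (fun _ => (1 : ℝ)) x * ψ₀ x ∂σ := by
      refine ge_of_tendsto h1 (Eventually.of_forall fun N => ?_)
      refine integral_nonneg fun x => ?_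
      refine mul_nonneg (Set.indicator_nonneg (fun _ _ => zero_le_one) x) (h0 N x)
    have h3 : ∫ x, s.indicator (fun _ => (1 : ℝ)) x * ψ₀ x ∂σ = ∫ x in s, ψ₀ x ∂σ := by
      rw [← integral_indicator hs]
      refine integral_congr_ae (Eventually.of_forall fun x => ?_)
      by_cases hx : x ∈ s
      · simp [hx]
      · simp [hx]
    rw [← h3]
    exact h2
  refine ⟨fun x => max (ψ₀ x) 0, (Lp.stronglyMeasurable ψ₀).measurable.max measurable_const,
    fun x => le_max_right _ _, hint.sup (integrable_zero _ _ _), ?_⟩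
  intro f hf K hK
  have h1 := htest f hf K hK
  have h2 : ∫ x, f x * max (ψ₀ x) 0 ∂σ = ∫ x, f x * ψ₀ x ∂σ := by
    refine integral_congr_ae ?_
    filter_upwards [hnn] with x hx
    have hx' : 0 ≤ ψ₀ x := hx
    show f x * max (ψ₀ x) 0 = f x * ψ₀ x
    rw [max_eq_left hx']
  rw [h2]
  exact h1

/-- WLIM -/
theorem weak_limit (σ : Measure UnitAddCircle) [IsFiniteMeasure σ] (U : Ultrafilter ℕ)
    (g : ℕ → UnitAddCircle → ℝ) (hg : ∀ N, Measurable (g N)) (C : ℝ)
    (h0 : ∀ N x, 0 ≤ g N x) (hC : ∀ N x, g N x ≤ C) :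
    ∃ τ : Measure UnitAddCircle, IsFiniteMeasure τ ∧ τ ≪ σ ∧
      ∀ t : ℤ, Tendsto (fun N => ∫ x, (fourier t x : ℂ) * (g N x : ℂ) ∂σ) U
        (𝓝 (∫ x, (fourier t x : ℂ) ∂τ)) := by
  obtain ⟨ψ, hψm, hψ0, hψi, hψ⟩ := wlim_riesz σ U g hg C h0 hC
  refine ⟨σ.withDensity fun x => ENNReal.ofReal (ψ x), isFiniteMeasure_withDensity_ofReal hψi.2,
    withDensity_absolutelyContinuous _ _, fun t => ?_⟩
  have hint : ∫ x, (fourier t x : ℂ) ∂(σ.withDensity fun x => ENNReal.ofReal (ψ x)) =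
      ∫ x, (fourier t x : ℂ) * (ψ x : ℂ) ∂σ := by
    rw [integral_withDensity_eq_integral_toReal_smul hψm.ennreal_ofReal
      (Eventually.of_forall fun x => ENNReal.ofReal_lt_top)]
    refine integral_congr_ae (Eventually.of_forall fun x => ?_)
    simp only
    rw [ENNReal.toReal_ofReal (hψ0 x), Complex.real_smul, mul_comm]
  rw [hint]
  have hfm : Measurable fun x : UnitAddCircle => (fourier t x : ℂ) :=
    (fourier t).continuous.measurable
  have hfn : ∀ x : UnitAddCircle, ‖(fourier t x : ℂ)‖ ≤ 1 := fun x => by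
    rw [fourier_apply]
    exact le_of_eq (Circle.norm_coe _)
  have hre : Measurable fun x : UnitAddCircle => (fourier t x : ℂ).re :=
    Complex.measurable_re.comp hfm
  have him : Measurable fun x : UnitAddCircle => (fourier t x : ℂ).im :=
    Complex.measurable_im.comp hfm
  have hreb : ∀ x : UnitAddCircle, |(fourier t x : ℂ).re| ≤ 1 := fun x =>
    (Complex.abs_re_le_norm _).trans (hfn x)
  have himb : ∀ x : UnitAddCircle, |(fourier t x : ℂ).im| ≤ 1 := fun x =>
    (Complex.abs_im_le_norm _).trans (hfn x)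
  have hsplit : ∀ h : UnitAddCircle → ℝ, Integrable h σ →
      ∫ x, (fourier t x : ℂ) * (h x : ℂ) ∂σ =
        ((∫ x, (fourier t x : ℂ).re * h x ∂σ : ℝ) : ℂ) +
          ((∫ x, (fourier t x : ℂ).im * h x ∂σ : ℝ) : ℂ) * Complex.I := by
    intro h hh
    have i1 : Integrable (fun x => (fourier t x : ℂ).re * h x) σ :=
      hh.bdd_mul (c := 1) hre.aestronglyMeasurable (Eventually.of_forall fun x => hreb x)
    have i2 : Integrable (fun x => (fourier t x : ℂ).im * h x) σ :=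
      hh.bdd_mul (c := 1) him.aestronglyMeasurable (Eventually.of_forall fun x => himb x)
    rw [← integral_complex_ofReal, ← integral_complex_ofReal, ← integral_mul_const, ← integral_add i1.ofReal
      (i2.ofReal.mul_const _)]
    refine integral_congr_ae (Eventually.of_forall fun x => ?_)
    show (fourier t x : ℂ) * (h x : ℂ) = _
    conv_lhs => rw [← Complex.re_add_im (fourier t x : ℂ)]
    simp only [Complex.ofReal_mul]
    ring
  have hgi : ∀ N, Integrable (g N) σ := fun N =>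
    (integrable_const C).mono' (hg N).aestronglyMeasurable (Eventually.of_forall fun x => by
      rw [Real.norm_eq_abs, abs_of_nonneg (h0 N x)]
      exact hC N x)
  rw [hsplit ψ hψi]
  simp_rw [fun N => hsplit (g N) (hgi N)]
  have t1 := hψ _ hre 1 hreb
  have t2 := hψ _ him 1 himb
  exact ((Complex.continuous_ofReal.tendsto _).comp t1).add
    (((Complex.continuous_ofReal.tendsto _).comp t2).mul_const _)

end FULL
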