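import Pool.Agent.Lib.MP_8a5982_an.FULL.Cell
import Pool.Agent.Lib.MP_8a5982_an.FULL.Wlim

/-!
Module CELQ of the project FULL: limits of the Toeplitz functions of the windows.
-/

open MeasureTheory ProbabilityTheory Filter Topology

namespace FULL

namespace CelqAux

/-- the indicator of an arc without the point `0` -/
noncomputable def ja (Q c : ℕ) (x : UnitAddCircle) : ℝ :=
  (STAR.Vars.arcz Q c).indicator (fun _ => (1 : ℝ)) x

/-- the indicator of the union of the arcs of `G` and their reflections -/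
noncomputable def chi (Q : ℕ) {D : ℕ} (c : Fin D → ℕ) (G : Finset (Fin D)) (x : UnitAddCircle) :
    ℝ := ∑ j ∈ G, (ja Q (c j) x + ja Q (c j) (-x))

/-- `∑_k |F_k|²` -/
noncomputable def Phi {n : ℕ} (a : Fin n → ℤ →₀ ℝ) (x : UnitAddCircle) : ℝ :=
  ∑ k, ‖HOST.rtrig (a k) x‖ ^ 2

theorem ja_nonneg (Q c : ℕ) (x : UnitAddCircle) : 0 ≤ ja Q c x :=
  Set.indicator_nonneg (fun _ _ => zero_le_one) x

theorem ja_of {Q c : ℕ} {x : UnitAddCircle} (h : x ∈ STAR.Vars.arcz Q c) : ja Q c x = 1 :=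
  Set.indicator_of_mem h _

theorem ja_not {Q c : ℕ} {x : UnitAddCircle} (h : x ∉ STAR.Vars.arcz Q c) : ja Q c x = 0 :=
  Set.indicator_of_notMem h _

theorem measurable_ja {Q c : ℕ} (hQ : 0 < Q) (half : 2 * (c + 1) ≤ Q) : Measurable (ja Q c) :=
  measurable_const.indicator (STAR.Vars.measurableSet_arcz hQ half)

theorem chi_nonneg (Q : ℕ) {D : ℕ} (c : Fin D → ℕ) (G : Finset (Fin D)) (x : UnitAddCircle) :
    0 ≤ chi Q c G x :=
  Finset.sum_nonneg fun _ _ => add_nonneg (ja_nonneg _ _ _) (ja_nonneg _ _ _)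

theorem measurable_chi {Q D : ℕ} (hQ : 0 < Q) (c : Fin D → ℕ) (half : ∀ j, 2 * (c j + 1) ≤ Q)
    (G : Finset (Fin D)) : Measurable (chi Q c G) := by
  unfold chi
  refine Finset.measurable_sum _ fun j _ => ?_
  exact (measurable_ja hQ (half j)).add ((measurable_ja hQ (half j)).comp measurable_neg)

theorem chi_le_one {Q D : ℕ} (hQ : 0 < Q) (c : Fin D → ℕ) (hc : Function.Injective c)
    (half : ∀ j, 2 * (c j + 1) ≤ Q) (G : Finset (Fin D)) (x : UnitAddCircle) :
    chi Q c G x ≤ 1 := by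
  classical
  let z : Fin D → ℂ := fun j => if j ∈ G then 1 else 0
  have hz : ∀ j, ‖z j‖ ≤ 1 := by
    intro j
    simp only [z]
    split_ifs <;> simp
  have h1 : ‖STAR.Vars.GG Q c z x‖ ^ 2 = chi Q c G x := by
    rw [STAR.Vars.norm_GG hQ c hc half z x]
    unfold chi
    rw [← Finset.sum_subset (Finset.subset_univ G)]
    · refine Finset.sum_congr rfl fun j hj => ?_
      have : z j = 1 := by simp only [z, if_pos hj]
      rw [this]
      simp only [norm_one, one_pow, one_mul, ja]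
    · intro j _ hj
      have : z j = 0 := by simp only [z, if_neg hj]
      rw [this]
      simp
  have h2 : ‖STAR.Vars.GG Q c z x‖ ≤ 1 := by
    by_cases h : ∃ j, x ∈ STAR.Vars.arcz Q (c j)
    · obtain ⟨j, hj⟩ := h
      rw [STAR.Vars.GG_pos hQ c hc half z hj]
      exact hz j
    · push Not at h
      by_cases h2 : ∃ j, -x ∈ STAR.Vars.arcz Q (c j)
      · obtain ⟨j, hj⟩ := h2
        rw [STAR.Vars.GG_neg hQ c hc half z hj, RCLike.norm_conj]
        exact hz j
      · push Not at h2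
        rw [STAR.Vars.GG_zero c z h h2]
        simp
  rw [← h1]
  exact pow_le_one₀ (norm_nonneg _) h2

theorem integral_ja (σ : Measure UnitAddCircle) [IsProbabilityMeasure σ] (hna : ∀ x, σ {x} = 0)
    {Q D : ℕ} (hQ : 0 < Q) (c : Fin D → ℕ) (half : ∀ j, 2 * (c j + 1) ≤ Q) (j : Fin D) :
    ∫ x, ja Q (c j) x ∂σ = mass σ Q c j := by
  unfold ja
  rw [integral_indicator_const _ (STAR.Vars.measurableSet_arcz hQ (half j))]
  have h : σ (STAR.Vars.arcz Q (c j)) = σ (STAR.arc Q (c j)) := measure_sdiff_null (hna 0)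
  rw [measureReal_def, h, smul_eq_mul, mul_one]
  rfl

theorem integral_ja_neg (σ : Measure UnitAddCircle) [IsProbabilityMeasure σ]
    (hsymm : σ.map (fun x => -x) = σ) (hna : ∀ x, σ {x} = 0)
    {Q D : ℕ} (hQ : 0 < Q) (c : Fin D → ℕ) (half : ∀ j, 2 * (c j + 1) ≤ Q) (j : Fin D) :
    ∫ x, ja Q (c j) (-x) ∂σ = mass σ Q c j := by
  have h := integral_ja σ hna hQ c half j
  rw [← h]
  conv_rhs => rw [← hsymm]
  rw [integral_map measurable_neg.aemeasurable
    (measurable_ja hQ (half j)).aestronglyMeasurable]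

theorem ja_le_one (Q c : ℕ) (x : UnitAddCircle) : ja Q c x ≤ 1 := by
  by_cases h : x ∈ STAR.Vars.arcz Q c
  · rw [ja_of h]
  · rw [ja_not h]
    exact zero_le_one

theorem integrable_ja (σ : Measure UnitAddCircle) [IsProbabilityMeasure σ] {Q c : ℕ} (hQ : 0 < Q)
    (half : 2 * (c + 1) ≤ Q) : Integrable (ja Q c) σ := by
  refine Integrable.of_bound (measurable_ja hQ half).aestronglyMeasurable 1
    (Eventually.of_forall fun x => ?_)
  rw [Real.norm_eq_abs, abs_of_nonneg (ja_nonneg _ _ _)]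
  exact ja_le_one _ _ _

theorem integrable_ja_neg (σ : Measure UnitAddCircle) [IsProbabilityMeasure σ] {Q c : ℕ}
    (hQ : 0 < Q) (half : 2 * (c + 1) ≤ Q) : Integrable (fun x => ja Q c (-x)) σ := by
  refine Integrable.of_bound
    ((measurable_ja hQ half).comp measurable_neg).aestronglyMeasurable 1
    (Eventually.of_forall fun x => ?_)
  rw [Real.norm_eq_abs, abs_of_nonneg (ja_nonneg _ _ _)]
  exact ja_le_one _ _ _

theorem dist_coe_le (r s : ℝ) : dist (r : UnitAddCircle) (s : UnitAddCircle) ≤ |r - s| := by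
  rw [dist_eq_norm, ← AddCircle.coe_sub, UnitAddCircle.norm_eq]
  have := round_le (r - s) 0
  simpa using this

theorem dist_arc {Q c : ℕ} (hQ : 0 < Q) (half : 2 * (c + 1) ≤ Q) {x : UnitAddCircle}
    (hx : x ∈ STAR.Vars.arcz Q c) :
    dist x ((((c : ℝ) / Q : ℝ)) : UnitAddCircle) ≤ 1 / Q := by
  have h := (STAR.Vars.mem_arc hQ half x).1 hx.1
  have h1 := dist_coe_le (STAR.Vars.rho x) ((c : ℝ) / Q)
  rw [STAR.Vars.coe_rho] at h1
  refine h1.trans ?_
  rw [abs_of_nonneg (by linarith [h.1])]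
  have h2 := h.2
  rw [add_div] at h2
  linarith

/-- Riemann sums over the cells -/
theorem approx (σ : Measure UnitAddCircle) [IsProbabilityMeasure σ]
    (hsymm : σ.map (fun x => -x) = σ) (hna : ∀ x, σ {x} = 0) (F : UnitAddCircle → ℂ)
    (hF : Continuous F) (ε : ℝ) (hε : 0 < ε) : ∃ Q₀ : ℕ, ∀ Q : ℕ, Q₀ ≤ Q → 0 < Q →
      ∀ (D : ℕ) (c : Fin D → ℕ), Function.Injective c → (∀ j, 2 * (c j + 1) ≤ Q) →
      ∀ G : Finset (Fin D),
      ‖(∫ x, F x * (chi Q c G x : ℂ) ∂σ) - ∑ j ∈ G, (mass σ Q c j : ℂ) *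
        (F ((((c j : ℝ) / Q : ℝ)) : UnitAddCircle) +
          F (-((((c j : ℝ) / Q : ℝ)) : UnitAddCircle)))‖ ≤ ε := by
  have hu := CompactSpace.uniformContinuous_of_continuous hF
  rw [Metric.uniformContinuous_iff] at hu
  obtain ⟨δ, hδ, hu⟩ := hu ε hε
  obtain ⟨Q₀, hQ₀⟩ := exists_nat_gt (1 / δ)
  refine ⟨Q₀, fun Q hQQ hQ D c hc half G => ?_⟩
  have hQ' : (0 : ℝ) < Q := by exact_mod_cast hQ
  have hlt : 1 / (Q : ℝ) < δ := by
    have h1 : (Q₀ : ℝ) ≤ Q := by exact_mod_cast hQQ
    rw [div_lt_iff₀ hQ']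
    rw [div_lt_iff₀ hδ] at hQ₀
    nlinarith
  obtain ⟨B, hB⟩ : ∃ B, ∀ x, ‖F x‖ ≤ B := by
    obtain ⟨B, hB⟩ := (isCompact_range hF).isBounded.exists_norm_le
    exact ⟨B, fun x => hB _ ⟨x, rfl⟩⟩
  let y : Fin D → UnitAddCircle := fun j => ((((c j : ℝ) / Q : ℝ)) : UnitAddCircle)
  let H : UnitAddCircle → ℂ := fun x => ∑ j ∈ G,
    (F (y j) * (ja Q (c j) x : ℂ) + F (-(y j)) * (ja Q (c j) (-x) : ℂ))
  have hHint : ∀ j ∈ G, Integrable (fun x => F (y j) * (ja Q (c j) x : ℂ) +
      F (-(y j)) * (ja Q (c j) (-x) : ℂ)) σ := by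
    intro j _
    exact ((integrable_ja σ hQ (half j)).ofReal.const_mul _).add
      ((integrable_ja_neg σ hQ (half j)).ofReal.const_mul _)
  have hH : ∫ x, H x ∂σ = ∑ j ∈ G, (mass σ Q c j : ℂ) * (F (y j) + F (-(y j))) := by
    simp only [H]
    rw [integral_finsetSum _ hHint]
    refine Finset.sum_congr rfl fun j _ => ?_
    rw [integral_add ((integrable_ja σ hQ (half j)).ofReal.const_mul _)
      ((integrable_ja_neg σ hQ (half j)).ofReal.const_mul _), integral_const_mul,
      integral_const_mul, integral_complex_ofReal, integral_complex_ofReal, integral_ja σ hna hQ c half j,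
      integral_ja_neg σ hsymm hna hQ c half j]
    ring
  have hFint : Integrable (fun x => F x * (chi Q c G x : ℂ)) σ := by
    refine Integrable.of_bound ?_ B (Eventually.of_forall fun x => ?_)
    · exact (hF.measurable.mul
        (Complex.measurable_ofReal.comp (measurable_chi hQ c half G))).aestronglyMeasurable
    · rw [norm_mul, Complex.norm_real, Real.norm_eq_abs, abs_of_nonneg (chi_nonneg _ _ _ _)]
      have hB0 : 0 ≤ B := (norm_nonneg _).trans (hB x)
      calc ‖F x‖ * chi Q c G x ≤ B * 1 :=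
            mul_le_mul (hB x) (chi_le_one hQ c hc half G x) (chi_nonneg _ _ _ _) hB0
        _ = B := mul_one _
  show ‖(∫ x, F x * (chi Q c G x : ℂ) ∂σ) - ∑ j ∈ G, (mass σ Q c j : ℂ) *
    (F (y j) + F (-(y j)))‖ ≤ ε
  rw [← hH, ← integral_sub hFint (integrable_finsetSum _ hHint)]
  have hpt : ∀ x, ‖F x * (chi Q c G x : ℂ) - H x‖ ≤ ε := by
    intro x
    have e : F x * (chi Q c G x : ℂ) - H x = ∑ j ∈ G,
        ((F x - F (y j)) * (ja Q (c j) x : ℂ) + (F x - F (-(y j))) * (ja Q (c j) (-x) : ℂ)) := by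
      simp only [H, chi]
      push_cast
      rw [Finset.mul_sum, ← Finset.sum_sub_distrib]
      refine Finset.sum_congr rfl fun j _ => by ring
    rw [e]
    calc _ ≤ ∑ j ∈ G, ε * (ja Q (c j) x + ja Q (c j) (-x)) := by
          refine (norm_sum_le _ _).trans (Finset.sum_le_sum fun j _ => ?_)
          refine (norm_add_le _ _).trans ?_
          rw [mul_add]
          refine add_le_add ?_ ?_
          · by_cases hx : x ∈ STAR.Vars.arcz Q (c j)
            · rw [ja_of hx, norm_mul, ← dist_eq_norm]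
              have := hu ((dist_arc hQ (half j) hx).trans_lt hlt)
              simpa using this.le
            · rw [ja_not hx]; simp
          · by_cases hx : -x ∈ STAR.Vars.arcz Q (c j)
            · rw [ja_of hx, norm_mul, ← dist_eq_norm]
              have h1 : dist x (-(y j)) < δ := by
                have h2 := (dist_arc hQ (half j) hx).trans_lt hlt
                have h3 : dist x (-(y j)) = dist (-x) (y j) := by
                  rw [dist_eq_norm, dist_eq_norm, ← norm_neg]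
                  congr 1
                  abel
                rw [h3]
                exact h2
              have := hu h1
              simpa using this.le
            · rw [ja_not hx]; simp
      _ = ε * chi Q c G x := by rw [← Finset.mul_sum]; rfl
      _ ≤ ε * 1 := mul_le_mul_of_nonneg_left (chi_le_one hQ c hc half G x) hε.le
      _ = ε := mul_one _
  have := norm_integral_le_of_norm_le_const (μ := σ) (Eventually.of_forall hpt)
  simpa using this

theorem continuous_rtrig (a : ℤ →₀ ℝ) : Continuous (HOST.rtrig a) := by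
  unfold HOST.rtrig Finsupp.sum
  exact continuous_finsetSum _ fun k _ => continuous_const.mul (fourier k).continuous

theorem continuous_Phi {n : ℕ} (a : Fin n → ℤ →₀ ℝ) : Continuous (Phi a) := by
  unfold Phi
  exact continuous_finsetSum _ fun k _ => ((continuous_rtrig (a k)).norm).pow 2

theorem Phi_nonneg {n : ℕ} (a : Fin n → ℤ →₀ ℝ) (x : UnitAddCircle) : 0 ≤ Phi a x :=
  Finset.sum_nonneg fun _ _ => by positivity

theorem Phi_neg {n : ℕ} (a : Fin n → ℤ →₀ ℝ) (x : UnitAddCircle) : Phi a (-x) = Phi a x := by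
  unfold Phi
  refine Finset.sum_congr rfl fun k _ => ?_
  rw [← STAR.Vars.conj_rtrig, RCLike.norm_conj]

theorem fourier_add_neg (t : ℤ) (r : ℝ) :
    (fourier t (r : UnitAddCircle) : ℂ) + (fourier t (-(r : UnitAddCircle)) : ℂ) =
      ((2 * Real.cos (2 * Real.pi * (t * r)) : ℝ) : ℂ) := by
  have e : (-(r : UnitAddCircle)) = (((-r : ℝ)) : UnitAddCircle) := by
    rw [AddCircle.coe_neg]
  rw [e, fourier_coe_apply, fourier_coe_apply]
  have h1 : Complex.exp (2 * Real.pi * Complex.I * t * r / (1 : ℝ)) =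
      Complex.exp (((2 * Real.pi * (t * r) : ℝ) : ℂ) * Complex.I) := by
    congr 1
    push_cast
    ring
  have h2 : Complex.exp (2 * Real.pi * Complex.I * t * ((-r : ℝ) : ℂ) / (1 : ℝ)) =
      Complex.exp (-(((2 * Real.pi * (t * r) : ℝ) : ℂ)) * Complex.I) := by
    congr 1
    push_cast
    ring
  rw [h1, h2]
  push_cast
  rw [Complex.cos]
  ring

end CelqAux

open CelqAux

theorem cell_limit (σ : Measure UnitAddCircle) [IsProbabilityMeasure σ]
    (hsymm : σ.map (fun x => -x) = σ) (hna : ∀ x, σ {x} = 0) {n : ℕ} (a : Fin n → ℤ →₀ ℝ)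
    (U : Ultrafilter ℕ) (Q : ℕ → ℕ) (hQ : Tendsto Q U atTop) (hQ0 : ∀ N, 0 < Q N)
    (D : ℕ → ℕ) (c : ∀ N, Fin (D N) → ℕ) (hc : ∀ N, Function.Injective (c N))
    (half : ∀ N j, 2 * (c N j + 1) ≤ Q N) (G : ∀ N, Finset (Fin (D N))) :
    ∃ (τ : Measure UnitAddCircle) (qq : ℤ → ℝ), IsFiniteMeasure τ ∧ τ ≪ σ ∧
      (∀ t : ℤ, ∫ x, (fourier t x : ℂ) ∂τ = (qq t : ℂ)) ∧
      ∀ t : ℤ, Tendsto (fun N => dot (restr (G N) (win σ a (Q N) (c N) t))
        (restr (G N) (win σ a (Q N) (c N) 0))) U (𝓝 (qq t)) := by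
  obtain ⟨τ, hfin, hac, hlim⟩ := weak_limit σ U
    (fun N x => Phi a x * chi (Q N) (c N) (G N) x)
    (fun N => (continuous_Phi a).measurable.mul (measurable_chi (hQ0 N) (c N) (half N) (G N)))
    (l1 a ^ 2) (fun N x => mul_nonneg (Phi_nonneg a x) (chi_nonneg _ _ _ _))
    (fun N x => by
      calc Phi a x * chi (Q N) (c N) (G N) x ≤ l1 a ^ 2 * 1 :=
            mul_le_mul (CellAux.norm_sq_le_l1 a fun _ => x)
              (chi_le_one (hQ0 N) (c N) (hc N) (half N) (G N) x) (chi_nonneg _ _ _ _)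
              (by positivity)
        _ = l1 a ^ 2 := mul_one _)
  let q : ℤ → ℕ → ℝ := fun t N => dot (restr (G N) (win σ a (Q N) (c N) t))
    (restr (G N) (win σ a (Q N) (c N) 0))
  have key : ∀ t : ℤ, Tendsto (fun N => ((q t N : ℝ) : ℂ)) U (𝓝 (∫ x, (fourier t x : ℂ) ∂τ)) := by
    intro t
    have hd : Tendsto (fun N => (∫ x, (fourier t x : ℂ) *
        ((Phi a x * chi (Q N) (c N) (G N) x : ℝ) : ℂ) ∂σ) - ((q t N : ℝ) : ℂ)) U (𝓝 0) := by
      rw [Metric.tendsto_nhds]
      intro ε hε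
      obtain ⟨Q₀, hQ₀⟩ := approx σ hsymm hna (fun x => (fourier t x : ℂ) * (Phi a x : ℂ))
        ((fourier t).continuous.mul (Complex.continuous_ofReal.comp (continuous_Phi a)))
        (ε / 2) (by positivity)
      filter_upwards [hQ.eventually_ge_atTop Q₀] with N hN
      have h := hQ₀ (Q N) hN (hQ0 N) (D N) (c N) (hc N) (half N) (G N)
      rw [dist_zero_right]
      have e1 : ∀ x, (fourier t x : ℂ) * ((Phi a x * chi (Q N) (c N) (G N) x : ℝ) : ℂ) =
          (fourier t x : ℂ) * (Phi a x : ℂ) * (chi (Q N) (c N) (G N) x : ℂ) := by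
        intro x
        push_cast
        ring
      have e2 : ((q t N : ℝ) : ℂ) = ∑ j ∈ G N, (mass σ (Q N) (c N) j : ℂ) *
          ((fourier t ((((c N j : ℝ) / Q N : ℝ)) : UnitAddCircle) : ℂ) *
              (Phi a ((((c N j : ℝ) / Q N : ℝ)) : UnitAddCircle) : ℂ) +
            (fourier t (-((((c N j : ℝ) / Q N : ℝ)) : UnitAddCircle)) : ℂ) *
              (Phi a (-((((c N j : ℝ) / Q N : ℝ)) : UnitAddCircle)) : ℂ)) := by
        simp only [q]
        rw [win_toeplitz σ a (Q N) (hQ0 N) (c N) (G N) t 0, Finset.sum_comm]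
        push_cast
        refine Finset.sum_congr rfl fun j _ => ?_
        rw [Phi_neg, ← add_mul, fourier_add_neg, ← Finset.sum_mul, ← Finset.mul_sum]
        have e3 : ((Phi a ((((c N j : ℝ) / Q N : ℝ)) : UnitAddCircle) : ℝ) : ℂ) =
            ∑ k, (‖HOST.rtrig (a k) ((((c N j : ℝ) / Q N : ℝ)) : UnitAddCircle)‖ : ℂ) ^ 2 := by
          unfold Phi
          push_cast
          rfl
        rw [e3]
        have e4 : (2 * Real.pi * (((t : ℝ) * ((c N j : ℝ) / Q N))) : ℝ) =
            2 * Real.pi * ((c N j : ℝ) * (t - 0) / Q N) := by ring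
        rw [e4]
        push_cast
        ring
      rw [integral_congr_ae (Eventually.of_forall e1), e2]
      exact lt_of_le_of_lt h (by linarith)
    have h := (hlim t).sub hd
    simpa using h
  have him : ∀ t : ℤ, (∫ x, (fourier t x : ℂ) ∂τ).im = 0 := by
    intro t
    have h := (Complex.continuous_im.tendsto _).comp (key t)
    have h0 : Tendsto (fun N : ℕ => (0 : ℝ)) (U : Filter ℕ) (𝓝 0) := tendsto_const_nhds
    refine tendsto_nhds_unique (h.congr fun N => ?_) h0
    show (((q t N : ℝ) : ℂ)).im = 0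
    exact Complex.ofReal_im _
  refine ⟨τ, fun t => (∫ x, (fourier t x : ℂ) ∂τ).re, hfin, hac, fun t => ?_, fun t => ?_⟩
  · apply Complex.ext
    · simp
    · rw [him t]; simp
  · have h := (Complex.continuous_re.tendsto _).comp (key t)
    exact h

end FULL
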