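import Pool.Agent.Lib.MP_8a5982_an.FULL.Defs
import Pool.Agent.Lib.MP_8a5982_an.STAR.Pars
import Pool.Agent.Lib.MP_8a5982_an.STAR.Vars

/-!
Project FULL (MP_8a5982_an): module CELL, the concrete windows (helper56).
-/

open MeasureTheory ProbabilityTheory

namespace FULL

namespace CellAux

theorem ee_symm (Q c t : ℕ) : STAR.ee Q c (t : ℤ) = STAR.ee Q t (c : ℤ) := by
  unfold STAR.ee
  rw [mul_comm (c : ℤ) (t : ℤ)]

theorem ee_mul_conj (Q c : ℕ) (t t' : ℤ) :
    (STAR.ee Q c t * (starRingEnd ℂ) (STAR.ee Q c t')).re =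
      Real.cos (2 * Real.pi * (c * (t - t') / Q)) := by
  have h : STAR.ee Q c t * (starRingEnd ℂ) (STAR.ee Q c t') =
      Complex.exp (((2 * Real.pi * (c * (t - t') / Q) : ℝ) : ℂ) * Complex.I) := by
    unfold STAR.ee
    rw [← Complex.exp_conj, ← Complex.exp_add]
    congr 1
    simp only [map_mul, map_div₀, Complex.conj_I, Complex.conj_ofReal, map_ofNat, map_natCast,
      map_intCast]
    push_cast
    ring
  rw [h, Complex.exp_ofReal_mul_I_re]

theorem sum_idx {n D : ℕ} (f : Fin n × (Fin D × Bool) → ℝ) :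
    ∑ i, f i = ∑ k, ∑ j, (f (k, (j, true)) + f (k, (j, false))) := by
  rw [Fintype.sum_prod_type]
  refine Finset.sum_congr rfl fun k _ => ?_
  rw [Fintype.sum_prod_type]
  refine Finset.sum_congr rfl fun j _ => ?_
  rw [Fintype.sum_bool]

theorem sum_ite_mem' {D : ℕ} (A : Finset (Fin D)) (f : Fin D → ℝ) :
    ∑ j, (if j ∈ A then f j else 0) = ∑ j ∈ A, f j := by
  rw [Finset.sum_ite_mem, Finset.univ_inter]

theorem norm_sq_le_l1 {n : ℕ} (a : Fin n → ℤ →₀ ℝ) (y : Fin n → UnitAddCircle) :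
    ∑ k, ‖HOST.rtrig (a k) (y k)‖ ^ 2 ≤ l1 a ^ 2 := by
  have h0 : ∀ k, 0 ≤ (a k).sum fun _ x => |x| := fun k => Finset.sum_nonneg fun _ _ => abs_nonneg _
  have h1 : ∀ k, ‖HOST.rtrig (a k) (y k)‖ ^ 2 ≤ ((a k).sum fun _ x => |x|) * l1 a := by
    intro k
    have h2 := STAR.Vars.norm_rtrig_le (a k) (y k)
    have h3 : ((a k).sum fun _ x => |x|) ≤ l1 a :=
      Finset.single_le_sum (f := fun k => (a k).sum fun _ x => |x|) (fun i _ => h0 i)
        (Finset.mem_univ k)
    calc ‖HOST.rtrig (a k) (y k)‖ ^ 2 ≤ ((a k).sum fun _ x => |x|) ^ 2 := by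
          gcongr
      _ = ((a k).sum fun _ x => |x|) * ((a k).sum fun _ x => |x|) := by ring
      _ ≤ _ := mul_le_mul_of_nonneg_left h3 (h0 k)
  calc ∑ k, ‖HOST.rtrig (a k) (y k)‖ ^ 2 ≤ ∑ k, ((a k).sum fun _ x => |x|) * l1 a :=
        Finset.sum_le_sum fun k _ => h1 k
    _ = l1 a ^ 2 := by
        rw [← Finset.sum_mul]
        unfold l1
        ring

end CellAux

open CellAux

section cells

variable (σ : Measure UnitAddCircle) [IsProbabilityMeasure σ] {n : ℕ} (a : Fin n → ℤ →₀ ℝ)
  (Q : ℕ) (hQ : 0 < Q) {D : ℕ} (c : Fin D → ℕ) (hc : Function.Injective c)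
  (half : ∀ j, 2 * (c j + 1) ≤ Q)

omit [IsProbabilityMeasure σ] in
theorem restr_notMem (A : Finset (Fin D)) (u : Fin n × (Fin D × Bool) → ℝ)
    (i : Fin n × (Fin D × Bool)) (hi : i ∉ coords n A) : restr A u i = 0 := by
  unfold restr
  rw [if_neg]
  intro h
  apply hi
  simp [coords, h]

omit [IsProbabilityMeasure σ] in
theorem mass_nonneg (j : Fin D) : 0 ≤ mass σ Q c j := ENNReal.toReal_nonneg

include hQ in
theorem win_toeplitz (A : Finset (Fin D)) (t t' : ℤ) :
    dot (restr A (win σ a Q c t)) (restr A (win σ a Q c t')) =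
      ∑ k, ∑ j ∈ A, 2 * mass σ Q c j *
        ‖HOST.rtrig (a k) ((((c j : ℝ) / Q : ℝ)) : UnitAddCircle)‖ ^ 2 *
          Real.cos (2 * Real.pi * (c j * (t - t') / Q)) := by
  unfold dot
  rw [sum_idx]
  refine Finset.sum_congr rfl fun k _ => ?_
  conv_rhs => rw [← sum_ite_mem']
  refine Finset.sum_congr rfl fun j _ => ?_
  by_cases hj : j ∈ A
  · simp only [restr, win, hj, if_true, if_false, Bool.false_eq_true]
    have h1 : Real.sqrt (2 * mass σ Q c j) * Real.sqrt (2 * mass σ Q c j) = 2 * mass σ Q c j :=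
      Real.mul_self_sqrt (by have := mass_nonneg σ Q c j; linarith)
    have h2 : (samp a Q c t k j).re * (samp a Q c t' k j).re +
        (samp a Q c t k j).im * (samp a Q c t' k j).im =
        ‖HOST.rtrig (a k) ((((c j : ℝ) / Q : ℝ)) : UnitAddCircle)‖ ^ 2 *
          Real.cos (2 * Real.pi * (c j * (t - t') / Q)) := by
      have e : (samp a Q c t k j).re * (samp a Q c t' k j).re +
        (samp a Q c t k j).im * (samp a Q c t' k j).im =
          (samp a Q c t k j * (starRingEnd ℂ) (samp a Q c t' k j)).re := by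
        rw [Complex.mul_re, Complex.conj_re, Complex.conj_im]
        ring
      rw [e, ← ee_mul_conj]
      unfold samp
      rw [map_mul]
      have e2 : HOST.rtrig (a k) ((((c j : ℝ) / Q : ℝ)) : UnitAddCircle) * STAR.ee Q (c j) t *
          ((starRingEnd ℂ) (HOST.rtrig (a k) ((((c j : ℝ) / Q : ℝ)) : UnitAddCircle)) *
            (starRingEnd ℂ) (STAR.ee Q (c j) t')) =
          ((‖HOST.rtrig (a k) ((((c j : ℝ) / Q : ℝ)) : UnitAddCircle)‖ ^ 2 : ℝ) : ℂ) *
            (STAR.ee Q (c j) t * (starRingEnd ℂ) (STAR.ee Q (c j) t')) := by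
        rw [Complex.ofReal_pow, ← Complex.mul_conj']
        ring
      rw [e2, Complex.re_ofReal_mul]
    calc _ = (Real.sqrt (2 * mass σ Q c j) * Real.sqrt (2 * mass σ Q c j)) *
          ((samp a Q c t k j).re * (samp a Q c t' k j).re +
        (samp a Q c t k j).im * (samp a Q c t' k j).im) := by ring
      _ = _ := by rw [h1, h2]; ring
  · simp [restr, hj]

theorem nsq_eq_dot {ι : Type} [Fintype ι] (u : ι → ℝ) : nsq u = dot u u := by
  unfold nsq dot
  refine Finset.sum_congr rfl fun i _ => by ring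

include hQ hc half in
theorem win_parseval (A : Finset (Fin D)) (pm : ℝ) (hpm0 : 0 ≤ pm)
    (hpm : ∀ j ∈ A, mass σ Q c j ≤ pm) (W : ℕ) (hW : W ≤ Q) (b : ℕ → ℝ) :
    nsq (∑ t ∈ Finset.range W, b t • restr A (win σ a Q c (t : ℤ))) ≤
      (2 * pm * l1 a ^ 2 * Q) * ∑ t ∈ Finset.range W, b t ^ 2 := by
  let Z : Fin D → ℂ := fun j => ∑ t ∈ Finset.range W, (b t : ℂ) * STAR.ee Q (c j) (t : ℤ)
  let F : Fin n → Fin D → ℂ := fun k j => HOST.rtrig (a k) ((((c j : ℝ) / Q : ℝ)) : UnitAddCircle)
  -- the exact formula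
  have hval : ∀ (k : Fin n) (j : Fin D) (β : Bool),
      (∑ t ∈ Finset.range W, b t • restr A (win σ a Q c (t : ℤ))) (k, (j, β)) =
        if j ∈ A then Real.sqrt (2 * mass σ Q c j) *
          (if β then -(F k j * Z j).im else (F k j * Z j).re) else 0 := by
    intro k j β
    rw [Finset.sum_apply]
    by_cases hj : j ∈ A
    · simp only [Pi.smul_apply, restr, win, hj, if_true, smul_eq_mul]
      have h1 : F k j * Z j = ∑ t ∈ Finset.range W, (b t : ℂ) * samp a Q c (t : ℤ) k j := by
        simp only [Z, F, samp]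
        rw [Finset.mul_sum]
        refine Finset.sum_congr rfl fun t _ => by ring
      rw [h1, Complex.im_sum, Complex.re_sum]
      cases β
      · simp only [Bool.false_eq_true, if_false]
        rw [Finset.mul_sum]
        refine Finset.sum_congr rfl fun t _ => ?_
        rw [Complex.re_ofReal_mul]
        ring
      · simp only [if_true]
        rw [← Finset.sum_neg_distrib, Finset.mul_sum]
        refine Finset.sum_congr rfl fun t _ => ?_
        rw [Complex.im_ofReal_mul]
        ring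
    · simp [restr, hj]
  have hn : nsq (∑ t ∈ Finset.range W, b t • restr A (win σ a Q c (t : ℤ))) =
      ∑ k, ∑ j ∈ A, 2 * mass σ Q c j * (‖F k j‖ ^ 2 * ‖Z j‖ ^ 2) := by
    unfold nsq
    rw [sum_idx]
    refine Finset.sum_congr rfl fun k _ => ?_
    conv_rhs => rw [← sum_ite_mem']
    refine Finset.sum_congr rfl fun j _ => ?_
    rw [hval, hval]
    by_cases hj : j ∈ A
    · simp only [hj, if_true, Bool.false_eq_true, if_false]
      have h1 : Real.sqrt (2 * mass σ Q c j) ^ 2 = 2 * mass σ Q c j :=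
        Real.sq_sqrt (by have := mass_nonneg σ Q c j; linarith)
      rw [← mul_pow ‖F k j‖, ← norm_mul, ← Complex.normSq_eq_norm_sq, Complex.normSq_apply,
        mul_pow, mul_pow, h1]
      ring
    · simp [hj]
  rw [hn]
  -- Parseval
  have hlt : ∀ j, c j < Q := fun j => by have := half j; omega
  have hpars : ∑ j ∈ A, ‖Z j‖ ^ 2 ≤ Q * ∑ t ∈ Finset.range W, b t ^ 2 := by
    let ρ : ℕ → ℂ := fun t => if t < W then (b t : ℂ) else 0
    have hinj : ∀ i ∈ A, ∀ i' ∈ A, (Q : ℤ) ∣ (c i : ℤ) - (c i' : ℤ) → i = i' := by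
      intro i _ i' _ hd
      apply hc
      have h1 := hlt i
      have h2 := hlt i'
      have h3 : (c i : ℤ) - (c i' : ℤ) = 0 := by
        apply Int.eq_zero_of_abs_lt_dvd hd
        rw [abs_lt]
        constructor <;> omega
      omega
    have h := STAR.parseval_le Q hQ ρ A (fun j => (c j : ℤ)) hinj
    have e1 : ∀ j, ∑ t ∈ Finset.range Q, ρ t * STAR.ee Q t (c j : ℤ) = Z j := by
      intro j
      simp only [Z]
      rw [← Finset.sum_subset (Finset.range_mono hW)]
      · refine Finset.sum_congr rfl fun t ht => ?_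
        rw [ee_symm]
        simp only [ρ, if_pos (Finset.mem_range.1 ht)]
      · intro t _ ht
        simp only [ρ, if_neg (fun h => ht (Finset.mem_range.2 h)), zero_mul]
    have e2 : ∑ t ∈ Finset.range Q, ‖ρ t‖ ^ 2 = ∑ t ∈ Finset.range W, b t ^ 2 := by
      rw [← Finset.sum_subset (Finset.range_mono hW)]
      · refine Finset.sum_congr rfl fun t ht => ?_
        simp only [ρ, if_pos (Finset.mem_range.1 ht)]
        rw [Complex.norm_real, Real.norm_eq_abs, sq_abs]
      · intro t _ ht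
        simp only [ρ, if_neg (fun h => ht (Finset.mem_range.2 h))]
        simp
    simp only [e1, e2] at h
    exact h
  rw [Finset.sum_comm]
  calc ∑ j ∈ A, ∑ k, 2 * mass σ Q c j * (‖F k j‖ ^ 2 * ‖Z j‖ ^ 2)
      = ∑ j ∈ A, (2 * mass σ Q c j * ∑ k, ‖F k j‖ ^ 2) * ‖Z j‖ ^ 2 := by
        refine Finset.sum_congr rfl fun j _ => ?_
        rw [Finset.mul_sum, Finset.sum_mul]
        refine Finset.sum_congr rfl fun k _ => by ring
    _ ≤ ∑ j ∈ A, (2 * pm * l1 a ^ 2) * ‖Z j‖ ^ 2 := by
        refine Finset.sum_le_sum fun j hj => ?_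
        have h1 := norm_sq_le_l1 a (fun _ => ((((c j : ℝ) / Q : ℝ)) : UnitAddCircle))
        have h2 := hpm j hj
        have h3 := mass_nonneg σ Q c j
        refine mul_le_mul_of_nonneg_right ?_ (by positivity)
        refine mul_le_mul (by linarith) h1 (Finset.sum_nonneg fun _ _ => by positivity)
          (by linarith)
    _ = (2 * pm * l1 a ^ 2) * ∑ j ∈ A, ‖Z j‖ ^ 2 := by rw [Finset.mul_sum]
    _ ≤ (2 * pm * l1 a ^ 2) * (Q * ∑ t ∈ Finset.range W, b t ^ 2) := by
        refine mul_le_mul_of_nonneg_left hpars (by positivity)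
    _ = _ := by ring

include hQ hc half in
theorem mass_sum_le (hsymm : σ.map (fun x => -x) = σ) (hna : ∀ x, σ {x} = 0) :
    ∑ j, 2 * mass σ Q c j ≤ 1 := by
  classical
  have hm : ∀ j, MeasurableSet (STAR.Vars.arcz Q (c j)) := fun j =>
    STAR.Vars.measurableSet_arcz hQ (half j)
  have hneg : MeasurePreserving (fun x : UnitAddCircle => -x) σ σ := ⟨by fun_prop, hsymm⟩
  let B : Fin D × Bool → Set UnitAddCircle := fun i =>
    if i.2 then (fun x => -x) ⁻¹' (STAR.Vars.arcz Q (c i.1)) else STAR.Vars.arcz Q (c i.1)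
  have hB : ∀ i, MeasurableSet (B i) := by
    rintro ⟨j, β⟩
    cases β
    · exact hm j
    · exact (hm j).preimage measurable_neg
  have hd : Pairwise (Function.onFun Disjoint B) := by
    rintro ⟨j, β⟩ ⟨j', β'⟩ hne
    rw [Function.onFun, Set.disjoint_left]
    intro x hx hx'
    cases β <;> cases β'
    · apply hne
      have := STAR.Vars.arcz_inj hQ (half j) (half j') (show x ∈ _ from hx) (show x ∈ _ from hx')
      rw [hc this]
    · exact STAR.Vars.arcz_neg hQ (half j) (half j') (show x ∈ _ from hx) hx'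
    · exact STAR.Vars.arcz_neg hQ (half j') (half j) (show x ∈ _ from hx') hx
    · apply hne
      have := STAR.Vars.arcz_inj hQ (half j) (half j') (show -x ∈ _ from hx)
        (show -x ∈ _ from hx')
      rw [hc this]
  have hμ : ∀ i, σ (B i) = σ (STAR.arc Q (c i.1)) := by
    have h1 : ∀ j, σ (STAR.Vars.arcz Q (c j)) = σ (STAR.arc Q (c j)) := by
      intro j
      exact measure_sdiff_null (hna 0)
    rintro ⟨j, β⟩
    cases β
    · exact h1 j
    · show σ ((fun x => -x) ⁻¹' (STAR.Vars.arcz Q (c j))) = _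
      rw [hneg.measure_preimage (hm j).nullMeasurableSet]
      exact h1 j
  have h1 : ∑ i, σ (B i) ≤ 1 := by
    have h2 := measure_iUnion hd hB (μ := σ)
    rw [tsum_fintype] at h2
    rw [← h2]
    exact prob_le_one
  have h2 : ∑ i : Fin D × Bool, (σ (STAR.arc Q (c i.1))).toReal ≤ 1 := by
    rw [← ENNReal.toReal_sum (fun i _ => measure_ne_top _ _)]
    have h3 : ∑ i : Fin D × Bool, σ (STAR.arc Q (c i.1)) ≤ 1 := by
      simpa only [hμ] using h1
    have := ENNReal.toReal_mono ENNReal.one_ne_top h3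
    simpa using this
  rw [Fintype.sum_prod_type] at h2
  simp only [Fintype.sum_bool] at h2
  unfold mass
  refine le_trans (le_of_eq ?_) h2
  refine Finset.sum_congr rfl fun j _ => by ring

include hQ in
theorem nsq_restr_win (A : Finset (Fin D)) (t : ℤ) :
    nsq (restr A (win σ a Q c t)) = vA σ a Q c A := by
  unfold vA
  rw [nsq_eq_dot, nsq_eq_dot, win_toeplitz σ a Q hQ c A t t, win_toeplitz σ a Q hQ c A 0 0]
  simp

include hQ in
theorem vA_le (A : Finset (Fin D)) :
    vA σ a Q c A ≤ l1 a ^ 2 * ∑ j ∈ A, 2 * mass σ Q c j := by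
  unfold vA
  rw [nsq_eq_dot, win_toeplitz σ a Q hQ c A 0 0, Finset.sum_comm, Finset.mul_sum]
  refine Finset.sum_le_sum fun j _ => ?_
  have h1 := norm_sq_le_l1 a (fun _ => ((((c j : ℝ) / Q : ℝ)) : UnitAddCircle))
  have h3 := mass_nonneg σ Q c j
  calc ∑ k, 2 * mass σ Q c j *
        ‖HOST.rtrig (a k) ((((c j : ℝ) / Q : ℝ)) : UnitAddCircle)‖ ^ 2 *
          Real.cos (2 * Real.pi * (c j * (((0 : ℤ) : ℝ) - ((0 : ℤ) : ℝ)) / Q))
      = (∑ k, ‖HOST.rtrig (a k) ((((c j : ℝ) / Q : ℝ)) : UnitAddCircle)‖ ^ 2) *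
          (2 * mass σ Q c j) := by
        rw [Finset.sum_mul]
        refine Finset.sum_congr rfl fun k _ => ?_
        simp
        ring
    _ ≤ l1 a ^ 2 * (2 * mass σ Q c j) := mul_le_mul_of_nonneg_right h1 (by linarith)

omit [IsProbabilityMeasure σ] in
theorem vA_union (A G : Finset (Fin D)) (h : Disjoint A G) :
    vA σ a Q c (A ∪ G) = vA σ a Q c A + vA σ a Q c G := by
  unfold vA nsq
  rw [← Finset.sum_add_distrib]
  refine Finset.sum_congr rfl fun i _ => ?_
  unfold restr
  by_cases h1 : i.2.1 ∈ A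
  · have h2 : i.2.1 ∉ G := Finset.disjoint_left.1 h h1
    simp [h1, h2]
  · by_cases h2 : i.2.1 ∈ G
    · simp [h1, h2]
    · simp [h1, h2]

omit [IsProbabilityMeasure σ] in
theorem restr_union (A G : Finset (Fin D)) (h : Disjoint A G)
    (u : Fin n × (Fin D × Bool) → ℝ) : restr (A ∪ G) u = restr A u + restr G u := by
  funext i
  rw [Pi.add_apply]
  unfold restr
  by_cases h1 : i.2.1 ∈ A
  · have h2 : i.2.1 ∉ G := Finset.disjoint_left.1 h h1
    simp [h1, h2]
  · by_cases h2 : i.2.1 ∈ G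
    · simp [h1, h2]
    · simp [h1, h2]

omit [IsProbabilityMeasure σ] in
theorem card_coords (A : Finset (Fin D)) : (coords n A).card = 2 * n * A.card := by
  unfold coords
  rw [Finset.card_product, Finset.card_product, Finset.card_univ, Finset.card_univ,
    Fintype.card_fin, Fintype.card_bool]
  ring

omit [IsProbabilityMeasure σ] in
theorem sum_wt (A G : Finset (Fin D)) (h : Disjoint A G) (s : NNReal) :
    ∑ i, (wt (coords n A) (coords n G) s i : ℝ) = 2 * n * (A.card + s * G.card) := by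
  have h1 : ∀ i, (wt (coords n A) (coords n G) s i : ℝ) =
      (if i ∈ coords n A then (1 : ℝ) else 0) + (if i ∈ coords n G then (s : ℝ) else 0) := by
    intro i
    unfold wt onG
    by_cases hG : i ∈ coords n G
    · have hA : i ∉ coords n A := by
        intro hA
        simp only [coords, Finset.mem_product, Finset.mem_univ, true_and, and_true] at hA hG
        exact Finset.disjoint_left.1 h hA hG
      simp [hG, hA]
    · by_cases hA : i ∈ coords n A
      · simp [hG, hA]
      · simp [hG, hA]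
  rw [Finset.sum_congr rfl fun i _ => h1 i, Finset.sum_add_distrib, Finset.sum_ite_mem,
    Finset.sum_ite_mem, Finset.univ_inter, Finset.univ_inter, Finset.sum_const, Finset.sum_const,
    card_coords, card_coords]
  simp only [nsmul_eq_mul]
  push_cast
  ring

end cells

end FULL
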