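import Pool.Agent.Lib.MP_8a5982_an.FULL.Imm1
import Pool.Agent.Lib.MP_8a5982_an.FULL.Post2
import Pool.Agent.Lib.MP_8a5982_an.FULL.Mom

/-!
Project FULL, module IMM2: the averaged bound for the posterior covariances.
-/

open MeasureTheory ProbabilityTheory Filter Topology

namespace FULL

set_option linter.unusedSectionVars false
set_option linter.style.haveILetI false

namespace Imm2

variable {ι : Type} [Fintype ι] [DecidableEq ι] {P : Measure (ι → ℝ)} {C : ℝ}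

/-- fourth power of a sum -/
lemma sum_pow_four_le {β : Type*} (s : Finset β) (f : β → ℝ) :
    (∑ i ∈ s, f i) ^ 4 ≤ (s.card : ℝ) ^ 3 * ∑ i ∈ s, f i ^ 4 := by
  have h1 : (∑ i ∈ s, f i) ^ 2 ≤ s.card * ∑ i ∈ s, f i ^ 2 := sq_sum_le_card_mul_sum_sq
  have h2 : (∑ i ∈ s, f i ^ 2) ^ 2 ≤ s.card * ∑ i ∈ s, (f i ^ 2) ^ 2 := sq_sum_le_card_mul_sum_sq
  have h0 : 0 ≤ (∑ i ∈ s, f i) ^ 2 := sq_nonneg _
  have hc : (0 : ℝ) ≤ s.card := Nat.cast_nonneg _
  calc (∑ i ∈ s, f i) ^ 4 = ((∑ i ∈ s, f i) ^ 2) ^ 2 := by ring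
    _ ≤ (s.card * ∑ i ∈ s, f i ^ 2) ^ 2 := pow_le_pow_left₀ h0 h1 2
    _ = (s.card : ℝ) ^ 2 * (∑ i ∈ s, f i ^ 2) ^ 2 := by ring
    _ ≤ (s.card : ℝ) ^ 2 * (s.card * ∑ i ∈ s, (f i ^ 2) ^ 2) :=
        mul_le_mul_of_nonneg_left h2 (by positivity)
    _ = (s.card : ℝ) ^ 3 * ∑ i ∈ s, f i ^ 4 := by
        have : ∑ i ∈ s, (f i ^ 2) ^ 2 = ∑ i ∈ s, f i ^ 4 :=
          Finset.sum_congr rfl fun i _ => by ring
        rw [this]; ring

lemma addw_onG (w : ι → NNReal) (G : Finset ι) (s₀ : NNReal) (m r : ℕ) :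
    addw (onG w G (lev s₀ m r)) G (s₀ / m) = onG w G (lev s₀ m (r + 1)) := by
  funext i
  unfold addw onG lev
  by_cases hi : i ∈ G
  · simp only [hi, if_true]
    push_cast
    rw [div_eq_mul_inv, div_eq_mul_inv, div_eq_mul_inv]
    ring
  · simp only [hi, if_false]

/-- `∫ (u x)^2 ≤ 4 e^C |u|²` -/
lemma second_le (hP : ExpM P C) (u : ι → ℝ) :
    ∫ x, |dot u x| ^ 2 ∂P ≤ 4 * Real.exp C * nsq u := by
  have h := hP.moment u 1
  have e : ∫ x, |dot u x| ^ 2 ∂P = ∫ x, dot u x ^ (2 * 1) ∂P := by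
    refine integral_congr_ae (Eventually.of_forall fun x => ?_)
    simp only [mul_one, sq_abs]
  rw [e]
  refine h.trans (le_of_eq ?_)
  norm_num [Nat.factorial]

/-- `V(w) ≤ 4 e^C |u|²` -/
lemma post_sq_le (hP : ExpM P C) (w : ι → NNReal) (u : ι → ℝ) :
    ∫ p, post P w (dot u) p.2 ^ 2 ∂(nu P w) ≤ 4 * Real.exp C * nsq u := by
  have h := post_pow_le hP w (hP.gd_dot u) 2 (by norm_num)
  have e : ∫ p, post P w (dot u) p.2 ^ 2 ∂(nu P w) =
      ∫ p, |post P w (dot u) p.2| ^ 2 ∂(nu P w) := by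
    refine integral_congr_ae (Eventually.of_forall fun x => ?_)
    simp only [sq_abs]
  rw [e]
  exact h.trans (second_le hP u)

lemma four_le (hP : ExpM P C) (w : ι → NNReal) (u : ι → ℝ) :
    ∫ p, cov P w (dot u) (dot u) p.2 ^ 2 ∂(nu P w) ≤ 48 * Real.exp C * nsq u ^ 2 := by
  haveI := hP.prob
  haveI := isProbability_nu (P := P) w
  have hd := hP.gd_dot u
  have hd2 : Gd P (fun x => dot u x ^ 2) := hd.pow 2
  have h1 : ∫ p, cov P w (dot u) (dot u) p.2 ^ 2 ∂(nu P w) ≤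
      ∫ p, |post P w (fun x => dot u x ^ 2) p.2| ^ 2 ∂(nu P w) := by
    refine integral_mono ((gd_cov hP w hd hd).pow 2).integrable
      (((gd_post hP w hd2).abs).pow 2).integrable fun p => ?_
    have a := cov_self_nonneg hP w hd p.2
    have b := cov_self_le hP w hd p.2
    exact pow_le_pow_left₀ a (b.trans (le_abs_self _)) 2
  have h2 := post_pow_le hP w hd2 2 (by norm_num)
  have h3 : ∫ x, |dot u x ^ 2| ^ 2 ∂P = ∫ x, dot u x ^ (2 * 2) ∂P := by
    refine integral_congr_ae (Eventually.of_forall fun x => ?_)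
    simp only [sq_abs]
    ring
  have h4 := hP.moment u 2
  rw [h3] at h2
  refine (h1.trans (h2.trans h4)).trans (le_of_eq ?_)
  norm_num [Nat.factorial]

lemma gd_tau (hP : ExpM P C) (w : ι → NNReal) (G : Finset ι) :
    Gd (nu P w) (fun p => ∑ i ∈ G, cov P w (crd i) (crd i) p.2) := by
  haveI := hP.prob
  haveI := isProbability_nu (P := P) w
  refine Gd.sum G (fun i (p : (ι → ℝ) × (ι → ℝ)) => cov P w (crd i) (crd i) p.2) ?_
  intro i _
  exact gd_cov hP w (hP.gd_crd i) (hP.gd_crd i)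

lemma gd_covsum (hP : ExpM P C) (w : ι → NNReal) (G : Finset ι) (u : ι → ℝ) :
    Gd (nu P w) (fun p => ∑ i ∈ G, cov P w (crd i) (dot u) p.2 ^ 2) := by
  haveI := hP.prob
  haveI := isProbability_nu (P := P) w
  refine Gd.sum G (fun i (p : (ι → ℝ) × (ι → ℝ)) => cov P w (crd i) (dot u) p.2 ^ 2) ?_
  intro i _
  exact (gd_cov hP w (hP.gd_crd i) (hP.gd_dot u)).pow 2

lemma gd_postsum (hP : ExpM P C) (w : ι → NNReal) (G : Finset ι) :
    Gd (nu P w) (fun p => ∑ i ∈ G, |post P w (fun x => crd i x ^ 2) p.2| ^ 4) := by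
  haveI := hP.prob
  haveI := isProbability_nu (P := P) w
  refine Gd.sum G (fun i (p : (ι → ℝ) × (ι → ℝ)) =>
    |post P w (fun x => crd i x ^ 2) p.2| ^ 4) ?_
  intro i _
  have h : Gd P (fun x => crd i x ^ 2) := (hP.gd_crd i).pow 2
  exact ((gd_post hP w h).abs).pow 4

/-- the trace of the posterior covariance on `G` has a bounded fourth moment -/
lemma tau_le (hP : ExpM P C) (w : ι → NNReal) (G : Finset ι) :
    ∫ p, (∑ i ∈ G, cov P w (crd i) (crd i) p.2) ^ 4 ∂(nu P w) ≤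
      (G.card : ℝ) ^ 4 * (2 * (Nat.factorial 8) * Real.exp C) := by
  haveI := hP.prob
  haveI := isProbability_nu (P := P) w
  have hc : ∀ i, Gd P (crd i) := fun i => hP.gd_crd i
  have hc2 : ∀ i, Gd P (fun x => crd i x ^ 2) := fun i => (hc i).pow 2
  have h1 : ∫ p, (∑ i ∈ G, cov P w (crd i) (crd i) p.2) ^ 4 ∂(nu P w) ≤
      ∫ p, (G.card : ℝ) ^ 3 * ∑ i ∈ G, |post P w (fun x => crd i x ^ 2) p.2| ^ 4 ∂(nu P w) := by
    refine integral_mono ((gd_tau hP w G).pow 4).integrable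
      ((gd_postsum hP w G).const_mul _).integrable fun p => ?_
    refine (sum_pow_four_le G _).trans ?_
    refine mul_le_mul_of_nonneg_left ?_ (by positivity)
    refine Finset.sum_le_sum fun i _ => ?_
    exact pow_le_pow_left₀ (cov_self_nonneg hP w (hc i) p.2)
      ((cov_self_le hP w (hc i) p.2).trans (le_abs_self _)) 4
  refine h1.trans ?_
  rw [integral_const_mul, integral_finsetSum]
  swap
  · intro i _
    exact (((gd_post hP w (hc2 i)).abs).pow 4).integrable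
  have h2 : ∀ i ∈ G, ∫ p, |post P w (fun x => crd i x ^ 2) p.2| ^ 4 ∂(nu P w) ≤
      2 * (Nat.factorial 8) * Real.exp C := by
    intro i _
    have a := post_pow_le hP w (hc2 i) 4 (by norm_num)
    have b := hP.moment (Pi.single i (1 : ℝ)) 4
    have e : ∫ x, |crd i x ^ 2| ^ 4 ∂P = ∫ x, dot (Pi.single i (1 : ℝ)) x ^ (2 * 4) ∂P := by
      refine integral_congr_ae (Eventually.of_forall fun x => ?_)
      simp only [dot_crd]
      rw [abs_of_nonneg (sq_nonneg _)]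
      ring
    have n1 : nsq (Pi.single i (1 : ℝ)) = 1 := by
      rw [← dot_self, dot_crd, crd, Pi.single_eq_same]
    rw [e] at a
    refine a.trans (b.trans (le_of_eq ?_))
    rw [n1]
    norm_num
  calc (G.card : ℝ) ^ 3 * ∑ i ∈ G, ∫ p, |post P w (fun x => crd i x ^ 2) p.2| ^ 4 ∂(nu P w)
      ≤ (G.card : ℝ) ^ 3 * ∑ i ∈ G, (2 * (Nat.factorial 8) * Real.exp C) :=
        mul_le_mul_of_nonneg_left (Finset.sum_le_sum h2) (by positivity)
    _ = (G.card : ℝ) ^ 4 * (2 * (Nat.factorial 8) * Real.exp C) := by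
        rw [Finset.sum_const, nsmul_eq_mul]; ring

/-- the constant of the tail -/
noncomputable def KT (G : Finset ι) (C : ℝ) : ℝ :=
  Real.sqrt (((G.card : ℝ) ^ 4 * (2 * (Nat.factorial 8) * Real.exp C)) * (48 * Real.exp C))

/-- splitting at the level `ρ` -/
lemma split_le (hP : ExpM P C) (w : ι → NNReal) (G : Finset ι) (u : ι → ℝ) (ρ : ℝ) (hρ : 0 < ρ) :
    ∑ i ∈ G, ∫ p, cov P w (crd i) (dot u) p.2 ^ 2 ∂(nu P w) ≤
      (∫ p, (if ∑ i ∈ G, cov P w (crd i) (crd i) p.2 ≤ ρ then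
        ∑ i ∈ G, cov P w (crd i) (dot u) p.2 ^ 2 else 0) ∂(nu P w)) +
        ρ⁻¹ * (KT G C * nsq u) := by
  haveI := hP.prob
  haveI := isProbability_nu (P := P) w
  have hd := hP.gd_dot u
  have hc : ∀ i, Gd P (crd i) := fun i => hP.gd_crd i
  have hS : Gd (nu P w) (fun p => ∑ i ∈ G, cov P w (crd i) (dot u) p.2 ^ 2) := gd_covsum hP w G u
  have hT : Gd (nu P w) (fun p => ∑ i ∈ G, cov P w (crd i) (crd i) p.2) := gd_tau hP w G
  have hU : Gd (nu P w) (fun p => cov P w (dot u) (dot u) p.2) := gd_cov hP w hd hd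
  have hI : Gd (nu P w) (fun p => if ∑ i ∈ G, cov P w (crd i) (crd i) p.2 ≤ ρ then
        ∑ i ∈ G, cov P w (crd i) (dot u) p.2 ^ 2 else 0) := by
    refine hS.mono (Measurable.ite (measurableSet_le hT.meas measurable_const) hS.meas
      measurable_const) fun p => ?_
    split_ifs
    · exact le_rfl
    · rw [abs_zero]; exact abs_nonneg _
  have hTU : Gd (nu P w) (fun p => (∑ i ∈ G, cov P w (crd i) (crd i) p.2) ^ 2 *
      cov P w (dot u) (dot u) p.2) := (hT.pow 2).mul hU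
  have e1 : ∑ i ∈ G, ∫ p, cov P w (crd i) (dot u) p.2 ^ 2 ∂(nu P w) =
      ∫ p, ∑ i ∈ G, cov P w (crd i) (dot u) p.2 ^ 2 ∂(nu P w) := by
    rw [integral_finsetSum]
    intro i _
    exact ((gd_cov hP w (hc i) hd).pow 2).integrable
  have h1 : ∫ p, ∑ i ∈ G, cov P w (crd i) (dot u) p.2 ^ 2 ∂(nu P w) ≤
      ∫ p, ((if ∑ i ∈ G, cov P w (crd i) (crd i) p.2 ≤ ρ then
        ∑ i ∈ G, cov P w (crd i) (dot u) p.2 ^ 2 else 0) +
        ρ⁻¹ * ((∑ i ∈ G, cov P w (crd i) (crd i) p.2) ^ 2 *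
          cov P w (dot u) (dot u) p.2)) ∂(nu P w) := by
    refine integral_mono hS.integrable (hI.add (hTU.const_mul _)).integrable fun p => ?_
    have hU0 := cov_self_nonneg hP w hd p.2
    have hT0 : 0 ≤ ∑ i ∈ G, cov P w (crd i) (crd i) p.2 :=
      Finset.sum_nonneg fun i _ => cov_self_nonneg hP w (hc i) p.2
    have hST : ∑ i ∈ G, cov P w (crd i) (dot u) p.2 ^ 2 ≤
        (∑ i ∈ G, cov P w (crd i) (crd i) p.2) * cov P w (dot u) (dot u) p.2 := by
      rw [Finset.sum_mul]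
      exact Finset.sum_le_sum fun i _ => cov_sq_le hP w (hc i) hd p.2
    simp only
    split_ifs with hle
    · have : 0 ≤ ρ⁻¹ * ((∑ i ∈ G, cov P w (crd i) (crd i) p.2) ^ 2 *
          cov P w (dot u) (dot u) p.2) := by positivity
      linarith
    · push Not at hle
      rw [zero_add]
      refine hST.trans ?_
      have h2 : 1 ≤ ρ⁻¹ * ∑ i ∈ G, cov P w (crd i) (crd i) p.2 := by
        rw [inv_mul_eq_div, le_div_iff₀ hρ]; linarith
      have h3 : 0 ≤ (∑ i ∈ G, cov P w (crd i) (crd i) p.2) * cov P w (dot u) (dot u) p.2 :=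
        mul_nonneg hT0 hU0
      calc (∑ i ∈ G, cov P w (crd i) (crd i) p.2) * cov P w (dot u) (dot u) p.2
          = 1 * ((∑ i ∈ G, cov P w (crd i) (crd i) p.2) * cov P w (dot u) (dot u) p.2) := by ring
        _ ≤ (ρ⁻¹ * ∑ i ∈ G, cov P w (crd i) (crd i) p.2) *
            ((∑ i ∈ G, cov P w (crd i) (crd i) p.2) * cov P w (dot u) (dot u) p.2) :=
            mul_le_mul_of_nonneg_right h2 h3
        _ = _ := by ring
  rw [e1]
  refine h1.trans ?_
  rw [integral_add hI.integrable (hTU.const_mul _).integrable, integral_const_mul]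
  refine add_le_add le_rfl (mul_le_mul_of_nonneg_left ?_ (inv_nonneg.2 hρ.le))
  -- Cauchy-Schwarz
  have hcs := Gd.cs (hT.pow 2) hU
  have h4 : ∫ p, ((∑ i ∈ G, cov P w (crd i) (crd i) p.2) ^ 2) ^ 2 ∂(nu P w) ≤
      (G.card : ℝ) ^ 4 * (2 * (Nat.factorial 8) * Real.exp C) := by
    refine (le_of_eq ?_).trans (tau_le hP w G)
    refine integral_congr_ae (Eventually.of_forall fun p => ?_)
    simp only
    ring
  have h5 := four_le hP w u
  have hn := nsq_nonneg u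
  have h6 : (∫ p, (∑ i ∈ G, cov P w (crd i) (crd i) p.2) ^ 2 *
      cov P w (dot u) (dot u) p.2 ∂(nu P w)) ^ 2 ≤ (KT G C * nsq u) ^ 2 := by
    refine hcs.trans ((mul_le_mul h4 h5 (integral_nonneg fun p => sq_nonneg _)
      (by positivity)).trans (le_of_eq ?_))
    rw [mul_pow, KT, Real.sq_sqrt (by positivity)]
    ring
  exact abs_le_of_sq_le_sq' h6 (mul_nonneg (Real.sqrt_nonneg _) hn) |>.2

end Imm2

open Imm2 in
theorem imm_avg {ι : Type} [Fintype ι] [DecidableEq ι] {P : Measure (ι → ℝ)} {C : ℝ}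
    (hP : ExpM P C) (w : ι → NNReal) (G : Finset ι) (s₀ : NNReal) (hs : 0 < s₀) :
    ∃ m₀ : ℕ, ∀ m : ℕ, m₀ ≤ m → 0 < m → ∀ u : ι → ℝ,
      (1 / (m : ℝ)) * ∑ r ∈ Finset.range m, ∑ i ∈ G,
        ∫ p, cov P (onG w G (lev s₀ m r)) (crd i) (dot u) p.2 ^ 2
          ∂(nu P (onG w G (lev s₀ m r))) ≤ cImm C s₀ * nsq u := by
  haveI := hP.prob
  have hs' : (0 : ℝ) < s₀ := hs
  have hK0 : 0 ≤ KT G C := Real.sqrt_nonneg _
  obtain ⟨m₀, hm₀⟩ := exists_nat_ge (max ((s₀ : ℝ) ^ 2) (KT G C ^ 2))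
  refine ⟨m₀, fun m hm hm0 u => ?_⟩
  have hm0' : (0 : ℝ) < m := by exact_mod_cast hm0
  have hmm : (m₀ : ℝ) ≤ m := by exact_mod_cast hm
  set ρ : ℝ := Real.sqrt m with hρdef
  have hρ : 0 < ρ := Real.sqrt_pos.2 hm0'
  have hρ2 : ρ * ρ = m := Real.mul_self_sqrt hm0'.le
  have hsρ : (s₀ : ℝ) ≤ ρ := by
    apply Real.le_sqrt_of_sq_le
    exact (le_max_left _ _).trans (hm₀.trans hmm)
  have hKρ : KT G C ≤ ρ := by
    apply Real.le_sqrt_of_sq_le
    exact (le_max_right _ _).trans (hm₀.trans hmm)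
  have hn := nsq_nonneg u
  set V : ℕ → ℝ := fun r => ∫ p, post P (onG w G (lev s₀ m r)) (dot u) p.2 ^ 2
    ∂(nu P (onG w G (lev s₀ m r))) with hV
  set I : ℕ → ℝ := fun r => ∫ p, (if ∑ i ∈ G, cov P (onG w G (lev s₀ m r)) (crd i) (crd i) p.2 ≤ ρ
    then ∑ i ∈ G, cov P (onG w G (lev s₀ m r)) (crd i) (dot u) p.2 ^ 2 else 0)
    ∂(nu P (onG w G (lev s₀ m r))) with hI
  set h : NNReal := s₀ / m with hh
  have hhr : (h : ℝ) = s₀ / m := by rw [hh]; push_cast; rfl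
  have hh0 : (0 : ℝ) < h := by rw [hhr]; positivity
  have hhρ : (h : ℝ) * ρ ≤ 1 := by
    rw [hhr, div_mul_eq_mul_div, div_le_one hm0', ← hρ2]
    exact mul_le_mul_of_nonneg_right hsρ hρ.le
  have step : ∀ r, (h : ℝ) / 2 * I r ≤ V (r + 1) - V r := by
    intro r
    have h1 := imm_step hP (onG w G (lev s₀ m r)) G h ρ hρ u
    rw [addw_onG] at h1
    have hI0 : 0 ≤ I r := by
      refine integral_nonneg fun p => ?_
      simp only [Pi.zero_apply]
      split_ifs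
      · exact Finset.sum_nonneg fun i _ => sq_nonneg _
      · exact le_rfl
    have h2 : (h : ℝ) / 2 ≤ h / (1 + h * ρ) := by
      apply div_le_div_of_nonneg_left hh0.le (by positivity)
      linarith
    have h3 := mul_le_mul_of_nonneg_right h2 hI0
    have h4 : V r + h / (1 + h * ρ) * I r ≤ V (r + 1) := h1
    linarith
  have tele : (h : ℝ) / 2 * ∑ r ∈ Finset.range m, I r ≤ 4 * Real.exp C * nsq u := by
    rw [Finset.mul_sum]
    refine (Finset.sum_le_sum fun r _ => step r).trans ?_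
    rw [Finset.sum_range_sub]
    have h1 : V m ≤ 4 * Real.exp C * nsq u := post_sq_le hP _ u
    have h0 : 0 ≤ V 0 := integral_nonneg fun p => sq_nonneg _
    linarith
  have hsum : ∑ r ∈ Finset.range m, ∑ i ∈ G,
        ∫ p, cov P (onG w G (lev s₀ m r)) (crd i) (dot u) p.2 ^ 2
          ∂(nu P (onG w G (lev s₀ m r))) ≤ ∑ r ∈ Finset.range m, (I r + nsq u) := by
    refine Finset.sum_le_sum fun r _ => (split_le hP _ G u ρ hρ).trans ?_
    refine add_le_add le_rfl ?_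
    rw [← mul_assoc]
    have : ρ⁻¹ * KT G C ≤ 1 := by
      rw [inv_mul_eq_div, div_le_one hρ]; exact hKρ
    calc ρ⁻¹ * KT G C * nsq u ≤ 1 * nsq u := mul_le_mul_of_nonneg_right this hn
      _ = nsq u := one_mul _
  rw [Finset.sum_add_distrib, Finset.sum_const, Finset.card_range, nsmul_eq_mul] at hsum
  have hIle : ∑ r ∈ Finset.range m, I r ≤ 8 * Real.exp C * nsq u * m / s₀ := by
    rw [hhr] at tele
    rw [le_div_iff₀ hs']
    have h1 : (s₀ : ℝ) / m / 2 * ∑ r ∈ Finset.range m, I r * (2 * m) =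
        s₀ * ∑ r ∈ Finset.range m, I r := by
      rw [← Finset.sum_mul]
      field_simp
    have h2 := mul_le_mul_of_nonneg_right tele (by positivity : (0 : ℝ) ≤ 2 * m)
    rw [mul_assoc, Finset.sum_mul, h1] at h2
    linarith
  rw [one_div, inv_mul_le_iff₀ hm0']
  refine hsum.trans ?_
  have h7 : cImm C s₀ * nsq u = 8 * Real.exp C / s₀ * nsq u + nsq u := by
    unfold cImm; ring
  rw [h7]
  have h8 : (m : ℝ) * (8 * Real.exp C / s₀ * nsq u + nsq u) =
      8 * Real.exp C * nsq u * m / s₀ + m * nsq u := by ring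
  rw [h8]
  linarith

end FULL
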