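import Pool.Agent.Lib.MP_8a5982_an.FULL.Gdc
import Pool.Agent.Lib.MP_8a5982_an.FULL.Mom
import Pool.Agent.Lib.MP_8a5982_an.FULL.Adm
import Pool.Agent.Lib.MP_8a5982_an.FULL.Imm2
import Pool.Agent.Lib.MP_8a5982_an.FULL.Cell

/-!
Project FULL: module WSC (helper44): the window system of two sets of cells.
-/

open MeasureTheory ProbabilityTheory Filter Topology

namespace FULL

namespace WscAux

theorem disjoint_coords (n : ℕ) {D : ℕ} {A G : Finset (Fin D)} (h : Disjoint A G) :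
    Disjoint (coords n A) (coords n G) := by
  rw [Finset.disjoint_left]
  intro i hi hi'
  simp only [coords, Finset.mem_product, Finset.mem_univ, true_and, and_true] at hi hi'
  exact (Finset.disjoint_left.1 h) hi hi'

end WscAux

theorem exists_isWin (σ : Measure UnitAddCircle) [IsProbabilityMeasure σ]
    (hsymm : σ.map (fun x => -x) = σ) (hna : ∀ x, σ {x} = 0) {n : ℕ}
    (a : Fin n → ℤ →₀ ℝ) (C₀ : ℝ) (hC₀ : l1 a ^ 2 ≤ C₀) (hn : (n : ℝ) ^ 2 ≤ C₀)
    (s₀ : NNReal) (hs₀ : 0 < s₀) (Q : ℕ) (hQ : 0 < Q) (D : ℕ) (c : Fin D → ℕ)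
    (hc : Function.Injective c) (half : ∀ j, 2 * (c j + 1) ≤ Q)
    (P : Measure (Fin n × (Fin D × Bool) → ℝ)) (hP : Adm n P) (A G : Finset (Fin D))
    (hAG : Disjoint A G) (W : ℕ) (hW : 0 < W) :
    ∃ m : ℕ, IsWin C₀ s₀ (cellWin σ a Q c P A G W m) := by
  classical
  have hE : ExpM P C₀ := (Adm.expM hP).mono hn
  obtain ⟨m₀, hm₀⟩ := imm_avg hE (fun i => if i ∈ coords n A then 1 else 0) (coords n G) s₀ hs₀
  have hmass0 : ∀ j, 0 ≤ mass σ Q c j := fun j => ENNReal.toReal_nonneg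
  have hv : ∀ B : Finset (Fin D), vA σ a Q c B ≤ C₀ := by
    intro B
    have h1 : ∑ j ∈ B, 2 * mass σ Q c j ≤ 1 := by
      refine (Finset.sum_le_sum_of_subset_of_nonneg (Finset.subset_univ B) ?_).trans
        (mass_sum_le σ Q hQ c hc half hsymm hna)
      intro j _ _
      exact mul_nonneg (by norm_num) (hmass0 j)
    have h2 : 0 ≤ ∑ j ∈ B, 2 * mass σ Q c j :=
      Finset.sum_nonneg fun j _ => mul_nonneg (by norm_num) (hmass0 j)
    calc vA σ a Q c B ≤ l1 a ^ 2 * ∑ j ∈ B, 2 * mass σ Q c j := vA_le σ a Q hQ c B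
      _ ≤ l1 a ^ 2 * 1 := mul_le_mul_of_nonneg_left h1 (sq_nonneg _)
      _ ≤ C₀ := by rw [mul_one]; exact hC₀
  refine ⟨max m₀ 1, ?_⟩
  refine
    { hP := hE
      disj := WscAux.disjoint_coords n hAG
      ha := fun t i hi => restr_notMem A _ i hi
      hl := fun t i hi => restr_notMem G _ i hi
      ha2 := ?_
      hq := ?_
      hq0 := ?_
      hW := hW
      hm := lt_of_lt_of_le Nat.zero_lt_one (le_max_right _ _)
      imm := ?_ }
  · intro t
    have h := nsq_restr_win σ a Q hQ c A t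
    change nsq (restr A (win σ a Q c t)) ≤ C₀
    rw [h]
    exact hv A
  · intro t t'
    change dot (restr G (win σ a Q c t)) (restr G (win σ a Q c t')) =
      dot (restr G (win σ a Q c (t - t'))) (restr G (win σ a Q c 0))
    rw [win_toeplitz σ a Q hQ c G t t', win_toeplitz σ a Q hQ c G (t - t') 0]
    push_cast
    simp only [sub_zero]
  · change dot (restr G (win σ a Q c 0)) (restr G (win σ a Q c 0)) ≤ C₀
    rw [dot_self, nsq_restr_win σ a Q hQ c G 0]
    exact hv G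
  · intro u
    exact hm₀ (max m₀ 1) (le_max_left _ _) (lt_of_lt_of_le Nat.zero_lt_one (le_max_right _ _)) u

end FULL
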