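import Pool.Agent.Lib.MP_8a5982_an.FULL.Tcw
import Pool.Agent.Lib.MP_8a5982_an.FULL.Celq
import Pool.Agent.Lib.MP_8a5982_an.FULL.Wsc

/-!
Project FULL: module TCC (helper72), the uniform statement for the cells.
-/

open MeasureTheory ProbabilityTheory Filter Topology

namespace FULL

theorem cell_tc (σ : Measure UnitAddCircle) [IsProbabilityMeasure σ]
    (hsymm : σ.map (fun x => -x) = σ) (hna : ∀ x, σ {x} = 0)
    (hsing : σ ⟂ₘ (volume : Measure UnitAddCircle)) {n : ℕ} (a : Fin n → ℤ →₀ ℝ) (C₀ : ℝ)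
    (hC₀ : l1 a ^ 2 ≤ C₀) (hn : (n : ℝ) ^ 2 ≤ C₀) (s₀ : NNReal) (hs₀ : 0 < s₀) (η : ℝ)
    (hη : 0 < η) (ε : ℝ) (hε : 0 < ε) :
    ∃ Q₀ : ℕ, ∀ Q : ℕ, Q₀ ≤ Q → ∀ (D : ℕ) (c : Fin D → ℕ), Function.Injective c →
      (∀ j, 2 * (c j + 1) ≤ Q) → ∀ P : Measure (Fin n × (Fin D × Bool) → ℝ), Adm n P →
      ∀ A G : Finset (Fin D), Disjoint A G →
      ∃ m : ℕ, IsWin C₀ s₀ (cellWin σ a Q c P A G ⌊η * Q⌋₊ m) ∧
        ∀ c' θ : ℝ, 0 ≤ θ → θ ≤ c' → c' ≤ 1 →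
          |(cellWin σ a Q c P A G ⌊η * Q⌋₊ m).Gam s₀ c' θ 0 0 0| ≤ ε := by
  by_contra hcon
  push Not at hcon
  choose Q hQge D c hc half P hP A G hAG hbad using fun N : ℕ => hcon (N + ⌈1 / η⌉₊ + 1)
  have hQ0 : ∀ N, 0 < Q N := fun N => by have := hQge N; omega
  have hWpos : ∀ N, 0 < ⌊η * (Q N : ℝ)⌋₊ := by
    intro N
    rw [Nat.floor_pos]
    have h1 : (1 / η : ℝ) ≤ (⌈1 / η⌉₊ : ℝ) := Nat.le_ceil _
    have h2 : ((⌈1 / η⌉₊ : ℕ) : ℝ) ≤ (Q N : ℝ) := by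
      have := hQge N
      exact_mod_cast (by omega : ⌈1 / η⌉₊ ≤ Q N)
    have h3 : (1 / η : ℝ) ≤ (Q N : ℝ) := h1.trans h2
    rw [div_le_iff₀ hη] at h3
    linarith
  choose m hm using fun N : ℕ => exists_isWin σ hsymm hna a C₀ hC₀ hn s₀ hs₀ (Q N) (hQ0 N) (D N)
    (c N) (hc N) (half N) (P N) (hP N) (A N) (G N) (hAG N) ⌊η * (Q N : ℝ)⌋₊ (hWpos N)
  choose c' θ hθ hθc hc1 hlarge using fun N : ℕ => hbad N (m N) (hm N)
  have hUtop : ((Filter.hyperfilter ℕ : Ultrafilter ℕ) : Filter ℕ) ≤ atTop := by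
    rw [← Nat.cofinite_eq_atTop]
    exact Filter.hyperfilter_le_cofinite
  have hQt : Tendsto Q (Filter.hyperfilter ℕ : Ultrafilter ℕ) atTop :=
    (tendsto_atTop_mono (fun N => by have := hQge N; show N ≤ Q N; omega) tendsto_id).mono_left hUtop
  have hWt : Tendsto (fun N => ⌊η * (Q N : ℝ)⌋₊) (Filter.hyperfilter ℕ : Ultrafilter ℕ) atTop :=
    tendsto_nat_floor_atTop.comp
      ((tendsto_natCast_atTop_atTop.comp hQt).const_mul_atTop hη)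
  obtain ⟨τ, qq, hτf, hτσ, hqτ, hqq⟩ := cell_limit σ hsymm hna a (Filter.hyperfilter ℕ) Q hQt hQ0
    D c hc half G
  have hlim := tc_win C₀ s₀ hs₀ (Filter.hyperfilter ℕ) (fun N => Fin n × (Fin (D N) × Bool))
    (fun N => cellWin σ a (Q N) (c N) (P N) (A N) (G N) ⌊η * (Q N : ℝ)⌋₊ (m N)) hm hWt c' θ hθ hθc
    hc1 τ (fun x => hτσ (hna x)) (hsing.mono_ac hτσ Measure.AbsolutelyContinuous.rfl) qq hqq hqτ
  have hev := (Metric.tendsto_nhds.1 hlim ε hε).exists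
  obtain ⟨N, hN⟩ := hev
  rw [Real.dist_eq, sub_zero] at hN
  exact absurd (hlarge N) (not_lt.2 hN.le)

end FULL
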