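import Pool.Agent.Lib.MP_8a5982_an.FULL.Csm
import Pool.Agent.Lib.MP_8a5982_an.FULL.Cluster
import Pool.Agent.Lib.MP_8a5982_an.FULL.Tcc

/-!
Project FULL: module CCL (helper24): clusters of cells.
-/

open MeasureTheory ProbabilityTheory Filter Topology

namespace FULL

theorem lev_le (s₀ : NNReal) (m r : ℕ) (hr : r < m) : (lev s₀ m r : ℝ) ≤ 2 * s₀ := by
  have hm : (0 : ℝ) < m := by exact_mod_cast lt_of_le_of_lt (Nat.zero_le _) hr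
  have h1 : (r : ℝ) / m ≤ 1 := by
    rw [div_le_one hm]; exact_mod_cast hr.le
  have h2 : (lev s₀ m r : ℝ) = s₀ * (1 + (r : ℝ) / m) := by simp [lev]
  rw [h2]
  have : (0 : ℝ) ≤ s₀ := s₀.2
  nlinarith

/-- clusters -/
theorem cell_cluster (σ : Measure UnitAddCircle) [IsProbabilityMeasure σ]
    (hsymm : σ.map (fun x => -x) = σ) (hna : ∀ x, σ {x} = 0)
    (hsing : σ ⟂ₘ (volume : Measure UnitAddCircle)) {n : ℕ} (a : Fin n → ℤ →₀ ℝ)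
    (η : ℝ) (hη : 0 < η) (hη1 : η ≤ 1) (ε : ℝ) (hε : 0 < ε) :
    ∃ J₀ : ℕ, 0 < J₀ ∧ ∀ L : ℕ, ∃ Q₀ : ℕ, ∀ (Q : ℕ), Q₀ ≤ Q → ∀ (D : ℕ) (c : Fin D → ℕ),
      Function.Injective c → (∀ j, 2 * (c j + 1) ≤ Q) →
      ∀ P : Measure (Fin n × (Fin D × Bool) → ℝ), Adm n P → ∀ A G : Finset (Fin D),
      Disjoint A G → (∀ i ∈ A, ∀ j ∈ G, (2 : ℝ) ^ J₀ * mass σ Q c j ≤ 2 * mass σ Q c i) →
      (∀ i ∈ A, 0 < mass σ Q c i) → (∀ j ∈ G, 0 < mass σ Q c j) →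
      (∀ i ∈ G, ∀ j ∈ G, mass σ Q c j ≤ 2 * 2 ^ L * mass σ Q c i) →
      |SS σ a Q c P ⌊η * Q⌋₊ (A ∪ G) - Real.exp (vA σ a Q c G / 2) *
          SS σ a Q c P ⌊η * Q⌋₊ A| ≤ ε := by
  set C₀ : ℝ := l1 a ^ 2 + (n : ℝ) ^ 2 with hC₀
  have hC1 : l1 a ^ 2 ≤ C₀ := by rw [hC₀]; nlinarith [sq_nonneg (n : ℝ)]
  have hC2 : (n : ℝ) ^ 2 ≤ C₀ := by rw [hC₀]; nlinarith [sq_nonneg (l1 a)]
  obtain ⟨K₁, hK₁, hinfo⟩ := cell_info a C₀ hC1
  obtain ⟨K₂, hK₂, hcluster⟩ := cluster_block C₀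
  set ρ : ℝ := 1 + 4 * K₁ * K₂ ^ 2 / ε ^ 2 with hρ
  have hρ1 : 1 ≤ ρ := by
    rw [hρ]
    have : 0 ≤ 4 * K₁ * K₂ ^ 2 / ε ^ 2 := by positivity
    linarith
  have hρ0 : 0 < ρ := by linarith
  have hδ : K₂ * Real.sqrt (K₁ / ρ) ≤ ε / 2 := by
    have h1 : Real.sqrt (K₂ ^ 2 * (K₁ / ρ)) ≤ ε / 2 := by
      rw [Real.sqrt_le_left (by positivity)]
      rw [← mul_div_assoc, div_le_iff₀ hρ0, hρ]
      have : (ε / 2) ^ 2 * (1 + 4 * K₁ * K₂ ^ 2 / ε ^ 2) = ε ^ 2 / 4 + K₁ * K₂ ^ 2 := by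
        field_simp
        norm_num
      rw [this]
      nlinarith [sq_nonneg ε]
    rwa [Real.sqrt_mul (by positivity), Real.sqrt_sq hK₂] at h1
  set X₀ : ℝ := 8 * n * l1 a ^ 2 / η with hX₀
  have hX₀n : 0 ≤ X₀ := by positivity
  obtain ⟨J₀, hJ₀⟩ := pow_unbounded_of_one_lt (2 * X₀ * ρ ^ 4) (one_lt_two (α := ℝ))
  refine ⟨J₀ + 1, Nat.succ_pos _, fun L => ?_⟩
  set s₀r : ℝ := 1 / (4 * ρ ^ 4 * (X₀ + 1) * 2 ^ L) with hs₀r
  have hs₀rpos : 0 < s₀r := by positivity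
  set s₀ : NNReal := ⟨s₀r, hs₀rpos.le⟩ with hs₀
  have hs₀pos : 0 < s₀ := hs₀rpos
  have hs₀v : (s₀ : ℝ) = s₀r := rfl
  obtain ⟨Q₁, hQ₁⟩ := cell_tc σ hsymm hna hsing a C₀ hC1 hC2 s₀ hs₀pos η hη (ε / (2 * (K₂ + 1)))
    (by positivity)
  refine ⟨max Q₁ (⌈1 / η⌉₊ + 1), ?_⟩
  intro Q hQQ D c hc half P hP A G hAG hsep hposA hposG hflat
  have hQ1 : Q₁ ≤ Q := le_trans (le_max_left _ _) hQQ
  have hQ2 : ⌈1 / η⌉₊ + 1 ≤ Q := le_trans (le_max_right _ _) hQQ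
  have hQ0 : 0 < Q := by omega
  have hQ : 1 ≤ η * Q := by
    have h1 : 1 / η ≤ (Q : ℝ) := by
      refine le_trans (Nat.le_ceil _) ?_
      exact_mod_cast (by omega : ⌈1 / η⌉₊ ≤ Q)
    rw [div_le_iff₀ hη] at h1
    linarith
  set W : ℕ := ⌊η * Q⌋₊ with hWdef
  have hW : 0 < W := Nat.floor_pos.2 hQ
  have hmass : ∑ j, 2 * mass σ Q c j ≤ 1 := mass_sum_le σ Q hQ0 c hc half hsymm hna
  have hm0 : ∀ j, 0 ≤ mass σ Q c j := fun j => ENNReal.toReal_nonneg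
  have hvle : ∀ A : Finset (Fin D), vA σ a Q c A ≤ C₀ := by
    intro A
    refine (vA_le σ a Q hQ0 c A).trans (le_trans ?_ hC1)
    have : ∑ j ∈ A, 2 * mass σ Q c j ≤ 1 :=
      (Finset.sum_le_sum_of_subset_of_nonneg (Finset.subset_univ A)
        (fun j _ _ => mul_nonneg two_pos.le (hm0 j))).trans hmass
    nlinarith [sq_nonneg (l1 a)]
  obtain ⟨pm, hpm0, hpm, hpmA, hpmG⟩ := exists_pm σ Q c hmass A G (J₀ + 1) hsep
  have hGpm : pm * G.card ≤ 2 ^ L := by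
    rcases G.eq_empty_or_nonempty with h | h
    · rw [h]; simp
    · obtain ⟨j₀, hj₀, hj⟩ := hpmG h
      have h1 : ∑ i ∈ G, pm ≤ ∑ i ∈ G, 2 * 2 ^ L * mass σ Q c i :=
        Finset.sum_le_sum fun i hi => by rw [hj]; exact hflat i hi j₀ hj₀
      have h2 : ∑ i ∈ G, 2 * mass σ Q c i ≤ 1 :=
        (Finset.sum_le_sum_of_subset_of_nonneg (Finset.subset_univ G)
          (fun j _ _ => mul_nonneg two_pos.le (hm0 j))).trans hmass
      have h3 : ∑ i ∈ G, 2 * 2 ^ L * mass σ Q c i = 2 ^ L * ∑ i ∈ G, 2 * mass σ Q c i := by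
        rw [Finset.mul_sum]; exact Finset.sum_congr rfl fun _ _ => by ring
      rw [Finset.sum_const, nsmul_eq_mul, h3] at h1
      have h4 : (2 : ℝ) ^ L * ∑ i ∈ G, 2 * mass σ Q c i ≤ 2 ^ L * 1 :=
        mul_le_mul_of_nonneg_left h2 (by positivity)
      linarith
  obtain ⟨m, hwin, htc⟩ := hQ₁ Q hQ1 D c hc half P hP A G hAG
  have hDD : ∀ r < m,
      D1 P (wt (coords n A) (coords n G) (lev s₀ m r)) (fun t => restr G (win σ a Q c t)) W ≤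
          K₁ / ρ ∧
        D2 P (wt (coords n A) (coords n G) (lev s₀ m r)) (fun t => restr G (win σ a Q c t)) W
          (vA σ a Q c G) ≤ K₁ / ρ := by
    intro r hr
    refine hinfo σ inferInstance hsymm hna η hη hη1 Q hQ D c hc half P hP A G hAG pm
      hpm0 hpm (lev s₀ m r) ρ hρ1 ?_
    have hlev := lev_le s₀ m r hr
    have hlev0 : (0 : ℝ) ≤ lev s₀ m r := (lev s₀ m r).2
    have hG0 : (0 : ℝ) ≤ pm * G.card := by positivity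
    have h1 : pm * (A.card + (lev s₀ m r : ℝ) * G.card) ≤ 1 / 2 ^ (J₀ + 1) + 2 * s₀r * 2 ^ L := by
      have e : pm * (A.card + (lev s₀ m r : ℝ) * G.card) =
          pm * A.card + (lev s₀ m r : ℝ) * (pm * G.card) := by ring
      rw [e]
      have h2 : (lev s₀ m r : ℝ) * (pm * G.card) ≤ (2 * s₀r) * 2 ^ L :=
        mul_le_mul (by rw [← hs₀v]; exact hlev) hGpm hG0 (by positivity)
      linarith
    have h2 : X₀ * (1 / 2 ^ (J₀ + 1)) ≤ 1 / (2 * ρ ^ 4) := by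
      rw [mul_one_div, div_le_div_iff₀ (by positivity) (by positivity), one_mul]
      have h3 : (2 : ℝ) ^ J₀ ≤ 2 ^ (J₀ + 1) := pow_le_pow_right₀ (by norm_num) (Nat.le_succ _)
      have : X₀ * (2 * ρ ^ 4) = 2 * X₀ * ρ ^ 4 := by ring
      linarith
    have h3 : X₀ * (2 * s₀r * 2 ^ L) ≤ 1 / (2 * ρ ^ 4) := by
      have e : X₀ * (2 * s₀r * 2 ^ L) = (1 / (2 * ρ ^ 4)) * (X₀ / (X₀ + 1)) := by
        rw [hs₀r]; field_simp; norm_num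
      rw [e]
      have : X₀ / (X₀ + 1) ≤ 1 := by rw [div_le_one (by linarith)]; linarith
      have h4 : 0 ≤ 1 / (2 * ρ ^ 4) := by positivity
      nlinarith
    calc X₀ * (pm * (A.card + (lev s₀ m r : ℝ) * G.card)) ≤
        X₀ * (1 / 2 ^ (J₀ + 1) + 2 * s₀r * 2 ^ L) := mul_le_mul_of_nonneg_left h1 hX₀n
      _ = X₀ * (1 / 2 ^ (J₀ + 1)) + X₀ * (2 * s₀r * 2 ^ L) := by ring
      _ ≤ 1 / (2 * ρ ^ 4) + 1 / (2 * ρ ^ 4) := by linarith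
      _ = 1 / ρ ^ 4 := by field_simp; norm_num
  have hq0 : (cellWin σ a Q c P A G W m).q 0 = vA σ a Q c G := by
    change dot (restr G (win σ a Q c 0)) (restr G (win σ a Q c 0)) = _
    rw [dot_self]; rfl
  have h := hcluster s₀ hs₀pos (Fin n × (Fin D × Bool)) (cellWin σ a Q c P A G W m) hwin
    (fun t => by
      change nsq (restr A (win σ a Q c t)) = nsq (restr A (win σ a Q c 0))
      rw [nsq_restr_win σ a Q hQ0 c A t, nsq_restr_win σ a Q hQ0 c A 0])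
    (K₁ / ρ) (ε / (2 * (K₂ + 1))) (fun r hr => (hDD r hr).1)
    (fun r hr => by rw [hq0]; exact (hDD r hr).2) htc
  rw [hq0] at h
  rw [SS_union σ a Q c P W A G hAG]
  have e : SS σ a Q c P W A = (1 / (W : ℝ)) * ∑ t ∈ Finset.range W,
      ∫ x, Real.exp (dot (restr A (win σ a Q c (t : ℤ))) x) ∂P := rfl
  rw [e]
  refine le_trans h ?_
  rw [mul_add]
  have h5 : K₂ * (ε / (2 * (K₂ + 1))) ≤ ε / 2 := by
    have e2 : K₂ * (ε / (2 * (K₂ + 1))) = (ε / 2) * (K₂ / (K₂ + 1)) := by field_simp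
    rw [e2]
    have : K₂ / (K₂ + 1) ≤ 1 := by rw [div_le_one (by linarith)]; linarith
    have h4 : 0 ≤ ε / 2 := by positivity
    nlinarith
  linarith

end FULL
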