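import Pool.Agent.Lib.MP_8a5982_an.FULL.Chan1

/-!
Project FULL, module CHAN3: the noise on `G` is independent of `x` together with the noise
outside `G`.
-/

open MeasureTheory ProbabilityTheory Filter Topology

namespace FULL

section chan
variable {ι : Type} [Fintype ι]

/-- replacing the coordinates outside `G` by those of an independent copy -/
theorem chan3_comb [DecidableEq ι] (w : ι → NNReal) (G : Finset ι) : MeasurePreserving
    (fun (p : (ι → ℝ) × (ι → ℝ)) (i : ι) => if i ∈ G then p.1 i else p.2 i)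
    ((gam w).prod (gam w)) (gam w) := by
  have h1 : ∀ i : ι, MeasurePreserving (fun q : ℝ × ℝ => if i ∈ G then q.1 else q.2)
      ((gaussianReal 0 (w i)).prod (gaussianReal 0 (w i))) (gaussianReal 0 (w i)) := by
    intro i
    by_cases h : i ∈ G
    · simpa [h] using (measurePreserving_fst (μ := gaussianReal 0 (w i))
        (ν := gaussianReal 0 (w i)))
    · simpa [h] using (measurePreserving_snd (μ := gaussianReal 0 (w i))
        (ν := gaussianReal 0 (w i)))
  have h2 := measurePreserving_pi (fun i : ι => (gaussianReal 0 (w i)).prod (gaussianReal 0 (w i)))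
    (fun i : ι => gaussianReal 0 (w i)) h1
  have h3 := measurePreserving_arrowProdEquivProdArrow ℝ ℝ ι (fun i => gaussianReal 0 (w i))
    (fun i => gaussianReal 0 (w i))
  exact h2.comp h3.symm

theorem chan3_int {α β : Type*} [MeasurableSpace α] [MeasurableSpace β] {μ : Measure α}
    {ν : Measure β} {T : α → β} (hT : MeasurePreserving T μ ν) {F : β → ℝ} (hF : Measurable F) :
    ∫ y, F y ∂ν = ∫ x, F (T x) ∂μ := by
  rw [← hT.map_eq, integral_map hT.measurable.aemeasurable hF.aestronglyMeasurable]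

variable {P : Measure (ι → ℝ)} [IsProbabilityMeasure P] (w : ι → NNReal)

theorem integral_split [DecidableEq ι] (G : Finset ι) (f g : (ι → ℝ) × (ι → ℝ) → ℝ)
    (hf : Gd (nu P w) f) (hg : Gd (nu P w) g)
    (hfG : ∀ x y y', (∀ i, i ∉ G → y i = y' i) → f (x, y) = f (x, y'))
    (hgG : ∀ x y x' y', (∀ i ∈ G, noise w (x, y) i = noise w (x', y') i) →
      g (x, y) = g (x', y')) :
    ∫ p, f p * g p ∂(nu P w) = (∫ p, f p ∂(nu P w)) * ∫ p, g p ∂(nu P w) := by
  have : IsProbabilityMeasure (gam w) := isProbability_gam w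
  have hobs : Measurable (obs w) := by
    unfold obs
    fun_prop
  obtain ⟨φ, hφ⟩ : ∃ φ : (ι → ℝ) × (ι → ℝ) → ℝ, ∀ p, φ p = f (p.1, obs w p) := ⟨_, fun _ => rfl⟩
  obtain ⟨ψ, hψ⟩ : ∃ ψ : (ι → ℝ) → ℝ, ∀ B, ψ B = g (0, obs w (0, B)) := ⟨_, fun _ => rfl⟩
  have hφm : Measurable φ := by
    rw [show φ = fun p => f (p.1, obs w p) from funext hφ]
    exact hf.meas.comp (measurable_fst.prodMk hobs)
  have hψm : Measurable ψ := by
    rw [show ψ = fun B => g (0, obs w (0, B)) from funext hψ]
    exact hg.meas.comp (measurable_const.prodMk (hobs.comp (measurable_const.prodMk measurable_id)))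
  have hgψ : ∀ x B, g (x, obs w (x, B)) = ψ B := by
    intro x B
    rw [hψ]
    refine hgG _ _ _ _ fun i _ => ?_
    rw [show noise w (x, obs w (x, B)) = B from noise_obs w (x, B),
      show noise w (0, obs w (0, B)) = B from noise_obs w (0, B)]
  -- the three integrals in the direct picture
  have h1 : ∫ p, f p ∂(nu P w) = ∫ p, φ p ∂(P.prod (gam w)) := by
    rw [integral_nu_direct w f hf.meas]
    exact integral_congr_ae (ae_of_all _ fun p => (hφ p).symm)
  have h2 : ∫ p, g p ∂(nu P w) = ∫ B, ψ B ∂(gam w) := by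
    rw [integral_nu_direct w g hg.meas]
    have h3 : ∫ p, g (p.1, obs w p) ∂(P.prod (gam w)) = ∫ p, ψ p.2 ∂(P.prod (gam w)) :=
      integral_congr_ae (ae_of_all _ fun p => hgψ p.1 p.2)
    have hsnd : MeasurePreserving (Prod.snd : (ι → ℝ) × (ι → ℝ) → ι → ℝ) (P.prod (gam w))
      (gam w) := measurePreserving_snd
    rw [h3, chan3_int hsnd hψm]
  have h4 : ∫ p, f p * g p ∂(nu P w) =
      ∫ q, φ (q.1, q.2.2) * ψ q.2.1 ∂(P.prod ((gam w).prod (gam w))) := by
    have hm : Measurable (fun p : (ι → ℝ) × (ι → ℝ) => f p * g p) := hf.meas.mul hg.meas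
    have hT := (MeasurePreserving.id P).prod (chan3_comb w G)
    have hm2 : Measurable (fun p : (ι → ℝ) × (ι → ℝ) => f (p.1, obs w p) * g (p.1, obs w p)) :=
      hm.comp (measurable_fst.prodMk hobs)
    rw [integral_nu_direct w _ hm, chan3_int hT hm2]
    refine integral_congr_ae (ae_of_all _ fun q => ?_)
    simp only [Prod.map_fst, id_eq]
    rw [hφ]
    congr 1
    · refine hfG _ _ _ fun i hi => ?_
      simp [obs, hi]
    · rw [hψ]
      refine hgG _ _ _ _ fun i hi => ?_
      simp [noise, obs, hi]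
  have hS : MeasurePreserving (fun q : (ι → ℝ) × ((ι → ℝ) × (ι → ℝ)) => ((q.1, q.2.2), q.2.1))
      (P.prod ((gam w).prod (gam w))) ((P.prod (gam w)).prod (gam w)) := by
    have hsw : MeasurePreserving (Prod.swap : (ι → ℝ) × (ι → ℝ) → (ι → ℝ) × (ι → ℝ))
      ((gam w).prod (gam w)) ((gam w).prod (gam w)) := Measure.measurePreserving_swap
    have ha := (measurePreserving_prodAssoc P (gam w) (gam w)).symm
    exact ha.comp ((MeasurePreserving.id P).prod hsw)
  rw [h1, h2, h4]
  have h5 := integral_prod_mul (μ := P.prod (gam w)) (ν := gam w) φ ψ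
  have hm3 : Measurable (fun z : ((ι → ℝ) × (ι → ℝ)) × (ι → ℝ) => φ z.1 * ψ z.2) :=
    (hφm.comp measurable_fst).mul (hψm.comp measurable_snd)
  rw [← h5, chan3_int hS hm3]

end chan

end FULL
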