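import Pool.Agent.Lib.MP_8a5982_an.FULL.Chan2
import Pool.Agent.Lib.MP_8a5982_an.FULL.Post2

/-!
Project FULL (MP_8a5982_an), module CMK: Cameron-Martin for the shifted third cumulant.
-/

open MeasureTheory ProbabilityTheory Filter Topology

namespace FULL

theorem measurable_kap_cmk {ι : Type} [Fintype ι] {P : Measure (ι → ℝ)} {C : ℝ}
    (hP : ExpM P C) (w : ι → NNReal) {f g h : (ι → ℝ) → ℝ} (hf : Measurable f)
    (hg : Measurable g) (hh : Measurable h) : Measurable (kap P w f g h) := by
  have e1 := measurable_post hP w hf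
  have e2 := measurable_post hP w hg
  have e3 := measurable_post hP w hh
  have e12 := measurable_post hP w (f := fun x => f x * g x) (hf.mul hg)
  have e13 := measurable_post hP w (f := fun x => f x * h x) (hf.mul hh)
  have e23 := measurable_post hP w (f := fun x => g x * h x) (hg.mul hh)
  have e123 := measurable_post hP w (f := fun x => f x * g x * h x) ((hf.mul hg).mul hh)
  unfold kap
  exact (((e123.sub (e1.mul e23)).sub (e2.mul e13)).sub (e3.mul e12)).add
    (((e1.mul e2).mul e3).const_mul 2)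

theorem measurable_hfac_cmk {ι : Type} [Fintype ι] (a l : ι → ℝ) (c : ℝ) :
    Measurable (hfac a l c) := by
  have h1 : Measurable (fun p : (ι → ℝ) × (ι → ℝ) => dot a p.2) :=
    (measurable_dot a).comp measurable_snd
  have h2 : Measurable (fun p : (ι → ℝ) × (ι → ℝ) => dot l p.1) :=
    (measurable_dot l).comp measurable_fst
  unfold hfac
  exact (h1.add (h2.const_mul c)).exp

theorem dot_eq_zero_cmk {ι : Type} [Fintype ι] (A G : Finset ι) (a l : ι → ℝ)
    (hAG : Disjoint A G) (ha : ∀ i, i ∉ A → a i = 0) (hl : ∀ i, i ∉ G → l i = 0) :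
    dot a l = 0 := by
  refine Finset.sum_eq_zero fun i _ => ?_
  by_cases hi : i ∈ A
  · rw [hl i (Finset.disjoint_left.mp hAG hi), mul_zero]
  · rw [ha i hi, zero_mul]

theorem wt_mem_cmk {ι : Type} [DecidableEq ι] (A G : Finset ι) (s : NNReal) (i : ι) (hi : i ∈ G) :
    wt A G s i = s := by
  simp [wt, onG, hi]

/-- the Cameron-Martin density of the shift by `θ l` is `efac` -/
theorem cm_eq_efac {ι : Type} [Fintype ι] [DecidableEq ι] (A G : Finset ι) (s : NNReal)
    (l : ι → ℝ) (θ : ℝ) (hl : ∀ i, i ∉ G → l i = 0) (p : (ι → ℝ) × (ι → ℝ)) :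
    cm (wt A G s) (θ • l) p = efac (wt A G s) s l θ p := by
  unfold cm efac
  congr 1
  have h : θ * dot l (noise (wt A G s) p) / s - θ ^ 2 * nsq l / (2 * s) =
      ∑ i, (θ * l i * noise (wt A G s) p i / s - (θ * l i) ^ 2 / (2 * s)) := by
    rw [Finset.sum_sub_distrib]
    congr 1
    · rw [dot, Finset.mul_sum, Finset.sum_div]
      exact Finset.sum_congr rfl fun i _ => by ring
    · rw [nsq, Finset.mul_sum, Finset.sum_div]
      exact Finset.sum_congr rfl fun i _ => by ring
  rw [h]
  refine Finset.sum_congr rfl fun i _ => ?_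
  by_cases hi : i ∈ G
  · rw [wt_mem_cmk A G s i hi]
    simp only [Pi.smul_apply, smul_eq_mul]
  · simp only [Pi.smul_apply, smul_eq_mul, hl i hi]
    simp

theorem kap_shift {ι : Type} [Fintype ι] [DecidableEq ι] {P : Measure (ι → ℝ)} {C₀ : ℝ}
    (hP : ExpM P C₀) (A G : Finset ι) (s : NNReal) (hs : 0 < s) (c θ : ℝ) (a l : ι → ℝ)
    (hAG : Disjoint A G) (ha : ∀ i, i ∉ A → a i = 0) (hl : ∀ i, i ∉ G → l i = 0) :
    ∫ p, hfac a l c p * kap P (wt A G s) (dot l) (dot l) (dot l) (p.2 + θ • l)
        ∂(nu P (wt A G s)) = gterm P A G s c θ a l l l := by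
  have := hP.prob
  have hu : ∀ i, wt A G s i = 0 → (θ • l) i = 0 := by
    intro i hi
    by_cases hG : i ∈ G
    · rw [wt_mem_cmk A G s i hG] at hi
      exact absurd hi hs.ne'
    · simp [hl i hG]
  have hm : Measurable (fun p : (ι → ℝ) × (ι → ℝ) =>
      hfac a l c p * kap P (wt A G s) (dot l) (dot l) (dot l) p.2) :=
    (measurable_hfac_cmk a l c).mul ((measurable_kap_cmk hP (wt A G s) (measurable_dot l)
      (measurable_dot l) (measurable_dot l)).comp measurable_snd)
  have key := integral_shift (P := P) (wt A G s) (θ • l) hu _ hm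
  unfold gterm
  have e1 : ∀ p : (ι → ℝ) × (ι → ℝ), hfac a l c (p.1, p.2 + θ • l) = hfac a l c p := by
    intro p
    unfold hfac
    have : dot a (p.2 + θ • l) = dot a p.2 := by
      rw [dot_comm, dot_add, dot_smul, dot_comm p.2 a, dot_comm l a,
        dot_eq_zero_cmk A G a l hAG ha hl]
      ring
    simp only [this]
  simp only [e1] at key
  rw [key]
  refine integral_congr_ae (Filter.Eventually.of_forall fun p => ?_)
  simp only [cm_eq_efac A G s l θ hl p]
  ring

end FULL
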