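import Pool.Agent.Lib.MP_8a5982_an.FULL.Up
import Pool.Agent.Lib.MP_8a5982_an.FULL.Mm1

/-!
Project FULL, module SMALL (helper33): the small block.
-/

open MeasureTheory ProbabilityTheory Filter Topology

namespace FULL

theorem sm_exp_rem3 (X : ℝ) : |Real.exp X - (1 + X + X ^ 2 / 2)| ≤ |X| ^ 3 * Real.exp |X| := by
  have h := Complex.norm_exp_sub_sum_le_norm_mul_exp (X : ℂ) 3
  have e : Complex.exp (X : ℂ) - ∑ m ∈ Finset.range 3, (X : ℂ) ^ m / (m.factorial : ℂ) =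
      ((Real.exp X - (1 + X + X ^ 2 / 2) : ℝ) : ℂ) := by
    simp [Finset.sum_range_succ, Nat.factorial]
  rw [e, Complex.norm_real, Complex.norm_real] at h
  simpa using h

theorem sm_exp_rem2 (X : ℝ) : |Real.exp X - (1 + X)| ≤ |X| ^ 2 * Real.exp |X| := by
  have h := Complex.norm_exp_sub_sum_le_norm_mul_exp (X : ℂ) 2
  have e : Complex.exp (X : ℂ) - ∑ m ∈ Finset.range 2, (X : ℂ) ^ m / (m.factorial : ℂ) =
      ((Real.exp X - (1 + X) : ℝ) : ℂ) := by
    simp [Finset.sum_range_succ]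
  rw [e, Complex.norm_real, Complex.norm_real] at h
  simpa using h

theorem sm_gd_exp_abs {ι : Type} [Fintype ι] {P : Measure (ι → ℝ)} {C : ℝ} (hP : ExpM P C)
    (u : ι → ℝ) : Gd P (fun x => Real.exp |dot u x|) := by
  have := hP.prob
  refine Gd.mono ((hP.gd_exp u).add (hP.gd_exp (-u))) ?_ ?_
  · exact ((measurable_dot u).abs).exp
  · intro x
    have e : dot (-u) x = -dot u x := by
      simp [dot]
    have hp : 0 < Real.exp (dot u x) + Real.exp (-dot u x) :=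
      add_pos (Real.exp_pos _) (Real.exp_pos _)
    rw [e, abs_of_pos (Real.exp_pos _), abs_of_pos hp]
    rcases abs_cases (dot u x) with ⟨h, -⟩ | ⟨h, -⟩ <;> rw [h] <;>
      linarith [Real.exp_pos (dot u x), Real.exp_pos (-dot u x)]

theorem sm_integral_fst_nu {ι : Type} [Fintype ι] {P : Measure (ι → ℝ)} [IsProbabilityMeasure P]
    (w : ι → NNReal) {f : (ι → ℝ) → ℝ} (hf : Measurable f) :
    ∫ p, f p.1 ∂(nu P w) = ∫ x, f x ∂P := by
  have h1 : ∫ p, f p.1 ∂(nu P w) = ∫ x, f x ∂((nu P w).map Prod.fst) :=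
    (integral_map measurable_fst.aemeasurable hf.aestronglyMeasurable).symm
  rw [h1, nu_fst]

/-- the third order remainder -/
theorem sm_rem_bound {ι : Type} [Fintype ι] {P : Measure (ι → ℝ)} {C : ℝ} (hP : ExpM P C)
    (l : ι → ℝ) (hl : nsq l ≤ C) :
    ∫ x, (|dot l x| ^ 3 * Real.exp |dot l x|) ^ 2 ∂P ≤
      Real.sqrt (2 * (Nat.factorial 12) * Real.exp C * (2 * Real.exp (C * (16 * C)))) *
        nsq l ^ 3 := by
  have := hP.prob
  have hX : Gd P (dot l) := hP.gd_dot l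
  have hE : Gd P (fun x => Real.exp |dot l x|) := sm_gd_exp_abs hP l
  have e1 : ∀ x, (|dot l x| ^ 3 * Real.exp |dot l x|) ^ 2 =
      dot l x ^ 6 * Real.exp |dot l x| ^ 2 := by
    intro x
    rw [mul_pow, ← pow_mul, show 3 * 2 = 6 by norm_num]
    congr 1
    exact Even.pow_abs (by decide) _
  simp only [e1]
  have hcs := Gd.cs (hX.pow 6) (hE.pow 2)
  have h12 : ∫ x, (dot l x ^ 6) ^ 2 ∂P ≤ 2 * (Nat.factorial 12) * Real.exp C * nsq l ^ 6 := by
    have h := hP.moment l 6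
    simpa [← pow_mul] using h
  have h4 : ∫ x, (Real.exp |dot l x| ^ 2) ^ 2 ∂P ≤ 2 * Real.exp (C * (16 * C)) := by
    have hb : ∀ x, (Real.exp |dot l x| ^ 2) ^ 2 ≤
        Real.exp (dot ((4 : ℝ) • l) x) + Real.exp (dot ((-4 : ℝ) • l) x) := by
      intro x
      have e2 : (Real.exp |dot l x| ^ 2) ^ 2 = Real.exp (4 * |dot l x|) := by
        rw [← pow_mul, ← Real.exp_nat_mul]
        norm_num
      rw [e2, dot_smul, dot_smul]
      rcases abs_cases (dot l x) with ⟨h, -⟩ | ⟨h, -⟩ <;> rw [h]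
      · linarith [Real.exp_pos (-4 * dot l x)]
      · rw [mul_neg, ← neg_mul]
        linarith [Real.exp_pos (4 * dot l x)]
    have hi := hP.gd_exp ((4 : ℝ) • l)
    have hi' := hP.gd_exp ((-4 : ℝ) • l)
    have h := integral_mono ((hE.pow 2).pow 2).integrable (hi.add hi').integrable hb
    refine h.trans ?_
    rw [integral_add hi.integrable hi'.integrable]
    have h5 := hP.le ((4 : ℝ) • l)
    have h6 := hP.le ((-4 : ℝ) • l)
    rw [nsq_smul] at h5 h6
    have h7 : Real.exp (C * ((4 : ℝ) ^ 2 * nsq l)) ≤ Real.exp (C * (16 * C)) := by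
      refine Real.exp_le_exp.2 (mul_le_mul_of_nonneg_left ?_ hP.nonneg)
      linarith
    have h8 : Real.exp (C * ((-4 : ℝ) ^ 2 * nsq l)) ≤ Real.exp (C * (16 * C)) := by
      refine Real.exp_le_exp.2 (mul_le_mul_of_nonneg_left ?_ hP.nonneg)
      linarith
    linarith
  have h0 : 0 ≤ ∫ x, dot l x ^ 6 * Real.exp |dot l x| ^ 2 ∂P :=
    integral_nonneg fun x => by positivity
  have hn := nsq_nonneg l
  set K1 := 2 * (Nat.factorial 12 : ℝ) * Real.exp C * (2 * Real.exp (C * (16 * C))) with hK1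
  have hK1' : 0 ≤ K1 := by positivity
  have h9 : (∫ x, dot l x ^ 6 * Real.exp |dot l x| ^ 2 ∂P) ^ 2 ≤ K1 * nsq l ^ 6 := by
    refine hcs.trans ?_
    have h10 := mul_le_mul h12 h4 (integral_nonneg fun x => by positivity)
      (by positivity : (0 : ℝ) ≤ 2 * (Nat.factorial 12) * Real.exp C * nsq l ^ 6)
    refine h10.trans_eq ?_
    rw [hK1]; ring
  refine abs_le_of_sq_le_sq' (b := Real.sqrt K1 * nsq l ^ 3) ?_ (by positivity) |>.2
  rw [mul_pow, Real.sq_sqrt hK1', ← pow_mul]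
  exact h9

theorem small_block (C₀ : ℝ) : ∃ K : ℝ, 0 ≤ K ∧ ∀ (ι : Type) [Fintype ι] [DecidableEq ι]
    (P : Measure (ι → ℝ)), ExpM P C₀ → ∀ (A G : Finset ι) (a l : ℤ → ι → ℝ)
    (W : ℕ), 0 < W → Disjoint A G → (∀ t i, i ∉ A → a t i = 0) → (∀ t i, i ∉ G → l t i = 0) →
    (∀ t, nsq (a t) = nsq (a 0)) → nsq (a 0) ≤ C₀ → ∀ v : ℝ, v ≤ C₀ → (∀ t, nsq (l t) = v) →
    ∀ δ : ℝ, D1 P (wt A G 0) l W ≤ δ → D2 P (wt A G 0) l W v ≤ δ →
    |(1 / (W : ℝ)) * (∑ t ∈ Finset.range W, ∫ x, Real.exp (dot (a (t : ℤ)) x +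
        dot (l (t : ℤ)) x) ∂P) - Real.exp (v / 2) * ((1 / (W : ℝ)) *
        ∑ t ∈ Finset.range W, ∫ x, Real.exp (dot (a (t : ℤ)) x) ∂P)| ≤
      K * (Real.sqrt δ + v * Real.sqrt v) := by
  obtain ⟨Kw, hKw0, hKw⟩ := weighted_bound C₀
  obtain ⟨Kh, hKh⟩ := hfac_moment C₀
  set K1 : ℝ := Real.sqrt (2 * (Nat.factorial 12) * Real.exp C₀ *
    (2 * Real.exp (C₀ * (16 * C₀)))) with hK1
  have hK10 : 0 ≤ K1 := Real.sqrt_nonneg _
  set H : ℝ := 1 + |Kh| with hH
  have hH0 : 0 ≤ H := by positivity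
  set K3 : ℝ := Real.sqrt (H * K1) with hK3
  have hK30 : 0 ≤ K3 := Real.sqrt_nonneg _
  set K4 : ℝ := Real.sqrt C₀ * Real.exp (C₀ / 2) * H with hK4
  have hK40 : 0 ≤ K4 := by positivity
  refine ⟨2 * Kw + K3 + K4, by positivity, ?_⟩
  intro ι _ _ P hP A G a l W hW hAG ha hl haa haC v hv hlv δ hD1 hD2
  have := hP.prob
  have hv0 : 0 ≤ v := by rw [← hlv 0]; exact nsq_nonneg _
  have hC0 : 0 ≤ C₀ := hP.nonneg
  have hprob : IsProbabilityMeasure (nu P (wt A G 0)) := isProbability_nu _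
  have haC' : ∀ t, nsq (a t) ≤ C₀ := fun t => by rw [haa t]; exact haC
  obtain ⟨hB1, hB2, -⟩ := hKw ι P hP A G 0 a l W hW hAG ha hl haC' v hv hlv 0 le_rfl
    zero_le_one δ hD1 hD2
  have hWpos : (0 : ℝ) < W := by exact_mod_cast hW
  -- the bound for one t
  have key : ∀ t : ℤ, |(∫ p, hfac (a t) (l t) 1 p ∂(nu P (wt A G 0))) -
      Real.exp (v / 2) * ∫ p, hfac (a t) (l t) 0 p ∂(nu P (wt A G 0))| ≤
      (∫ p, hfac (a t) (l t) 0 p * |post P (wt A G 0) (dot (l t)) p.2| ∂(nu P (wt A G 0))) +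
      (∫ p, hfac (a t) (l t) 0 p *
        |post P (wt A G 0) (fun x => dot (l t) x ^ 2) p.2 - v| ∂(nu P (wt A G 0))) +
      (K3 + K4) * (v * Real.sqrt v) := by
    intro t
    set w := wt A G 0 with hw
    set X : (ι → ℝ) → ℝ := dot (l t) with hXdef
    set g : (ι → ℝ) → ℝ := fun y => Real.exp (dot (a t) y) with hg
    have hX : Gd P X := hP.gd_dot _
    have hX1 : Gd (nu P w) (fun p => X p.1) := Gd.nu_fst w hX
    have hG : Gd (nu P w) (fun p => g p.2) := Gd.nu_exp_snd w hP _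
    have hEx : Gd (nu P w) (fun p => Real.exp (X p.1)) := Gd.nu_fst w (hP.gd_exp _)
    have hEa : Gd (nu P w) (fun p => Real.exp |X p.1|) := Gd.nu_fst w (sm_gd_exp_abs hP _)
    have e0 : ∀ p, hfac (a t) (l t) 0 p = g p.2 := by
      intro p; simp [hfac, hg]
    have e1 : ∀ p, hfac (a t) (l t) 1 p = g p.2 * Real.exp (X p.1) := by
      intro p
      simp only [hfac, hg, one_mul]
      rw [Real.exp_add]
    obtain ⟨hGd4, hm4⟩ := hKh ι P hP A G 0 (a t) (l t) 0 hAG (ha t) (hl t) (haC' t)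
      (by rw [hlv t]; exact hv) le_rfl zero_le_one
    simp only [e0] at hm4 ⊢
    simp only [e1]
    have hgpos : ∀ y, 0 < g y := fun y => Real.exp_pos _
    have hG2 : ∫ p, g p.2 ^ 2 ∂(nu P w) ≤ H := by
      have h1 : ∫ p, g p.2 ^ 2 ∂(nu P w) ≤ ∫ p, (1 + g p.2 ^ 4) ∂(nu P w) := by
        refine integral_mono (hG.pow 2).integrable ((Gd.const 1).add (hG.pow 4)).integrable ?_
        intro p
        have := sq_nonneg (g p.2 ^ 2 - 1)
        have h2 := sq_nonneg (g p.2)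
        simp only
        nlinarith [sq_nonneg (g p.2 ^ 2)]
      refine h1.trans ?_
      rw [integral_add (integrable_const _) (hG.pow 4).integrable]
      simp only [integral_const, probReal_univ, smul_eq_mul, mul_one]
      have := le_abs_self Kh
      linarith
    have hG1 : ∫ p, g p.2 ∂(nu P w) ≤ H := by
      have h1 : ∫ p, g p.2 ∂(nu P w) ≤ ∫ p, (1 + g p.2 ^ 4) ∂(nu P w) := by
        refine integral_mono hG.integrable ((Gd.const 1).add (hG.pow 4)).integrable ?_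
        intro p
        have h2 := sq_nonneg (g p.2 ^ 2 - 1)
        have h3 := sq_nonneg (g p.2 - 1)
        simp only
        nlinarith [sq_nonneg (g p.2 ^ 2)]
      refine h1.trans ?_
      rw [integral_add (integrable_const _) (hG.pow 4).integrable]
      simp only [integral_const, probReal_univ, smul_eq_mul, mul_one]
      have := le_abs_self Kh
      linarith
    have hG1' : 0 ≤ ∫ p, g p.2 ∂(nu P w) := integral_nonneg fun p => (hgpos _).le
    -- decomposition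
    have hrem : Gd (nu P w) (fun p => g p.2 * (Real.exp (X p.1) -
        (1 + X p.1 + X p.1 ^ 2 / 2))) := by
      refine hG.mul (hEx.sub (((Gd.const 1).add hX1).add ?_))
      have h := (hX1.pow 2).const_mul (1 / 2)
      have e : (fun p : (ι → ℝ) × (ι → ℝ) => 1 / 2 * X p.1 ^ 2) =
          fun p => X p.1 ^ 2 / 2 := by ext p; ring
      rw [e] at h
      exact h
    have t1 : ∫ p, g p.2 * X p.1 ∂(nu P w) = ∫ p, g p.2 * post P w X p.2 ∂(nu P w) :=
      tower hP w hX hG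
    have t2 : ∫ p, g p.2 * X p.1 ^ 2 ∂(nu P w) =
        ∫ p, g p.2 * post P w (fun x => X x ^ 2) p.2 ∂(nu P w) :=
      tower hP w (hX.pow 2) hG
    have dec : (∫ p, g p.2 * Real.exp (X p.1) ∂(nu P w)) =
        (∫ p, g p.2 * (Real.exp (X p.1) - (1 + X p.1 + X p.1 ^ 2 / 2)) ∂(nu P w)) +
        (∫ p, g p.2 ∂(nu P w)) + (∫ p, g p.2 * X p.1 ∂(nu P w)) +
        (∫ p, g p.2 * X p.1 ^ 2 ∂(nu P w)) / 2 := by
      have hT : Gd (nu P w) (fun p => g p.2 * X p.1 ^ 2 / 2) := by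
        have h := (hG.mul (hX1.pow 2)).const_mul (1 / 2)
        have e : (fun p : (ι → ℝ) × (ι → ℝ) => 1 / 2 * (g p.2 * X p.1 ^ 2)) =
            fun p => g p.2 * X p.1 ^ 2 / 2 := by ext p; ring
        rw [e] at h
        exact h
      have hA : Gd (nu P w) (fun p => g p.2 * (Real.exp (X p.1) -
        (1 + X p.1 + X p.1 ^ 2 / 2)) + g p.2) := hrem.add hG
      have hB : Gd (nu P w) (fun p => g p.2 * (Real.exp (X p.1) -
        (1 + X p.1 + X p.1 ^ 2 / 2)) + g p.2 + g p.2 * X p.1) := hA.add (hG.mul hX1)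
      have j1 : ∫ p, (g p.2 * (Real.exp (X p.1) -
        (1 + X p.1 + X p.1 ^ 2 / 2)) + g p.2) ∂(nu P w) = (∫ p, g p.2 * (Real.exp (X p.1) -
        (1 + X p.1 + X p.1 ^ 2 / 2)) ∂(nu P w)) + ∫ p, g p.2 ∂(nu P w) :=
        integral_add hrem.integrable hG.integrable
      have j2 : ∫ p, (g p.2 * (Real.exp (X p.1) -
        (1 + X p.1 + X p.1 ^ 2 / 2)) + g p.2 + g p.2 * X p.1) ∂(nu P w) =
        (∫ p, (g p.2 * (Real.exp (X p.1) -
        (1 + X p.1 + X p.1 ^ 2 / 2)) + g p.2) ∂(nu P w)) + ∫ p, g p.2 * X p.1 ∂(nu P w) :=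
        integral_add hA.integrable (hG.mul hX1).integrable
      have j3 : ∫ p, (g p.2 * (Real.exp (X p.1) -
        (1 + X p.1 + X p.1 ^ 2 / 2)) + g p.2 + g p.2 * X p.1 + g p.2 * X p.1 ^ 2 / 2) ∂(nu P w) =
        (∫ p, (g p.2 * (Real.exp (X p.1) -
        (1 + X p.1 + X p.1 ^ 2 / 2)) + g p.2 + g p.2 * X p.1) ∂(nu P w)) +
        ∫ p, g p.2 * X p.1 ^ 2 / 2 ∂(nu P w) :=
        integral_add hB.integrable hT.integrable
      have j4 : ∫ p, g p.2 * X p.1 ^ 2 / 2 ∂(nu P w) = (∫ p, g p.2 * X p.1 ^ 2 ∂(nu P w)) / 2 :=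
        integral_div _ _
      rw [← j4, ← j1, ← j2, ← j3]
      refine integral_congr_ae (Eventually.of_forall fun p => ?_)
      simp only
      ring
    have hp1 : Gd (nu P w) (fun p => post P w X p.2) := gd_post hP w hX
    have hp2 : Gd (nu P w) (fun p => post P w (fun x => X x ^ 2) p.2) :=
      gd_post hP w (hX.pow 2)
    have a1 : |∫ p, g p.2 * X p.1 ∂(nu P w)| ≤ ∫ p, g p.2 * |post P w X p.2| ∂(nu P w) := by
      rw [t1]
      refine (abs_integral_le_integral_abs).trans_eq ?_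
      refine integral_congr_ae (Eventually.of_forall fun p => ?_)
      simp only
      rw [abs_mul, abs_of_pos (hgpos _)]
    have a2 : |(∫ p, g p.2 * X p.1 ^ 2 ∂(nu P w)) - v * ∫ p, g p.2 ∂(nu P w)| ≤
        ∫ p, g p.2 * |post P w (fun x => X x ^ 2) p.2 - v| ∂(nu P w) := by
      have e : (∫ p, g p.2 * X p.1 ^ 2 ∂(nu P w)) - v * ∫ p, g p.2 ∂(nu P w) =
          ∫ p, g p.2 * (post P w (fun x => X x ^ 2) p.2 - v) ∂(nu P w) := by
        rw [t2, ← integral_const_mul, ← integral_sub (hG.mul hp2).integrable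
          (hG.const_mul v).integrable]
        refine integral_congr_ae (Eventually.of_forall fun p => ?_)
        simp only
        ring
      rw [e]
      refine (abs_integral_le_integral_abs).trans_eq ?_
      refine integral_congr_ae (Eventually.of_forall fun p => ?_)
      simp only
      rw [abs_mul, abs_of_pos (hgpos _)]
    have a3 : |∫ p, g p.2 * (Real.exp (X p.1) - (1 + X p.1 + X p.1 ^ 2 / 2)) ∂(nu P w)| ≤
        K3 * (v * Real.sqrt v) := by
      have hR : Gd (nu P w) (fun p => |X p.1| ^ 3 * Real.exp |X p.1|) :=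
        (hX1.abs.pow 3).mul hEa
      have b1 : |∫ p, g p.2 * (Real.exp (X p.1) - (1 + X p.1 + X p.1 ^ 2 / 2)) ∂(nu P w)| ≤
          ∫ p, g p.2 * (|X p.1| ^ 3 * Real.exp |X p.1|) ∂(nu P w) := by
        refine (abs_integral_le_integral_abs).trans ?_
        refine integral_mono hrem.abs.integrable (hG.mul hR).integrable ?_
        intro p
        simp only
        rw [abs_mul, abs_of_pos (hgpos _)]
        exact mul_le_mul_of_nonneg_left (sm_exp_rem3 _) (hgpos _).le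
      have b2 := Gd.cs hG hR
      have b3 : ∫ p, (|X p.1| ^ 3 * Real.exp |X p.1|) ^ 2 ∂(nu P w) ≤ K1 * v ^ 3 := by
        have hm : Measurable (fun x => (|X x| ^ 3 * Real.exp |X x|) ^ 2) :=
          (((hX.meas.abs.pow_const 3).mul hX.meas.abs.exp)).pow_const 2
        rw [sm_integral_fst_nu w hm]
        have := sm_rem_bound hP (l t) (by rw [hlv t]; exact hv)
        rw [hlv t] at this
        exact this
      have b4 : (∫ p, g p.2 * (|X p.1| ^ 3 * Real.exp |X p.1|) ∂(nu P w)) ^ 2 ≤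
          H * K1 * v ^ 3 := by
        refine b2.trans ?_
        have := mul_le_mul hG2 b3 (integral_nonneg fun p => by positivity) hH0
        linarith
      refine b1.trans ?_
      refine abs_le_of_sq_le_sq' (b := K3 * (v * Real.sqrt v)) ?_ (by positivity) |>.2
      rw [mul_pow, hK3, Real.sq_sqrt (by positivity), mul_pow, Real.sq_sqrt hv0]
      refine b4.trans_eq ?_
      ring
    have a4 : |(1 + v / 2 - Real.exp (v / 2)) * ∫ p, g p.2 ∂(nu P w)| ≤
        K4 * (v * Real.sqrt v) := by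
      have c1 := sm_exp_rem2 (v / 2)
      have c2 : |v / 2| = v / 2 := abs_of_nonneg (by positivity)
      rw [c2] at c1
      have c3 : |1 + v / 2 - Real.exp (v / 2)| ≤ (v / 2) ^ 2 * Real.exp (v / 2) := by
        rw [abs_sub_comm]; exact c1
      rw [abs_mul, abs_of_nonneg hG1']
      have c4 : Real.exp (v / 2) ≤ Real.exp (C₀ / 2) := Real.exp_le_exp.2 (by linarith)
      have c5 : v ^ 2 ≤ Real.sqrt C₀ * (v * Real.sqrt v) := by
        have d1 : Real.sqrt v ≤ Real.sqrt C₀ := Real.sqrt_le_sqrt hv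
        have d2 : Real.sqrt v * Real.sqrt v = v := Real.mul_self_sqrt hv0
        have d3 := Real.sqrt_nonneg v
        have d4 : v * (Real.sqrt v * Real.sqrt v) ≤ v * (Real.sqrt C₀ * Real.sqrt v) :=
          mul_le_mul_of_nonneg_left (mul_le_mul_of_nonneg_right d1 d3) hv0
        rw [d2] at d4
        nlinarith
      have c6 : (v / 2) ^ 2 * Real.exp (v / 2) ≤
          Real.sqrt C₀ * (v * Real.sqrt v) * Real.exp (C₀ / 2) := by
        refine mul_le_mul ?_ c4 (Real.exp_pos _).le (by positivity)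
        nlinarith [sq_nonneg v]
      have c7 := mul_le_mul (c3.trans c6) hG1 hG1' (by positivity)
      refine c7.trans_eq ?_
      rw [hK4]; ring
    have e5 : (∫ p, g p.2 * Real.exp (X p.1) ∂(nu P w)) -
        Real.exp (v / 2) * ∫ p, g p.2 ∂(nu P w) =
        (∫ p, g p.2 * (Real.exp (X p.1) - (1 + X p.1 + X p.1 ^ 2 / 2)) ∂(nu P w)) +
        (∫ p, g p.2 * X p.1 ∂(nu P w)) +
        ((∫ p, g p.2 * X p.1 ^ 2 ∂(nu P w)) - v * ∫ p, g p.2 ∂(nu P w)) / 2 +
        (1 + v / 2 - Real.exp (v / 2)) * ∫ p, g p.2 ∂(nu P w) := by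
      rw [dec]; ring
    rw [e5]
    have n2 : 0 ≤ ∫ p, g p.2 * |post P w (fun x => X x ^ 2) p.2 - v| ∂(nu P w) :=
      integral_nonneg fun p => mul_nonneg (hgpos _).le (abs_nonneg _)
    have f1 := abs_add_le ((∫ p, g p.2 * (Real.exp (X p.1) - (1 + X p.1 + X p.1 ^ 2 / 2)) ∂(nu P w)) +
        (∫ p, g p.2 * X p.1 ∂(nu P w)) +
        ((∫ p, g p.2 * X p.1 ^ 2 ∂(nu P w)) - v * ∫ p, g p.2 ∂(nu P w)) / 2)
        ((1 + v / 2 - Real.exp (v / 2)) * ∫ p, g p.2 ∂(nu P w))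
    have f2 := abs_add_le ((∫ p, g p.2 * (Real.exp (X p.1) - (1 + X p.1 + X p.1 ^ 2 / 2)) ∂(nu P w)) +
        (∫ p, g p.2 * X p.1 ∂(nu P w)))
        (((∫ p, g p.2 * X p.1 ^ 2 ∂(nu P w)) - v * ∫ p, g p.2 ∂(nu P w)) / 2)
    have f3 := abs_add_le (∫ p, g p.2 * (Real.exp (X p.1) - (1 + X p.1 + X p.1 ^ 2 / 2)) ∂(nu P w))
        (∫ p, g p.2 * X p.1 ∂(nu P w))
    have f4 : |((∫ p, g p.2 * X p.1 ^ 2 ∂(nu P w)) - v * ∫ p, g p.2 ∂(nu P w)) / 2| ≤
        ∫ p, g p.2 * |post P w (fun x => X x ^ 2) p.2 - v| ∂(nu P w) := by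
      rw [abs_div, abs_two]
      linarith
    linarith
  -- summation
  have hE1 : (1 : ℝ) ≤ Real.exp (nsq (a 0) / 2) :=
    Real.one_le_exp (by have := nsq_nonneg (a 0); positivity)
  set E := Real.exp (nsq (a 0) / 2) with hE
  have m1 : ∀ t : ℤ, ∫ p, hfac (a t) (l t) 1 p ∂(nu P (wt A G 0)) =
      E * ∫ x, Real.exp (dot (a t) x + dot (l t) x) ∂P := by
    intro t
    rw [hfac_integral hP A G 0 (a t) (l t) 1 hAG (ha t), haa t]
    simp only [one_mul]
    rfl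
  have m0 : ∀ t : ℤ, ∫ p, hfac (a t) (l t) 0 p ∂(nu P (wt A G 0)) =
      E * ∫ x, Real.exp (dot (a t) x) ∂P := by
    intro t
    rw [hfac_integral hP A G 0 (a t) (l t) 0 hAG (ha t), haa t]
    simp only [zero_mul, add_zero]
    rfl
  set Z := (1 / (W : ℝ)) * (∑ t ∈ Finset.range W, ∫ x, Real.exp (dot (a (t : ℤ)) x +
        dot (l (t : ℤ)) x) ∂P) - Real.exp (v / 2) * ((1 / (W : ℝ)) *
        ∑ t ∈ Finset.range W, ∫ x, Real.exp (dot (a (t : ℤ)) x) ∂P) with hZ
  have hEZ : E * Z = (1 / (W : ℝ)) * ∑ t ∈ Finset.range W,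
      ((∫ p, hfac (a (t : ℤ)) (l (t : ℤ)) 1 p ∂(nu P (wt A G 0))) -
      Real.exp (v / 2) * ∫ p, hfac (a (t : ℤ)) (l (t : ℤ)) 0 p ∂(nu P (wt A G 0))) := by
    simp only [m1, m0, Finset.sum_sub_distrib, ← Finset.mul_sum]
    rw [hZ]
    ring
  have hbd : |E * Z| ≤ (1 / (W : ℝ)) * ∑ t ∈ Finset.range W,
      ((∫ p, hfac (a (t : ℤ)) (l (t : ℤ)) 0 p *
        |post P (wt A G 0) (dot (l (t : ℤ))) p.2| ∂(nu P (wt A G 0))) +
      (∫ p, hfac (a (t : ℤ)) (l (t : ℤ)) 0 p *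
        |post P (wt A G 0) (fun x => dot (l (t : ℤ)) x ^ 2) p.2 - v| ∂(nu P (wt A G 0))) +
      (K3 + K4) * (v * Real.sqrt v)) := by
    rw [hEZ, abs_mul, abs_of_nonneg (by positivity : (0 : ℝ) ≤ 1 / (W : ℝ))]
    refine mul_le_mul_of_nonneg_left ?_ (by positivity)
    refine (Finset.abs_sum_le_sum_abs _ _).trans (Finset.sum_le_sum fun t _ => key t)
  simp only [Finset.sum_add_distrib, mul_add, Finset.sum_const, Finset.card_range,
    nsmul_eq_mul] at hbd
  have hc : (1 / (W : ℝ)) * ((W : ℝ) * ((K3 + K4) * (v * Real.sqrt v))) =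
      (K3 + K4) * (v * Real.sqrt v) := by
    field_simp
  have hZE : |Z| ≤ |E * Z| := by
    rw [abs_mul, abs_of_pos (Real.exp_pos _)]
    have := abs_nonneg Z
    nlinarith
  have hsq := Real.sqrt_nonneg δ
  have hvv : 0 ≤ v * Real.sqrt v := mul_nonneg hv0 (Real.sqrt_nonneg _)
  have hfin : |Z| ≤ Kw * Real.sqrt δ + Kw * Real.sqrt δ + (K3 + K4) * (v * Real.sqrt v) := by
    linarith [hZE, hbd, hB1, hB2, hc]
  refine hfin.trans ?_
  have h1 : 0 ≤ (K3 + K4) * Real.sqrt δ := by positivity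
  have h2 : 0 ≤ 2 * Kw * (v * Real.sqrt v) := by positivity
  nlinarith

end FULL
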