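import Pool.Agent.Lib.MP_8a5982_an.FULL.Inf2
import Pool.Agent.Lib.MP_8a5982_an.FULL.Small
import Pool.Agent.Lib.MP_8a5982_an.FULL.Cell
import Pool.Agent.Lib.MP_8a5982_an.FULL.Adm
import Pool.Agent.Lib.MP_8a5982_an.FULL.Mom

/-!
Project FULL: module CSM (helper24): small blocks of cells.
-/

open MeasureTheory ProbabilityTheory Filter Topology

namespace FULL

/-- the information quantities for two sets of cells -/
theorem cell_info {n : ℕ} (a : Fin n → ℤ →₀ ℝ) (C₀ : ℝ) (hC₀ : l1 a ^ 2 ≤ C₀) :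
    ∃ K : ℝ, 0 ≤ K ∧ ∀ (σ : Measure UnitAddCircle) (_ : IsProbabilityMeasure σ)
      (_ : σ.map (fun x => -x) = σ) (_ : ∀ x, σ {x} = 0) (η : ℝ), 0 < η → η ≤ 1 →
      ∀ Q : ℕ, 1 ≤ η * Q → ∀ (D : ℕ) (c : Fin D → ℕ), Function.Injective c →
      (∀ j, 2 * (c j + 1) ≤ Q) → ∀ P : Measure (Fin n × (Fin D × Bool) → ℝ), Adm n P →
      ∀ A G : Finset (Fin D), Disjoint A G → ∀ pm : ℝ, 0 ≤ pm → (∀ j ∈ G, mass σ Q c j ≤ pm) →
      ∀ (s : NNReal) (ρ : ℝ), 1 ≤ ρ →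
      8 * n * l1 a ^ 2 / η * (pm * (A.card + s * G.card)) ≤ 1 / ρ ^ 4 →
      D1 P (wt (coords n A) (coords n G) s) (fun t => restr G (win σ a Q c t)) ⌊η * Q⌋₊ ≤
          K / ρ ∧
        D2 P (wt (coords n A) (coords n G) s) (fun t => restr G (win σ a Q c t)) ⌊η * Q⌋₊
          (vA σ a Q c G) ≤ K / ρ := by
  obtain ⟨K, hK, hinfo⟩ := info_two n C₀
  refine ⟨2 * K, by positivity, ?_⟩
  intro σ hσ hsymm hna η hη hη1 Q hQ D c hc half P hP A G hAG pm hpm0 hpm s ρ hρ hX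
  set W : ℕ := ⌊η * Q⌋₊ with hWdef
  have hQ0 : 0 < Q := by
    rcases Nat.eq_zero_or_pos Q with h | h
    · subst h; simp at hQ; linarith
    · exact h
  have hW : 0 < W := Nat.floor_pos.2 hQ
  have hWQ : W ≤ Q := by
    have h1 : (W : ℝ) ≤ η * Q := Nat.floor_le (by positivity)
    have h2 : η * (Q : ℝ) ≤ Q := by
      have : (0 : ℝ) ≤ Q := Nat.cast_nonneg _
      nlinarith
    exact_mod_cast h1.trans h2
  have hW2 : η * Q ≤ 2 * W := by
    have h1 : η * (Q : ℝ) < W + 1 := Nat.lt_floor_add_one _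
    have h2 : (1 : ℝ) ≤ W := by exact_mod_cast hW
    linarith
  have hWr : (0 : ℝ) < W := by exact_mod_cast hW
  have hmass : ∑ j, 2 * mass σ Q c j ≤ 1 := mass_sum_le σ Q hQ0 c hc half hsymm hna
  have hm0 : ∀ j, 0 ≤ mass σ Q c j := fun j => ENNReal.toReal_nonneg
  have hv : vA σ a Q c G ≤ C₀ := by
    refine (vA_le σ a Q hQ0 c G).trans ?_
    have : ∑ j ∈ G, 2 * mass σ Q c j ≤ 1 :=
      (Finset.sum_le_sum_of_subset_of_nonneg (Finset.subset_univ G)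
        (fun j _ _ => mul_nonneg two_pos.le (hm0 j))).trans hmass
    nlinarith [sq_nonneg (l1 a)]
  have h := hinfo (Fin D × Bool) P hP (wt (coords n A) (coords n G) s)
    (fun t => restr G (win σ a Q c t)) W hW (2 * pm * l1 a ^ 2 * Q)
    (fun b => win_parseval σ a Q hQ0 c hc half G pm hpm0 hpm W hWQ b)
    (vA σ a Q c G) hv (fun t => nsq_restr_win σ a Q hQ0 c G t) ρ hρ
  have hsum := sum_wt (n := n) A G hAG s
  rw [hsum] at h
  have hρ0 : (0 : ℝ) < ρ := by linarith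
  have hXle : 2 * pm * l1 a ^ 2 * Q / W * (2 * n * (A.card + s * G.card)) ≤ 1 / ρ ^ 4 := by
    refine le_trans ?_ hX
    have h1 : (Q : ℝ) / W ≤ 2 / η := by
      rw [div_le_div_iff₀ hWr hη]; linarith
    have h2 : 2 * pm * l1 a ^ 2 * Q / W * (2 * n * (A.card + s * G.card)) =
        (4 * n * l1 a ^ 2 * (pm * (A.card + s * G.card))) * ((Q : ℝ) / W) := by ring
    have h3 : 8 * n * l1 a ^ 2 / η * (pm * (A.card + s * G.card)) =
        (4 * n * l1 a ^ 2 * (pm * (A.card + s * G.card))) * (2 / η) := by ring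
    rw [h2, h3]
    refine mul_le_mul_of_nonneg_left h1 ?_
    have : (0 : ℝ) ≤ s := s.2
    positivity
  have hsq : Real.sqrt (2 * pm * l1 a ^ 2 * Q / W * (2 * n * (A.card + s * G.card))) ≤
      1 / ρ ^ 2 := by
    rw [Real.sqrt_le_left (by positivity)]
    refine hXle.trans (le_of_eq ?_)
    rw [div_pow, one_pow, ← pow_mul]
  have hfin : K * (1 / ρ + ρ * Real.sqrt (2 * pm * l1 a ^ 2 * Q / W *
      (2 * n * (A.card + s * G.card)))) ≤ 2 * K / ρ := by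
    have h1 : ρ * Real.sqrt (2 * pm * l1 a ^ 2 * Q / W * (2 * n * (A.card + s * G.card))) ≤
        1 / ρ := by
      calc _ ≤ ρ * (1 / ρ ^ 2) := mul_le_mul_of_nonneg_left hsq hρ0.le
        _ = 1 / ρ := by field_simp
    calc _ ≤ K * (1 / ρ + 1 / ρ) := mul_le_mul_of_nonneg_left (by linarith) hK
      _ = 2 * K / ρ := by ring
  exact ⟨h.1.trans hfin, h.2.trans hfin⟩

/-- a bound for the masses of `G` with a small information of the heavier cells -/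
theorem exists_pm (σ : Measure UnitAddCircle) (Q : ℕ) {D : ℕ} (c : Fin D → ℕ)
    (hsum : ∑ j, 2 * mass σ Q c j ≤ 1) (A G : Finset (Fin D)) (J₀ : ℕ)
    (h : ∀ i ∈ A, ∀ j ∈ G, (2 : ℝ) ^ J₀ * mass σ Q c j ≤ 2 * mass σ Q c i) :
    ∃ pm : ℝ, 0 ≤ pm ∧ (∀ j ∈ G, mass σ Q c j ≤ pm) ∧ pm * A.card ≤ 1 / 2 ^ J₀ ∧
      (G.Nonempty → ∃ j ∈ G, pm = mass σ Q c j) := by
  have hm0 : ∀ j, 0 ≤ mass σ Q c j := fun j => ENNReal.toReal_nonneg
  rcases G.eq_empty_or_nonempty with rfl | hG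
  · exact ⟨0, le_rfl, by simp, by simp, by simp⟩
  · obtain ⟨j₀, hj₀, hmax⟩ := Finset.exists_max_image G (fun j => mass σ Q c j) hG
    refine ⟨mass σ Q c j₀, hm0 _, hmax, ?_, fun _ => ⟨j₀, hj₀, rfl⟩⟩
    have h1 : ∑ i ∈ A, (2 : ℝ) ^ J₀ * mass σ Q c j₀ ≤ ∑ i ∈ A, 2 * mass σ Q c i :=
      Finset.sum_le_sum fun i hi => h i hi j₀ hj₀
    have h2 : ∑ i ∈ A, 2 * mass σ Q c i ≤ 1 :=
      (Finset.sum_le_sum_of_subset_of_nonneg (Finset.subset_univ A)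
        (fun j _ _ => mul_nonneg two_pos.le (hm0 j))).trans hsum
    rw [Finset.sum_const, nsmul_eq_mul] at h1
    rw [le_div_iff₀ (by positivity)]
    nlinarith

/-- the averaged exponential moment of a union -/
theorem SS_union (σ : Measure UnitAddCircle) {n : ℕ} (a : Fin n → ℤ →₀ ℝ) (Q : ℕ) {D : ℕ}
    (c : Fin D → ℕ) (P : Measure (Fin n × (Fin D × Bool) → ℝ)) (W : ℕ) (A G : Finset (Fin D))
    (hAG : Disjoint A G) :
    SS σ a Q c P W (A ∪ G) = (1 / (W : ℝ)) * ∑ t ∈ Finset.range W,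
      ∫ x, Real.exp (dot (restr A (win σ a Q c (t : ℤ))) x +
        dot (restr G (win σ a Q c (t : ℤ))) x) ∂P := by
  unfold SS
  congr 1
  refine Finset.sum_congr rfl fun t _ => ?_
  congr 1
  funext x
  rw [restr_union A G hAG, dot_add]

/-- small blocks -/
theorem cell_small (σ : Measure UnitAddCircle) [IsProbabilityMeasure σ]
    (hsymm : σ.map (fun x => -x) = σ) (hna : ∀ x, σ {x} = 0) {n : ℕ} (a : Fin n → ℤ →₀ ℝ)
    (η : ℝ) (hη : 0 < η) (hη1 : η ≤ 1) :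
    ∃ K : ℝ, 0 ≤ K ∧ ∀ ε : ℝ, 0 < ε → ∃ J₀ : ℕ, 0 < J₀ ∧
      ∀ (Q : ℕ), 1 ≤ η * Q → ∀ (D : ℕ) (c : Fin D → ℕ),
      Function.Injective c → (∀ j, 2 * (c j + 1) ≤ Q) →
      ∀ P : Measure (Fin n × (Fin D × Bool) → ℝ), Adm n P → ∀ A G : Finset (Fin D),
      Disjoint A G → (∀ i ∈ A, ∀ j ∈ G, (2 : ℝ) ^ J₀ * mass σ Q c j ≤ 2 * mass σ Q c i) →
      (∀ i ∈ A, 0 < mass σ Q c i) →
      |SS σ a Q c P ⌊η * Q⌋₊ (A ∪ G) - Real.exp (vA σ a Q c G / 2) *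
          SS σ a Q c P ⌊η * Q⌋₊ A| ≤
        ε + K * (vA σ a Q c G * Real.sqrt (vA σ a Q c G)) := by
  set C₀ : ℝ := l1 a ^ 2 + (n : ℝ) ^ 2 with hC₀
  have hC1 : l1 a ^ 2 ≤ C₀ := by rw [hC₀]; nlinarith [sq_nonneg (n : ℝ)]
  have hC2 : (n : ℝ) ^ 2 ≤ C₀ := by rw [hC₀]; nlinarith [sq_nonneg (l1 a)]
  obtain ⟨K₁, hK₁, hinfo⟩ := cell_info a C₀ hC1
  obtain ⟨K₂, hK₂, hsmall⟩ := small_block C₀
  refine ⟨K₂, hK₂, fun ε hε => ?_⟩
  set ρ : ℝ := 1 + K₁ * K₂ ^ 2 / ε ^ 2 with hρ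
  have hρ1 : 1 ≤ ρ := by rw [hρ]; have : 0 ≤ K₁ * K₂ ^ 2 / ε ^ 2 := by positivity
                         linarith
  have hρ0 : 0 < ρ := by linarith
  have hδ : K₂ * Real.sqrt (K₁ / ρ) ≤ ε := by
    have h1 : Real.sqrt (K₂ ^ 2 * (K₁ / ρ)) ≤ ε := by
      rw [Real.sqrt_le_left hε.le]
      rw [← mul_div_assoc, div_le_iff₀ hρ0, hρ]
      have : ε ^ 2 * (1 + K₁ * K₂ ^ 2 / ε ^ 2) = ε ^ 2 + K₁ * K₂ ^ 2 := by field_simp
      rw [this]
      nlinarith [sq_nonneg ε]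
    rwa [Real.sqrt_mul (by positivity), Real.sqrt_sq hK₂] at h1
  obtain ⟨J₀, hJ₀⟩ := pow_unbounded_of_one_lt (8 * n * l1 a ^ 2 / η * ρ ^ 4) (one_lt_two (α := ℝ))
  refine ⟨J₀ + 1, Nat.succ_pos _, ?_⟩
  intro Q hQ D c hc half P hP A G hAG hsep hpos
  set W : ℕ := ⌊η * Q⌋₊ with hWdef
  have hQ0 : 0 < Q := by
    rcases Nat.eq_zero_or_pos Q with h | h
    · subst h; simp at hQ; linarith
    · exact h
  have hW : 0 < W := Nat.floor_pos.2 hQ
  have hmass : ∑ j, 2 * mass σ Q c j ≤ 1 := mass_sum_le σ Q hQ0 c hc half hsymm hna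
  have hm0 : ∀ j, 0 ≤ mass σ Q c j := fun j => ENNReal.toReal_nonneg
  have hvle : ∀ A : Finset (Fin D), vA σ a Q c A ≤ C₀ := by
    intro A
    refine (vA_le σ a Q hQ0 c A).trans (le_trans ?_ hC1)
    have : ∑ j ∈ A, 2 * mass σ Q c j ≤ 1 :=
      (Finset.sum_le_sum_of_subset_of_nonneg (Finset.subset_univ A)
        (fun j _ _ => mul_nonneg two_pos.le (hm0 j))).trans hmass
    nlinarith [sq_nonneg (l1 a)]
  obtain ⟨pm, hpm0, hpm, hpmA, -⟩ := exists_pm σ Q c hmass A G (J₀ + 1) hsep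
  have hX : 8 * n * l1 a ^ 2 / η * (pm * (A.card + (0 : NNReal) * G.card)) ≤ 1 / ρ ^ 4 := by
    have h1 : pm * (A.card + ((0 : NNReal) : ℝ) * G.card) = pm * A.card := by simp
    rw [h1]
    have h2 : 8 * n * l1 a ^ 2 / η * (pm * A.card) ≤ 8 * n * l1 a ^ 2 / η * (1 / 2 ^ (J₀ + 1)) :=
      mul_le_mul_of_nonneg_left hpmA (by positivity)
    refine h2.trans ?_
    rw [mul_one_div, div_le_div_iff₀ (by positivity) (by positivity), one_mul]
    refine hJ₀.le.trans ?_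
    exact pow_le_pow_right₀ (by norm_num) (Nat.le_succ _)
  obtain ⟨hD1, hD2⟩ := hinfo σ inferInstance hsymm hna η hη hη1 Q hQ D c hc half P hP A G hAG pm
    hpm0 hpm 0 ρ hρ1 hX
  have hexp : ExpM P C₀ := (hP.expM).mono hC2
  have h := hsmall (Fin n × (Fin D × Bool)) P hexp (coords n A) (coords n G)
    (fun t => restr A (win σ a Q c t)) (fun t => restr G (win σ a Q c t)) W hW
    (by
      rw [Finset.disjoint_left]
      intro i hi hi'
      simp only [coords, Finset.mem_product, Finset.mem_univ, true_and, and_true] at hi hi'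
      exact (Finset.disjoint_left.1 hAG) hi hi')
    (fun t i hi => restr_notMem A _ i hi) (fun t i hi => restr_notMem G _ i hi)
    (fun t => by rw [nsq_restr_win σ a Q hQ0 c A t, nsq_restr_win σ a Q hQ0 c A 0])
    (by rw [nsq_restr_win σ a Q hQ0 c A 0]; exact hvle A)
    (vA σ a Q c G) (hvle G) (fun t => nsq_restr_win σ a Q hQ0 c G t) (K₁ / ρ) hD1 hD2
  rw [SS_union σ a Q c P W A G hAG]
  have e : SS σ a Q c P W A = (1 / (W : ℝ)) * ∑ t ∈ Finset.range W,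
      ∫ x, Real.exp (dot (restr A (win σ a Q c (t : ℤ))) x) ∂P := rfl
  rw [e]
  refine h.trans ?_
  rw [mul_add]
  linarith

end FULL
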