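import Pool.Agent.Lib.MP_8a5982_an.HOST.Moments
import Pool.Agent.Lib.MP_8a5982_an.STAR.Defs

/-!
Project FULL (MP_8a5982_an): definitions.  See `Paper.md`.
-/

open MeasureTheory ProbabilityTheory

namespace FULL

/-! ### vectors and Gaussian measures -/

section vec

variable {ι : Type} [Fintype ι]

/-- the scalar product of `ℝ^ι` -/
def dot (u x : ι → ℝ) : ℝ := ∑ i, u i * x i

/-- the squared Euclidean norm -/
def nsq (u : ι → ℝ) : ℝ := ∑ i, u i ^ 2

/-- the coordinate functions -/
def crd {ι : Type} (i : ι) (x : ι → ℝ) : ℝ := x i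

/-- the product of the centred Gaussian laws with variances `w i` -/
noncomputable def gam (w : ι → NNReal) : Measure (ι → ℝ) :=
  Measure.pi fun i => gaussianReal 0 (w i)

/-- all moments: measurable and in all `L^p`, `p` a natural number -/
structure Gd {α : Type*} [MeasurableSpace α] (μ : Measure α) (F : α → ℝ) : Prop where
  meas : Measurable F
  mem : ∀ p : ℕ, MemLp F p μ

/-- a probability law on `ℝ^ι` with Gaussian-type exponential moments -/
structure ExpM (P : Measure (ι → ℝ)) (C : ℝ) : Prop where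
  nonneg : 0 ≤ C
  prob : IsProbabilityMeasure P
  int : ∀ u : ι → ℝ, Integrable (fun x => Real.exp (dot u x)) P
  le : ∀ u : ι → ℝ, ∫ x, Real.exp (dot u x) ∂P ≤ Real.exp (C * nsq u)

end vec

/-! ### the channel `y = w x + B` -/

section channel

variable {ι : Type} [Fintype ι] (P : Measure (ι → ℝ)) (w : ι → NNReal)

/-- the density of the law of `(x, w x + B)` with respect to `P ⊗ gam w` -/
noncomputable def dens (x y : ι → ℝ) : ℝ := Real.exp (∑ i, (y i * x i - w i * x i ^ 2 / 2))

/-- the normalising factor -/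
noncomputable def RR (y : ι → ℝ) : ℝ := ∫ x, dens w x y ∂P

/-- the unnormalised posterior mean -/
noncomputable def NN (f : (ι → ℝ) → ℝ) (y : ι → ℝ) : ℝ := ∫ x, f x * dens w x y ∂P

/-- the posterior mean of `f(x)` given `y` -/
noncomputable def post (f : (ι → ℝ) → ℝ) (y : ι → ℝ) : ℝ := NN P w f y / RR P w y

/-- the posterior covariance -/
noncomputable def cov (f g : (ι → ℝ) → ℝ) (y : ι → ℝ) : ℝ :=
  post P w (fun x => f x * g x) y - post P w f y * post P w g y

/-- the posterior third cumulant -/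
noncomputable def kap (f g h : (ι → ℝ) → ℝ) (y : ι → ℝ) : ℝ :=
  post P w (fun x => f x * g x * h x) y - post P w f y * post P w (fun x => g x * h x) y -
    post P w g y * post P w (fun x => f x * h x) y -
    post P w h y * post P w (fun x => f x * g x) y +
    2 * (post P w f y * post P w g y * post P w h y)

/-- the observation -/
def obs (p : (ι → ℝ) × (ι → ℝ)) : ι → ℝ := fun i => w i * p.1 i + p.2 i

/-- the law of `(x, y)`, `y = w x + B` -/
noncomputable def nu : Measure ((ι → ℝ) × (ι → ℝ)) :=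
  (P.prod (gam w)).map fun p => (p.1, obs w p)

/-- the noise `B = y - w x` -/
def noise (p : (ι → ℝ) × (ι → ℝ)) : ι → ℝ := fun i => p.2 i - w i * p.1 i

/-- the Cameron-Martin density for the shift `y ↦ y + u` -/
noncomputable def cm (u : ι → ℝ) (p : (ι → ℝ) × (ι → ℝ)) : ℝ :=
  Real.exp (∑ i, (u i * noise w p i / w i - u i ^ 2 / (2 * w i)))

/-- add `h` to the weights on `G` -/
noncomputable def addw [DecidableEq ι] (G : Finset ι) (h : NNReal) : ι → NNReal :=
  fun i => if i ∈ G then w i + h else w i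

/-- the weights: `s` on `G`, `w` elsewhere -/
noncomputable def onG [DecidableEq ι] (G : Finset ι) (s : NNReal) : ι → NNReal :=
  fun i => if i ∈ G then s else w i

end channel

/-- the `r`-th of `m` levels between `s₀` and `2 s₀` -/
noncomputable def lev (s₀ : NNReal) (m r : ℕ) : NNReal := s₀ * (1 + (r : NNReal) / (m : NNReal))

/-- the constant in the averaged bound for the posterior covariances -/
noncomputable def cImm (C : ℝ) (s₀ : NNReal) : ℝ := 8 * Real.exp C / s₀ + 1

/-! ### window systems -/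

/-- the weights `1` on `A`, `s` on `G`, `0` elsewhere -/
noncomputable def wt {ι : Type} [DecidableEq ι] (A G : Finset ι) (s : NNReal) : ι → NNReal :=
  onG (fun i => if i ∈ A then 1 else 0) G s

/-- The data of a window system: a law `P` on `ℝ^ι`, sets `A`, `G` of coordinates, windows
`a t`, `l t`, the Toeplitz function `q`, the length `W` of the time interval and the number `m`
of the noise levels. -/
structure Win (ι : Type) where
  P : Measure (ι → ℝ)
  A : Finset ι
  G : Finset ι
  a : ℤ → ι → ℝ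
  l : ℤ → ι → ℝ
  q : ℤ → ℝ
  W : ℕ
  m : ℕ

/-- The conditions: `a t` is supported in `A`, `l t` in `G`, `A` and `G` are disjoint, the Gram
matrix of the `l t` is Toeplitz, and the averaged bound for the posterior covariances holds. -/
structure IsWin {ι : Type} [Fintype ι] [DecidableEq ι] (C₀ : ℝ) (s₀ : NNReal) (S : Win ι) :
    Prop where
  hP : ExpM S.P C₀
  disj : Disjoint S.A S.G
  ha : ∀ t i, i ∉ S.A → S.a t i = 0
  hl : ∀ t i, i ∉ S.G → S.l t i = 0
  ha2 : ∀ t, nsq (S.a t) ≤ C₀
  hq : ∀ t t', dot (S.l t) (S.l t') = S.q (t - t')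
  hq0 : S.q 0 ≤ C₀
  hW : 0 < S.W
  hm : 0 < S.m
  imm : ∀ u : ι → ℝ, (1 / (S.m : ℝ)) * ∑ r ∈ Finset.range S.m, ∑ i ∈ S.G,
    ∫ p, cov S.P (wt S.A S.G (lev s₀ S.m r)) (crd i) (dot u) p.2 ^ 2
      ∂(nu S.P (wt S.A S.G (lev s₀ S.m r))) ≤ cImm C₀ s₀ * nsq u

/-- the factor `h_t = exp(<a, y> + c <l, x>)` -/
noncomputable def hfac {ι : Type} [Fintype ι] (a l : ι → ℝ) (c : ℝ) (p : (ι → ℝ) × (ι → ℝ)) : ℝ :=
  Real.exp (dot a p.2 + c * dot l p.1)

/-- the factor `exp(θ <l, B> / s - θ² |l|² / (2 s))` -/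
noncomputable def efac {ι : Type} [Fintype ι] (w : ι → NNReal) (s : ℝ) (l : ι → ℝ) (θ : ℝ)
    (p : (ι → ℝ) × (ι → ℝ)) : ℝ :=
  Real.exp (θ * dot l (noise w p) / s - θ ^ 2 * nsq l / (2 * s))

/-- the term of the third cumulant array -/
noncomputable def gterm {ι : Type} [Fintype ι] [DecidableEq ι] (P : Measure (ι → ℝ))
    (A G : Finset ι) (s : NNReal) (c θ : ℝ) (a l u v : ι → ℝ) : ℝ :=
  ∫ p, hfac a l c p * efac (wt A G s) s l θ p *
    kap P (wt A G s) (dot l) (dot u) (dot v) p.2 ∂(nu P (wt A G s))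

/-- the factor `H_t = h_t E_t (<l, B> - θ |l|²)` -/
noncomputable def Hfac {ι : Type} [Fintype ι] (w : ι → NNReal) (s : ℝ) (a l : ι → ℝ) (c θ : ℝ)
    (p : (ι → ℝ) × (ι → ℝ)) : ℝ :=
  hfac a l c p * efac w s l θ p * (dot l (noise w p) - θ * nsq l)

namespace Win

variable {ι : Type} (S : Win ι)

/-- the average over the window and over the levels -/
noncomputable def avg (F : ℤ → ℕ → ℝ) : ℝ :=
  (1 / ((S.W : ℝ) * S.m)) * ∑ t ∈ Finset.range S.W, ∑ r ∈ Finset.range S.m, F (t : ℤ) r

/-- the third cumulant array -/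
noncomputable def Gam [Fintype ι] [DecidableEq ι] (s₀ : NNReal) (c θ : ℝ) (i j k : ℤ) : ℝ :=
  S.avg fun t r => gterm S.P S.A S.G (lev s₀ S.m r) c θ (S.a (t + i)) (S.l (t + i)) (S.l (t + j))
    (S.l (t + k))

/-- the Gram kernel of the factors `H_t` -/
noncomputable def r1 [Fintype ι] [DecidableEq ι] (s₀ : NNReal) (c θ : ℝ) (i i' : ℤ) : ℝ :=
  S.avg fun t r => ((lev s₀ S.m r : ℝ) ^ 2)⁻¹ *
    ∫ p, Hfac (wt S.A S.G (lev s₀ S.m r)) (lev s₀ S.m r) (S.a (t + i)) (S.l (t + i)) c θ p *
      Hfac (wt S.A S.G (lev s₀ S.m r)) (lev s₀ S.m r) (S.a (t + i')) (S.l (t + i')) c θ p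
      ∂(nu S.P (wt S.A S.G (lev s₀ S.m r)))

end Win

/-! ### information quantities -/

section info

variable {ι : Type} [Fintype ι] (P : Measure (ι → ℝ)) (w : ι → NNReal) (l : ℤ → ι → ℝ) (W : ℕ)

/-- the average size of the posterior means of the window variables -/
noncomputable def D1 : ℝ :=
  (1 / (W : ℝ)) * ∑ t ∈ Finset.range W, ∫ p, |post P w (dot (l (t : ℤ))) p.2| ∂(nu P w)

/-- the average size of the fluctuation of the posterior second moments -/
noncomputable def D2 (v : ℝ) : ℝ :=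
  (1 / (W : ℝ)) * ∑ t ∈ Finset.range W,
    ∫ p, |post P w (fun x => dot (l (t : ℤ)) x ^ 2) p.2 - v| ∂(nu P w)

end info

/-- admissible laws: any two of the `n` vectors are jointly standard Gaussian -/
def Adm (n : ℕ) {κ : Type} [Fintype κ] (P : Measure (Fin n × κ → ℝ)) : Prop :=
  IsProbabilityMeasure P ∧ ∀ S : Finset (Fin n), S.card ≤ 2 →
    P.map (fun x (i : S × κ) => x (i.1.1, i.2)) = Measure.pi fun _ : S × κ => gaussianReal 0 1

/-! ### the windows of the cell decomposition -/

section cells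

variable (σ : Measure UnitAddCircle) {n : ℕ} (a : Fin n → ℤ →₀ ℝ) (Q : ℕ) {D : ℕ}
  (c : Fin D → ℕ)

/-- the mass of the arc `[c_j/Q, (c_j+1)/Q)` -/
noncomputable def mass (j : Fin D) : ℝ := (σ (STAR.arc Q (c j))).toReal

/-- `F_k(c_j/Q) exp(2 π i c_j t / Q)` -/
noncomputable def samp (t : ℤ) (k : Fin n) (j : Fin D) : ℂ :=
  HOST.rtrig (a k) ((((c j : ℝ) / Q : ℝ)) : UnitAddCircle) * STAR.ee Q (c j) t

/-- the window vector at time `t` -/
noncomputable def win (t : ℤ) (i : Fin n × (Fin D × Bool)) : ℝ :=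
  Real.sqrt (2 * mass σ Q c i.2.1) *
    (if i.2.2 then -(samp a Q c t i.1 i.2.1).im else (samp a Q c t i.1 i.2.1).re)

/-- the coordinates of a set of cells -/
def coords (n : ℕ) {D : ℕ} (A : Finset (Fin D)) : Finset (Fin n × (Fin D × Bool)) :=
  Finset.univ ×ˢ (A ×ˢ Finset.univ)

/-- restriction to a set of cells -/
def restr {n D : ℕ} (A : Finset (Fin D)) (u : Fin n × (Fin D × Bool) → ℝ)
    (i : Fin n × (Fin D × Bool)) : ℝ := if i.2.1 ∈ A then u i else 0

/-- the norm of the windows -/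
noncomputable def vA (A : Finset (Fin D)) : ℝ := nsq (restr A (win σ a Q c 0))

/-- the averaged exponential moment of the windows restricted to the cells of `A` -/
noncomputable def SS (P : Measure (Fin n × (Fin D × Bool) → ℝ)) (W : ℕ) (A : Finset (Fin D)) : ℝ :=
  (1 / (W : ℝ)) * ∑ t ∈ Finset.range W,
    ∫ x, Real.exp (dot (restr A (win σ a Q c (t : ℤ))) x) ∂P

/-- the window system of two sets of cells -/
noncomputable def cellWin (P : Measure (Fin n × (Fin D × Bool) → ℝ)) (A G : Finset (Fin D))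
    (W m : ℕ) : Win (Fin n × (Fin D × Bool)) where
  P := P
  A := coords n A
  G := coords n G
  a := fun t => restr A (win σ a Q c t)
  l := fun t => restr G (win σ a Q c t)
  q := fun t => dot (restr G (win σ a Q c t)) (restr G (win σ a Q c 0))
  W := W
  m := m

/-- `∑_k ∑_b |a_k(b)|` -/
noncomputable def l1 (a : Fin n → ℤ →₀ ℝ) : ℝ := ∑ k, (a k).sum fun _ x => |x|

end cells

end FULL
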