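import Pool.Agent.Lib.MP_8a5982_an.FULL.Adm
import Pool.Agent.Lib.MP_8a5982_an.FULL.Cell
import Pool.Agent.Lib.MP_8a5982_an.FULL.Mom

/-!
Project FULL, module DEL: the effect of deleting cells.
-/

open MeasureTheory ProbabilityTheory Filter Topology

namespace FULL

private lemma exp_sub_le_aux {u v : ℝ} (h : v ≤ u) :
    |Real.exp u - Real.exp v| ≤ (u - v) * Real.exp u := by
  have h1 := Real.add_one_le_exp (v - u)
  have h2 : Real.exp v = Real.exp (v - u) * Real.exp u := by
    rw [← Real.exp_add]; congr 1; ring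
  have h3 : Real.exp v ≤ Real.exp u := Real.exp_le_exp.2 h
  rw [abs_of_nonneg (by linarith)]
  have h4 := Real.exp_pos u
  rw [h2]
  nlinarith

private lemma exp_sub_le (u v : ℝ) :
    |Real.exp u - Real.exp v| ≤ |u - v| * (Real.exp u + Real.exp v) := by
  have hu := Real.exp_pos u
  have hv := Real.exp_pos v
  rcases le_total v u with h | h
  · have h1 := exp_sub_le_aux h
    rw [abs_of_nonneg (a := u - v) (by linarith)]
    nlinarith
  · have h1 := exp_sub_le_aux h
    rw [abs_sub_comm, abs_sub_comm u v, abs_of_nonneg (a := v - u) (by linarith)]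
    nlinarith

/-- one time -/
private lemma exp_delete {ι : Type} [Fintype ι] {P : Measure (ι → ℝ)} {C b : ℝ} (hP : ExpM P C)
    (u v : ι → ℝ) (hu : nsq u ≤ b) (huv : nsq (u + v) ≤ b) :
    |(∫ x, Real.exp (dot (u + v) x) ∂P) - ∫ x, Real.exp (dot u x) ∂P| ≤
      Real.sqrt (16 * Real.exp (C + 4 * C * b)) * Real.sqrt (nsq v) := by
  have := hP.prob
  have g1 : Gd P (fun x => Real.exp (dot (u + v) x)) := hP.gd_exp _
  have g2 : Gd P (fun x => Real.exp (dot u x)) := hP.gd_exp _
  have g3 : Gd P (fun x => |dot v x|) := (hP.gd_dot v).abs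
  have g4 : Gd P (fun x => Real.exp (dot (u + v) x) + Real.exp (dot u x)) := g1.add g2
  have hcs := g3.cs g4
  have hexp : ∀ z : ι → ℝ, nsq z ≤ b →
      ∫ x, Real.exp (dot z x) ^ 2 ∂P ≤ Real.exp (4 * C * b) := by
    intro z hz
    have h1 : (fun x => Real.exp (dot z x) ^ 2) = fun x => Real.exp (dot ((2 : ℝ) • z) x) := by
      funext x
      rw [dot_smul, ← Real.exp_nat_mul]
      norm_num
    rw [h1]
    refine (hP.le _).trans (Real.exp_le_exp.2 ?_)
    rw [nsq_smul]
    have := mul_le_mul_of_nonneg_left hz hP.nonneg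
    linarith
  have hz2 : ∫ x, |dot v x| ^ 2 ∂P ≤ 4 * Real.exp C * nsq v := by
    have h1 := hP.moment v 1
    have h2 : (fun x => |dot v x| ^ 2) = fun x => dot v x ^ (2 * 1) := by
      funext x
      rw [sq_abs, mul_one]
    rw [h2]
    refine h1.trans (le_of_eq ?_)
    norm_num [Nat.factorial]
  have hs2 : ∫ x, (Real.exp (dot (u + v) x) + Real.exp (dot u x)) ^ 2 ∂P ≤
      4 * Real.exp (4 * C * b) := by
    have h1 : ∫ x, (Real.exp (dot (u + v) x) + Real.exp (dot u x)) ^ 2 ∂P ≤
        ∫ x, (2 * Real.exp (dot (u + v) x) ^ 2 + 2 * Real.exp (dot u x) ^ 2) ∂P := by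
      refine integral_mono (g4.pow 2).integrable
        (((g1.pow 2).const_mul 2).add ((g2.pow 2).const_mul 2)).integrable fun x => ?_
      dsimp only
      nlinarith [sq_nonneg (Real.exp (dot (u + v) x) - Real.exp (dot u x))]
    rw [integral_add ((g1.pow 2).const_mul 2).integrable ((g2.pow 2).const_mul 2).integrable,
      integral_const_mul, integral_const_mul] at h1
    have h2 := hexp _ huv
    have h3 := hexp _ hu
    linarith
  have hmain : (∫ x, |dot v x| * (Real.exp (dot (u + v) x) + Real.exp (dot u x)) ∂P) ^ 2 ≤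
      16 * Real.exp (C + 4 * C * b) * nsq v := by
    refine hcs.trans ?_
    have h0 : 0 ≤ ∫ x, (Real.exp (dot (u + v) x) + Real.exp (dot u x)) ^ 2 ∂P :=
      integral_nonneg fun x => sq_nonneg _
    have h1 : 0 ≤ 4 * Real.exp C * nsq v := by
      have := nsq_nonneg v
      positivity
    calc _ ≤ (4 * Real.exp C * nsq v) * (4 * Real.exp (4 * C * b)) :=
          mul_le_mul hz2 hs2 h0 h1
      _ = 16 * Real.exp (C + 4 * C * b) * nsq v := by
          rw [Real.exp_add]; ring
  have habs : |(∫ x, Real.exp (dot (u + v) x) ∂P) - ∫ x, Real.exp (dot u x) ∂P| ≤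
      ∫ x, |dot v x| * (Real.exp (dot (u + v) x) + Real.exp (dot u x)) ∂P := by
    rw [← integral_sub g1.integrable g2.integrable]
    refine (abs_integral_le_integral_abs).trans ?_
    refine integral_mono (g1.sub g2).abs.integrable (g3.mul g4).integrable fun x => ?_
    dsimp only
    have h1 := exp_sub_le (dot (u + v) x) (dot u x)
    have h2 : dot (u + v) x - dot u x = dot v x := by rw [dot_add]; ring
    rw [h2] at h1
    exact h1
  refine habs.trans ?_
  rw [← Real.sqrt_mul (by positivity)]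
  exact Real.le_sqrt_of_sq_le hmain

/-- the effect of deleting cells -/
theorem SS_delete (σ : Measure UnitAddCircle) [IsProbabilityMeasure σ]
    (hsymm : σ.map (fun x => -x) = σ) (hna : ∀ x, σ {x} = 0) {n : ℕ} (a : Fin n → ℤ →₀ ℝ) :
    ∃ K : ℝ, 0 ≤ K ∧ ∀ (Q : ℕ), 0 < Q → ∀ (D : ℕ) (c : Fin D → ℕ),
      Function.Injective c → (∀ j, 2 * (c j + 1) ≤ Q) →
      ∀ P : Measure (Fin n × (Fin D × Bool) → ℝ), Adm n P → ∀ (W : ℕ), 0 < W →
      ∀ A G : Finset (Fin D), Disjoint A G →
      |SS σ a Q c P W (A ∪ G) - SS σ a Q c P W A| ≤ K * Real.sqrt (vA σ a Q c G) ∧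
        |SS σ a Q c P W A| ≤ K := by
  set C : ℝ := (n : ℝ) ^ 2 with hC
  set b : ℝ := l1 a ^ 2 with hb
  have hb0 : 0 ≤ b := sq_nonneg _
  set K1 : ℝ := Real.sqrt (16 * Real.exp (C + 4 * C * b)) with hK1
  set K2 : ℝ := Real.exp (C * b) with hK2
  have hK10 : 0 ≤ K1 := Real.sqrt_nonneg _
  have hK20 : 0 ≤ K2 := (Real.exp_pos _).le
  refine ⟨K1 + K2, by positivity, ?_⟩
  intro Q hQ D c hc half P hP W hW A G hAG
  have hE : ExpM P C := hP.expM
  have := hE.prob
  have hW' : (0 : ℝ) < W := by exact_mod_cast hW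
  have hvA : ∀ A : Finset (Fin D), vA σ a Q c A ≤ b := by
    intro A
    refine (vA_le σ a Q hQ c A).trans ?_
    have h1 : ∑ j ∈ A, 2 * mass σ Q c j ≤ 1 := by
      refine le_trans ?_ (mass_sum_le σ Q hQ c hc half hsymm hna)
      refine Finset.sum_le_sum_of_subset_of_nonneg (Finset.subset_univ _) fun j _ _ => ?_
      have : 0 ≤ mass σ Q c j := ENNReal.toReal_nonneg
      linarith
    nlinarith
  have hnsq : ∀ (A : Finset (Fin D)) (t : ℤ), nsq (restr A (win σ a Q c t)) ≤ b := by
    intro A t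
    rw [nsq_restr_win σ a Q hQ c A t]
    exact hvA A
  have hsplit : ∀ t : ℤ, restr (A ∪ G) (win σ a Q c t) =
      restr A (win σ a Q c t) + restr G (win σ a Q c t) := fun t => restr_union A G hAG _
  constructor
  · have h1 : ∀ t : ℕ, |(∫ x, Real.exp (dot (restr (A ∪ G) (win σ a Q c (t : ℤ))) x) ∂P) -
        ∫ x, Real.exp (dot (restr A (win σ a Q c (t : ℤ))) x) ∂P| ≤
        K1 * Real.sqrt (vA σ a Q c G) := by
      intro t
      have h2 := exp_delete hE (restr A (win σ a Q c (t : ℤ))) (restr G (win σ a Q c (t : ℤ)))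
        (hnsq A t) (by rw [← hsplit]; exact hnsq _ t)
      rw [← hsplit, nsq_restr_win σ a Q hQ c G t] at h2
      exact h2
    unfold SS
    rw [← mul_sub, ← Finset.sum_sub_distrib, abs_mul, abs_of_pos (by positivity : 0 < 1 / (W : ℝ))]
    have h3 : |∑ t ∈ Finset.range W, ((∫ x, Real.exp (dot (restr (A ∪ G)
        (win σ a Q c (t : ℤ))) x) ∂P) - ∫ x, Real.exp (dot (restr A (win σ a Q c (t : ℤ))) x) ∂P)|
        ≤ W * (K1 * Real.sqrt (vA σ a Q c G)) := by
      refine (Finset.abs_sum_le_sum_abs _ _).trans ?_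
      refine (Finset.sum_le_sum fun t _ => h1 t).trans (le_of_eq ?_)
      rw [Finset.sum_const, Finset.card_range, nsmul_eq_mul]
    calc 1 / (W : ℝ) * _ ≤ 1 / (W : ℝ) * (W * (K1 * Real.sqrt (vA σ a Q c G))) :=
          mul_le_mul_of_nonneg_left h3 (by positivity)
      _ = K1 * Real.sqrt (vA σ a Q c G) := by field_simp
      _ ≤ (K1 + K2) * Real.sqrt (vA σ a Q c G) :=
          mul_le_mul_of_nonneg_right (by linarith) (Real.sqrt_nonneg _)
  · have h1 : ∀ t : ℕ, |∫ x, Real.exp (dot (restr A (win σ a Q c (t : ℤ))) x) ∂P| ≤ K2 := by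
      intro t
      rw [abs_of_nonneg (integral_nonneg fun x => (Real.exp_pos _).le)]
      refine (hE.le _).trans (Real.exp_le_exp.2 ?_)
      exact mul_le_mul_of_nonneg_left (hnsq A t) hE.nonneg
    unfold SS
    rw [abs_mul, abs_of_pos (by positivity : 0 < 1 / (W : ℝ))]
    have h3 : |∑ t ∈ Finset.range W, ∫ x, Real.exp (dot (restr A (win σ a Q c (t : ℤ))) x) ∂P|
        ≤ W * K2 := by
      refine (Finset.abs_sum_le_sum_abs _ _).trans ?_
      refine (Finset.sum_le_sum fun t _ => h1 t).trans (le_of_eq ?_)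
      rw [Finset.sum_const, Finset.card_range, nsmul_eq_mul]
    calc 1 / (W : ℝ) * _ ≤ 1 / (W : ℝ) * (W * K2) :=
          mul_le_mul_of_nonneg_left h3 (by positivity)
      _ = K2 := by field_simp
      _ ≤ K1 + K2 := by linarith

end FULL
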