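import Pool.Agent.Lib.MP_8a5982_an.FULL.Post2
import Pool.Agent.Lib.MP_8a5982_an.FULL.Mom

/-!
Project FULL, module DIFF: derivatives of posterior means.
-/

open MeasureTheory ProbabilityTheory Filter Topology

namespace FULL

section diff
variable {ι : Type} [Fintype ι] {P : Measure (ι → ℝ)} {C : ℝ}

/-- The derivative of the unnormalised posterior mean. -/
theorem hasDerivAt_NN (hP : ExpM P C) (w : ι → NNReal) {f : (ι → ℝ) → ℝ} (hf : Gd P f)
    (u y : ι → ℝ) (θ : ℝ) :
    HasDerivAt (fun θ : ℝ => NN P w f (y + θ • u))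
      (NN P w (fun x => dot u x * f x) (y + θ • u)) θ := by
  have hprob : IsProbabilityMeasure P := hP.prob
  have hmd : ∀ y : ι → ℝ, Measurable (fun x => dens w x y) := fun y =>
    (measurable_dens w).comp (measurable_id.prodMk measurable_const)
  set R : ℝ := |θ| + 1 with hR
  have hR0 : 0 ≤ R := by positivity
  set bound : (ι → ℝ) → ℝ := fun x =>
    (|dot u x| * |f x|) * ((Real.exp (dot (R • u) x) + Real.exp (dot ((-R) • u) x)) *
      Real.exp (dot y x)) with hbound
  have hGb : Gd P bound := by
    refine Gd.mul (Gd.mul (hP.gd_dot u).abs hf.abs) (Gd.mul (Gd.add (hP.gd_exp _) (hP.gd_exp _))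
      (hP.gd_exp _))
  have hdens : ∀ (x : ι → ℝ) (s : ℝ), |s| ≤ R → dens w x (y + s • u) ≤
      (Real.exp (dot (R • u) x) + Real.exp (dot ((-R) • u) x)) * Real.exp (dot y x) := by
    intro x s hs
    unfold dens
    have h1 : (∑ i, ((y + s • u) i * x i - w i * x i ^ 2 / 2)) ≤ s * dot u x + dot y x := by
      unfold dot
      rw [Finset.mul_sum, ← Finset.sum_add_distrib]
      refine Finset.sum_le_sum fun i _ => ?_
      have : 0 ≤ (w i : ℝ) * x i ^ 2 / 2 := by positivity
      simp only [Pi.add_apply, Pi.smul_apply, smul_eq_mul]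
      linarith
    refine (Real.exp_le_exp.2 h1).trans ?_
    rw [Real.exp_add]
    refine mul_le_mul_of_nonneg_right ?_ (Real.exp_pos _).le
    rw [dot_smul, dot_smul]
    have h2 := abs_le.1 hs
    rcases le_total 0 (dot u x) with h | h
    · have : s * dot u x ≤ R * dot u x := mul_le_mul_of_nonneg_right h2.2 h
      linarith [Real.exp_le_exp.2 this, Real.exp_pos (-R * dot u x)]
    · have : s * dot u x ≤ -R * dot u x := mul_le_mul_of_nonpos_right h2.1 h
      linarith [Real.exp_le_exp.2 this, Real.exp_pos (R * dot u x)]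
  have hd : ∀ (x : ι → ℝ) (s : ℝ), HasDerivAt (fun s : ℝ => f x * dens w x (y + s • u))
      (dot u x * f x * dens w x (y + s • u)) s := by
    intro x s
    have h1 : HasDerivAt (fun s : ℝ => ∑ i, ((y + s • u) i * x i - w i * x i ^ 2 / 2))
        (dot u x) s := by
      have h2 : (fun s : ℝ => ∑ i, ((y + s • u) i * x i - w i * x i ^ 2 / 2)) =
          fun s : ℝ => s * dot u x + ∑ i, (y i * x i - w i * x i ^ 2 / 2) := by
        funext s
        unfold dot
        rw [Finset.mul_sum, ← Finset.sum_add_distrib]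
        refine Finset.sum_congr rfl fun i _ => ?_
        simp only [Pi.add_apply, Pi.smul_apply, smul_eq_mul]
        ring
      rw [h2]
      simpa using ((hasDerivAt_id s).mul_const (dot u x)).add_const
        (∑ i, (y i * x i - w i * x i ^ 2 / 2))
    have h3 := (h1.exp).const_mul (f x)
    refine h3.congr_deriv ?_
    unfold dens
    ring
  have key := hasDerivAt_integral_of_dominated_loc_of_deriv_le (μ := P) (𝕜 := ℝ) (E := ℝ)
    (F := fun s x => f x * dens w x (y + s • u))
    (F' := fun s x => dot u x * f x * dens w x (y + s • u)) (x₀ := θ) (s := Metric.ball θ 1)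
    (bound := bound) (Metric.ball_mem_nhds θ one_pos)
    (Eventually.of_forall fun s => (hf.meas.mul (hmd _)).aestronglyMeasurable)
    (integrable_dens hP w hf _)
    (((measurable_dot u).mul hf.meas).mul (hmd _)).aestronglyMeasurable
    (ae_of_all _ fun x s hs => by
      have hs1 : |s| ≤ R := by
        have := abs_lt.1 (by simpa [Real.dist_eq] using hs : |s - θ| < 1)
        rw [hR]
        refine abs_le.2 ⟨?_, ?_⟩
        · linarith [neg_abs_le θ, this.1]
        · linarith [le_abs_self θ, this.2]
      have hpos : 0 < dens w x (y + s • u) := Real.exp_pos _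
      rw [Real.norm_eq_abs, abs_mul, abs_mul, abs_of_pos hpos]
      exact mul_le_mul_of_nonneg_left (hdens x s hs1) (by positivity))
    hGb.integrable
    (ae_of_all _ fun x s _ => hd x s)
  exact key.2

theorem RR_eq_NN (w : ι → NNReal) (y : ι → ℝ) : RR P w y = NN P w (fun _ => 1) y := by
  unfold RR NN
  simp

variable (hP : ExpM P C) (w : ι → NNReal)
include hP

theorem hasDerivAt_post {f : (ι → ℝ) → ℝ} (hf : Gd P f) (u y : ι → ℝ) (θ : ℝ) :
    HasDerivAt (fun θ : ℝ => post P w f (y + θ • u)) (cov P w (dot u) f (y + θ • u)) θ := by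
  have hprob : IsProbabilityMeasure P := hP.prob
  have h1 := hasDerivAt_NN hP w hf u y θ
  have h2 := hasDerivAt_NN hP w (Gd.const (μ := P) 1) u y θ
  have hpos := RR_pos hP w (y + θ • u)
  have h2' : HasDerivAt (fun θ : ℝ => RR P w (y + θ • u)) (NN P w (dot u) (y + θ • u)) θ := by
    simp only [RR_eq_NN]
    simpa using h2
  refine (h1.div h2' hpos.ne').congr_deriv ?_
  unfold cov post
  field_simp

theorem hasDerivAt_cov {f g : (ι → ℝ) → ℝ} (hf : Gd P f) (hg : Gd P g) (u y : ι → ℝ) (θ : ℝ) :
    HasDerivAt (fun θ : ℝ => cov P w f g (y + θ • u)) (kap P w (dot u) f g (y + θ • u)) θ := by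
  have hprob : IsProbabilityMeasure P := hP.prob
  have h1 := hasDerivAt_post hP w (hf.mul hg) u y θ
  have h2 := hasDerivAt_post hP w hf u y θ
  have h3 := hasDerivAt_post hP w hg u y θ
  refine (h1.sub (h2.mul h3)).congr_deriv ?_
  unfold kap cov
  simp only [mul_assoc]
  ring

/-- the second order Taylor formula -/
theorem taylor (u y : ι → ℝ) (c : ℝ) :
    post P w (dot u) (y + c • u) = post P w (dot u) y + c * cov P w (dot u) (dot u) y +
      ∫ θ in (0 : ℝ)..c, (c - θ) * kap P w (dot u) (dot u) (dot u) (y + θ • u) := by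
  have hprob : IsProbabilityMeasure P := hP.prob
  have hu := hP.gd_dot u
  have hcont : ∀ {f : (ι → ℝ) → ℝ}, Gd P f → Continuous (fun θ : ℝ => post P w f (y + θ • u)) :=
    fun {f} hf => continuous_iff_continuousAt.2 fun θ => (hasDerivAt_post hP w hf u y θ).continuousAt
  have hkc : Continuous (fun θ : ℝ => kap P w (dot u) (dot u) (dot u) (y + θ • u)) := by
    unfold kap
    have h1 := hcont hu
    have h2 := hcont (hu.mul hu)
    have h3 := hcont ((hu.mul hu).mul hu)
    exact (((h3.sub (h1.mul h2)).sub (h1.mul h2)).sub (h1.mul h2)).add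
      (continuous_const.mul ((h1.mul h1).mul h1))
  have hder : ∀ θ : ℝ, HasDerivAt (fun θ : ℝ => (c - θ) * cov P w (dot u) (dot u) (y + θ • u) +
      post P w (dot u) (y + θ • u))
      ((c - θ) * kap P w (dot u) (dot u) (dot u) (y + θ • u)) θ := by
    intro θ
    have h1 := ((hasDerivAt_id θ).const_sub c).mul (hasDerivAt_cov hP w hu hu u y θ)
    refine (h1.add (hasDerivAt_post hP w hu u y θ)).congr_deriv ?_
    simp
  have h := intervalIntegral.integral_eq_sub_of_hasDerivAt (a := 0) (b := c) (fun θ _ => hder θ)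
    (((continuous_const.sub continuous_id).mul hkc).intervalIntegrable _ _)
  rw [h]
  simp only [sub_self, zero_mul, zero_add, sub_zero, zero_smul, add_zero]
  ring

theorem measurable_kap_shift (u : ι → ℝ) {f g h : (ι → ℝ) → ℝ} (hf : Gd P f) (hg : Gd P g)
    (hh : Gd P h) :
    Measurable (fun q : ℝ × (ι → ℝ) => kap P w f g h (q.2 + q.1 • u)) := by
  have hT : Measurable (fun q : ℝ × (ι → ℝ) => q.2 + q.1 • u) := by fun_prop
  have hp : ∀ {f : (ι → ℝ) → ℝ}, Measurable f →
      Measurable (fun q : ℝ × (ι → ℝ) => post P w f (q.2 + q.1 • u)) :=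
    fun {f} hf => (measurable_post hP w hf).comp hT
  unfold kap
  have h1 := hp hf.meas
  have h2 := hp hg.meas
  have h3 := hp hh.meas
  have h12 := hp (hf.meas.mul hg.meas)
  have h13 := hp (hf.meas.mul hh.meas)
  have h23 := hp (hg.meas.mul hh.meas)
  have h123 := hp ((hf.meas.mul hg.meas).mul hh.meas)
  exact (((h123.sub (h1.mul h23)).sub (h2.mul h13)).sub (h3.mul h12)).add
    (measurable_const.mul ((h1.mul h2).mul h3))

end diff

end FULL
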