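import Pool.Agent.Lib.MP_8a5982_an.FULL.EntDefs

/-!
Project FULL, phase 2, module EN1: entropy inequalities for finite probability vectors.
-/

open MeasureTheory ProbabilityTheory Filter Topology

namespace FULL

namespace En1Aux

theorem pt_le {p q : ℝ} (hp : 0 ≤ p) (hq : 0 ≤ q) (h : q = 0 → p = 0) :
    Real.negMulLog p + p * Real.log q ≤ q - p := by
  rcases hp.eq_or_lt with h0 | h0
  · rw [← h0]
    simpa using hq
  · have hq' : 0 < q := lt_of_le_of_ne hq (fun e => h0.ne' (h e.symm))
    have h1 := Real.log_le_sub_one_of_pos (div_pos hq' h0)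
    rw [Real.log_div hq'.ne' h0.ne'] at h1
    have h2 := mul_le_mul_of_nonneg_left h1 h0.le
    have h3 : p * (q / p - 1) = q - p := by field_simp
    rw [h3] at h2
    unfold Real.negMulLog
    linarith

theorem pt_eq {p q : ℝ} (hp : 0 ≤ p) (hq : 0 ≤ q) (h : q = 0 → p = 0)
    (he : q - p ≤ Real.negMulLog p + p * Real.log q) : p = q := by
  rcases hp.eq_or_lt with h0 | h0
  · rw [← h0] at he ⊢
    simp only [sub_zero, Real.negMulLog_zero, zero_mul, add_zero] at he
    exact le_antisymm hq he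
  · have hq' : 0 < q := lt_of_le_of_ne hq (fun e => h0.ne' (h e.symm))
    by_contra hne
    have h1 := Real.log_lt_sub_one_of_pos (div_pos hq' h0)
      (by rw [ne_eq, div_eq_one_iff_eq h0.ne']; exact fun e => hne e.symm)
    rw [Real.log_div hq'.ne' h0.ne'] at h1
    have h2 := mul_lt_mul_of_pos_left h1 h0
    have h3 : p * (q / p - 1) = q - p := by field_simp
    rw [h3] at h2
    unfold Real.negMulLog at he
    linarith

section two
variable {α β : Type} [Fintype α] [Fintype β] (p : α → β → ℝ) (hp : ∀ a b, 0 ≤ p a b)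
include hp

theorem rowpos (a : α) (b : β) : p a b ≤ ∑ b', p a b' :=
  Finset.single_le_sum (f := fun b' => p a b') (fun b' _ => hp a b') (Finset.mem_univ b)

theorem colpos (a : α) (b : β) : p a b ≤ ∑ a', p a' b :=
  Finset.single_le_sum (f := fun a' => p a' b) (fun a' _ => hp a' b) (Finset.mem_univ a)

theorem totpos (a : α) (b : β) : p a b ≤ ∑ a', ∑ b', p a' b' :=
  le_trans (rowpos p hp a b) (Finset.single_le_sum (f := fun a' => ∑ b', p a' b')
    (fun a' _ => Finset.sum_nonneg fun b' _ => hp a' b') (Finset.mem_univ a))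

/-- the pointwise inequality -/
theorem key (a : α) (b : β) : Real.negMulLog (p a b) + (p a b * Real.log (∑ b', p a b') +
    p a b * Real.log (∑ a', p a' b) - p a b * Real.log (∑ a', ∑ b', p a' b')) ≤
      (∑ b', p a b') * (∑ a', p a' b) / (∑ a', ∑ b', p a' b') - p a b ∧
    ((∑ b', p a b') * (∑ a', p a' b) / (∑ a', ∑ b', p a' b') - p a b ≤
      Real.negMulLog (p a b) + (p a b * Real.log (∑ b', p a b') +
    p a b * Real.log (∑ a', p a' b) - p a b * Real.log (∑ a', ∑ b', p a' b')) →
      p a b = (∑ b', p a b') * (∑ a', p a' b) / (∑ a', ∑ b', p a' b')) := by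
  have h1 := rowpos p hp a b
  have h2 := colpos p hp a b
  have h3 := totpos p hp a b
  have h0 := hp a b
  set A := ∑ b', p a b' with hA
  set B := ∑ a', p a' b with hB
  set C := ∑ a', ∑ b', p a' b' with hC
  have hq : 0 ≤ A * B / C := by
    apply div_nonneg (mul_nonneg (h0.trans h1) (h0.trans h2)) (h0.trans h3)
  have hz : A * B / C = 0 → p a b = 0 := by
    intro h
    rw [div_eq_zero_iff, mul_eq_zero] at h
    rcases h with (h | h) | h <;> linarith
  have hlog : p a b * Real.log A + p a b * Real.log B - p a b * Real.log C =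
      p a b * Real.log (A * B / C) := by
    rcases h0.eq_or_lt with h | h
    · rw [← h]; ring
    · have hA' : A ≠ 0 := by linarith
      have hB' : B ≠ 0 := by linarith
      have hC' : C ≠ 0 := by linarith
      rw [Real.log_div (mul_ne_zero hA' hB') hC', Real.log_mul hA' hB']
      ring
  rw [hlog]
  exact ⟨pt_le h0 hq hz, pt_eq h0 hq hz⟩

omit hp in
theorem e1 : ∑ a, ∑ b, p a b * Real.log (∑ b', p a b') = -∑ a, Real.negMulLog (∑ b, p a b) := by
  rw [← Finset.sum_neg_distrib]
  refine Finset.sum_congr rfl fun a _ => ?_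
  rw [← Finset.sum_mul]
  unfold Real.negMulLog
  ring

omit hp in
theorem e2 : ∑ a, ∑ b, p a b * Real.log (∑ a', p a' b) = -∑ b, Real.negMulLog (∑ a, p a b) := by
  rw [Finset.sum_comm, ← Finset.sum_neg_distrib]
  refine Finset.sum_congr rfl fun b _ => ?_
  rw [← Finset.sum_mul]
  unfold Real.negMulLog
  ring

omit hp in
theorem e3 : ∑ a, ∑ b, p a b * Real.log (∑ a', ∑ b', p a' b') =
    -Real.negMulLog (∑ a, ∑ b, p a b) := by
  simp_rw [← Finset.sum_mul]
  unfold Real.negMulLog
  ring

omit hp in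
theorem e4 : ∑ a, ∑ b, (∑ b', p a b') * (∑ a', p a' b) / (∑ a', ∑ b', p a' b') =
    ∑ a, ∑ b, p a b := by
  have h : ∑ a, ∑ b, (∑ b', p a b') * (∑ a', p a' b) / (∑ a', ∑ b', p a' b') =
      (∑ a, ∑ b, p a b) * (∑ b, ∑ a, p a b) / (∑ a', ∑ b', p a' b') := by
    rw [Finset.sum_mul, Finset.sum_div]
    refine Finset.sum_congr rfl fun a _ => ?_
    rw [Finset.mul_sum, Finset.sum_div]
  rw [h, Finset.sum_comm (s := (Finset.univ : Finset β))]
  by_cases hC : (∑ a, ∑ b, p a b) = 0
  · rw [hC]; simp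
  · field_simp

/-- subadditivity, without normalisation -/
theorem gen : ∑ a, ∑ b, Real.negMulLog (p a b) + Real.negMulLog (∑ a, ∑ b, p a b) ≤
    ∑ a, Real.negMulLog (∑ b, p a b) + ∑ b, Real.negMulLog (∑ a, p a b) := by
  have hs := Finset.sum_le_sum (s := (Finset.univ : Finset α)) (fun a _ =>
    Finset.sum_le_sum (s := (Finset.univ : Finset β)) (fun b _ => (key p hp a b).1))
  simp only [Finset.sum_add_distrib, Finset.sum_sub_distrib] at hs
  rw [e1, e2, e3, e4] at hs
  linarith

end two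

end En1Aux

open En1Aux

/-- strong subadditivity -/
theorem fin_ssa {α β γ : Type} [Fintype α] [Fintype β] [Fintype γ] (p : α → β → γ → ℝ)
    (hp : ∀ a b c, 0 ≤ p a b c) :
    ∑ a, ∑ b, ∑ c, Real.negMulLog (p a b c) + ∑ c, Real.negMulLog (∑ a, ∑ b, p a b c) ≤
      ∑ a, ∑ c, Real.negMulLog (∑ b, p a b c) + ∑ b, ∑ c, Real.negMulLog (∑ a, p a b c) := by
  have h := Finset.sum_le_sum (s := (Finset.univ : Finset γ)) (fun c _ =>
    gen (fun a b => p a b c) (fun a b => hp a b c))
  simp only [Finset.sum_add_distrib] at h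
  have e1 : ∑ a, ∑ b, ∑ c, Real.negMulLog (p a b c) = ∑ c, ∑ a, ∑ b, Real.negMulLog (p a b c) := by
    rw [Finset.sum_comm]
    rw [Finset.sum_comm (s := (Finset.univ : Finset γ)) (t := (Finset.univ : Finset α))]
    rw [Finset.sum_comm]
    refine Finset.sum_congr rfl fun a _ => ?_
    rw [Finset.sum_comm]
  rw [e1, Finset.sum_comm (s := (Finset.univ : Finset α)) (t := (Finset.univ : Finset γ))
    (f := fun a c => Real.negMulLog (∑ b, p a b c)),
    Finset.sum_comm (s := (Finset.univ : Finset β)) (t := (Finset.univ : Finset γ))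
    (f := fun b c => Real.negMulLog (∑ a, p a b c))]
  exact h

/-- the mutual information is nonnegative -/
theorem fin_subadd {α β : Type} [Fintype α] [Fintype β] (p : α → β → ℝ) (hp : ∀ a b, 0 ≤ p a b)
    (h1 : ∑ a, ∑ b, p a b = 1) :
    ∑ a, ∑ b, Real.negMulLog (p a b) ≤
      ∑ a, Real.negMulLog (∑ b, p a b) + ∑ b, Real.negMulLog (∑ a, p a b) := by
  have h := gen p hp
  rw [h1, Real.negMulLog_one] at h
  linarith

/-- equality only for a product -/
theorem fin_subadd_eq {α β : Type} [Fintype α] [Fintype β] (p : α → β → ℝ)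
    (hp : ∀ a b, 0 ≤ p a b) (h1 : ∑ a, ∑ b, p a b = 1)
    (h : ∑ a, Real.negMulLog (∑ b, p a b) + ∑ b, Real.negMulLog (∑ a, p a b) ≤
      ∑ a, ∑ b, Real.negMulLog (p a b)) (a : α) (b : β) :
    p a b = (∑ b', p a b') * ∑ a', p a' b := by
  classical
  have hsum : ∑ a, ∑ b, ((∑ b', p a b') * (∑ a', p a' b) / (∑ a', ∑ b', p a' b') - p a b -
      (Real.negMulLog (p a b) + (p a b * Real.log (∑ b', p a b') +
        p a b * Real.log (∑ a', p a' b) - p a b * Real.log (∑ a', ∑ b', p a' b')))) ≤ 0 := by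
    simp only [Finset.sum_add_distrib, Finset.sum_sub_distrib]
    rw [e1, e2, e3, e4, h1, Real.negMulLog_one]
    linarith
  have hnn : ∀ a b, 0 ≤ (∑ b', p a b') * (∑ a', p a' b) / (∑ a', ∑ b', p a' b') - p a b -
      (Real.negMulLog (p a b) + (p a b * Real.log (∑ b', p a b') +
        p a b * Real.log (∑ a', p a' b) - p a b * Real.log (∑ a', ∑ b', p a' b'))) :=
    fun a b => sub_nonneg.2 (key p hp a b).1
  have hle : (∑ b', p a b') * (∑ a', p a' b) / (∑ a', ∑ b', p a' b') - p a b -
      (Real.negMulLog (p a b) + (p a b * Real.log (∑ b', p a b') +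
        p a b * Real.log (∑ a', p a' b) - p a b * Real.log (∑ a', ∑ b', p a' b'))) ≤ 0 := by
    refine le_trans ?_ hsum
    exact le_trans (Finset.single_le_sum (f := fun b => (∑ b', p a b') * (∑ a', p a' b) /
      (∑ a', ∑ b', p a' b') - p a b - (Real.negMulLog (p a b) + (p a b * Real.log (∑ b', p a b') +
        p a b * Real.log (∑ a', p a' b) - p a b * Real.log (∑ a', ∑ b', p a' b'))))
      (fun b _ => hnn a b) (Finset.mem_univ b))
      (Finset.single_le_sum (f := fun a => ∑ b, ((∑ b', p a b') * (∑ a', p a' b) /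
      (∑ a', ∑ b', p a' b') - p a b - (Real.negMulLog (p a b) + (p a b * Real.log (∑ b', p a b') +
        p a b * Real.log (∑ a', p a' b) - p a b * Real.log (∑ a', ∑ b', p a' b')))))
      (fun a _ => Finset.sum_nonneg fun b _ => hnn a b) (Finset.mem_univ a))
  have hfin := (key p hp a b).2 (by linarith)
  rw [h1, div_one] at hfin
  exact hfin

/-- monotonicity -/
theorem fin_mono {α β : Type} [Fintype α] [Fintype β] (p : α → β → ℝ) (hp : ∀ a b, 0 ≤ p a b) :
    ∑ a, Real.negMulLog (∑ b, p a b) ≤ ∑ a, ∑ b, Real.negMulLog (p a b) := by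
  refine Finset.sum_le_sum fun a _ => ?_
  have h1 : Real.negMulLog (∑ b, p a b) = ∑ b, -(p a b * Real.log (∑ b', p a b')) := by
    rw [Finset.sum_neg_distrib, ← Finset.sum_mul]
    unfold Real.negMulLog
    ring
  rw [h1]
  refine Finset.sum_le_sum fun b _ => ?_
  unfold Real.negMulLog
  rcases (hp a b).eq_or_lt with h | h
  · rw [← h]; simp
  · have h2 := Real.log_le_log h (rowpos p hp a b)
    have h3 := mul_le_mul_of_nonneg_left h2 h.le
    linarith

end FULL
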