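import Pool.Agent.Lib.MP_8a5982_an.FULL.En1

/-!
Project FULL, phase 2, module EN2: Shannon entropies of finite-valued random variables
(helper65), from the finite inequalities of EN1.
-/

open MeasureTheory ProbabilityTheory Filter Topology

namespace FULL

section rv
variable {Ω : Type} [MeasurableSpace Ω] (P : Measure Ω) [IsProbabilityMeasure P]
  {α β γ : Type} [Fintype α] [Fintype β] [Fintype γ] [MeasurableSpace α] [MeasurableSpace β]
  [MeasurableSpace γ] [MeasurableSingletonClass α] [MeasurableSingletonClass β]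
  [MeasurableSingletonClass γ] {X : Ω → α} {Y : Ω → β} {Z : Ω → γ}

/-- the fibres of a finite-valued measurable map cut a measurable set into pieces -/
theorem en2_sum_fibre (hY : Measurable Y) {A : Set Ω} (hA : MeasurableSet A) :
    ∑ b, P.real (A ∩ Y ⁻¹' {b}) = P.real A := by
  classical
  have h1 : A = ⋃ b ∈ (Finset.univ : Finset β), (A ∩ Y ⁻¹' {b}) := by
    ext ω
    simp
  conv_rhs => rw [h1]
  rw [measureReal_biUnion_finset]
  · intro b _ b' _ hbb'
    refine Set.disjoint_left.2 fun ω h h' => hbb' ?_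
    have e1 : Y ω = b := h.2
    have e2 : Y ω = b' := h'.2
    rw [← e1, ← e2]
  · intro b _
    exact hA.inter (hY (measurableSet_singleton b))

theorem Hs_mono (hX : Measurable X) (hY : Measurable Y) :
    Hs P X ≤ Hs P (fun ω => (X ω, Y ω)) := by
  have h := fin_mono (fun (a : α) (b : β) => P.real (X ⁻¹' {a} ∩ Y ⁻¹' {b}))
    (fun a b => measureReal_nonneg)
  have e1 : ∀ a : α, ∑ b, P.real (X ⁻¹' {a} ∩ Y ⁻¹' {b}) = P.real (X ⁻¹' {a}) := fun a =>
    en2_sum_fibre P hY (hX (measurableSet_singleton a))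
  simp only [e1] at h
  have e2 : Hs P (fun ω => (X ω, Y ω)) =
      ∑ a, ∑ b, Real.negMulLog (P.real (X ⁻¹' {a} ∩ Y ⁻¹' {b})) := by
    unfold Hs
    rw [Fintype.sum_prod_type]
    refine Finset.sum_congr rfl fun a _ => Finset.sum_congr rfl fun b _ => ?_
    have : (fun ω => (X ω, Y ω)) ⁻¹' {(a, b)} = X ⁻¹' {a} ∩ Y ⁻¹' {b} := by
      ext ω
      simp
    rw [this]
  rw [e2]
  exact h

theorem Hs_ssa (hX : Measurable X) (hY : Measurable Y) (hZ : Measurable Z) :
    Hs P (fun ω => (X ω, Y ω, Z ω)) + Hs P Z ≤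
      Hs P (fun ω => (X ω, Z ω)) + Hs P (fun ω => (Y ω, Z ω)) := by
  have h := fin_ssa (fun (a : α) (b : β) (c : γ) => P.real ((X ⁻¹' {a} ∩ Z ⁻¹' {c}) ∩ Y ⁻¹' {b}))
    (fun a b c => measureReal_nonneg)
  have mX := fun a : α => hX (measurableSet_singleton a)
  have mY := fun a : β => hY (measurableSet_singleton a)
  have mZ := fun a : γ => hZ (measurableSet_singleton a)
  have e1 : ∀ (a : α) (c : γ), ∑ b, P.real ((X ⁻¹' {a} ∩ Z ⁻¹' {c}) ∩ Y ⁻¹' {b}) =
      P.real (X ⁻¹' {a} ∩ Z ⁻¹' {c}) := fun a c => en2_sum_fibre P hY ((mX a).inter (mZ c))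
  have e2 : ∀ (b : β) (c : γ), ∑ a, P.real ((X ⁻¹' {a} ∩ Z ⁻¹' {c}) ∩ Y ⁻¹' {b}) =
      P.real (Y ⁻¹' {b} ∩ Z ⁻¹' {c}) := by
    intro b c
    rw [← en2_sum_fibre P hX ((mY b).inter (mZ c))]
    refine Finset.sum_congr rfl fun a _ => ?_
    have : (X ⁻¹' {a} ∩ Z ⁻¹' {c}) ∩ Y ⁻¹' {b} = (Y ⁻¹' {b} ∩ Z ⁻¹' {c}) ∩ X ⁻¹' {a} := by
      ext ω
      simp only [Set.mem_inter_iff]
      tauto
    rw [this]
  have e3 : ∀ c : γ, ∑ a, P.real (X ⁻¹' {a} ∩ Z ⁻¹' {c}) = P.real (Z ⁻¹' {c}) := by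
    intro c
    rw [← en2_sum_fibre P hX (mZ c)]
    refine Finset.sum_congr rfl fun a _ => ?_
    rw [Set.inter_comm]
  simp only [e1, e2, e3] at h
  have f1 : Hs P (fun ω => (X ω, Y ω, Z ω)) =
      ∑ a, ∑ b, ∑ c, Real.negMulLog (P.real ((X ⁻¹' {a} ∩ Z ⁻¹' {c}) ∩ Y ⁻¹' {b})) := by
    unfold Hs
    rw [Fintype.sum_prod_type]
    refine Finset.sum_congr rfl fun a _ => ?_
    rw [Fintype.sum_prod_type]
    refine Finset.sum_congr rfl fun b _ => Finset.sum_congr rfl fun c _ => ?_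
    have : (fun ω => (X ω, Y ω, Z ω)) ⁻¹' {(a, b, c)} =
        (X ⁻¹' {a} ∩ Z ⁻¹' {c}) ∩ Y ⁻¹' {b} := by
      ext ω
      simp only [Set.mem_preimage, Set.mem_singleton_iff, Set.mem_inter_iff, Prod.mk.injEq]
      tauto
    rw [this]
  have f2 : Hs P (fun ω => (X ω, Z ω)) =
      ∑ a, ∑ c, Real.negMulLog (P.real (X ⁻¹' {a} ∩ Z ⁻¹' {c})) := by
    unfold Hs
    rw [Fintype.sum_prod_type]
    refine Finset.sum_congr rfl fun a _ => Finset.sum_congr rfl fun c _ => ?_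
    have : (fun ω => (X ω, Z ω)) ⁻¹' {(a, c)} = X ⁻¹' {a} ∩ Z ⁻¹' {c} := by
      ext ω
      simp
    rw [this]
  have f3 : Hs P (fun ω => (Y ω, Z ω)) =
      ∑ b, ∑ c, Real.negMulLog (P.real (Y ⁻¹' {b} ∩ Z ⁻¹' {c})) := by
    unfold Hs
    rw [Fintype.sum_prod_type]
    refine Finset.sum_congr rfl fun b _ => Finset.sum_congr rfl fun c _ => ?_
    have : (fun ω => (Y ω, Z ω)) ⁻¹' {(b, c)} = Y ⁻¹' {b} ∩ Z ⁻¹' {c} := by
      ext ω
      simp
    rw [this]
  rw [f1, f2, f3]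
  exact h

theorem Hs_indep (hX : Measurable X) (hY : Measurable Y)
    (h : Hs P X + Hs P Y ≤ Hs P (fun ω => (X ω, Y ω))) (a : α) (b : β) :
    P.real (X ⁻¹' {a} ∩ Y ⁻¹' {b}) = P.real (X ⁻¹' {a}) * P.real (Y ⁻¹' {b}) := by
  have mX := fun a : α => hX (measurableSet_singleton a)
  have mY := fun a : β => hY (measurableSet_singleton a)
  have e1 : ∀ a : α, ∑ b, P.real (X ⁻¹' {a} ∩ Y ⁻¹' {b}) = P.real (X ⁻¹' {a}) := fun a =>
    en2_sum_fibre P hY (mX a)
  have e2 : ∀ b : β, ∑ a, P.real (X ⁻¹' {a} ∩ Y ⁻¹' {b}) = P.real (Y ⁻¹' {b}) := by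
    intro b
    rw [← en2_sum_fibre P hX (mY b)]
    refine Finset.sum_congr rfl fun a _ => ?_
    rw [Set.inter_comm]
  have e3 : ∑ a, P.real (X ⁻¹' {a}) = 1 := by
    have := en2_sum_fibre P hX (MeasurableSet.univ)
    simpa using this
  have f1 : Hs P (fun ω => (X ω, Y ω)) =
      ∑ a, ∑ b, Real.negMulLog (P.real (X ⁻¹' {a} ∩ Y ⁻¹' {b})) := by
    unfold Hs
    rw [Fintype.sum_prod_type]
    refine Finset.sum_congr rfl fun a _ => Finset.sum_congr rfl fun b _ => ?_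
    have : (fun ω => (X ω, Y ω)) ⁻¹' {(a, b)} = X ⁻¹' {a} ∩ Y ⁻¹' {b} := by
      ext ω
      simp
    rw [this]
  have key := fin_subadd_eq (fun (a : α) (b : β) => P.real (X ⁻¹' {a} ∩ Y ⁻¹' {b}))
    (fun a b => measureReal_nonneg) (by simp only [e1, e3]) (by
      simp only [e1, e2]
      rw [f1] at h
      exact h) a b
  simp only [e1, e2] at key
  exact key

omit [IsProbabilityMeasure P] [MeasurableSpace α] [MeasurableSpace β]
  [MeasurableSingletonClass α] [MeasurableSingletonClass β] in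
/-- invariance under renaming of the values -/
theorem Hs_equiv (e : α ≃ β) : Hs P (fun ω => e (X ω)) = Hs P X := by
  unfold Hs
  rw [← e.sum_comp]
  refine Finset.sum_congr rfl fun a _ => ?_
  have : (fun ω => e (X ω)) ⁻¹' {e a} = X ⁻¹' {a} := by
    ext ω
    simp
  rw [this]

omit [IsProbabilityMeasure P] in
/-- invariance under measure preserving maps -/
theorem Hs_comp {Ω' : Type} [MeasurableSpace Ω'] (P' : Measure Ω') {T : Ω' → Ω}
    (hT : MeasurePreserving T P' P) (hX : Measurable X) : Hs P' (fun ω => X (T ω)) = Hs P X := by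
  unfold Hs
  refine Finset.sum_congr rfl fun a _ => ?_
  have : (fun ω => X (T ω)) ⁻¹' {a} = T ⁻¹' (X ⁻¹' {a}) := rfl
  rw [this, measureReal_def, measureReal_def,
    hT.measure_preimage (hX (measurableSet_singleton a)).nullMeasurableSet]

omit [IsProbabilityMeasure P] [MeasurableSpace α] [MeasurableSingletonClass α] in
theorem Hs_congr {X' : Ω → α} (h : X =ᵐ[P] X') : Hs P X = Hs P X' := by
  unfold Hs
  refine Finset.sum_congr rfl fun a _ => ?_
  have : P.real (X ⁻¹' {a}) = P.real (X' ⁻¹' {a}) := by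
    rw [measureReal_def, measureReal_def]
    refine congrArg ENNReal.toReal (measure_congr ?_)
    filter_upwards [h] with ω hω
    show (X ω ∈ ({a} : Set α)) = (X' ω ∈ ({a} : Set α))
    rw [hω]
  rw [this]

end rv

end FULL
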