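import Pool.Agent.Lib.MP_8a5982_an.FULL.En2

/-!
Project FULL, phase 2, module EN3: the chain inequality for Shannon entropies (helper65).
-/

open MeasureTheory ProbabilityTheory Filter Topology

namespace FULL

/-- a variable with values in a one-point type has entropy zero -/
theorem en3_unique {Ω : Type} [MeasurableSpace Ω] (P : Measure Ω) [IsProbabilityMeasure P]
    {α : Type} [Fintype α] [Subsingleton α] (X : Ω → α) : Hs P X = 0 := by
  unfold Hs
  refine Finset.sum_eq_zero fun a _ => ?_
  have : X ⁻¹' {a} = Set.univ := by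
    ext ω
    simp [eq_iff_true_of_subsingleton]
  rw [this]
  simp

/-- appending the last coordinate -/
theorem en3_snoc {Ω α : Type} (w : ℕ → Ω → α) (n : ℕ) (ω : Ω) :
    Fin.snocEquiv (fun _ : Fin (n + 1) => α) (w n ω, fun i : Fin n => w i ω) =
      fun i : Fin (n + 1) => w i ω := by
  funext i
  refine Fin.lastCases ?_ (fun j => ?_) i
  · simp
  · simp

/-- the chain inequality for the joint variable -/
theorem en3_joint {Ω : Type} [MeasurableSpace Ω] (P : Measure Ω) [IsProbabilityMeasure P]
    {α β : Type} [Fintype α] [Fintype β] [MeasurableSpace α] [MeasurableSpace β]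
    [MeasurableSingletonClass α] [MeasurableSingletonClass β] (w : ℕ → Ω → α) (f : ℕ → Ω → β)
    (hw : ∀ i, Measurable (w i)) (hf : ∀ i, Measurable (f i)) (n : ℕ) :
    Hs P (fun ω => ((fun i : Fin n => w i ω), (fun i : Fin n => f i ω))) ≤
      Hs P (fun ω (i : Fin n) => f i ω) +
      ∑ i ∈ Finset.range n, (Hs P (fun ω => (w i ω, f i ω)) - Hs P (f i)) := by
  induction n with
  | zero =>
    rw [en3_unique, en3_unique]
    simp
  | succ n ih =>
    have mW : Measurable (fun ω (i : Fin n) => w i ω) := measurable_pi_lambda _ fun i => hw i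
    have mF : Measurable (fun ω (i : Fin n) => f i ω) := measurable_pi_lambda _ fun i => hf i
    -- first strong subadditivity
    have s1 := Hs_ssa P (X := w n)
      (Y := fun ω => ((fun i : Fin n => w i ω), (fun i : Fin n => f i ω))) (Z := f n)
      (hw n) (mW.prodMk mF) (hf n)
    have s2 := Hs_ssa P (X := fun ω (i : Fin n) => w i ω) (Y := f n)
      (Z := fun ω (i : Fin n) => f i ω) mW (hf n) mF
    -- identifications
    have i1 : Hs P (fun ω => ((fun i : Fin (n + 1) => w i ω), (fun i : Fin (n + 1) => f i ω))) =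
        Hs P (fun ω => (w n ω, ((fun i : Fin n => w i ω), (fun i : Fin n => f i ω)), f n ω)) := by
      let e : α × (((Fin n → α) × (Fin n → β)) × β) ≃ (Fin (n + 1) → α) × (Fin (n + 1) → β) :=
        { toFun := fun x => (Fin.snocEquiv (fun _ : Fin (n + 1) => α) (x.1, x.2.1.1),
            Fin.snocEquiv (fun _ : Fin (n + 1) => β) (x.2.2, x.2.1.2))
          invFun := fun y => (((Fin.snocEquiv (fun _ : Fin (n + 1) => α)).symm y.1).1,
            (((Fin.snocEquiv (fun _ : Fin (n + 1) => α)).symm y.1).2,
              ((Fin.snocEquiv (fun _ : Fin (n + 1) => β)).symm y.2).2),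
            ((Fin.snocEquiv (fun _ : Fin (n + 1) => β)).symm y.2).1)
          left_inv := by
            rintro ⟨a, ⟨b, c⟩, d⟩
            simp only [Equiv.symm_apply_apply]
          right_inv := by
            rintro ⟨a, b⟩
            simp only [Prod.mk.eta, Equiv.apply_symm_apply] }
      rw [← Hs_equiv P e]
      refine congrArg (Hs P) ?_
      funext ω
      show _ = (Fin.snocEquiv (fun _ : Fin (n + 1) => α) (w n ω, fun i : Fin n => w i ω),
            Fin.snocEquiv (fun _ : Fin (n + 1) => β) (f n ω, fun i : Fin n => f i ω))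
      rw [en3_snoc, en3_snoc]
    have i2 : Hs P (fun ω (i : Fin (n + 1)) => f i ω) =
        Hs P (fun ω => (f n ω, (fun i : Fin n => f i ω))) := by
      rw [← Hs_equiv P (Fin.snocEquiv (fun _ : Fin (n + 1) => β))]
      refine congrArg (Hs P) ?_
      funext ω
      rw [en3_snoc]
    have i3 : Hs P (fun ω => (((fun i : Fin n => w i ω), (fun i : Fin n => f i ω)), f n ω)) =
        Hs P (fun ω => ((fun i : Fin n => w i ω), f n ω, (fun i : Fin n => f i ω))) := by
      let e : (Fin n → α) × β × (Fin n → β) ≃ ((Fin n → α) × (Fin n → β)) × β :=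
        { toFun := fun x => ((x.1, x.2.2), x.2.1)
          invFun := fun y => (y.1.1, y.2, y.1.2)
          left_inv := fun x => rfl
          right_inv := fun y => rfl }
      rw [← Hs_equiv P e]
      rfl
    rw [Finset.sum_range_succ, i1, i2]
    rw [i3] at s1
    linarith

theorem Hs_chain {Ω : Type} [MeasurableSpace Ω] (P : Measure Ω) [IsProbabilityMeasure P]
    {α β : Type} [Fintype α] [Fintype β] [MeasurableSpace α] [MeasurableSpace β]
    [MeasurableSingletonClass α] [MeasurableSingletonClass β] (w : ℕ → Ω → α) (f : ℕ → Ω → β)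
    (hw : ∀ i, Measurable (w i)) (hf : ∀ i, Measurable (f i)) (n : ℕ) :
    Hs P (fun ω (i : Fin n) => w i ω) ≤ Hs P (fun ω (i : Fin n) => f i ω) +
      ∑ i ∈ Finset.range n, (Hs P (fun ω => (w i ω, f i ω)) - Hs P (f i)) :=
  (Hs_mono P (X := fun ω (i : Fin n) => w i ω) (Y := fun ω (i : Fin n) => f i ω)
    (measurable_pi_lambda _ fun i => hw i) (measurable_pi_lambda _ fun i => hf i)).trans
    (en3_joint P w f hw hf n)

end FULL
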