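import Pool.Agent.Lib.MP_8a5982_an.HOST.Base
import Pool.Agent.Lib.MP_8a5982_an.FULL.En3

/-!
Project FULL, module EN4: a zero entropy process is independent of an independent process, at
time zero.
-/

open MeasureTheory ProbabilityTheory Filter Topology

namespace FULL

theorem zero_entropy_indep {Ω : Type} [MeasurableSpace Ω] (R : Ω ≃ᵐ Ω) (P : Measure Ω)
    [IsProbabilityMeasure P] (hR : MeasurePreserving R P P)
    {α β : Type} [Fintype α] [Fintype β] [MeasurableSpace α] [MeasurableSpace β]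
    [MeasurableSingletonClass α] [MeasurableSingletonClass β] (w : Ω → α) (f : Ω → β)
    (hw : Measurable w) (hf : Measurable f)
    (hiid : ∀ n : ℕ, Hs P (fun ω (i : Fin n) => w (HOST.iter R (i : ℕ) ω)) = n * Hs P w)
    (hzero : Tendsto (fun n : ℕ => Hs P (fun ω (i : Fin n) => f (HOST.iter R (i : ℕ) ω)) / n)
      atTop (𝓝 0)) (a : α) (b : β) :
    P.real (w ⁻¹' {a} ∩ f ⁻¹' {b}) = P.real (w ⁻¹' {a}) * P.real (f ⁻¹' {b}) := by
  have hmp : ∀ i : ℕ, MeasurePreserving (HOST.iter R (i : ℤ)) P P := fun i =>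
    HOST.measurePreserving_iter hR i
  have key : ∀ n : ℕ, Hs P w + Hs P f - Hs P (fun ω => (w ω, f ω)) ≤
      Hs P (fun ω (i : Fin (n + 1)) => f (HOST.iter R (i : ℕ) ω)) / ((n + 1 : ℕ) : ℝ) := by
    intro n
    have hc := Hs_chain P (fun i ω => w (HOST.iter R (i : ℕ) ω))
      (fun i ω => f (HOST.iter R (i : ℕ) ω)) (fun i => hw.comp (hmp i).measurable)
      (fun i => hf.comp (hmp i).measurable) (n + 1)
    have e1 : ∀ i : ℕ, Hs P (fun ω => (w (HOST.iter R (i : ℕ) ω), f (HOST.iter R (i : ℕ) ω))) =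
        Hs P (fun ω => (w ω, f ω)) := fun i =>
      Hs_comp (X := fun ω => (w ω, f ω)) P P (hmp i) (hw.prodMk hf)
    have e2 : ∀ i : ℕ, Hs P (fun ω => f (HOST.iter R (i : ℕ) ω)) = Hs P f := fun i =>
      Hs_comp P P (hmp i) hf
    simp only [e1, e2] at hc
    rw [hiid (n + 1)] at hc
    rw [Finset.sum_const, Finset.card_range, nsmul_eq_mul] at hc
    have hn : (0 : ℝ) < ((n + 1 : ℕ) : ℝ) := by positivity
    rw [le_div_iff₀ hn]
    linarith
  have hle : Hs P w + Hs P f - Hs P (fun ω => (w ω, f ω)) ≤ 0 := by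
    have ht := hzero.comp (tendsto_add_atTop_nat 1)
    exact ge_of_tendsto' ht key
  exact Hs_indep P hw hf (by linarith) a b

end FULL
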