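import Pool.Agent.Lib.MP_8a5982_an.HOST.Defs

/-!
Project FULL, phase 2: definition of zero (Kolmogorov-Sinai) entropy.
-/

open MeasureTheory Filter Topology

namespace FULL

/-- the Shannon entropy of a finite-valued function -/
noncomputable def Hs {Ω : Type} [MeasurableSpace Ω] (P : Measure Ω) {α : Type} [Fintype α]
    (X : Ω → α) : ℝ := ∑ a, Real.negMulLog (P.real (X ⁻¹' {a}))

/-- `T` has zero Kolmogorov-Sinai entropy: for every finite measurable partition, given by a
measurable function `f : X → Fin k`, the limit of the entropies of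
`(f, f ∘ T, ..., f ∘ T^(n-1))` divided by `n` is zero. -/
def ZeroEntropy {X : Type} [MeasurableSpace X] (T : X ≃ᵐ X) (μ : Measure X) : Prop :=
  ∀ (k : ℕ) (f : X → Fin k), Measurable f →
    Tendsto (fun n : ℕ => Hs μ (fun x (i : Fin n) => f (HOST.iter T (i : ℕ) x)) / n) atTop (𝓝 0)

end FULL
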