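import Pool.Agent.Lib.MP_8a5982_an.FULL.EntDefs
import Pool.Agent.Lib.MP_8a5982_an.HOST.Moments
import Pool.Agent.Lib.MP_8a5982_an.HOST.Pieces

/-!
Project FULL, phase 2, module ERG: the spectral measure of an ergodic Gaussian shift has no atoms.
-/

open MeasureTheory ProbabilityTheory Filter Topology

namespace FULL

namespace ErgAux

/-- a Gaussian variable is unbounded -/
theorem gauss_unbdd (v : NNReal) (hv : v ≠ 0) (ε K : ℝ) (hε : 0 < ε)
    (h : ∀ᵐ x ∂(gaussianReal 0 v), ε * x ^ 2 ≤ K) : False := by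
  have h1 : ∀ᵐ x ∂(volume : Measure ℝ), ε * x ^ 2 ≤ K :=
    (gaussianReal_absolutelyContinuous' 0 hv).ae_le h
  rw [ae_iff] at h1
  have h2 : (volume : Measure ℝ) (Set.Ioi (|K| / ε + 1)) ≤ 0 := by
    rw [← h1]
    apply measure_mono
    intro x hx
    rw [Set.mem_Ioi] at hx
    have h3 : 0 ≤ |K| / ε := by positivity
    have h4 : |K| / ε < x ^ 2 := by nlinarith
    rw [div_lt_iff₀ hε] at h4
    have h5 := le_abs_self K
    simp only [not_le, Set.mem_ofPred_eq]
    linarith
  rw [Real.volume_Ioi] at h2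
  exact absurd h2 (by simp)

theorem core {τ : Measure UnitAddCircle} [IsFiniteMeasure τ] {ν : Measure (ℤ → ℝ)}
    (hν : HOST.IsGaussianShift τ ν) (hτ : τ Set.univ ≠ 0) (i : ℤ) (ε K : ℝ) (hε : 0 < ε)
    (h : ∀ᵐ η ∂ν, ε * η i ^ 2 ≤ K) : False := by
  have h1 := HOST.map_lin hν (Finsupp.single i 1)
  have e : HOST.lin (Finsupp.single i 1) = fun ω : ℤ → ℝ => ω i := by
    funext ω; rw [HOST.lin_single, one_mul]
  have h2 : ∫ x, ‖HOST.rtrig (Finsupp.single i 1) x‖ ^ 2 ∂τ = τ.real Set.univ := by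
    have h3 : ∀ x, ‖HOST.rtrig (Finsupp.single i 1) x‖ ^ 2 = 1 := by
      intro x
      rw [HOST.rtrig_single, Complex.ofReal_one, one_mul, HOST.norm_fourier_one, one_pow]
    simp only [h3]
    rw [integral_const, smul_eq_mul, mul_one]
  rw [e, h2] at h1
  have hpos : 0 < τ.real Set.univ := by
    rw [measureReal_def]
    exact ENNReal.toReal_pos hτ (measure_ne_top _ _)
  refine gauss_unbdd (τ.real Set.univ).toNNReal ?_ ε K hε ?_
  · intro h0
    rw [Real.toNNReal_eq_zero] at h0
    linarith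
  · rw [← h1]
    have hm : Measurable (fun ω : ℤ → ℝ => ω i) := measurable_pi_apply i
    have hs : MeasurableSet {x : ℝ | ε * x ^ 2 ≤ K} :=
      measurableSet_le (by fun_prop) measurable_const
    exact (ae_map_iff hm.aemeasurable hs).2 h

theorem const_of_erg {μ : Measure (ℤ → ℝ)} (herg : Ergodic HOST.shift μ)
    {Ψ : (ℤ → ℝ) → (ℤ → ℝ)} (hΨ : Measurable Ψ)
    (he : ∀ᵐ ω ∂μ, Ψ (HOST.shift ω) = HOST.shift (Ψ ω)) (F : (ℤ → ℝ) → ℝ) (hF : Measurable F)
    (hinv : ∀ᵐ η ∂(μ.map Ψ), F (HOST.shift η) = F η) : ∃ K, ∀ᵐ η ∂(μ.map Ψ), F η = K := by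
  have h1 : (F ∘ Ψ) ∘ HOST.shift =ᵐ[μ] F ∘ Ψ := by
    have h2 := ae_of_ae_map hΨ.aemeasurable hinv
    filter_upwards [he, h2] with ω h3 h4
    simp only [Function.comp]
    rw [h3, h4]
  obtain ⟨K, hK⟩ := herg.ae_eq_const_of_ae_eq_comp_ae (hF.comp hΨ).aestronglyMeasurable h1
  refine ⟨K, ?_⟩
  rw [ae_map_iff hΨ.aemeasurable (measurableSet_eq_fun hF measurable_const)]
  exact hK

theorem lin_null {τ : Measure UnitAddCircle} [IsFiniteMeasure τ] {ν : Measure (ℤ → ℝ)}
    (hν : HOST.IsGaussianShift τ ν) (a : ℤ →₀ ℝ) (h : ∀ᵐ x ∂τ, HOST.rtrig a x = 0) :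
    ∀ᵐ η ∂ν, HOST.lin a η = 0 := by
  have h1 := HOST.integral_lin_sq hν a
  have h2 : ∫ x, ‖HOST.rtrig a x‖ ^ 2 ∂τ = 0 := by
    refine integral_eq_zero_of_ae ?_
    filter_upwards [h] with x hx
    simp [hx]
  rw [h2] at h1
  have h3 := (integral_eq_zero_iff_of_nonneg (fun η => sq_nonneg _)
    (HOST.memLp_lin hν a).integrable_sq).1 h1
  filter_upwards [h3] with η hη
  exact pow_eq_zero_iff (two_ne_zero) |>.1 hη

theorem fourier_two (x : UnitAddCircle) : (fourier 2 x : ℂ) = (fourier 1 x : ℂ) ^ 2 := by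
  have : (2 : ℤ) = 1 + 1 := by norm_num
  rw [this, fourier_add, sq]

theorem fourier_neg_one (x : UnitAddCircle) :
    (fourier 1 (-x) : ℂ) = (starRingEnd ℂ) (fourier 1 x : ℂ) := by
  rw [← fourier_neg, fourier_apply, fourier_apply]
  simp

/-- the main case distinction -/
theorem main {τ : Measure UnitAddCircle} [IsFiniteMeasure τ] {ν : Measure (ℤ → ℝ)}
    (hν : HOST.IsGaussianShift τ ν) (hτ : τ Set.univ ≠ 0) (x₀ : UnitAddCircle)
    (hsup : ∀ᵐ x ∂τ, x = x₀ ∨ x = -x₀)
    (hc : ∀ F : (ℤ → ℝ) → ℝ, Measurable F → (∀ᵐ η ∂ν, F (HOST.shift η) = F η) →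
      ∃ K, ∀ᵐ η ∂ν, F η = K) : False := by
  set z : ℂ := fourier 1 x₀ with hz
  have hzn : Complex.normSq z = 1 := by
    rw [Complex.normSq_eq_norm_sq, hz, HOST.norm_fourier_one, one_pow]
  set c : ℝ := z.re with hcdef
  have hre : z.re * z.re + z.im * z.im = 1 := by
    rw [← Complex.normSq_apply]; exact hzn
  have hval : ∀ᵐ x ∂τ, (fourier 1 x : ℂ) = z ∨ (fourier 1 x : ℂ) = (starRingEnd ℂ) z := by
    filter_upwards [hsup] with x hx
    rcases hx with hx | hx
    · left; rw [hx]
    · right; rw [hx, fourier_neg_one]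
  have hs : ∀ (η : ℤ → ℝ) (k : ℤ), HOST.shift η k = η (k + 1) := fun η k => rfl
  by_cases hc1 : c ^ 2 = 1
  · -- the exponential is real
    have him : z.im = 0 := by
      have : z.im * z.im = 0 := by nlinarith
      exact mul_self_eq_zero.1 this
    have hzr : z = (c : ℂ) := by
      apply Complex.ext <;> simp [hcdef, him]
    have h1 : ∀ᵐ η ∂ν, HOST.lin (Finsupp.single 1 1 + Finsupp.single 0 (-c)) η = 0 := by
      apply lin_null hν
      filter_upwards [hval] with x hx
      rw [HOST.rtrig_add, HOST.rtrig_single, HOST.rtrig_single, fourier_zero]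
      have h2 : (fourier 1 x : ℂ) = (c : ℂ) := by
        rcases hx with hx | hx
        · rw [hx, hzr]
        · rw [hx, hzr, Complex.conj_ofReal]
      rw [h2]
      push_cast
      ring
    have h2 : ∀ᵐ η ∂ν, (fun η : ℤ → ℝ => η 0 ^ 2) (HOST.shift η) =
        (fun η : ℤ → ℝ => η 0 ^ 2) η := by
      filter_upwards [h1] with η hη
      rw [HOST.lin_add, HOST.lin_single, HOST.lin_single] at hη
      have h3 : η 1 = c * η 0 := by linarith
      simp only [hs, zero_add]
      rw [h3, mul_pow, hc1, one_mul]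
    obtain ⟨K, hK⟩ := hc (fun η => η 0 ^ 2) (by fun_prop) h2
    refine core hν hτ 0 1 K one_pos ?_
    filter_upwards [hK] with η hη
    rw [one_mul]
    exact hη.le
  · have hlt : 0 < 1 - c ^ 2 := by
      have h1 : c ^ 2 ≤ 1 := by nlinarith [mul_self_nonneg z.im]
      rcases h1.lt_or_eq with h | h
      · linarith
      · exact absurd h hc1
    have h1 : ∀ᵐ η ∂ν, HOST.lin (Finsupp.single 2 1 + (Finsupp.single 1 (-(2 * c)) +
        Finsupp.single 0 1)) η = 0 := by
      apply lin_null hν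
      filter_upwards [hval] with x hx
      rw [HOST.rtrig_add, HOST.rtrig_add, HOST.rtrig_single, HOST.rtrig_single, HOST.rtrig_single,
        fourier_zero, fourier_two]
      have hzc : z + (starRingEnd ℂ) z = ((2 * c : ℝ) : ℂ) := by
        rw [Complex.add_conj]
      have hzm : z * (starRingEnd ℂ) z = 1 := by
        rw [Complex.mul_conj, hzn, Complex.ofReal_one]
      have h2 : ((-(2 * c) : ℝ) : ℂ) = -(z + (starRingEnd ℂ) z) := by
        rw [hzc, Complex.ofReal_neg]
      rw [h2, Complex.ofReal_one]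
      rcases hx with hx | hx
      · rw [hx]
        linear_combination -hzm
      · rw [hx]
        linear_combination -hzm
    have h2 : ∀ᵐ η ∂ν, (fun η : ℤ → ℝ => η 0 ^ 2 + η 1 ^ 2 - 2 * c * η 0 * η 1) (HOST.shift η) =
        (fun η : ℤ → ℝ => η 0 ^ 2 + η 1 ^ 2 - 2 * c * η 0 * η 1) η := by
      filter_upwards [h1] with η hη
      rw [HOST.lin_add, HOST.lin_add, HOST.lin_single, HOST.lin_single, HOST.lin_single] at hη
      have h3 : η 2 = 2 * c * η 1 - η 0 := by linarith
      have e1 : (1 : ℤ) + 1 = 2 := by norm_num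
      simp only [hs, zero_add, e1]
      rw [h3]
      ring
    obtain ⟨K, hK⟩ := hc (fun η => η 0 ^ 2 + η 1 ^ 2 - 2 * c * η 0 * η 1) (by fun_prop) h2
    refine core hν hτ 1 (1 - c ^ 2) K hlt ?_
    filter_upwards [hK] with η hη
    rw [← hη]
    nlinarith [sq_nonneg (η 0 - c * η 1)]

end ErgAux

open ErgAux in
theorem noAtoms_of_ergodic (σ : Measure UnitAddCircle) [IsFiniteMeasure σ]
    (hsymm : σ.map (fun x => -x) = σ) (μ : Measure (ℤ → ℝ)) (hμ : HOST.IsGaussianShift σ μ)
    (herg : Ergodic HOST.shift μ) (x : UnitAddCircle) : σ {x} = 0 := by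
  classical
  by_contra hx
  set A : Set UnitAddCircle := {y | y = x ∨ y = -x} with hA
  have hAm : MeasurableSet A := (measurableSet_singleton x).union (measurableSet_singleton (-x))
  set g : ℕ → UnitAddCircle → ℂ := fun j y => if j = 0 ∧ y ∈ A then 1 else 0 with hg
  have hgm : ∀ j, Measurable (g j) := by
    intro j
    by_cases hj : j = 0
    · have e : g j = fun y => if y ∈ A then 1 else 0 := by
        funext y; simp only [hg, hj, true_and]
      rw [e]
      exact Measurable.ite hAm measurable_const measurable_const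
    · have e : g j = fun y => 0 := by
        funext y; simp only [hg, hj, false_and, if_false]
      rw [e]
      exact measurable_const
  have hgb : ∀ j y, ‖g j y‖ ≤ 1 := by
    intro j y
    simp only [hg]
    split_ifs <;> simp
  have hAs : ∀ y, -y ∈ A ↔ y ∈ A := by
    intro y
    simp only [hA, Set.mem_ofPred_eq]
    constructor
    · rintro (h | h)
      · right; rw [← h, neg_neg]
      · left; exact neg_injective h
    · rintro (h | h)
      · right; rw [h]
      · left; rw [h, neg_neg]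
  obtain ⟨Ψ, hΨm, hΨe, hΨg, -, -⟩ := HOST.gaussian_pieces σ hsymm μ hμ g hgm
    (fun j => MemLp.of_bound (hgm j).aestronglyMeasurable 1 (ae_of_all _ fun y => hgb j y))
    (fun j y => by
      simp only [hg, hAs]
      split_ifs <;> simp)
    (fun i j hij y => by
      by_cases hi : i = 0
      · right
        have hj : j ≠ 0 := fun h => hij (hi.trans h.symm)
        simp only [hg, hj, false_and, if_false]
      · left
        simp only [hg, hi, false_and, if_false])
  have hfin : IsFiniteMeasure (σ.withDensity (fun y => ENNReal.ofReal (‖g 0 y‖ ^ 2))) := by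
    refine isFiniteMeasure_withDensity (ne_top_of_le_ne_top (measure_ne_top σ Set.univ) ?_)
    calc ∫⁻ y, ENNReal.ofReal (‖g 0 y‖ ^ 2) ∂σ ≤ ∫⁻ _y, 1 ∂σ := by
          refine lintegral_mono fun y => ?_
          rw [← ENNReal.ofReal_one]
          refine ENNReal.ofReal_le_ofReal ?_
          have := hgb 0 y
          have := norm_nonneg (g 0 y)
          nlinarith
      _ = σ Set.univ := by simp
  have hden : ∀ y, ENNReal.ofReal (‖g 0 y‖ ^ 2) = A.indicator 1 y := by
    intro y
    by_cases hy : y ∈ A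
    · rw [Set.indicator_of_mem hy]
      simp [hg, hy]
    · rw [Set.indicator_of_notMem hy]
      simp [hg, hy]
  have hτe : σ.withDensity (fun y => ENNReal.ofReal (‖g 0 y‖ ^ 2)) = σ.restrict A := by
    simp_rw [hden]
    exact withDensity_indicator_one hAm
  have hν := hΨg 0
  have herge := const_of_erg herg (hΨm 0) (hΨe 0)
  rw [hτe] at hν
  refine main (τ := σ.restrict A) hν ?_ x ?_ herge
  · rw [Measure.restrict_apply_univ]
    intro h0
    exact hx (measure_mono_null (fun y hy => Or.inl hy) h0)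
  · rw [ae_restrict_iff' hAm]
    exact ae_of_all _ fun y hy => hy

end FULL
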