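import Pool.Agent.Lib.MP_8a5982_an.FULL.Defs
import Pool.Agent.Lib.MP_8a5982_an.HOST.CharF

/-!
Project FULL, module MGF: exponential moments determine the law of a joining.
-/

open MeasureTheory ProbabilityTheory Filter Topology

namespace FULL

/-- a random variable with a Gaussian moment generating function -/
private lemma expI_of_mgf {Ω : Type*} [MeasurableSpace Ω] (L : Measure Ω) [IsProbabilityMeasure L]
    (X : Ω → ℝ) (v : ℝ) (hv : 0 ≤ v)
    (h : ∀ t : ℝ, ∫ x, Real.exp (t * X x) ∂L = Real.exp (t ^ 2 * v / 2)) :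
    ∫ x, Complex.exp (Complex.I * (X x : ℂ)) ∂L = Complex.exp (-(1 / 2) * (v : ℂ)) := by
  have h1 : mgf id (gaussianReal 0 v.toNNReal) = mgf X L := by
    rw [mgf_id_gaussianReal]
    funext t
    rw [mgf, h t, Real.coe_toNNReal _ hv]
    congr 1
    ring
  have h2 := eqOn_complexMGF_of_mgf h1
  have h3 : complexMGF id (gaussianReal 0 v.toNNReal) Complex.I = complexMGF X L Complex.I := by
    refine h2 ?_
    rw [integrableExpSet_id_gaussianReal]
    simp
  rw [complexMGF_id_gaussianReal] at h3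
  have h4 : complexMGF X L Complex.I = ∫ x, Complex.exp (Complex.I * (X x : ℂ)) ∂L := rfl
  rw [← h4, ← h3]
  congr 1
  rw [Real.coe_toNNReal _ hv, Complex.I_sq]
  push_cast
  ring

theorem of_mgf {n : ℕ} (μ : Measure (ℤ → ℝ)) (σ : Measure UnitAddCircle)
    [IsProbabilityMeasure σ] (hsymm : σ.map (fun x => -x) = σ) (hμ : HOST.IsGaussianShift σ μ)
    (L : Measure (Fin n → ℤ → ℝ)) [IsProbabilityMeasure L]
    (hone : ∀ i, L.map (fun x => x i) = μ)
    (h : ∀ a : Fin n → ℤ →₀ ℝ, ∫ x, Real.exp (∑ k, HOST.lin (a k) (x k)) ∂L =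
      Real.exp ((∑ k, ∫ x, ‖HOST.rtrig (a k) x‖ ^ 2 ∂σ) / 2)) :
    L = Measure.pi (fun _ : Fin n => μ) := by
  have hμp : IsProbabilityMeasure μ := hμ.1
  refine HOST.ext_family n _ _ fun s a' => ?_
  set a : Fin n → ℤ →₀ ℝ := fun i => HOST.ofFun s (a' i) with ha
  have e1 : ∀ (i : Fin n) (ω : ℤ → ℝ), ∑ k ∈ s, a' i k * ω k = HOST.lin (a i) ω := fun i ω =>
    (HOST.lin_ofFun s (a' i) ω).symm
  simp only [e1]
  have e2 : ∫ x, Complex.exp (Complex.I * ((∑ i, HOST.lin (a i) (x i) : ℝ) : ℂ))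
      ∂(Measure.pi (fun _ : Fin n => μ)) =
      ∏ i, ∫ ω, Complex.exp (Complex.I * (HOST.lin (a i) ω : ℂ)) ∂μ := by
    have h : ∀ x : Fin n → ℤ → ℝ,
        Complex.exp (Complex.I * ((∑ i, HOST.lin (a i) (x i) : ℝ) : ℂ)) =
          ∏ i, Complex.exp (Complex.I * (HOST.lin (a i) (x i) : ℂ)) := by
      intro x
      rw [← Complex.exp_sum]
      congr 1
      push_cast
      rw [Finset.mul_sum]
    simp only [h]
    exact integral_fintype_prod_eq_prod (𝕜 := ℂ) (fun i ω =>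
      Complex.exp (Complex.I * (HOST.lin (a i) ω : ℂ)))
  rw [e2]
  rw [expI_of_mgf L _ (∑ k, ∫ x, ‖HOST.rtrig (a k) x‖ ^ 2 ∂σ)
    (Finset.sum_nonneg fun k _ => integral_nonneg fun x => by positivity) fun t => ?_]
  · have e3 : ∀ i, ∫ ω, Complex.exp (Complex.I * (HOST.lin (a i) ω : ℂ)) ∂μ =
        Complex.exp (-(1 / 2) * ((∫ x, ‖HOST.rtrig (a i) x‖ ^ 2 ∂σ : ℝ) : ℂ)) := fun i =>
      HOST.charFun_lin hμ (a i)
    simp only [e3]
    rw [← Complex.exp_sum]
    congr 1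
    push_cast
    rw [Finset.mul_sum]
  · have h1 := h (fun k => t • a k)
    have h2 : ∀ x : Fin n → ℤ → ℝ, ∑ k, HOST.lin (t • a k) (x k) =
        t * ∑ k, HOST.lin (a k) (x k) := by
      intro x
      rw [Finset.mul_sum]
      exact Finset.sum_congr rfl fun k _ => HOST.lin_smul t (a k) (x k)
    simp only [h2] at h1
    rw [h1]
    congr 1
    have h3 : ∀ k, ∫ x, ‖HOST.rtrig (t • a k) x‖ ^ 2 ∂σ =
        t ^ 2 * ∫ x, ‖HOST.rtrig (a k) x‖ ^ 2 ∂σ := fun k => HOST.integral_rtrig_smul t (a k)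
    simp only [h3]
    rw [← Finset.mul_sum]

end FULL
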