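import Pool.Agent.Lib.MP_8a5982_an.FULL.Defs
import Pool.Agent.Lib.MP_8a5982_an.FULL.Cell
import Pool.Agent.Lib.MP_8a5982_an.FULL.Gauss
import Pool.Agent.Lib.MP_8a5982_an.STAR.Vars
import Pool.Agent.Lib.MP_8a5982_an.HOST.CharF

/-!
Project FULL (MP_8a5982_an): module MODEL, the stage law of a joining (helper56).
-/

open MeasureTheory ProbabilityTheory Filter

namespace FULL

namespace ModelAux

theorem expsum {n : ℕ} (z : Fin n → ℝ) : Real.exp (∑ k, z k) ≤ 1 + ∑ k, Real.exp (n * z k) := by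
  rcases Nat.eq_zero_or_pos n with rfl | hn
  · simp
  · have : Nonempty (Fin n) := ⟨⟨0, hn⟩⟩
    obtain ⟨m, hm⟩ := Finite.exists_max z
    have h1 : ∑ k, z k ≤ n * z m := by
      calc ∑ k, z k ≤ ∑ _k : Fin n, z m := Finset.sum_le_sum fun k _ => hm k
        _ = n * z m := by simp
    have h2 : Real.exp (n * z m) ≤ ∑ k, Real.exp (n * z k) :=
      Finset.single_le_sum (f := fun k => Real.exp (n * z k)) (fun k _ => (Real.exp_pos _).le)
        (Finset.mem_univ m)
    have h3 := Real.exp_le_exp.2 h1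
    linarith

theorem exp_sub_le (u v : ℝ) :
    |Real.exp u - Real.exp v| ≤ |u - v| * (Real.exp u + Real.exp v) := by
  have key : ∀ u v : ℝ, v ≤ u → |Real.exp u - Real.exp v| ≤ |u - v| * (Real.exp u + Real.exp v) := by
    intro u v h
    rw [abs_of_nonneg (sub_nonneg.2 (Real.exp_le_exp.2 h)), abs_of_nonneg (sub_nonneg.2 h)]
    have h1 : Real.exp v = Real.exp u * Real.exp (v - u) := by
      rw [← Real.exp_add]; congr 1; ring
    have h2 : 1 + (v - u) ≤ Real.exp (v - u) := by linarith [Real.add_one_le_exp (v - u)]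
    have h3 : 0 < Real.exp u := Real.exp_pos u
    have h4 : 0 < Real.exp v := Real.exp_pos v
    have h5 : Real.exp u * (1 + (v - u)) ≤ Real.exp v := by
      rw [h1]
      exact mul_le_mul_of_nonneg_left h2 h3.le
    have h6 : 0 ≤ (u - v) * Real.exp v := mul_nonneg (sub_nonneg.2 h) h4.le
    nlinarith
  rcases le_total v u with h | h
  · exact key u v h
  · have := key v u h
    rw [abs_sub_comm, abs_sub_comm u v, add_comm (Real.exp u)]
    exact this

theorem sq_sum_le {n : ℕ} (z : Fin n → ℝ) : (∑ k, z k) ^ 2 ≤ n * ∑ k, z k ^ 2 := by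
  have := sq_sum_le_card_mul_sum_sq (s := (Finset.univ : Finset (Fin n))) (f := z)
  simpa using this

/-- the cells of positive mass cover everything up to a null set -/
theorem cover_null (σ : Measure UnitAddCircle) [IsProbabilityMeasure σ]
    (hsymm : σ.map (fun x => -x) = σ) (hna : ∀ x, σ {x} = 0) (Q : ℕ) (hQ : 0 < Q)
    (hev : Even Q) {D : ℕ} (c : Fin D → ℕ)
    (hcov : ∀ j, 2 * (j + 1) ≤ Q → σ (STAR.arc Q j) ≠ 0 → ∃ i, c i = j) :
    σ (⋃ j, (STAR.arc Q (c j) ∪ -STAR.arc Q (c j)))ᶜ = 0 := by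
  have hneg : MeasurePreserving (fun x : UnitAddCircle => -x) σ σ := ⟨by fun_prop, hsymm⟩
  have hQ' : (0 : ℝ) < Q := by exact_mod_cast hQ
  obtain ⟨R, hR⟩ := hev
  let N : Set UnitAddCircle := {((1 / 2 : ℝ) : UnitAddCircle)} ∪
    ⋃ j : ℕ, ⋃ _ : 2 * (j + 1) ≤ Q ∧ σ (STAR.arc Q j) = 0, (STAR.arc Q j ∪ -STAR.arc Q j)
  have hN : σ N = 0 := by
    refine measure_union_null (hna _) ?_
    refine measure_iUnion_null fun j => measure_iUnion_null fun hj => ?_
    refine measure_union_null hj.2 ?_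
    have h1 : -STAR.arc Q j = (fun x : UnitAddCircle => -x) ⁻¹' (STAR.arc Q j) := rfl
    rw [h1, hneg.measure_preimage (STAR.Vars.measurableSet_arc hQ hj.1).nullMeasurableSet]
    exact hj.2
  refine measure_mono_null ?_ hN
  intro x hx
  by_contra hxN
  -- some arc contains x or -x
  have main : ∀ y : UnitAddCircle, STAR.Vars.rho y < 1 / 2 → ∃ j, 2 * (j + 1) ≤ Q ∧ y ∈ STAR.arc Q j := by
    intro y hy
    have h0 : 0 ≤ STAR.Vars.rho y := (STAR.Vars.rho_mem y).1
    refine ⟨⌊STAR.Vars.rho y * Q⌋₊, ?_, ?_⟩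
    · have h1 : STAR.Vars.rho y * Q < R := by
        have : (Q : ℝ) = R + R := by exact_mod_cast hR
        rw [this] at hQ' ⊢
        nlinarith
      have h2 : ⌊STAR.Vars.rho y * Q⌋₊ < R := (Nat.floor_lt (by positivity)).2 h1
      omega
    · have h1 : STAR.Vars.rho y * Q < R := by
        have : (Q : ℝ) = R + R := by exact_mod_cast hR
        rw [this] at hQ' ⊢
        nlinarith
      have h2 : ⌊STAR.Vars.rho y * Q⌋₊ < R := (Nat.floor_lt (by positivity)).2 h1
      rw [STAR.Vars.mem_arc hQ (by omega)]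
      constructor
      · rw [div_le_iff₀ hQ']
        exact Nat.floor_le (by positivity)
      · rw [lt_div_iff₀ hQ']
        exact Nat.lt_floor_add_one _
  have hnot : ∀ j, 2 * (j + 1) ≤ Q → x ∈ STAR.arc Q j ∪ -STAR.arc Q j → False := by
    intro j hj hxj
    by_cases hm : σ (STAR.arc Q j) = 0
    · apply hxN
      right
      refine Set.mem_iUnion.2 ⟨j, Set.mem_iUnion.2 ⟨⟨hj, hm⟩, hxj⟩⟩
    · obtain ⟨i, hi⟩ := hcov j hj hm
      apply hx
      refine Set.mem_iUnion.2 ⟨i, ?_⟩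
      rw [hi]
      exact hxj
  rcases lt_trichotomy (STAR.Vars.rho x) (1 / 2) with h | h | h
  · obtain ⟨j, hj, hxj⟩ := main x h
    exact hnot j hj (Or.inl hxj)
  · apply hxN
    left
    rw [Set.mem_singleton_iff, ← STAR.Vars.coe_rho x, h]
  · have hx0 : x ≠ 0 := by
      rintro rfl
      have : STAR.Vars.rho ((0 : ℝ) : UnitAddCircle) = 0 :=
        STAR.Vars.rho_coe le_rfl (by norm_num)
      rw [AddCircle.coe_zero] at this
      rw [this] at h
      norm_num at h
    have h1 := STAR.Vars.rho_neg hx0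
    obtain ⟨j, hj, hxj⟩ := main (-x) (by rw [h1]; linarith)
    exact hnot j hj (Or.inr hxj)

/-- enumeration of the cells of positive mass -/
theorem exists_cells (σ : Measure UnitAddCircle) (Q : ℕ) :
    ∃ (D : ℕ) (c : Fin D → ℕ), Function.Injective c ∧ (∀ j, 2 * (c j + 1) ≤ Q) ∧
      (∀ j, σ (STAR.arc Q (c j)) ≠ 0) ∧
      ∀ j, 2 * (j + 1) ≤ Q → σ (STAR.arc Q j) ≠ 0 → ∃ i, c i = j := by
  classical
  let s : Finset ℕ := (Finset.range Q).filter fun j => 2 * (j + 1) ≤ Q ∧ σ (STAR.arc Q j) ≠ 0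
  refine ⟨s.card, fun i => s.orderEmbOfFin rfl i, (s.orderEmbOfFin rfl).injective, ?_, ?_, ?_⟩
  · intro j
    have := Finset.orderEmbOfFin_mem s rfl j
    exact (Finset.mem_filter.1 this).2.1
  · intro j
    have := Finset.orderEmbOfFin_mem s rfl j
    exact (Finset.mem_filter.1 this).2.2
  · intro j hj hm
    have hjs : j ∈ s := by
      refine Finset.mem_filter.2 ⟨Finset.mem_range.2 (by omega), hj, hm⟩
    have : j ∈ Set.range (s.orderEmbOfFin rfl) := by
      rw [Finset.range_orderEmbOfFin]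
      exact hjs
    exact this

/-- characteristic function of the standard Gaussian measure -/
theorem charFun_gam {κ : Type} [Fintype κ] (α : κ → ℝ) :
    ∫ y, Complex.exp (Complex.I * ((∑ i, α i * y i : ℝ) : ℂ)) ∂(Measure.pi fun _ : κ =>
      gaussianReal 0 1) = Complex.exp (-(1 / 2) * ((∑ i, α i ^ 2 : ℝ) : ℂ)) := by
  have h1 : ∀ y : κ → ℝ, Complex.exp (Complex.I * ((∑ i, α i * y i : ℝ) : ℂ)) =
      ∏ i, Complex.exp (Complex.I * ((α i * y i : ℝ) : ℂ)) := by
    intro y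
    rw [← Complex.exp_sum, ← Finset.mul_sum]
    push_cast
    rfl
  simp only [h1]
  rw [integral_fintype_prod_eq_prod (f := fun i (x : ℝ) => Complex.exp (Complex.I * ((α i * x : ℝ) : ℂ)))]
  have h2 : ∀ i, ∫ x, Complex.exp (Complex.I * ((α i * x : ℝ) : ℂ)) ∂(gaussianReal 0 1) =
      Complex.exp (-(1 / 2) * ((α i ^ 2 : ℝ) : ℂ)) := by
    intro i
    have h3 := charFun_gaussianReal (μ := 0) (v := 1) (α i)
    rw [charFun_apply_real] at h3
    have e : ∀ x : ℝ, Complex.exp (Complex.I * ((α i * x : ℝ) : ℂ)) =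
        Complex.exp ((α i : ℂ) * (x : ℂ) * Complex.I) := by
      intro x; push_cast; ring_nf
    simp only [e]
    rw [h3]
    congr 1
    push_cast
    ring
  simp only [h2]
  rw [← Complex.exp_sum, ← Finset.mul_sum]
  push_cast
  rfl

/-- a vector with the standard Gaussian characteristic function -/
theorem law_of_charFun {Ω κ : Type} [MeasurableSpace Ω] [Fintype κ] (μ : Measure Ω)
    [IsProbabilityMeasure μ] (Y : Ω → κ → ℝ) (hY : Measurable Y)
    (h : ∀ α : κ → ℝ, ∫ ω, Complex.exp (Complex.I * ((∑ i, α i * Y ω i : ℝ) : ℂ)) ∂μ =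
      Complex.exp (-(1 / 2) * ((∑ i, α i ^ 2 : ℝ) : ℂ))) :
    μ.map Y = Measure.pi fun _ : κ => gaussianReal 0 1 := by
  classical
  have : IsProbabilityMeasure (μ.map Y) := Measure.isProbabilityMeasure_map hY.aemeasurable
  refine HOST.ext_index _ _ fun s a => ?_
  have e : ∀ y : κ → ℝ, ∑ k ∈ s, a k * y k = ∑ k, (if k ∈ s then a k else 0) * y k := by
    intro y
    simp only [ite_mul, zero_mul]
    rw [Finset.sum_ite_mem, Finset.univ_inter]
  simp only [e]
  rw [charFun_gam, integral_map hY.aemeasurable]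
  · exact h _
  · have : Measurable fun y : κ → ℝ => ∑ k, (if k ∈ s then a k else 0) * y k := by fun_prop
    exact (Complex.measurable_exp.comp
      (measurable_const.mul (Complex.measurable_ofReal.comp this))).aestronglyMeasurable

theorem integral_prod_pair {n : ℕ} {E : Type} [MeasurableSpace E] (μ : Measure E)
    [IsProbabilityMeasure μ] (L : Measure (Fin n → E)) [IsProbabilityMeasure L]
    (hone : ∀ i, L.map (fun x => x i) = μ)
    (hpair : ∀ i l, i ≠ l → L.map (fun x => (x i, x l)) = μ.prod μ)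
    (S : Finset (Fin n)) (hS : S.card ≤ 2) (g : Fin n → E → ℂ) (hg : ∀ k, Measurable (g k)) :
    ∫ x, ∏ k ∈ S, g k (x k) ∂L = ∏ k ∈ S, ∫ ω, g k ω ∂μ := by
  classical
  have h1 : ∀ k, ∫ x, g k (x k) ∂L = ∫ ω, g k ω ∂μ := by
    intro k
    rw [← hone k, integral_map (measurable_pi_apply k).aemeasurable
      (hg k).aestronglyMeasurable]
  have h2 : ∀ k l, k ≠ l → ∫ x, g k (x k) * g l (x l) ∂L = (∫ ω, g k ω ∂μ) * ∫ ω, g l ω ∂μ := by
    intro k l hkl
    rw [← integral_prod_mul, ← hpair k l hkl, integral_map]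
    · exact ((measurable_pi_apply k).prodMk (measurable_pi_apply l)).aemeasurable
    · exact (((hg k).comp measurable_fst).mul ((hg l).comp measurable_snd)).aestronglyMeasurable
  have hc : S.card = 0 ∨ S.card = 1 ∨ S.card = 2 := by omega
  rcases hc with hc | hc | hc
  · rw [Finset.card_eq_zero] at hc
    subst hc
    simp
  · obtain ⟨k, rfl⟩ := Finset.card_eq_one.1 hc
    simp only [Finset.prod_singleton]
    exact h1 k
  · obtain ⟨k, l, hkl, rfl⟩ := Finset.card_eq_two.1 hc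
    simp only [Finset.prod_pair hkl]
    exact h2 k l hkl

/-- the stage map -/
def stg {n : ℕ} {κ : Type} (Y : (ℤ → ℝ) → κ → ℝ) (x : Fin n → ℤ → ℝ) (i : Fin n × κ) : ℝ :=
  Y (x i.1) i.2

theorem measurable_stg {n : ℕ} {κ : Type} (Y : (ℤ → ℝ) → κ → ℝ) (hY : Measurable Y) :
    Measurable (stg (n := n) Y) := by
  refine measurable_pi_lambda _ fun i => ?_
  exact (measurable_pi_apply i.2).comp (hY.comp (measurable_pi_apply i.1))

theorem adm_stg {n : ℕ} {κ : Type} [Fintype κ] (μ : Measure (ℤ → ℝ)) [IsProbabilityMeasure μ]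
    (L : Measure (Fin n → ℤ → ℝ)) [IsProbabilityMeasure L]
    (hone : ∀ i, L.map (fun x => x i) = μ)
    (hpair : ∀ i l, i ≠ l → L.map (fun x => (x i, x l)) = μ.prod μ)
    (Y : (ℤ → ℝ) → κ → ℝ) (hY : Measurable Y)
    (h : ∀ α : κ → ℝ, ∫ ω, Complex.exp (Complex.I * ((∑ i, α i * Y ω i : ℝ) : ℂ)) ∂μ =
      Complex.exp (-(1 / 2) * ((∑ i, α i ^ 2 : ℝ) : ℂ))) :
    Adm n (L.map (stg Y)) := by
  classical
  refine ⟨Measure.isProbabilityMeasure_map (measurable_stg Y hY).aemeasurable, fun S hS => ?_⟩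
  have hm : Measurable fun (x : Fin n × κ → ℝ) (i : S × κ) => x (i.1.1, i.2) :=
    measurable_pi_lambda _ fun i => measurable_pi_apply _
  rw [Measure.map_map hm (measurable_stg Y hY)]
  refine law_of_charFun L _ (hm.comp (measurable_stg Y hY)) fun α => ?_
  let g : Fin n → (ℤ → ℝ) → ℂ := fun k ω => if hk : k ∈ S then
    Complex.exp (Complex.I * ((∑ i, α (⟨k, hk⟩, i) * Y ω i : ℝ) : ℂ)) else 1
  have hg : ∀ k, Measurable (g k) := by
    intro k
    by_cases hk : k ∈ S
    · simp only [g, dif_pos hk]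
      have : Measurable fun ω : ℤ → ℝ => ∑ i, α (⟨k, hk⟩, i) * Y ω i :=
        Finset.measurable_fun_sum _ fun i _ => ((measurable_pi_apply i).comp hY).const_mul _
      exact Complex.measurable_exp.comp
        (measurable_const.mul (Complex.measurable_ofReal.comp this))
    · simp only [g, dif_neg hk]
      exact measurable_const
  have e1 : ∀ x : Fin n → ℤ → ℝ, Complex.exp (Complex.I * ((∑ i : S × κ,
      α i * ((fun (x : Fin n × κ → ℝ) (i : S × κ) => x (i.1.1, i.2)) ∘ stg Y) x i : ℝ) : ℂ)) =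
      ∏ k ∈ S, g k (x k) := by
    intro x
    rw [← Finset.prod_coe_sort S (fun k => g k (x k)), Fintype.sum_prod_type]
    push_cast
    rw [Finset.mul_sum, Complex.exp_sum]
    refine Finset.prod_congr rfl fun k _ => ?_
    simp only [g, dif_pos k.2]
    push_cast
    rfl
  simp only [e1]
  rw [integral_prod_pair μ L hone hpair S hS g hg,
    ← Finset.prod_coe_sort S (fun k => ∫ ω, g k ω ∂μ)]
  have e2 : ∀ k : S, ∫ ω, g k ω ∂μ =
      Complex.exp (-(1 / 2) * ((∑ i, α (k, i) ^ 2 : ℝ) : ℂ)) := by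
    intro k
    simp only [g, dif_pos k.2]
    exact h _
  simp only [e2]
  rw [← Complex.exp_sum, ← Finset.mul_sum, Fintype.sum_prod_type]
  push_cast
  rfl

theorem integral_coord {n : ℕ} {E : Type} [MeasurableSpace E] (μ : Measure E)
    (L : Measure (Fin n → E)) (hone : ∀ i, L.map (fun x => x i) = μ) (k : Fin n) (h : E → ℝ)
    (hh : Measurable h) (hi : Integrable h μ) :
    Integrable (fun x : Fin n → E => h (x k)) L ∧ ∫ x, h (x k) ∂L = ∫ ω, h ω ∂μ := by
  have hmp : MeasurePreserving (fun x : Fin n → E => x k) L μ := ⟨measurable_pi_apply k, hone k⟩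
  refine ⟨hmp.integrable_comp_of_integrable hi, ?_⟩
  rw [← hone k, integral_map (measurable_pi_apply k).aemeasurable hh.aestronglyMeasurable]

theorem exp_close {n : ℕ} {E : Type} [MeasurableSpace E] (μ : Measure E) [IsProbabilityMeasure μ]
    (L : Measure (Fin n → E)) [IsProbabilityMeasure L] (hone : ∀ i, L.map (fun x => x i) = μ)
    (U A : Fin n → E → ℝ) (hU : ∀ k, Measurable (U k)) (hA : ∀ k, Measurable (A k))
    (δ : Fin n → ℝ) (C ε : ℝ) (hε : 0 < ε)
    (hm : ∀ k, MemLp (fun ω => U k ω - A k ω) 2 μ)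
    (hd : ∀ k, ∫ ω, (U k ω - A k ω) ^ 2 ∂μ ≤ δ k ^ 2)
    (hiU : ∀ k, Integrable (fun ω => Real.exp (2 * n * U k ω)) μ)
    (heU : ∀ k, ∫ ω, Real.exp (2 * n * U k ω) ∂μ ≤ C)
    (hiA : ∀ k, Integrable (fun ω => Real.exp (2 * n * A k ω)) μ)
    (heA : ∀ k, ∫ ω, Real.exp (2 * n * A k ω) ∂μ ≤ C) :
    |∫ x, Real.exp (∑ k, U k (x k)) ∂L - ∫ x, Real.exp (∑ k, A k (x k)) ∂L| ≤
      (n / (2 * ε)) * ∑ k, δ k ^ 2 + (ε / 2) * (4 + 4 * n * C) := by
  have hint : ∀ V : Fin n → E → ℝ, (∀ k, Measurable (V k)) →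
      (∀ k, Integrable (fun ω => Real.exp (2 * n * V k ω)) μ) →
      Integrable (fun x : Fin n → E => Real.exp (∑ k, V k (x k))) L := by
    intro V hV hiV
    have h1 : Integrable (fun x : Fin n → E => 1 + ∑ k, (1 + Real.exp (2 * n * V k (x k)))) L := by
      refine (integrable_const _).add (integrable_finsetSum _ fun k _ => ?_)
      exact (integrable_const _).add (integral_coord μ L hone k _
        (Real.measurable_exp.comp ((hV k).const_mul _)) (hiV k)).1
    refine h1.mono' ?_ (Eventually.of_forall fun x => ?_)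
    · exact (Real.measurable_exp.comp (Finset.measurable_fun_sum _ fun k _ =>
        (hV k).comp (measurable_pi_apply k))).aestronglyMeasurable
    · rw [Real.norm_eq_abs, abs_of_pos (Real.exp_pos _)]
      refine (expsum _).trans (add_le_add le_rfl (Finset.sum_le_sum fun k _ => ?_))
      have h2 : Real.exp (2 * n * V k (x k)) = Real.exp (n * V k (x k)) ^ 2 := by
        rw [← Real.exp_nat_mul]; congr 1; push_cast; ring
      rw [h2]
      nlinarith [sq_nonneg (Real.exp (n * V k (x k)) - 1)]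
  have hIU := hint U hU hiU
  have hIA := hint A hA hiA
  rw [← integral_sub hIU hIA]
  let G : (Fin n → E) → ℝ := fun x => (n / (2 * ε)) * ∑ k, (U k (x k) - A k (x k)) ^ 2 +
    (ε / 2) * (4 + 2 * ∑ k, Real.exp (2 * n * U k (x k)) + 2 * ∑ k, Real.exp (2 * n * A k (x k)))
  have hsq : ∀ k, Integrable (fun ω => (U k ω - A k ω) ^ 2) μ := fun k => (hm k).integrable_sq
  have c1 : ∀ k, Integrable (fun x : Fin n → E => (U k (x k) - A k (x k)) ^ 2) L ∧
      ∫ x, (U k (x k) - A k (x k)) ^ 2 ∂L = ∫ ω, (U k ω - A k ω) ^ 2 ∂μ := fun k =>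
    integral_coord μ L hone k (fun ω => (U k ω - A k ω) ^ 2)
      (((hU k).sub (hA k)).pow_const 2) (hsq k)
  have c2 : ∀ k, Integrable (fun x : Fin n → E => Real.exp (2 * n * U k (x k))) L ∧
      ∫ x, Real.exp (2 * n * U k (x k)) ∂L = ∫ ω, Real.exp (2 * n * U k ω) ∂μ := fun k =>
    integral_coord μ L hone k (fun ω => Real.exp (2 * n * U k ω))
      (Real.measurable_exp.comp ((hU k).const_mul _)) (hiU k)
  have c3 : ∀ k, Integrable (fun x : Fin n → E => Real.exp (2 * n * A k (x k))) L ∧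
      ∫ x, Real.exp (2 * n * A k (x k)) ∂L = ∫ ω, Real.exp (2 * n * A k ω) ∂μ := fun k =>
    integral_coord μ L hone k (fun ω => Real.exp (2 * n * A k ω))
      (Real.measurable_exp.comp ((hA k).const_mul _)) (hiA k)
  have i1 : Integrable (fun x : Fin n → E => ∑ k, (U k (x k) - A k (x k)) ^ 2) L :=
    integrable_finsetSum _ fun k _ => (c1 k).1
  have i2 : Integrable (fun x : Fin n → E => ∑ k, Real.exp (2 * n * U k (x k))) L :=
    integrable_finsetSum _ fun k _ => (c2 k).1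
  have i3 : Integrable (fun x : Fin n → E => ∑ k, Real.exp (2 * n * A k (x k))) L :=
    integrable_finsetSum _ fun k _ => (c3 k).1
  have j1 : Integrable (fun x : Fin n → E =>
      (n / (2 * ε)) * ∑ k, (U k (x k) - A k (x k)) ^ 2) L := i1.const_mul _
  have j2 : Integrable (fun x : Fin n → E => 4 + 2 * ∑ k, Real.exp (2 * n * U k (x k))) L :=
    (integrable_const _).add (i2.const_mul _)
  have j2' : Integrable (fun x : Fin n → E => 2 * ∑ k, Real.exp (2 * n * U k (x k))) L :=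
    i2.const_mul _
  have j3' : Integrable (fun x : Fin n → E => 2 * ∑ k, Real.exp (2 * n * A k (x k))) L :=
    i3.const_mul _
  have j3 : Integrable (fun x : Fin n → E => 4 + 2 * ∑ k, Real.exp (2 * n * U k (x k)) +
      2 * ∑ k, Real.exp (2 * n * A k (x k))) L := j2.add j3'
  have j4 : Integrable (fun x : Fin n → E => (ε / 2) * (4 + 2 * ∑ k, Real.exp (2 * n * U k (x k)) +
      2 * ∑ k, Real.exp (2 * n * A k (x k)))) L := j3.const_mul _
  have hG : Integrable G L := j1.add j4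
  have hGi : ∫ x, G x ∂L = (n / (2 * ε)) * ∑ k, ∫ ω, (U k ω - A k ω) ^ 2 ∂μ +
      (ε / 2) * (4 + 2 * ∑ k, ∫ ω, Real.exp (2 * n * U k ω) ∂μ +
        2 * ∑ k, ∫ ω, Real.exp (2 * n * A k ω) ∂μ) := by
    simp only [G]
    rw [integral_add j1 j4, integral_const_mul, integral_const_mul,
      integral_add j2 j3', integral_add (integrable_const _) j2', integral_const_mul,
      integral_const_mul,
      integral_finsetSum _ (fun k _ => (c1 k).1), integral_finsetSum _ (fun k _ => (c2 k).1),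
      integral_finsetSum _ (fun k _ => (c3 k).1)]
    simp only [fun k => (c1 k).2, fun k => (c2 k).2, fun k => (c3 k).2]
    simp
  have hpt : ∀ x : Fin n → E, ‖Real.exp (∑ k, U k (x k)) - Real.exp (∑ k, A k (x k))‖ ≤ G x := by
    intro x
    rw [Real.norm_eq_abs]
    set u := ∑ k, U k (x k) with hu
    set v := ∑ k, A k (x k) with hv
    have h1 := exp_sub_le u v
    have h2 : |u - v| * (Real.exp u + Real.exp v) ≤
        (u - v) ^ 2 / (2 * ε) + (ε / 2) * (Real.exp u + Real.exp v) ^ 2 := by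
      have h3 : (u - v) ^ 2 / (2 * ε) + (ε / 2) * (Real.exp u + Real.exp v) ^ 2 -
          |u - v| * (Real.exp u + Real.exp v) =
          (|u - v| - ε * (Real.exp u + Real.exp v)) ^ 2 / (2 * ε) := by
        rw [← sq_abs (u - v)]
        field_simp
        ring
      have h4 : 0 ≤ (|u - v| - ε * (Real.exp u + Real.exp v)) ^ 2 / (2 * ε) := by positivity
      linarith
    have h3 : (u - v) ^ 2 ≤ n * ∑ k, (U k (x k) - A k (x k)) ^ 2 := by
      rw [hu, hv, ← Finset.sum_sub_distrib]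
      exact sq_sum_le _
    have h4 : ∀ V : Fin n → E → ℝ, Real.exp (∑ k, V k (x k)) ^ 2 ≤
        1 + ∑ k, Real.exp (2 * n * V k (x k)) := by
      intro V
      have e : Real.exp (∑ k, V k (x k)) ^ 2 = Real.exp (∑ k, 2 * V k (x k)) := by
        rw [← Real.exp_nat_mul]; congr 1; push_cast; rw [Finset.mul_sum]
      rw [e]
      refine (expsum _).trans (le_of_eq ?_)
      congr 1
      refine Finset.sum_congr rfl fun k _ => ?_
      congr 1
      ring
    have h5 : (Real.exp u + Real.exp v) ^ 2 ≤ 4 + 2 * ∑ k, Real.exp (2 * n * U k (x k)) +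
        2 * ∑ k, Real.exp (2 * n * A k (x k)) := by
      have h6 := h4 U
      have h7 := h4 A
      nlinarith [sq_nonneg (Real.exp u - Real.exp v)]
    calc |Real.exp u - Real.exp v| ≤ (u - v) ^ 2 / (2 * ε) +
          (ε / 2) * (Real.exp u + Real.exp v) ^ 2 := h1.trans h2
      _ ≤ (n * ∑ k, (U k (x k) - A k (x k)) ^ 2) / (2 * ε) +
          (ε / 2) * (4 + 2 * ∑ k, Real.exp (2 * n * U k (x k)) +
            2 * ∑ k, Real.exp (2 * n * A k (x k))) := by
          gcongr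
      _ = G x := by simp only [G]; ring
  rw [← Real.norm_eq_abs]
  refine (norm_integral_le_of_norm_le hG (Eventually.of_forall hpt)).trans ?_
  rw [hGi]
  have s1 : ∑ k, ∫ ω, (U k ω - A k ω) ^ 2 ∂μ ≤ ∑ k, δ k ^ 2 := Finset.sum_le_sum fun k _ => hd k
  have s2 : ∑ k, ∫ ω, Real.exp (2 * n * U k ω) ∂μ ≤ n * C := by
    refine (Finset.sum_le_sum fun k _ => heU k).trans (le_of_eq ?_)
    simp
  have s3 : ∑ k, ∫ ω, Real.exp (2 * n * A k ω) ∂μ ≤ n * C := by
    refine (Finset.sum_le_sum fun k _ => heA k).trans (le_of_eq ?_)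
    simp
  have s4 : (n / (2 * ε)) * ∑ k, ∫ ω, (U k ω - A k ω) ^ 2 ∂μ ≤ (n / (2 * ε)) * ∑ k, δ k ^ 2 :=
    mul_le_mul_of_nonneg_left s1 (by positivity)
  have s5 : (ε / 2) * (4 + 2 * ∑ k, ∫ ω, Real.exp (2 * n * U k ω) ∂μ +
        2 * ∑ k, ∫ ω, Real.exp (2 * n * A k ω) ∂μ) ≤ (ε / 2) * (4 + 4 * n * C) :=
    mul_le_mul_of_nonneg_left (by linarith) (by positivity)
  linarith

theorem sq_close {E : Type} [MeasurableSpace E] (μ : Measure E) (U A : E → ℝ)
    (hU : MemLp U 2 μ) (hA : MemLp A 2 μ) (ε d M : ℝ) (hε : 0 < ε)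
    (hd : ∫ ω, (U ω - A ω) ^ 2 ∂μ ≤ d) (h1 : ∫ ω, U ω ^ 2 ∂μ ≤ M) (h2 : ∫ ω, A ω ^ 2 ∂μ ≤ M) :
    |(∫ ω, A ω ^ 2 ∂μ) - ∫ ω, U ω ^ 2 ∂μ| ≤ d / (2 * ε) + ε * (2 * M) := by
  have iU := hU.integrable_sq
  have iA := hA.integrable_sq
  have iD := (hU.sub hA).integrable_sq
  rw [← integral_sub iA iU, ← Real.norm_eq_abs]
  have hG : Integrable (fun ω => (U ω - A ω) ^ 2 / (2 * ε) + ε * (U ω ^ 2 + A ω ^ 2)) μ :=
    (iD.div_const _).add ((iU.add iA).const_mul _)
  refine (norm_integral_le_of_norm_le hG (Eventually.of_forall fun ω => ?_)).trans ?_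
  · rw [Real.norm_eq_abs]
    have e : A ω ^ 2 - U ω ^ 2 = -((U ω - A ω) * (U ω + A ω)) := by ring
    rw [e, abs_neg, abs_mul]
    have h3 : (U ω - A ω) ^ 2 / (2 * ε) + (ε / 2) * (U ω + A ω) ^ 2 -
        |U ω - A ω| * |U ω + A ω| = (|U ω - A ω| - ε * |U ω + A ω|) ^ 2 / (2 * ε) := by
      rw [← sq_abs (U ω - A ω), ← sq_abs (U ω + A ω)]
      field_simp
      ring
    have h4 : 0 ≤ (|U ω - A ω| - ε * |U ω + A ω|) ^ 2 / (2 * ε) := by positivity
    have h5 : (U ω + A ω) ^ 2 ≤ 2 * (U ω ^ 2 + A ω ^ 2) := by nlinarith [sq_nonneg (U ω - A ω)]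
    have h6 : (ε / 2) * (U ω + A ω) ^ 2 ≤ (ε / 2) * (2 * (U ω ^ 2 + A ω ^ 2)) :=
      mul_le_mul_of_nonneg_left h5 (by positivity)
    linarith
  · have k1 : Integrable (fun ω => (U ω - A ω) ^ 2 / (2 * ε)) μ := iD.div_const _
    have k2 : Integrable (fun ω => ε * (U ω ^ 2 + A ω ^ 2)) μ := (iU.add iA).const_mul _
    rw [integral_add k1 k2, integral_div, integral_const_mul, integral_add iU iA]
    have h3 : (∫ ω, (U ω - A ω) ^ 2 ∂μ) / (2 * ε) ≤ d / (2 * ε) := by
      gcongr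
    have h4 : ε * (∫ ω, U ω ^ 2 ∂μ + ∫ ω, A ω ^ 2 ∂μ) ≤ ε * (2 * M) :=
      mul_le_mul_of_nonneg_left (by linarith) hε.le
    exact add_le_add h3 h4

theorem mp_iter {n : ℕ} (L : Measure (Fin n → ℤ → ℝ))
    (hL : MeasurePreserving (fun x i => HOST.shift (x i)) L L) (t : ℕ) :
    MeasurePreserving (fun (x : Fin n → ℤ → ℝ) i => HOST.iter HOST.shift (t : ℤ) (x i)) L L := by
  induction t with
  | zero =>
    have : (fun (x : Fin n → ℤ → ℝ) i => HOST.iter HOST.shift ((0 : ℕ) : ℤ) (x i)) = id := by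
      funext x i
      exact HOST.iter_zero HOST.shift (x i)
    rw [this]
    exact MeasurePreserving.id L
  | succ t ih =>
    have : (fun (x : Fin n → ℤ → ℝ) i => HOST.iter HOST.shift ((t + 1 : ℕ) : ℤ) (x i)) =
        (fun (x : Fin n → ℤ → ℝ) i => HOST.shift (x i)) ∘
          (fun (x : Fin n → ℤ → ℝ) i => HOST.iter HOST.shift (t : ℤ) (x i)) := by
      funext x i
      rw [HOST.iter_nat_succ]
      rfl
    rw [this]
    exact hL.comp ih

/-- the weighted sum of the coefficients -/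
noncomputable def bw (a : ℤ →₀ ℝ) : ℝ := a.sum fun k x => |x| * (|(k : ℝ)| + 1)

theorem bw_nonneg (a : ℤ →₀ ℝ) : 0 ≤ bw a := Finset.sum_nonneg fun k _ => by positivity

theorem sum_le_bw (a : ℤ →₀ ℝ) (t : ℕ) :
    (a.sum fun k x => |x| * (|(k : ℝ)| + t)) ≤ bw a * (t + 1) := by
  unfold bw Finsupp.sum
  rw [Finset.sum_mul]
  refine Finset.sum_le_sum fun k _ => ?_
  rw [mul_assoc]
  refine mul_le_mul_of_nonneg_left ?_ (abs_nonneg _)
  have h1 : 0 ≤ |(k : ℝ)| := abs_nonneg _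
  have h2 : (0 : ℝ) ≤ t := Nat.cast_nonneg t
  nlinarith

theorem sum_nonneg' (a : ℤ →₀ ℝ) (t : ℕ) :
    0 ≤ (a.sum fun k x => |x| * (|(k : ℝ)| + t)) := Finset.sum_nonneg fun k _ => by positivity

end ModelAux

open ModelAux

theorem model (σ : Measure UnitAddCircle) [IsProbabilityMeasure σ]
    (hsymm : σ.map (fun x => -x) = σ) (hna : ∀ x, σ {x} = 0) (μ : Measure (ℤ → ℝ))
    (hμ : HOST.IsGaussianShift σ μ) {n : ℕ} (a : Fin n → ℤ →₀ ℝ) :
    ∃ K : ℝ, 0 ≤ K ∧ ∀ (L : Measure (Fin n → ℤ → ℝ)), IsProbabilityMeasure L →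
      MeasurePreserving (fun x i => HOST.shift (x i)) L L →
      (∀ i, L.map (fun x => x i) = μ) →
      (∀ i l, i ≠ l → L.map (fun x => (x i, x l)) = μ.prod μ) →
      ∀ Q : ℕ, 0 < Q → Even Q → ∃ (D : ℕ) (c : Fin D → ℕ)
        (P : Measure (Fin n × (Fin D × Bool) → ℝ)), Function.Injective c ∧
        (∀ j, 2 * (c j + 1) ≤ Q) ∧ Adm n P ∧
        |vA σ a Q c Finset.univ - ∑ k, ∫ x, ‖HOST.rtrig (a k) x‖ ^ 2 ∂σ| ≤ K / Q ∧
        ∀ t : ℕ, |(∫ x, Real.exp (∑ k, HOST.lin (a k) (x k)) ∂L) -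
          ∫ x, Real.exp (dot (win σ a Q c (t : ℤ)) x) ∂P| ≤ K * ((t + 1) / Q) := by
  have hμp : IsProbabilityMeasure μ := hμ.1
  set ℓ : ℝ := l1 a with hℓ
  have hℓ0 : 0 ≤ ℓ := Finset.sum_nonneg fun k _ => Finset.sum_nonneg fun _ _ => abs_nonneg _
  set C : ℝ := Real.exp (2 * n ^ 2 * ℓ ^ 2) with hC
  set K1 : ℝ := (n / 2) * ∑ k, (2 * Real.pi * bw (a k)) ^ 2 + (1 / 2) * (4 + 4 * n * C) with hK1
  set K2 : ℝ := ∑ k, ((2 * Real.pi * bw (a k)) ^ 2 / 2 + 2 * ℓ ^ 2) with hK2
  have hK10 : 0 ≤ K1 := by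
    have : 0 < C := Real.exp_pos _
    positivity
  have hK20 : 0 ≤ K2 := Finset.sum_nonneg fun k _ => by positivity
  refine ⟨K1 + K2, by positivity, fun L hLp hL hone hpair Q hQ hev => ?_⟩
  have hQ' : (0 : ℝ) < Q := by exact_mod_cast hQ
  obtain ⟨D, c, hc, half, hpos, hcov⟩ := exists_cells σ Q
  have hnull := cover_null σ hsymm hna Q hQ hev c hcov
  obtain ⟨X, hXm, hXchar, hXapp⟩ := STAR.stage_vars σ hsymm hna μ hμ D Q hQ c hc half
  have hmass : ∀ j, 0 < mass σ Q c j := fun j =>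
    ENNReal.toReal_pos (hpos j) (measure_ne_top _ _)
  -- normalised variables
  let Y : (ℤ → ℝ) → Fin D × Bool → ℝ := fun ω i => X i ω / Real.sqrt (2 * mass σ Q c i.1)
  have hY : Measurable Y := measurable_pi_lambda _ fun i => (hXm i).div_const _
  have hs : ∀ j, 0 < Real.sqrt (2 * mass σ Q c j) := fun j =>
    Real.sqrt_pos.2 (by have := hmass j; linarith)
  have hYchar : ∀ α : Fin D × Bool → ℝ,
      ∫ ω, Complex.exp (Complex.I * ((∑ i, α i * Y ω i : ℝ) : ℂ)) ∂μ =
      Complex.exp (-(1 / 2) * ((∑ i, α i ^ 2 : ℝ) : ℂ)) := by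
    intro α
    have h := hXchar fun i => α i / Real.sqrt (2 * mass σ Q c i.1)
    have e1 : ∀ ω, ∑ i, α i / Real.sqrt (2 * mass σ Q c i.1) * X i ω = ∑ i, α i * Y ω i := by
      intro ω
      refine Finset.sum_congr rfl fun i _ => ?_
      simp only [Y]
      ring
    have e2 : ∑ i : Fin D × Bool, 2 * (σ (STAR.arc Q (c i.1))).toReal *
        (α i / Real.sqrt (2 * mass σ Q c i.1)) ^ 2 = ∑ i, α i ^ 2 := by
      refine Finset.sum_congr rfl fun i _ => ?_
      have h1 := hmass i.1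
      rw [div_pow, Real.sq_sqrt (by linarith)]
      show 2 * mass σ Q c i.1 * (α i ^ 2 / (2 * mass σ Q c i.1)) = α i ^ 2
      field_simp
    simp only [e1, e2] at h
    exact h
  have hlaw : μ.map Y = gam (fun _ => 1) := law_of_charFun μ Y hY hYchar
  -- the windows
  have hunr : ∀ u : Fin n × (Fin D × Bool) → ℝ, restr Finset.univ u = u := by
    intro u
    funext i
    simp [restr]
  have hv1 : vA σ a Q c Finset.univ ≤ ℓ ^ 2 := by
    refine (vA_le σ a Q hQ c Finset.univ).trans ?_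
    have := mass_sum_le σ Q hQ c hc half hsymm hna
    calc l1 a ^ 2 * ∑ j, 2 * mass σ Q c j ≤ l1 a ^ 2 * 1 :=
          mul_le_mul_of_nonneg_left this (sq_nonneg _)
      _ = ℓ ^ 2 := by rw [mul_one]
  have hv2 : ∀ t : ℤ, nsq (win σ a Q c t) = vA σ a Q c Finset.univ := by
    intro t
    have := nsq_restr_win σ a Q hQ c Finset.univ t
    rwa [hunr] at this
  have hv3 : ∀ t : ℤ, nsq (win σ a Q c t) =
      ∑ k, ∑ i : Fin D × Bool, win σ a Q c t (k, i) ^ 2 := by
    intro t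
    unfold nsq
    rw [Fintype.sum_prod_type]
  have hv4 : ∀ (t : ℤ) (k : Fin n), ∑ i : Fin D × Bool, win σ a Q c t (k, i) ^ 2 ≤ ℓ ^ 2 := by
    intro t k
    refine le_trans ?_ hv1
    rw [← hv2 t, hv3 t]
    exact Finset.single_le_sum (f := fun k => ∑ i : Fin D × Bool, win σ a Q c t (k, i) ^ 2)
      (fun k _ => Finset.sum_nonneg fun i _ => sq_nonneg _) (Finset.mem_univ k)
  -- the approximating variables
  let A : ℕ → Fin n → (ℤ → ℝ) → ℝ := fun t k ω =>
    dot (fun i => win σ a Q c (t : ℤ) (k, i)) (Y ω)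
  have hAm : ∀ t k, Measurable (A t k) := by
    intro t k
    exact Finset.measurable_fun_sum _ fun i _ => ((measurable_pi_apply i).comp hY).const_mul _
  let U : ℕ → Fin n → (ℤ → ℝ) → ℝ := fun t k ω => HOST.lin (a k) (HOST.iter HOST.shift (t : ℤ) ω)
  have hUm : ∀ t k, Measurable (U t k) := fun t k =>
    (HOST.measurable_lin (a k)).comp (HOST.measurable_iter HOST.shift (t : ℤ))
  have hA : ∀ t k ω, A t k ω =
      (∑ j, HOST.rtrig (a k) ((((c j : ℝ) / Q : ℝ)) : UnitAddCircle) * STAR.ee Q (c j) (t : ℕ) *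
            ((X (j, false) ω : ℂ) + Complex.I * (X (j, true) ω : ℂ))).re := by
    intro t k ω
    simp only [A, dot]
    rw [Fintype.sum_prod_type, Complex.re_sum]
    refine Finset.sum_congr rfl fun j _ => ?_
    rw [Fintype.sum_bool]
    simp only [win, Y, if_true, if_false, Bool.false_eq_true, samp]
    have h1 := (hs j).ne'
    set z : ℂ := HOST.rtrig (a k) ((((c j : ℝ) / Q : ℝ)) : UnitAddCircle) * STAR.ee Q (c j) (t : ℕ)
    have e : (z * ((X (j, false) ω : ℂ) + Complex.I * (X (j, true) ω : ℂ))).re =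
        -z.im * X (j, true) ω + z.re * X (j, false) ω := by
      simp [Complex.mul_re, Complex.add_re, Complex.add_im]
      ring
    rw [e]
    field_simp
  have hdiff : ∀ t k, MemLp (fun ω => U t k ω - A t k ω) 2 μ ∧
      ∫ ω, (U t k ω - A t k ω) ^ 2 ∂μ ≤ (2 * Real.pi * bw (a k) * ((t + 1) / Q)) ^ 2 := by
    intro t k
    have h := hXapp (a k) t
    simp only [← hA] at h
    refine ⟨h.1, h.2.trans ?_⟩
    rw [hnull]
    simp only [ENNReal.toReal_zero, mul_zero, add_zero]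
    have h1 := sum_le_bw (a k) t
    have h2 := sum_nonneg' (a k) t
    have h3 : 2 * Real.pi / Q * ((a k).sum fun k x => |x| * (|(k : ℝ)| + t)) ≤
        2 * Real.pi * bw (a k) * ((t + 1) / Q) := by
      calc 2 * Real.pi / Q * ((a k).sum fun k x => |x| * (|(k : ℝ)| + t))
          ≤ 2 * Real.pi / Q * (bw (a k) * (t + 1)) := mul_le_mul_of_nonneg_left h1 (by positivity)
        _ = _ := by ring
    exact pow_le_pow_left₀ (by positivity) h3 2
  -- exponential moments
  have hq : ∀ k, ∫ x, ‖HOST.rtrig (a k) x‖ ^ 2 ∂σ ≤ ℓ ^ 2 := by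
    intro k
    have h1 : ∀ x, ‖HOST.rtrig (a k) x‖ ^ 2 ≤ ℓ ^ 2 := by
      intro x
      refine le_trans ?_ (CellAux.norm_sq_le_l1 a (fun _ => x))
      exact Finset.single_le_sum (f := fun k => ‖HOST.rtrig (a k) x‖ ^ 2)
        (fun k _ => sq_nonneg _) (Finset.mem_univ k)
    calc ∫ x, ‖HOST.rtrig (a k) x‖ ^ 2 ∂σ ≤ ∫ _x, ℓ ^ 2 ∂σ :=
          integral_mono_of_nonneg (Eventually.of_forall fun x => sq_nonneg _)
            (integrable_const _) (Eventually.of_forall h1)
      _ = ℓ ^ 2 := by simp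
  have hq0 : ∀ k, 0 ≤ ∫ x, ‖HOST.rtrig (a k) x‖ ^ 2 ∂σ := fun k =>
    integral_nonneg fun x => sq_nonneg _
  have hmpt : ∀ t : ℕ, MeasurePreserving (HOST.iter HOST.shift (t : ℤ)) μ μ := fun t =>
    HOST.measurePreserving_iter (HOST.gauss_shift σ μ hμ) (t : ℤ)
  have hUlaw : ∀ t k, μ.map (U t k) =
      gaussianReal 0 (∫ x, ‖HOST.rtrig (a k) x‖ ^ 2 ∂σ).toNNReal := by
    intro t k
    have h1 : U t k = HOST.lin (a k) ∘ HOST.iter HOST.shift (t : ℤ) := rfl
    rw [h1, ← Measure.map_map (HOST.measurable_lin (a k)) (HOST.measurable_iter HOST.shift (t : ℤ)),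
      (hmpt t).map_eq, HOST.map_lin hμ (a k)]
  have hUexp : ∀ t k, Integrable (fun ω => Real.exp (2 * n * U t k ω)) μ ∧
      ∫ ω, Real.exp (2 * n * U t k ω) ∂μ ≤ C := by
    intro t k
    have h1 : Integrable (fun x : ℝ => Real.exp (2 * n * x)) (μ.map (U t k)) := by
      rw [hUlaw]
      exact integrable_exp_mul_gaussianReal _
    refine ⟨h1.comp_measurable (hUm t k), ?_⟩
    have h2 : ∫ ω, Real.exp (2 * n * U t k ω) ∂μ = ∫ x, Real.exp (2 * n * x) ∂(μ.map (U t k)) := by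
      rw [integral_map (hUm t k).aemeasurable]
      exact (Real.measurable_exp.comp (measurable_id.const_mul _)).aestronglyMeasurable
    have h3 := mgf_gaussianReal (μ := 0) (v := (∫ x, ‖HOST.rtrig (a k) x‖ ^ 2 ∂σ).toNNReal)
      (X := id) (p := gaussianReal 0 (∫ x, ‖HOST.rtrig (a k) x‖ ^ 2 ∂σ).toNNReal)
      (by rw [Measure.map_id]) (2 * n)
    rw [mgf] at h3
    simp only [id] at h3
    rw [h2, hUlaw, h3, hC]
    apply Real.exp_le_exp.2
    rw [Real.coe_toNNReal _ (hq0 k)]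
    have h4 := hq k
    have h5 : 0 ≤ (n : ℝ) ^ 2 := sq_nonneg _
    have h6 := mul_le_mul_of_nonneg_left h4 h5
    nlinarith
  have hAexp : ∀ t k, Integrable (fun ω => Real.exp (2 * n * A t k ω)) μ ∧
      ∫ ω, Real.exp (2 * n * A t k ω) ∂μ ≤ C := by
    intro t k
    let β : Fin D × Bool → ℝ := fun i => 2 * n * win σ a Q c (t : ℤ) (k, i)
    have e : ∀ ω, 2 * n * A t k ω = dot β (Y ω) := by
      intro ω
      simp only [A, β, dot]
      rw [Finset.mul_sum]
      refine Finset.sum_congr rfl fun i _ => by ring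
    simp only [e]
    have h1 : Integrable (fun y => Real.exp (dot β y)) (μ.map Y) := by
      rw [hlaw]
      exact integrable_exp_gam _ _
    refine ⟨h1.comp_measurable hY, ?_⟩
    have hm : Measurable fun y : Fin D × Bool → ℝ => Real.exp (dot β y) :=
      Real.measurable_exp.comp (Finset.measurable_fun_sum _ fun i _ =>
        (measurable_pi_apply i).const_mul _)
    have h2 : ∫ ω, Real.exp (dot β (Y ω)) ∂μ = ∫ y, Real.exp (dot β y) ∂(μ.map Y) := by
      rw [integral_map hY.aemeasurable hm.aestronglyMeasurable]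
    rw [h2, hlaw, integral_exp_gam, hC]
    apply Real.exp_le_exp.2
    have h3 := hv4 (t : ℤ) k
    have h4 : (∑ i, ((1 : NNReal) : ℝ) * β i ^ 2) / 2 =
        2 * n ^ 2 * ∑ i : Fin D × Bool, win σ a Q c (t : ℤ) (k, i) ^ 2 := by
      rw [Finset.sum_div, Finset.mul_sum]
      refine Finset.sum_congr rfl fun i _ => ?_
      simp only [β, NNReal.coe_one]
      ring
    rw [h4]
    exact mul_le_mul_of_nonneg_left h3 (by positivity)
  refine ⟨D, c, L.map (stg Y), hc, half, adm_stg μ L hone hpair Y hY hYchar, ?_, fun t => ?_⟩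
  · -- the norms
    have hA2 : ∀ k, ∫ ω, A 0 k ω ^ 2 ∂μ = ∑ i : Fin D × Bool, win σ a Q c 0 (k, i) ^ 2 := by
      intro k
      have hm : Measurable fun y : Fin D × Bool → ℝ =>
          dot (fun i => win σ a Q c ((0 : ℕ) : ℤ) (k, i)) y ^ 2 :=
        (Finset.measurable_fun_sum _ fun i _ => (measurable_pi_apply i).const_mul _).pow_const 2
      have h2 : ∫ ω, A 0 k ω ^ 2 ∂μ = ∫ y, dot (fun i => win σ a Q c ((0 : ℕ) : ℤ) (k, i)) y ^ 2
          ∂(μ.map Y) := by
        rw [integral_map hY.aemeasurable hm.aestronglyMeasurable]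
      rw [h2, hlaw, integral_gam_sq]
      simp
    have hU2 : ∀ k, ∫ ω, U 0 k ω ^ 2 ∂μ = ∫ x, ‖HOST.rtrig (a k) x‖ ^ 2 ∂σ := by
      intro k
      rw [← HOST.integral_lin_sq hμ (a k)]
      congr 1
    have hUL : ∀ k, MemLp (U 0 k) 2 μ := by
      intro k
      have e : U 0 k = HOST.lin (a k) := by
        funext ω
        simp only [U]
        have := HOST.iter_zero HOST.shift ω
        simp [this]
      rw [e]
      exact HOST.memLp_lin hμ (a k)
    have hAL : ∀ k, MemLp (A 0 k) 2 μ := by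
      intro k
      have h1 := (hUL k).sub (hdiff 0 k).1
      have e : (U 0 k - fun ω => U 0 k ω - A 0 k ω) = A 0 k := by
        funext ω
        simp
      rwa [e] at h1
    have hk : ∀ k, |(∑ i : Fin D × Bool, win σ a Q c 0 (k, i) ^ 2) -
        ∫ x, ‖HOST.rtrig (a k) x‖ ^ 2 ∂σ| ≤
          ((2 * Real.pi * bw (a k)) ^ 2 / 2 + 2 * ℓ ^ 2) / Q := by
      intro k
      have h := sq_close μ (U 0 k) (A 0 k) (hUL k) (hAL k) (1 / Q)
        ((2 * Real.pi * bw (a k) * (((0 : ℕ) + 1) / Q)) ^ 2) (ℓ ^ 2) (by positivity)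
        (hdiff 0 k).2 (by rw [hU2]; exact hq k) (by rw [hA2]; exact hv4 0 k)
      rw [hA2, hU2] at h
      refine h.trans (le_of_eq ?_)
      push_cast
      field_simp
      ring
    rw [← hv2 0, hv3 0, ← Finset.sum_sub_distrib]
    calc |∑ k, ((∑ i : Fin D × Bool, win σ a Q c 0 (k, i) ^ 2) -
          ∫ x, ‖HOST.rtrig (a k) x‖ ^ 2 ∂σ)| ≤ ∑ k, |(∑ i : Fin D × Bool,
            win σ a Q c 0 (k, i) ^ 2) - ∫ x, ‖HOST.rtrig (a k) x‖ ^ 2 ∂σ| :=
          Finset.abs_sum_le_sum_abs _ _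
      _ ≤ ∑ k, ((2 * Real.pi * bw (a k)) ^ 2 / 2 + 2 * ℓ ^ 2) / Q :=
          Finset.sum_le_sum fun k _ => hk k
      _ = K2 / Q := by rw [hK2, Finset.sum_div]
      _ ≤ (K1 + K2) / Q := by gcongr; linarith
  · -- the exponential moments
    have hinv : ∫ x, Real.exp (∑ k, HOST.lin (a k) (x k)) ∂L =
        ∫ x, Real.exp (∑ k, U t k (x k)) ∂L := by
      have h1 := mp_iter L hL t
      have hm : Measurable fun x : Fin n → ℤ → ℝ => Real.exp (∑ k, HOST.lin (a k) (x k)) :=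
        Real.measurable_exp.comp (Finset.measurable_fun_sum _ fun k _ =>
          (HOST.measurable_lin (a k)).comp (measurable_pi_apply k))
      conv_lhs => rw [← h1.map_eq]
      rw [integral_map h1.measurable.aemeasurable hm.aestronglyMeasurable]
    have hP : ∫ x, Real.exp (dot (win σ a Q c (t : ℤ)) x) ∂(L.map (stg Y)) =
        ∫ x, Real.exp (∑ k, A t k (x k)) ∂L := by
      have hm : Measurable fun x : Fin n × (Fin D × Bool) → ℝ =>
          Real.exp (dot (win σ a Q c (t : ℤ)) x) :=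
        Real.measurable_exp.comp (Finset.measurable_fun_sum _ fun i _ =>
          (measurable_pi_apply i).const_mul _)
      rw [integral_map (measurable_stg Y hY).aemeasurable hm.aestronglyMeasurable]
      congr 1
      funext x
      congr 1
      simp only [dot, A, stg]
      rw [Fintype.sum_prod_type]
    rw [hinv, hP]
    have hε : (0 : ℝ) < (t + 1) / Q := by positivity
    have h := exp_close μ L hone (U t) (A t) (hUm t) (hAm t)
      (fun k => 2 * Real.pi * bw (a k) * ((t + 1) / Q)) C ((t + 1) / Q) hε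
      (fun k => (hdiff t k).1) (fun k => (hdiff t k).2) (fun k => (hUexp t k).1)
      (fun k => (hUexp t k).2) (fun k => (hAexp t k).1) (fun k => (hAexp t k).2)
    refine h.trans ?_
    have e1 : (n / (2 * (((t : ℝ) + 1) / Q))) *
        ∑ k, (2 * Real.pi * bw (a k) * (((t : ℝ) + 1) / Q)) ^ 2 =
        ((n / 2) * ∑ k, (2 * Real.pi * bw (a k)) ^ 2) * (((t : ℝ) + 1) / Q) := by
      have e2 : ∀ k, (2 * Real.pi * bw (a k) * (((t : ℝ) + 1) / Q)) ^ 2 =
          (2 * Real.pi * bw (a k)) ^ 2 * (((t : ℝ) + 1) / Q) ^ 2 := fun k => by ring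
      simp only [e2]
      rw [← Finset.sum_mul]
      field_simp
    rw [e1]
    have e3 : ((n / 2) * ∑ k, (2 * Real.pi * bw (a k)) ^ 2) * (((t : ℝ) + 1) / Q) +
        (((t : ℝ) + 1) / Q / 2) * (4 + 4 * n * C) = K1 * (((t : ℝ) + 1) / Q) := by
      rw [hK1]; ring
    rw [e3]
    exact mul_le_mul_of_nonneg_right (by linarith) hε.le

end FULL
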