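import Pool.Agent.Lib.MP_8a5982_an.FULL.Mft
import Pool.Agent.Lib.MP_8a5982_an.FULL.Model
import Pool.Agent.Lib.MP_8a5982_an.FULL.Mgf
import Pool.Agent.Lib.MP_8a5982_an.HOST.SN

/-!
Project FULL: module FINAL (helper44): pairwise independent joinings are products; zero-entropy
Gaussian automorphisms have all the properties `S(m, n)`.
-/

open MeasureTheory ProbabilityTheory Filter Topology

namespace FULL

namespace FinalAux

theorem restr_univ {n D : ℕ} (u : Fin n × (Fin D × Bool) → ℝ) : restr Finset.univ u = u := by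
  funext i
  simp [restr]

/-- the average of terms close to `I` is close to `I` -/
theorem avg_close (W : ℕ) (hW : 0 < W) (Q : ℕ) (hQ : 0 < Q) (K I η : ℝ) (hK : 0 ≤ K)
    (hWQ : (W : ℝ) ≤ η * Q) (F : ℕ → ℝ) (hF : ∀ t, |I - F t| ≤ K * (((t : ℝ) + 1) / Q)) :
    |I - (1 / (W : ℝ)) * ∑ t ∈ Finset.range W, F t| ≤ K * η := by
  have hWr : (0 : ℝ) < W := by exact_mod_cast hW
  have hQr : (0 : ℝ) < Q := by exact_mod_cast hQ
  have h1 : I - (1 / (W : ℝ)) * ∑ t ∈ Finset.range W, F t =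
      (1 / (W : ℝ)) * ∑ t ∈ Finset.range W, (I - F t) := by
    rw [Finset.sum_sub_distrib, Finset.sum_const, Finset.card_range, nsmul_eq_mul]
    field_simp
  have h2 : |∑ t ∈ Finset.range W, (I - F t)| ≤ ∑ t ∈ Finset.range W, K * η := by
    refine (Finset.abs_sum_le_sum_abs _ _).trans (Finset.sum_le_sum fun t ht => ?_)
    refine (hF t).trans (mul_le_mul_of_nonneg_left ?_ hK)
    rw [div_le_iff₀ hQr]
    have h3 : (t : ℝ) + 1 ≤ W := by exact_mod_cast Finset.mem_range.1 ht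
    exact h3.trans hWQ
  rw [h1, abs_mul, abs_of_pos (by positivity : (0 : ℝ) < 1 / (W : ℝ))]
  rw [Finset.sum_const, Finset.card_range, nsmul_eq_mul] at h2
  calc 1 / (W : ℝ) * |∑ t ∈ Finset.range W, (I - F t)|
      ≤ 1 / (W : ℝ) * ((W : ℝ) * (K * η)) := mul_le_mul_of_nonneg_left h2 (by positivity)
    _ = K * η := by field_simp

end FinalAux

theorem full_indep (σ : Measure UnitAddCircle) [IsProbabilityMeasure σ]
    (hsymm : σ.map (fun x => -x) = σ) (hna : ∀ x, σ {x} = 0)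
    (hsing : σ ⟂ₘ (volume : Measure UnitAddCircle)) (μ : Measure (ℤ → ℝ))
    (hμ : HOST.IsGaussianShift σ μ) (n : ℕ)
    (L : Measure (Fin n → ℤ → ℝ)) [IsProbabilityMeasure L]
    (hL : MeasurePreserving (fun x i => HOST.shift (x i)) L L)
    (hone : ∀ i, L.map (fun x => x i) = μ)
    (hpair : ∀ i l, i ≠ l → L.map (fun x => (x i, x l)) = μ.prod μ) :
    L = Measure.pi (fun _ : Fin n => μ) := by
  refine of_mgf μ σ hsymm hμ L hone fun a => ?_
  obtain ⟨K, hK, hmodel⟩ := model σ hsymm hna μ hμ a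
  set I : ℝ := ∫ x, Real.exp (∑ k, HOST.lin (a k) (x k)) ∂L with hI
  set V : ℝ := ∑ k, ∫ x, ‖HOST.rtrig (a k) x‖ ^ 2 ∂σ with hV
  refine eq_of_abs_sub_le_all fun ε hε => ?_
  -- continuity of the exponential
  have hcont : Continuous fun v : ℝ => Real.exp (v / 2) := by fun_prop
  obtain ⟨δ, hδ, hδV⟩ := Metric.continuous_iff.1 hcont V (ε / 3) (by positivity)
  -- the window
  set η : ℝ := min 1 (ε / (3 * (K + 1))) with hη
  have hη0 : 0 < η := lt_min one_pos (by positivity)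
  have hη1 : η ≤ 1 := min_le_left _ _
  have hηK : K * η ≤ ε / 3 := by
    have h1 : η ≤ ε / (3 * (K + 1)) := min_le_right _ _
    have h2 : K * η ≤ (K + 1) * (ε / (3 * (K + 1))) :=
      mul_le_mul (by linarith) h1 hη0.le (by linarith)
    have h3 : (K + 1) * (ε / (3 * (K + 1))) = ε / 3 := by
      have : K + 1 ≠ 0 := by positivity
      field_simp
    linarith
  obtain ⟨Q₀, hQ₀⟩ := mft σ hsymm hna hsing a η hη0 hη1 (ε / 3) (by positivity)
  -- the number of cells
  obtain ⟨N₁, hN₁⟩ := exists_nat_gt (1 / η)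
  obtain ⟨N₂, hN₂⟩ := exists_nat_gt (K / δ)
  set Q : ℕ := 2 * (Q₀ + N₁ + N₂ + 1) with hQdef
  have hQ : 0 < Q := by omega
  have hQr : (0 : ℝ) < Q := by exact_mod_cast hQ
  have hQ1 : (N₁ : ℝ) ≤ Q := by exact_mod_cast (by omega : N₁ ≤ Q)
  have hQ2 : (N₂ : ℝ) ≤ Q := by exact_mod_cast (by omega : N₂ ≤ Q)
  obtain ⟨D, c, P, hc, half, hP, hv, happ⟩ :=
    hmodel L inferInstance hL hone hpair Q hQ ⟨Q₀ + N₁ + N₂ + 1, by omega⟩
  have hηQ : 1 ≤ η * Q := by
    have h1 : 1 / η < Q := lt_of_lt_of_le hN₁ hQ1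
    rw [div_lt_iff₀ hη0] at h1
    linarith
  have hW : 0 < ⌊η * Q⌋₊ := Nat.floor_pos.2 hηQ
  have hWQ : ((⌊η * Q⌋₊ : ℕ) : ℝ) ≤ η * Q := Nat.floor_le (by positivity)
  have h1 : |I - SS σ a Q c P ⌊η * Q⌋₊ Finset.univ| ≤ K * η := by
    have h := FinalAux.avg_close ⌊η * Q⌋₊ hW Q hQ K I η hK hWQ
      (fun t : ℕ => ∫ x, Real.exp (dot (win σ a Q c (t : ℤ)) x) ∂P) (fun t => happ t)
    simpa only [SS, FinalAux.restr_univ] using h
  have h2 : |SS σ a Q c P ⌊η * Q⌋₊ Finset.univ - Real.exp (vA σ a Q c Finset.univ / 2)| ≤ ε / 3 :=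
    hQ₀ Q (by omega) D c hc half P hP
  have h3 : |Real.exp (vA σ a Q c Finset.univ / 2) - Real.exp (V / 2)| ≤ ε / 3 := by
    have h4 : |vA σ a Q c Finset.univ - V| < δ := by
      refine lt_of_le_of_lt hv ?_
      have h5 : K / δ < Q := lt_of_lt_of_le hN₂ hQ2
      rw [div_lt_iff₀ hδ] at h5
      rw [div_lt_iff₀ hQr]
      linarith
    have h6 := hδV (vA σ a Q c Finset.univ) (by rw [Real.dist_eq]; exact h4)
    rw [Real.dist_eq] at h6
    exact h6.le
  calc |I - Real.exp (V / 2)|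
      = |(I - SS σ a Q c P ⌊η * Q⌋₊ Finset.univ) +
          (SS σ a Q c P ⌊η * Q⌋₊ Finset.univ - Real.exp (vA σ a Q c Finset.univ / 2)) +
          (Real.exp (vA σ a Q c Finset.univ / 2) - Real.exp (V / 2))| := by
        congr 1
        ring
    _ ≤ |I - SS σ a Q c P ⌊η * Q⌋₊ Finset.univ| +
          |SS σ a Q c P ⌊η * Q⌋₊ Finset.univ - Real.exp (vA σ a Q c Finset.univ / 2)| +
          |Real.exp (vA σ a Q c Finset.univ / 2) - Real.exp (V / 2)| := abs_add_three _ _ _
    _ ≤ ε := by linarith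

theorem full_hasS (σ : Measure UnitAddCircle) [IsProbabilityMeasure σ]
    (hsymm : σ.map (fun x => -x) = σ) (hna : ∀ x, σ {x} = 0)
    (hsing : σ ⟂ₘ (volume : Measure UnitAddCircle)) (μ : Measure (ℤ → ℝ))
    (hμ : HOST.IsGaussianShift σ μ) (m n : ℕ) (hm : 1 < m) (hmn : m < n) :
    HOST.HasS HOST.shift μ m n := by
  classical
  have hμp : IsProbabilityMeasure μ := hμ.1
  intro L hLp hL hface
  have small : ∀ s : Finset (Fin n), s.card ≤ m → HOST.Box L μ s := by
    intro s hs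
    obtain ⟨t, hst, ht⟩ := Finset.exists_superset_card_eq hs (by simpa using hmn.le)
    exact (HOST.box_of_face (hface t ht)).mono hst
  refine full_indep σ hsymm hna hsing μ hμ n L hL ?_ ?_
  · intro i
    ext A hA
    rw [Measure.map_apply (measurable_pi_apply i) hA]
    have h := small {i} (by simp; omega) (fun _ => A) (fun _ => hA)
    change L {x | x i ∈ A} = μ A
    simpa using h
  · intro i l hil
    symm
    refine Measure.prod_eq fun A B hA hB => ?_
    have hmm : Measurable fun x : Fin n → ℤ → ℝ => (x i, x l) :=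
      (measurable_pi_apply i).prodMk (measurable_pi_apply l)
    rw [Measure.map_apply hmm (hA.prod hB)]
    have h := small {i, l} (by rw [Finset.card_pair hil]; omega)
      (fun k => if k = i then A else B) (fun k => by by_cases hk : k = i <;> simp [hk, hA, hB])
    rw [Finset.prod_pair hil] at h
    simp only [if_true, if_neg hil.symm] at h
    rw [← h]
    congr 1
    ext x
    simp [hil.symm]

end FULL
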