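import Pool.Agent.Lib.MP_8a5982_an.FULL.EntDefs

/-!
Project FULL, phase 2, module NS1: a symmetric band on which the spectral measure has a density.
-/

open MeasureTheory ProbabilityTheory Filter Topology

namespace FULL

namespace Ns1Aux

theorem rnDeriv_neg (σ : Measure UnitAddCircle) [IsFiniteMeasure σ]
    (hsymm : σ.map (fun x => -x) = σ) :
    ∀ᵐ x ∂(volume : Measure UnitAddCircle), σ.rnDeriv volume (-x) = σ.rnDeriv volume x := by
  have hvol : (volume : Measure UnitAddCircle).map (fun x => -x) = volume :=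
    Measure.map_neg_eq_self _
  have h := (MeasurableEquiv.neg UnitAddCircle).measurableEmbedding.rnDeriv_map σ volume
  have e : (⇑(MeasurableEquiv.neg UnitAddCircle)) = fun x => -x := rfl
  rw [e, hsymm, hvol] at h
  exact h

theorem exists_level (σ : Measure UnitAddCircle) [IsFiniteMeasure σ]
    (hns : ¬ σ ⟂ₘ (volume : Measure UnitAddCircle)) :
    ∃ δ : ENNReal, δ ≠ 0 ∧ δ ≠ ⊤ ∧
      (volume : Measure UnitAddCircle) {x | δ ≤ σ.rnDeriv volume x} ≠ 0 := by
  by_contra hcon
  push Not at hcon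
  apply hns
  rw [← Measure.rnDeriv_eq_zero]
  have h1 : ∀ n : ℕ, (volume : Measure UnitAddCircle)
      {x | ((n : ENNReal) + 1)⁻¹ ≤ σ.rnDeriv volume x} = 0 := fun n =>
    hcon _ (ENNReal.inv_ne_zero.2 (by finiteness)) (ENNReal.inv_ne_top.2 (by simp))
  have h2 := measure_iUnion_null h1
  rw [Filter.EventuallyEq, ae_iff]
  refine measure_mono_null (fun x hx => ?_) h2
  rw [Set.mem_iUnion]
  simp only [Pi.zero_apply, Set.mem_ofPred_eq] at hx ⊢
  obtain ⟨n, hn⟩ := ENNReal.exists_inv_nat_lt hx
  refine ⟨n, le_trans ?_ hn.le⟩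
  exact ENNReal.inv_le_inv.2 le_self_add

end Ns1Aux

open Ns1Aux in
theorem exists_band (σ : Measure UnitAddCircle) [IsFiniteMeasure σ]
    (hsymm : σ.map (fun x => -x) = σ) (hns : ¬ σ ⟂ₘ (volume : Measure UnitAddCircle)) :
    ∃ (E : Set UnitAddCircle) (h : UnitAddCircle → ℂ), MeasurableSet E ∧
      (∀ x, x ∈ E ↔ -x ∈ E) ∧ volume E ≠ 0 ∧ Measurable h ∧ MemLp h 2 σ ∧
      (∀ x, h (-x) = (starRingEnd ℂ) (h x)) ∧
      σ.withDensity (fun x => ENNReal.ofReal (‖h x‖ ^ 2)) =
        (volume : Measure UnitAddCircle).restrict E := by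
  classical
  obtain ⟨δ, hδ0, hδt, hδ⟩ := exists_level σ hns
  obtain ⟨S, hS, hS1, hS2⟩ := Measure.mutuallySingular_singularPart σ volume
  have hfs := rnDeriv_neg σ hsymm
  set f : UnitAddCircle → ENNReal := σ.rnDeriv volume with hf
  have hfm : Measurable f := Measure.measurable_rnDeriv _ _
  have hfn : Measurable (fun x => f (-x)) := hfm.comp measurable_neg
  have hftop : ∀ᵐ x ∂(volume : Measure UnitAddCircle), f x < ⊤ := Measure.rnDeriv_lt_top _ _
  have hdec : σ = σ.singularPart volume + (volume : Measure UnitAddCircle).withDensity f :=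
    Measure.haveLebesgueDecomposition_add σ volume
  set E : Set UnitAddCircle := {x | x ∈ S ∧ -x ∈ S ∧ δ ≤ f x ∧ f x ≠ ⊤ ∧ f (-x) = f x} with hE
  have hEm : MeasurableSet E := by
    have h1 : MeasurableSet {x : UnitAddCircle | -x ∈ S} := measurable_neg hS
    have h2 : MeasurableSet {x | δ ≤ f x} := measurableSet_le measurable_const hfm
    have h3 : MeasurableSet {x | f x ≠ ⊤} := (hfm (measurableSet_singleton ⊤)).compl
    have h4 : MeasurableSet {x | f (-x) = f x} := measurableSet_eq_fun hfn hfm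
    exact hS.inter (h1.inter (h2.inter (h3.inter h4)))
  have hEs : ∀ x, x ∈ E → -x ∈ E := by
    rintro x ⟨h1, h2, h3, h4, h5⟩
    refine ⟨h2, by rwa [neg_neg], by rwa [h5], by rwa [h5], ?_⟩
    rw [neg_neg, h5]
  have hES : ∀ x, x ∈ E ↔ -x ∈ E := fun x =>
    ⟨hEs x, fun h => by have := hEs _ h; rwa [neg_neg] at this⟩
  -- positive measure
  have hSae : ∀ᵐ x ∂(volume : Measure UnitAddCircle), x ∈ S := by
    rw [ae_iff]; exact hS2
  have hSn : ∀ᵐ x ∂(volume : Measure UnitAddCircle), -x ∈ S :=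
    (Measure.measurePreserving_neg (volume : Measure UnitAddCircle)).quasiMeasurePreserving.ae hSae
  have hE0 : volume E ≠ 0 := by
    intro h0
    apply hδ
    refine le_antisymm ?_ zero_le
    rw [← h0]
    apply measure_mono_ae
    filter_upwards [hSae, hSn, hftop, hfs] with x h1 h2 h3 h4 h5
    exact ⟨h1, h2, h5, h3.ne, h4⟩
  -- the function
  set h : UnitAddCircle → ℂ := fun x => if x ∈ E then ((Real.sqrt ((f x)⁻¹).toReal : ℝ) : ℂ) else 0
    with hh
  have hhm : Measurable h := by
    refine Measurable.ite hEm ?_ measurable_const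
    exact Complex.measurable_ofReal.comp (hfm.inv.ennreal_toReal.sqrt)
  have hbd : ∀ x ∈ E, (f x)⁻¹ ≤ δ⁻¹ := fun x hx => ENNReal.inv_le_inv.2 hx.2.2.1
  have hδi : δ⁻¹ ≠ ⊤ := ENNReal.inv_ne_top.2 hδ0
  have hnorm : ∀ x, ENNReal.ofReal (‖h x‖ ^ 2) = E.indicator (fun x => (f x)⁻¹) x := by
    intro x
    by_cases hx : x ∈ E
    · rw [Set.indicator_of_mem hx]
      simp only [hh, if_pos hx]
      rw [Complex.norm_real, Real.norm_eq_abs, sq_abs, Real.sq_sqrt ENNReal.toReal_nonneg,
        ENNReal.ofReal_toReal]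
      exact ne_top_of_le_ne_top hδi (hbd x hx)
    · rw [Set.indicator_of_notMem hx]
      simp only [hh, if_neg hx]
      simp
  refine ⟨E, h, hEm, hES, hE0, hhm, ?_, ?_, ?_⟩
  · refine MemLp.of_bound hhm.aestronglyMeasurable (Real.sqrt (δ⁻¹).toReal)
      (ae_of_all _ fun x => ?_)
    by_cases hx : x ∈ E
    · simp only [hh, if_pos hx]
      rw [Complex.norm_real, Real.norm_eq_abs, abs_of_nonneg (Real.sqrt_nonneg _)]
      exact Real.sqrt_le_sqrt (ENNReal.toReal_mono hδi (hbd x hx))
    · simp only [hh, if_neg hx]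
      rw [norm_zero]
      exact Real.sqrt_nonneg _
  · intro x
    by_cases hx : x ∈ E
    · simp only [hh, if_pos hx, if_pos ((hES x).1 hx)]
      rw [hx.2.2.2.2, Complex.conj_ofReal]
    · have hx' : -x ∉ E := fun h' => hx ((hES x).2 h')
      simp only [hh, if_neg hx, if_neg hx', map_zero]
  · simp_rw [hnorm]
    have e1 : σ.withDensity (fun x => E.indicator (fun x => (f x)⁻¹) x) =
        (σ.restrict E).withDensity (fun x => (f x)⁻¹) :=
      withDensity_indicator hEm _
    have e2 : σ.restrict E = ((volume : Measure UnitAddCircle).restrict E).withDensity f := by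
      have e3 : σ.restrict E = (σ.singularPart volume +
          (volume : Measure UnitAddCircle).withDensity f).restrict E :=
        congrArg (fun m => Measure.restrict m E) hdec
      have e4 : (σ.singularPart volume).restrict E = 0 :=
        Measure.restrict_eq_zero.2 (measure_mono_null (fun x hx => hx.1) hS1)
      rw [e3, Measure.restrict_add, e4, zero_add, restrict_withDensity hEm]
    rw [e1, e2]
    refine withDensity_inv_same hfm ?_ ?_
    · refine (ae_restrict_iff' hEm).2 (ae_of_all _ fun x hx => ?_)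
      intro h0
      have := hx.2.2.1
      rw [h0] at this
      exact hδ0 (le_antisymm this zero_le)
    · exact (ae_restrict_iff' hEm).2 (ae_of_all _ fun x hx => hx.2.2.2.1)

end FULL
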