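import Pool.Agent.Lib.MP_8a5982_an.HOST.Defs

/-!
Project FULL, module NS2 (helper74): the sum of independent Gaussian shifts.
-/

open MeasureTheory ProbabilityTheory Filter Topology

namespace FULL

theorem gaussianShift_add (σ₁ σ₂ : Measure UnitAddCircle) [IsFiniteMeasure σ₁]
    [IsFiniteMeasure σ₂] (μ₁ μ₂ : Measure (ℤ → ℝ)) (h₁ : HOST.IsGaussianShift σ₁ μ₁)
    (h₂ : HOST.IsGaussianShift σ₂ μ₂) :
    HOST.IsGaussianShift (σ₁ + σ₂) ((μ₁.prod μ₂).map (fun p k => p.1 k + p.2 k)) := by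
  have hp1 := h₁.1
  have hp2 := h₂.1
  have hm : Measurable (fun (p : (ℤ → ℝ) × (ℤ → ℝ)) (k : ℤ) => p.1 k + p.2 k) := by
    refine measurable_pi_lambda _ fun k => ?_
    exact ((measurable_pi_apply k).comp measurable_fst).add
      ((measurable_pi_apply k).comp measurable_snd)
  refine ⟨Measure.isProbabilityMeasure_map hm.aemeasurable, fun s a => ?_⟩
  have hg : Measurable (fun ω : ℤ → ℝ =>
      Complex.exp (Complex.I * ((∑ k ∈ s, a k * ω k : ℝ) : ℂ))) := by
    refine Complex.measurable_exp.comp (Measurable.const_mul ?_ _)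
    refine Complex.measurable_ofReal.comp ?_
    exact Finset.measurable_fun_sum _ fun k _ => (measurable_pi_apply k).const_mul _
  rw [integral_map hm.aemeasurable hg.aestronglyMeasurable]
  have hsplit : ∀ p : (ℤ → ℝ) × (ℤ → ℝ),
      Complex.exp (Complex.I * ((∑ k ∈ s, a k * (p.1 k + p.2 k) : ℝ) : ℂ)) =
      Complex.exp (Complex.I * ((∑ k ∈ s, a k * p.1 k : ℝ) : ℂ)) *
        Complex.exp (Complex.I * ((∑ k ∈ s, a k * p.2 k : ℝ) : ℂ)) := by
    intro p
    rw [← Complex.exp_add]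
    congr 1
    simp only [mul_add, Finset.sum_add_distrib]
    push_cast
    ring
  simp only [hsplit]
  rw [integral_prod_mul (μ := μ₁) (ν := μ₂)
    (fun ω : ℤ → ℝ => Complex.exp (Complex.I * ((∑ k ∈ s, a k * ω k : ℝ) : ℂ)))
    (fun ω : ℤ → ℝ => Complex.exp (Complex.I * ((∑ k ∈ s, a k * ω k : ℝ) : ℂ))),
    h₁.2 s a, h₂.2 s a, ← Complex.exp_add]
  congr 1
  have hc : ∀ (n : ℤ) (τ : Measure UnitAddCircle) [IsFiniteMeasure τ],
      Integrable (fun x : UnitAddCircle => (fourier n x : ℂ)) τ := fun n τ _ =>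
    ((fourier n : C(UnitAddCircle, ℂ)).continuous).integrable_of_hasCompactSupport
      (HasCompactSupport.of_compactSpace _)
  have hadd : ∀ n : ℤ, ∫ x, (fourier n x : ℂ) ∂(σ₁ + σ₂) =
      ∫ x, (fourier n x : ℂ) ∂σ₁ + ∫ x, (fourier n x : ℂ) ∂σ₂ := fun n =>
    integral_add_measure (hc n σ₁) (hc n σ₂)
  simp only [hadd, mul_add, Finset.sum_add_distrib]

end FULL
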