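import Pool.Agent.Lib.MP_8a5982_an.FULL.EntDefs

/-!
Project FULL, phase 2, module WN2: the entropy of an independent process.
-/

open MeasureTheory ProbabilityTheory Filter Topology

namespace FULL

private theorem negMulLog_prod {ι : Type} [DecidableEq ι] (s : Finset ι) (x : ι → ℝ) :
    Real.negMulLog (∏ j ∈ s, x j) =
      ∑ i ∈ s, ∏ j ∈ s, (if j = i then Real.negMulLog (x j) else x j) := by
  induction s using Finset.induction_on with
  | empty => simp
  | insert k s hk ih =>
    rw [Finset.prod_insert hk, Real.negMulLog_mul, Finset.sum_insert hk, ih]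
    congr 1
    · rw [Finset.prod_insert hk, if_pos rfl, mul_comm]
      congr 1
      refine Finset.prod_congr rfl fun j hj => ?_
      rw [if_neg]
      rintro rfl
      exact hk hj
    · rw [Finset.mul_sum]
      refine Finset.sum_congr rfl fun i hi => ?_
      rw [Finset.prod_insert hk, if_neg]
      rintro rfl
      exact hk hi

private theorem sum_negMulLog_prod {α : Type} [Fintype α] (n : ℕ) (q : α → ℝ)
    (hq : ∑ b, q b = 1) :
    ∑ a : Fin n → α, Real.negMulLog (∏ i, q (a i)) = n * ∑ b, Real.negMulLog (q b) := by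
  classical
  simp_rw [negMulLog_prod]
  rw [Finset.sum_comm]
  have key : ∀ i : Fin n, ∑ a : Fin n → α,
      ∏ j, (if j = i then Real.negMulLog (q (a j)) else q (a j)) =
        ∑ b, Real.negMulLog (q b) := by
    intro i
    have h1 := Finset.prod_univ_sum (fun _ : Fin n => (Finset.univ : Finset α))
      (fun j b => if j = i then Real.negMulLog (q b) else q b)
    rw [Fintype.piFinset_univ] at h1
    rw [← h1]
    have h2 : ∀ j : Fin n, ∑ b, (if j = i then Real.negMulLog (q b) else q b) =
        if j = i then ∑ b, Real.negMulLog (q b) else 1 := by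
      intro j
      by_cases hj : j = i
      · simp [hj]
      · simp [hj, hq]
    rw [Finset.prod_congr rfl fun j _ => h2 j, Finset.prod_ite_eq']
    simp
  rw [Finset.sum_congr rfl fun i _ => key i]
  simp

/-- the entropy of an independent process -/
theorem Hs_iid {Ω : Type} [MeasurableSpace Ω] (P : Measure Ω) [IsProbabilityMeasure P]
    {β : Type} [MeasurableSpace β] {α : Type} [Fintype α] [MeasurableSpace α]
    [MeasurableSingletonClass α] (W : ℕ → Ω → β) (hW : ∀ i, Measurable (W i)) (ρ : Measure β)
    [IsProbabilityMeasure ρ]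
    (hlaw : ∀ n : ℕ, P.map (fun ω (i : Fin n) => W i ω) = Measure.pi fun _ : Fin n => ρ)
    (g : β → α) (hg : Measurable g) (n : ℕ) :
    Hs P (fun ω (i : Fin n) => g (W i ω)) = n * Hs ρ g := by
  classical
  have hms : ∀ b : α, MeasurableSet (g ⁻¹' {b}) := fun b => hg (measurableSet_singleton b)
  have hone : ∑ b, ρ.real (g ⁻¹' {b}) = 1 := by
    have h1 : (Set.univ : Set β) = ⋃ b ∈ (Finset.univ : Finset α), g ⁻¹' {b} := by
      ext x
      simp
    have h2 : ρ.real (⋃ b ∈ (Finset.univ : Finset α), g ⁻¹' {b}) =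
        ∑ b, ρ.real (g ⁻¹' {b}) := by
      refine measureReal_biUnion_finset ?_ fun b _ => hms b
      intro b _ b' _ hbb'
      refine Set.disjoint_left.mpr fun x hx hx' => hbb' ?_
      rw [Set.mem_preimage, Set.mem_singleton_iff] at hx hx'
      rw [← hx, hx']
    rw [← h2, ← h1]
    simp
  have hmeas : Measurable fun ω (i : Fin n) => W i ω := measurable_pi_iff.mpr fun i => hW i
  have hprod : ∀ a : Fin n → α, P.real ((fun ω (i : Fin n) => g (W i ω)) ⁻¹' {a}) =
      ∏ i, ρ.real (g ⁻¹' {a i}) := by
    intro a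
    have h1 : (fun ω (i : Fin n) => g (W i ω)) ⁻¹' {a} =
        (fun ω (i : Fin n) => W i ω) ⁻¹' (Set.pi Set.univ fun i => g ⁻¹' {a i}) := by
      ext ω
      simp [funext_iff]
    have h2 : MeasurableSet (Set.pi Set.univ fun i : Fin n => g ⁻¹' {a i}) :=
      MeasurableSet.univ_pi fun i => hms (a i)
    rw [h1, measureReal_def, ← Measure.map_apply hmeas h2, hlaw n, Measure.pi_pi,
      ENNReal.toReal_prod]
    rfl
  unfold Hs
  rw [Finset.sum_congr rfl fun a _ => by rw [hprod a]]
  exact sum_negMulLog_prod n (fun b => ρ.real (g ⁻¹' {b})) hone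

end FULL
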