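import Pool.Agent.Lib.MP_8a5982_an.FULL.Wn1
import Pool.Agent.Lib.MP_8a5982_an.FULL.Wn2
import Pool.Agent.Lib.MP_8a5982_an.FULL.En4
import Pool.Agent.Lib.MP_8a5982_an.FULL.Ns1
import Pool.Agent.Lib.MP_8a5982_an.FULL.Ns2
import Pool.Agent.Lib.MP_8a5982_an.HOST.Band

/-!
Project FULL, module NS3 (helper12): a Gaussian shift with zero entropy has singular spectral
measure.
-/

open MeasureTheory ProbabilityTheory Filter Topology

namespace FULL

/-- zero entropy passes to equivariant images -/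
theorem zeroEntropy_map {μ : Measure (ℤ → ℝ)} [IsProbabilityMeasure μ]
    (hμs : MeasurePreserving HOST.shift μ μ)
    (hent : ZeroEntropy HOST.shift μ) (ψ : (ℤ → ℝ) → (ℤ → ℝ)) (hψ : Measurable ψ)
    (he : ∀ᵐ ω ∂μ, ψ (HOST.shift ω) = HOST.shift (ψ ω)) :
    ZeroEntropy HOST.shift (μ.map ψ) := by
  intro k f hf
  have h1 : ∀ n : ℕ, ∀ᵐ ω ∂μ, ψ (HOST.iter HOST.shift (n : ℤ) ω) =
      HOST.iter HOST.shift (n : ℤ) (ψ ω) := by
    intro n
    induction n with
    | zero =>
      refine Eventually.of_forall fun ω => ?_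
      rw [Nat.cast_zero, HOST.iter_zero, HOST.iter_zero]
    | succ n ih =>
      have h2 := (HOST.measurePreserving_iter hμs (n : ℤ)).quasiMeasurePreserving.ae he
      filter_upwards [ih, h2] with ω hω1 hω2
      rw [HOST.iter_nat_succ]
      simp only [Function.comp_apply]
      rw [hω2, hω1]
  have h3 : ∀ n : ℕ, Hs (μ.map ψ) (fun x (i : Fin n) => f (HOST.iter HOST.shift (i : ℕ) x)) =
      Hs μ (fun x (i : Fin n) => f (ψ (HOST.iter HOST.shift (i : ℕ) x))) := by
    intro n
    have hmp : MeasurePreserving ψ μ (μ.map ψ) := ⟨hψ, rfl⟩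
    have : IsProbabilityMeasure (μ.map ψ) := Measure.isProbabilityMeasure_map hψ.aemeasurable
    have hm : Measurable (fun (x : ℤ → ℝ) (i : Fin n) =>
        f (HOST.iter HOST.shift (i : ℕ) x)) :=
      measurable_pi_lambda _ fun i => hf.comp (HOST.measurable_iter _ _)
    rw [← Hs_comp (μ.map ψ) μ hmp hm]
    refine Hs_congr μ ?_
    have h4 : ∀ᵐ ω ∂μ, ∀ i : Fin n, ψ (HOST.iter HOST.shift ((i : ℕ) : ℤ) ω) =
      HOST.iter HOST.shift ((i : ℕ) : ℤ) (ψ ω) := by
      rw [ae_all_iff]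
      intro i
      exact h1 i
    filter_upwards [h4] with ω hω
    funext i
    rw [hω i]
  simp only [h3]
  exact hent k (fun ω => f (ψ ω)) (hf.comp hψ)

theorem restrict_symm {E : Set UnitAddCircle} (hE : MeasurableSet E) (hs : ∀ x, x ∈ E ↔ -x ∈ E) :
    ((volume : Measure UnitAddCircle).restrict E).map (fun x => -x) =
      (volume : Measure UnitAddCircle).restrict E := by
  have h1 : MeasurePreserving (fun x : UnitAddCircle => -x) volume volume :=
    Measure.measurePreserving_neg _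
  have h2 := h1.restrict_preimage hE
  have h3 : (fun x : UnitAddCircle => -x) ⁻¹' E = E := by
    ext x; exact (hs x).symm
  rw [h3] at h2
  exact h2.map_eq

theorem integral_coord {τ : Measure UnitAddCircle} [IsFiniteMeasure τ] {μ : Measure (ℤ → ℝ)}
    (hμ : HOST.IsGaussianShift τ μ) : MemLp (fun ω : ℤ → ℝ => ω 0) 2 μ ∧
      ∫ ω, ω 0 ∂μ = 0 ∧ ∫ ω, ω 0 ^ 2 ∂μ = τ.real Set.univ := by
  have e : HOST.lin (Finsupp.single 0 1) = fun ω : ℤ → ℝ => ω 0 := by
    funext ω; rw [HOST.lin_single, one_mul]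
  have h1 := HOST.memLp_lin hμ (Finsupp.single 0 1)
  have h2 := HOST.integral_lin_sq hμ (Finsupp.single 0 1)
  have h3 := HOST.map_lin hμ (Finsupp.single 0 1)
  rw [e] at h1 h2 h3
  refine ⟨h1, ?_, ?_⟩
  · have h4 : ∫ ω, ω 0 ∂μ = ∫ x, x ∂(μ.map (fun ω : ℤ → ℝ => ω 0)) := by
      rw [integral_map (measurable_pi_apply _).aemeasurable (by fun_prop)]
    rw [h4, h3]
    exact integral_id_gaussianReal
  · rw [h2]
    simp only [HOST.rtrig_single, Complex.ofReal_one, one_mul, HOST.norm_fourier_one]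
    simp

/-- the main step, for an independent decomposition of white noise -/
theorem no_band (E : Set UnitAddCircle) (hE : MeasurableSet E) (hEs : ∀ x, x ∈ E ↔ -x ∈ E)
    (μ : Measure (ℤ → ℝ)) (hμ : HOST.IsGaussianShift ((volume : Measure UnitAddCircle).restrict E) μ)
    (hent : ZeroEntropy HOST.shift μ) : volume E = 0 := by
  have hEc : ∀ x, x ∈ Eᶜ ↔ -x ∈ Eᶜ := fun x => by
    simp only [Set.mem_compl_iff, hEs x]
  obtain ⟨μ', hμ'⟩ := HOST.exists_gaussianShift ((volume : Measure UnitAddCircle).restrict Eᶜ)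
    (restrict_symm hE.compl hEc)
  have hp := hμ.1
  have hp' := hμ'.1
  have hadd := gaussianShift_add _ _ μ μ' hμ hμ'
  rw [Measure.restrict_add_restrict_compl hE] at hadd
  set P : Measure ((ℤ → ℝ) × (ℤ → ℝ)) := μ.prod μ' with hP
  set W : (ℤ → ℝ) × (ℤ → ℝ) → (ℤ → ℝ) := fun p k => p.1 k + p.2 k with hW
  have hWm : Measurable W := measurable_pi_lambda _ fun k =>
    ((measurable_pi_apply k).comp measurable_fst).add ((measurable_pi_apply k).comp measurable_snd)
  set R : ((ℤ → ℝ) × (ℤ → ℝ)) ≃ᵐ ((ℤ → ℝ) × (ℤ → ℝ)) :=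
    MeasurableEquiv.prodCongr HOST.shift HOST.shift with hR
  have hRP : MeasurePreserving R P P :=
    (HOST.gauss_shift _ μ hμ).prod (HOST.gauss_shift _ μ' hμ')
  have hiterW : ∀ (i : ℕ) (p : (ℤ → ℝ) × (ℤ → ℝ)), W (HOST.iter R (i : ℤ) p) 0 = W p i := by
    intro i p
    rw [hR, HOST.iter_prodMap]
    simp only [hW, HOST.iter_shift, zero_add]
  -- the coordinates of `W` at time zero and of `p.1` at time zero are independent
  have hind : ∀ A B : Set ℝ, MeasurableSet A → MeasurableSet B →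
      P.real ((fun p => W p 0) ⁻¹' A ∩ (fun p => p.1 0) ⁻¹' B) =
        P.real ((fun p => W p 0) ⁻¹' A) * P.real ((fun p => p.1 0) ⁻¹' B) := by
    intro A B hA hB
    classical
    let gA : ℝ → Fin 2 := fun x => if x ∈ A then 1 else 0
    let gB : ℝ → Fin 2 := fun x => if x ∈ B then 1 else 0
    have hgA : Measurable gA := Measurable.ite hA measurable_const measurable_const
    have hgB : Measurable gB := Measurable.ite hB measurable_const measurable_const
    have hW0 : Measurable (fun p : (ℤ → ℝ) × (ℤ → ℝ) => W p 0) := (measurable_pi_apply 0).comp hWm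
    have hY0 : Measurable (fun p : (ℤ → ℝ) × (ℤ → ℝ) => p.1 0) :=
      (measurable_pi_apply 0).comp measurable_fst
    have hlaw : ∀ n : ℕ, P.map (fun p (i : Fin n) => W p ((i : ℕ) : ℤ)) =
        Measure.pi fun _ : Fin n => gaussianReal 0 1 := by
      intro n
      rw [← white_noise_iid _ hadd n, Measure.map_map _ hWm]
      · rfl
      · exact measurable_pi_lambda _ fun i => measurable_pi_apply _
    have hWi : ∀ i : ℕ, Measurable (fun p : (ℤ → ℝ) × (ℤ → ℝ) => W p (i : ℤ)) :=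
      fun i => (measurable_pi_apply (i : ℤ)).comp hWm
    have hiid0 := Hs_iid P (fun i p => W p (i : ℤ)) hWi (gaussianReal 0 1) hlaw gA hgA
    have h1 : Hs P (fun p => gA (W p 0)) = Hs (gaussianReal 0 1) gA := by
      have hl1 : P.map (fun p => W p 0) = gaussianReal 0 1 := by
        have h2 := hlaw 1
        have h3 := congrArg (fun m => Measure.map (fun x : Fin 1 → ℝ => x 0) m) h2
        rw [Measure.map_map (measurable_pi_apply _) (measurable_pi_lambda _ fun i => hWi _)] at h3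
        rw [(measurePreserving_eval (fun _ : Fin 1 => gaussianReal 0 1) 0).map_eq] at h3
        exact h3
      have hmp : MeasurePreserving (fun p : (ℤ → ℝ) × (ℤ → ℝ) => W p 0) P (gaussianReal 0 1) :=
        ⟨hW0, hl1⟩
      exact Hs_comp (gaussianReal 0 1) P hmp hgA
    have hiid : ∀ n : ℕ, Hs P (fun p (i : Fin n) => gA (W (HOST.iter R (i : ℕ) p) 0)) =
        n * Hs P (fun p => gA (W p 0)) := by
      intro n
      simp only [hiterW]
      rw [hiid0 n, h1]
    have hzero : Tendsto (fun n : ℕ => Hs P (fun p (i : Fin n) =>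
        gB ((HOST.iter R (i : ℕ) p).1 0)) / n) atTop (𝓝 0) := by
      have h2 := hent 2 (fun ω => gB (ω 0)) (hgB.comp (measurable_pi_apply 0))
      refine h2.congr fun n => ?_
      congr 1
      have hmp : MeasurePreserving (Prod.fst : (ℤ → ℝ) × (ℤ → ℝ) → (ℤ → ℝ)) P μ :=
        measurePreserving_fst
      have hm : Measurable (fun (x : ℤ → ℝ) (i : Fin n) =>
          gB ((HOST.iter HOST.shift (i : ℕ) x) 0)) :=
        measurable_pi_lambda _ fun i => hgB.comp
          ((measurable_pi_apply (0 : ℤ)).comp (HOST.measurable_iter HOST.shift ((i : ℕ) : ℤ)))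
      rw [← Hs_comp μ P hmp hm]
      congr 1
      funext p i
      rw [hR, HOST.iter_prodMap]
    have key := zero_entropy_indep R P hRP (fun p => gA (W p 0)) (fun p => gB (p.1 0))
      (hgA.comp hW0) (hgB.comp hY0) hiid hzero 1 1
    have eA : (fun p : (ℤ → ℝ) × (ℤ → ℝ) => gA (W p 0)) ⁻¹' {1} = (fun p => W p 0) ⁻¹' A := by
      ext p
      simp only [Set.mem_preimage, Set.mem_singleton_iff, gA]
      split_ifs with h <;> simp [h]
    have eB : (fun p : (ℤ → ℝ) × (ℤ → ℝ) => gB (p.1 0)) ⁻¹' {1} = (fun p => p.1 0) ⁻¹' B := by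
      ext p
      simp only [Set.mem_preimage, Set.mem_singleton_iff, gB]
      split_ifs with h <;> simp [h]
    rw [eA, eB] at key
    exact key
  have hW0 : Measurable (fun p : (ℤ → ℝ) × (ℤ → ℝ) => W p 0) := (measurable_pi_apply 0).comp hWm
  have hY0 : Measurable (fun p : (ℤ → ℝ) × (ℤ → ℝ) => p.1 0) :=
    (measurable_pi_apply 0).comp measurable_fst
  have hIF : IndepFun (fun p : (ℤ → ℝ) × (ℤ → ℝ) => W p 0) (fun p => p.1 0) P := by
    rw [indepFun_iff_measure_inter_preimage_eq_mul]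
    intro A B hA hB
    have h1 := hind A B hA hB
    simp only [Measure.real] at h1
    rw [← ENNReal.toReal_mul] at h1
    exact (ENNReal.toReal_eq_toReal_iff' (measure_ne_top _ _)
      (ENNReal.mul_ne_top (measure_ne_top _ _) (measure_ne_top _ _))).1 h1
  obtain ⟨hm1, hi1, hs1⟩ := integral_coord hμ
  obtain ⟨hm2, hi2, hs2⟩ := integral_coord hμ'
  have hIY : Integrable (fun ω : ℤ → ℝ => ω 0) μ := hm1.integrable (by norm_num)
  have hIY' : Integrable (fun ω : ℤ → ℝ => ω 0) μ' := hm2.integrable (by norm_num)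
  have hA1 : Integrable (fun p : (ℤ → ℝ) × (ℤ → ℝ) => p.1 0) P := hIY.comp_fst μ'
  have hA2 : Integrable (fun p : (ℤ → ℝ) × (ℤ → ℝ) => p.2 0) P := hIY'.comp_snd μ
  have hYint : ∫ p, p.1 0 ∂P = 0 := by
    rw [hP, integral_fun_fst (f := fun ω : ℤ → ℝ => ω 0)]
    simp [hi1]
  have hprod : ∫ p, W p 0 * p.1 0 ∂P = 0 := by
    have h1 := hIF.integral_mul_eq_mul_integral hW0.aestronglyMeasurable hY0.aestronglyMeasurable
    simp only [Pi.mul_apply] at h1
    rw [h1, hYint, mul_zero]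
  have hsq : Integrable (fun p : (ℤ → ℝ) × (ℤ → ℝ) => p.1 0 ^ 2) P :=
    (hm1.integrable_sq).comp_fst μ'
  have hcross : Integrable (fun p : (ℤ → ℝ) × (ℤ → ℝ) => p.1 0 * p.2 0) P :=
    hIY.mul_prod hIY'
  have hcr : ∫ p, p.1 0 * p.2 0 ∂P = 0 := by
    rw [hP, integral_prod_mul (fun ω : ℤ → ℝ => ω 0) (fun ω : ℤ → ℝ => ω 0), hi1, zero_mul]
  have hexp : ∫ p, W p 0 * p.1 0 ∂P = ∫ p, p.1 0 ^ 2 ∂P + ∫ p, p.1 0 * p.2 0 ∂P := by
    rw [← integral_add hsq hcross]
    refine integral_congr_ae (Eventually.of_forall fun p => ?_)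
    simp only [hW]
    ring
  have hsqv : ∫ p, p.1 0 ^ 2 ∂P = volume.real E := by
    rw [hP, integral_fun_fst (f := fun ω : ℤ → ℝ => ω 0 ^ 2), hs1]
    simp [Measure.real]
  rw [hprod, hcr, hsqv, add_zero] at hexp
  have hne : volume E ≠ ⊤ := measure_ne_top _ _
  simpa [Measure.real, ENNReal.toReal_eq_zero_iff, hne] using hexp.symm

theorem singular_of_zeroEntropy (σ : Measure UnitAddCircle) [IsFiniteMeasure σ]
    (hsymm : σ.map (fun x => -x) = σ) (μ : Measure (ℤ → ℝ)) (hμ : HOST.IsGaussianShift σ μ)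
    (hent : ZeroEntropy HOST.shift μ) : σ ⟂ₘ (volume : Measure UnitAddCircle) := by
  by_contra hns
  obtain ⟨E, h, hE, hEs, hE0, hhm, hh2, hhr, hhd⟩ := exists_band σ hsymm hns
  have hμp := hμ.1
  let G : ℕ → UnitAddCircle → ℂ := fun j => if j = 0 then h else 0
  have hG0 : G 0 = h := by simp [G]
  have hGj : ∀ j, j ≠ 0 → G j = 0 := fun j hj => by simp [G, hj]
  obtain ⟨Ψ, hΨm, hΨe, hΨG, -, -⟩ := HOST.gaussian_pieces σ hsymm μ hμ G
    (fun j => by
      by_cases hj : j = 0
      · subst hj; rw [hG0]; exact hhm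
      · rw [hGj j hj]; exact measurable_zero)
    (fun j => by
      by_cases hj : j = 0
      · subst hj; rw [hG0]; exact hh2
      · rw [hGj j hj]; exact MemLp.zero)
    (fun j x => by
      by_cases hj : j = 0
      · subst hj; rw [hG0]; exact hhr x
      · rw [hGj j hj]; simp)
    (fun i j hij x => by
      by_cases hj : j = 0
      · left; rw [hGj i (fun hi => hij (by rw [hi, hj]))]; rfl
      · right; rw [hGj j hj]; rfl)
  have h1 := hΨG 0
  rw [hG0, hhd] at h1
  exact hE0 (no_band E hE hEs _ h1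
    (zeroEntropy_map (HOST.gauss_shift σ μ hμ) hent (Ψ 0) (hΨm 0) (hΨe 0)))

end FULL
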