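import Pool.Agent.Lib.MP_8a5982_an.FULL.Scale
import Pool.Agent.Lib.MP_8a5982_an.FULL.Ns3
import Pool.Agent.Lib.MP_8a5982_an.FULL.Erg

/-!
Project FULL: module FINAL2 (helper24): the literal statement of Q1.
-/

open MeasureTheory ProbabilityTheory Filter Topology

namespace FULL

theorem q1_literal (σ : Measure UnitAddCircle) [IsFiniteMeasure σ]
    (hsymm : σ.map (fun x => -x) = σ) (μ : Measure (ℤ → ℝ)) (hμ : HOST.IsGaussianShift σ μ)
    (herg : Ergodic HOST.shift μ) (hent : ZeroEntropy HOST.shift μ) (m n : ℕ) (hm : 1 < m)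
    (hmn : m < n) : HOST.HasS HOST.shift μ m n :=
  full_final σ hsymm (noAtoms_of_ergodic σ hsymm μ hμ herg)
    (singular_of_zeroEntropy σ hsymm μ hμ hent) μ hμ m n hm hmn

end FULL
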