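import Pool.Agent.Lib.MP_8a5982_an.FULL.Chan3
import Pool.Agent.Lib.MP_8a5982_an.FULL.Chan2
import Pool.Agent.Lib.MP_8a5982_an.FULL.Hb
import Pool.Agent.Lib.MP_8a5982_an.FULL.Gauss
import Pool.Agent.Lib.MP_8a5982_an.FULL.Mom

/-!
Module SEC of the project FULL: the second moment computation.
-/

open MeasureTheory ProbabilityTheory Filter Topology

namespace FULL

namespace SecAux

theorem wt_le {ι : Type} [DecidableEq ι] (A G : Finset ι) (s s₀ : NNReal) (hs : s ≤ 2 * s₀)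
    (i : ι) : ((wt A G s i : NNReal) : ℝ) ≤ 2 * s₀ + 1 := by
  have h2 : ((s : NNReal) : ℝ) ≤ 2 * s₀ := by exact_mod_cast hs
  have h0 : (0 : ℝ) ≤ (s₀ : ℝ) := s₀.2
  unfold wt onG
  split_ifs with h1
  · linarith
  · show ((if i ∈ A then (1 : NNReal) else 0 : NNReal) : ℝ) ≤ 2 * s₀ + 1
    split_ifs
    · rw [NNReal.coe_one]; linarith
    · rw [NNReal.coe_zero]; linarith

end SecAux

open SecAux

theorem second_moment (C₀ : ℝ) (s₀ : NNReal) (hs₀ : 0 < s₀) : ∃ K : ℝ, ∀ (ι : Type) [Fintype ι]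
    [DecidableEq ι] (P : Measure (ι → ℝ)), ExpM P C₀ → ∀ (A G : Finset ι) (s : NNReal)
    (c θ : ℝ) (a l u : ι → ℝ), Disjoint A G → (∀ i, i ∉ A → a i = 0) →
    (∀ i, i ∉ G → l i = 0) → (∀ i, i ∉ G → u i = 0) → nsq a ≤ C₀ → nsq l ≤ C₀ →
    0 ≤ θ → θ ≤ c → c ≤ 1 → s₀ ≤ s → s ≤ 2 * s₀ →
    ∫ p, (hfac a l c p * efac (wt A G s) s l θ p * (dot u (noise (wt A G s) p) - θ * dot u l)) ^ 2
      ∂(nu P (wt A G s)) ≤ K * nsq u := by
  obtain ⟨K1, hK1⟩ := hfac_moment C₀
  obtain ⟨K2, hK2⟩ := efac_moment C₀ s₀ hs₀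
  set C4 : ℝ := 8 * (2 * (Nat.factorial (2 * 2)) * Real.exp ((2 * s₀ + 1 : ℝ) / 2)) + 8 * C₀ ^ 2
    with hC4
  refine ⟨(1 + K1) * Real.sqrt ((1 + K2) * C4), ?_⟩
  intro ι _ _ P hP A G s c θ a l u hAG ha hl hu ha2 hl2 hθ hθc hc hs hs2
  have hC0 : 0 ≤ C₀ := hP.nonneg
  have : IsProbabilityMeasure P := hP.prob
  set w := wt A G s with hw
  have : IsProbabilityMeasure (nu P w) := isProbability_nu w
  have : IsProbabilityMeasure (gam w) := isProbability_gam w
  obtain ⟨hG1, hM1⟩ := hK1 ι P hP A G s a l c hAG ha hl ha2 hl2 (hθ.trans hθc) hc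
  obtain ⟨hG2, hM2⟩ := hK2 ι P hP A G s l θ hl hl2 hθ (hθc.trans hc) hs hs2
  rw [← hw] at hG1 hM1 hG2 hM2
  have hgamE : ExpM (gam w) ((2 * s₀ + 1 : ℝ) / 2) :=
    expM_gam w _ (by positivity) (wt_le A G s s₀ hs2)
  have hGdot : Gd (gam w) (fun B => dot u B - θ * dot u l) :=
    (hgamE.gd_dot u).sub (Gd.const _)
  have hG3 : Gd (nu P w) (fun p => dot u (noise w p) - θ * dot u l) :=
    Gd.nu_noise w (f := fun B => dot u B - θ * dot u l) hGdot
  -- the second factor
  have hG4 : Gd (nu P w) (fun p => (efac w s l θ p * (dot u (noise w p) - θ * dot u l)) ^ 2) :=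
    (hG2.mul hG3).pow 2
  have hsplit := integral_split w G (fun p => hfac a l c p ^ 2)
    (fun p => (efac w s l θ p * (dot u (noise w p) - θ * dot u l)) ^ 2) (hG1.pow 2) hG4
    (by
      intro x y y' hyy
      have : dot a y = dot a y' := by
        unfold dot
        refine Finset.sum_congr rfl fun i _ => ?_
        by_cases hi : i ∈ G
        · rw [ha i (fun h => Finset.disjoint_left.mp hAG h hi)]; simp
        · rw [hyy i hi]
      simp only [hfac, this])
    (by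
      intro x y x' y' hyy
      have h1 : ∀ v : ι → ℝ, (∀ i, i ∉ G → v i = 0) →
          dot v (noise w (x, y)) = dot v (noise w (x', y')) := by
        intro v hv
        unfold dot
        refine Finset.sum_congr rfl fun i _ => ?_
        by_cases hi : i ∈ G
        · rw [hyy i hi]
        · rw [hv i hi]; simp
      simp only [efac, h1 l hl, h1 u hu])
  have e1 : ∫ p, (hfac a l c p * efac w s l θ p * (dot u (noise w p) - θ * dot u l)) ^ 2
      ∂(nu P w) = ∫ p, hfac a l c p ^ 2 *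
        (efac w s l θ p * (dot u (noise w p) - θ * dot u l)) ^ 2 ∂(nu P w) := by
    refine integral_congr_ae (Eventually.of_forall fun p => ?_)
    show _ = _
    ring
  rw [e1, hsplit]
  -- first factor
  have hF1 : ∫ p, hfac a l c p ^ 2 ∂(nu P w) ≤ 1 + K1 := by
    calc ∫ p, hfac a l c p ^ 2 ∂(nu P w) ≤ ∫ p, (1 + hfac a l c p ^ 4) ∂(nu P w) := by
          refine integral_mono (hG1.pow 2).integrable
            (((Gd.const 1).add (hG1.pow 4)).integrable) fun p => ?_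
          show hfac a l c p ^ 2 ≤ 1 + hfac a l c p ^ 4
          nlinarith [sq_nonneg (hfac a l c p ^ 2 - 1), sq_nonneg (hfac a l c p ^ 2)]
      _ = 1 + ∫ p, hfac a l c p ^ 4 ∂(nu P w) := by
          rw [integral_add (Gd.const 1 : Gd (nu P w) _).integrable (hG1.pow 4).integrable]
          simp
      _ ≤ 1 + K1 := by linarith
  have hF2 : ∫ p, efac w s l θ p ^ 4 ∂(nu P w) ≤ 1 + K2 := by
    calc ∫ p, efac w s l θ p ^ 4 ∂(nu P w) ≤ ∫ p, (1 + efac w s l θ p ^ 8) ∂(nu P w) := by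
          refine integral_mono (hG2.pow 4).integrable
            (((Gd.const 1).add (hG2.pow 8)).integrable) fun p => ?_
          show efac w s l θ p ^ 4 ≤ 1 + efac w s l θ p ^ 8
          nlinarith [sq_nonneg (efac w s l θ p ^ 4 - 1), sq_nonneg (efac w s l θ p ^ 4)]
      _ = 1 + ∫ p, efac w s l θ p ^ 8 ∂(nu P w) := by
          rw [integral_add (Gd.const 1 : Gd (nu P w) _).integrable (hG2.pow 8).integrable]
          simp
      _ ≤ 1 + K2 := by linarith
  have hnu : 0 ≤ nsq u := nsq_nonneg u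
  have hnoise : ∫ p, (dot u (noise w p)) ^ 4 ∂(nu P w) = ∫ B, dot u B ^ 4 ∂(gam w) := by
    rw [integral_nu_direct w (fun p => (dot u (noise w p)) ^ 4)
      ((Gd.nu_noise w (hgamE.gd_dot u) : Gd (nu P w) _).pow 4).meas]
    simp only [noise_obs]
    rw [integral_fun_snd (f := fun B => dot u B ^ 4)]
    simp
  have hF3 : ∫ p, (dot u (noise w p) - θ * dot u l) ^ 4 ∂(nu P w) ≤ C4 * nsq u ^ 2 := by
    have hm := hgamE.moment u 2
    have hGn : Gd (nu P w) (fun p => dot u (noise w p)) :=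
      Gd.nu_noise w (hgamE.gd_dot u)
    have hc1 : (θ * dot u l) ^ 4 ≤ C₀ ^ 2 * nsq u ^ 2 := by
      have h1 : (dot u l) ^ 2 ≤ nsq u * C₀ :=
        (dot_cs u l).trans (mul_le_mul_of_nonneg_left hl2 hnu)
      have h2 : (θ * dot u l) ^ 2 ≤ nsq u * C₀ := by
        rw [mul_pow]
        have : θ ^ 2 ≤ 1 := by
          have := hθc.trans hc
          nlinarith
        calc θ ^ 2 * dot u l ^ 2 ≤ 1 * dot u l ^ 2 :=
              mul_le_mul_of_nonneg_right this (sq_nonneg _)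
          _ = dot u l ^ 2 := one_mul _
          _ ≤ _ := h1
      have h3 : ((θ * dot u l) ^ 2) ^ 2 ≤ (nsq u * C₀) ^ 2 :=
        pow_le_pow_left₀ (sq_nonneg _) h2 2
      calc (θ * dot u l) ^ 4 = ((θ * dot u l) ^ 2) ^ 2 := by ring
        _ ≤ (nsq u * C₀) ^ 2 := h3
        _ = C₀ ^ 2 * nsq u ^ 2 := by ring
    calc ∫ p, (dot u (noise w p) - θ * dot u l) ^ 4 ∂(nu P w)
        ≤ ∫ p, (8 * dot u (noise w p) ^ 4 + 8 * (C₀ ^ 2 * nsq u ^ 2)) ∂(nu P w) := by
          refine integral_mono (hG3.pow 4).integrable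
            ((((hGn.pow 4).const_mul 8).add (Gd.const _)).integrable) fun p => ?_
          show (dot u (noise w p) - θ * dot u l) ^ 4 ≤
            8 * dot u (noise w p) ^ 4 + 8 * (C₀ ^ 2 * nsq u ^ 2)
          have : (dot u (noise w p) - θ * dot u l) ^ 4 ≤
              8 * dot u (noise w p) ^ 4 + 8 * (θ * dot u l) ^ 4 := by
            set x := dot u (noise w p)
            set y := θ * dot u l
            have h1 : (x - y) ^ 2 ≤ 2 * x ^ 2 + 2 * y ^ 2 := by nlinarith [sq_nonneg (x + y)]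
            have h2 : ((x - y) ^ 2) ^ 2 ≤ (2 * x ^ 2 + 2 * y ^ 2) ^ 2 :=
              pow_le_pow_left₀ (sq_nonneg _) h1 2
            nlinarith [sq_nonneg (x ^ 2 - y ^ 2)]
          linarith
      _ = 8 * (∫ p, dot u (noise w p) ^ 4 ∂(nu P w)) + 8 * (C₀ ^ 2 * nsq u ^ 2) := by
          rw [integral_add ((hGn.pow 4).const_mul 8).integrable
            (Gd.const _ : Gd (nu P w) _).integrable, integral_const_mul]
          simp
      _ ≤ C4 * nsq u ^ 2 := by
          rw [hnoise]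
          have h4 : ∫ B, dot u B ^ 4 ∂(gam w) ≤
            2 * (Nat.factorial (2 * 2)) * Real.exp ((2 * s₀ + 1 : ℝ) / 2) * nsq u ^ 2 := hm
          rw [hC4]
          nlinarith
  -- Cauchy-Schwarz
  have hcs : (∫ p, (efac w s l θ p * (dot u (noise w p) - θ * dot u l)) ^ 2 ∂(nu P w)) ^ 2 ≤
      (1 + K2) * C4 * nsq u ^ 2 := by
    have h := Gd.cs (hG2.pow 2) (hG3.pow 2)
    have e2 : ∫ p, (efac w s l θ p * (dot u (noise w p) - θ * dot u l)) ^ 2 ∂(nu P w) =
        ∫ p, efac w s l θ p ^ 2 * (dot u (noise w p) - θ * dot u l) ^ 2 ∂(nu P w) := by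
      refine integral_congr_ae (Eventually.of_forall fun p => ?_)
      show _ = _
      ring
    rw [e2]
    have e3 : ∫ p, (efac w s l θ p ^ 2) ^ 2 ∂(nu P w) = ∫ p, efac w s l θ p ^ 4 ∂(nu P w) := by
      refine integral_congr_ae (Eventually.of_forall fun p => ?_)
      show _ = _
      ring
    have e4 : ∫ p, ((dot u (noise w p) - θ * dot u l) ^ 2) ^ 2 ∂(nu P w) =
        ∫ p, (dot u (noise w p) - θ * dot u l) ^ 4 ∂(nu P w) := by
      refine integral_congr_ae (Eventually.of_forall fun p => ?_)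
      show _ = _
      ring
    rw [e3, e4] at h
    refine h.trans ?_
    have p1 : 0 ≤ ∫ p, (dot u (noise w p) - θ * dot u l) ^ 4 ∂(nu P w) :=
      integral_nonneg fun p => by positivity
    have p2 : 0 ≤ ∫ p, efac w s l θ p ^ 4 ∂(nu P w) :=
      integral_nonneg fun p => by positivity
    calc _ ≤ (1 + K2) * (C4 * nsq u ^ 2) := mul_le_mul hF2 hF3 p1 (p2.trans hF2)
      _ = _ := by ring
  have hC4' : 0 ≤ C4 := by positivity
  have hK2' : 0 ≤ 1 + K2 :=
    (integral_nonneg fun p => by positivity : (0 : ℝ) ≤ ∫ p, efac w s l θ p ^ 4 ∂(nu P w)).trans hF2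
  have hE : ∫ p, (efac w s l θ p * (dot u (noise w p) - θ * dot u l)) ^ 2 ∂(nu P w) ≤
      Real.sqrt ((1 + K2) * C4) * nsq u := by
    have h1 : (Real.sqrt ((1 + K2) * C4) * nsq u) ^ 2 = (1 + K2) * C4 * nsq u ^ 2 := by
      rw [mul_pow, Real.sq_sqrt (mul_nonneg hK2' hC4')]
    rw [← h1] at hcs
    exact (le_abs_self _).trans
      (abs_le_of_sq_le_sq hcs (mul_nonneg (Real.sqrt_nonneg _) hnu))
  have p3 : 0 ≤ ∫ p, (efac w s l θ p * (dot u (noise w p) - θ * dot u l)) ^ 2 ∂(nu P w) :=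
    integral_nonneg fun p => by positivity
  have p4 : 0 ≤ ∫ p, hfac a l c p ^ 2 ∂(nu P w) := integral_nonneg fun p => by positivity
  calc _ ≤ (1 + K1) * (Real.sqrt ((1 + K2) * C4) * nsq u) :=
        mul_le_mul hF1 hE p3 (p4.trans hF1)
    _ = _ := by ring

end FULL
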