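import Pool.Agent.Lib.MP_8a5982_an.FULL.Ibp
import Pool.Agent.Lib.MP_8a5982_an.FULL.Post2
import Pool.Agent.Lib.MP_8a5982_an.FULL.Sec

/-!
Project FULL, modules G12 and G23: tools.
-/

set_option linter.all false

open MeasureTheory ProbabilityTheory

namespace FULL

/-- Cauchy-Schwarz for finite sums over several probability spaces -/
theorem gr_cs {β α : Type} [MeasurableSpace α] (s : Finset β) (μ : β → Measure α)
    [∀ b, IsProbabilityMeasure (μ b)] (F G : β → α → ℝ) (hF : ∀ b ∈ s, Gd (μ b) (F b))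
    (hG : ∀ b ∈ s, Gd (μ b) (G b)) :
    (∑ b ∈ s, ∫ p, F b p * G b p ∂(μ b)) ^ 2 ≤
      (∑ b ∈ s, ∫ p, F b p ^ 2 ∂(μ b)) * ∑ b ∈ s, ∫ p, G b p ^ 2 ∂(μ b) := by
  apply Finset.sum_sq_le_sum_mul_sum_of_sq_le_mul
  · intro b hb
    exact integral_nonneg fun p => sq_nonneg _
  · intro b hb
    exact integral_nonneg fun p => sq_nonneg _
  · intro b hb
    exact (hF b hb).cs (hG b hb)

theorem gr_lev_bounds {s₀ : NNReal} {m r : ℕ} (hr : r < m) :
    s₀ ≤ lev s₀ m r ∧ lev s₀ m r ≤ 2 * s₀ := by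
  have hm : (0 : NNReal) < m := by
    have : 0 < m := by omega
    exact_mod_cast this
  unfold lev
  constructor
  · calc s₀ = s₀ * 1 := (mul_one _).symm
      _ ≤ s₀ * (1 + (r : NNReal) / (m : NNReal)) := by
          gcongr
          exact le_self_add
  · calc s₀ * (1 + (r : NNReal) / (m : NNReal)) ≤ s₀ * 2 := by
          gcongr
          have : (r : NNReal) / (m : NNReal) ≤ 1 := by
            rw [div_le_one hm]
            exact_mod_cast hr.le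
          calc (1 : NNReal) + (r : NNReal) / (m : NNReal) ≤ 1 + 1 := by gcongr
            _ = 2 := by norm_num
      _ = 2 * s₀ := mul_comm _ _

theorem gr_lev_pos {s₀ : NNReal} (hs : 0 < s₀) {m r : ℕ} (hr : r < m) : 0 < lev s₀ m r :=
  lt_of_lt_of_le hs (gr_lev_bounds hr).1

section gram

variable {ι : Type} [Fintype ι] [DecidableEq ι] {C₀ : ℝ} {s₀ : NNReal} {S : Win ι}

theorem gr_nsq_l (hS : IsWin C₀ s₀ S) (t : ℤ) : nsq (S.l t) = S.q 0 := by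
  have := hS.hq t t
  rw [sub_self] at this
  rw [← this, dot_self]

/-- the weights at level `r` -/
noncomputable abbrev grW (S : Win ι) (s₀ : NNReal) (r : ℕ) : ι → NNReal :=
  wt S.A S.G (lev s₀ S.m r)

/-- the factor `h E (<u,B> - θ <u,l>)` -/
noncomputable def grU (w : ι → NNReal) (s : ℝ) (a l u : ι → ℝ) (c θ : ℝ)
    (p : (ι → ℝ) × (ι → ℝ)) : ℝ :=
  hfac a l c p * efac w s l θ p * (dot u (noise w p) - θ * dot u l)

theorem grU_self (w : ι → NNReal) (s : ℝ) (a l : ι → ℝ) (c θ : ℝ) :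
    grU w s a l l c θ = Hfac w s a l c θ := by
  funext p
  simp only [grU, Hfac, dot_self]

theorem gd_grU (hs₀ : 0 < s₀) (hS : IsWin C₀ s₀ S) {c θ : ℝ} (h0 : 0 ≤ θ) (hθ : θ ≤ c)
    (hc : c ≤ 1) {r : ℕ} (hr : r < S.m) (t : ℤ) (u : ι → ℝ) :
    Gd (nu S.P (grW S s₀ r)) (grU (grW S s₀ r) (lev s₀ S.m r) (S.a t) (S.l t) u c θ) := by
  haveI := hS.hP.prob
  haveI : IsProbabilityMeasure (nu S.P (grW S s₀ r)) := isProbability_nu _
  haveI : IsProbabilityMeasure (gam (grW S s₀ r)) := isProbability_gam _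
  obtain ⟨K1, h1⟩ := hfac_moment C₀
  obtain ⟨K2, h2⟩ := efac_moment C₀ s₀ hs₀
  have hl2 : nsq (S.l t) ≤ C₀ := by rw [gr_nsq_l hS]; exact hS.hq0
  have g1 := (h1 ι S.P hS.hP S.A S.G (lev s₀ S.m r) (S.a t) (S.l t) c hS.disj (hS.ha t) (hS.hl t)
    (hS.ha2 t) hl2 (h0.trans hθ) hc).1
  have g2 := (h2 ι S.P hS.hP S.A S.G (lev s₀ S.m r) (S.l t) θ (hS.hl t) hl2 h0 (hθ.trans hc)
    (gr_lev_bounds hr).1 (gr_lev_bounds hr).2).1
  have hE : ExpM (gam (grW S s₀ r)) ((∑ i, (grW S s₀ r i : ℝ)) / 2) :=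
    expM_gam _ _ (Finset.sum_nonneg fun i _ => NNReal.coe_nonneg _)
      (fun i => Finset.single_le_sum (f := fun i => (grW S s₀ r i : ℝ))
        (fun j _ => NNReal.coe_nonneg _) (Finset.mem_univ i))
  have g3 : Gd (nu S.P (grW S s₀ r)) (fun p => dot u (noise (grW S s₀ r) p)) :=
    Gd.nu_noise _ (hE.gd_dot u)
  exact (g1.mul g2).mul (g3.sub (Gd.const _))

theorem gr_covS (hS : IsWin C₀ s₀ S) (r : ℕ) (u v : ι → ℝ) :
    Gd (nu S.P (grW S s₀ r)) (fun p => cov S.P (grW S s₀ r) (dot u) (dot v) p.2) :=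
  gd_cov hS.hP _ (hS.hP.gd_dot u) (hS.hP.gd_dot v)

theorem gr_covC (hS : IsWin C₀ s₀ S) (r : ℕ) (i : ι) (v : ι → ℝ) :
    Gd (nu S.P (grW S s₀ r)) (fun p => cov S.P (grW S s₀ r) (crd i) (dot v) p.2) :=
  gd_cov hS.hP _ (hS.hP.gd_crd i) (hS.hP.gd_dot v)

/-- the term, expanded: integration by parts in the direction `u`, expansion in `v` -/
theorem gr_expand (hs₀ : 0 < s₀) (hS : IsWin C₀ s₀ S) {c θ : ℝ} (h0 : 0 ≤ θ) (hθ : θ ≤ c)
    (hc : c ≤ 1) {r : ℕ} (hr : r < S.m) (t : ℤ) (u v z : ι → ℝ) (hu : ∀ i, i ∉ S.G → u i = 0)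
    (hv : ∀ i, i ∉ S.G → v i = 0) :
    ∫ p, hfac (S.a t) (S.l t) c p * efac (grW S s₀ r) (lev s₀ S.m r) (S.l t) θ p *
        kap S.P (grW S s₀ r) (dot u) (dot v) (dot z) p.2 ∂(nu S.P (grW S s₀ r)) =
      ∑ i ∈ S.G, ∫ p, ((lev s₀ S.m r : ℝ)⁻¹ *
        grU (grW S s₀ r) (lev s₀ S.m r) (S.a t) (S.l t) u c θ p * v i) *
          cov S.P (grW S s₀ r) (crd i) (dot z) p.2 ∂(nu S.P (grW S s₀ r)) := by
  haveI := hS.hP.prob
  haveI : IsProbabilityMeasure (nu S.P (grW S s₀ r)) := isProbability_nu _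
  have h1 := gterm_ibp_dot hS.hP S.A S.G (lev s₀ S.m r) (gr_lev_pos hs₀ hr) c θ (S.a t) (S.l t) u
    hS.disj (hS.ha t) (hS.hl t) hu (hS.hP.gd_dot v) (hS.hP.gd_dot z)
  rw [h1, ← integral_const_mul, ← integral_finset_sum]
  · refine integral_congr_ae (Filter.Eventually.of_forall fun p => ?_)
    show (lev s₀ S.m r : ℝ)⁻¹ * (grU (grW S s₀ r) (lev s₀ S.m r) (S.a t) (S.l t) u c θ p *
      cov S.P (grW S s₀ r) (dot v) (dot z) p.2) = _
    rw [cov_dot hS.hP _ v (hS.hP.gd_dot z), ← mul_assoc, Finset.mul_sum]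
    symm
    rw [← Finset.sum_subset (Finset.subset_univ S.G)]
    · refine Finset.sum_congr rfl (fun i _ => by ring)
    · intro i _ hi
      rw [hv i hi]
      ring
  · intro i _
    have g1 := gd_grU hs₀ hS h0 hθ hc hr t u
    exact (((g1.const_mul _).mul (Gd.const (v i))).mul (gr_covC hS r i z)).integrable

theorem gr_avg_sum {β : Type} (s : Finset β) (Φ : β → ℝ) (F : β → ℤ → ℕ → ℝ) :
    ∑ b ∈ s, Φ b * S.avg (F b) = S.avg fun t r => ∑ b ∈ s, Φ b * F b t r := by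
  unfold Win.avg
  simp only [Finset.mul_sum]
  rw [Finset.sum_comm]
  refine Finset.sum_congr rfl fun t _ => ?_
  rw [Finset.sum_comm]
  refine Finset.sum_congr rfl fun r _ => ?_
  refine Finset.sum_congr rfl fun b _ => ?_
  ring

theorem gr_avg_congr {F F' : ℤ → ℕ → ℝ} (h : ∀ t : ℕ, ∀ r < S.m, F t r = F' t r) :
    S.avg F = S.avg F' := by
  unfold Win.avg
  congr 1
  refine Finset.sum_congr rfl fun t _ => Finset.sum_congr rfl fun r hr => ?_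
  exact h t r (Finset.mem_range.1 hr)

theorem gr_avg_mono {F F' : ℤ → ℕ → ℝ} (h : ∀ t : ℕ, ∀ r < S.m, F t r ≤ F' t r) :
    S.avg F ≤ S.avg F' := by
  unfold Win.avg
  refine mul_le_mul_of_nonneg_left ?_ (by positivity)
  refine Finset.sum_le_sum fun t _ => Finset.sum_le_sum fun r hr => ?_
  exact h t r (Finset.mem_range.1 hr)

/-- Cauchy-Schwarz for the average -/
theorem gr_avg_cs (hS : IsWin C₀ s₀ S) (F G : ℤ → ℕ → ι → (ι → ℝ) × (ι → ℝ) → ℝ)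
    (hF : ∀ t : ℕ, ∀ r < S.m, ∀ i, Gd (nu S.P (grW S s₀ r)) (F t r i))
    (hG : ∀ t : ℕ, ∀ r < S.m, ∀ i, Gd (nu S.P (grW S s₀ r)) (G t r i)) :
    (S.avg fun t r => ∑ i ∈ S.G, ∫ p, F t r i p * G t r i p ∂(nu S.P (grW S s₀ r))) ^ 2 ≤
      (S.avg fun t r => ∑ i ∈ S.G, ∫ p, F t r i p ^ 2 ∂(nu S.P (grW S s₀ r))) *
      (S.avg fun t r => ∑ i ∈ S.G, ∫ p, G t r i p ^ 2 ∂(nu S.P (grW S s₀ r))) := by
  haveI := hS.hP.prob
  haveI : ∀ r, IsProbabilityMeasure (nu S.P (grW S s₀ r)) := fun r => isProbability_nu _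
  have h := gr_cs ((Finset.range S.W ×ˢ Finset.range S.m) ×ˢ S.G)
    (fun b => nu S.P (grW S s₀ b.1.2)) (fun b => F (b.1.1 : ℤ) b.1.2 b.2)
    (fun b => G (b.1.1 : ℤ) b.1.2 b.2)
    (by
      rintro ⟨⟨t, r⟩, i⟩ hb
      simp only [Finset.mem_product, Finset.mem_range] at hb
      exact hF t r hb.1.2 i)
    (by
      rintro ⟨⟨t, r⟩, i⟩ hb
      simp only [Finset.mem_product, Finset.mem_range] at hb
      exact hG t r hb.1.2 i)
  simp only [Finset.sum_product] at h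
  unfold Win.avg
  have hn : (0 : ℝ) ≤ 1 / ((S.W : ℝ) * S.m) := by positivity
  rw [mul_pow, mul_mul_mul_comm, ← pow_two]
  exact mul_le_mul_of_nonneg_left h (by positivity)

/-- the second factor -/
theorem gr_avg_imm (hS : IsWin C₀ s₀ S) (k : ℤ) :
    (S.avg fun t r => ∑ i ∈ S.G, ∫ p, cov S.P (grW S s₀ r) (crd i) (dot (S.l (t + k))) p.2 ^ 2
      ∂(nu S.P (grW S s₀ r))) ≤ cImm C₀ s₀ * |C₀| := by
  have hc : 0 ≤ cImm C₀ s₀ := by unfold cImm; positivity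
  have hW : (0 : ℝ) < S.W := by exact_mod_cast hS.hW
  have hm : (0 : ℝ) < S.m := by exact_mod_cast hS.hm
  unfold Win.avg
  have h1 : ∀ t ∈ Finset.range S.W, ∑ r ∈ Finset.range S.m, ∑ i ∈ S.G,
      ∫ p, cov S.P (grW S s₀ r) (crd i) (dot (S.l ((t : ℤ) + k))) p.2 ^ 2 ∂(nu S.P (grW S s₀ r)) ≤
      S.m * (cImm C₀ s₀ * |C₀|) := by
    intro t _
    have h2 := hS.imm (S.l ((t : ℤ) + k))
    rw [one_div, inv_mul_le_iff₀ hm] at h2
    refine h2.trans ?_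
    refine mul_le_mul_of_nonneg_left ?_ hm.le
    refine mul_le_mul_of_nonneg_left ?_ hc
    rw [gr_nsq_l hS]
    exact hS.hq0.trans (le_abs_self _)
  calc (1 / ((S.W : ℝ) * S.m)) * ∑ t ∈ Finset.range S.W, ∑ r ∈ Finset.range S.m, ∑ i ∈ S.G,
      ∫ p, cov S.P (grW S s₀ r) (crd i) (dot (S.l ((t : ℤ) + k))) p.2 ^ 2 ∂(nu S.P (grW S s₀ r))
      ≤ (1 / ((S.W : ℝ) * S.m)) * ∑ t ∈ Finset.range S.W, S.m * (cImm C₀ s₀ * |C₀|) :=
        mul_le_mul_of_nonneg_left (Finset.sum_le_sum h1) (by positivity)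
    _ = cImm C₀ s₀ * |C₀| := by
        rw [Finset.sum_const, Finset.card_range, nsmul_eq_mul]
        field_simp

/-- the square of a finite combination -/
theorem gr_sq_expand {β : Type} (s : Finset β) (Φ : β → ℝ) (x : β → ℝ) :
    (∑ b ∈ s, Φ b * x b) ^ 2 = ∑ b ∈ s, ∑ b' ∈ s, Φ b * Φ b' * (x b * x b') := by
  rw [pow_two, Finset.sum_mul_sum]
  refine Finset.sum_congr rfl fun b _ => Finset.sum_congr rfl fun b' _ => by ring

theorem gr_dot_sum_G (hS : IsWin C₀ s₀ S) (t t' : ℤ) :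
    ∑ i ∈ S.G, S.l t i * S.l t' i = S.q (t - t') := by
  rw [← hS.hq, dot]
  exact Finset.sum_subset (Finset.subset_univ _) (fun i _ hi => by rw [hS.hl t i hi]; ring)

theorem gram12 (C₀ : ℝ) (s₀ : NNReal) (hs₀ : 0 < s₀) : ∃ K : ℝ, 0 ≤ K ∧
    ∀ (ι : Type) [Fintype ι] [DecidableEq ι] (S : Win ι), IsWin C₀ s₀ S →
    ∀ (c θ : ℝ), 0 ≤ θ → θ ≤ c → c ≤ 1 → ∀ (k : ℤ) (s : Finset (ℤ × ℤ)) (Φ : ℤ × ℤ → ℝ),
      (∑ p ∈ s, Φ p * S.Gam s₀ c θ p.1 p.2 k) ^ 2 ≤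
        K * ∑ p ∈ s, ∑ p' ∈ s, Φ p * Φ p' * (S.r1 s₀ c θ p.1 p'.1 * S.q (p.2 - p'.2)) := by
  refine ⟨cImm C₀ s₀ * |C₀|, by unfold cImm; positivity, ?_⟩
  intro ι _ _ S hS c θ h0 hθ hc k s Φ
  haveI := hS.hP.prob
  haveI : ∀ r, IsProbabilityMeasure (nu S.P (grW S s₀ r)) := fun r => isProbability_nu _
  -- notation
  let HH : ℤ → ℕ → (ι → ℝ) × (ι → ℝ) → ℝ := fun t r =>
    Hfac (grW S s₀ r) (lev s₀ S.m r) (S.a t) (S.l t) c θ
  have hHH : ∀ t : ℤ, ∀ r < S.m, Gd (nu S.P (grW S s₀ r)) (HH t r) := by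
    intro t r hr
    have := gd_grU hs₀ hS h0 hθ hc hr t (S.l t)
    rwa [grU_self] at this
  let F : ℤ → ℕ → ι → (ι → ℝ) × (ι → ℝ) → ℝ := fun t r i p =>
    ∑ b ∈ s, Φ b * ((lev s₀ S.m r : ℝ)⁻¹ * HH (t + b.1) r p * S.l (t + b.2) i)
  let G : ℤ → ℕ → ι → (ι → ℝ) × (ι → ℝ) → ℝ := fun t r i p =>
    cov S.P (grW S s₀ r) (crd i) (dot (S.l (t + k))) p.2
  have hG : ∀ t : ℕ, ∀ r < S.m, ∀ i, Gd (nu S.P (grW S s₀ r)) (G t r i) :=
    fun t r hr i => gr_covC hS r i _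
  have hF : ∀ t : ℕ, ∀ r < S.m, ∀ i, Gd (nu S.P (grW S s₀ r)) (F t r i) := by
    intro t r hr i
    exact Gd.sum s _ fun b _ =>
      (((hHH (t + b.1) r hr).const_mul _).mul (Gd.const (S.l (t + b.2) i))).const_mul _
  -- step 1
  have e1 : ∑ p ∈ s, Φ p * S.Gam s₀ c θ p.1 p.2 k =
      S.avg fun t r => ∑ i ∈ S.G, ∫ p, F t r i p * G t r i p ∂(nu S.P (grW S s₀ r)) := by
    unfold Win.Gam
    rw [gr_avg_sum]
    refine gr_avg_congr fun t r hr => ?_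
    have h1 : ∀ b ∈ s, Φ b * gterm S.P S.A S.G (lev s₀ S.m r) c θ (S.a ((t : ℤ) + b.1))
        (S.l ((t : ℤ) + b.1)) (S.l ((t : ℤ) + b.2)) (S.l ((t : ℤ) + k)) =
        ∑ i ∈ S.G, ∫ p, Φ b * ((lev s₀ S.m r : ℝ)⁻¹ * HH (t + b.1) r p * S.l (t + b.2) i) *
          G t r i p ∂(nu S.P (grW S s₀ r)) := by
      intro b _
      have h2 := gr_expand hs₀ hS h0 hθ hc hr ((t : ℤ) + b.1) (S.l ((t : ℤ) + b.1))
        (S.l ((t : ℤ) + b.2)) (S.l ((t : ℤ) + k)) (hS.hl _) (hS.hl _)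
      rw [gterm, h2, Finset.mul_sum]
      refine Finset.sum_congr rfl fun i _ => ?_
      rw [← integral_const_mul]
      refine integral_congr_ae (Filter.Eventually.of_forall fun p => ?_)
      simp only [grU_self]
      show _ = Φ b * ((lev s₀ S.m r : ℝ)⁻¹ * HH (t + b.1) r p * S.l (t + b.2) i) * G t r i p
      ring
    rw [Finset.sum_congr rfl h1, Finset.sum_comm]
    refine Finset.sum_congr rfl fun i _ => ?_
    rw [← integral_finset_sum]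
    · refine integral_congr_ae (Filter.Eventually.of_forall fun p => ?_)
      show ∑ b ∈ s, Φ b * ((lev s₀ S.m r : ℝ)⁻¹ * HH (t + b.1) r p * S.l (t + b.2) i) *
          G t r i p = F t r i p * G t r i p
      rw [← Finset.sum_mul]
    · intro b _
      exact (((((hHH (t + b.1) r hr).const_mul _).mul
        (Gd.const (S.l (t + b.2) i))).const_mul _).mul (hG t r hr i)).integrable
  -- step 3
  have e3 : (S.avg fun t r => ∑ i ∈ S.G, ∫ p, F t r i p ^ 2 ∂(nu S.P (grW S s₀ r))) =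
      ∑ p ∈ s, ∑ p' ∈ s, Φ p * Φ p' * (S.r1 s₀ c θ p.1 p'.1 * S.q (p.2 - p'.2)) := by
    have h1 : ∀ b ∈ s, ∑ b' ∈ s, Φ b * Φ b' * (S.r1 s₀ c θ b.1 b'.1 * S.q (b.2 - b'.2)) =
        S.avg fun t r => ∑ b' ∈ s, (Φ b * Φ b' * S.q (b.2 - b'.2)) *
          (((lev s₀ S.m r : ℝ) ^ 2)⁻¹ *
            ∫ p, HH (t + b.1) r p * HH (t + b'.1) r p ∂(nu S.P (grW S s₀ r))) := by
      intro b _
      have h2 := gr_avg_sum (S := S) s (fun b' => Φ b * Φ b' * S.q (b.2 - b'.2))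
        (fun b' t r => ((lev s₀ S.m r : ℝ) ^ 2)⁻¹ *
          ∫ p, HH (t + b.1) r p * HH (t + b'.1) r p ∂(nu S.P (grW S s₀ r)))
      rw [← h2]
      refine Finset.sum_congr rfl fun b' _ => ?_
      show _ = Φ b * Φ b' * S.q (b.2 - b'.2) * S.r1 s₀ c θ b.1 b'.1
      ring
    rw [Finset.sum_congr rfl h1]
    have h3 := gr_avg_sum (S := S) s (fun _ => 1)
      (fun b t r => ∑ b' ∈ s, (Φ b * Φ b' * S.q (b.2 - b'.2)) *
          (((lev s₀ S.m r : ℝ) ^ 2)⁻¹ *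
            ∫ p, HH (t + b.1) r p * HH (t + b'.1) r p ∂(nu S.P (grW S s₀ r))))
    simp only [one_mul] at h3
    rw [h3]
    refine gr_avg_congr fun t r hr => ?_
    have h4 : ∀ i ∈ S.G, ∫ p, F t r i p ^ 2 ∂(nu S.P (grW S s₀ r)) =
        ∑ b ∈ s, ∑ b' ∈ s, Φ b * Φ b' * (((lev s₀ S.m r : ℝ) ^ 2)⁻¹ *
          (S.l (t + b.2) i * S.l (t + b'.2) i)) *
            ∫ p, HH (t + b.1) r p * HH (t + b'.1) r p ∂(nu S.P (grW S s₀ r)) := by
      intro i _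
      have h5 : ∀ p, F t r i p ^ 2 = ∑ b ∈ s, ∑ b' ∈ s, Φ b * Φ b' *
          (((lev s₀ S.m r : ℝ) ^ 2)⁻¹ * (S.l (t + b.2) i * S.l (t + b'.2) i)) *
            (HH (t + b.1) r p * HH (t + b'.1) r p) := by
        intro p
        show (∑ b ∈ s, Φ b * ((lev s₀ S.m r : ℝ)⁻¹ * HH (t + b.1) r p * S.l (t + b.2) i)) ^ 2 = _
        rw [gr_sq_expand]
        refine Finset.sum_congr rfl fun b _ => Finset.sum_congr rfl fun b' _ => ?_
        rw [← inv_pow]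
        ring
      simp only [h5]
      rw [integral_finset_sum]
      · refine Finset.sum_congr rfl fun b _ => ?_
        rw [integral_finset_sum]
        · refine Finset.sum_congr rfl fun b' _ => ?_
          rw [integral_const_mul]
        · intro b' _
          exact (((hHH (t + b.1) r hr).mul (hHH (t + b'.1) r hr)).const_mul _).integrable
      · intro b _
        exact (Gd.sum s _ fun b' _ =>
          (((hHH (t + b.1) r hr).mul (hHH (t + b'.1) r hr)).const_mul _)).integrable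
    rw [Finset.sum_congr rfl h4, Finset.sum_comm]
    refine Finset.sum_congr rfl fun b _ => ?_
    rw [Finset.sum_comm]
    refine Finset.sum_congr rfl fun b' _ => ?_
    rw [← Finset.sum_mul, ← Finset.mul_sum, ← Finset.mul_sum]
    have h6 := gr_dot_sum_G hS ((t : ℤ) + b.2) ((t : ℤ) + b'.2)
    rw [show (t : ℤ) + b.2 - ((t : ℤ) + b'.2) = b.2 - b'.2 by ring] at h6
    rw [h6]
    ring
  rw [e1]
  refine (gr_avg_cs hS F G hF hG).trans ?_
  rw [e3, mul_comm]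
  refine mul_le_mul_of_nonneg_right (gr_avg_imm hS k) ?_
  rw [← e3]
  unfold Win.avg
  refine mul_nonneg (by positivity) ?_
  exact Finset.sum_nonneg fun t _ => Finset.sum_nonneg fun r _ => Finset.sum_nonneg fun i _ =>
    integral_nonneg fun p => sq_nonneg _

end gram

end FULL
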