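import Pool.Agent.Lib.MP_8a5982_an.FULL.G12

/-!
Project FULL, module G23.
-/

set_option linter.all false

open MeasureTheory ProbabilityTheory

namespace FULL

section gram

variable {ι : Type} [Fintype ι] [DecidableEq ι] {C₀ : ℝ} {s₀ : NNReal} {S : Win ι}

theorem gr_avg_const (hS : IsWin C₀ s₀ S) (x : ℝ) : S.avg (fun _ _ => x) = x := by
  have hW : (0 : ℝ) < S.W := by exact_mod_cast hS.hW
  have hm : (0 : ℝ) < S.m := by exact_mod_cast hS.hm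
  unfold Win.avg
  simp only [Finset.sum_const, Finset.card_range, nsmul_eq_mul]
  field_simp

/-- `grU` is linear in `u` -/
theorem grU_sum {β : Type} (s : Finset β) (w : ι → NNReal) (σ : ℝ) (a l : ι → ℝ)
    (x : β → ℝ) (u : β → ι → ℝ) (c θ : ℝ) (p : (ι → ℝ) × (ι → ℝ)) :
    ∑ b ∈ s, x b * grU w σ a l (u b) c θ p = grU w σ a l (∑ b ∈ s, x b • u b) c θ p := by
  simp only [grU]
  rw [dot_sum, dot_sum, Finset.mul_sum, ← Finset.sum_sub_distrib, Finset.mul_sum]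
  refine Finset.sum_congr rfl fun b _ => ?_
  rw [dot_smul, dot_smul]
  ring

/-- the norm of a combination -/
theorem gr_nsq_sum {β : Type} (s : Finset β) (x : β → ℝ) (u : β → ι → ℝ) :
    nsq (∑ b ∈ s, x b • u b) = ∑ b ∈ s, ∑ b' ∈ s, x b * x b' * dot (u b) (u b') := by
  rw [← dot_self, dot_sum]
  refine Finset.sum_congr rfl fun b _ => ?_
  rw [dot_smul, dot_comm, dot_sum, Finset.mul_sum]
  refine Finset.sum_congr rfl fun b' _ => ?_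
  rw [dot_smul, dot_comm (u b') (u b)]
  ring

theorem gram23 (C₀ : ℝ) (s₀ : NNReal) (hs₀ : 0 < s₀) : ∃ K : ℝ, 0 ≤ K ∧
    ∀ (ι : Type) [Fintype ι] [DecidableEq ι] (S : Win ι), IsWin C₀ s₀ S →
    ∀ (c θ : ℝ), 0 ≤ θ → θ ≤ c → c ≤ 1 → ∀ (i : ℤ) (s : Finset (ℤ × ℤ)) (Φ : ℤ × ℤ → ℝ),
      (∑ p ∈ s, Φ p * S.Gam s₀ c θ i p.1 p.2) ^ 2 ≤
        K * ∑ p ∈ s, ∑ p' ∈ s, Φ p * Φ p' * (S.q (p.1 - p'.1) * S.q (p.2 - p'.2)) := by
  obtain ⟨K2, hK2⟩ := second_moment C₀ s₀ hs₀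
  have hs₀' : (0 : ℝ) < s₀ := by exact_mod_cast hs₀
  refine ⟨(cImm C₀ s₀ * |C₀|) * (((s₀ : ℝ) ^ 2)⁻¹ * max K2 0), by unfold cImm; positivity, ?_⟩
  intro ι _ _ S hS c θ h0 hθ hc i₀ s Φ
  haveI := hS.hP.prob
  haveI : ∀ r, IsProbabilityMeasure (nu S.P (grW S s₀ r)) := fun r => isProbability_nu _
  let UU : ℤ → ℕ → (ι → ℝ) → (ι → ℝ) × (ι → ℝ) → ℝ := fun t r u =>
    grU (grW S s₀ r) (lev s₀ S.m r) (S.a t) (S.l t) u c θ
  have hUU : ∀ t : ℤ, ∀ r < S.m, ∀ u, Gd (nu S.P (grW S s₀ r)) (UU t r u) :=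
    fun t r hr u => gd_grU hs₀ hS h0 hθ hc hr t u
  let F : ℤ → ℕ → ι → (ι → ℝ) × (ι → ℝ) → ℝ := fun t r i p =>
    ∑ b ∈ s, Φ b * ((lev s₀ S.m r : ℝ)⁻¹ * UU (t + i₀) r (S.l (t + b.1)) p * S.l (t + b.2) i)
  let G : ℤ → ℕ → ι → (ι → ℝ) × (ι → ℝ) → ℝ := fun t r i p =>
    cov S.P (grW S s₀ r) (crd i) (dot (S.l (t + i₀))) p.2
  have hG : ∀ t : ℕ, ∀ r < S.m, ∀ i, Gd (nu S.P (grW S s₀ r)) (G t r i) :=
    fun t r hr i => gr_covC hS r i _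
  have hF : ∀ t : ℕ, ∀ r < S.m, ∀ i, Gd (nu S.P (grW S s₀ r)) (F t r i) := by
    intro t r hr i
    exact Gd.sum s _ fun b _ =>
      (((hUU (t + i₀) r hr (S.l (t + b.1))).const_mul _).mul
        (Gd.const (S.l (t + b.2) i))).const_mul _
  -- step 1
  have e1 : ∑ p ∈ s, Φ p * S.Gam s₀ c θ i₀ p.1 p.2 =
      S.avg fun t r => ∑ i ∈ S.G, ∫ p, F t r i p * G t r i p ∂(nu S.P (grW S s₀ r)) := by
    unfold Win.Gam
    rw [gr_avg_sum]
    refine gr_avg_congr fun t r hr => ?_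
    have h1 : ∀ b ∈ s, Φ b * gterm S.P S.A S.G (lev s₀ S.m r) c θ (S.a ((t : ℤ) + i₀))
        (S.l ((t : ℤ) + i₀)) (S.l ((t : ℤ) + b.1)) (S.l ((t : ℤ) + b.2)) =
        ∑ i ∈ S.G, ∫ p, Φ b * ((lev s₀ S.m r : ℝ)⁻¹ * UU (t + i₀) r (S.l (t + b.1)) p *
          S.l (t + b.2) i) * G t r i p ∂(nu S.P (grW S s₀ r)) := by
      intro b _
      have h2 := gr_expand hs₀ hS h0 hθ hc hr ((t : ℤ) + i₀) (S.l ((t : ℤ) + b.1))
        (S.l ((t : ℤ) + b.2)) (S.l ((t : ℤ) + i₀)) (hS.hl _) (hS.hl _)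
      have h3 : gterm S.P S.A S.G (lev s₀ S.m r) c θ (S.a ((t : ℤ) + i₀))
        (S.l ((t : ℤ) + i₀)) (S.l ((t : ℤ) + b.1)) (S.l ((t : ℤ) + b.2)) =
          ∫ p, hfac (S.a ((t : ℤ) + i₀)) (S.l ((t : ℤ) + i₀)) c p *
            efac (grW S s₀ r) (lev s₀ S.m r) (S.l ((t : ℤ) + i₀)) θ p *
            kap S.P (grW S s₀ r) (dot (S.l ((t : ℤ) + b.1))) (dot (S.l ((t : ℤ) + b.2)))
              (dot (S.l ((t : ℤ) + i₀))) p.2 ∂(nu S.P (grW S s₀ r)) := by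
        rw [gterm]
        refine integral_congr_ae (Filter.Eventually.of_forall fun p => ?_)
        show _ * kap S.P (grW S s₀ r) _ _ _ p.2 = _
        rw [kap_comm12, kap_comm23]
      rw [h3, h2, Finset.mul_sum]
      refine Finset.sum_congr rfl fun i _ => ?_
      rw [← integral_const_mul]
      refine integral_congr_ae (Filter.Eventually.of_forall fun p => ?_)
      show Φ b * (((lev s₀ S.m r : ℝ)⁻¹ * UU (t + i₀) r (S.l (t + b.1)) p * S.l (t + b.2) i) *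
        G t r i p) = Φ b * ((lev s₀ S.m r : ℝ)⁻¹ * UU (t + i₀) r (S.l (t + b.1)) p *
          S.l (t + b.2) i) * G t r i p
      ring
    rw [Finset.sum_congr rfl h1, Finset.sum_comm]
    refine Finset.sum_congr rfl fun i _ => ?_
    rw [← integral_finset_sum]
    · refine integral_congr_ae (Filter.Eventually.of_forall fun p => ?_)
      show ∑ b ∈ s, Φ b * ((lev s₀ S.m r : ℝ)⁻¹ * UU (t + i₀) r (S.l (t + b.1)) p *
          S.l (t + b.2) i) * G t r i p = F t r i p * G t r i p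
      rw [← Finset.sum_mul]
    · intro b _
      exact (((((hUU (t + i₀) r hr (S.l (t + b.1))).const_mul _).mul
        (Gd.const (S.l (t + b.2) i))).const_mul _).mul (hG t r hr i)).integrable
  -- step 3
  have e3 : (S.avg fun t r => ∑ i ∈ S.G, ∫ p, F t r i p ^ 2 ∂(nu S.P (grW S s₀ r))) ≤
      (((s₀ : ℝ) ^ 2)⁻¹ * max K2 0) *
      ∑ p ∈ s, ∑ p' ∈ s, Φ p * Φ p' * (S.q (p.1 - p'.1) * S.q (p.2 - p'.2)) := by
    rw [← gr_avg_const hS ((((s₀ : ℝ) ^ 2)⁻¹ * max K2 0) *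
      ∑ p ∈ s, ∑ p' ∈ s, Φ p * Φ p' * (S.q (p.1 - p'.1) * S.q (p.2 - p'.2)))]
    refine gr_avg_mono fun t r hr => ?_
    have hlev : (s₀ : ℝ) ≤ lev s₀ S.m r := by exact_mod_cast (gr_lev_bounds (s₀ := s₀) hr).1
    have hlevp : (0 : ℝ) < lev s₀ S.m r := hs₀'.trans_le hlev
    have hl2 : ∀ t, nsq (S.l t) ≤ C₀ := fun t => by rw [gr_nsq_l hS]; exact hS.hq0
    have h4 : ∀ i ∈ S.G, ∫ p, F t r i p ^ 2 ∂(nu S.P (grW S s₀ r)) ≤
        (((s₀ : ℝ) ^ 2)⁻¹ * max K2 0) * ∑ b ∈ s, ∑ b' ∈ s, Φ b * Φ b' *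
          (S.q (b.1 - b'.1) * (S.l (t + b.2) i * S.l (t + b'.2) i)) := by
      intro i _
      set u : ι → ℝ := ∑ b ∈ s, (Φ b * S.l ((t : ℤ) + b.2) i) • S.l ((t : ℤ) + b.1) with hu
      have h5 : ∀ p, F t r i p ^ 2 = ((lev s₀ S.m r : ℝ) ^ 2)⁻¹ * (UU (t + i₀) r u p) ^ 2 := by
        intro p
        have h6 : F t r i p = (lev s₀ S.m r : ℝ)⁻¹ * UU (t + i₀) r u p := by
          have h7 := grU_sum s (grW S s₀ r) (lev s₀ S.m r) (S.a ((t : ℤ) + i₀))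
            (S.l ((t : ℤ) + i₀)) (fun b => Φ b * S.l ((t : ℤ) + b.2) i)
            (fun b => S.l ((t : ℤ) + b.1)) c θ p
          show ∑ b ∈ s, Φ b * ((lev s₀ S.m r : ℝ)⁻¹ * UU (t + i₀) r (S.l (t + b.1)) p *
            S.l (t + b.2) i) = (lev s₀ S.m r : ℝ)⁻¹ * grU (grW S s₀ r) (lev s₀ S.m r)
              (S.a ((t : ℤ) + i₀)) (S.l ((t : ℤ) + i₀)) u c θ p
          rw [hu, ← h7, Finset.mul_sum]
          refine Finset.sum_congr rfl fun b _ => ?_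
          show _ = (lev s₀ S.m r : ℝ)⁻¹ * (Φ b * S.l ((t : ℤ) + b.2) i *
            UU (t + i₀) r (S.l (t + b.1)) p)
          ring
        rw [h6, mul_pow, inv_pow]
      simp only [h5]
      rw [integral_const_mul]
      have huG : ∀ j, j ∉ S.G → u j = 0 := by
        intro j hj
        rw [hu, Finset.sum_apply]
        refine Finset.sum_eq_zero fun b _ => ?_
        rw [Pi.smul_apply, hS.hl _ j hj, smul_zero]
      have h8 : ∫ p, (UU (t + i₀) r u p) ^ 2 ∂(nu S.P (grW S s₀ r)) ≤ K2 * nsq u :=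
        hK2 ι S.P hS.hP S.A S.G (lev s₀ S.m r) c θ (S.a ((t : ℤ) + i₀)) (S.l ((t : ℤ) + i₀)) u
          hS.disj (hS.ha _) (hS.hl _) huG (hS.ha2 _) (hl2 _) h0 hθ hc (gr_lev_bounds hr).1
          (gr_lev_bounds hr).2
      have h9 : nsq u = ∑ b ∈ s, ∑ b' ∈ s, Φ b * Φ b' *
          (S.q (b.1 - b'.1) * (S.l (t + b.2) i * S.l (t + b'.2) i)) := by
        rw [hu, gr_nsq_sum]
        refine Finset.sum_congr rfl fun b _ => Finset.sum_congr rfl fun b' _ => ?_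
        rw [hS.hq, show (t : ℤ) + b.1 - ((t : ℤ) + b'.1) = b.1 - b'.1 by ring]
        ring
      rw [← h9]
      have h10 : K2 * nsq u ≤ max K2 0 * nsq u :=
        mul_le_mul_of_nonneg_right (le_max_left _ _) (nsq_nonneg u)
      have h11 : ((lev s₀ S.m r : ℝ) ^ 2)⁻¹ ≤ ((s₀ : ℝ) ^ 2)⁻¹ := by
        apply inv_anti₀ (by positivity)
        exact pow_le_pow_left₀ hs₀'.le hlev 2
      calc ((lev s₀ S.m r : ℝ) ^ 2)⁻¹ * ∫ p, (UU (t + i₀) r u p) ^ 2 ∂(nu S.P (grW S s₀ r))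
          ≤ ((lev s₀ S.m r : ℝ) ^ 2)⁻¹ * (max K2 0 * nsq u) :=
            mul_le_mul_of_nonneg_left (h8.trans h10) (by positivity)
        _ ≤ ((s₀ : ℝ) ^ 2)⁻¹ * (max K2 0 * nsq u) :=
            mul_le_mul_of_nonneg_right h11 (mul_nonneg (le_max_right _ _) (nsq_nonneg u))
        _ = (((s₀ : ℝ) ^ 2)⁻¹ * max K2 0) * nsq u := by ring
    refine (Finset.sum_le_sum h4).trans (le_of_eq ?_)
    rw [← Finset.mul_sum]
    congr 1
    rw [Finset.sum_comm]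
    refine Finset.sum_congr rfl fun b _ => ?_
    rw [Finset.sum_comm]
    refine Finset.sum_congr rfl fun b' _ => ?_
    rw [← Finset.mul_sum, ← Finset.mul_sum]
    have h6 := gr_dot_sum_G hS ((t : ℤ) + b.2) ((t : ℤ) + b'.2)
    rw [show (t : ℤ) + b.2 - ((t : ℤ) + b'.2) = b.2 - b'.2 by ring] at h6
    rw [h6]
  have h12 : 0 ≤ (S.avg fun t r => ∑ i ∈ S.G, ∫ p, F t r i p ^ 2 ∂(nu S.P (grW S s₀ r))) := by
    unfold Win.avg
    refine mul_nonneg (by positivity) ?_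
    exact Finset.sum_nonneg fun t _ => Finset.sum_nonneg fun r _ => Finset.sum_nonneg fun i _ =>
      integral_nonneg fun p => sq_nonneg _
  have h13 : 0 ≤ cImm C₀ s₀ * |C₀| := by unfold cImm; positivity
  rw [e1]
  refine (gr_avg_cs hS F G hF hG).trans ?_
  calc _ ≤ (S.avg fun t r => ∑ i ∈ S.G, ∫ p, F t r i p ^ 2 ∂(nu S.P (grW S s₀ r))) *
        (cImm C₀ s₀ * |C₀|) := mul_le_mul_of_nonneg_left (gr_avg_imm hS i₀) h12
    _ ≤ ((((s₀ : ℝ) ^ 2)⁻¹ * max K2 0) *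
      ∑ p ∈ s, ∑ p' ∈ s, Φ p * Φ p' * (S.q (p.1 - p'.1) * S.q (p.2 - p'.2))) *
        (cImm C₀ s₀ * |C₀|) := mul_le_mul_of_nonneg_right e3 h13
    _ = _ := by ring

end gram

end FULL
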