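import Pool.Agent.Lib.MP_8a5982_an.FULL.Gdc
import Pool.Agent.Lib.MP_8a5982_an.FULL.Gauss
import Pool.Agent.Lib.MP_8a5982_an.FULL.Mom
import Pool.Agent.Lib.MP_8a5982_an.FULL.Chan1
import Pool.Agent.Lib.MP_8a5982_an.FULL.Chan2

/-!
Project FULL, module GIBBS: the Gibbs variational inequality for the channel (Paper 4.2).
-/

open MeasureTheory ProbabilityTheory Filter Topology

namespace FULL

/-- The mean of the logarithm of the density. -/
theorem integral_log_dens {ι : Type} [Fintype ι] {P : Measure (ι → ℝ)} {C : ℝ} (hP : ExpM P C)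
    (w : ι → NNReal) :
    Gd (nu P w) (fun p : (ι → ℝ) × (ι → ℝ) => ∑ i, (p.2 i * p.1 i - w i * p.1 i ^ 2 / 2)) ∧
    ∫ p : (ι → ℝ) × (ι → ℝ), (∑ i, (p.2 i * p.1 i - w i * p.1 i ^ 2 / 2)) ∂(nu P w) =
      (1 / 2) * ∑ i, (w i : ℝ) * ∫ x, x i ^ 2 ∂P := by
  classical
  have := hP.prob
  have := isProbability_gam w
  have := isProbability_nu (P := P) w
  have h1 : ∀ i, Gd (nu P w) (fun p : (ι → ℝ) × (ι → ℝ) => p.1 i) := fun i =>
    Gd.nu_fst w (hP.gd_crd i)
  have h2 : ∀ i, Gd (nu P w) (fun p : (ι → ℝ) × (ι → ℝ) => p.2 i) := fun i =>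
    Gd.nu_snd w hP i
  have h3 : ∀ i, Gd (nu P w) (fun p : (ι → ℝ) × (ι → ℝ) =>
      p.2 i * p.1 i - w i * p.1 i ^ 2 / 2) := by
    intro i
    have e : (fun p : (ι → ℝ) × (ι → ℝ) => p.2 i * p.1 i - w i * p.1 i ^ 2 / 2) =
        fun p => p.2 i * p.1 i - ((w i : ℝ) / 2) * p.1 i ^ 2 := by
      funext p
      ring
    rw [e]
    exact ((h2 i).mul (h1 i)).sub (((h1 i).pow 2).const_mul _)
  refine ⟨Gd.sum Finset.univ _ fun i _ => h3 i, ?_⟩
  rw [integral_finsetSum _ fun i _ => (h3 i).integrable, Finset.mul_sum]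
  refine Finset.sum_congr rfl fun i _ => ?_
  -- the noise is centred
  have h4 : Gd (nu P w) (fun p : (ι → ℝ) × (ι → ℝ) => noise w p i * p.1 i) := by
    have e : (fun p : (ι → ℝ) × (ι → ℝ) => noise w p i * p.1 i) =
        fun p => p.2 i * p.1 i - (w i : ℝ) * p.1 i ^ 2 := by
      funext p
      simp only [noise]
      ring
    rw [e]
    exact ((h2 i).mul (h1 i)).sub (((h1 i).pow 2).const_mul _)
  have h5 : ∫ p : (ι → ℝ) × (ι → ℝ), noise w p i * p.1 i ∂(nu P w) = 0 := by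
    rw [integral_nu_direct w _ h4.meas]
    simp only [noise_obs]
    have e : (fun p : (ι → ℝ) × (ι → ℝ) => p.2 i * p.1 i) = fun p => p.1 i * p.2 i := by
      funext p
      ring
    rw [e, integral_prod_mul (fun x : ι → ℝ => x i) (fun B : ι → ℝ => B i)]
    have h6 : ∫ B : ι → ℝ, B i ∂(gam w) = 0 := by
      have := integral_gam_dot w (Pi.single i (1 : ℝ))
      rw [dot_crd] at this
      exact this
    rw [h6, mul_zero]
  have h7 : ∫ p : (ι → ℝ) × (ι → ℝ), p.1 i ^ 2 ∂(nu P w) = ∫ x, x i ^ 2 ∂P := by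
    have := nu_fst (P := P) w
    conv_rhs => rw [← this]
    rw [integral_map measurable_fst.aemeasurable]
    exact ((measurable_pi_apply i).pow_const 2).aestronglyMeasurable
  have e : (fun p : (ι → ℝ) × (ι → ℝ) => p.2 i * p.1 i - w i * p.1 i ^ 2 / 2) =
      fun p => noise w p i * p.1 i + ((w i : ℝ) / 2) * p.1 i ^ 2 := by
    funext p
    simp only [noise]
    ring
  rw [e, integral_add h4.integrable (((h1 i).pow 2).const_mul _).integrable, h5,
    integral_const_mul, h7]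
  ring

theorem gibbs {ι : Type} [Fintype ι] {P : Measure (ι → ℝ)} {C : ℝ} (hP : ExpM P C)
    (w : ι → NNReal) (Φ : (ι → ℝ) × (ι → ℝ) → ℝ) (hΦ : Measurable Φ) (MΦ : ℝ)
    (hMΦ : ∀ p, |Φ p| ≤ MΦ) (lam : ℝ) (hlam : 0 < lam) (E : ℝ)
    (hE : ∀ y, ∫ x, Real.exp (lam * Φ (x, y)) ∂P ≤ Real.exp E) :
    ∫ p, Φ p ∂(nu P w) ≤ (E + (1 / 2) * ∑ i, (w i : ℝ) * ∫ x, x i ^ 2 ∂P) / lam := by
  have := hP.prob
  have := isProbability_gam w
  have := isProbability_nu (P := P) w
  obtain ⟨hLg, hLgi⟩ := integral_log_dens hP w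
  have hΦg : Gd (nu P w) Φ := Gd.bdd hΦ MΦ hMΦ
  have h1 : Gd (nu P w) (fun p => lam * Φ p - E) := (hΦg.const_mul lam).sub (Gd.const E)
  have i1 : Integrable (fun p => dens w p.1 p.2 * (lam * Φ p - E)) (P.prod (gam w)) :=
    integrable_nu_ref w _ h1.meas h1.integrable
  have i2 : Integrable (fun p : (ι → ℝ) × (ι → ℝ) => dens w p.1 p.2 *
      (∑ i, (p.2 i * p.1 i - w i * p.1 i ^ 2 / 2))) (P.prod (gam w)) :=
    integrable_nu_ref w _ hLg.meas hLg.integrable
  have i3 : Integrable (fun p : (ι → ℝ) × (ι → ℝ) => dens w p.1 p.2 * (fun _ => (1 : ℝ)) p)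
      (P.prod (gam w)) :=
    integrable_nu_ref w _ measurable_const (integrable_const _)
  have hfm : Measurable (fun p => Real.exp (lam * Φ p - E)) :=
    Real.measurable_exp.comp ((hΦ.const_mul lam).sub measurable_const)
  have i4 : Integrable (fun p => Real.exp (lam * Φ p - E)) (P.prod (gam w)) := by
    refine Integrable.of_bound hfm.aestronglyMeasurable (Real.exp (lam * MΦ - E))
      (Eventually.of_forall fun p => ?_)
    rw [Real.norm_eq_abs, abs_of_pos (Real.exp_pos _)]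
    apply Real.exp_le_exp.2
    have := mul_le_mul_of_nonneg_left ((le_abs_self _).trans (hMΦ p)) hlam.le
    linarith
  have hpt : ∀ p : (ι → ℝ) × (ι → ℝ), dens w p.1 p.2 * (lam * Φ p - E) ≤
      Real.exp (lam * Φ p - E) + dens w p.1 p.2 *
        (∑ i, (p.2 i * p.1 i - w i * p.1 i ^ 2 / 2)) - dens w p.1 p.2 * (fun _ => (1 : ℝ)) p := by
    intro p
    set L : ℝ := ∑ i, (p.2 i * p.1 i - w i * p.1 i ^ 2 / 2) with hL
    have hd : dens w p.1 p.2 = Real.exp L := rfl
    rw [hd]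
    have h2 := Real.add_one_le_exp (lam * Φ p - E - L)
    have h3 : Real.exp (lam * Φ p - E) = Real.exp L * Real.exp (lam * Φ p - E - L) := by
      rw [← Real.exp_add]
      congr 1
      ring
    rw [h3]
    have h4 := mul_le_mul_of_nonneg_left h2 (Real.exp_pos L).le
    simp only
    nlinarith [h4]
  have hint : ∫ p, dens w p.1 p.2 * (lam * Φ p - E) ∂(P.prod (gam w)) ≤
      ∫ p, (Real.exp (lam * Φ p - E) + dens w p.1 p.2 *
        (∑ i, (p.2 i * p.1 i - w i * p.1 i ^ 2 / 2)) - dens w p.1 p.2 * (fun _ => (1 : ℝ)) p)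
        ∂(P.prod (gam w)) :=
    integral_mono i1 ((i4.add i2).sub i3) hpt
  have e1 : ∫ p, (Real.exp (lam * Φ p - E) + dens w p.1 p.2 *
        (∑ i, (p.2 i * p.1 i - w i * p.1 i ^ 2 / 2)) - dens w p.1 p.2 * (fun _ => (1 : ℝ)) p)
        ∂(P.prod (gam w)) =
      (∫ p, Real.exp (lam * Φ p - E) ∂(P.prod (gam w))) +
        (∫ p, dens w p.1 p.2 * (∑ i, (p.2 i * p.1 i - w i * p.1 i ^ 2 / 2)) ∂(P.prod (gam w))) -
        ∫ p, dens w p.1 p.2 * (fun _ => (1 : ℝ)) p ∂(P.prod (gam w)) := by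
    have e3 := integral_sub (i4.add i2) i3
    have e4 := integral_add i4 i2
    simp only [Pi.add_apply] at e3
    rw [e3, e4]
  rw [e1, ← integral_nu_ref w _ h1.meas, ← integral_nu_ref w _ hLg.meas,
    ← integral_nu_ref w _ measurable_const, hLgi] at hint
  have h5 : ∫ p, Real.exp (lam * Φ p - E) ∂(P.prod (gam w)) ≤ 1 := by
    rw [integral_prod_symm _ i4]
    have h6 : ∀ y, ∫ x, Real.exp (lam * Φ (x, y) - E) ∂P ≤ 1 := by
      intro y
      have e2 : (fun x => Real.exp (lam * Φ (x, y) - E)) =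
          fun x => Real.exp (-E) * Real.exp (lam * Φ (x, y)) := by
        funext x
        rw [← Real.exp_add]
        congr 1
        ring
      rw [e2, integral_const_mul]
      calc Real.exp (-E) * ∫ x, Real.exp (lam * Φ (x, y)) ∂P
          ≤ Real.exp (-E) * Real.exp E := mul_le_mul_of_nonneg_left (hE y) (Real.exp_pos _).le
        _ = 1 := by rw [← Real.exp_add]; simp
    calc ∫ y, ∫ x, Real.exp (lam * Φ (x, y) - E) ∂P ∂(gam w)
        ≤ ∫ _y, (1 : ℝ) ∂(gam w) :=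
          integral_mono i4.integral_prod_right (integrable_const _) h6
      _ = 1 := by simp
  have h7 : ∫ p, (lam * Φ p - E) ∂(nu P w) = lam * (∫ p, Φ p ∂(nu P w)) - E := by
    rw [integral_sub (hΦg.const_mul lam).integrable (integrable_const _), integral_const_mul]
    simp
  have h8 : ∫ _p : (ι → ℝ) × (ι → ℝ), (1 : ℝ) ∂(nu P w) = 1 := by simp
  rw [h7, h8] at hint
  rw [le_div_iff₀ hlam]
  linarith

end FULL
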