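import Pool.Agent.Lib.MP_8a5982_an.FULL.Stein
import Pool.Agent.Lib.MP_8a5982_an.FULL.Diff
import Pool.Agent.Lib.MP_8a5982_an.FULL.Chan2
import Pool.Agent.Lib.MP_8a5982_an.FULL.Post2

/-!
Project FULL (MP_8a5982_an), module IBP: the third cumulant by parts.
-/

open MeasureTheory ProbabilityTheory Filter Topology

namespace FULL

section ibp

variable {ι : Type} [Fintype ι] [DecidableEq ι]

omit [Fintype ι] in
theorem wt_mem_ibp (A G : Finset ι) (s : NNReal) (i : ι) (hi : i ∈ G) :
    wt A G s i = s := by
  simp [wt, onG, hi]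

theorem cm_eq_efac_ibp (A G : Finset ι) (s : NNReal)
    (l : ι → ℝ) (θ : ℝ) (hl : ∀ i, i ∉ G → l i = 0) (p : (ι → ℝ) × (ι → ℝ)) :
    cm (wt A G s) (θ • l) p = efac (wt A G s) s l θ p := by
  unfold cm efac
  congr 1
  have h : θ * dot l (noise (wt A G s) p) / s - θ ^ 2 * nsq l / (2 * s) =
      ∑ i, (θ * l i * noise (wt A G s) p i / s - (θ * l i) ^ 2 / (2 * s)) := by
    rw [Finset.sum_sub_distrib]
    congr 1
    · rw [dot, Finset.mul_sum, Finset.sum_div]
      exact Finset.sum_congr rfl fun i _ => by ring
    · rw [nsq, Finset.mul_sum, Finset.sum_div]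
      exact Finset.sum_congr rfl fun i _ => by ring
  rw [h]
  refine Finset.sum_congr rfl fun i _ => ?_
  by_cases hi : i ∈ G
  · rw [wt_mem_ibp A G s i hi]
    simp only [Pi.smul_apply, smul_eq_mul]
  · simp only [Pi.smul_apply, smul_eq_mul, hl i hi]
    simp

omit [DecidableEq ι] in
/-- `hfac` has all moments -/
theorem gd_hfac_ibp {P : Measure (ι → ℝ)} {C₀ : ℝ} (hP : ExpM P C₀) (w : ι → NNReal)
    (a l : ι → ℝ) (c : ℝ) : Gd (nu P w) (hfac a l c) := by
  have := hP.prob
  have := isProbability_nu (P := P) w
  have h1 : Gd (nu P w) (fun p => Real.exp (dot a p.2)) := Gd.nu_exp_snd w hP a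
  have h2 : Gd (nu P w) (fun p => Real.exp (dot (c • l) p.1)) :=
    Gd.nu_fst (P := P) w (f := fun x => Real.exp (dot (c • l) x)) (hP.gd_exp (c • l))
  have h3 := h1.mul h2
  have e : (fun p : (ι → ℝ) × (ι → ℝ) => Real.exp (dot a p.2) * Real.exp (dot (c • l) p.1)) =
      hfac a l c := by
    funext p
    rw [hfac, Real.exp_add, dot_smul]
  rw [e] at h3
  exact h3

theorem gd_efac_ibp {P : Measure (ι → ℝ)} {C₀ : ℝ} (hP : ExpM P C₀) (A G : Finset ι) (s : NNReal)
    (l : ι → ℝ) (θ : ℝ) (hl : ∀ i, i ∉ G → l i = 0) :
    Gd (nu P (wt A G s)) (efac (wt A G s) s l θ) := by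
  have := hP.prob
  have h := Gd.cm (P := P) (wt A G s) hP (θ • l)
  have e : (fun p => cm (wt A G s) (θ • l) p) = efac (wt A G s) s l θ := by
    funext p
    exact cm_eq_efac_ibp A G s l θ hl p
  rw [e] at h
  exact h

omit [DecidableEq ι] in
theorem gd_noise_ibp {P : Measure (ι → ℝ)} {C₀ : ℝ} (hP : ExpM P C₀) (w : ι → NNReal) (i : ι) :
    Gd (nu P w) (fun p => noise w p i) := by
  have := hP.prob
  have := isProbability_nu (P := P) w
  have h1 : Gd (nu P w) (fun p => p.2 i) := Gd.nu_snd w hP i
  have h2 : Gd (nu P w) (fun p => crd i p.1) := Gd.nu_fst (P := P) w (hP.gd_crd i)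
  exact h1.sub (h2.const_mul (w i : ℝ))

theorem dot_update_ibp (u B : ι → ℝ) (i : ι) (t : ℝ) :
    dot u (Function.update B i t) = dot u B + u i * (t - B i) := by
  unfold dot
  rw [← Finset.add_sum_erase _ _ (Finset.mem_univ i),
    ← Finset.add_sum_erase Finset.univ (fun j => u j * B j) (Finset.mem_univ i)]
  have : ∀ j ∈ Finset.univ.erase i, u j * Function.update B i t j = u j * B j := by
    intro j hj
    rw [Function.update_of_ne (Finset.ne_of_mem_erase hj)]
  rw [Finset.sum_congr rfl this, Function.update_self]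
  ring

omit [DecidableEq ι] in
theorem noise_obs_ibp (w : ι → NNReal) (x B : ι → ℝ) : noise w (x, obs w (x, B)) = B :=
  noise_obs w (x, B)

theorem gterm_ibp {P : Measure (ι → ℝ)} {C₀ : ℝ}
    (hP : ExpM P C₀) (A G : Finset ι) (s : NNReal) (hs : 0 < s) (c θ : ℝ) (a l : ι → ℝ)
    (hAG : Disjoint A G) (ha : ∀ i, i ∉ A → a i = 0) (hl : ∀ i, i ∉ G → l i = 0)
    (i : ι) (hi : i ∈ G) {f g : (ι → ℝ) → ℝ} (hf : Gd P f) (hg : Gd P g) :
    ∫ p, hfac a l c p * efac (wt A G s) s l θ p * kap P (wt A G s) (crd i) f g p.2
        ∂(nu P (wt A G s)) =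
      (s : ℝ)⁻¹ * ∫ p, hfac a l c p * efac (wt A G s) s l θ p *
        (noise (wt A G s) p i - θ * l i) * cov P (wt A G s) f g p.2 ∂(nu P (wt A G s)) := by
  have hprob := hP.prob
  have hnu := isProbability_nu (P := P) (wt A G s)
  have hgam := isProbability_gam (wt A G s)
  have hs' : (s : ℝ) ≠ 0 := by exact_mod_cast hs.ne'
  set w := wt A G s with hw
  have hwi : w i = s := wt_mem_ibp A G s i hi
  have hai : a i = 0 := ha i (fun h => Finset.disjoint_left.mp hAG h hi)
  -- all moments
  have gh := gd_hfac_ibp hP w a l c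
  have ge : Gd (nu P w) (efac w s l θ) := gd_efac_ibp hP A G s l θ hl
  have gc : Gd (nu P w) (fun p => cov P w f g p.2) := gd_cov hP w hf hg
  have gk : Gd (nu P w) (fun p => kap P w (crd i) f g p.2) :=
    gd_kap hP w (hP.gd_crd i) hf hg
  have gn : Gd (nu P w) (fun p => noise w p i) := gd_noise_ibp hP w i
  -- the functions on the product
  have gF : Gd (nu P w) (fun p => hfac a l c p * efac w s l θ p * cov P w f g p.2) :=
    (gh.mul ge).mul gc
  have gK : Gd (nu P w) (fun p => hfac a l c p * efac w s l θ p *
      kap P w (crd i) f g p.2) := (gh.mul ge).mul gk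
  have gBF : Gd (nu P w) (fun p => noise w p i *
      (hfac a l c p * efac w s l θ p * cov P w f g p.2)) := gn.mul gF
  have gF' : Gd (nu P w) (fun p => (θ * l i / s) *
      (hfac a l c p * efac w s l θ p * cov P w f g p.2) +
      hfac a l c p * efac w s l θ p * kap P w (crd i) f g p.2) :=
    (gF.const_mul (θ * l i / s)).add gK
  -- the map to the direct picture
  have hmp : MeasurePreserving (fun p : (ι → ℝ) × (ι → ℝ) => (p.1, obs w p))
      (P.prod (gam w)) (nu P w) := by
    refine ⟨?_, rfl⟩
    refine measurable_fst.prodMk (measurable_pi_lambda _ fun j => ?_)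
    exact (((measurable_pi_apply j).comp measurable_fst).const_mul _).add
      ((measurable_pi_apply j).comp measurable_snd)
  have iF : Integrable (fun p : (ι → ℝ) × (ι → ℝ) => hfac a l c (p.1, obs w p) *
      efac w s l θ (p.1, obs w p) * cov P w f g (obs w p)) (P.prod (gam w)) :=
    (hmp.integrable_comp gF.integrable.aestronglyMeasurable).mpr gF.integrable
  have iBF : Integrable (fun p : (ι → ℝ) × (ι → ℝ) => noise w (p.1, obs w p) i *
      (hfac a l c (p.1, obs w p) * efac w s l θ (p.1, obs w p) * cov P w f g (obs w p)))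
      (P.prod (gam w)) :=
    (hmp.integrable_comp gBF.integrable.aestronglyMeasurable).mpr gBF.integrable
  have iF' : Integrable (fun p : (ι → ℝ) × (ι → ℝ) => (θ * l i / s) *
      (hfac a l c (p.1, obs w p) * efac w s l θ (p.1, obs w p) * cov P w f g (obs w p)) +
      hfac a l c (p.1, obs w p) * efac w s l θ (p.1, obs w p) *
        kap P w (crd i) f g (obs w p)) (P.prod (gam w)) :=
    (hmp.integrable_comp gF'.integrable.aestronglyMeasurable).mpr gF'.integrable
  -- Stein for almost every `x`
  have hst : ∀ᵐ x ∂P, ∫ B, B i * (hfac a l c (x, obs w (x, B)) * efac w s l θ (x, obs w (x, B)) *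
        cov P w f g (obs w (x, B))) ∂(gam w) =
      s * ∫ B, ((θ * l i / s) * (hfac a l c (x, obs w (x, B)) *
        efac w s l θ (x, obs w (x, B)) * cov P w f g (obs w (x, B))) +
        hfac a l c (x, obs w (x, B)) * efac w s l θ (x, obs w (x, B)) *
          kap P w (crd i) f g (obs w (x, B))) ∂(gam w) := by
    filter_upwards [iF.prod_right_ae, iBF.prod_right_ae, iF'.prod_right_ae] with x h1 h2 h3
    have hder : ∀ B : ι → ℝ, HasDerivAt (fun t =>
        (fun B => hfac a l c (x, obs w (x, B)) * efac w s l θ (x, obs w (x, B)) *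
          cov P w f g (obs w (x, B))) (Function.update B i t))
        ((fun B => (θ * l i / s) * (hfac a l c (x, obs w (x, B)) *
          efac w s l θ (x, obs w (x, B)) * cov P w f g (obs w (x, B))) +
          hfac a l c (x, obs w (x, B)) * efac w s l θ (x, obs w (x, B)) *
          kap P w (crd i) f g (obs w (x, B))) B) (B i) := by
      intro B
      have eobs : ∀ t : ℝ, obs w (x, Function.update B i t) =
          obs w (x, B) + (t - B i) • (Pi.single i (1 : ℝ) : ι → ℝ) := by
        intro t
        funext j
        by_cases hj : j = i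
        · subst hj
          simp [obs]
        · simp [obs, Function.update_of_ne hj, Pi.single_eq_of_ne hj]
      have eh : ∀ t : ℝ, hfac a l c (x, obs w (x, Function.update B i t)) =
          hfac a l c (x, obs w (x, B)) := by
        intro t
        unfold hfac
        have : dot a (obs w (x, Function.update B i t)) = dot a (obs w (x, B)) := by
          rw [eobs t, dot_comm, dot_add, dot_smul, dot_comm _ a, dot_comm _ a]
          have : dot a (Pi.single i (1 : ℝ)) = 0 := by
            rw [dot_comm, dot_crd]
            exact hai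
          rw [this]
          ring
        simp only [this]
      have ee : ∀ t : ℝ, efac w s l θ (x, obs w (x, Function.update B i t)) =
          Real.exp (θ * (dot l B + l i * (t - B i)) / s - θ ^ 2 * nsq l / (2 * s)) := by
        intro t
        unfold efac
        rw [noise_obs_ibp, dot_update_ibp]
      have hde : HasDerivAt (fun t : ℝ =>
          Real.exp (θ * (dot l B + l i * (t - B i)) / s - θ ^ 2 * nsq l / (2 * s)))
          (efac w s l θ (x, obs w (x, B)) * (θ * l i / s)) (B i) := by
        have h1 : HasDerivAt (fun t : ℝ => θ * (dot l B + l i * (t - B i)) / s -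
            θ ^ 2 * nsq l / (2 * s)) (θ * l i / s) (B i) := by
          have h0 : HasDerivAt (fun t : ℝ => t - B i) 1 (B i) :=
            (hasDerivAt_id (B i)).sub_const (B i)
          have h2 := (((h0.const_mul (l i)).const_add (dot l B)).const_mul θ).div_const (s : ℝ)
          have h3 := h2.sub_const (θ ^ 2 * nsq l / (2 * s))
          refine h3.congr_deriv ?_
          ring
        have h4 := h1.exp
        have e5 : efac w s l θ (x, obs w (x, B)) =
            Real.exp (θ * (dot l B + l i * (B i - B i)) / s - θ ^ 2 * nsq l / (2 * s)) := by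
          have := ee (B i)
          rw [Function.update_eq_self] at this
          exact this
        rw [e5]
        exact h4
      have hdc : HasDerivAt (fun t : ℝ => cov P w f g (obs w (x, Function.update B i t)))
          (kap P w (crd i) f g (obs w (x, B))) (B i) := by
        have h1 := hasDerivAt_cov hP w hf hg (Pi.single i (1 : ℝ)) (obs w (x, B)) 0
        rw [zero_smul, add_zero, dot_crd] at h1
        have h2 : HasDerivAt (fun t : ℝ => t - B i) 1 (B i) :=
          (hasDerivAt_id (B i)).sub_const (B i)
        have h3 : HasDerivAt (fun θ : ℝ => cov P w f g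
            (obs w (x, B) + θ • (Pi.single i (1 : ℝ) : ι → ℝ)))
            (kap P w (crd i) f g (obs w (x, B))) (B i - B i) := by
          rw [sub_self]; exact h1
        have h4 := HasDerivAt.comp (h := fun t : ℝ => t - B i) (B i) h3 h2
        rw [mul_one] at h4
        refine h4.congr_of_eventuallyEq (Filter.Eventually.of_forall fun t => ?_)
        simp only [Function.comp, eobs t]
      have hfin := (hde.mul hdc).const_mul (hfac a l c (x, obs w (x, B)))
      have efun : (fun t => (fun B => hfac a l c (x, obs w (x, B)) *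
          efac w s l θ (x, obs w (x, B)) * cov P w f g (obs w (x, B)))
          (Function.update B i t)) = fun t => hfac a l c (x, obs w (x, B)) *
          (Real.exp (θ * (dot l B + l i * (t - B i)) / s - θ ^ 2 * nsq l / (2 * s)) *
          cov P w f g (obs w (x, Function.update B i t))) := by
        funext t
        simp only [eh t, ee t]
        ring
      rw [efun]
      refine hfin.congr_deriv ?_
      have e6 := ee (B i)
      rw [Function.update_eq_self] at e6
      rw [← e6, Function.update_eq_self]
      ring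
    simp only [noise_obs_ibp] at h2
    have := stein w i _ _ hder h1 h2 h3
    rw [hwi] at this
    exact this
  -- integrate over `x`
  have k1 : ∫ p, noise w p i * (hfac a l c p * efac w s l θ p * cov P w f g p.2) ∂(nu P w) =
      s * ∫ p, ((θ * l i / s) * (hfac a l c p * efac w s l θ p * cov P w f g p.2) +
        hfac a l c p * efac w s l θ p * kap P w (crd i) f g p.2) ∂(nu P w) := by
    rw [integral_nu_direct w _ gBF.meas, integral_nu_direct w _ gF'.meas,
      integral_prod _ iBF, integral_prod _ iF', ← integral_const_mul]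
    refine integral_congr_ae ?_
    filter_upwards [hst] with x hx
    simp only [noise_obs_ibp]
    exact hx
  have k2 : ∫ p, ((θ * l i / s) * (hfac a l c p * efac w s l θ p * cov P w f g p.2) +
        hfac a l c p * efac w s l θ p * kap P w (crd i) f g p.2) ∂(nu P w) =
      (θ * l i / s) * (∫ p, hfac a l c p * efac w s l θ p * cov P w f g p.2 ∂(nu P w)) +
        ∫ p, hfac a l c p * efac w s l θ p * kap P w (crd i) f g p.2 ∂(nu P w) := by
    rw [integral_add (gF.const_mul (θ * l i / s)).integrable gK.integrable, integral_const_mul]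
  have k3 : ∫ p, hfac a l c p * efac w s l θ p * (noise w p i - θ * l i) *
        cov P w f g p.2 ∂(nu P w) =
      (∫ p, noise w p i * (hfac a l c p * efac w s l θ p * cov P w f g p.2) ∂(nu P w)) -
        (θ * l i) * ∫ p, hfac a l c p * efac w s l θ p * cov P w f g p.2 ∂(nu P w) := by
    rw [← integral_const_mul, ← integral_sub gBF.integrable (gF.const_mul (θ * l i)).integrable]
    refine integral_congr_ae (Filter.Eventually.of_forall fun p => ?_)
    simp only
    ring
  rw [k3, k1, k2]
  field_simp
  ring

/-- the version in the direction `u` supported on `G` -/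
theorem gterm_ibp_dot {P : Measure (ι → ℝ)} {C₀ : ℝ}
    (hP : ExpM P C₀) (A G : Finset ι) (s : NNReal) (hs : 0 < s) (c θ : ℝ) (a l u : ι → ℝ)
    (hAG : Disjoint A G) (ha : ∀ i, i ∉ A → a i = 0) (hl : ∀ i, i ∉ G → l i = 0)
    (hu : ∀ i, i ∉ G → u i = 0) {f g : (ι → ℝ) → ℝ} (hf : Gd P f) (hg : Gd P g) :
    ∫ p, hfac a l c p * efac (wt A G s) s l θ p * kap P (wt A G s) (dot u) f g p.2
        ∂(nu P (wt A G s)) =
      (s : ℝ)⁻¹ * ∫ p, hfac a l c p * efac (wt A G s) s l θ p *
        (dot u (noise (wt A G s) p) - θ * dot u l) * cov P (wt A G s) f g p.2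
        ∂(nu P (wt A G s)) := by
  have hprob := hP.prob
  have hnu := isProbability_nu (P := P) (wt A G s)
  have gh := gd_hfac_ibp hP (wt A G s) a l c
  have ge : Gd (nu P (wt A G s)) (efac (wt A G s) s l θ) := gd_efac_ibp hP A G s l θ hl
  have gc : Gd (nu P (wt A G s)) (fun p => cov P (wt A G s) f g p.2) := gd_cov hP _ hf hg
  have gk : ∀ i, Gd (nu P (wt A G s)) (fun p => kap P (wt A G s) (crd i) f g p.2) :=
    fun i => gd_kap hP _ (hP.gd_crd i) hf hg
  have gn : ∀ i, Gd (nu P (wt A G s)) (fun p => noise (wt A G s) p i) :=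
    fun i => gd_noise_ibp hP _ i
  have e1 : ∀ p : (ι → ℝ) × (ι → ℝ), hfac a l c p * efac (wt A G s) s l θ p *
      kap P (wt A G s) (dot u) f g p.2 = ∑ i, u i * (hfac a l c p * efac (wt A G s) s l θ p *
        kap P (wt A G s) (crd i) f g p.2) := by
    intro p
    rw [kap_dot hP _ u hf hg, Finset.mul_sum]
    exact Finset.sum_congr rfl fun i _ => by ring
  have e2 : ∀ p : (ι → ℝ) × (ι → ℝ), hfac a l c p * efac (wt A G s) s l θ p *
      (dot u (noise (wt A G s) p) - θ * dot u l) * cov P (wt A G s) f g p.2 =
      ∑ i, u i * (hfac a l c p * efac (wt A G s) s l θ p *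
        (noise (wt A G s) p i - θ * l i) * cov P (wt A G s) f g p.2) := by
    intro p
    have : dot u (noise (wt A G s) p) - θ * dot u l =
        ∑ i, u i * (noise (wt A G s) p i - θ * l i) := by
      unfold dot
      rw [Finset.mul_sum, ← Finset.sum_sub_distrib]
      exact Finset.sum_congr rfl fun i _ => by ring
    rw [this, Finset.mul_sum, Finset.sum_mul]
    exact Finset.sum_congr rfl fun i _ => by ring
  simp only [e1, e2]
  rw [integral_finsetSum, integral_finsetSum, Finset.mul_sum]
  · refine Finset.sum_congr rfl fun i _ => ?_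
    rw [integral_const_mul, integral_const_mul]
    by_cases hi : i ∈ G
    · rw [gterm_ibp hP A G s hs c θ a l hAG ha hl i hi hf hg]
      ring
    · rw [hu i hi]
      ring
  · intro i _
    exact ((((gh.mul ge).mul ((gn i).sub (Gd.const (θ * l i)))).mul gc).const_mul (u i)).integrable
  · intro i _
    exact (((gh.mul ge).mul (gk i)).const_mul (u i)).integrable

end ibp

end FULL
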