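import Pool.Agent.Lib.MP_8a5982_an.FULL.Gdc
import Pool.Agent.Lib.MP_8a5982_an.FULL.Mom
import Pool.Agent.Lib.MP_8a5982_an.FULL.Gauss
import Pool.Agent.Lib.MP_8a5982_an.FULL.Chan1
import Pool.Agent.Lib.MP_8a5982_an.FULL.Chan2
import Pool.Agent.Lib.MP_8a5982_an.FULL.Post1
import Pool.Agent.Lib.MP_8a5982_an.FULL.Post2

/-!
Project FULL (MP_8a5982_an), module IMM1: the IMMSE inequality, one step (Paper 2.1).
The channel is doubled: `(y, y')` is the observation of `(x, x')` with `x' = x`.
-/

open MeasureTheory ProbabilityTheory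

namespace FULL

namespace Imm

variable {ι : Type}

/-- the diagonal -/
def dg (x : ι → ℝ) : ι ⊕ ι → ℝ := Sum.elim x x

theorem measurable_dg : Measurable (dg (ι := ι)) := by
  refine measurable_pi_lambda _ fun i => ?_
  rcases i with i | i
  · exact measurable_pi_apply i
  · exact measurable_pi_apply i

theorem measurable_elim :
    Measurable (fun p : (ι → ℝ) × (ι → ℝ) => (Sum.elim p.1 p.2 : ι ⊕ ι → ℝ)) := by
  refine measurable_pi_lambda _ fun i => ?_
  rcases i with i | i
  · exact (measurable_pi_apply i).comp measurable_fst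
  · exact (measurable_pi_apply i).comp measurable_snd

theorem measurable_obs' (w : ι → NNReal) : Measurable (obs w) := by
  refine measurable_pi_lambda _ fun i => ?_
  unfold obs
  exact ((measurable_pi_apply i).comp measurable_fst).const_mul _ |>.add
    ((measurable_pi_apply i).comp measurable_snd)

section

variable [DecidableEq ι]

/-- the added weights -/
noncomputable def wG (G : Finset ι) (h : NNReal) : ι → NNReal := fun i => if i ∈ G then h else 0

theorem addw_eq (w : ι → NNReal) (G : Finset ι) (h : NNReal) : addw w G h = w + wG G h := by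
  funext i
  unfold addw wG
  simp only [Pi.add_apply]
  split_ifs
  · rfl
  · rw [add_zero]

end

variable [Fintype ι] {P : Measure (ι → ℝ)} {C : ℝ}

theorem gam_elim (w w' : ι → NNReal) :
    MeasurePreserving (fun p : (ι → ℝ) × (ι → ℝ) => (Sum.elim p.1 p.2 : ι ⊕ ι → ℝ))
      ((gam w).prod (gam w')) (gam (Sum.elim w w')) := by
  exact (measurePreserving_sumPiEquivProdPi
    (fun i : ι ⊕ ι => gaussianReal 0 ((Sum.elim w w' : ι ⊕ ι → NNReal) i))).symm

variable [IsProbabilityMeasure P] (w w' : ι → NNReal)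

instance : IsProbabilityMeasure (gam w) := isProbability_gam w

instance : IsProbabilityMeasure (nu P w) := isProbability_nu w

/-- the basic preserving map of a channel -/
theorem mp_nu : MeasurePreserving (fun p : (ι → ℝ) × (ι → ℝ) => (p.1, obs w p))
    (P.prod (gam w)) (nu P w) :=
  ⟨measurable_fst.prodMk (measurable_obs' w), rfl⟩

theorem mp_add : MeasurePreserving (fun p : (ι → ℝ) × (ι → ℝ) => p.1 + p.2)
    ((gam w).prod (gam w')) (gam (w + w')) :=
  ⟨measurable_fst.add measurable_snd, gam_add w w'⟩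

/-- the law of the triple -/
noncomputable def m3 (P : Measure (ι → ℝ)) (w w' : ι → NNReal) :
    Measure (((ι → ℝ) × (ι → ℝ)) × (ι → ℝ)) := (nu P w).prod (gam w')

instance : IsProbabilityMeasure (m3 P w w') := by unfold m3; infer_instance

theorem mp_S1 : MeasurePreserving
    (fun q : ((ι → ℝ) × (ι → ℝ)) × (ι → ℝ) => ((q.1.1, obs w q.1), q.2))
    ((P.prod (gam w)).prod (gam w')) (m3 P w w') :=
  (mp_nu (P := P) w).prod (MeasurePreserving.id (gam w'))

/-- the observation with the sum of the weights -/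
def sm (q : ((ι → ℝ) × (ι → ℝ)) × (ι → ℝ)) : (ι → ℝ) × (ι → ℝ) :=
  (q.1.1, q.1.2 + obs w' (q.1.1, q.2))

theorem measurable_sm : Measurable (sm w') := by
  unfold sm
  exact (measurable_fst.comp measurable_fst).prodMk ((measurable_snd.comp measurable_fst).add
    ((measurable_obs' w').comp ((measurable_fst.comp measurable_fst).prodMk measurable_snd)))

theorem mp_sm : MeasurePreserving (sm w') (m3 P w w') (nu P (w + w')) := by
  refine ⟨measurable_sm w', ?_⟩
  rw [← (mp_S1 (P := P) w w').map_eq, Measure.map_map (measurable_sm w')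
    (mp_S1 (P := P) w w').measurable]
  have h3 : MeasurePreserving (fun q : ((ι → ℝ) × (ι → ℝ)) × (ι → ℝ) =>
      (q.1.1, obs (w + w') (q.1.1, q.1.2 + q.2)))
      ((P.prod (gam w)).prod (gam w')) (nu P (w + w')) :=
    (mp_nu (P := P) (w + w')).comp (((MeasurePreserving.id P).prod (mp_add w w')).comp
      (measurePreserving_prodAssoc P (gam w) (gam w')))
  rw [← h3.map_eq]
  congr 1
  funext q
  unfold sm obs
  simp only [Function.comp, Prod.mk.injEq, true_and]
  funext i
  simp only [Pi.add_apply, NNReal.coe_add]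
  ring

/-- the doubled channel -/
def dbl (q : ((ι → ℝ) × (ι → ℝ)) × (ι → ℝ)) : (ι ⊕ ι → ℝ) × (ι ⊕ ι → ℝ) :=
  (dg q.1.1, Sum.elim q.1.2 (obs w' (q.1.1, q.2)))

theorem measurable_dbl : Measurable (dbl w') := by
  unfold dbl
  exact (measurable_dg.comp (measurable_fst.comp measurable_fst)).prodMk
    (measurable_elim.comp ((measurable_snd.comp measurable_fst).prodMk
    ((measurable_obs' w').comp ((measurable_fst.comp measurable_fst).prodMk measurable_snd))))

instance : IsProbabilityMeasure (P.map dg) :=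
  Measure.isProbabilityMeasure_map measurable_dg.aemeasurable

theorem mp_dbl : MeasurePreserving (dbl w') (m3 P w w') (nu (P.map dg) (Sum.elim w w')) := by
  refine ⟨measurable_dbl w', ?_⟩
  rw [← (mp_S1 (P := P) w w').map_eq, Measure.map_map (measurable_dbl w')
    (mp_S1 (P := P) w w').measurable]
  have h3 : MeasurePreserving (fun q : ((ι → ℝ) × (ι → ℝ)) × (ι → ℝ) =>
      (dg q.1.1, obs (Sum.elim w w') (dg q.1.1, Sum.elim q.1.2 q.2)))
      ((P.prod (gam w)).prod (gam w')) (nu (P.map dg) (Sum.elim w w')) :=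
    (mp_nu (P := P.map dg) (Sum.elim w w')).comp
      (((show MeasurePreserving dg P (P.map dg) from ⟨measurable_dg, rfl⟩).prod
      (gam_elim w w')).comp (measurePreserving_prodAssoc P (gam w) (gam w')))
  rw [← h3.map_eq]
  congr 1
  funext q
  unfold dbl obs
  simp only [Function.comp, Prod.mk.injEq, true_and]
  funext i
  rcases i with i | i
  · simp [dg]
  · simp [dg]

/-- the posterior of the doubled channel -/
theorem NN_dbl (f : (ι → ℝ) → ℝ) (hf : Measurable f) (y y' : ι → ℝ) :
    NN (P.map dg) (Sum.elim w w') (fun z => f (z ∘ Sum.inl)) (Sum.elim y y') =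
      NN P (w + w') f (y + y') := by
  unfold NN
  rw [integral_map measurable_dg.aemeasurable]
  · refine integral_congr_ae (Filter.Eventually.of_forall fun x => ?_)
    have h1 : dens (Sum.elim w w') (dg x) (Sum.elim y y') = dens (w + w') x (y + y') := by
      unfold dens
      congr 1
      rw [Fintype.sum_sum_type, ← Finset.sum_add_distrib]
      refine Finset.sum_congr rfl fun i _ => ?_
      simp only [dg, Sum.elim_inl, Sum.elim_inr, Pi.add_apply, NNReal.coe_add]
      ring
    simp only [h1]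
    rfl
  · refine Measurable.aestronglyMeasurable ?_
    refine Measurable.mul (hf.comp (measurable_pi_lambda _ fun i => measurable_pi_apply _)) ?_
    exact (measurable_dens (Sum.elim w w')).comp (measurable_id.prodMk measurable_const)

theorem post_dbl (f : (ι → ℝ) → ℝ) (hf : Measurable f) (y y' : ι → ℝ) :
    post (P.map dg) (Sum.elim w w') (fun z => f (z ∘ Sum.inl)) (Sum.elim y y') =
      post P (w + w') f (y + y') := by
  have h1 := NN_dbl (P := P) w w' (fun _ => (1 : ℝ)) measurable_const y y'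
  have e1 : ∀ y, NN P (w + w') (fun _ => (1 : ℝ)) y = RR P (w + w') y := by
    intro y
    unfold NN RR
    simp
  have e2 : ∀ y, NN (P.map dg) (Sum.elim w w') (fun _ => (1 : ℝ)) y =
      RR (P.map dg) (Sum.elim w w') y := by
    intro y
    unfold NN RR
    simp
  rw [e1, e2] at h1
  unfold post
  rw [NN_dbl w w' f hf, h1]

omit [IsProbabilityMeasure P] in
theorem expM_dg (hP : ExpM P C) : ExpM (P.map dg) (2 * C) := by
  have := hP.prob
  have hd : ∀ (u : ι ⊕ ι → ℝ) (x : ι → ℝ), dot u (dg x) =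
      dot (fun i => u (Sum.inl i) + u (Sum.inr i)) x := by
    intro u x
    unfold dot
    rw [Fintype.sum_sum_type, ← Finset.sum_add_distrib]
    refine Finset.sum_congr rfl fun i _ => ?_
    simp only [dg, Sum.elim_inl, Sum.elim_inr]
    ring
  have hm : ∀ u : ι ⊕ ι → ℝ, Measurable (fun x : ι ⊕ ι → ℝ => Real.exp (dot u x)) := fun u =>
    Real.measurable_exp.comp (measurable_dot u)
  refine ⟨by linarith [hP.nonneg], inferInstance, fun u => ?_, fun u => ?_⟩
  · rw [integrable_map_measure (hm u).aestronglyMeasurable measurable_dg.aemeasurable]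
    simp only [Function.comp_def, hd]
    exact hP.int _
  · rw [integral_map measurable_dg.aemeasurable (hm u).aestronglyMeasurable]
    simp only [hd]
    refine (hP.le _).trans (Real.exp_le_exp.2 ?_)
    have h1 : nsq (fun i => u (Sum.inl i) + u (Sum.inr i)) ≤ 2 * nsq u := by
      unfold nsq
      rw [Fintype.sum_sum_type, ← Finset.sum_add_distrib, Finset.mul_sum]
      refine Finset.sum_le_sum fun i _ => ?_
      nlinarith [sq_nonneg (u (Sum.inl i) - u (Sum.inr i))]
    nlinarith [hP.nonneg]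

/-- The posterior mean minimises the quadratic error. -/
theorem mmse (hP : ExpM P C) (f : (ι → ℝ) → ℝ) (hf : Gd P f)
    (g : (ι → ℝ) × (ι → ℝ) → ℝ) (hg : Measurable g)
    (hgd : Gd (m3 P w w') (fun q => g (q.1.2, obs w' (q.1.1, q.2)))) :
    2 * (∫ q, g (q.1.2, obs w' (q.1.1, q.2)) * f q.1.1 ∂(m3 P w w')) -
      (∫ q, g (q.1.2, obs w' (q.1.1, q.2)) ^ 2 ∂(m3 P w w')) ≤
      ∫ p, post P (w + w') f p.2 ^ 2 ∂(nu P (w + w')) := by
  have hdg : MeasurePreserving dg P (P.map dg) := ⟨measurable_dg, rfl⟩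
  have hinl : Measurable (fun z : ι ⊕ ι → ℝ => z ∘ Sum.inl) :=
    measurable_pi_lambda _ fun i => measurable_pi_apply _
  have hinr : Measurable (fun z : ι ⊕ ι → ℝ => z ∘ Sum.inr) :=
    measurable_pi_lambda _ fun i => measurable_pi_apply _
  -- the good functions for the doubled channel
  have hfm : Measurable (fun z : ι ⊕ ι → ℝ => f (z ∘ Sum.inl)) := hf.meas.comp hinl
  have hf' : Gd (P.map dg) (fun z => f (z ∘ Sum.inl)) := by
    refine ⟨hfm, fun p => ?_⟩
    rw [memLp_map_measure_iff hfm.aestronglyMeasurable measurable_dg.aemeasurable]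
    exact hf.mem p
  have hgm : Measurable (fun p : (ι ⊕ ι → ℝ) × (ι ⊕ ι → ℝ) =>
      g (p.2 ∘ Sum.inl, p.2 ∘ Sum.inr)) :=
    hg.comp ((hinl.comp measurable_snd).prodMk (hinr.comp measurable_snd))
  have hg' : Gd (nu (P.map dg) (Sum.elim w w')) (fun p => g (p.2 ∘ Sum.inl, p.2 ∘ Sum.inr)) := by
    refine ⟨hgm, fun p => ?_⟩
    rw [← (mp_dbl (P := P) w w').map_eq, memLp_map_measure_iff hgm.aestronglyMeasurable
      (measurable_dbl w').aemeasurable]
    exact hgd.mem p
  have h1 := tower (expM_dg hP) (Sum.elim w w') (f := fun z => f (z ∘ Sum.inl))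
    (g := fun z => g (z ∘ Sum.inl, z ∘ Sum.inr)) hf' hg'
  have hpm : Measurable (post (P.map dg) (Sum.elim w w') (fun z => f (z ∘ Sum.inl))) :=
    measurable_post (expM_dg hP) _ hf'.meas
  have hA1 : Measurable (fun p : (ι ⊕ ι → ℝ) × (ι ⊕ ι → ℝ) =>
      g (p.2 ∘ Sum.inl, p.2 ∘ Sum.inr) * f (p.1 ∘ Sum.inl)) :=
    hgm.mul (hfm.comp measurable_fst)
  have hA2 : Measurable (fun p : (ι ⊕ ι → ℝ) × (ι ⊕ ι → ℝ) =>
      g (p.2 ∘ Sum.inl, p.2 ∘ Sum.inr) *
        post (P.map dg) (Sum.elim w w') (fun z => f (z ∘ Sum.inl)) p.2) :=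
    hgm.mul (hpm.comp measurable_snd)
  rw [← (mp_dbl (P := P) w w').map_eq, integral_map (measurable_dbl w').aemeasurable
    hA1.aestronglyMeasurable, integral_map (measurable_dbl w').aemeasurable
    hA2.aestronglyMeasurable] at h1
  -- the posterior mean of the sum channel
  have hM0 : Gd (nu P (w + w')) (fun p => post P (w + w') f p.2) := gd_post hP _ hf
  have hM : Gd (m3 P w w') (fun q => post P (w + w') f (sm w' q).2) :=
    Gd.comp (F := fun p : (ι → ℝ) × (ι → ℝ) => post P (w + w') f p.2) (T := sm w')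
      (mp_sm w w') hM0
  have h2 : ∫ q, g (q.1.2, obs w' (q.1.1, q.2)) * f q.1.1 ∂(m3 P w w') =
      ∫ q, g (q.1.2, obs w' (q.1.1, q.2)) * post P (w + w') f (sm w' q).2 ∂(m3 P w w') := by
    refine Eq.trans h1 (integral_congr_ae (Filter.Eventually.of_forall fun q => ?_))
    change g (q.1.2, obs w' (q.1.1, q.2)) * post (P.map dg) (Sum.elim w w')
      (fun z => f (z ∘ Sum.inl)) (Sum.elim q.1.2 (obs w' (q.1.1, q.2))) = _
    rw [post_dbl w w' f hf.meas]
    rfl
  have h3 : ∫ p, post P (w + w') f p.2 ^ 2 ∂(nu P (w + w')) =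
      ∫ q, post P (w + w') f (sm w' q).2 ^ 2 ∂(m3 P w w') := by
    rw [← (mp_sm (P := P) w w').map_eq, integral_map (measurable_sm w').aemeasurable
      (hM0.meas.pow_const 2).aestronglyMeasurable]
  have h4 : 0 ≤ ∫ q, (post P (w + w') f (sm w' q).2 - g (q.1.2, obs w' (q.1.1, q.2))) ^ 2
      ∂(m3 P w w') := integral_nonneg fun q => sq_nonneg _
  have h5 : ∫ q, (post P (w + w') f (sm w' q).2 - g (q.1.2, obs w' (q.1.1, q.2))) ^ 2
      ∂(m3 P w w') = (∫ q, post P (w + w') f (sm w' q).2 ^ 2 ∂(m3 P w w')) -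
      2 * (∫ q, g (q.1.2, obs w' (q.1.1, q.2)) * post P (w + w') f (sm w' q).2 ∂(m3 P w w')) +
      ∫ q, g (q.1.2, obs w' (q.1.1, q.2)) ^ 2 ∂(m3 P w w') := by
    rw [← integral_const_mul, ← integral_sub (hM.pow 2).integrable
      ((hgd.mul hM).const_mul 2).integrable, ← integral_add
      ((hM.pow 2).sub ((hgd.mul hM).const_mul 2)).integrable (hgd.pow 2).integrable]
    refine integral_congr_ae (Filter.Eventually.of_forall fun q => ?_)
    simp only
    ring
  rw [h2, h3]
  linarith

/-- a function of `(x, y)` times a function of the additional noise -/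
theorem integral_m3 (F : (ι → ℝ) × (ι → ℝ) → ℝ) (g : (ι → ℝ) → ℝ) :
    ∫ q, F q.1 * g q.2 ∂(m3 P w w') = (∫ p, F p ∂(nu P w)) * ∫ b, g b ∂(gam w') :=
  integral_prod_mul F g

theorem mp_fst : MeasurePreserving Prod.fst (m3 P w w') (nu P w) :=
  measurePreserving_fst

theorem mp_snd : MeasurePreserving Prod.snd (m3 P w w') (gam w') :=
  measurePreserving_snd

theorem integral_m3_fst (F : (ι → ℝ) × (ι → ℝ) → ℝ) :
    ∫ q, F q.1 ∂(m3 P w w') = ∫ p, F p ∂(nu P w) := by
  have h := integral_m3 (P := P) w w' F (fun _ => 1)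
  simpa using h

end Imm

open Imm

theorem imm_step {ι : Type} [Fintype ι] [DecidableEq ι] {P : Measure (ι → ℝ)} {C : ℝ}
    (hP : ExpM P C) (w : ι → NNReal) (G : Finset ι) (h : NNReal) (ρ : ℝ) (hρ : 0 < ρ)
    (u : ι → ℝ) :
    (∫ p, post P w (dot u) p.2 ^ 2 ∂(nu P w)) + h / (1 + h * ρ) *
      (∫ p, (if ∑ i ∈ G, cov P w (crd i) (crd i) p.2 ≤ ρ then
        ∑ i ∈ G, cov P w (crd i) (dot u) p.2 ^ 2 else 0) ∂(nu P w)) ≤
      ∫ p, post P (addw w G h) (dot u) p.2 ^ 2 ∂(nu P (addw w G h)) := by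
  classical
  have := hP.prob
  have hu := hP.gd_dot u
  have hx : ∀ i : ι, Gd P (crd i) := fun i => hP.gd_crd i
  rw [addw_eq]
  set w' := wG G h with hw'
  set k : ℝ := 1 / (1 + h * ρ) with hk
  have hpos : 0 < 1 + (h : ℝ) * ρ := by positivity
  have hk0 : 0 ≤ k := by positivity
  -- the functions of `y`
  let I : (ι → ℝ) → ℝ := fun y => if ∑ i ∈ G, cov P w (crd i) (crd i) y ≤ ρ then 1 else 0
  let c : ι → (ι → ℝ) → ℝ := fun i y => cov P w (crd i) (dot u) y
  let M : ι → (ι → ℝ) → ℝ := fun i y => post P w (crd i) y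
  let a : (ι → ℝ) → ℝ := fun y => post P w (dot u) y
  let e : ι → (ι → ℝ) → ℝ := fun i y => I y * c i y
  have hcm : ∀ {f g : (ι → ℝ) → ℝ}, Gd P f → Gd P g → Measurable (cov P w f g) := by
    intro f g hf hg
    exact (measurable_post hP w (hf.mul hg).meas).sub
      ((measurable_post hP w hf.meas).mul (measurable_post hP w hg.meas))
  have hIm : Measurable I := by
    refine Measurable.ite ?_ measurable_const measurable_const
    exact measurableSet_le (Finset.measurable_sum _ fun i _ => hcm (hx i) (hx i))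
      measurable_const
  have hem : ∀ i, Measurable (e i) := fun i => hIm.mul (hcm (hx i) hu)
  have hIb : ∀ y, |I y| ≤ 1 := by
    intro y
    simp only [I]
    split_ifs <;> simp
  have hI2 : ∀ y, I y * I y = I y := by
    intro y
    simp only [I]
    split_ifs <;> simp
  have gI : Gd (nu P w) (fun p => I p.2) := Gd.bdd (hIm.comp measurable_snd) 1 fun p => hIb _
  have gc : ∀ i, Gd (nu P w) (fun p => c i p.2) := fun i => gd_cov hP w (hx i) hu
  have ge : ∀ i, Gd (nu P w) (fun p => e i p.2) := fun i => gI.mul (gc i)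
  have gM : ∀ i, Gd (nu P w) (fun p => M i p.2) := fun i => gd_post hP w (hx i)
  have ga : Gd (nu P w) (fun p => a p.2) := gd_post hP w hu
  have gx : ∀ i, Gd (nu P w) (fun p => crd i p.1) := fun i => Gd.nu_fst w (hx i)
  have gD : ∀ i, Gd (nu P w) (fun p => crd i p.1 - M i p.2) := fun i => (gx i).sub (gM i)
  have gu : Gd (nu P w) (fun p => dot u p.1) := Gd.nu_fst w hu
  -- the test function
  let g : (ι → ℝ) × (ι → ℝ) → ℝ := fun z =>
    a z.1 + k * ∑ i ∈ G, e i z.1 * (z.2 i - h * M i z.1)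
  have hgm : Measurable g := by
    refine ((measurable_post hP w hu.meas).comp measurable_fst).add
      (Measurable.const_mul (Finset.measurable_sum _ fun i _ => ?_) _)
    exact ((hem i).comp measurable_fst).mul (((measurable_pi_apply i).comp measurable_snd).sub
      (((measurable_post hP w (hx i).meas).comp measurable_fst).const_mul _))
  -- `U`, `V`
  let U : (ι → ℝ) × (ι → ℝ) → ℝ := fun p => ∑ i ∈ G, e i p.2 * (crd i p.1 - M i p.2)
  let V : ((ι → ℝ) × (ι → ℝ)) × (ι → ℝ) → ℝ := fun q => ∑ i ∈ G, e i q.1.2 * q.2 i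
  have gU : Gd (nu P w) U := Gd.sum _ _ fun i _ => (ge i).mul (gD i)
  have mf := mp_fst (P := P) w w'
  have ms := mp_snd (P := P) w w'
  have gb : ∀ i, Gd (gam w') (fun b => b i) := by
    intro i
    have h1 : ExpM (gam w') ((h : ℝ) / 2) := by
      refine expM_gam w' h (by positivity) fun i => ?_
      rw [hw']
      unfold wG
      split_ifs
      · exact le_rfl
      · simp
    exact h1.gd_crd i
  have lf : ∀ {F : (ι → ℝ) × (ι → ℝ) → ℝ}, Gd (nu P w) F → Gd (m3 P w w') (fun q => F q.1) :=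
    fun hF => Gd.comp mf hF
  have ls : ∀ {F : (ι → ℝ) → ℝ}, Gd (gam w') F → Gd (m3 P w w') (fun q => F q.2) :=
    fun hF => Gd.comp ms hF
  have gV : Gd (m3 P w w') V := Gd.sum _ _ fun i _ => (lf (ge i)).mul (ls (gb i))
  have hphi : ∀ q : ((ι → ℝ) × (ι → ℝ)) × (ι → ℝ), g (q.1.2, obs w' (q.1.1, q.2)) =
      a q.1.2 + k * (h * U q.1 + V q) := by
    intro q
    simp only [g, U, V]
    congr 2
    rw [Finset.mul_sum, ← Finset.sum_add_distrib]
    refine Finset.sum_congr rfl fun i hi => ?_
    have h1 : obs w' (q.1.1, q.2) i = h * crd i q.1.1 + q.2 i := by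
      simp only [obs, hw', wG, hi, if_true, crd]
    rw [h1]
    ring
  have gphi : Gd (m3 P w w') (fun q => g (q.1.2, obs w' (q.1.1, q.2))) := by
    simp only [hphi]
    exact (lf ga).add (((lf gU).const_mul h |>.add gV).const_mul k)
  have key := mmse w w' hP (dot u) hu g hgm gphi
  -- orthogonality in the noise
  have hb1 : ∀ i, ∫ b, b i ∂(gam w') = 0 := by
    intro i
    have h1 := integral_gam_dot w' (Pi.single i (1 : ℝ))
    rw [dot_crd] at h1
    exact h1
  have hFV : ∀ F : (ι → ℝ) × (ι → ℝ) → ℝ, Gd (nu P w) F →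
      ∫ q, F q.1 * V q ∂(m3 P w w') = 0 := by
    intro F hF
    have h1 : ∀ q : ((ι → ℝ) × (ι → ℝ)) × (ι → ℝ), F q.1 * V q =
        ∑ i ∈ G, (F q.1 * e i q.1.2) * q.2 i := by
      intro q
      simp only [V, Finset.mul_sum]
      exact Finset.sum_congr rfl fun i _ => by ring
    simp only [h1]
    rw [integral_finsetSum _ fun i _ => ((lf (hF.mul (ge i))).mul (ls (gb i))).integrable]
    refine Finset.sum_eq_zero fun i _ => ?_
    rw [integral_m3 (P := P) w w' (fun p => F p * e i p.2) (fun b => b i), hb1, mul_zero]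
  -- the sum `S`
  let S : ℝ := ∫ p, (∑ i ∈ G, e i p.2 * c i p.2) ∂(nu P w)
  have hS : ∫ p, (if ∑ i ∈ G, cov P w (crd i) (crd i) p.2 ≤ ρ then
        ∑ i ∈ G, cov P w (crd i) (dot u) p.2 ^ 2 else 0) ∂(nu P w) = S := by
    refine integral_congr_ae (Filter.Eventually.of_forall fun p => ?_)
    simp only [e, I, c]
    split_ifs
    · exact Finset.sum_congr rfl fun i _ => by ring
    · simp
  rw [hS]
  have g_a : Gd (nu P w) (fun p => a p.2) := ga
  -- orthogonality for the posterior
  have tow0 : ∀ b : (ι → ℝ) → ℝ, Gd (nu P w) (fun p => b p.2) → ∀ i,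
      ∫ p, b p.2 * (crd i p.1 - M i p.2) ∂(nu P w) = 0 := by
    intro b hb i
    have h1 := tower hP w (hx i) hb
    have h2 : ∀ p : (ι → ℝ) × (ι → ℝ), b p.2 * (crd i p.1 - M i p.2) =
        b p.2 * crd i p.1 - b p.2 * M i p.2 := fun p => by ring
    simp only [h2]
    rw [integral_sub (hb.mul (gx i)).integrable (hb.mul (gM i)).integrable, h1]
    exact sub_self _
  have hbU : ∀ b : (ι → ℝ) → ℝ, Gd (nu P w) (fun p => b p.2) →
      ∫ p, b p.2 * U p ∂(nu P w) = 0 := by
    intro b hb
    have h1 : ∀ p : (ι → ℝ) × (ι → ℝ), b p.2 * U p =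
        ∑ i ∈ G, (b p.2 * e i p.2) * (crd i p.1 - M i p.2) := by
      intro p
      simp only [U, Finset.mul_sum]
      exact Finset.sum_congr rfl fun i _ => by ring
    simp only [h1]
    rw [integral_finsetSum _ fun i _ => ((hb.mul (ge i)).mul (gD i)).integrable]
    exact Finset.sum_eq_zero fun i _ => tow0 (fun y => b y * e i y) (hb.mul (ge i)) i
  -- `E[a f] = E[a²]`
  have haf : ∫ p, a p.2 * dot u p.1 ∂(nu P w) = ∫ p, a p.2 ^ 2 ∂(nu P w) := by
    rw [tower hP w hu ga]
    refine integral_congr_ae (Filter.Eventually.of_forall fun p => ?_)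
    simp only [a]
    ring
  -- `E[U f] = S`
  have hUf : ∫ p, U p * dot u p.1 ∂(nu P w) = S := by
    have h1 : ∀ p : (ι → ℝ) × (ι → ℝ), U p * dot u p.1 =
        (∑ i ∈ G, e i p.2 * ((crd i p.1 - M i p.2) * (dot u p.1 - a p.2))) + a p.2 * U p := by
      intro p
      simp only [U, Finset.sum_mul, Finset.mul_sum]
      rw [← Finset.sum_add_distrib]
      exact Finset.sum_congr rfl fun i _ => by ring
    have gi : ∀ i, Gd (nu P w) (fun p => e i p.2 * ((crd i p.1 - M i p.2) *
        (dot u p.1 - a p.2))) := fun i => (ge i).mul ((gD i).mul (gu.sub ga))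
    simp only [h1]
    rw [integral_add (Gd.sum _ _ fun i _ => gi i).integrable (ga.mul gU).integrable,
      hbU a ga, add_zero, integral_finsetSum _ fun i _ => (gi i).integrable]
    simp only [S]
    rw [integral_finsetSum _ fun i _ => ((ge i).mul (gc i)).integrable]
    exact Finset.sum_congr rfl fun i _ => tower_cov hP w (hx i) hu (ge i)
  -- `E[U²] ≤ ρ S`
  have hUU : ∫ p, U p * U p ∂(nu P w) ≤ ρ * S := by
    have h1 : ∀ p : (ι → ℝ) × (ι → ℝ), U p * U p =
        ∑ i ∈ G, ∑ j ∈ G, (e i p.2 * e j p.2) *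
          ((crd i p.1 - M i p.2) * (crd j p.1 - M j p.2)) := by
      intro p
      simp only [U, Finset.sum_mul_sum]
      exact Finset.sum_congr rfl fun i _ => Finset.sum_congr rfl fun j _ => by ring
    have gij : ∀ i j, Gd (nu P w) (fun p => (e i p.2 * e j p.2) *
          ((crd i p.1 - M i p.2) * (crd j p.1 - M j p.2))) := fun i j =>
      ((ge i).mul (ge j)).mul ((gD i).mul (gD j))
    have gij' : ∀ i j, Gd (nu P w) (fun p => (e i p.2 * e j p.2) *
          cov P w (crd i) (crd j) p.2) := fun i j =>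
      ((ge i).mul (ge j)).mul (gd_cov hP w (hx i) (hx j))
    simp only [h1]
    rw [integral_finsetSum _ fun i _ => (Gd.sum _ _ fun j _ => gij i j).integrable]
    have h2 : ∀ i ∈ G, ∫ p, (∑ j ∈ G, (e i p.2 * e j p.2) *
          ((crd i p.1 - M i p.2) * (crd j p.1 - M j p.2))) ∂(nu P w) =
        ∫ p, (∑ j ∈ G, (e i p.2 * e j p.2) * cov P w (crd i) (crd j) p.2) ∂(nu P w) := by
      intro i _
      rw [integral_finsetSum _ fun j _ => (gij i j).integrable,
        integral_finsetSum _ fun j _ => (gij' i j).integrable]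
      exact Finset.sum_congr rfl fun j _ =>
        tower_cov hP w (g := fun y => e i y * e j y) (hx i) (hx j) ((ge i).mul (ge j))
    rw [Finset.sum_congr rfl h2,
      ← integral_finsetSum _ fun i _ => (Gd.sum _ _ fun j _ => gij' i j).integrable]
    simp only [S]
    rw [← integral_const_mul]
    refine integral_mono (Gd.sum _ _ fun i _ => Gd.sum _ _ fun j _ => gij' i j).integrable
      ((Gd.sum _ _ fun i _ => (ge i).mul (gc i)).const_mul ρ).integrable fun p => ?_
    simp only [e, I]
    split_ifs with hτ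
    · -- Cauchy-Schwarz
      have hv : ∀ i, 0 ≤ cov P w (crd i) (crd i) p.2 := fun i =>
        cov_self_nonneg hP w (hx i) _
      have h3 : ∀ i ∈ G, ∀ j ∈ G, c i p.2 * c j p.2 * cov P w (crd i) (crd j) p.2 ≤
          (|c i p.2| * Real.sqrt (cov P w (crd i) (crd i) p.2)) *
          (|c j p.2| * Real.sqrt (cov P w (crd j) (crd j) p.2)) := by
        intro i _ j _
        have h4 := cov_sq_le hP w (hx i) (hx j) p.2
        have h5 : |cov P w (crd i) (crd j) p.2| ≤ Real.sqrt (cov P w (crd i) (crd i) p.2) *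
            Real.sqrt (cov P w (crd j) (crd j) p.2) := by
          rw [← Real.sqrt_mul (hv i)]
          exact Real.abs_le_sqrt h4
        calc c i p.2 * c j p.2 * cov P w (crd i) (crd j) p.2
            ≤ |c i p.2 * c j p.2 * cov P w (crd i) (crd j) p.2| := le_abs_self _
          _ = |c i p.2| * |c j p.2| * |cov P w (crd i) (crd j) p.2| := by
            rw [abs_mul, abs_mul]
          _ ≤ |c i p.2| * |c j p.2| * (Real.sqrt (cov P w (crd i) (crd i) p.2) *
            Real.sqrt (cov P w (crd j) (crd j) p.2)) := by gcongr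
          _ = _ := by ring
      calc ∑ i ∈ G, ∑ j ∈ G, 1 * c i p.2 * (1 * c j p.2) * cov P w (crd i) (crd j) p.2
          = ∑ i ∈ G, ∑ j ∈ G, c i p.2 * c j p.2 * cov P w (crd i) (crd j) p.2 := by
            simp only [one_mul]
        _ ≤ ∑ i ∈ G, ∑ j ∈ G, (|c i p.2| * Real.sqrt (cov P w (crd i) (crd i) p.2)) *
          (|c j p.2| * Real.sqrt (cov P w (crd j) (crd j) p.2)) :=
            Finset.sum_le_sum fun i hi => Finset.sum_le_sum fun j hj => h3 i hi j hj
        _ = (∑ i ∈ G, |c i p.2| * Real.sqrt (cov P w (crd i) (crd i) p.2)) ^ 2 := by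
            rw [pow_two, Finset.sum_mul_sum]
        _ ≤ (∑ i ∈ G, |c i p.2| ^ 2) *
            ∑ i ∈ G, Real.sqrt (cov P w (crd i) (crd i) p.2) ^ 2 :=
            Finset.sum_mul_sq_le_sq_mul_sq _ _ _
        _ = (∑ i ∈ G, c i p.2 * c i p.2) * ∑ i ∈ G, cov P w (crd i) (crd i) p.2 := by
            congr 1
            · exact Finset.sum_congr rfl fun i _ => by rw [sq_abs]; ring
            · exact Finset.sum_congr rfl fun i _ => Real.sq_sqrt (hv i)
        _ ≤ (∑ i ∈ G, c i p.2 * c i p.2) * ρ :=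
            mul_le_mul_of_nonneg_left hτ (Finset.sum_nonneg fun i _ => mul_self_nonneg _)
        _ = _ := by
            simp only [one_mul]
            ring
    · simp
  -- `E[V²] = h S`
  have hVV : ∫ q, V q * V q ∂(m3 P w w') = h * S := by
    have h1 : ∫ q, V q * V q ∂(m3 P w w') = ∫ p, (∫ b, V (p, b) * V (p, b) ∂(gam w')) ∂(nu P w) :=
      integral_prod _ (gV.mul gV).integrable
    rw [h1]
    simp only [S]
    rw [← integral_const_mul]
    refine integral_congr_ae (Filter.Eventually.of_forall fun p => ?_)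
    simp only
    have h2 := integral_gam_sq w' (fun i => if i ∈ G then e i p.2 else 0)
    have h3 : ∀ b : ι → ℝ, V (p, b) * V (p, b) =
        dot (fun i => if i ∈ G then e i p.2 else 0) b ^ 2 := by
      intro b
      have h4 : V (p, b) = dot (fun i => if i ∈ G then e i p.2 else 0) b := by
        simp only [V, dot, ite_mul, zero_mul]
        rw [Finset.sum_ite_mem, Finset.univ_inter]
      rw [h4]
      ring
    simp only [h3]
    rw [h2, Finset.mul_sum]
    have h5 : ∀ i, (w' i : ℝ) * (if i ∈ G then e i p.2 else 0) ^ 2 =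
        if i ∈ G then (h : ℝ) * (e i p.2 * c i p.2) else 0 := by
      intro i
      by_cases hi : i ∈ G
      · simp only [hw', wG, hi, if_true, e]
        have := hI2 p.2
        linear_combination (h : ℝ) * c i p.2 ^ 2 * this
      · simp [hi]
    simp only [h5]
    rw [Finset.sum_ite_mem, Finset.univ_inter]
  -- the two expectations
  have E1 : ∫ q, g (q.1.2, obs w' (q.1.1, q.2)) * dot u q.1.1 ∂(m3 P w w') =
      (∫ p, a p.2 ^ 2 ∂(nu P w)) + k * (h * S) := by
    have h1 : ∀ q : ((ι → ℝ) × (ι → ℝ)) × (ι → ℝ),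
        g (q.1.2, obs w' (q.1.1, q.2)) * dot u q.1.1 =
        (a q.1.2 * dot u q.1.1 + (k * h) * (U q.1 * dot u q.1.1)) +
          k * (dot u q.1.1 * V q) := by
      intro q
      rw [hphi]
      ring
    simp only [h1]
    rw [integral_add ((lf (ga.mul gu)).add ((lf (gU.mul gu)).const_mul (k * h))).integrable
      (((lf gu).mul gV).const_mul k).integrable, integral_add (lf (ga.mul gu)).integrable
      ((lf (gU.mul gu)).const_mul (k * h)).integrable, integral_const_mul, integral_const_mul,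
      hFV (fun p => dot u p.1) gu,
      integral_m3_fst (P := P) w w' (fun p => a p.2 * dot u p.1),
      integral_m3_fst (P := P) w w' (fun p => U p * dot u p.1), haf, hUf]
    ring
  have E2 : ∫ q, g (q.1.2, obs w' (q.1.1, q.2)) ^ 2 ∂(m3 P w w') =
      (∫ p, a p.2 ^ 2 ∂(nu P w)) + (k ^ 2 * h ^ 2) * (∫ p, U p * U p ∂(nu P w)) +
        k ^ 2 * (h * S) := by
    have h1 : ∀ q : ((ι → ℝ) × (ι → ℝ)) × (ι → ℝ), g (q.1.2, obs w' (q.1.1, q.2)) ^ 2 =
        (((a q.1.2 ^ 2 + (2 * k * h) * (a q.1.2 * U q.1)) + (k ^ 2 * h ^ 2) * (U q.1 * U q.1)) +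
          k ^ 2 * (V q * V q)) + ((2 * k) * (a q.1.2 * V q) +
          (2 * k ^ 2 * h) * (U q.1 * V q)) := by
      intro q
      rw [hphi]
      ring
    have g1 := lf (ga.pow 2)
    have g2 := (lf (ga.mul gU)).const_mul (2 * k * h)
    have g3 := (lf (gU.mul gU)).const_mul (k ^ 2 * h ^ 2)
    have g4 := (gV.mul gV).const_mul (k ^ 2)
    have g5 := ((lf ga).mul gV).const_mul (2 * k)
    have g6 := ((lf gU).mul gV).const_mul (2 * k ^ 2 * h)
    simp only [h1]
    rw [integral_add (((g1.add g2).add g3).add g4).integrable (g5.add g6).integrable,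
      integral_add ((g1.add g2).add g3).integrable g4.integrable,
      integral_add (g1.add g2).integrable g3.integrable,
      integral_add g1.integrable g2.integrable,
      integral_add g5.integrable g6.integrable,
      integral_const_mul, integral_const_mul, integral_const_mul, integral_const_mul,
      integral_const_mul, hFV (fun p => a p.2) ga, hFV U gU, hVV,
      integral_m3_fst (P := P) w w' (fun p => a p.2 ^ 2),
      integral_m3_fst (P := P) w w' (fun p => a p.2 * U p),
      integral_m3_fst (P := P) w w' (fun p => U p * U p), hbU a ga]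
    ring
  rw [E1, E2] at key
  refine le_trans (le_of_sub_nonneg ?_) key
  have hkk : k * (1 + h * ρ) = 1 := by
    rw [hk]
    field_simp
  have hkh : (h : ℝ) / (1 + h * ρ) = k * h := by
    rw [hk]
    ring
  rw [hkh]
  have hA : ∫ p, post P w (dot u) p.2 ^ 2 ∂(nu P w) = ∫ p, a p.2 ^ 2 ∂(nu P w) := rfl
  rw [hA]
  have h6 : (k ^ 2 * (h : ℝ) ^ 2) * (∫ p, U p * U p ∂(nu P w)) ≤
      (k ^ 2 * (h : ℝ) ^ 2) * (ρ * S) :=
    mul_le_mul_of_nonneg_left hUU (by positivity)
  have h7 : (k ^ 2 * (h : ℝ) ^ 2) * (ρ * S) + k ^ 2 * (h * S) = k * h * S := by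
    linear_combination (k * h * S) * hkk
  nlinarith [h6, h7]

end FULL
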