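import Pool.Agent.Lib.MP_8a5982_an.FULL.Gdc
import Pool.Agent.Lib.MP_8a5982_an.FULL.Gauss

/-!
Project FULL, module MP: the Maurey-Pisier inequality.
-/

open MeasureTheory ProbabilityTheory Filter Topology

namespace FULL

section mp
variable {κ : Type} [Fintype κ]

/-- rotations preserve the square of the standard Gaussian measure -/
theorem mp_rot (θ : ℝ) : MeasurePreserving
    (fun p : (κ → ℝ) × (κ → ℝ) => (Real.cos θ • p.1 + Real.sin θ • p.2,
      (-Real.sin θ) • p.1 + Real.cos θ • p.2))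
    ((gam fun _ : κ => 1).prod (gam fun _ : κ => 1))
    ((gam fun _ : κ => 1).prod (gam fun _ : κ => 1)) := by
  have h1 : MeasurePreserving (fun p : ℝ × ℝ => (Real.cos θ * p.1 + Real.sin θ * p.2,
      (-Real.sin θ) * p.1 + Real.cos θ * p.2))
      ((gaussianReal 0 1).prod (gaussianReal 0 1)) ((gaussianReal 0 1).prod (gaussianReal 0 1)) := by
    refine ⟨by fun_prop, ?_⟩
    have := IsGaussian.map_rotation_eq_self (μ := gaussianReal 0 1)
      (by simp [integral_id_gaussianReal]) θ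
    rw [← this]
    congr 1
  have h2 := measurePreserving_pi (fun _ : κ => (gaussianReal 0 1).prod (gaussianReal 0 1))
    (fun _ : κ => (gaussianReal 0 1).prod (gaussianReal 0 1)) (fun _ : κ => h1)
  have h3 := measurePreserving_arrowProdEquivProdArrow ℝ ℝ κ (fun _ => gaussianReal 0 1)
    (fun _ => gaussianReal 0 1)
  exact (h3.comp h2).comp h3.symm

theorem mp_cont_dot : Continuous (fun p : (κ → ℝ) × (κ → ℝ) => dot p.1 p.2) := by
  unfold dot
  fun_prop

theorem mp_dot_smul_add (u ξ η : κ → ℝ) (a b : ℝ) :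
    dot u (a • ξ + b • η) = a * dot u ξ + b * dot u η := by
  unfold dot
  rw [Finset.mul_sum, Finset.mul_sum, ← Finset.sum_add_distrib]
  refine Finset.sum_congr rfl fun i _ => ?_
  simp only [Pi.add_apply, Pi.smul_apply, smul_eq_mul]
  ring

/-- The general form -/
theorem mp_gen (f : (κ → ℝ) → ℝ) (Gr : (κ → ℝ) → κ → ℝ) (hf : Continuous f)
    (hGr : Continuous Gr) (M : ℝ) (hM : ∀ ξ, |f ξ| ≤ M)
    (hd : ∀ ξ η : κ → ℝ, ∀ θ : ℝ, HasDerivAt (fun θ : ℝ => f (Real.cos θ • ξ + Real.sin θ • η))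
      (dot (Gr (Real.cos θ • ξ + Real.sin θ • η)) ((-Real.sin θ) • ξ + Real.cos θ • η)) θ)
    (V : ℝ) (hV : ∀ ξ, nsq (Gr ξ) ≤ V) :
    ∫ ξ, Real.exp (f ξ - ∫ η, f η ∂(gam (fun _ : κ => 1))) ∂(gam (fun _ : κ => 1)) ≤
      Real.exp (Real.pi ^ 2 / 8 * V) := by
  set γ := gam (fun _ : κ => 1) with hγ
  have : IsProbabilityMeasure γ := isProbability_gam _
  have hbd : ∀ (h : (κ → ℝ) → ℝ), Continuous h → ∀ C : ℝ, (∀ ξ, |h ξ| ≤ C) → Integrable h γ := by
    intro h hc C hC
    exact Integrable.of_bound hc.aestronglyMeasurable C (ae_of_all _ fun ξ => by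
      simpa [Real.norm_eq_abs] using hC ξ)
  have hfi : Integrable f γ := hbd f hf M hM
  have hexpi : ∀ ξ, Integrable (fun η => Real.exp (f ξ - f η)) γ := by
    intro ξ
    refine hbd _ (by fun_prop) (Real.exp (2 * M)) fun η => ?_
    rw [abs_of_pos (Real.exp_pos _)]
    refine Real.exp_le_exp.2 ?_
    have h1 := abs_le.1 (hM ξ)
    have h2 := abs_le.1 (hM η)
    linarith [h1.2, h2.1]
  -- step 1
  have h1 : ∀ ξ, ENNReal.ofReal (Real.exp (f ξ - ∫ η, f η ∂γ)) ≤
      ∫⁻ η, ENNReal.ofReal (Real.exp (f ξ - f η)) ∂γ := by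
    intro ξ
    rw [← ofReal_integral_eq_lintegral_ofReal (hexpi ξ) (ae_of_all _ fun η => (Real.exp_pos _).le)]
    refine ENNReal.ofReal_le_ofReal ?_
    have hJ := ConvexOn.map_integral_le (μ := γ) (f := fun η => f ξ - f η) (g := Real.exp)
      (s := Set.univ) convexOn_exp Real.continuous_exp.continuousOn isClosed_univ (by simp)
      ((integrable_const _).sub hfi) (hexpi ξ)
    rwa [integral_sub (integrable_const _) hfi, integral_const, probReal_univ, one_smul] at hJ
  -- step 2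
  set ρ : Measure ℝ := ENNReal.ofReal (2 / Real.pi) • (volume.restrict (Set.Ioc 0 (Real.pi / 2)))
    with hρ
  have : IsProbabilityMeasure ρ := by
    refine ⟨?_⟩
    rw [hρ, Measure.smul_apply, Measure.restrict_apply_univ, Real.volume_Ioc, smul_eq_mul,
      ← ENNReal.ofReal_mul (by positivity)]
    rw [show 2 / Real.pi * (Real.pi / 2 - 0) = 1 by field_simp; ring]
    exact ENNReal.ofReal_one
  have hρi : ∀ h : ℝ → ℝ, Continuous h → Integrable h ρ := by
    intro h hc
    refine Integrable.smul_measure ?_ ENNReal.ofReal_ne_top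
    exact (hc.integrableOn_Icc (a := 0) (b := Real.pi / 2)).mono_set Set.Ioc_subset_Icc_self
  obtain ⟨H, hH⟩ : ∃ H : ℝ → (κ → ℝ) × (κ → ℝ) → ℝ, ∀ θ p, H θ p =
    -(Real.pi / 2) * dot (Gr (Real.cos θ • p.1 + Real.sin θ • p.2))
      ((-Real.sin θ) • p.1 + Real.cos θ • p.2) := ⟨_, fun _ _ => rfl⟩
  have hHc : Continuous (fun q : ℝ × ((κ → ℝ) × (κ → ℝ)) => H q.1 q.2) := by
    simp only [hH]
    refine continuous_const.mul (mp_cont_dot.comp (Continuous.prodMk (hGr.comp ?_) ?_)) <;>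
    fun_prop
  have hHp : ∀ p : (κ → ℝ) × (κ → ℝ), Continuous (fun θ => H θ p) := fun p =>
    hHc.comp (Continuous.prodMk continuous_id continuous_const)
  have h2 : ∀ p : (κ → ℝ) × (κ → ℝ), ENNReal.ofReal (Real.exp (f p.1 - f p.2)) ≤
      ∫⁻ θ, ENNReal.ofReal (Real.exp (H θ p)) ∂ρ := by
    intro p
    have hei : Integrable (fun θ => Real.exp (H θ p)) ρ := hρi _ (Real.continuous_exp.comp (hHp p))
    rw [← ofReal_integral_eq_lintegral_ofReal hei (ae_of_all _ fun η => (Real.exp_pos _).le)]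
    refine ENNReal.ofReal_le_ofReal ?_
    have hJ := ConvexOn.map_integral_le (μ := ρ) (f := fun θ => H θ p) (g := Real.exp)
      (s := Set.univ) convexOn_exp Real.continuous_exp.continuousOn isClosed_univ (by simp)
      (hρi _ (hHp p)) hei
    refine le_trans (le_of_eq ?_) hJ
    congr 1
    have hft := intervalIntegral.integral_eq_sub_of_hasDerivAt (a := 0) (b := Real.pi / 2)
      (fun θ _ => hd p.1 p.2 θ) (Continuous.intervalIntegrable (by
        refine mp_cont_dot.comp (Continuous.prodMk (hGr.comp ?_) ?_) <;> fun_prop) _ _)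
    simp only [Real.cos_pi_div_two, Real.sin_pi_div_two, Real.cos_zero, Real.sin_zero, zero_smul,
      one_smul, zero_add, add_zero] at hft
    rw [hρ, integral_smul_measure, ← intervalIntegral.integral_of_le (by positivity)]
    simp only [hH]
    rw [intervalIntegral.integral_const_mul, hft, ENNReal.toReal_ofReal (by positivity), smul_eq_mul]
    have := Real.pi_pos
    field_simp
    ring
  -- step 3
  have h3 : ∀ θ, ∫⁻ p, ENNReal.ofReal (Real.exp (H θ p)) ∂(γ.prod γ) ≤
      ENNReal.ofReal (Real.exp (Real.pi ^ 2 / 8 * V)) := by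
    intro θ
    have hmp := mp_rot (κ := κ) θ
    have hc : Continuous (fun p : (κ → ℝ) × (κ → ℝ) =>
        Real.exp (-(Real.pi / 2) * dot (Gr p.1) p.2)) :=
      Real.continuous_exp.comp (continuous_const.mul
        (mp_cont_dot.comp (Continuous.prodMk (hGr.comp continuous_fst) continuous_snd)))
    have hm : Measurable (fun p : (κ → ℝ) × (κ → ℝ) =>
        ENNReal.ofReal (Real.exp (-(Real.pi / 2) * dot (Gr p.1) p.2))) :=
      hc.measurable.ennreal_ofReal
    have := hmp.lintegral_comp hm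
    simp only [hH]
    rw [this, lintegral_prod _ hm.aemeasurable]
    have hin : ∀ ξ : κ → ℝ, ∫⁻ η, ENNReal.ofReal (Real.exp (-(Real.pi / 2) * dot (Gr ξ) η)) ∂γ ≤
        ENNReal.ofReal (Real.exp (Real.pi ^ 2 / 8 * V)) := by
      intro ξ
      have he : ∀ η : κ → ℝ, -(Real.pi / 2) * dot (Gr ξ) η = dot ((-(Real.pi / 2)) • Gr ξ) η := by
        intro η
        rw [dot_smul]
      simp only [he]
      rw [← ofReal_integral_eq_lintegral_ofReal ((expM_gam (fun _ : κ => 1) 1 zero_le_one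
        (by simp)).int _) (ae_of_all _ fun η => (Real.exp_pos _).le), integral_exp_gam]
      refine ENNReal.ofReal_le_ofReal (Real.exp_le_exp.2 ?_)
      have h5 : (∑ i, ((1 : NNReal) : ℝ) * ((-(Real.pi / 2)) • Gr ξ) i ^ 2) =
          (Real.pi ^ 2 / 4) * nsq (Gr ξ) := by
        unfold nsq
        rw [Finset.mul_sum]
        refine Finset.sum_congr rfl fun i _ => ?_
        simp only [Pi.smul_apply, smul_eq_mul, NNReal.coe_one]
        ring
      rw [h5]
      have := hV ξ
      nlinarith [sq_nonneg Real.pi, Real.pi_pos, mul_le_mul_of_nonneg_left this (sq_nonneg Real.pi)]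
    calc _ ≤ ∫⁻ _ : κ → ℝ, ENNReal.ofReal (Real.exp (Real.pi ^ 2 / 8 * V)) ∂γ :=
          lintegral_mono hin
      _ = _ := by simp
  -- conclusion
  have h4 : ∫⁻ ξ, ENNReal.ofReal (Real.exp (f ξ - ∫ η, f η ∂γ)) ∂γ ≤
      ENNReal.ofReal (Real.exp (Real.pi ^ 2 / 8 * V)) := by
    calc ∫⁻ ξ, ENNReal.ofReal (Real.exp (f ξ - ∫ η, f η ∂γ)) ∂γ
        ≤ ∫⁻ ξ, ∫⁻ η, ENNReal.ofReal (Real.exp (f ξ - f η)) ∂γ ∂γ := lintegral_mono h1
      _ = ∫⁻ p, ENNReal.ofReal (Real.exp (f p.1 - f p.2)) ∂(γ.prod γ) := by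
          rw [lintegral_prod _ (Measurable.aemeasurable (by fun_prop))]
      _ ≤ ∫⁻ p, ∫⁻ θ, ENNReal.ofReal (Real.exp (H θ p)) ∂ρ ∂(γ.prod γ) := lintegral_mono h2
      _ = ∫⁻ θ, ∫⁻ p, ENNReal.ofReal (Real.exp (H θ p)) ∂(γ.prod γ) ∂ρ := by
          rw [lintegral_lintegral_swap]
          have := (Real.continuous_exp.comp hHc).measurable.ennreal_ofReal
          exact (this.comp measurable_swap).aemeasurable
      _ ≤ ∫⁻ _, ENNReal.ofReal (Real.exp (Real.pi ^ 2 / 8 * V)) ∂ρ := lintegral_mono h3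
      _ = _ := by simp
  rw [integral_eq_lintegral_of_nonneg_ae (ae_of_all _ fun ξ => (Real.exp_pos _).le)
    (Continuous.aestronglyMeasurable (by fun_prop))]
  exact ENNReal.toReal_le_of_le_ofReal (Real.exp_pos _).le h4

end mp

theorem maurey_pisier {κ : Type} [Fintype κ] (W : ℕ) (v : ℕ → κ → ℝ) (κ₀ : ℝ)
    (hv : ∀ b : ℕ → ℝ, nsq (∑ t ∈ Finset.range W, b t • v t) ≤
      κ₀ * ∑ t ∈ Finset.range W, b t ^ 2)
    (g g' : ℝ → ℝ) (hg : ∀ x, HasDerivAt g (g' x) x) (hg' : Continuous g') (Λ : ℝ)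
    (hΛ : ∀ x, |g' x| ≤ Λ) (Mg : ℝ) (hMg : ∀ x, |g x| ≤ Mg) (β : ℕ → ℝ) (lam : ℝ) :
    ∫ ξ, Real.exp (lam * ∑ t ∈ Finset.range W, β t * (g (dot (v t) ξ) -
        ∫ η, g (dot (v t) η) ∂(gam (fun _ : κ => 1)))) ∂(gam (fun _ : κ => 1)) ≤
      Real.exp (lam ^ 2 * (Real.pi ^ 2 / 8) * κ₀ * Λ ^ 2 * ∑ t ∈ Finset.range W, β t ^ 2) := by
  have hgc : Continuous g := continuous_iff_continuousAt.2 fun x => (hg x).continuousAt
  have : IsProbabilityMeasure (gam (fun _ : κ => 1)) := isProbability_gam _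
  have hdc : ∀ u : κ → ℝ, Continuous (dot u) := fun u => by unfold dot; fun_prop
  have hgi : ∀ t, Integrable (fun η => g (dot (v t) η)) (gam (fun _ : κ => 1)) := by
    intro t
    exact Integrable.of_bound (hgc.comp (hdc _)).aestronglyMeasurable Mg (ae_of_all _ fun ξ => by
      simpa [Real.norm_eq_abs] using hMg _)
  have hκ : W = 0 ∨ 0 ≤ κ₀ := by
    rcases Nat.eq_zero_or_pos W with h | h
    · exact Or.inl h
    · right
      have h1 := hv (fun t => if t = 0 then 1 else 0)
      have h2 : ∑ t ∈ Finset.range W, (if t = 0 then (1 : ℝ) else 0) ^ 2 = 1 := by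
        rw [Finset.sum_eq_single 0]
        · simp
        · intro b _ hb
          simp [hb]
        · intro hb
          exact absurd (Finset.mem_range.2 h) hb
      rw [h2] at h1
      linarith [nsq_nonneg (∑ t ∈ Finset.range W, (if t = 0 then (1 : ℝ) else 0) • v t)]
  have hmain := mp_gen (κ := κ) (fun ξ => lam * ∑ t ∈ Finset.range W, β t * g (dot (v t) ξ))
    (fun ξ => ∑ t ∈ Finset.range W, (lam * β t * g' (dot (v t) ξ)) • v t)
    (by
      refine continuous_const.mul (continuous_finsetSum _ fun t _ => ?_)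
      exact continuous_const.mul (hgc.comp (hdc _)))
    (by
      refine continuous_finsetSum _ fun t _ => ?_
      exact ((continuous_const.mul (hg'.comp (hdc _))).smul continuous_const))
    (|lam| * ∑ t ∈ Finset.range W, |β t| * Mg)
    (by
      intro ξ
      rw [abs_mul]
      refine mul_le_mul_of_nonneg_left ((Finset.abs_sum_le_sum_abs _ _).trans
        (Finset.sum_le_sum fun t _ => ?_)) (abs_nonneg _)
      rw [abs_mul]
      exact mul_le_mul_of_nonneg_left (hMg _) (abs_nonneg _))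
    (by
      intro ξ η θ
      have h1 : ∀ t, HasDerivAt (fun θ : ℝ => dot (v t) (Real.cos θ • ξ + Real.sin θ • η))
          (dot (v t) ((-Real.sin θ) • ξ + Real.cos θ • η)) θ := by
        intro t
        simp only [mp_dot_smul_add]
        exact ((Real.hasDerivAt_cos θ).mul_const _).add ((Real.hasDerivAt_sin θ).mul_const _)
      have h2 : ∀ t, HasDerivAt (fun θ : ℝ => β t * g (dot (v t) (Real.cos θ • ξ + Real.sin θ • η)))
          (β t * (g' (dot (v t) (Real.cos θ • ξ + Real.sin θ • η)) *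
            dot (v t) ((-Real.sin θ) • ξ + Real.cos θ • η))) θ := by
        intro t
        exact ((hg _).comp θ (h1 t)).const_mul _
      have h3 := (HasDerivAt.fun_sum (u := Finset.range W) (fun t _ => h2 t)).const_mul lam
      refine h3.congr_deriv ?_
      rw [dot_sum, Finset.mul_sum]
      refine Finset.sum_congr rfl fun t _ => ?_
      rw [dot_smul]
      ring)
    (lam ^ 2 * κ₀ * Λ ^ 2 * ∑ t ∈ Finset.range W, β t ^ 2)
    (by
      intro ξ
      rcases hκ with h0 | h0
      · subst h0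
        simp [nsq]
      refine (hv _).trans ?_
      have h4 : ∑ t ∈ Finset.range W, (lam * β t * g' (dot (v t) ξ)) ^ 2 ≤
          lam ^ 2 * Λ ^ 2 * ∑ t ∈ Finset.range W, β t ^ 2 := by
        rw [Finset.mul_sum]
        refine Finset.sum_le_sum fun t _ => ?_
        have h5 : g' (dot (v t) ξ) ^ 2 ≤ Λ ^ 2 := by
          rw [← sq_abs]
          exact pow_le_pow_left₀ (abs_nonneg _) (hΛ _) 2
        calc (lam * β t * g' (dot (v t) ξ)) ^ 2 = (lam ^ 2 * β t ^ 2) * g' (dot (v t) ξ) ^ 2 := by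
              ring
          _ ≤ (lam ^ 2 * β t ^ 2) * Λ ^ 2 := mul_le_mul_of_nonneg_left h5 (by positivity)
          _ = _ := by ring
      calc _ ≤ κ₀ * (lam ^ 2 * Λ ^ 2 * ∑ t ∈ Finset.range W, β t ^ 2) :=
            mul_le_mul_of_nonneg_left h4 h0
        _ = _ := by ring)
  refine le_trans (le_of_eq ?_) (hmain.trans (le_of_eq ?_))
  · congr 1
    funext ξ
    congr 1
    rw [integral_const_mul, integral_finsetSum _ (fun t _ => (hgi t).const_mul _), ← mul_sub,
      ← Finset.sum_sub_distrib]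
    congr 1
    refine Finset.sum_congr rfl fun t _ => ?_
    rw [integral_const_mul, mul_sub]
  · congr 1
    ring

end FULL
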