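import Pool.Agent.Lib.MP_8a5982_an.FULL.Gibbs
import Pool.Agent.Lib.MP_8a5982_an.FULL.Mp
import Pool.Agent.Lib.MP_8a5982_an.FULL.Adm
import Pool.Agent.Lib.MP_8a5982_an.FULL.Post1

/-!
Project FULL, module INF1: the posterior means of bounded functions of at most two of the
vectors are close to the means (Paper 4.3).
-/

open MeasureTheory ProbabilityTheory Filter Topology

namespace FULL

theorem opt_aux {z a H : ℝ} (ha : 0 ≤ a) (hH : 0 ≤ H)
    (h : ∀ lam : ℝ, 0 < lam → z ≤ lam * a + H / lam) : z ≤ 2 * (Real.sqrt a * Real.sqrt H) := by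
  rcases ha.eq_or_lt with ha0 | ha0
  · rw [← ha0, Real.sqrt_zero, zero_mul, mul_zero]
    by_contra hz
    push Not at hz
    have h1 := h ((H + 1) / z) (by positivity)
    rw [← ha0, mul_zero, zero_add, div_div_eq_mul_div, le_div_iff₀ (by linarith)] at h1
    nlinarith
  · rcases hH.eq_or_lt with hH0 | hH0
    · rw [← hH0, Real.sqrt_zero, mul_zero, mul_zero]
      by_contra hz
      push Not at hz
      have h1 := h (z / (a + 1)) (by positivity)
      rw [← hH0, zero_div, add_zero, div_mul_eq_mul_div, le_div_iff₀ (by linarith)] at h1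
      nlinarith
    · have hsa := Real.sqrt_pos.2 ha0
      have hsH := Real.sqrt_pos.2 hH0
      have h1 := h (Real.sqrt H / Real.sqrt a) (by positivity)
      have h2 := Real.mul_self_sqrt ha
      have h3 := Real.mul_self_sqrt hH
      have e1 : Real.sqrt H / Real.sqrt a * a = Real.sqrt a * Real.sqrt H := by
        rw [div_mul_eq_mul_div, div_eq_iff hsa.ne']
        nlinarith
      have e2 : H / (Real.sqrt H / Real.sqrt a) = Real.sqrt a * Real.sqrt H := by
        rw [div_div_eq_mul_div, div_eq_iff hsH.ne']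
        nlinarith
      rw [e1, e2] at h1
      linarith

theorem info_one {n : ℕ} {κ : Type} [Fintype κ] [DecidableEq κ] {P : Measure (Fin n × κ → ℝ)}
    (hP : Adm n P) (S : Finset (Fin n)) (hS : S.card ≤ 2) (w : Fin n × κ → NNReal)
    (l : ℤ → Fin n × κ → ℝ) (W : ℕ) (hW : 0 < W) (κ₀ : ℝ)
    (hl : ∀ b : ℕ → ℝ, nsq (∑ t ∈ Finset.range W, b t • l (t : ℤ)) ≤
      κ₀ * ∑ t ∈ Finset.range W, b t ^ 2)
    (g g' : ℝ → ℝ) (hg : ∀ x, HasDerivAt g (g' x) x) (hg' : Continuous g') (Λ : ℝ)
    (hΛ : ∀ x, |g' x| ≤ Λ) (Mg : ℝ) (hMg : ∀ x, |g x| ≤ Mg) :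
    (1 / (W : ℝ)) * ∑ t ∈ Finset.range W, ∫ p,
      |post P w (fun x => g (∑ k ∈ S, ∑ j, l (t : ℤ) (k, j) * x (k, j))) p.2 -
        ∫ x, g (∑ k ∈ S, ∑ j, l (t : ℤ) (k, j) * x (k, j)) ∂P| ∂(nu P w) ≤
      2 * Real.pi * Λ * Real.sqrt (κ₀ / W * ∑ i, (w i : ℝ)) := by
  classical
  have hE := hP.expM
  have := hE.prob
  have := isProbability_gam w
  have := isProbability_nu (P := P) w
  have hW' : (0 : ℝ) < W := by exact_mod_cast hW
  have hΛ0 : 0 ≤ Λ := (abs_nonneg _).trans (hΛ 0)
  have hκ0 : 0 ≤ κ₀ := by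
    have h1 := hl (fun t => if t = 0 then 1 else 0)
    have h2 : ∑ t ∈ Finset.range W, (if t = 0 then (1 : ℝ) else 0) ^ 2 = 1 := by
      have : ∀ t ∈ Finset.range W, (if t = 0 then (1 : ℝ) else 0) ^ 2 = if t = 0 then 1 else 0 := by
        intro t _
        split_ifs <;> simp
      rw [Finset.sum_congr rfl this, Finset.sum_ite_eq']
      simp [hW]
    rw [h2, mul_one] at h1
    exact (nsq_nonneg _).trans h1
  set X : ℕ → (Fin n × κ → ℝ) → ℝ := fun t x => ∑ k ∈ S, ∑ j, l (t : ℤ) (k, j) * x (k, j) with hX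
  have hXm : ∀ t, Measurable (X t) := fun t =>
    Finset.measurable_sum _ fun k _ => Finset.measurable_sum _ fun j _ =>
      (measurable_pi_apply (k, j)).const_mul _
  have hgc : Continuous g := continuous_iff_continuousAt.2 fun x => (hg x).continuousAt
  have hgm : Measurable g := hgc.measurable
  set f : ℕ → (Fin n × κ → ℝ) → ℝ := fun t x => g (X t x) with hf
  have hfg : ∀ t, Gd P (f t) := fun t => Gd.bdd (hgm.comp (hXm t)) Mg fun x => hMg _
  set c : ℕ → ℝ := fun t => ∫ x, f t x ∂P with hc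
  set β : ℕ → (Fin n × κ → ℝ) → ℝ := fun t y => if 0 ≤ post P w (f t) y - c t then 1 else -1
    with hβ
  have hβm : ∀ t, Measurable (β t) := fun t =>
    Measurable.ite (measurableSet_le measurable_const
      ((measurable_post hE w (hfg t).meas).sub measurable_const)) measurable_const measurable_const
  have hβ1 : ∀ t y, |β t y| = 1 := by
    intro t y
    simp only [hβ]
    split_ifs <;> simp
  have hβ2 : ∀ t y, β t y ^ 2 = 1 := by
    intro t y
    rw [← sq_abs, hβ1, one_pow]
  have hβg : ∀ t, Gd (nu P w) (fun p => β t p.2) := fun t =>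
    Gd.bdd ((hβm t).comp measurable_snd) 1 fun p => (hβ1 t p.2).le
  set Φ : (Fin n × κ → ℝ) × (Fin n × κ → ℝ) → ℝ := fun p =>
    (1 / (W : ℝ)) * ∑ t ∈ Finset.range W, β t p.2 * (f t p.1 - c t) with hΦ
  have hΦm : Measurable Φ := by
    refine Measurable.const_mul ?_ _
    refine Finset.measurable_sum _ fun t _ => ?_
    exact ((hβm t).comp measurable_snd).mul
      (((hfg t).meas.comp measurable_fst).sub measurable_const)
  have hΦb : ∀ p, |Φ p| ≤ (1 / (W : ℝ)) * ∑ t ∈ Finset.range W, (Mg + |c t|) := by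
    intro p
    simp only [hΦ]
    rw [abs_mul, abs_of_pos (by positivity : (0 : ℝ) < 1 / W)]
    refine mul_le_mul_of_nonneg_left ?_ (by positivity)
    refine (Finset.abs_sum_le_sum_abs _ _).trans (Finset.sum_le_sum fun t _ => ?_)
    rw [abs_mul, hβ1, one_mul]
    refine (abs_sub _ _).trans ?_
    have : |f t p.1| ≤ Mg := hMg _
    linarith
  -- the exponential moment of `Φ(., y)`
  set a : ℝ := Real.pi ^ 2 / 8 * κ₀ * Λ ^ 2 / W with ha
  have ha0 : 0 ≤ a := by positivity
  have hexp : ∀ lam : ℝ, 0 < lam → ∀ y, ∫ x, Real.exp (lam * Φ (x, y)) ∂P ≤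
      Real.exp (lam ^ 2 * a) := by
    intro lam _ y
    set v : ℕ → S × κ → ℝ := fun t i => l (t : ℤ) (i.1.1, i.2) with hv
    have hvn : ∀ b : ℕ → ℝ, nsq (∑ t ∈ Finset.range W, b t • v t) ≤
        κ₀ * ∑ t ∈ Finset.range W, b t ^ 2 := by
      intro b
      refine le_trans ?_ (hl b)
      simp only [nsq, Finset.sum_apply, Pi.smul_apply, smul_eq_mul, hv]
      rw [Fintype.sum_prod_type, Fintype.sum_prod_type]
      rw [Finset.sum_coe_sort S
        (fun k => ∑ j : κ, (∑ t ∈ Finset.range W, b t * l (t : ℤ) (k, j)) ^ 2)]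
      exact Finset.sum_le_sum_of_subset_of_nonneg (Finset.subset_univ _)
        fun k _ _ => Finset.sum_nonneg fun j _ => sq_nonneg _
    have hMP := maurey_pisier (κ := S × κ) W v κ₀ hvn g g' hg hg' Λ hΛ Mg hMg (fun t => β t y)
      (lam / W)
    have hlaw : P.map (fun x (i : S × κ) => x (i.1.1, i.2)) = gam (fun _ : S × κ => 1) :=
      hP.2 S hS
    have hRm : Measurable (fun (x : Fin n × κ → ℝ) (i : S × κ) => x (i.1.1, i.2)) :=
      measurable_pi_lambda _ fun i => measurable_pi_apply _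
    have hdot : ∀ t (x : Fin n × κ → ℝ), dot (v t) (fun i : S × κ => x (i.1.1, i.2)) = X t x := by
      intro t x
      simp only [dot, hv, hX]
      rw [Fintype.sum_prod_type]
      exact Finset.sum_coe_sort S (fun k => ∑ j : κ, l (t : ℤ) (k, j) * x (k, j))
    have hmean : ∀ t, ∫ η, g (dot (v t) η) ∂(gam (fun _ : S × κ => 1)) = c t := by
      intro t
      rw [← hlaw, integral_map (f := fun η => g (dot (v t) η)) hRm.aemeasurable
        ((hgm.comp (measurable_dot (v t))).aestronglyMeasurable)]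
      simp only [hdot]
      rfl
    simp only [hmean] at hMP
    rw [← hlaw, integral_map hRm.aemeasurable (by
      refine Measurable.aestronglyMeasurable ?_
      refine Real.measurable_exp.comp (Measurable.const_mul ?_ _)
      refine Finset.measurable_sum _ fun t _ => Measurable.const_mul ?_ _
      exact (hgm.comp (measurable_dot (v t))).sub measurable_const)] at hMP
    simp only [hdot] at hMP
    have e1 : ∀ x, lam * Φ (x, y) =
        lam / W * ∑ t ∈ Finset.range W, β t y * (g (X t x) - c t) := by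
      intro x
      simp only [hΦ]
      ring
    simp only [e1]
    refine hMP.trans (Real.exp_le_exp.2 (le_of_eq ?_))
    have e2 : ∑ t ∈ Finset.range W, β t y ^ 2 = W := by
      rw [Finset.sum_congr rfl fun t _ => hβ2 t y]
      simp
    rw [e2, ha]
    field_simp
  -- the Gibbs inequality
  set H : ℝ := (1 / 2) * ∑ i, (w i : ℝ) with hH
  have hH0 : 0 ≤ H := by
    have : 0 ≤ ∑ i, (w i : ℝ) := Finset.sum_nonneg fun i _ => (w i).coe_nonneg
    positivity
  have hgibbs : ∫ p, Φ p ∂(nu P w) ≤ 2 * (Real.sqrt a * Real.sqrt H) := by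
    refine opt_aux ha0 hH0 fun lam hlam => ?_
    have h1 := gibbs hE w Φ hΦm _ hΦb lam hlam (lam ^ 2 * a) (hexp lam hlam)
    have e1 : ∑ i, (w i : ℝ) * ∫ x, x i ^ 2 ∂P = ∑ i, (w i : ℝ) :=
      Finset.sum_congr rfl fun i _ => by rw [hP.sq i, mul_one]
    rw [e1, ← hH] at h1
    refine h1.trans (le_of_eq ?_)
    field_simp
  -- the mean of `Φ`
  have hterm : ∀ t, ∫ p, β t p.2 * (f t p.1 - c t) ∂(nu P w) =
      ∫ p, |post P w (f t) p.2 - c t| ∂(nu P w) := by
    intro t
    have g1 : Gd (nu P w) (fun p => f t p.1) := Gd.nu_fst w (hfg t)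
    have g2 : Gd (nu P w) (fun p => post P w (f t) p.2) := gd_post hE w (hfg t)
    have e1 : (fun p : (Fin n × κ → ℝ) × (Fin n × κ → ℝ) => β t p.2 * (f t p.1 - c t)) =
        fun p => β t p.2 * f t p.1 - β t p.2 * c t := by
      funext p
      ring
    have e2 : (fun p : (Fin n × κ → ℝ) × (Fin n × κ → ℝ) => |post P w (f t) p.2 - c t|) =
        fun p => β t p.2 * post P w (f t) p.2 - β t p.2 * c t := by
      funext p
      simp only [hβ]
      split_ifs with h
      · rw [abs_of_nonneg h]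
        ring
      · push Not at h
        rw [abs_of_neg h]
        ring
    have g3 : Integrable (fun p : (Fin n × κ → ℝ) × (Fin n × κ → ℝ) => β t p.2 * c t)
        (nu P w) := (hβg t).integrable.mul_const _
    rw [e1, e2, integral_sub ((hβg t).mul g1).integrable g3,
      integral_sub ((hβg t).mul g2).integrable g3, tower hE w (hfg t) (hβg t)]
  have hmeanΦ : ∫ p, Φ p ∂(nu P w) = (1 / (W : ℝ)) * ∑ t ∈ Finset.range W, ∫ p,
      |post P w (f t) p.2 - c t| ∂(nu P w) := by
    simp only [hΦ]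
    rw [integral_const_mul, integral_finsetSum]
    · rw [Finset.sum_congr rfl fun t _ => hterm t]
    · intro t _
      exact ((hβg t).mul ((Gd.nu_fst w (hfg t)).sub (Gd.const (c t)))).integrable
  have hgoal : (1 / (W : ℝ)) * ∑ t ∈ Finset.range W, ∫ p,
      |post P w (f t) p.2 - c t| ∂(nu P w) ≤
      2 * Real.pi * Λ * Real.sqrt (κ₀ / W * ∑ i, (w i : ℝ)) := by
    rw [← hmeanΦ]
    refine hgibbs.trans ?_
    have hw0 : 0 ≤ ∑ i, (w i : ℝ) := Finset.sum_nonneg fun i _ => (w i).coe_nonneg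
    rw [← Real.sqrt_mul ha0]
    have e1 : a * H = (Real.pi * Λ / 4) ^ 2 * (κ₀ / W * ∑ i, (w i : ℝ)) := by
      rw [ha, hH]
      ring
    have hpi := Real.pi_pos
    rw [e1, Real.sqrt_mul (by positivity), Real.sqrt_sq (by positivity)]
    have h1 : 0 ≤ Real.sqrt (κ₀ / W * ∑ i, (w i : ℝ)) := Real.sqrt_nonneg _
    have h2 : 0 ≤ Real.pi * Λ := by positivity
    nlinarith [mul_nonneg h2 h1]
  exact hgoal

end FULL
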