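import Pool.Agent.Lib.MP_8a5982_an.FULL.Inf1
import Pool.Agent.Lib.MP_8a5982_an.FULL.Post2
import Pool.Agent.Lib.MP_8a5982_an.FULL.Adm
import Pool.Agent.Lib.MP_8a5982_an.FULL.Mom
import Pool.Agent.Lib.MP_8a5982_an.FULL.Gauss

/-!
Project FULL, module INF2: the quantities `D1`, `D2`.
-/

open MeasureTheory ProbabilityTheory Filter Topology

namespace FULL

set_option linter.unusedSectionVars false
set_option linter.style.haveILetI false

namespace Inf2

/-! ### elementary functions -/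

lemma abs_sub_sin_le (y : ℝ) : |y - Real.sin y| ≤ 2 * y ^ 2 := by
  by_cases h : |y| ≤ 1
  · have h1 := Real.sin_bound h
    have h2 : |y - Real.sin y| ≤ |y| ^ 3 / 6 + |y| ^ 5 / 100 := by
      have e : y - Real.sin y = y ^ 3 / 6 - (Real.sin y - (y - y ^ 3 / 6)) := by ring
      rw [e]
      refine (abs_sub _ _).trans ?_
      rw [abs_div, abs_pow, abs_of_pos (by norm_num : (0 : ℝ) < 6)]
      linarith
    have h0 := abs_nonneg y
    have h3 : |y| ^ 3 ≤ |y| ^ 2 := pow_le_pow_of_le_one h0 h (by norm_num)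
    have h4 : |y| ^ 5 ≤ |y| ^ 2 := pow_le_pow_of_le_one h0 h (by norm_num)
    rw [← sq_abs y]
    nlinarith [sq_nonneg (|y|)]
  · push Not at h
    have h1 : |y - Real.sin y| ≤ |y| + |Real.sin y| := abs_sub _ _
    have h2 : |Real.sin y| ≤ 1 := Real.abs_sin_le_one y
    rw [← sq_abs y]
    nlinarith

/-- the first truncation -/
lemma trunc_one (ρ : ℝ) (hρ : 1 ≤ ρ) (x : ℝ) :
    |x - ρ * Real.sin (x / ρ)| ≤ 2 / ρ * (x ^ 2 + x ^ 4) := by
  have hρ0 : 0 < ρ := by linarith
  have h := abs_sub_sin_le (x / ρ)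
  have e : x - ρ * Real.sin (x / ρ) = ρ * (x / ρ - Real.sin (x / ρ)) := by
    field_simp
  rw [e, abs_mul, abs_of_pos hρ0]
  refine (mul_le_mul_of_nonneg_left h hρ0.le).trans ?_
  have e2 : ρ * (2 * (x / ρ) ^ 2) = 2 / ρ * x ^ 2 := by field_simp
  rw [e2]
  refine mul_le_mul_of_nonneg_left ?_ (by positivity)
  nlinarith [sq_nonneg (x ^ 2)]

/-- the second truncation -/
lemma trunc_two (ρ : ℝ) (hρ : 1 ≤ ρ) (x : ℝ) :
    |x ^ 2 - ρ ^ 2 * Real.sin (x / ρ) ^ 2| ≤ 2 / ρ * (x ^ 2 + x ^ 4) := by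
  have hρ0 : 0 < ρ := by linarith
  have h := abs_sub_sin_le (x / ρ)
  have e : x ^ 2 - ρ ^ 2 * Real.sin (x / ρ) ^ 2 =
      (ρ * (x / ρ - Real.sin (x / ρ))) * (x + ρ * Real.sin (x / ρ)) := by
    field_simp
    ring
  have h1 : |ρ * (x / ρ - Real.sin (x / ρ))| ≤ 2 / ρ * x ^ 2 := by
    rw [abs_mul, abs_of_pos hρ0]
    refine (mul_le_mul_of_nonneg_left h hρ0.le).trans (le_of_eq ?_)
    field_simp
  have h2 : |x + ρ * Real.sin (x / ρ)| ≤ 2 * |x| := by
    refine (abs_add_le _ _).trans ?_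
    rw [abs_mul, abs_of_pos hρ0]
    have h3 : |Real.sin (x / ρ)| ≤ |x / ρ| := Real.abs_sin_le_abs
    rw [abs_div, abs_of_pos hρ0] at h3
    have h4 : ρ * |Real.sin (x / ρ)| ≤ ρ * (|x| / ρ) := mul_le_mul_of_nonneg_left h3 hρ0.le
    have h5 : ρ * (|x| / ρ) = |x| := by field_simp
    linarith
  rw [e, abs_mul]
  refine (mul_le_mul h1 h2 (abs_nonneg _) (by positivity)).trans ?_
  have e2 : 2 / ρ * x ^ 2 * (2 * |x|) = 2 / ρ * (2 * (x ^ 2 * |x|)) := by ring
  rw [e2]
  refine mul_le_mul_of_nonneg_left ?_ (by positivity)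
  rw [← sq_abs x]
  have h4 : x ^ 4 = |x| ^ 4 := by
    rw [show (4 : ℕ) = 2 * 2 from rfl, pow_mul, pow_mul, sq_abs]
  rw [h4]
  nlinarith [sq_nonneg (|x| ^ 2 - |x|), abs_nonneg x]

lemma deriv_one (ρ : ℝ) (hρ : 1 ≤ ρ) (x : ℝ) :
    HasDerivAt (fun x => ρ * Real.sin (x / ρ)) (Real.cos (x / ρ)) x := by
  have hρ0 : ρ ≠ 0 := by intro h; rw [h] at hρ; linarith
  have h1 : HasDerivAt (fun x : ℝ => x / ρ) (1 / ρ) x := (hasDerivAt_id x).div_const ρ
  have h := (h1.sin).const_mul ρ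
  refine h.congr_deriv ?_
  field_simp

lemma deriv_two (ρ : ℝ) (hρ : 1 ≤ ρ) (x : ℝ) :
    HasDerivAt (fun x => ρ ^ 2 * Real.sin (x / ρ) ^ 2) (ρ * Real.sin (2 * (x / ρ))) x := by
  have hρ0 : ρ ≠ 0 := by intro h; rw [h] at hρ; linarith
  have h1 : HasDerivAt (fun x : ℝ => x / ρ) (1 / ρ) x := (hasDerivAt_id x).div_const ρ
  have h2 : HasDerivAt (fun x : ℝ => Real.sin (x / ρ)) (Real.cos (x / ρ) * (1 / ρ)) x := h1.sin
  have h := (h2.fun_pow 2).const_mul (ρ ^ 2)
  refine h.congr_deriv ?_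
  rw [Real.sin_two_mul]
  field_simp
  try ring

/-! ### the variables -/

section var

variable {n : ℕ} {κ : Type} [Fintype κ] [DecidableEq κ] {P : Measure (Fin n × κ → ℝ)}

/-- the sum over the vectors in `S` -/
noncomputable def XX (S : Finset (Fin n)) (u x : Fin n × κ → ℝ) : ℝ :=
  ∑ k ∈ S, ∑ j, u (k, j) * x (k, j)

/-- restriction to `S` -/
noncomputable def rs (S : Finset (Fin n)) (u : Fin n × κ → ℝ) (i : Fin n × κ) : ℝ :=
  if i.1 ∈ S then u i else 0

/-- the variance -/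
noncomputable def vv (S : Finset (Fin n)) (u : Fin n × κ → ℝ) : ℝ :=
  ∑ k ∈ S, ∑ j, u (k, j) ^ 2

lemma XX_eq (S : Finset (Fin n)) (u x : Fin n × κ → ℝ) : XX S u x = dot (rs S u) x := by
  unfold XX dot rs
  rw [Fintype.sum_prod_type, ← Finset.sum_filter_add_sum_filter_not Finset.univ (· ∈ S)]
  have h1 : ∑ k ∈ Finset.univ.filter (fun k => ¬ k ∈ S), ∑ j, (if (k, j).1 ∈ S then u (k, j)
      else 0) * x (k, j) = 0 := by
    refine Finset.sum_eq_zero fun k hk => Finset.sum_eq_zero fun j _ => ?_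
    rw [if_neg (Finset.mem_filter.1 hk).2, zero_mul]
  rw [h1, add_zero, Finset.filter_mem_eq_inter, Finset.univ_inter]
  refine Finset.sum_congr rfl fun k hk => Finset.sum_congr rfl fun j _ => ?_
  rw [if_pos hk]

lemma vv_eq (S : Finset (Fin n)) (u : Fin n × κ → ℝ) : vv S u = nsq (rs S u) := by
  unfold vv nsq rs
  rw [Fintype.sum_prod_type, ← Finset.sum_filter_add_sum_filter_not Finset.univ (· ∈ S)]
  have h1 : ∑ k ∈ Finset.univ.filter (fun k => ¬ k ∈ S), ∑ j, (if (k, j).1 ∈ S then u (k, j)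
      else 0) ^ 2 = 0 := by
    refine Finset.sum_eq_zero fun k hk => Finset.sum_eq_zero fun j _ => ?_
    rw [if_neg (Finset.mem_filter.1 hk).2]
    norm_num
  rw [h1, add_zero, Finset.filter_mem_eq_inter, Finset.univ_inter]
  refine Finset.sum_congr rfl fun k hk => Finset.sum_congr rfl fun j _ => ?_
  rw [if_pos hk]

lemma vv_le (S : Finset (Fin n)) (u : Fin n × κ → ℝ) : vv S u ≤ nsq u := by
  rw [vv_eq]
  unfold nsq rs
  refine Finset.sum_le_sum fun i _ => ?_
  split_ifs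
  · exact le_rfl
  · simpa using sq_nonneg (u i)

lemma gd_XX (hP : Adm n P) (S : Finset (Fin n)) (u : Fin n × κ → ℝ) : Gd P (XX S u) := by
  have h : XX S u = dot (rs S u) := funext fun x => XX_eq S u x
  rw [h]
  exact hP.expM.gd_dot _

/-- the law of the coordinates in `S` -/
lemma integral_XX (hP : Adm n P) (S : Finset (Fin n)) (hS : S.card ≤ 2) (u : Fin n × κ → ℝ)
    (F : ℝ → ℝ) (hF : Measurable F) :
    ∫ x, F (XX S u x) ∂P =
      ∫ y, F (dot (fun i : S × κ => u (i.1.1, i.2)) y) ∂(gam (fun _ : S × κ => 1)) := by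
  have h2 := hP.2 S hS
  have hm : Measurable (fun (x : Fin n × κ → ℝ) (i : S × κ) => x (i.1.1, i.2)) :=
    measurable_pi_lambda _ fun i => measurable_pi_apply _
  have h3 : gam (fun _ : S × κ => 1) =
      P.map (fun (x : Fin n × κ → ℝ) (i : S × κ) => x (i.1.1, i.2)) := h2.symm
  rw [h3, integral_map (f := fun y => F (dot (fun i : S × κ => u (i.1.1, i.2)) y))
    hm.aemeasurable (hF.comp (measurable_dot _)).aestronglyMeasurable]
  refine integral_congr_ae (Eventually.of_forall fun x => ?_)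
  simp only
  congr 1
  unfold XX dot
  rw [Fintype.sum_prod_type]
  simp only
  rw [Finset.sum_coe_sort S (fun k => ∑ j, u (k, j) * x (k, j))]

lemma sq_XX (hP : Adm n P) (S : Finset (Fin n)) (hS : S.card ≤ 2) (u : Fin n × κ → ℝ) :
    ∫ x, XX S u x ^ 2 ∂P = vv S u := by
  rw [integral_XX hP S hS u (fun t => t ^ 2) (by fun_prop), integral_gam_sq]
  unfold vv
  rw [Fintype.sum_prod_type]
  simp only [NNReal.coe_one, one_mul]
  rw [Finset.sum_coe_sort S (fun k => ∑ j, u (k, j) ^ 2)]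

lemma one_XX (hP : Adm n P) (S : Finset (Fin n)) (hS : S.card ≤ 2) (u : Fin n × κ → ℝ) :
    ∫ x, XX S u x ∂P = 0 := by
  rw [integral_XX hP S hS u (fun t => t) measurable_id, integral_gam_dot]

/-- the error bound -/
lemma err_XX (hP : Adm n P) (S : Finset (Fin n)) (u : Fin n × κ → ℝ) (C : ℝ)
    (hC : nsq u ≤ C) :
    ∫ x, (XX S u x ^ 2 + XX S u x ^ 4) ∂P ≤
      4 * Real.exp ((n : ℝ) ^ 2) * C + 48 * Real.exp ((n : ℝ) ^ 2) * C ^ 2 := by
  haveI := hP.1
  have hg := gd_XX hP S u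
  have hE := hP.expM
  have hv : nsq (rs S u) ≤ C := by rw [← vv_eq]; exact (vv_le S u).trans hC
  have hv0 := nsq_nonneg (rs S u)
  rw [integral_add (hg.pow 2).integrable (hg.pow 4).integrable]
  have h1 := hE.moment (rs S u) 1
  have h2 := hE.moment (rs S u) 2
  have e1 : ∫ x, XX S u x ^ 2 ∂P = ∫ x, dot (rs S u) x ^ (2 * 1) ∂P := by
    refine integral_congr_ae (Eventually.of_forall fun x => ?_)
    simp only [XX_eq, mul_one]
  have e2 : ∫ x, XX S u x ^ 4 ∂P = ∫ x, dot (rs S u) x ^ (2 * 2) ∂P := by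
    refine integral_congr_ae (Eventually.of_forall fun x => ?_)
    simp only [XX_eq]
  rw [e1, e2]
  have hexp := Real.exp_pos ((n : ℝ) ^ 2)
  refine add_le_add (h1.trans ?_) (h2.trans ?_)
  · rw [pow_one]
    calc 2 * ((2 * 1).factorial : ℝ) * Real.exp ((n : ℝ) ^ 2) * nsq (rs S u)
        ≤ 2 * ((2 * 1).factorial : ℝ) * Real.exp ((n : ℝ) ^ 2) * C :=
          mul_le_mul_of_nonneg_left hv (by positivity)
      _ = 4 * Real.exp ((n : ℝ) ^ 2) * C := by norm_num [Nat.factorial]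
  · have h4 : nsq (rs S u) ^ 2 ≤ C ^ 2 := pow_le_pow_left₀ hv0 hv 2
    calc 2 * ((2 * 2).factorial : ℝ) * Real.exp ((n : ℝ) ^ 2) * nsq (rs S u) ^ 2
        ≤ 2 * ((2 * 2).factorial : ℝ) * Real.exp ((n : ℝ) ^ 2) * C ^ 2 :=
          mul_le_mul_of_nonneg_left h4 (by positivity)
      _ = 48 * Real.exp ((n : ℝ) ^ 2) * C ^ 2 := by norm_num [Nat.factorial]

end var

/-! ### the truncation argument -/

lemma post_sub {ι : Type} [Fintype ι] {P : Measure (ι → ℝ)} {C : ℝ} (hP : ExpM P C)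
    (w : ι → NNReal) {f g : (ι → ℝ) → ℝ} (hf : Gd P f) (hg : Gd P g) (y : ι → ℝ) :
    post P w (fun x => f x - g x) y = post P w f y - post P w g y := by
  haveI := hP.prob
  have e : (fun x => f x - g x) = fun x => f x + (-1) * g x := by funext x; ring
  rw [e, post_add hP w hf (hg.const_mul (-1)) y, post_const_mul hP w (f := g) (-1) y]
  ring

lemma post_abs_le {ι : Type} [Fintype ι] {P : Measure (ι → ℝ)} {C : ℝ} (hP : ExpM P C)
    (w : ι → NNReal) {f : (ι → ℝ) → ℝ} (hf : Gd P f) :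
    ∫ p, |post P w f p.2| ∂(nu P w) ≤ ∫ x, |f x| ∂P := by
  have h := post_pow_le hP w hf 1 le_rfl
  simpa using h

section main

variable {n : ℕ} {κ : Type} [Fintype κ] [DecidableEq κ] {P : Measure (Fin n × κ → ℝ)}

lemma key (hP : Adm n P) (S : Finset (Fin n)) (hS : S.card ≤ 2) (w : Fin n × κ → NNReal)
    (l : ℤ → Fin n × κ → ℝ) (W : ℕ) (hW : 0 < W) (κ₀ : ℝ)
    (hl : ∀ b : ℕ → ℝ, nsq (∑ t ∈ Finset.range W, b t • l (t : ℤ)) ≤
      κ₀ * ∑ t ∈ Finset.range W, b t ^ 2)
    (f g g' : ℝ → ℝ) (_hf : Measurable f) (hfg : ∀ t : ℤ, Gd P (fun x => f (XX S (l t) x)))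
    (hg : ∀ x, HasDerivAt g (g' x) x) (hg' : Continuous g') (Λ : ℝ)
    (hΛ : ∀ x, |g' x| ≤ Λ) (Mg : ℝ) (hMg : ∀ x, |g x| ≤ Mg) (C : ℝ) (hC : ∀ t, nsq (l t) ≤ C)
    (ρ : ℝ) (hρ : 1 ≤ ρ) (herr : ∀ x, |f x - g x| ≤ 2 / ρ * (x ^ 2 + x ^ 4)) :
    (1 / (W : ℝ)) * ∑ t ∈ Finset.range W, ∫ p,
      |post P w (fun x => f (XX S (l (t : ℤ)) x)) p.2 - ∫ x, f (XX S (l (t : ℤ)) x) ∂P|
        ∂(nu P w) ≤
      4 / ρ * (4 * Real.exp ((n : ℝ) ^ 2) * C + 48 * Real.exp ((n : ℝ) ^ 2) * C ^ 2) +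
        2 * Real.pi * Λ * Real.sqrt (κ₀ / W * ∑ i, (w i : ℝ)) := by
  haveI := hP.1
  haveI := isProbability_nu (P := P) w
  have hE := hP.expM
  have hW' : (0 : ℝ) < W := by exact_mod_cast hW
  have hρ0 : 0 < ρ := by linarith
  have h1 := info_one hP S hS w l W hW κ₀ hl g g' hg hg' Λ hΛ Mg hMg
  set K3 := 4 * Real.exp ((n : ℝ) ^ 2) * C + 48 * Real.exp ((n : ℝ) ^ 2) * C ^ 2 with hK3
  have hgm : Measurable g :=
    (continuous_iff_continuousAt.2 fun x => (hg x).continuousAt).measurable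
  have hgX : ∀ t : ℤ, Gd P (fun x => g (XX S (l t) x)) := fun t =>
    Gd.bdd (hgm.comp (gd_XX hP S (l t)).meas) Mg fun x => hMg _
  have hdiff : ∀ t : ℤ, Gd P (fun x => f (XX S (l t) x) - g (XX S (l t) x)) :=
    fun t => (hfg t).sub (hgX t)
  -- the error
  have he : ∀ t : ℤ, ∫ x, |f (XX S (l t) x) - g (XX S (l t) x)| ∂P ≤ 2 / ρ * K3 := by
    intro t
    have hX := gd_XX hP S (l t)
    calc ∫ x, |f (XX S (l t) x) - g (XX S (l t) x)| ∂P
        ≤ ∫ x, 2 / ρ * (XX S (l t) x ^ 2 + XX S (l t) x ^ 4) ∂P :=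
          integral_mono (hdiff t).abs.integrable
            (((hX.pow 2).add (hX.pow 4)).const_mul _).integrable fun x => herr _
      _ = 2 / ρ * ∫ x, (XX S (l t) x ^ 2 + XX S (l t) x ^ 4) ∂P := integral_const_mul _ _
      _ ≤ 2 / ρ * K3 := mul_le_mul_of_nonneg_left (err_XX hP S (l t) C (hC t)) (by positivity)
  have hterm : ∀ t : ℤ, ∫ p,
      |post P w (fun x => f (XX S (l t) x)) p.2 - ∫ x, f (XX S (l t) x) ∂P| ∂(nu P w) ≤
      2 / ρ * K3 + (∫ p, |post P w (fun x => g (XX S (l t) x)) p.2 -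
        ∫ x, g (XX S (l t) x) ∂P| ∂(nu P w)) + 2 / ρ * K3 := by
    intro t
    have g1 := gd_post hE w (hfg t)
    have g2 := gd_post hE w (hgX t)
    have g3 := gd_post hE w (hdiff t)
    have hmean : |∫ x, g (XX S (l t) x) ∂P - ∫ x, f (XX S (l t) x) ∂P| ≤ 2 / ρ * K3 := by
      rw [← integral_sub (hgX t).integrable (hfg t).integrable]
      refine (abs_integral_le_integral_abs).trans ((le_of_eq ?_).trans (he t))
      refine integral_congr_ae (Eventually.of_forall fun x => ?_)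
      simp only
      rw [abs_sub_comm]
    have hint : ∫ p,
      |post P w (fun x => f (XX S (l t) x)) p.2 - ∫ x, f (XX S (l t) x) ∂P| ∂(nu P w) ≤
      ∫ p, (|post P w (fun x => f (XX S (l t) x) - g (XX S (l t) x)) p.2| +
        |post P w (fun x => g (XX S (l t) x)) p.2 - ∫ x, g (XX S (l t) x) ∂P| +
        2 / ρ * K3) ∂(nu P w) := by
      refine integral_mono (g1.sub (Gd.const _)).abs.integrable
        ((g3.abs.add (g2.sub (Gd.const _)).abs).add (Gd.const _)).integrable fun p => ?_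
      simp only
      rw [post_sub hE w (hfg t) (hgX t)]
      have e : post P w (fun x => f (XX S (l t) x)) p.2 - ∫ x, f (XX S (l t) x) ∂P =
          (post P w (fun x => f (XX S (l t) x)) p.2 - post P w (fun x => g (XX S (l t) x)) p.2) +
          (post P w (fun x => g (XX S (l t) x)) p.2 - ∫ x, g (XX S (l t) x) ∂P) +
          (∫ x, g (XX S (l t) x) ∂P - ∫ x, f (XX S (l t) x) ∂P) := by ring
      rw [e]
      refine (abs_add_three _ _ _).trans ?_
      linarith
    refine hint.trans ?_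
    rw [integral_add (g3.abs.add (g2.sub (Gd.const _)).abs).integrable (Gd.const _).integrable,
      integral_add g3.abs.integrable (g2.sub (Gd.const _)).abs.integrable, integral_const,
      probReal_univ, one_smul]
    have h5 := (post_abs_le hE w (hdiff t)).trans (he t)
    linarith
  have hsum : (1 / (W : ℝ)) * ∑ t ∈ Finset.range W, ∫ p,
      |post P w (fun x => f (XX S (l (t : ℤ)) x)) p.2 - ∫ x, f (XX S (l (t : ℤ)) x) ∂P|
        ∂(nu P w) ≤ (1 / (W : ℝ)) * ∑ t ∈ Finset.range W, (2 / ρ * K3 + (∫ p,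
          |post P w (fun x => g (XX S (l (t : ℤ)) x)) p.2 -
        ∫ x, g (XX S (l (t : ℤ)) x) ∂P| ∂(nu P w)) + 2 / ρ * K3) :=
    mul_le_mul_of_nonneg_left (Finset.sum_le_sum fun t _ => hterm t) (by positivity)
  refine hsum.trans ?_
  rw [Finset.sum_add_distrib, Finset.sum_add_distrib, Finset.sum_const, Finset.card_range,
    nsmul_eq_mul, mul_add, mul_add]
  have e1 : 1 / (W : ℝ) * (W * (2 / ρ * K3)) = 2 / ρ * K3 := by field_simp
  rw [e1]
  have h6 : (1 / (W : ℝ)) * ∑ t ∈ Finset.range W, ∫ p,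
      |post P w (fun x => g (XX S (l (t : ℤ)) x)) p.2 -
        ∫ x, g (XX S (l (t : ℤ)) x) ∂P| ∂(nu P w) ≤
      2 * Real.pi * Λ * Real.sqrt (κ₀ / W * ∑ i, (w i : ℝ)) := h1
  have e2 : 4 / ρ * K3 = 2 / ρ * K3 + 2 / ρ * K3 := by ring
  rw [e2]
  linarith

/-- the decomposition of the window variable -/
lemma dot_eq_sum (u x : Fin n × κ → ℝ) : dot u x = ∑ k, XX {k} u x := by
  unfold dot XX
  rw [Fintype.sum_prod_type]
  refine Finset.sum_congr rfl fun k _ => ?_
  rw [Finset.sum_singleton]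

lemma nsq_eq_sum (u : Fin n × κ → ℝ) : nsq u = ∑ k, vv {k} u := by
  unfold nsq vv
  rw [Fintype.sum_prod_type]
  refine Finset.sum_congr rfl fun k _ => ?_
  rw [Finset.sum_singleton]

end main

end Inf2

open Inf2 in
theorem info_two (n : ℕ) (C₀ : ℝ) : ∃ K : ℝ, 0 ≤ K ∧ ∀ (κ : Type) [Fintype κ] [DecidableEq κ]
    (P : Measure (Fin n × κ → ℝ)), Adm n P → ∀ (w : Fin n × κ → NNReal)
    (l : ℤ → Fin n × κ → ℝ) (W : ℕ), 0 < W → ∀ κ₀ : ℝ,
    (∀ b : ℕ → ℝ, nsq (∑ t ∈ Finset.range W, b t • l (t : ℤ)) ≤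
      κ₀ * ∑ t ∈ Finset.range W, b t ^ 2) →
    ∀ v : ℝ, v ≤ C₀ → (∀ t, nsq (l t) = v) → ∀ ρ : ℝ, 1 ≤ ρ →
      D1 P w l W ≤ K * (1 / ρ + ρ * Real.sqrt (κ₀ / W * ∑ i, (w i : ℝ))) ∧
      D2 P w l W v ≤ K * (1 / ρ + ρ * Real.sqrt (κ₀ / W * ∑ i, (w i : ℝ))) := by
  set K3 : ℝ := 4 * Real.exp ((n : ℝ) ^ 2) * |C₀| + 48 * Real.exp ((n : ℝ) ^ 2) * |C₀| ^ 2
    with hK3
  have hK30 : 0 ≤ K3 := by positivity
  have hpi := Real.pi_pos
  refine ⟨2 * ((n : ℝ) + 1) ^ 2 * (4 * K3 + 2 * Real.pi), by positivity, ?_⟩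
  intro κ _ _ P hP w l W hW κ₀ hl v hv hlv ρ hρ
  haveI := hP.1
  haveI := isProbability_nu (P := P) w
  have hE := hP.expM
  have hW' : (0 : ℝ) < W := by exact_mod_cast hW
  have hρ0 : 0 < ρ := by linarith
  have hC : ∀ t, nsq (l t) ≤ |C₀| := fun t => by
    rw [hlv]; exact hv.trans (le_abs_self _)
  set s := Real.sqrt (κ₀ / W * ∑ i, (w i : ℝ)) with hs
  have hs0 : 0 ≤ s := Real.sqrt_nonneg _
  set a := 4 / ρ * K3 + 2 * Real.pi * ρ * s with ha
  have ha0 : 0 ≤ a := by positivity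
  have hale : a ≤ (4 * K3 + 2 * Real.pi) * (1 / ρ + ρ * s) := by
    have h1 : 0 ≤ 4 * K3 * (ρ * s) := by positivity
    have h2 : 0 ≤ 2 * Real.pi * (1 / ρ) := by positivity
    have e : (4 * K3 + 2 * Real.pi) * (1 / ρ + ρ * s) =
        4 / ρ * K3 + 2 * Real.pi * ρ * s + (4 * K3 * (ρ * s) + 2 * Real.pi * (1 / ρ)) := by ring
    rw [e]
    linarith
  -- the basic bounds
  have hX1 : ∀ k : Fin n, (1 / (W : ℝ)) * ∑ t ∈ Finset.range W, ∫ p,
      |post P w (fun x => XX {k} (l (t : ℤ)) x) p.2| ∂(nu P w) ≤ a := by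
    intro k
    have hcard : ({k} : Finset (Fin n)).card ≤ 2 := by simp
    have h := key hP {k} hcard w l W hW κ₀ hl (fun x => x) (fun x => ρ * Real.sin (x / ρ))
      (fun x => Real.cos (x / ρ)) measurable_id (fun t => gd_XX hP {k} (l t))
      (fun x => deriv_one ρ hρ x) (by fun_prop) 1 (fun x => Real.abs_cos_le_one _) ρ
      (fun x => by
        rw [abs_mul, abs_of_pos hρ0]
        calc ρ * |Real.sin (x / ρ)| ≤ ρ * 1 :=
              mul_le_mul_of_nonneg_left (Real.abs_sin_le_one _) hρ0.le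
          _ = ρ := mul_one ρ) |C₀| hC ρ hρ (fun x => trunc_one ρ hρ x)
    have h2 : ∀ t : ℤ, ∫ x, XX {k} (l t) x ∂P = 0 := fun t => one_XX hP {k} hcard (l t)
    simp only [h2, sub_zero] at h
    refine h.trans ?_
    rw [ha]
    have h3 : 2 * Real.pi * 1 * s ≤ 2 * Real.pi * ρ * s := by
      apply mul_le_mul_of_nonneg_right _ hs0
      nlinarith
    linarith
  have hX2 : ∀ S : Finset (Fin n), S.card ≤ 2 → (1 / (W : ℝ)) * ∑ t ∈ Finset.range W, ∫ p,
      |post P w (fun x => XX S (l (t : ℤ)) x ^ 2) p.2 - vv S (l (t : ℤ))| ∂(nu P w) ≤ a := by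
    intro S hcard
    have h := key hP S hcard w l W hW κ₀ hl (fun x => x ^ 2)
      (fun x => ρ ^ 2 * Real.sin (x / ρ) ^ 2)
      (fun x => ρ * Real.sin (2 * (x / ρ))) (by fun_prop) (fun t => (gd_XX hP S (l t)).pow 2)
      (fun x => deriv_two ρ hρ x) (by fun_prop) ρ
      (fun x => by
        rw [abs_mul, abs_of_pos hρ0]
        calc ρ * |Real.sin (2 * (x / ρ))| ≤ ρ * 1 :=
              mul_le_mul_of_nonneg_left (Real.abs_sin_le_one _) hρ0.le
          _ = ρ := mul_one ρ) (ρ ^ 2)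
      (fun x => by
        rw [abs_mul, abs_of_nonneg (sq_nonneg ρ), abs_of_nonneg (sq_nonneg _)]
        calc ρ ^ 2 * Real.sin (x / ρ) ^ 2 ≤ ρ ^ 2 * 1 :=
              mul_le_mul_of_nonneg_left (Real.sin_sq_le_one _) (sq_nonneg _)
          _ = ρ ^ 2 := mul_one _) |C₀| hC ρ hρ (fun x => trunc_two ρ hρ x)
    have h2 : ∀ t : ℤ, ∫ x, XX S (l t) x ^ 2 ∂P = vv S (l t) := fun t => sq_XX hP S hcard (l t)
    simp only [h2] at h
    exact h
  have hgX : ∀ (S : Finset (Fin n)) (t : ℤ), Gd P (fun x => XX S (l t) x) :=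
    fun S t => gd_XX hP S (l t)
  have hgX2 : ∀ (S : Finset (Fin n)) (t : ℤ), Gd P (fun x => XX S (l t) x ^ 2) :=
    fun S t => (gd_XX hP S (l t)).pow 2
  have hn0 : (0 : ℝ) ≤ n := Nat.cast_nonneg n
  constructor
  · -- D1
    have h1 : ∀ t : ℤ, ∫ p, |post P w (dot (l t)) p.2| ∂(nu P w) ≤
        ∑ k : Fin n, ∫ p, |post P w (fun x => XX {k} (l t) x) p.2| ∂(nu P w) := by
      intro t
      have hgd : ∀ k : Fin n, Gd (nu P w) (fun p => |post P w (fun x => XX {k} (l t) x) p.2|) :=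
        fun k => (gd_post hE w (hgX {k} t)).abs
      rw [← integral_finsetSum _ fun k _ => (hgd k).integrable]
      refine integral_mono (gd_post hE w (hE.gd_dot (l t))).abs.integrable
        (integrable_finsetSum _ fun k _ => (hgd k).integrable) fun p => ?_
      simp only
      have e : dot (l t) = fun x => ∑ k : Fin n, XX {k} (l t) x := funext fun x => dot_eq_sum _ x
      rw [e, post_sum hE w Finset.univ (fun k x => XX {k} (l t) x) (fun k _ => hgX {k} t)]
      exact Finset.abs_sum_le_sum_abs _ _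
    have h2 : D1 P w l W ≤ ∑ k : Fin n, (1 / (W : ℝ)) * ∑ t ∈ Finset.range W, ∫ p,
      |post P w (fun x => XX {k} (l (t : ℤ)) x) p.2| ∂(nu P w) := by
      unfold D1
      rw [← Finset.mul_sum, Finset.sum_comm]
      exact mul_le_mul_of_nonneg_left (Finset.sum_le_sum fun t _ => h1 t) (by positivity)
    have h3 : D1 P w l W ≤ n * a := by
      refine h2.trans ((Finset.sum_le_sum fun k _ => hX1 k).trans (le_of_eq ?_))
      rw [Finset.sum_const, Finset.card_univ, Fintype.card_fin, nsmul_eq_mul]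
    refine h3.trans ?_
    calc (n : ℝ) * a ≤ 2 * ((n : ℝ) + 1) ^ 2 * a := by
          apply mul_le_mul_of_nonneg_right _ ha0
          nlinarith
      _ ≤ 2 * ((n : ℝ) + 1) ^ 2 * ((4 * K3 + 2 * Real.pi) * (1 / ρ + ρ * s)) :=
          mul_le_mul_of_nonneg_left hale (by positivity)
      _ = _ := by ring
  · -- D2
    -- the products
    have hprod : ∀ (k m : Fin n) (t : ℤ), Gd P (fun x => XX {k} (l t) x * XX {m} (l t) x) :=
      fun k m t => (hgX {k} t).mul (hgX {m} t)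
    let dl : Fin n → Fin n → ℤ → ℝ := fun k m t => if k = m then vv {k} (l t) else 0
    have hB : ∀ k m : Fin n, (1 / (W : ℝ)) * ∑ t ∈ Finset.range W, ∫ p,
        |post P w (fun x => XX {k} (l (t : ℤ)) x * XX {m} (l (t : ℤ)) x) p.2 -
          dl k m (t : ℤ)| ∂(nu P w) ≤ 2 * a := by
      intro k m
      by_cases hkm : k = m
      · subst hkm
        have e : ∀ t : ℤ, (fun x => XX {k} (l t) x * XX {k} (l t) x) =
            fun x => XX {k} (l t) x ^ 2 := fun t => funext fun x => by ring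
        simp only [e, dl, if_true]
        exact (hX2 {k} (by simp)).trans (by linarith)
      · have hcard : ({k, m} : Finset (Fin n)).card ≤ 2 := by
          rw [Finset.card_pair hkm]
        have hXkm : ∀ (t : ℤ) x, XX {k, m} (l t) x = XX {k} (l t) x + XX {m} (l t) x := by
          intro t x
          unfold XX
          rw [Finset.sum_pair hkm, Finset.sum_singleton, Finset.sum_singleton]
        have hvkm : ∀ t : ℤ, vv {k, m} (l t) = vv {k} (l t) + vv {m} (l t) := by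
          intro t
          unfold vv
          rw [Finset.sum_pair hkm, Finset.sum_singleton, Finset.sum_singleton]
        have hterm : ∀ t : ℤ, ∫ p,
            |post P w (fun x => XX {k} (l t) x * XX {m} (l t) x) p.2 - dl k m t| ∂(nu P w) ≤
            1 / 2 * (∫ p, |post P w (fun x => XX {k, m} (l t) x ^ 2) p.2 - vv {k, m} (l t)|
              ∂(nu P w)) +
            1 / 2 * (∫ p, |post P w (fun x => XX {k} (l t) x ^ 2) p.2 - vv {k} (l t)|
              ∂(nu P w)) +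
            1 / 2 * (∫ p, |post P w (fun x => XX {m} (l t) x ^ 2) p.2 - vv {m} (l t)|
              ∂(nu P w)) := by
          intro t
          have hA : ∀ S : Finset (Fin n), Gd (nu P w)
              (fun p => |post P w (fun x => XX S (l t) x ^ 2) p.2 - vv S (l t)|) :=
            fun S => ((gd_post hE w (hgX2 S t)).sub (Gd.const _)).abs
          rw [← integral_const_mul, ← integral_const_mul, ← integral_const_mul,
            ← integral_add ((hA {k, m}).const_mul (1 / 2)).integrable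
              ((hA {k}).const_mul (1 / 2)).integrable,
            ← integral_add (((hA {k, m}).const_mul (1 / 2)).add
              ((hA {k}).const_mul (1 / 2))).integrable ((hA {m}).const_mul (1 / 2)).integrable]
          refine integral_mono ((gd_post hE w (hprod k m t)).sub (Gd.const _)).abs.integrable
            ((((hA {k, m}).const_mul (1 / 2)).add ((hA {k}).const_mul (1 / 2))).add
              ((hA {m}).const_mul (1 / 2))).integrable fun p => ?_
          simp only [dl, if_neg hkm, sub_zero]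
          have e1 : (fun x => XX {k} (l t) x * XX {m} (l t) x) =
              fun x => (1 / 2 * XX {k, m} (l t) x ^ 2 - 1 / 2 * XX {k} (l t) x ^ 2) -
                1 / 2 * XX {m} (l t) x ^ 2 := by
            funext x
            rw [hXkm]
            ring
          have e2 : post P w (fun x => XX {k} (l t) x * XX {m} (l t) x) p.2 =
              1 / 2 * (post P w (fun x => XX {k, m} (l t) x ^ 2) p.2 - vv {k, m} (l t)) -
              1 / 2 * (post P w (fun x => XX {k} (l t) x ^ 2) p.2 - vv {k} (l t)) -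
              1 / 2 * (post P w (fun x => XX {m} (l t) x ^ 2) p.2 - vv {m} (l t)) := by
            rw [e1, Inf2.post_sub hE w (((hgX2 {k, m} t).const_mul (1 / 2)).sub
              ((hgX2 {k} t).const_mul (1 / 2))) ((hgX2 {m} t).const_mul (1 / 2)),
              Inf2.post_sub hE w ((hgX2 {k, m} t).const_mul (1 / 2))
                ((hgX2 {k} t).const_mul (1 / 2)),
              post_const_mul hE w (f := fun x => XX {k, m} (l t) x ^ 2) (1 / 2) p.2,
              post_const_mul hE w (f := fun x => XX {k} (l t) x ^ 2) (1 / 2) p.2,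
              post_const_mul hE w (f := fun x => XX {m} (l t) x ^ 2) (1 / 2) p.2, hvkm]
            ring
          rw [e2]
          refine (abs_sub _ _).trans ?_
          refine (add_le_add (abs_sub _ _) le_rfl).trans ?_
          rw [abs_mul, abs_mul, abs_mul, abs_of_pos (by norm_num : (0 : ℝ) < 1 / 2)]
        have h1 : (1 / (W : ℝ)) * ∑ t ∈ Finset.range W, ∫ p,
            |post P w (fun x => XX {k} (l (t : ℤ)) x * XX {m} (l (t : ℤ)) x) p.2 -
              dl k m (t : ℤ)| ∂(nu P w) ≤ (1 / (W : ℝ)) * ∑ t ∈ Finset.range W, (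
            1 / 2 * (∫ p, |post P w (fun x => XX {k, m} (l (t : ℤ)) x ^ 2) p.2 -
              vv {k, m} (l (t : ℤ))| ∂(nu P w)) +
            1 / 2 * (∫ p, |post P w (fun x => XX {k} (l (t : ℤ)) x ^ 2) p.2 -
              vv {k} (l (t : ℤ))| ∂(nu P w)) +
            1 / 2 * (∫ p, |post P w (fun x => XX {m} (l (t : ℤ)) x ^ 2) p.2 -
              vv {m} (l (t : ℤ))| ∂(nu P w))) :=
          mul_le_mul_of_nonneg_left (Finset.sum_le_sum fun t _ => hterm t) (by positivity)
        refine h1.trans ?_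
        rw [Finset.sum_add_distrib, Finset.sum_add_distrib, ← Finset.mul_sum, ← Finset.mul_sum,
          ← Finset.mul_sum, mul_add, mul_add]
        have b1 := hX2 {k, m} hcard
        have b2 := hX2 {k} (by simp)
        have b3 := hX2 {m} (by simp)
        linarith
    have h1 : ∀ t : ℤ, ∫ p, |post P w (fun x => dot (l t) x ^ 2) p.2 - v| ∂(nu P w) ≤
        ∑ q : Fin n × Fin n, ∫ p,
          |post P w (fun x => XX {q.1} (l t) x * XX {q.2} (l t) x) p.2 - dl q.1 q.2 t|
            ∂(nu P w) := by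
      intro t
      have hgd : ∀ q : Fin n × Fin n, Gd (nu P w) (fun p =>
          |post P w (fun x => XX {q.1} (l t) x * XX {q.2} (l t) x) p.2 - dl q.1 q.2 t|) :=
        fun q => ((gd_post hE w (hprod q.1 q.2 t)).sub (Gd.const _)).abs
      have hd2 : Gd P (fun x => dot (l t) x ^ 2) := (hE.gd_dot (l t)).pow 2
      rw [← integral_finsetSum _ fun q _ => (hgd q).integrable]
      refine integral_mono ((gd_post hE w hd2).sub (Gd.const _)).abs.integrable
        (integrable_finsetSum _ fun q _ => (hgd q).integrable) fun p => ?_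
      simp only
      have e : (fun x => dot (l t) x ^ 2) =
          fun x => ∑ q : Fin n × Fin n, XX {q.1} (l t) x * XX {q.2} (l t) x := by
        funext x
        rw [dot_eq_sum, sq, Finset.sum_mul_sum, ← Finset.sum_product']
        rfl
      have ev : v = ∑ q : Fin n × Fin n, dl q.1 q.2 t := by
        rw [← hlv t, nsq_eq_sum, Fintype.sum_prod_type]
        refine Finset.sum_congr rfl fun k _ => ?_
        simp only [dl]
        rw [Finset.sum_ite_eq Finset.univ k, if_pos (Finset.mem_univ k)]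
      rw [e, post_sum hE w Finset.univ
        (fun (q : Fin n × Fin n) x => XX {q.1} (l t) x * XX {q.2} (l t) x)
        (fun q _ => hprod q.1 q.2 t), ev, ← Finset.sum_sub_distrib]
      exact Finset.abs_sum_le_sum_abs _ _
    have h2 : D2 P w l W v ≤ ∑ q : Fin n × Fin n, (1 / (W : ℝ)) * ∑ t ∈ Finset.range W, ∫ p,
        |post P w (fun x => XX {q.1} (l (t : ℤ)) x * XX {q.2} (l (t : ℤ)) x) p.2 -
          dl q.1 q.2 (t : ℤ)| ∂(nu P w) := by
      unfold D2
      rw [← Finset.mul_sum, Finset.sum_comm]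
      exact mul_le_mul_of_nonneg_left (Finset.sum_le_sum fun t _ => h1 t) (by positivity)
    have h3 : D2 P w l W v ≤ (n : ℝ) ^ 2 * (2 * a) := by
      refine h2.trans ((Finset.sum_le_sum fun q _ => hB q.1 q.2).trans (le_of_eq ?_))
      rw [Finset.sum_const, Finset.card_univ, Fintype.card_prod, Fintype.card_fin, nsmul_eq_mul]
      push_cast
      ring
    refine h3.trans ?_
    calc (n : ℝ) ^ 2 * (2 * a) ≤ 2 * ((n : ℝ) + 1) ^ 2 * a := by nlinarith
      _ ≤ 2 * ((n : ℝ) + 1) ^ 2 * ((4 * K3 + 2 * Real.pi) * (1 / ρ + ρ * s)) :=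
          mul_le_mul_of_nonneg_left hale (by positivity)
      _ = _ := by ring

end FULL
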