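import Pool.Agent.Lib.MP_8a5982_an.FULL.Blk

/-!
Project FULL, module LVL: blocks of cells.
-/

open MeasureTheory ProbabilityTheory Filter Topology

namespace FULL

theorem cell_blocks (η₀ : ℝ) (hη : 0 < η₀) : ∃ M : ℕ, ∀ J₀ : ℕ, 0 < J₀ → ∃ L : ℕ,
    ∀ (D : ℕ) (p : Fin D → ℝ), (∀ j, 0 ≤ p j) → ∑ j, p j ≤ 1 →
    ∃ B : Fin M → Finset (Fin D), (∀ r r', r ≠ r' → Disjoint (B r) (B r')) ∧
      (∀ r, ∀ i ∈ B r, 0 < p i) ∧
      (∀ r r', r < r' → ∀ i ∈ B r, ∀ j ∈ B r', (2 : ℝ) ^ J₀ * p j ≤ 2 * p i) ∧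
      (∑ j ∈ Finset.univ.filter (fun j => ∀ r, j ∉ B r), p j ≤ η₀) ∧
      ∀ r, (∑ j ∈ B r, p j ≤ η₀) ∨ (∀ i ∈ B r, ∀ j ∈ B r, p j ≤ 2 * 2 ^ L * p i) := by
  classical
  obtain ⟨M, hM⟩ := blocks η₀ hη
  refine ⟨M, fun J₀ hJ₀ => ?_⟩
  obtain ⟨L, hL⟩ := hM J₀ hJ₀
  refine ⟨L, fun D p hp hsum => ?_⟩
  have hle1 : ∀ j, p j ≤ 1 := fun j =>
    (Finset.single_le_sum (fun i _ => hp i) (Finset.mem_univ j)).trans hsum
  have hlv : ∀ j, ∃ n : ℕ, 0 < p j → (1 / 2 : ℝ) ^ (n + 1) < p j ∧ p j ≤ (1 / 2 : ℝ) ^ n := by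
    intro j
    by_cases h : 0 < p j
    · obtain ⟨n, h1, h2⟩ := exists_nat_pow_near_of_lt_one h (hle1 j)
        (by norm_num : (0 : ℝ) < 1 / 2) (by norm_num)
      exact ⟨n, fun _ => ⟨h1, h2⟩⟩
    · exact ⟨0, fun h' => absurd h' h⟩
  choose lv hlv using hlv
  set μ : ℕ → ℝ := fun i => ∑ j ∈ Finset.univ.filter (fun j => 0 < p j ∧ lv j = i), p j with hμ
  have hμ0 : ∀ i, 0 ≤ μ i := fun i => Finset.sum_nonneg fun j _ => hp j
  set N : ℕ := (Finset.univ.sup lv) + 1 with hN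
  have hlvN : ∀ j, lv j < N := fun j => Nat.lt_succ_of_le (Finset.le_sup (Finset.mem_univ j))
  have hμN : ∀ i, N ≤ i → μ i = 0 := by
    intro i hi
    rw [hμ]
    refine Finset.sum_eq_zero fun j hj => ?_
    rw [Finset.mem_filter] at hj
    have := hlvN j
    omega
  -- sums over sets of levels
  have hfib : ∀ s : Finset ℕ, ∑ i ∈ s, μ i =
      ∑ j ∈ Finset.univ.filter (fun j => 0 < p j ∧ lv j ∈ s), p j := by
    intro s
    rw [hμ]
    rw [← Finset.sum_fiberwise_of_maps_to (s := Finset.univ.filter (fun j => 0 < p j ∧ lv j ∈ s))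
      (t := s) (g := lv) (f := p)]
    · refine Finset.sum_congr rfl fun i hi => Finset.sum_congr ?_ fun _ _ => rfl
      ext j
      simp only [Finset.mem_filter, Finset.mem_univ, true_and]
      constructor
      · rintro ⟨h1, h2⟩
        exact ⟨⟨h1, h2 ▸ hi⟩, h2⟩
      · rintro ⟨⟨h1, _⟩, h2⟩
        exact ⟨h1, h2⟩
    · intro j hj
      exact (Finset.mem_filter.1 hj).2.2
  have hsumμ : ∑ i ∈ Finset.range N, μ i ≤ 1 := by
    rw [hfib]
    exact (Finset.sum_le_sum_of_subset_of_nonneg (Finset.filter_subset _ _)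
      fun j _ _ => hp j).trans hsum
  obtain ⟨B, hB1, hB2, hB3⟩ := hL μ hμ0 N hμN hsumμ
  have hmem : ∀ r j, j ∈ Finset.univ.filter (fun j => 0 < p j ∧ lv j ∈ B r) ↔
      0 < p j ∧ lv j ∈ B r := by
    intro r j
    simp
  have hlt : ∀ r r', r < r' → Disjoint (Finset.univ.filter (fun j => 0 < p j ∧ lv j ∈ B r))
      (Finset.univ.filter (fun j => 0 < p j ∧ lv j ∈ B r')) := by
    intro r r' h
    rw [Finset.disjoint_left]
    intro j hj hj'
    rw [hmem] at hj hj'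
    have := hB1 r r' h _ hj.2 _ hj'.2
    omega
  refine ⟨fun r => Finset.univ.filter (fun j => 0 < p j ∧ lv j ∈ B r), ?_, ?_, ?_, ?_, ?_⟩
  · intro r r' h
    rcases lt_or_gt_of_ne h with h | h
    · exact hlt r r' h
    · exact (hlt r' r h).symm
  · intro r i hi
    exact ((hmem r i).1 hi).1
  · intro r r' h i hi j hj
    rw [hmem] at hi hj
    have h1 := hB1 r r' h _ hi.2 _ hj.2
    have h2 := (hlv i hi.1).1
    have h3 := (hlv j hj.1).2
    have h4 : (1 / 2 : ℝ) ^ lv j ≤ (1 / 2 : ℝ) ^ (lv i + J₀) :=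
      pow_le_pow_of_le_one (by norm_num) (by norm_num) h1
    have h5 : (2 : ℝ) ^ J₀ * (1 / 2 : ℝ) ^ (lv i + J₀) = (1 / 2 : ℝ) ^ lv i := by
      rw [pow_add, one_div, inv_pow, inv_pow]
      field_simp
    have h6 : (0 : ℝ) < (2 : ℝ) ^ J₀ := by positivity
    have h7 : (1 / 2 : ℝ) ^ (lv i + 1) = (1 / 2 : ℝ) ^ lv i / 2 := by
      rw [pow_succ]; ring
    rw [h7] at h2
    calc (2 : ℝ) ^ J₀ * p j ≤ (2 : ℝ) ^ J₀ * (1 / 2 : ℝ) ^ (lv i + J₀) :=
          mul_le_mul_of_nonneg_left (h3.trans h4) h6.le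
      _ = (1 / 2 : ℝ) ^ lv i := h5
      _ ≤ 2 * p i := by linarith
  · refine le_trans (le_of_eq ?_) hB2
    rw [hfib]
    symm
    refine Finset.sum_subset ?_ ?_
    · intro j hj
      rw [Finset.mem_filter, Finset.mem_filter] at hj
      rw [Finset.mem_filter]
      refine ⟨Finset.mem_univ _, fun r h => ?_⟩
      rw [hmem] at h
      exact hj.2.2.2 r h.2
    · intro j hj hj'
      rw [Finset.mem_filter] at hj hj'
      by_contra hne
      have hpos : 0 < p j := lt_of_le_of_ne (hp j) (Ne.symm hne)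
      apply hj'
      refine ⟨Finset.mem_univ _, hpos, ?_⟩
      rw [Finset.mem_filter, Finset.mem_range]
      refine ⟨hlvN j, fun r h => hj.2 r ?_⟩
      rw [hmem]
      exact ⟨hpos, h⟩
  · intro r
    rcases hB3 r with h | h
    · left
      rw [← hfib]
      exact h
    · right
      intro i hi j hj
      rw [hmem] at hi hj
      have h1 := h _ hj.2 _ hi.2
      have h2 := (hlv i hi.1).1
      have h3 := (hlv j hj.1).2
      have h4 : (1 / 2 : ℝ) ^ (lv j + L) ≤ (1 / 2 : ℝ) ^ lv i :=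
        pow_le_pow_of_le_one (by norm_num) (by norm_num) h1
      have h5 : (2 : ℝ) ^ L * (1 / 2 : ℝ) ^ (lv j + L) = (1 / 2 : ℝ) ^ lv j := by
        rw [pow_add, one_div, inv_pow, inv_pow]
        field_simp
      have h6 : (0 : ℝ) < (2 : ℝ) ^ L := by positivity
      have h7 : (1 / 2 : ℝ) ^ (lv i + 1) = (1 / 2 : ℝ) ^ lv i / 2 := by
        rw [pow_succ]; ring
      rw [h7] at h2
      calc p j ≤ (2 : ℝ) ^ L * (1 / 2 : ℝ) ^ (lv j + L) := by rw [h5]; exact h3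
        _ ≤ (2 : ℝ) ^ L * (1 / 2 : ℝ) ^ lv i := mul_le_mul_of_nonneg_left h4 h6.le
        _ ≤ (2 : ℝ) ^ L * (2 * p i) := mul_le_mul_of_nonneg_left (by linarith) h6.le
        _ = 2 * 2 ^ L * p i := by ring

end FULL
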