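import Pool.Agent.Lib.MP_8a5982_an.FULL.Lvl
import Pool.Agent.Lib.MP_8a5982_an.FULL.Csm
import Pool.Agent.Lib.MP_8a5982_an.FULL.Ccl
import Pool.Agent.Lib.MP_8a5982_an.FULL.Del
import Pool.Agent.Lib.MP_8a5982_an.FULL.Cell

/-!
Project FULL: module MFT (helper24): telescoping over the blocks.
-/

open MeasureTheory ProbabilityTheory Filter Topology

namespace FULL

/-- the `r`-th block, empty for `M ≤ r` -/
def blockN {M D : ℕ} (B : Fin M → Finset (Fin D)) (r : ℕ) : Finset (Fin D) :=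
  if h : r < M then B ⟨r, h⟩ else ∅

/-- the union of the first `r` blocks -/
def unionN {M D : ℕ} (B : Fin M → Finset (Fin D)) (r : ℕ) : Finset (Fin D) :=
  (Finset.range r).biUnion (blockN B)

theorem mem_unionN {M D : ℕ} {B : Fin M → Finset (Fin D)} {r : ℕ} {j : Fin D} :
    j ∈ unionN B r ↔ ∃ r' : ℕ, r' < r ∧ ∃ h : r' < M, j ∈ B ⟨r', h⟩ := by
  simp only [unionN, Finset.mem_biUnion, Finset.mem_range]
  constructor
  · rintro ⟨r', h1, h2⟩
    unfold blockN at h2
    split_ifs at h2 with h3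
    · exact ⟨r', h1, h3, h2⟩
    · simp at h2
  · rintro ⟨r', h1, h3, h2⟩
    refine ⟨r', h1, ?_⟩
    unfold blockN
    rw [dif_pos h3]; exact h2

theorem unionN_succ {M D : ℕ} (B : Fin M → Finset (Fin D)) (r : ℕ) :
    unionN B (r + 1) = unionN B r ∪ blockN B r := by
  rw [unionN, Finset.range_add_one, Finset.biUnion_insert, Finset.union_comm]; rfl

theorem unionN_zero {M D : ℕ} (B : Fin M → Finset (Fin D)) : unionN B 0 = ∅ := by
  simp [unionN]

section

variable (σ : Measure UnitAddCircle) {n : ℕ} (a : Fin n → ℤ →₀ ℝ) (Q : ℕ) {D : ℕ}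
  (c : Fin D → ℕ)

theorem vA_empty : vA σ a Q c ∅ = 0 := by
  simp [vA, nsq, restr]

theorem SS_empty (P : Measure (Fin n × (Fin D × Bool) → ℝ)) [IsProbabilityMeasure P] (W : ℕ)
    (hW : 0 < W) : SS σ a Q c P W ∅ = 1 := by
  have h : ∀ t : ℤ, restr ∅ (win σ a Q c t) = fun _ => 0 := by
    intro t; funext i; simp [restr]
  simp only [SS, h, dot]
  have hW' : (W : ℝ) ≠ 0 := by exact_mod_cast hW.ne'
  simp [hW']

end

theorem vA_nonneg (σ : Measure UnitAddCircle) {n : ℕ} (a : Fin n → ℤ →₀ ℝ) (Q : ℕ) {D : ℕ}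
    (c : Fin D → ℕ) (A : Finset (Fin D)) : 0 ≤ vA σ a Q c A :=
  Finset.sum_nonneg fun _ _ => sq_nonneg _

/-- Theorem 1 -/
theorem mft (σ : Measure UnitAddCircle) [IsProbabilityMeasure σ]
    (hsymm : σ.map (fun x => -x) = σ) (hna : ∀ x, σ {x} = 0)
    (hsing : σ ⟂ₘ (volume : Measure UnitAddCircle)) {n : ℕ} (a : Fin n → ℤ →₀ ℝ)
    (η : ℝ) (hη : 0 < η) (hη1 : η ≤ 1) (ε : ℝ) (hε : 0 < ε) :
    ∃ Q₀ : ℕ, ∀ (Q : ℕ), Q₀ ≤ Q → ∀ (D : ℕ) (c : Fin D → ℕ),
      Function.Injective c → (∀ j, 2 * (c j + 1) ≤ Q) →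
      ∀ P : Measure (Fin n × (Fin D × Bool) → ℝ), Adm n P →
      |SS σ a Q c P ⌊η * Q⌋₊ Finset.univ - Real.exp (vA σ a Q c Finset.univ / 2)| ≤ ε := by
  obtain ⟨Kd, hKd, hdel⟩ := SS_delete σ hsymm hna a
  obtain ⟨Ks, hKs, hsmall⟩ := cell_small σ hsymm hna a η hη hη1
  set B2 : ℝ := l1 a ^ 2 with hB2
  have hB2n : 0 ≤ B2 := sq_nonneg _
  set E : ℝ := Real.exp (B2 / 2) with hE
  have hE1 : 1 ≤ E := Real.one_le_exp (by positivity)
  set C1 : ℝ := Kd * Real.sqrt (2 * B2) + E * B2 + E * Ks * B2 * Real.sqrt (2 * B2) with hC1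
  have hC1n : 0 ≤ C1 := by positivity
  set η₀ : ℝ := min 1 ((ε / (2 * (C1 + 1))) ^ 2) with hη₀
  have hη₀pos : 0 < η₀ := lt_min one_pos (by positivity)
  have hη₀1 : η₀ ≤ 1 := min_le_left _ _
  have hsq : Real.sqrt η₀ ≤ ε / (2 * (C1 + 1)) := by
    rw [Real.sqrt_le_left (by positivity)]
    exact min_le_right _ _
  have hη₀sq : η₀ ≤ Real.sqrt η₀ := by
    rw [Real.le_sqrt hη₀pos.le hη₀pos.le]
    nlinarith
  have hC1ε : C1 * Real.sqrt η₀ ≤ ε / 2 := by
    calc C1 * Real.sqrt η₀ ≤ (C1 + 1) * (ε / (2 * (C1 + 1))) :=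
          mul_le_mul (by linarith) hsq (Real.sqrt_nonneg _) (by linarith)
      _ = ε / 2 := by field_simp
  obtain ⟨M, hM⟩ := cell_blocks η₀ hη₀pos
  set ε' : ℝ := ε / (2 * E * (M + 1)) with hε'
  have hE0 : 0 < E := by linarith
  have hε'pos : 0 < ε' := by positivity
  have hMε : E * (M * ε') ≤ ε / 2 := by
    have : E * (M * ε') = (ε / 2) * (M / (M + 1)) := by rw [hε']; field_simp
    rw [this]
    have h1 : (M : ℝ) / (M + 1) ≤ 1 := by
      rw [div_le_one (by positivity)]; linarith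
    have h2 : 0 ≤ ε / 2 := by positivity
    exact mul_le_of_le_one_right h2 h1
  obtain ⟨J₁, hJ₁, hsm⟩ := hsmall ε' hε'pos
  obtain ⟨J₂, hJ₂, hcl⟩ := cell_cluster σ hsymm hna hsing a η hη hη1 ε' hε'pos
  obtain ⟨L, hL⟩ := hM (max J₁ J₂) (lt_of_lt_of_le hJ₁ (le_max_left _ _))
  obtain ⟨Q₁, hQ₁⟩ := hcl L
  refine ⟨max Q₁ (⌈1 / η⌉₊ + 1), fun Q hQ D c hc half P hP => ?_⟩
  have hQQ : Q₁ ≤ Q := le_trans (le_max_left _ _) hQ
  have hQ2 : ⌈1 / η⌉₊ + 1 ≤ Q := le_trans (le_max_right _ _) hQ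
  have hQ0 : 0 < Q := by omega
  have hηQ : 1 ≤ η * Q := by
    have h1 : 1 / η ≤ (Q : ℝ) := by
      refine le_trans (Nat.le_ceil _) ?_
      exact_mod_cast (by omega : ⌈1 / η⌉₊ ≤ Q)
    rw [div_le_iff₀ hη] at h1
    linarith
  set W : ℕ := ⌊η * Q⌋₊ with hWdef
  have hW : 0 < W := Nat.floor_pos.2 hηQ
  have hPp : IsProbabilityMeasure P := hP.1
  have hmass : ∑ j, 2 * mass σ Q c j ≤ 1 := mass_sum_le σ Q hQ0 c hc half hsymm hna
  have hm0 : ∀ j, 0 ≤ mass σ Q c j := fun j => ENNReal.toReal_nonneg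
  have hms : ∑ j, mass σ Q c j ≤ 1 := by
    have h1 := hmass
    rw [← Finset.mul_sum] at h1
    have h2 : 0 ≤ ∑ j, mass σ Q c j := Finset.sum_nonneg fun j _ => hm0 j
    linarith only [h1, h2]
  obtain ⟨B, hBd, hBp, hBs, hBdel, hBk⟩ := hL D (fun j => mass σ Q c j) hm0 hms
  -- pointwise bound of the norms
  have hvle : ∀ A : Finset (Fin D), vA σ a Q c A ≤ B2 := by
    intro A
    refine (vA_le σ a Q hQ0 c A).trans ?_
    have : ∑ j ∈ A, 2 * mass σ Q c j ≤ 1 :=
      (Finset.sum_le_sum_of_subset_of_nonneg (Finset.subset_univ A)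
        (fun j _ _ => mul_nonneg two_pos.le (hm0 j))).trans hmass
    exact mul_le_of_le_one_right hB2n this
  have hvsmall : ∀ A : Finset (Fin D), ∑ j ∈ A, mass σ Q c j ≤ η₀ →
      vA σ a Q c A ≤ 2 * B2 * η₀ := by
    intro A hA
    refine (vA_le σ a Q hQ0 c A).trans ?_
    rw [← Finset.mul_sum]
    have h1 : B2 * (2 * ∑ j ∈ A, mass σ Q c j) ≤ B2 * (2 * η₀) :=
      mul_le_mul_of_nonneg_left (mul_le_mul_of_nonneg_left hA two_pos.le) hB2n
    exact h1.trans (le_of_eq (by ring))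
  -- one block
  set err : ℕ → ℝ := fun r => ε' + Ks * (vA σ a Q c (blockN B r) * Real.sqrt (2 * B2 * η₀))
    with herr
  have hstep : ∀ r, |SS σ a Q c P W (unionN B r ∪ blockN B r) -
      Real.exp (vA σ a Q c (blockN B r) / 2) * SS σ a Q c P W (unionN B r)| ≤ err r := by
    intro r
    by_cases hr : r < M
    · have hb : blockN B r = B ⟨r, hr⟩ := by simp [blockN, hr]
      have hdisj : Disjoint (unionN B r) (blockN B r) := by
        rw [Finset.disjoint_left]
        intro j hj hj'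
        rw [hb] at hj'
        obtain ⟨r', h1, h2, h3⟩ := mem_unionN.1 hj
        have := hBd ⟨r', h2⟩ ⟨r, hr⟩ (by intro h; simp only [Fin.mk.injEq] at h; omega)
        exact (Finset.disjoint_left.1 this) h3 hj'
      have hposA : ∀ i ∈ unionN B r, 0 < mass σ Q c i := by
        intro i hi
        obtain ⟨r', h1, h2, h3⟩ := mem_unionN.1 hi
        exact hBp _ i h3
      have hsep : ∀ i ∈ unionN B r, ∀ j ∈ blockN B r,
          (2 : ℝ) ^ (max J₁ J₂) * mass σ Q c j ≤ 2 * mass σ Q c i := by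
        intro i hi j hj
        rw [hb] at hj
        obtain ⟨r', h1, h2, h3⟩ := mem_unionN.1 hi
        exact hBs ⟨r', h2⟩ ⟨r, hr⟩ h1 i h3 j hj
      have hsep' : ∀ J, J ≤ max J₁ J₂ → ∀ i ∈ unionN B r, ∀ j ∈ blockN B r,
          (2 : ℝ) ^ J * mass σ Q c j ≤ 2 * mass σ Q c i := by
        intro J hJ i hi j hj
        refine le_trans ?_ (hsep i hi j hj)
        exact mul_le_mul_of_nonneg_right (pow_le_pow_right₀ (by norm_num) hJ) (hm0 j)
      have hvb := vA_nonneg σ a Q c (blockN B r)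
      rcases hBk ⟨r, hr⟩ with hk | hk
      · have h1 := hsm Q hηQ D c hc half P hP (unionN B r) (blockN B r) hdisj
          (hsep' J₁ (le_max_left _ _)) hposA
        refine h1.trans ?_
        rw [herr]
        have h2 : vA σ a Q c (blockN B r) ≤ 2 * B2 * η₀ := hvsmall _ (by rw [hb]; exact hk)
        have h3 := Real.sqrt_le_sqrt h2
        have : vA σ a Q c (blockN B r) * Real.sqrt (vA σ a Q c (blockN B r)) ≤
            vA σ a Q c (blockN B r) * Real.sqrt (2 * B2 * η₀) :=
          mul_le_mul_of_nonneg_left h3 hvb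
        have := mul_le_mul_of_nonneg_left this hKs
        simp only
        linarith
      · have h1 := hQ₁ Q hQQ D c hc half P hP (unionN B r) (blockN B r) hdisj
          (hsep' J₂ (le_max_right _ _)) hposA (by rw [hb]; exact fun j hj => hBp _ j hj)
          (by rw [hb]; exact hk)
        refine h1.trans ?_
        rw [herr]
        have : 0 ≤ Ks * (vA σ a Q c (blockN B r) * Real.sqrt (2 * B2 * η₀)) := by positivity
        simp only
        linarith
    · have hb : blockN B r = ∅ := by simp [blockN, hr]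
      rw [herr]
      simp only [hb, Finset.union_empty, vA_empty]
      simp [hε'pos.le]
  -- telescoping
  have hdisjr : ∀ r, Disjoint (unionN B r) (blockN B r) := by
    intro r
    by_cases hr : r < M
    · have hb : blockN B r = B ⟨r, hr⟩ := by simp [blockN, hr]
      rw [Finset.disjoint_left]
      intro j hj hj'
      rw [hb] at hj'
      obtain ⟨r', h1, h2, h3⟩ := mem_unionN.1 hj
      have := hBd ⟨r', h2⟩ ⟨r, hr⟩ (by intro h; simp only [Fin.mk.injEq] at h; omega)
      exact (Finset.disjoint_left.1 this) h3 hj'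
    · have hb : blockN B r = ∅ := by simp [blockN, hr]
      rw [hb]; exact Finset.disjoint_empty_right _
  have herr0 : ∀ r, 0 ≤ err r := by
    intro r
    have := vA_nonneg σ a Q c (blockN B r)
    rw [herr]; positivity
  have htel : ∀ r, |SS σ a Q c P W (unionN B r) - Real.exp (vA σ a Q c (unionN B r) / 2)| ≤
      Real.exp (vA σ a Q c (unionN B r) / 2) * ∑ r' ∈ Finset.range r, err r' := by
    intro r
    induction r with
    | zero =>
      rw [unionN_zero, SS_empty σ a Q c P W hW, vA_empty]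
      simp
    | succ r ih =>
      rw [unionN_succ, Finset.sum_range_succ]
      have hv : vA σ a Q c (unionN B r ∪ blockN B r) =
          vA σ a Q c (unionN B r) + vA σ a Q c (blockN B r) := vA_union σ a Q c _ _ (hdisjr r)
      rw [hv]
      have he : Real.exp ((vA σ a Q c (unionN B r) + vA σ a Q c (blockN B r)) / 2) =
          Real.exp (vA σ a Q c (unionN B r) / 2) * Real.exp (vA σ a Q c (blockN B r) / 2) := by
        rw [← Real.exp_add]; congr 1; ring
      rw [he]
      set e1 := Real.exp (vA σ a Q c (unionN B r) / 2)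
      set e2 := Real.exp (vA σ a Q c (blockN B r) / 2)
      set S1 := SS σ a Q c P W (unionN B r)
      set S2 := SS σ a Q c P W (unionN B r ∪ blockN B r)
      have h1 : |S2 - e2 * S1| ≤ err r := hstep r
      have he1 : 1 ≤ e1 := Real.one_le_exp (by have := vA_nonneg σ a Q c (unionN B r); positivity)
      have he2 : 1 ≤ e2 := Real.one_le_exp (by have := vA_nonneg σ a Q c (blockN B r); positivity)
      have h2 : |e2 * S1 - e1 * e2| ≤ e2 * (e1 * ∑ r' ∈ Finset.range r, err r') := by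
        have : e2 * S1 - e1 * e2 = e2 * (S1 - e1) := by ring
        rw [this, abs_mul, abs_of_pos (by linarith)]
        exact mul_le_mul_of_nonneg_left ih (by linarith)
      have h3 : |S2 - e1 * e2| ≤ |S2 - e2 * S1| + |e2 * S1 - e1 * e2| := by
        have : S2 - e1 * e2 = (S2 - e2 * S1) + (e2 * S1 - e1 * e2) := by ring
        rw [this]; exact abs_add_le _ _
      have h4 : err r ≤ e1 * e2 * err r :=
        le_mul_of_one_le_left (herr0 r) (one_le_mul_of_one_le_of_one_le he1 he2)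
      calc |S2 - e1 * e2| ≤ err r + e2 * (e1 * ∑ r' ∈ Finset.range r, err r') :=
            h3.trans (add_le_add h1 h2)
        _ ≤ e1 * e2 * err r + e2 * (e1 * ∑ r' ∈ Finset.range r, err r') :=
            add_le_add h4 le_rfl
        _ = e1 * e2 * (∑ r' ∈ Finset.range r, err r' + err r) := by ring
  have hvsum : ∀ r, ∑ r' ∈ Finset.range r, vA σ a Q c (blockN B r') =
      vA σ a Q c (unionN B r) := by
    intro r
    induction r with
    | zero => rw [unionN_zero, vA_empty]; simp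
    | succ r ih => rw [Finset.sum_range_succ, ih, unionN_succ, vA_union σ a Q c _ _ (hdisjr r)]
  have herrsum : ∑ r' ∈ Finset.range M, err r' ≤
      M * ε' + Ks * B2 * (Real.sqrt (2 * B2) * Real.sqrt η₀) := by
    simp only [herr]
    rw [Finset.sum_add_distrib, Finset.sum_const, Finset.card_range, nsmul_eq_mul,
      ← Finset.mul_sum, ← Finset.sum_mul, hvsum]
    have h1 : Real.sqrt (2 * B2 * η₀) = Real.sqrt (2 * B2) * Real.sqrt η₀ :=
      Real.sqrt_mul (by positivity) _
    rw [h1]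
    have h2 := hvle (unionN B M)
    have h3 : vA σ a Q c (unionN B M) * (Real.sqrt (2 * B2) * Real.sqrt η₀) ≤
        B2 * (Real.sqrt (2 * B2) * Real.sqrt η₀) :=
      mul_le_mul_of_nonneg_right h2 (by positivity)
    have h4 := mul_le_mul_of_nonneg_left h3 hKs
    linarith
  -- the deleted cells
  set Del : Finset (Fin D) := Finset.univ.filter (fun j => ∀ r, j ∉ B r) with hDel
  have huniv : (Finset.univ : Finset (Fin D)) = unionN B M ∪ Del := by
    ext j
    simp only [Finset.mem_univ, Finset.mem_union, true_iff, hDel, Finset.mem_filter, true_and]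
    by_cases h : ∀ r, j ∉ B r
    · exact Or.inr h
    · push Not at h
      obtain ⟨r, hr⟩ := h
      exact Or.inl (mem_unionN.2 ⟨r.1, r.2, r.2, hr⟩)
  have hdd : Disjoint (unionN B M) Del := by
    rw [Finset.disjoint_left]
    intro j hj hj'
    obtain ⟨r', h1, h2, h3⟩ := mem_unionN.1 hj
    rw [hDel, Finset.mem_filter] at hj'
    exact hj'.2 _ h3
  have hvD : vA σ a Q c Del ≤ 2 * B2 * η₀ := hvsmall Del hBdel
  have hvD0 := vA_nonneg σ a Q c Del
  have h1 := (hdel Q hQ0 D c hc half P hP W hW (unionN B M) Del hdd).1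
  have h2 := htel M
  rw [huniv, vA_union σ a Q c _ _ hdd]
  have hu0 := vA_nonneg σ a Q c (unionN B M)
  have huu : vA σ a Q c (unionN B M) + vA σ a Q c Del ≤ B2 := by
    rw [← vA_union σ a Q c _ _ hdd]; exact hvle _
  have h3 : |Real.exp (vA σ a Q c (unionN B M) / 2) -
      Real.exp ((vA σ a Q c (unionN B M) + vA σ a Q c Del) / 2)| ≤ E * B2 * η₀ := by
    have hle : Real.exp (vA σ a Q c (unionN B M) / 2) ≤
        Real.exp ((vA σ a Q c (unionN B M) + vA σ a Q c Del) / 2) :=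
      Real.exp_le_exp.2 (by linarith)
    rw [abs_sub_comm, abs_of_nonneg (by linarith)]
    have h4 : Real.exp (vA σ a Q c (unionN B M) / 2) =
        Real.exp ((vA σ a Q c (unionN B M) + vA σ a Q c Del) / 2) *
          Real.exp (-(vA σ a Q c Del / 2)) := by
      rw [← Real.exp_add]; congr 1; ring
    have h5 : 1 - vA σ a Q c Del / 2 ≤ Real.exp (-(vA σ a Q c Del / 2)) := by
      have := Real.add_one_le_exp (-(vA σ a Q c Del / 2)); linarith
    have h6 : Real.exp ((vA σ a Q c (unionN B M) + vA σ a Q c Del) / 2) ≤ E :=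
      Real.exp_le_exp.2 (by linarith)
    have h7 := Real.exp_pos ((vA σ a Q c (unionN B M) + vA σ a Q c Del) / 2)
    rw [h4]
    set X := Real.exp ((vA σ a Q c (unionN B M) + vA σ a Q c Del) / 2)
    have h8 : X - X * Real.exp (-(vA σ a Q c Del / 2)) ≤ X * (vA σ a Q c Del / 2) := by
      have e8 : X - X * Real.exp (-(vA σ a Q c Del / 2)) =
          X * (1 - Real.exp (-(vA σ a Q c Del / 2))) := by ring
      rw [e8]
      exact mul_le_mul_of_nonneg_left (by clear_value X; linarith only [h5]) h7.le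
    have h9 : X * (vA σ a Q c Del / 2) ≤ E * (B2 * η₀) :=
      mul_le_mul h6 (by linarith only [hvD]) (div_nonneg hvD0 two_pos.le) hE0.le
    calc X - X * Real.exp (-(vA σ a Q c Del / 2)) ≤ X * (vA σ a Q c Del / 2) := h8
      _ ≤ E * (B2 * η₀) := h9
      _ = E * B2 * η₀ := by ring
  have h4 : Real.exp (vA σ a Q c (unionN B M) / 2) ≤ E := Real.exp_le_exp.2 (by linarith [hvle (unionN B M)])
  have herrn : 0 ≤ ∑ r' ∈ Finset.range M, err r' := Finset.sum_nonneg fun r _ => herr0 r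
  have h5 : |SS σ a Q c P W (unionN B M) - Real.exp (vA σ a Q c (unionN B M) / 2)| ≤
      E * (M * ε' + Ks * B2 * (Real.sqrt (2 * B2) * Real.sqrt η₀)) :=
    h2.trans (mul_le_mul h4 herrsum herrn (by linarith))
  have h6 : Kd * Real.sqrt (vA σ a Q c Del) ≤ Kd * (Real.sqrt (2 * B2) * Real.sqrt η₀) := by
    rw [← Real.sqrt_mul (by positivity)]
    exact mul_le_mul_of_nonneg_left (Real.sqrt_le_sqrt hvD) hKd
  have h7 : E * B2 * η₀ ≤ E * B2 * Real.sqrt η₀ :=
    mul_le_mul_of_nonneg_left hη₀sq (by positivity)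
  have hfin : Kd * (Real.sqrt (2 * B2) * Real.sqrt η₀) + E * (M * ε' + Ks * B2 *
      (Real.sqrt (2 * B2) * Real.sqrt η₀)) + E * B2 * Real.sqrt η₀ =
      C1 * Real.sqrt η₀ + E * (M * ε') := by
    rw [hC1]; ring
  have h8 : |SS σ a Q c P W (unionN B M ∪ Del) -
      Real.exp ((vA σ a Q c (unionN B M) + vA σ a Q c Del) / 2)| ≤
      |SS σ a Q c P W (unionN B M ∪ Del) - SS σ a Q c P W (unionN B M)| +
      |SS σ a Q c P W (unionN B M) - Real.exp (vA σ a Q c (unionN B M) / 2)| +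
      |Real.exp (vA σ a Q c (unionN B M) / 2) -
        Real.exp ((vA σ a Q c (unionN B M) + vA σ a Q c Del) / 2)| := by
    have := abs_add_three (SS σ a Q c P W (unionN B M ∪ Del) - SS σ a Q c P W (unionN B M))
      (SS σ a Q c P W (unionN B M) - Real.exp (vA σ a Q c (unionN B M) / 2))
      (Real.exp (vA σ a Q c (unionN B M) / 2) -
        Real.exp ((vA σ a Q c (unionN B M) + vA σ a Q c Del) / 2))
    refine le_trans (le_of_eq ?_) this
    congr 1; ring
  linarith only [h8, h1, h3, h5, h6, h7, hfin, hC1ε, hMε]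

end FULL
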