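import Pool.Agent.Lib.MP_8a5982_an.FULL.Defs
import Pool.Agent.Lib.MP_8a5982_an.FULL.Gdc
import Pool.Agent.Lib.MP_8a5982_an.FULL.Chan1
import Pool.Agent.Lib.MP_8a5982_an.FULL.Chan2
import Pool.Agent.Lib.MP_8a5982_an.FULL.Post1

/-!
Project FULL, module TILT: exponential tilting of the channel.
-/

open MeasureTheory ProbabilityTheory Filter Topology

namespace FULL

section tilt
variable {ι : Type} [Fintype ι] {P : Measure (ι → ℝ)} {C : ℝ}

theorem dens_tilt (w : ι → NNReal) (u x y : ι → ℝ) :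
    Real.exp (dot u x) * dens w x y = dens w x (y + u) := by
  unfold dens dot
  rw [← Real.exp_add, ← Finset.sum_add_distrib]
  congr 1
  refine Finset.sum_congr rfl fun i _ => ?_
  simp only [Pi.add_apply]
  ring

/-- the function of `y` by which `e^{<u,x>}` and the Cameron-Martin density differ -/
noncomputable def H62.tiltG (w : ι → NNReal) (u : ι → ℝ) (y : ι → ℝ) : ℝ :=
  Real.exp (dot (fun i => u i / w i) y) * Real.exp (∑ i, u i ^ 2 / (2 * w i))

theorem H62.tiltG_mul (w : ι → NNReal) (u : ι → ℝ) (hu : ∀ i, w i = 0 → u i = 0)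
    (p : (ι → ℝ) × (ι → ℝ)) :
    H62.tiltG w u p.2 * cm w (-u) p = Real.exp (dot u p.1) := by
  unfold H62.tiltG cm dot noise
  rw [← Real.exp_add, ← Real.exp_add, ← Finset.sum_add_distrib, ← Finset.sum_add_distrib]
  congr 1
  refine Finset.sum_congr rfl fun i _ => ?_
  simp only [Pi.neg_apply]
  by_cases h : w i = 0
  · rw [hu i h, h]
    simp
  · have h' : (w i : ℝ) ≠ 0 := by
      intro h0
      exact h (by exact_mod_cast h0)
    field_simp
    ring

theorem tilt (hP : ExpM P C) (w : ι → NNReal) (u : ι → ℝ) (hu : ∀ i, w i = 0 → u i = 0)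
    {f g : (ι → ℝ) → ℝ} (hf : Gd P f) (hg : Gd (nu P w) (fun p => g p.2)) :
    ∫ p, g p.2 * Real.exp (dot u p.1) * f p.1 ∂(nu P w) =
      ∫ p, g p.2 * Real.exp (dot u p.1) * post P w f (p.2 + u) ∂(nu P w) := by
  have := hP.prob
  have : IsProbabilityMeasure (nu P w) := isProbability_nu w
  have hu' : ∀ i, w i = 0 → (-u) i = 0 := by
    intro i hi
    rw [Pi.neg_apply, hu i hi, neg_zero]
  have hgm : Measurable g := by
    have h1 : Measurable (fun y : ι → ℝ => ((0 : ι → ℝ), y)) := measurable_const.prodMk measurable_id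
    exact hg.meas.comp h1
  have hGG : Gd (nu P w) (fun p => g p.2 * H62.tiltG w u p.2) := by
    unfold H62.tiltG
    exact hg.mul ((Gd.nu_exp_snd w hP _).mul (Gd.const _))
  have hGm : Measurable (fun y => g y * H62.tiltG w u y) := by
    have h1 : Measurable (fun y : ι → ℝ => ((0 : ι → ℝ), y)) := measurable_const.prodMk measurable_id
    exact hGG.meas.comp h1
  have hsh : Gd (nu P w) (fun p => g (p.2 + -u) * H62.tiltG w u (p.2 + -u)) :=
    Gd.shift w hP (-u) hu' hGG
  have e1 : ∀ p : (ι → ℝ) × (ι → ℝ), g p.2 * Real.exp (dot u p.1) * f p.1 =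
      (g p.2 * H62.tiltG w u p.2 * f p.1) * cm w (-u) p := by
    intro p
    rw [← H62.tiltG_mul w u hu p]
    ring
  have e2 : ∀ p : (ι → ℝ) × (ι → ℝ), g p.2 * Real.exp (dot u p.1) * post P w f (p.2 + u) =
      (g p.2 * H62.tiltG w u p.2 * post P w f (p.2 + u)) * cm w (-u) p := by
    intro p
    rw [← H62.tiltG_mul w u hu p]
    ring
  simp only [e1, e2]
  rw [← integral_shift w (-u) hu' (fun p => g p.2 * H62.tiltG w u p.2 * f p.1)
      ((hGm.comp measurable_snd).mul (hf.meas.comp measurable_fst)),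
    ← integral_shift w (-u) hu' (fun p => g p.2 * H62.tiltG w u p.2 * post P w f (p.2 + u))
      ((hGm.comp measurable_snd).mul
        ((measurable_post hP w hf.meas).comp (measurable_snd.add measurable_const)))]
  have e3 : ∀ p : (ι → ℝ) × (ι → ℝ), p.2 + -u + u = p.2 := fun p => by
    rw [neg_add_cancel_right]
  simp only [e3]
  exact tower hP w (g := fun y => g (y + -u) * H62.tiltG w u (y + -u)) hf hsh

end tilt

end FULL
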