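import Pool.Agent.Lib.MP_8a5982_an.FULL.Mm1
import Pool.Agent.Lib.MP_8a5982_an.FULL.Tilt
import Pool.Agent.Lib.MP_8a5982_an.FULL.Cmk
import Pool.Agent.Lib.MP_8a5982_an.FULL.Diff

/-!
Project FULL, module MM2: the derivative of the function `m_t`.
-/

open MeasureTheory ProbabilityTheory Filter Topology

namespace FULL

section mm2_aux

variable {ι : Type} [Fintype ι] [DecidableEq ι] {P : Measure (ι → ℝ)} {C₀ : ℝ}

/-- `hfac` has all moments -/
theorem mm2_gd_hfac (hP : ExpM P C₀) (w : ι → NNReal) (a l : ι → ℝ) (c : ℝ) :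
    Gd (nu P w) (hfac a l c) := by
  have := hP.prob
  have := isProbability_nu (P := P) w
  have h := (Gd.nu_exp_snd w hP a).mul (Gd.nu_fst w (hP.gd_exp (c • l)))
  have e : (fun p : (ι → ℝ) × (ι → ℝ) => Real.exp (dot a p.2) * Real.exp (dot (c • l) p.1)) =
      hfac a l c := by
    funext p
    rw [← Real.exp_add, dot_smul]
    rfl
  rw [← e]
  exact h

theorem mm2_wt_zero (A G : Finset ι) (s : NNReal) (hs : 0 < s) (l : ι → ℝ)
    (hl : ∀ i, i ∉ G → l i = 0) (θ : ℝ) : ∀ i, wt A G s i = 0 → (θ • l) i = 0 := by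
  intro i hi
  by_cases hG : i ∈ G
  · have : wt A G s i = s := by simp [wt, onG, hG]
    rw [this] at hi
    exact absurd hi hs.ne'
  · simp [hl i hG]

theorem mm2_orth (A G : Finset ι) (a l : ι → ℝ)
    (hAG : Disjoint A G) (ha : ∀ i, i ∉ A → a i = 0) (hl : ∀ i, i ∉ G → l i = 0) :
    dot a l = 0 := by
  refine Finset.sum_eq_zero fun i _ => ?_
  by_cases hi : i ∈ A
  · rw [hl i (Finset.disjoint_left.mp hAG hi), mul_zero]
  · rw [ha i hi, zero_mul]

theorem mm2_hfac_shift (A G : Finset ι) (a l : ι → ℝ) (c θ : ℝ)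
    (hAG : Disjoint A G) (ha : ∀ i, i ∉ A → a i = 0) (hl : ∀ i, i ∉ G → l i = 0)
    (p : (ι → ℝ) × (ι → ℝ)) : hfac a l c (p.1, p.2 + θ • l) = hfac a l c p := by
  unfold hfac
  have : dot a (p.2 + θ • l) = dot a p.2 := by
    rw [dot_comm, dot_add, dot_smul, dot_comm p.2 a, dot_comm l a,
      mm2_orth A G a l hAG ha hl]
    ring
  simp only [this]

/-- the integral of `hfac` times a function of `x` -/
theorem hfac_integral_mul (hP : ExpM P C₀) (A G : Finset ι) (s : NNReal) (a l : ι → ℝ) (c : ℝ)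
    (hAG : Disjoint A G) (ha : ∀ i, i ∉ A → a i = 0) {f : (ι → ℝ) → ℝ} (hf : Measurable f) :
    ∫ p, hfac a l c p * f p.1 ∂(nu P (wt A G s)) =
      Real.exp (nsq a / 2) * ∫ x, Real.exp (dot a x + c * dot l x) * f x ∂P := by
  have := hP.prob
  have := isProbability_gam (wt A G s)
  have hm : Measurable (fun p : (ι → ℝ) × (ι → ℝ) => hfac a l c p * f p.1) :=
    (H62.measurable_hfac a l c).mul (hf.comp measurable_fst)
  rw [integral_nu_direct (wt A G s) _ hm]
  have e : ∀ p : (ι → ℝ) × (ι → ℝ), hfac a l c (p.1, obs (wt A G s) p) * f p.1 =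
      (Real.exp (dot a p.1 + c * dot l p.1) * f p.1) * Real.exp (dot a p.2) := by
    intro p
    rw [H62.hfac_obs A G s a l c hAG ha]
    ring
  simp only [e]
  rw [integral_prod_mul (μ := P) (ν := gam (wt A G s))
    (fun x => Real.exp (dot a x + c * dot l x) * f x) (fun B => Real.exp (dot a B)),
    integral_exp_gam, mul_comm]
  congr 2
  unfold nsq
  congr 1
  refine Finset.sum_congr rfl fun i _ => ?_
  by_cases hi : i ∈ A
  · rw [H62.wt_on_A A G s hAG i hi, NNReal.coe_one, one_mul]
  · rw [ha i hi]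
    ring

/-- the derivative of the exponential moment -/
theorem mm2_deriv (hP : ExpM P C₀) (a l : ι → ℝ) (c : ℝ) :
    HasDerivAt (fun c : ℝ => ∫ x, Real.exp (dot a x + c * dot l x) ∂P)
      (∫ x, Real.exp (dot a x + c * dot l x) * dot l x ∂P) c := by
  have := hP.prob
  have hm : ∀ c : ℝ, Measurable (fun x => Real.exp (dot a x + c * dot l x)) := fun c =>
    ((measurable_dot a).add ((measurable_dot l).const_mul c)).exp
  have ge : ∀ c : ℝ, Gd P (fun x => Real.exp (dot a x + c * dot l x)) := by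
    intro c
    have h := (hP.gd_exp a).mul (hP.gd_exp (c • l))
    have e : (fun x : ι → ℝ => Real.exp (dot a x) * Real.exp (dot (c • l) x)) =
        fun x => Real.exp (dot a x + c * dot l x) := by
      funext x
      rw [← Real.exp_add, dot_smul]
    rw [← e]
    exact h
  have gb := ((ge (c + 1)).add (ge (c - 1))).mul (hP.gd_dot l).abs
  refine (hasDerivAt_integral_of_dominated_loc_of_deriv_le (μ := P)
    (F := fun c x => Real.exp (dot a x + c * dot l x))
    (F' := fun c x => Real.exp (dot a x + c * dot l x) * dot l x) (s := Metric.ball c 1)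
    (bound := fun x => (Real.exp (dot a x + (c + 1) * dot l x) +
      Real.exp (dot a x + (c - 1) * dot l x)) * |dot l x|)
    (Metric.ball_mem_nhds c one_pos) (Eventually.of_forall fun c => (hm c).aestronglyMeasurable)
    (ge c).integrable ((ge c).mul (hP.gd_dot l)).meas.aestronglyMeasurable ?_ gb.integrable ?_).2
  · refine Eventually.of_forall fun x c' hc' => ?_
    rw [Real.norm_eq_abs, abs_mul, abs_of_pos (Real.exp_pos _)]
    apply mul_le_mul_of_nonneg_right _ (abs_nonneg _)
    rw [Metric.mem_ball, Real.dist_eq, abs_lt] at hc'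
    rcases le_total 0 (dot l x) with h | h
    · have h1 : Real.exp (dot a x + c' * dot l x) ≤ Real.exp (dot a x + (c + 1) * dot l x) := by
        apply Real.exp_le_exp.2
        nlinarith [mul_nonneg (show 0 ≤ c + 1 - c' by linarith) h]
      have h2 := Real.exp_pos (dot a x + (c - 1) * dot l x)
      linarith
    · have h1 : Real.exp (dot a x + c' * dot l x) ≤ Real.exp (dot a x + (c - 1) * dot l x) := by
        apply Real.exp_le_exp.2
        nlinarith [mul_nonneg (show 0 ≤ c' - (c - 1) by linarith) (neg_nonneg.2 h)]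
      have h2 := Real.exp_pos (dot a x + (c + 1) * dot l x)
      linarith
  · refine Eventually.of_forall fun x c' _ => ?_
    have h1 : HasDerivAt (fun c : ℝ => dot a x + c * dot l x) (dot l x) c' := by
      simpa using ((hasDerivAt_id c').mul_const (dot l x)).const_add (dot a x)
    exact h1.exp

/-- the bound of the Cameron-Martin density, uniform in the shift -/
theorem mm2_cm_le (A G : Finset ι) (s : NNReal) (hs : 0 < s) (l : ι → ℝ)
    (hl : ∀ i, i ∉ G → l i = 0) (c θ : ℝ) (hθ : 0 ≤ θ) (hθc : θ ≤ c)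
    (p : (ι → ℝ) × (ι → ℝ)) :
    cm (wt A G s) (θ • l) p ≤ Real.exp (dot ((c / (s : ℝ)) • l) (noise (wt A G s) p)) +
      Real.exp (dot ((-(c / (s : ℝ))) • l) (noise (wt A G s) p)) := by
  have hs' : (0 : ℝ) < s := by exact_mod_cast hs
  set X : ℝ := dot l (noise (wt A G s) p) / s with hX
  have h1 : cm (wt A G s) (θ • l) p ≤ Real.exp (θ * X) := by
    unfold cm
    apply Real.exp_le_exp.2
    have h2 : θ * X = ∑ i, θ * (l i * noise (wt A G s) p i) / s := by
      rw [hX]
      unfold dot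
      rw [Finset.sum_div, Finset.mul_sum]
      refine Finset.sum_congr rfl fun i _ => ?_
      ring
    rw [h2]
    refine Finset.sum_le_sum fun i _ => ?_
    by_cases hi : i ∈ G
    · have hw : wt A G s i = s := by simp [wt, onG, hi]
      rw [hw]
      have h3 : 0 ≤ (θ • l) i ^ 2 / (2 * (s : ℝ)) := by positivity
      have h4 : (θ • l) i * noise (wt A G s) p i / s = θ * (l i * noise (wt A G s) p i) / s := by
        simp only [Pi.smul_apply, smul_eq_mul]; ring
      linarith
    · simp [hl i hi]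
  have e1 : dot ((c / (s : ℝ)) • l) (noise (wt A G s) p) = c * X := by
    rw [dot_smul, hX]; ring
  have e2 : dot ((-(c / (s : ℝ))) • l) (noise (wt A G s) p) = -(c * X) := by
    rw [dot_smul, hX]; ring
  rw [e1, e2]
  refine h1.trans ?_
  rcases le_total 0 X with h | h
  · have h3 : Real.exp (θ * X) ≤ Real.exp (c * X) :=
      Real.exp_le_exp.2 (mul_le_mul_of_nonneg_right hθc h)
    have := Real.exp_pos (-(c * X))
    linarith
  · have h3 : Real.exp (θ * X) ≤ Real.exp (-(c * X)) := by
      apply Real.exp_le_exp.2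
      nlinarith [mul_nonneg hθ (neg_nonneg.2 h), mul_nonneg (hθ.trans hθc) (neg_nonneg.2 h)]
    have := Real.exp_pos (c * X)
    linarith

/-- joint integrability of the remainder term -/
theorem mm2_joint (hP : ExpM P C₀) (A G : Finset ι) (s : NNReal) (hs : 0 < s) (a l : ι → ℝ)
    (c : ℝ) (hAG : Disjoint A G) (ha : ∀ i, i ∉ A → a i = 0) (hl : ∀ i, i ∉ G → l i = 0) :
    Integrable (fun q : ℝ × ((ι → ℝ) × (ι → ℝ)) => (c - q.1) * (hfac a l c q.2 *
      kap P (wt A G s) (dot l) (dot l) (dot l) (q.2.2 + q.1 • l)))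
      ((volume.restrict (Set.Ioc (0 : ℝ) c)).prod (nu P (wt A G s))) := by
  have := hP.prob
  have := isProbability_nu (P := P) (wt A G s)
  set ν := nu P (wt A G s) with hν
  have gl := hP.gd_dot l
  have gk := gd_kap hP (wt A G s) gl gl gl
  have gh := mm2_gd_hfac hP (wt A G s) a l c
  have hkm : Measurable (fun q : ℝ × ((ι → ℝ) × (ι → ℝ)) =>
      kap P (wt A G s) (dot l) (dot l) (dot l) (q.2.2 + q.1 • l)) :=
    Measurable.comp (g := fun q : ℝ × (ι → ℝ) =>
        kap P (wt A G s) (dot l) (dot l) (dot l) (q.2 + q.1 • l))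
      (f := fun q : ℝ × ((ι → ℝ) × (ι → ℝ)) => (q.1, q.2.2))
      (measurable_kap_shift hP (wt A G s) l gl gl gl)
      (measurable_fst.prodMk (measurable_snd.comp measurable_snd))
  have hmeas : Measurable (fun q : ℝ × ((ι → ℝ) × (ι → ℝ)) => (c - q.1) * (hfac a l c q.2 *
      kap P (wt A G s) (dot l) (dot l) (dot l) (q.2.2 + q.1 • l))) :=
    (measurable_fst.const_sub c).mul ((gh.meas.comp measurable_snd).mul hkm)
  have gks : ∀ θ : ℝ, Gd ν (fun p => kap P (wt A G s) (dot l) (dot l) (dot l) (p.2 + θ • l)) :=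
    fun θ => Gd.shift (wt A G s) hP (θ • l) (mm2_wt_zero A G s hs l hl θ) gk
  rw [integrable_prod_iff hmeas.aestronglyMeasurable]
  refine ⟨Eventually.of_forall fun θ => ?_, ?_⟩
  · exact (((gh.mul (gks θ)).const_mul (c - θ))).integrable
  · -- the uniform bound
    obtain ⟨K, hK0, hK⟩ : ∃ K : ℝ, 0 ≤ K ∧ ∀ i, (wt A G s i : ℝ) ≤ K :=
      ⟨∑ i, (wt A G s i : ℝ), Finset.sum_nonneg fun i _ => (wt A G s i).2,
        fun i => Finset.single_le_sum (fun i _ => (wt A G s i).2) (Finset.mem_univ i)⟩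
    have gE : ∀ u : ι → ℝ, Gd ν (fun p => Real.exp (dot u (noise (wt A G s) p))) := fun u =>
      Gd.nu_noise (wt A G s) ((expM_gam (wt A G s) K hK0 hK).gd_exp u)
    have gB := (gh.mul gk.abs).mul ((gE ((c / (s : ℝ)) • l)).add (gE ((-(c / (s : ℝ))) • l)))
    set B : ℝ := ∫ p, (hfac a l c p * |kap P (wt A G s) (dot l) (dot l) (dot l) p.2|) *
      (Real.exp (dot ((c / (s : ℝ)) • l) (noise (wt A G s) p)) +
        Real.exp (dot ((-(c / (s : ℝ))) • l) (noise (wt A G s) p))) ∂ν with hB
    have hbound : ∀ θ : ℝ, 0 ≤ θ → θ ≤ c → ∫ p, hfac a l c p *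
        |kap P (wt A G s) (dot l) (dot l) (dot l) (p.2 + θ • l)| ∂ν ≤ B := by
      intro θ h0 h1
      have hm : Measurable (fun p : (ι → ℝ) × (ι → ℝ) =>
          hfac a l c p * |kap P (wt A G s) (dot l) (dot l) (dot l) p.2|) := (gh.mul gk.abs).meas
      have key := integral_shift (P := P) (wt A G s) (θ • l) (mm2_wt_zero A G s hs l hl θ) _ hm
      simp only [mm2_hfac_shift A G a l c θ hAG ha hl] at key
      rw [hν, key, hB]
      refine integral_mono ((gh.mul gk.abs).mul (Gd.cm (wt A G s) hP (θ • l))).integrable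
        gB.integrable fun p => ?_
      exact mul_le_mul_of_nonneg_left (mm2_cm_le A G s hs l hl c θ h0 h1 p)
        (mul_nonneg (Real.exp_pos _).le (abs_nonneg _))
    have hmn : Measurable (fun q : ℝ × ((ι → ℝ) × (ι → ℝ)) => ‖(c - q.1) * (hfac a l c q.2 *
      kap P (wt A G s) (dot l) (dot l) (dot l) (q.2.2 + q.1 • l))‖) := hmeas.norm
    refine Integrable.mono' (g := fun _ => c * B) ?_
      (hmn.aestronglyMeasurable.integral_prod_right') ?_
    · exact integrable_const _
    · refine (ae_restrict_iff' measurableSet_Ioc).2 (Eventually.of_forall fun θ hθ => ?_)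
      have h0 : ∀ p : (ι → ℝ) × (ι → ℝ), ‖(c - θ) * (hfac a l c p *
          kap P (wt A G s) (dot l) (dot l) (dot l) (p.2 + θ • l))‖ = (c - θ) * (hfac a l c p *
          |kap P (wt A G s) (dot l) (dot l) (dot l) (p.2 + θ • l)|) := by
        intro p
        rw [Real.norm_eq_abs, abs_mul, abs_mul, abs_of_nonneg (sub_nonneg.2 hθ.2),
          abs_of_pos (show 0 < hfac a l c p from Real.exp_pos _)]
      simp only [h0]
      rw [integral_const_mul]
      have h2 : 0 ≤ ∫ p, hfac a l c p *
          |kap P (wt A G s) (dot l) (dot l) (dot l) (p.2 + θ • l)| ∂ν :=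
        integral_nonneg fun p => mul_nonneg (Real.exp_pos _).le (abs_nonneg _)
      rw [Real.norm_eq_abs, abs_of_nonneg (mul_nonneg (sub_nonneg.2 hθ.2) h2)]
      exact mul_le_mul (by linarith [hθ.1]) (hbound θ hθ.1.le hθ.2) h2 (hθ.1.le.trans hθ.2)

/-- interval integrability of the remainder -/
theorem gterm_intervalIntegrable (hP : ExpM P C₀) (A G : Finset ι) (s : NNReal) (hs : 0 < s)
    (a l : ι → ℝ) (c : ℝ) (hc : 0 ≤ c) (hAG : Disjoint A G) (ha : ∀ i, i ∉ A → a i = 0)
    (hl : ∀ i, i ∉ G → l i = 0) :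
    IntervalIntegrable (fun θ => (c - θ) * gterm P A G s c θ a l l l) volume 0 c := by
  have := hP.prob
  have := isProbability_nu (P := P) (wt A G s)
  rw [intervalIntegrable_iff_integrableOn_Ioc_of_le hc]
  have h := (mm2_joint hP A G s hs a l c hAG ha hl).integral_prod_left
  refine h.congr (Eventually.of_forall fun θ => ?_)
  simp only
  rw [integral_const_mul, kap_shift hP A G s hs c θ a l hAG ha hl]

theorem mm2_value (hP : ExpM P C₀) (A G : Finset ι) (s : NNReal) (hs : 0 < s) (a l : ι → ℝ)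
    (c : ℝ) (hc : 0 ≤ c) (hAG : Disjoint A G) (ha : ∀ i, i ∉ A → a i = 0)
    (hl : ∀ i, i ∉ G → l i = 0) :
    Real.exp (nsq a / 2) * ∫ x, Real.exp (dot a x + c * dot l x) * dot l x ∂P =
      (∫ p, hfac a l c p * post P (wt A G s) (dot l) p.2 ∂(nu P (wt A G s))) +
        c * (∫ p, hfac a l c p * cov P (wt A G s) (dot l) (dot l) p.2 ∂(nu P (wt A G s))) +
        ∫ θ in (0 : ℝ)..c, (c - θ) * gterm P A G s c θ a l l l := by
  have := hP.prob
  have := isProbability_nu (P := P) (wt A G s)
  have gl := hP.gd_dot l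
  have gh := mm2_gd_hfac hP (wt A G s) a l c
  have gp := gd_post hP (wt A G s) gl
  have gc := gd_cov hP (wt A G s) gl gl
  have hu := mm2_wt_zero A G s hs l hl c
  rw [← hfac_integral_mul hP A G s a l c hAG ha (measurable_dot l)]
  have ht := tilt hP (wt A G s) (c • l) hu (f := dot l) (g := fun y => Real.exp (dot a y)) gl
    (Gd.nu_exp_snd (wt A G s) hP a)
  have e1 : ∀ p : (ι → ℝ) × (ι → ℝ), Real.exp (dot a p.2) * Real.exp (dot (c • l) p.1) =
      hfac a l c p := by
    intro p
    rw [← Real.exp_add, dot_smul]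
    rfl
  simp only [e1] at ht
  rw [ht]
  -- Taylor
  have gs : Gd (nu P (wt A G s)) (fun p => post P (wt A G s) (dot l) (p.2 + c • l)) :=
    Gd.shift (wt A G s) hP (c • l) hu gp
  have hT : ∀ p : (ι → ℝ) × (ι → ℝ), hfac a l c p * post P (wt A G s) (dot l) (p.2 + c • l) =
      hfac a l c p * post P (wt A G s) (dot l) p.2 +
        c * (hfac a l c p * cov P (wt A G s) (dot l) (dot l) p.2) +
        hfac a l c p * ∫ θ in (0 : ℝ)..c, (c - θ) *
          kap P (wt A G s) (dot l) (dot l) (dot l) (p.2 + θ • l) := by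
    intro p
    rw [taylor hP (wt A G s) l p.2 c]
    ring
  have gR : Gd (nu P (wt A G s)) (fun p => hfac a l c p * ∫ θ in (0 : ℝ)..c, (c - θ) *
          kap P (wt A G s) (dot l) (dot l) (dot l) (p.2 + θ • l)) := by
    have h := ((gh.mul gs).sub (gh.mul gp)).sub ((gh.mul gc).const_mul c)
    have e : (fun p : (ι → ℝ) × (ι → ℝ) => hfac a l c p * post P (wt A G s) (dot l) (p.2 + c • l) -
        hfac a l c p * post P (wt A G s) (dot l) p.2 -
        c * (hfac a l c p * cov P (wt A G s) (dot l) (dot l) p.2)) =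
        fun p => hfac a l c p * ∫ θ in (0 : ℝ)..c, (c - θ) *
          kap P (wt A G s) (dot l) (dot l) (dot l) (p.2 + θ • l) := by
      funext p
      rw [hT p]
      ring
    rw [← e]
    exact h
  rw [integral_congr_ae (Eventually.of_forall hT),
    integral_add (((gh.mul gp).add ((gh.mul gc).const_mul c)).integrable) gR.integrable,
    integral_add (gh.mul gp).integrable ((gh.mul gc).const_mul c).integrable, integral_const_mul]
  congr 1
  -- Fubini
  have hj := mm2_joint hP A G s hs a l c hAG ha hl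
  have hsw := integral_integral_swap (μ := volume.restrict (Set.Ioc (0 : ℝ) c))
    (ν := nu P (wt A G s)) (f := fun θ p => (c - θ) * (hfac a l c p *
      kap P (wt A G s) (dot l) (dot l) (dot l) (p.2 + θ • l))) hj
  rw [intervalIntegral.integral_of_le hc]
  have e2 : ∀ θ : ℝ, ∫ p, (c - θ) * (hfac a l c p *
      kap P (wt A G s) (dot l) (dot l) (dot l) (p.2 + θ • l)) ∂(nu P (wt A G s)) =
      (c - θ) * gterm P A G s c θ a l l l := by
    intro θ
    rw [integral_const_mul, kap_shift hP A G s hs c θ a l hAG ha hl]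
  simp only [e2] at hsw
  rw [hsw]
  refine integral_congr_ae (Eventually.of_forall fun p => ?_)
  simp only
  rw [intervalIntegral.integral_of_le hc, ← integral_const_mul]
  refine integral_congr_ae (Eventually.of_forall fun θ => ?_)
  simp only
  ring

end mm2_aux

/-- the derivative of `m_t`, expanded with the posterior -/
theorem hfac_deriv {ι : Type} [Fintype ι] [DecidableEq ι] {P : Measure (ι → ℝ)} {C₀ : ℝ}
    (hP : ExpM P C₀) (A G : Finset ι) (s : NNReal) (hs : 0 < s) (a l : ι → ℝ) (c : ℝ)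
    (hc : 0 ≤ c) (hAG : Disjoint A G) (ha : ∀ i, i ∉ A → a i = 0) (hl : ∀ i, i ∉ G → l i = 0) :
    HasDerivAt (fun c : ℝ => Real.exp (nsq a / 2) * ∫ x, Real.exp (dot a x + c * dot l x) ∂P)
      ((∫ p, hfac a l c p * post P (wt A G s) (dot l) p.2 ∂(nu P (wt A G s))) +
        c * (∫ p, hfac a l c p * cov P (wt A G s) (dot l) (dot l) p.2 ∂(nu P (wt A G s))) +
        ∫ θ in (0 : ℝ)..c, (c - θ) * gterm P A G s c θ a l l l) c := by
  rw [← mm2_value hP A G s hs a l c hc hAG ha hl]
  exact (mm2_deriv hP a l c).const_mul _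

end FULL
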