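import Pool.Agent.Lib.MP_8a5982_an.FULL.Final
import Pool.Agent.Lib.MP_8a5982_an.HOST.SN
import Pool.Agent.Lib.MP_8a5982_an.HOST.CharF

/-!
Project FULL: module SCALE (helper72): from probability spectral measures to finite spectral
measures (scaling of the process; the zero measure).
-/

open MeasureTheory ProbabilityTheory Filter Topology

namespace FULL

namespace ScaleAux

/-- the property `S(m,n)` is invariant under an isomorphism commuting with `T` -/
theorem hasS_of_map {X : Type} [MeasurableSpace X] (T e : X ≃ᵐ X) (hcomm : ∀ x, e (T x) = T (e x))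
    (μ : Measure X) [IsProbabilityMeasure μ] (m n : ℕ) (h : HOST.HasS T (μ.map e) m n) :
    HOST.HasS T μ m n := by
  classical
  intro L hLp hL hface
  have hE : ∀ {ι : Type}, Measurable (fun (x : ι → X) i => e (x i)) := fun {ι} =>
    measurable_pi_lambda _ fun i => e.measurable.comp (measurable_pi_apply i)
  have hES : Measurable (fun (x : Fin n → X) i => e.symm (x i)) :=
    measurable_pi_lambda _ fun i => e.symm.measurable.comp (measurable_pi_apply i)
  have p1 : IsProbabilityMeasure (μ.map e) :=
    Measure.isProbabilityMeasure_map e.measurable.aemeasurable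
  have hTm : Measurable (fun (x : Fin n → X) i => T (x i)) :=
    measurable_pi_lambda _ fun i => T.measurable.comp (measurable_pi_apply i)
  have key := h (L.map fun x i => e (x i))
    (Measure.isProbabilityMeasure_map hE.aemeasurable) ?_ ?_
  · have h2 : (L.map fun x i => e (x i)).map (fun x i => e.symm (x i)) =
        (Measure.pi fun _ : Fin n => μ.map e).map (fun x i => e.symm (x i)) := by rw [key]
    rw [Measure.map_map hES hE] at h2
    have h3 : ((fun (x : Fin n → X) i => e.symm (x i)) ∘ fun (x : Fin n → X) i => e (x i)) = id := by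
      funext x i
      simp
    rw [h3, Measure.map_id] at h2
    rw [h2]
    have h4 := Measure.pi_map_pi (μ := fun _ : Fin n => μ.map e) (f := fun _ : Fin n => ⇑e.symm)
      (fun i => e.symm.measurable.aemeasurable)
    rw [h4]
    congr 1
    funext i
    rw [Measure.map_map e.symm.measurable e.measurable]
    simp
  · refine ⟨hTm, ?_⟩
    rw [Measure.map_map hTm hE]
    have h3 : ((fun (x : Fin n → X) i => T (x i)) ∘ fun (x : Fin n → X) i => e (x i)) =
        ((fun (x : Fin n → X) i => e (x i)) ∘ fun (x : Fin n → X) i => T (x i)) := by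
      funext x i
      simp [hcomm]
    rw [h3, ← Measure.map_map hE hTm, hL.map_eq]
  · intro s hs
    have hm : Measurable (fun (x : Fin n → X) (i : s) => x i) :=
      measurable_pi_lambda _ fun i => measurable_pi_apply _
    have h5 : Measurable (fun (x : s → X) i => e (x i)) :=
      measurable_pi_lambda _ fun i => e.measurable.comp (measurable_pi_apply i)
    rw [Measure.map_map hm hE]
    have h3 : ((fun (x : Fin n → X) (i : s) => x i) ∘ fun (x : Fin n → X) i => e (x i)) =
        ((fun (x : s → X) i => e (x i)) ∘ fun (x : Fin n → X) (i : s) => x i) := by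
      funext x i
      simp
    rw [h3, ← Measure.map_map h5 hm, hface s hs]
    exact Measure.pi_map_pi (μ := fun _ : s => μ) (f := fun _ : s => ⇑e)
      (fun i => e.measurable.aemeasurable)

/-- `S(m,n)` for a point mass -/
theorem hasS_dirac {X : Type} [MeasurableSpace X] (T : X ≃ᵐ X) (x₀ : X) (m n : ℕ)
    (hm : 1 < m) (hmn : m < n) : HOST.HasS T (Measure.dirac x₀) m n := by
  classical
  intro L hLp hL hface
  have small : ∀ s : Finset (Fin n), s.card ≤ m → HOST.Box L (Measure.dirac x₀) s := by
    intro s hs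
    obtain ⟨t, hst, ht⟩ := Finset.exists_superset_card_eq hs (by simpa using hmn.le)
    exact (HOST.box_of_face (hface t ht)).mono hst
  symm
  refine Measure.pi_eq fun A hA => ?_
  by_cases hx : ∀ i, x₀ ∈ A i
  · have h1 : ∀ i, L {x | x i ∈ A i} = 1 := by
      intro i
      have h := small {i} (by simp; omega) A hA
      simpa [Measure.dirac_apply' _ (hA i), hx i] using h
    have h2 : L (Set.univ.pi A) = 1 := by
      have h3 : ∀ᵐ x ∂L, ∀ i, x i ∈ A i := by
        rw [ae_all_iff]
        intro i
        have h4 := (prob_compl_eq_zero_iff (μ := L) (s := {x | x i ∈ A i})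
          (measurable_pi_apply i (hA i))).2 (h1 i)
        exact h4
      have h5 : L (Set.univ.pi A)ᶜ = 0 := by
        refine measure_mono_null ?_ h3
        intro x hx
        simp only [Set.mem_compl_iff, Set.mem_univ_pi] at hx
        exact hx
      exact (prob_compl_eq_zero_iff (μ := L) (MeasurableSet.univ_pi hA)).1 h5
    rw [h2]
    symm
    refine Finset.prod_eq_one fun i _ => ?_
    rw [Measure.dirac_apply' _ (hA i)]
    simp [hx i]
  · push Not at hx
    obtain ⟨i, hi⟩ := hx
    have h1 : L {x | x i ∈ A i} = 0 := by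
      have h := small {i} (by simp; omega) A hA
      simpa [Measure.dirac_apply' _ (hA i), hi] using h
    have h2 : L (Set.univ.pi A) = 0 := by
      refine measure_mono_null ?_ h1
      intro x hx
      exact hx i (Set.mem_univ i)
    rw [h2]
    symm
    refine Finset.prod_eq_zero (Finset.mem_univ i) ?_
    rw [Measure.dirac_apply' _ (hA i)]
    simp [hi]

/-- the process with zero spectral measure is zero -/
theorem eq_dirac_of_zero (μ : Measure (ℤ → ℝ)) (hμ : HOST.IsGaussianShift 0 μ) :
    μ = Measure.dirac 0 := by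
  have hμp : IsProbabilityMeasure μ := hμ.1
  refine HOST.ext_seq _ _ fun s a => ?_
  rw [hμ.2 s a]
  simp

/-- scaling of the spectral measure -/
theorem scaled (σ : Measure UnitAddCircle) [IsFiniteMeasure σ]
    (μ : Measure (ℤ → ℝ)) (hμ : HOST.IsGaussianShift σ μ) (c : ℝ)
    (hc : c ^ 2 = ((σ Set.univ)⁻¹).toReal) (e : (ℤ → ℝ) ≃ᵐ (ℤ → ℝ))
    (he : ∀ ω k, e ω k = c * ω k) :
    HOST.IsGaussianShift ((σ Set.univ)⁻¹ • σ) (μ.map e) := by
  have hμp : IsProbabilityMeasure μ := hμ.1
  refine ⟨Measure.isProbabilityMeasure_map e.measurable.aemeasurable, fun s a => ?_⟩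
  have hmeas : Measurable fun ω : ℤ → ℝ =>
      Complex.exp (Complex.I * ((∑ k ∈ s, a k * ω k : ℝ) : ℂ)) := by
    have : Measurable fun ω : ℤ → ℝ => ∑ k ∈ s, a k * ω k := by fun_prop
    exact Complex.measurable_exp.comp
      (measurable_const.mul (Complex.measurable_ofReal.comp this))
  rw [integral_map e.measurable.aemeasurable hmeas.aestronglyMeasurable]
  have h := hμ.2 s (fun k => c * a k)
  have h1 : (fun ω : ℤ → ℝ => Complex.exp (Complex.I * ((∑ k ∈ s, a k * e ω k : ℝ) : ℂ))) =
      fun ω => Complex.exp (Complex.I * ((∑ k ∈ s, (c * a k) * ω k : ℝ) : ℂ)) := by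
    funext ω
    congr 3
    refine Finset.sum_congr rfl fun k _ => ?_
    rw [he]
    ring
  rw [h1, h]
  congr 1
  congr 1
  refine Finset.sum_congr rfl fun k _ => Finset.sum_congr rfl fun l _ => ?_
  rw [integral_smul_measure, Complex.real_smul, ← hc]
  push_cast
  ring

end ScaleAux

theorem full_final (σ : Measure UnitAddCircle) [IsFiniteMeasure σ]
    (hsymm : σ.map (fun x => -x) = σ) (hna : ∀ x, σ {x} = 0)
    (hsing : σ ⟂ₘ (volume : Measure UnitAddCircle)) (μ : Measure (ℤ → ℝ))
    (hμ : HOST.IsGaussianShift σ μ) (m n : ℕ) (hm : 1 < m) (hmn : m < n) :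
    HOST.HasS HOST.shift μ m n := by
  have hμp : IsProbabilityMeasure μ := hμ.1
  by_cases hσ : σ = 0
  · subst hσ
    rw [ScaleAux.eq_dirac_of_zero μ hμ]
    exact ScaleAux.hasS_dirac _ _ m n hm hmn
  have hu : σ Set.univ ≠ 0 := by simpa using hσ
  have hut : σ Set.univ ≠ ⊤ := measure_ne_top _ _
  have hr : 0 < ((σ Set.univ)⁻¹).toReal :=
    ENNReal.toReal_pos (ENNReal.inv_ne_zero.2 hut) (ENNReal.inv_ne_top.2 hu)
  set c : ℝ := Real.sqrt ((σ Set.univ)⁻¹).toReal with hc
  have hc0 : c ≠ 0 := (Real.sqrt_pos.2 hr).ne'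
  have hc2 : c ^ 2 = ((σ Set.univ)⁻¹).toReal := Real.sq_sqrt hr.le
  have : NeZero σ := ⟨hσ⟩
  have hp : IsProbabilityMeasure ((σ Set.univ)⁻¹ • σ) := inferInstance
  refine ScaleAux.hasS_of_map HOST.shift (MeasurableEquiv.smul₀ c hc0) (fun x => ?_) μ m n ?_
  · funext k
    rfl
  · refine full_hasS ((σ Set.univ)⁻¹ • σ) ?_ ?_ ?_ _
      (ScaleAux.scaled σ μ hμ c hc2 _ fun ω k => rfl) m n hm hmn
    · rw [Measure.map_smul, hsymm]
    · intro x
      rw [Measure.smul_apply, hna x, smul_zero]
    · exact hsing.smul _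

end FULL
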