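import Pool.Agent.Lib.MP_8a5982_an.FULL.Gauss

/-!
Project FULL, module STEIN: Gaussian integration by parts.
-/

set_option autoImplicit false

open MeasureTheory ProbabilityTheory Filter Topology

namespace FULL

/-- replacing one coordinate by an independent copy -/
theorem measurePreserving_update {ι : Type} [Fintype ι] [DecidableEq ι] (w : ι → NNReal) (i : ι) :
    MeasurePreserving (fun q : ℝ × (ι → ℝ) => Function.update q.2 i q.1)
      ((gaussianReal 0 (w i)).prod (gam w)) (gam w) := by
  have hm : Measurable (fun q : ℝ × (ι → ℝ) => Function.update q.2 i q.1) := by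
    rw [measurable_pi_iff]
    intro j
    by_cases hj : j = i
    · subst hj
      simp only [Function.update_self]
      exact measurable_fst
    · simp only [Function.update_of_ne hj]
      exact (measurable_pi_apply j).comp measurable_snd
  refine ⟨hm, ?_⟩
  symm
  refine Measure.pi_eq fun s hs => ?_
  rw [Measure.map_apply hm (MeasurableSet.univ_pi hs)]
  have h1 : (fun q : ℝ × (ι → ℝ) => Function.update q.2 i q.1) ⁻¹' (Set.univ.pi s) =
      (s i) ×ˢ (Set.univ.pi (Function.update s i Set.univ)) := by
    ext q
    simp only [Set.mem_preimage, Set.mem_pi, Set.mem_univ, true_implies, Set.mem_prod]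
    constructor
    · intro h
      refine ⟨by simpa using h i, fun j => ?_⟩
      by_cases hj : j = i
      · subst hj; simp
      · simpa [Function.update_of_ne hj] using h j
    · rintro ⟨h1, h2⟩ j
      by_cases hj : j = i
      · subst hj; simpa using h1
      · have := h2 j
        simpa [Function.update_of_ne hj] using this
  rw [h1, Measure.prod_prod, gam, Measure.pi_pi, ← Finset.mul_prod_erase _ _ (Finset.mem_univ i),
    ← Finset.mul_prod_erase Finset.univ (fun j => (gaussianReal 0 (w j)) (s j))
      (Finset.mem_univ i)]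
  rw [Function.update_self, measure_univ, one_mul]
  congr 1
  apply Finset.prod_congr rfl
  intro j hj
  rw [Function.update_of_ne (Finset.ne_of_mem_erase hj)]

/-- one dimension -/
theorem stein1 (v : NNReal) (hv : v ≠ 0) (f f' : ℝ → ℝ) (hder : ∀ t, HasDerivAt f (f' t) t)
    (hf : Integrable f (gaussianReal 0 v)) (hf1 : Integrable (fun t => t * f t) (gaussianReal 0 v))
    (hf' : Integrable f' (gaussianReal 0 v)) :
    ∫ t, t * f t ∂(gaussianReal 0 v) = v * ∫ t, f' t ∂(gaussianReal 0 v) := by
  have hv' : (v : ℝ) ≠ 0 := by exact_mod_cast hv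
  have hpdf : ∀ t, HasDerivAt (gaussianPDFReal 0 v) (-(t / v) * gaussianPDFReal 0 v t) t := by
    intro t
    have h0 : HasDerivAt (fun t : ℝ => -(t - 0) ^ 2 / (2 * (v : ℝ))) (-(t / v)) t := by
      have h := (((hasDerivAt_id t).sub_const 0).pow 2).neg.div_const (2 * (v : ℝ))
      refine h.congr_deriv ?_
      simp
      field_simp
    have h := (h0.exp).const_mul ((Real.sqrt (2 * Real.pi * v))⁻¹)
    refine h.congr_deriv ?_
    rw [gaussianPDFReal]
    ring
  have hint : ∀ g : ℝ → ℝ, Integrable g (gaussianReal 0 v) →
      Integrable (fun t => gaussianPDFReal 0 v t * g t) := by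
    intro g hg
    rw [gaussianReal_of_var_ne_zero _ hv] at hg
    have h := (integrable_withDensity_iff_integrable_smul' (measurable_gaussianPDF 0 v)
      (Eventually.of_forall fun x => gaussianPDF_lt_top)).1 hg
    simpa [toReal_gaussianPDF] using h
  have h1 : ∀ t, HasDerivAt (fun t => gaussianPDFReal 0 v t * f t)
      (gaussianPDFReal 0 v t * f' t - (gaussianPDFReal 0 v t * (t * f t)) / v) t := by
    intro t
    have := (hpdf t).mul (hder t)
    refine this.congr_deriv ?_
    ring
  have h2 := integral_eq_zero_of_hasDerivAt_of_integrable h1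
    ((hint _ hf').sub ((hint _ hf1).div_const _)) (hint _ hf)
  rw [integral_sub (hint _ hf') ((hint _ hf1).div_const _), integral_div] at h2
  rw [integral_gaussianReal_eq_integral_smul hv, integral_gaussianReal_eq_integral_smul hv]
  simp only [smul_eq_mul]
  have h3 : ∫ t, gaussianPDFReal 0 v t * f' t = (∫ t, gaussianPDFReal 0 v t * (t * f t)) / v := by
    linarith
  rw [h3, mul_div_cancel₀ _ hv']

theorem stein {ι : Type} [Fintype ι] [DecidableEq ι] (w : ι → NNReal) (i : ι)
    (F F' : (ι → ℝ) → ℝ)
    (hder : ∀ B : ι → ℝ, HasDerivAt (fun t => F (Function.update B i t)) (F' B) (B i))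
    (hF : Integrable F (gam w)) (hF1 : Integrable (fun B => B i * F B) (gam w))
    (hF' : Integrable F' (gam w)) :
    ∫ B, B i * F B ∂(gam w) = w i * ∫ B, F' B ∂(gam w) := by
  by_cases hw : w i = 0
  · rw [hw]
    simp only [NNReal.coe_zero, zero_mul]
    have h0 : ∀ᵐ B ∂(gam w), B i = 0 := by
      have h1 := (measurePreserving_eval (fun i => gaussianReal 0 (w i)) i).quasiMeasurePreserving.ae
        (p := fun x => x = 0) (by rw [hw, gaussianReal_zero_var]; simp [ae_dirac_eq])
      exact h1
    rw [integral_eq_zero_of_ae]
    filter_upwards [h0] with B hB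
    simp [hB]
  · have hmp := measurePreserving_update w i
    have key : ∀ G : (ι → ℝ) → ℝ, Integrable G (gam w) →
        ∫ B, G B ∂(gam w) = ∫ B, ∫ t, G (Function.update B i t) ∂(gaussianReal 0 (w i)) ∂(gam w) ∧
        ∀ᵐ B ∂(gam w), Integrable (fun t => G (Function.update B i t)) (gaussianReal 0 (w i)) := by
      intro G hG
      have h1 : Integrable (fun q : ℝ × (ι → ℝ) => G (Function.update q.2 i q.1))
          ((gaussianReal 0 (w i)).prod (gam w)) := hmp.integrable_comp_of_integrable hG
      refine ⟨?_, h1.prod_left_ae⟩
      rw [← integral_prod_symm _ h1]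
      conv_lhs => rw [← hmp.map_eq]
      rw [integral_map hmp.measurable.aemeasurable (by rw [hmp.map_eq]; exact hG.1)]
    obtain ⟨e1, a1⟩ := key _ hF1
    obtain ⟨e2, a2⟩ := key _ hF'
    obtain ⟨-, a3⟩ := key _ hF
    rw [e1, e2, ← integral_const_mul]
    apply integral_congr_ae
    filter_upwards [a1, a2, a3] with B b1 b2 b3
    have hd : ∀ t, HasDerivAt (fun t => F (Function.update B i t)) (F' (Function.update B i t)) t := by
      intro t
      have := hder (Function.update B i t)
      simpa using this
    have := stein1 (w i) hw (fun t => F (Function.update B i t))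
      (fun t => F' (Function.update B i t)) hd b3 (by simpa using b1) b2
    simpa using this

end FULL
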