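import Pool.Agent.Lib.MP_8a5982_an.FULL.Defs
import Pool.Agent.Lib.MP_8a5982_an.FULL.H84.AH

/-!
Project FULL, module TCA (helper33): the abstract limit argument.
-/

open MeasureTheory ProbabilityTheory Filter Topology

namespace FULL

/-- bounded real sequences converge along an ultrafilter -/
theorem exists_ulim (U : Ultrafilter ℕ) (x : ℕ → ℝ) (K : ℝ) (hx : ∀ N, |x N| ≤ K) :
    ∃ y, Tendsto x U (𝓝 y) := by
  have h1 : IsCompact (Set.Icc (-K) K) := isCompact_Icc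
  obtain ⟨y, -, hy⟩ := h1.ultrafilter_le_nhds (U.map x) (by
    rw [Filter.le_principal_iff]
    refine Filter.mem_map.2 (Filter.univ_mem' fun N => ?_)
    exact abs_le.1 (hx N))
  exact ⟨y, hy⟩

theorem tc_abstract (U : Ultrafilter ℕ) (K : ℝ) (hK : 0 ≤ K) (Γ : ℕ → ℤ → ℤ → ℤ → ℝ)
    (r : ℕ → ℤ → ℤ → ℝ) (q : ℕ → ℤ → ℝ) (W : ℕ → ℕ) (hW : Tendsto W U atTop)
    (bΓ : ∀ N i j k, |Γ N i j k| ≤ K) (br : ∀ N i i', |r N i i'| ≤ K)
    (sΓ : ∀ N i j k, |Γ N (i + 1) (j + 1) (k + 1) - Γ N i j k| ≤ K / W N)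
    (sr : ∀ N i i', |r N (i + 1) (i' + 1) - r N i i'| ≤ K / W N)
    (cr : ∀ N i i', r N i i' = r N i' i)
    (pr : ∀ N, ∀ (s : Finset ℤ) (Φ : ℤ → ℝ), 0 ≤ ∑ i ∈ s, ∑ i' ∈ s, Φ i * Φ i' * r N i i')
    (g12 : ∀ N k, ∀ (s : Finset (ℤ × ℤ)) (Φ : ℤ × ℤ → ℝ),
      (∑ p ∈ s, Φ p * Γ N p.1 p.2 k) ^ 2 ≤
        K * ∑ p ∈ s, ∑ p' ∈ s, Φ p * Φ p' * (r N p.1 p'.1 * q N (p.2 - p'.2)))
    (g13 : ∀ N j, ∀ (s : Finset (ℤ × ℤ)) (Φ : ℤ × ℤ → ℝ),
      (∑ p ∈ s, Φ p * Γ N p.1 j p.2) ^ 2 ≤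
        K * ∑ p ∈ s, ∑ p' ∈ s, Φ p * Φ p' * (r N p.1 p'.1 * q N (p.2 - p'.2)))
    (g23 : ∀ N i, ∀ (s : Finset (ℤ × ℤ)) (Φ : ℤ × ℤ → ℝ),
      (∑ p ∈ s, Φ p * Γ N i p.1 p.2) ^ 2 ≤
        K * ∑ p ∈ s, ∑ p' ∈ s, Φ p * Φ p' * (q N (p.1 - p'.1) * q N (p.2 - p'.2)))
    (τ : Measure UnitAddCircle) [IsFiniteMeasure τ] (hna : ∀ x, τ {x} = 0)
    (hs : τ ⟂ₘ (volume : Measure UnitAddCircle)) (qq : ℤ → ℝ)
    (hq : ∀ t, Tendsto (fun N => q N t) U (𝓝 (qq t)))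
    (hqτ : ∀ t : ℤ, ∫ x, (fourier t x : ℂ) ∂τ = (qq t : ℂ)) :
    Tendsto (fun N => Γ N 0 0 0) U (𝓝 0) := by
  choose G hG using fun i j k : ℤ => exists_ulim U (fun N => Γ N i j k) K (fun N => bΓ N i j k)
  choose R hR using fun i i' : ℤ => exists_ulim U (fun N => r N i i') K (fun N => br N i i')
  have hKW : Tendsto (fun N => K / (W N : ℝ)) U (𝓝 0) :=
    Tendsto.const_div_atTop (tendsto_natCast_atTop_atTop.comp hW) K
  have ev0 : ∀ {f : ℕ → ℝ} {y : ℝ}, Tendsto f U (𝓝 y) → (∀ N, |f N| ≤ K / W N) → y = 0 := by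
    intro f y hf hb
    have h1 : Tendsto (fun N => |f N|) U (𝓝 |y|) := hf.abs
    have h2 : |y| ≤ 0 := le_of_tendsto_of_tendsto' h1 hKW hb
    exact abs_nonpos_iff.1 h2
  have hGs : ∀ b c d, G (b + 1) (c + 1) (d + 1) = G b c d := by
    intro b c d
    have h1 := ev0 ((hG (b + 1) (c + 1) (d + 1)).sub (hG b c d)) (fun N => sΓ N b c d)
    linarith
  have hRs : ∀ i i', R (i + 1) (i' + 1) = R i i' := by
    intro i i'
    have h1 := ev0 ((hR (i + 1) (i' + 1)).sub (hR i i')) (fun N => sr N i i')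
    linarith
  have hRc : ∀ i i', R i i' = R i' i := by
    intro i i'
    refine tendsto_nhds_unique (hR i i') ?_
    refine (hR i' i).congr fun N => ?_
    exact cr N i' i
  have hRn : ∀ (n : ℕ) (i i' : ℤ), R (i + n) (i' + n) = R i i' := by
    intro n
    induction n with
    | zero => intro i i'; simp
    | succ n ih =>
      intro i i'
      have h1 := hRs (i + n) (i' + n)
      rw [ih] at h1
      rw [← h1]
      push_cast
      ring_nf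
  have hRz : ∀ (z i i' : ℤ), R (i + z) (i' + z) = R i i' := by
    intro z i i'
    obtain ⟨n, hn | hn⟩ := z.eq_nat_or_neg
    · subst hn; exact hRn n i i'
    · subst hn
      have h1 := hRn n (i + -(n : ℤ)) (i' + -(n : ℤ))
      rw [← h1]
      ring_nf
  have hRd : ∀ i i', R i i' = R (i - i') 0 := by
    intro i i'
    have h1 := hRz (-i') i i'
    rw [← h1]
    ring_nf
  have key := Full.H84.ah G (fun t => R t 0) qq τ K hGs ?_ ?_ (fun t => (hqτ t).symm) hna hs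
    ?_ ?_ ?_ 0 0 0
  · rw [← key]; exact hG 0 0 0
  · intro s Φ
    have h1 : Tendsto (fun N => ∑ i ∈ s, ∑ i' ∈ s, Φ i * Φ i' * r N i i') U
        (𝓝 (∑ i ∈ s, ∑ i' ∈ s, Φ i * Φ i' * R i i')) :=
      tendsto_finsetSum _ fun i _ => tendsto_finsetSum _ fun i' _ => (hR i i').const_mul _
    have h2 := ge_of_tendsto' h1 (fun N => pr N s Φ)
    refine h2.trans_eq (Finset.sum_congr rfl fun i _ => Finset.sum_congr rfl fun i' _ => ?_)
    rw [hRd i i']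
  · intro t
    have h1 := hRz t (-t) 0
    rw [neg_add_cancel, zero_add] at h1
    rw [← h1, hRc]
  · intro s Φ
    have h1 : Tendsto (fun N => (∑ p ∈ s, Φ p * Γ N p.1 p.2 0) ^ 2) U
        (𝓝 ((∑ p ∈ s, Φ p * G p.1 p.2 0) ^ 2)) :=
      (tendsto_finsetSum _ fun p _ => (hG p.1 p.2 0).const_mul _).pow 2
    have h2 : Tendsto (fun N => K * ∑ p ∈ s, ∑ p' ∈ s, Φ p * Φ p' *
        (r N p.1 p'.1 * q N (p.2 - p'.2))) U
        (𝓝 (K * ∑ p ∈ s, ∑ p' ∈ s, Φ p * Φ p' * (R p.1 p'.1 * qq (p.2 - p'.2)))) :=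
      (tendsto_finsetSum _ fun p _ => tendsto_finsetSum _ fun p' _ =>
        ((hR p.1 p'.1).mul (hq _)).const_mul _).const_mul _
    have h3 := le_of_tendsto_of_tendsto' h1 h2 (fun N => g12 N 0 s Φ)
    refine h3.trans_eq ?_
    congr 1
    refine Finset.sum_congr rfl fun p _ => Finset.sum_congr rfl fun p' _ => ?_
    rw [hRd p.1 p'.1]
  · intro s Φ
    have h1 : Tendsto (fun N => (∑ p ∈ s, Φ p * Γ N p.1 0 p.2) ^ 2) U
        (𝓝 ((∑ p ∈ s, Φ p * G p.1 0 p.2) ^ 2)) :=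
      (tendsto_finsetSum _ fun p _ => (hG p.1 0 p.2).const_mul _).pow 2
    have h2 : Tendsto (fun N => K * ∑ p ∈ s, ∑ p' ∈ s, Φ p * Φ p' *
        (r N p.1 p'.1 * q N (p.2 - p'.2))) U
        (𝓝 (K * ∑ p ∈ s, ∑ p' ∈ s, Φ p * Φ p' * (R p.1 p'.1 * qq (p.2 - p'.2)))) :=
      (tendsto_finsetSum _ fun p _ => tendsto_finsetSum _ fun p' _ =>
        ((hR p.1 p'.1).mul (hq _)).const_mul _).const_mul _
    have h3 := le_of_tendsto_of_tendsto' h1 h2 (fun N => g13 N 0 s Φ)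
    refine h3.trans_eq ?_
    congr 1
    refine Finset.sum_congr rfl fun p _ => Finset.sum_congr rfl fun p' _ => ?_
    rw [hRd p.1 p'.1]
  · intro s Φ
    have h1 : Tendsto (fun N => (∑ p ∈ s, Φ p * Γ N 0 p.1 p.2) ^ 2) U
        (𝓝 ((∑ p ∈ s, Φ p * G 0 p.1 p.2) ^ 2)) :=
      (tendsto_finsetSum _ fun p _ => (hG 0 p.1 p.2).const_mul _).pow 2
    have h2 : Tendsto (fun N => K * ∑ p ∈ s, ∑ p' ∈ s, Φ p * Φ p' *
        (q N (p.1 - p'.1) * q N (p.2 - p'.2))) U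
        (𝓝 (K * ∑ p ∈ s, ∑ p' ∈ s, Φ p * Φ p' * (qq (p.1 - p'.1) * qq (p.2 - p'.2)))) :=
      (tendsto_finsetSum _ fun p _ => tendsto_finsetSum _ fun p' _ =>
        ((hq _).mul (hq _)).const_mul _).const_mul _
    exact le_of_tendsto_of_tendsto' h1 h2 (fun N => g23 N 0 s Φ)

end FULL
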