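import Pool.Agent.Lib.MP_8a5982_an.FULL.Defs
import Pool.Agent.Lib.MP_8a5982_an.FULL.Tca
import Pool.Agent.Lib.MP_8a5982_an.FULL.G12
import Pool.Agent.Lib.MP_8a5982_an.FULL.G23
import Pool.Agent.Lib.MP_8a5982_an.FULL.Arr

/-!
Project FULL, module TCW: the limit for window systems.
-/

open MeasureTheory ProbabilityTheory Filter Topology

namespace FULL

private theorem pair_mono {x y K K' : ℝ} (hK : 0 < K) (h : x ^ 2 ≤ K * y) (hKK' : K ≤ K') :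
    x ^ 2 ≤ K' * y := by
  have hy : 0 ≤ y := by
    by_contra hlt
    have h1 : K * y < 0 := mul_neg_of_pos_of_neg hK (not_le.mp hlt)
    have h2 := sq_nonneg x
    linarith
  exact h.trans (mul_le_mul_of_nonneg_right hKK' hy)

theorem tc_win (C₀ : ℝ) (s₀ : NNReal) (hs₀ : 0 < s₀) (U : Ultrafilter ℕ) (ι : ℕ → Type)
    [∀ N, Fintype (ι N)] [∀ N, DecidableEq (ι N)] (S : ∀ N, Win (ι N))
    (hS : ∀ N, IsWin C₀ s₀ (S N)) (hW : Tendsto (fun N => (S N).W) U atTop) (c θ : ℕ → ℝ)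
    (hθ : ∀ N, 0 ≤ θ N) (hθc : ∀ N, θ N ≤ c N) (hc : ∀ N, c N ≤ 1)
    (τ : Measure UnitAddCircle) [IsFiniteMeasure τ] (hna : ∀ x, τ {x} = 0)
    (hs : τ ⟂ₘ (volume : Measure UnitAddCircle)) (qq : ℤ → ℝ)
    (hq : ∀ t, Tendsto (fun N => (S N).q t) U (𝓝 (qq t)))
    (hqτ : ∀ t : ℤ, ∫ x, (fourier t x : ℂ) ∂τ = (qq t : ℂ)) :
    Tendsto (fun N => (S N).Gam s₀ (c N) (θ N) 0 0 0) U (𝓝 0) := by
  obtain ⟨K1, hK1, g1⟩ := gram12 C₀ s₀ hs₀
  obtain ⟨K2, hK2, g2⟩ := gram23 C₀ s₀ hs₀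
  obtain ⟨K3, hK3, g3⟩ := arr_bounds C₀ s₀ hs₀
  rcases hK1.eq_or_lt with h1 | h1
  · have h0 : ∀ N, (S N).Gam s₀ (c N) (θ N) 0 0 0 = 0 := by
      intro N
      have h := g1 (ι N) (S N) (hS N) (c N) (θ N) (hθ N) (hθc N) (hc N) 0 {((0 : ℤ), (0 : ℤ))}
        (fun _ => 1)
      rw [← h1, zero_mul, Finset.sum_singleton, one_mul] at h
      exact pow_eq_zero_iff (two_ne_zero) |>.mp (le_antisymm h (sq_nonneg _))
    simp only [h0]
    exact tendsto_const_nhds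
  rcases hK2.eq_or_lt with h2 | h2
  · have h0 : ∀ N, (S N).Gam s₀ (c N) (θ N) 0 0 0 = 0 := by
      intro N
      have h := g2 (ι N) (S N) (hS N) (c N) (θ N) (hθ N) (hθc N) (hc N) 0 {((0 : ℤ), (0 : ℤ))}
        (fun _ => 1)
      rw [← h2, zero_mul, Finset.sum_singleton, one_mul] at h
      exact pow_eq_zero_iff (two_ne_zero) |>.mp (le_antisymm h (sq_nonneg _))
    simp only [h0]
    exact tendsto_const_nhds
  have hK : (0 : ℝ) ≤ K1 + K2 + K3 := by linarith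
  have hk1 : K1 ≤ K1 + K2 + K3 := by linarith
  have hk2 : K2 ≤ K1 + K2 + K3 := by linarith
  have hk3 : K3 ≤ K1 + K2 + K3 := by linarith
  have hW0 : ∀ N, (0 : ℝ) ≤ ((S N).W : ℝ) := fun N => Nat.cast_nonneg _
  refine tc_abstract U (K1 + K2 + K3) hK (fun N => (S N).Gam s₀ (c N) (θ N))
    (fun N => (S N).r1 s₀ (c N) (θ N)) (fun N => (S N).q) (fun N => (S N).W) hW
    ?_ ?_ ?_ ?_ ?_ ?_ ?_ ?_ ?_ τ hna hs qq hq hqτ
  · intro N i j k
    exact ((g3 (ι N) (S N) (hS N) (c N) (θ N) (hθ N) (hθc N) (hc N)).1 i j k).trans hk3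
  · intro N i i'
    exact ((g3 (ι N) (S N) (hS N) (c N) (θ N) (hθ N) (hθc N) (hc N)).2.2.1 i i').trans hk3
  · intro N i j k
    exact ((g3 (ι N) (S N) (hS N) (c N) (θ N) (hθ N) (hθc N) (hc N)).2.1 i j k).trans
      (div_le_div_of_nonneg_right hk3 (hW0 N))
  · intro N i i'
    exact ((g3 (ι N) (S N) (hS N) (c N) (θ N) (hθ N) (hθc N) (hc N)).2.2.2.1 i i').trans
      (div_le_div_of_nonneg_right hk3 (hW0 N))
  · intro N i i'
    exact r1_comm (S N) s₀ (c N) (θ N) i i'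
  · intro N s Φ
    exact (g3 (ι N) (S N) (hS N) (c N) (θ N) (hθ N) (hθc N) (hc N)).2.2.2.2 s Φ
  · intro N k s Φ
    exact pair_mono h1 (g1 (ι N) (S N) (hS N) (c N) (θ N) (hθ N) (hθc N) (hc N) k s Φ) hk1
  · intro N j s Φ
    have h := g1 (ι N) (S N) (hS N) (c N) (θ N) (hθ N) (hθc N) (hc N) j s Φ
    have he : ∑ p ∈ s, Φ p * (S N).Gam s₀ (c N) (θ N) p.1 j p.2 =
        ∑ p ∈ s, Φ p * (S N).Gam s₀ (c N) (θ N) p.1 p.2 j :=
      Finset.sum_congr rfl fun p _ => by rw [Gam_comm]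
    rw [← he] at h
    exact pair_mono h1 h hk1
  · intro N i s Φ
    exact pair_mono h2 (g2 (ι N) (S N) (hS N) (c N) (θ N) (hθ N) (hθc N) (hc N) i s Φ) hk2

end FULL
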