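import Pool.Agent.Lib.MP_8a5982_an.HO.H84.Herglotz
import Pool.Agent.Lib.MP_8a5982_an.STAR.Gfam
import Pool.Agent.Lib.MP_8a5982_an.HOST.Defs

/-!
Project FULL, module WN1 (helper12): the Gaussian shift of Lebesgue measure is white noise.
-/

open MeasureTheory ProbabilityTheory

namespace FULL

theorem white_noise_iid (ν : Measure (ℤ → ℝ)) (hν : HOST.IsGaussianShift volume ν) (n : ℕ) :
    ν.map (fun ω (i : Fin n) => ω (i : ℕ)) =
      Measure.pi fun _ : Fin n => gaussianReal 0 1 := by
  classical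
  have := hν.1
  refine STAR.gauss_family ν (fun (i : Fin n) (ω : ℤ → ℝ) => ω ((i : ℕ) : ℤ))
    (fun i => measurable_pi_apply _) (fun _ => 1) (fun α => ?_)
  let e : Fin n ↪ ℤ := ⟨fun i => ((i : ℕ) : ℤ), fun i j h => by
    have : ((i : ℕ) : ℤ) = ((j : ℕ) : ℤ) := h
    exact Fin.ext (by exact_mod_cast this)⟩
  let a : ℤ → ℝ := fun k => if h : ∃ i : Fin n, e i = k then α h.choose else 0
  have ha : ∀ i : Fin n, a (e i) = α i := by
    intro i
    have h : ∃ j : Fin n, e j = e i := ⟨i, rfl⟩
    have h2 : h.choose = i := e.injective h.choose_spec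
    simp only [a, dif_pos h, h2]
  have key := hν.2 (Finset.univ.map e) a
  simp only [Finset.sum_map, ha] at key
  have hl : ∀ ω : ℤ → ℝ, ∑ i, α i * ω (e i) = ∑ i : Fin n, α i * ω ((i : ℕ) : ℤ) := fun ω => rfl
  simp only [hl] at key
  rw [key]
  congr 2
  have hv : ∀ i j : Fin n, ∫ x, (fourier (e i - e j) x : ℂ) ∂(volume : Measure UnitAddCircle) =
      if i = j then 1 else 0 := by
    intro i j
    rw [HostSn.H84.integral_fourier_volume]
    by_cases h : i = j
    · subst h; simp
    · rw [if_neg h, if_neg]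
      intro h2
      exact h (e.injective (sub_eq_zero.1 h2))
  simp only [hv]
  push_cast
  refine Finset.sum_congr rfl fun i _ => ?_
  simp [sq]

end FULL
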